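import Pool.Agent.ANL.Base

/-! # ANI SCHUR: the bridge between the full torus and the non-hole sites (helper75)

`X` = non-hole sites, `b` real off `X`, `MBB = (H + diag b)` on the holes, invertible.
`Heff = H_XX - H_XB MBB⁻¹ H_BX` on `X`.  Then
* `rsc_eff`: `(H + diag b)⁻¹` on `X × X` is `rsc Heff (b|X)`;
* `unit_eff`, `adm_of_eff`: `H + diag b` is invertible iff `Heff + diag b|X` is;
* `realSym_eff`: `Heff` is real symmetric.
-/

open Matrix Finset

noncomputable section

namespace Pool.Agent.ANI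

open Pool.Agent.Kin Pool.Agent.APS Pool.Agent.ANL

variable {ι : Type} [Fintype ι] [DecidableEq ι] {H : Matrix ι ι ℂ} {b : ι → ℂ}
  {X : Finset ι}

/-- the block of `H + diag b` on the holes -/
def MBB (H : Matrix ι ι ℂ) (b : ι → ℂ) (X : Finset ι) : Matrix {x // x ∉ X} {x // x ∉ X} ℂ :=
  (H + diagonal b).submatrix Subtype.val Subtype.val

/-- the Schur complement of the holes -/
def Heff (H : Matrix ι ι ℂ) (b : ι → ℂ) (X : Finset ι) : Matrix {x // x ∈ X} {x // x ∈ X} ℂ :=
  fun x y => H x y - ∑ z : {x // x ∉ X}, ∑ w : {x // x ∉ X},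
    H x z * (MBB H b X)⁻¹ z w * H w y

private lemma split (f : ι → ℂ) :
    ∑ y, f y = ∑ y : {x // x ∈ X}, f y + ∑ y : {x // x ∉ X}, f y := by
  rw [← Fintype.sum_subtype_add_sum_subtype (fun x => x ∈ X) f]
  refine congrArg₂ (fun a b : ℂ => a + b) ?_ ?_
  · exact Finset.sum_congr (Finset.ext fun x => by simp only [Finset.mem_univ]) fun _ _ => rfl
  · exact Finset.sum_congr (Finset.ext fun x => by simp only [Finset.mem_univ]) fun _ _ => rfl

private lemma mv (v : ι → ℂ) (x : ι) :
    ((H + diagonal b) *ᵥ v) x = ∑ y, H x y * v y + b x * v x := by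
  rw [Matrix.add_mulVec, Pi.add_apply, Matrix.mulVec_diagonal]
  rfl

private lemma mbb_mv (u : {x // x ∉ X} → ℂ) (x : {x // x ∉ X}) :
    (MBB H b X *ᵥ u) x = ∑ y : {x // x ∉ X}, H x y * u y + b x * u x := by
  have h1 : MBB H b X = H.submatrix Subtype.val Subtype.val +
      diagonal (fun x : {x // x ∉ X} => b x) := by
    ext i j
    simp only [MBB, Matrix.submatrix_apply, Matrix.add_apply]
    congr 1
    by_cases hij : i = j
    · subst hij; simp
    · rw [Matrix.diagonal_apply_ne _ hij, Matrix.diagonal_apply_ne]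
      exact fun h => hij (Subtype.ext h)
  rw [h1, Matrix.add_mulVec, Pi.add_apply, Matrix.mulVec_diagonal]
  rfl

/-- a solution without source on the holes -/
theorem hole_sol (hB : IsUnit (MBB H b X).det) {v : ι → ℂ}
    (hv : ∀ x, x ∉ X → ((H + diagonal b) *ᵥ v) x = 0) (x : {x // x ∉ X}) :
    v x = -∑ z : {x // x ∉ X}, (MBB H b X)⁻¹ x z * ∑ y : {x // x ∈ X}, H z y * v y := by
  have h1 : MBB H b X *ᵥ (fun y : {x // x ∉ X} => v y) =
      fun z : {x // x ∉ X} => -∑ y : {x // x ∈ X}, H z y * v y := by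
    funext z
    rw [mbb_mv]
    have h2 := hv z z.2
    rw [mv, split (X := X)] at h2
    linear_combination h2
  have h3 : (fun y : {x // x ∉ X} => v y) = (MBB H b X)⁻¹ *ᵥ
      (fun z : {x // x ∉ X} => -∑ y : {x // x ∈ X}, H z y * v y) := by
    rw [← h1, Matrix.mulVec_mulVec, Matrix.nonsing_inv_mul _ hB, Matrix.one_mulVec]
  have h4 : v x = ((MBB H b X)⁻¹ *ᵥ
      (fun z : {x // x ∉ X} => -∑ y : {x // x ∈ X}, H z y * v y)) x := congrFun h3 x
  rw [h4]
  show ∑ z, (MBB H b X)⁻¹ x z * (-∑ y : {x // x ∈ X}, H z y * v y) = _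
  rw [← Finset.sum_neg_distrib]
  exact Finset.sum_congr rfl fun z _ => by ring

/-- the effective equation on `X` -/
theorem eff_eq (hB : IsUnit (MBB H b X).det) {v : ι → ℂ}
    (hv : ∀ x, x ∉ X → ((H + diagonal b) *ᵥ v) x = 0) (x : {x // x ∈ X}) :
    ((Heff H b X + diagonal (fun y : {x // x ∈ X} => b y)) *ᵥ fun y => v y) x =
      ((H + diagonal b) *ᵥ v) x := by
  rw [Matrix.add_mulVec, Pi.add_apply, Matrix.mulVec_diagonal, mv, split (X := X)]
  have h1 : (Heff H b X *ᵥ fun y => v y) x =
      ∑ y : {x // x ∈ X}, H x y * v y + ∑ z : {x // x ∉ X}, H x z * v z := by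
    show ∑ y, Heff H b X x y * v y = _
    have h2 : ∀ z : {x // x ∉ X}, H x z * v z = -∑ w : {x // x ∉ X}, ∑ y : {x // x ∈ X},
        H x z * (MBB H b X)⁻¹ z w * H w y * v y := by
      intro z
      rw [hole_sol hB hv z, mul_neg, Finset.mul_sum]
      congr 1
      refine Finset.sum_congr rfl fun w _ => ?_
      rw [Finset.mul_sum, Finset.mul_sum]
      exact Finset.sum_congr rfl fun y _ => by ring
    simp_rw [h2]
    unfold Heff
    simp_rw [sub_mul, Finset.sum_mul]
    rw [Finset.sum_sub_distrib, Finset.sum_neg_distrib, ← sub_eq_add_neg]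
    congr 1
    rw [Finset.sum_comm]
    refine Finset.sum_congr rfl fun z _ => ?_
    rw [Finset.sum_comm]
  rw [h1]

/-- the resolvent on `X × X` -/
theorem rsc_eff (h : Adm H b) (hB : IsUnit (MBB H b X).det) :
    rsc (Heff H b X) (fun y : {x // x ∈ X} => b y) =
      (rsc H b).submatrix Subtype.val Subtype.val := by
  unfold rsc
  apply Matrix.inv_eq_right_inv
  ext x y
  have h1 := eff_eq (X := X) hB (v := fun z => rsc H b z y) (by
    intro z hz
    rw [ANL.col_eq h]
    exact Pi.single_eq_of_ne (fun e : z = y => hz (by rw [e]; exact y.2)) _) x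
  rw [ANL.col_eq h] at h1
  rw [Matrix.mul_apply]
  have h2 : ∑ j, (Heff H b X + diagonal fun y : {x // x ∈ X} => b y) x j *
      (rsc H b).submatrix Subtype.val Subtype.val j y =
      ((Heff H b X + diagonal (fun y : {x // x ∈ X} => b y)) *ᵥ fun z => rsc H b z y) x := rfl
  unfold rsc at h2
  rw [h2]
  unfold rsc at h1
  rw [h1, Matrix.one_apply]
  by_cases hxy : x = y
  · subst hxy; simp
  · rw [if_neg hxy]
    exact Pi.single_eq_of_ne (fun e => hxy (Subtype.ext e)) _

theorem rsc_eff_apply (h : Adm H b) (hB : IsUnit (MBB H b X).det) (x y : {x // x ∈ X}) :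
    rsc (Heff H b X) (fun y : {x // x ∈ X} => b y) x y = rsc H b x y := by
  rw [rsc_eff h hB]
  rfl

theorem unit_eff (h : Adm H b) (hB : IsUnit (MBB H b X).det) :
    IsUnit (Heff H b X + diagonal (fun y : {x // x ∈ X} => b y)).det := by
  have h1 : (Heff H b X + diagonal (fun y : {x // x ∈ X} => b y)) *
      (rsc H b).submatrix Subtype.val Subtype.val = 1 := by
    ext x y
    have h1 := eff_eq (X := X) hB (v := fun z => rsc H b z y) (by
      intro z hz
      rw [ANL.col_eq h]
      exact Pi.single_eq_of_ne (fun e : z = y => hz (by rw [e]; exact y.2)) _) x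
    rw [ANL.col_eq h] at h1
    rw [Matrix.mul_apply]
    have h2 : ∑ j, (Heff H b X + diagonal fun y : {x // x ∈ X} => b y) x j *
        (rsc H b).submatrix Subtype.val Subtype.val j y =
        ((Heff H b X + diagonal (fun y : {x // x ∈ X} => b y)) *ᵥ fun z => rsc H b z y) x := rfl
    rw [h2, h1, Matrix.one_apply]
    by_cases hxy : x = y
    · subst hxy; simp
    · rw [if_neg hxy]
      exact Pi.single_eq_of_ne (fun e => hxy (Subtype.ext e)) _
  exact Matrix.isUnit_det_of_right_inverse h1

theorem adm_of_eff (hH : RealSym H) (him : ∀ x, (b x).im ≤ 0) (hB : IsUnit (MBB H b X).det)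
    (hX : IsUnit (Heff H b X + diagonal (fun y : {x // x ∈ X} => b y)).det) : Adm H b := by
  refine ⟨hH, him, ?_⟩
  rw [isUnit_iff_ne_zero]
  intro hdet
  obtain ⟨v, hv0, hv⟩ := Matrix.exists_mulVec_eq_zero_iff.2 hdet
  apply hv0
  have hz : ∀ x, x ∉ X → ((H + diagonal b) *ᵥ v) x = 0 := fun x _ => by rw [hv]; rfl
  have h1 : (Heff H b X + diagonal (fun y : {x // x ∈ X} => b y)) *ᵥ
      (fun y : {x // x ∈ X} => v y) = 0 := by
    funext x
    rw [eff_eq hB hz x, hv]
    rfl
  have h2 : (fun y : {x // x ∈ X} => v y) = 0 := by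
    have := congrArg (fun u => (Heff H b X + diagonal (fun y : {x // x ∈ X} => b y))⁻¹ *ᵥ u) h1
    simp only [Matrix.mulVec_mulVec, Matrix.nonsing_inv_mul _ hX, Matrix.one_mulVec,
      Matrix.mulVec_zero] at this
    exact this
  funext x
  by_cases hx : x ∈ X
  · exact congrFun h2 ⟨x, hx⟩
  · have h3 := hole_sol hB hz ⟨x, hx⟩
    simp only at h3
    rw [h3]
    simp only [Pi.zero_apply, neg_eq_zero]
    refine Finset.sum_eq_zero fun z _ => ?_
    rw [Finset.sum_eq_zero fun y _ => ?_, mul_zero]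
    have := congrFun h2 y
    simp only [Pi.zero_apply] at this
    rw [this, mul_zero]

theorem realSym_eff (hH : RealSym H) (hb : ∀ x, x ∉ X → (b x).im = 0) :
    RealSym (Heff H b X) := by
  have hT : (MBB H b X)ᵀ = MBB H b X := by
    ext i j
    simp only [MBB, Matrix.transpose_apply, Matrix.submatrix_apply, Matrix.add_apply]
    rw [hH.symm j.1 i.1]
    by_cases hij : i = j
    · subst hij; rfl
    · have h1 : (i : ι) ≠ j := fun h => hij (Subtype.ext h)
      rw [Matrix.diagonal_apply_ne _ h1, Matrix.diagonal_apply_ne _ h1.symm]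
  have hC : (MBB H b X)ᴴ = MBB H b X := by
    ext i j
    simp only [MBB, Matrix.conjTranspose_apply, Matrix.submatrix_apply, Matrix.add_apply]
    rw [hH.symm j.1 i.1, star_add]
    have h0 : star (H i.1 j.1) = H i.1 j.1 := by
      apply Complex.ext
      · simp
      · simp [hH.real i.1 j.1]
    rw [h0]
    congr 1
    by_cases hij : i = j
    · subst hij
      rw [Matrix.diagonal_apply_eq]
      apply Complex.ext
      · simp
      · simp [hb i.1 i.2]
    · have h1 : (i : ι) ≠ j := fun h => hij (Subtype.ext h)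
      rw [Matrix.diagonal_apply_ne _ h1, Matrix.diagonal_apply_ne _ h1.symm, star_zero]
  have hs : ∀ z w, (MBB H b X)⁻¹ z w = (MBB H b X)⁻¹ w z := by
    intro z w
    have h1 := Matrix.transpose_nonsing_inv (MBB H b X)
    rw [hT] at h1
    have := congrFun (congrFun h1 z) w
    rw [Matrix.transpose_apply] at this
    exact this.symm
  have hr : ∀ z w, ((MBB H b X)⁻¹ z w).im = 0 := by
    intro z w
    have h1 := Matrix.conjTranspose_nonsing_inv (MBB H b X)
    rw [hC] at h1
    have := congrFun (congrFun h1 w) z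
    rw [Matrix.conjTranspose_apply, hs w z] at this
    have h2 := congrArg Complex.im this
    simp at h2
    linarith
  refine ⟨fun x y => ?_, fun x y => ?_⟩
  · unfold Heff
    rw [hH.symm x y]
    congr 1
    rw [Finset.sum_comm]
    refine Finset.sum_congr rfl fun z _ => Finset.sum_congr rfl fun w _ => ?_
    rw [hs w z, hH.symm x w, hH.symm z y]
    ring
  · unfold Heff
    rw [Complex.sub_im, hH.real, Complex.im_sum, zero_sub, neg_eq_zero]
    refine Finset.sum_eq_zero fun z _ => ?_
    rw [Complex.im_sum]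
    refine Finset.sum_eq_zero fun w _ => ?_
    simp [Complex.mul_im, Complex.mul_re, hH.real, hr z w]

end Pool.Agent.ANI
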