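import Pool.Agent.ANI.RemDefs
import Pool.Agent.AND.H3A
import Pool.Agent.AND.Level

/-! # ANI REMH3 (R2 of helper75; helper15): (H3) persists through a removal (annulus, content)

`M` good, `Rem M M' B`, `RCls`; the error fields of (H3) grow by `ph al0`, `ph be0`, where `ph ≥ phn` near `c` (`dT y c ≤ 2 s`) and
`ph ≥ exp (- β dT y c)` far from `c`.
* The REMOVED MASS `p_x = ∑_{y ∈ B} η_y |G_xy|²` is `≤ C ε` for every row by Ward's identity for `M` AND `M'` and the closeness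
  (`h.mass`): no information on the content is used, `B` may be a set of static sites with a large absorption.
* Rows with `2 dT x c ≤ 3 s`: everything is `≤ C ε`, and the ball `2 dT x y ≤ s` (which carries half of `ι'_x`) is near `c`.
* Rows with `2 dT x c > 3 s`: everything is `≤ C exp (- ν dT x c / 6)`, and `ph ≥ exp (- (4/3) β dT x c)` on the ball.
* `rem_h3` : one pair of weights;  `rem_h3_tol` : the field `h3` for general tolerances of the form `aB`, `zB`;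
  `rem_h3_tolAt` : for `tolAt P Sf n F`, `tolAt P Sf n (F.ins P n s m {c})`. -/

open Matrix Finset

noncomputable section

namespace Pool.Agent.ANI

open Pool.Agent.Kin Pool.Agent.APS Pool.Agent.AND

section row

variable {T : Type} [Fintype T] [DecidableEq T]

omit [Fintype T] in
/-- change of the weight `a'` in `h3err` -/
theorem h3err_tri (g g' : T → ℂ) (A X X' : Finset T) (a a' z : T → ℝ) :
    h3err g g' A X X' a a' z ≤ h3err g g' A X X' a a z +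
      ∑ y ∈ A ∩ X', ‖g' y‖ ^ 2 * |a' y - a y| := by
  unfold h3err
  have h1 : ∑ y ∈ A ∩ X', ‖g' y ^ 2 * (a' y : ℂ) - g y ^ 2 * (a y : ℂ)‖ ≤
      ∑ y ∈ A ∩ X', ‖g' y ^ 2 * (a y : ℂ) - g y ^ 2 * (a y : ℂ)‖ +
        ∑ y ∈ A ∩ X', ‖g' y‖ ^ 2 * |a' y - a y| := by
    rw [← Finset.sum_add_distrib]
    refine Finset.sum_le_sum fun y _ => ?_
    have e1 : g' y ^ 2 * (a' y : ℂ) - g y ^ 2 * (a y : ℂ) =
        (g' y ^ 2 * (a y : ℂ) - g y ^ 2 * (a y : ℂ)) + g' y ^ 2 * ((a' y - a y : ℝ) : ℂ) := by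
      push_cast
      ring
    rw [e1]
    refine (norm_add_le _ _).trans (add_le_add le_rfl (le_of_eq ?_))
    rw [norm_mul, norm_pow, Complex.norm_real, Real.norm_eq_abs]
  linarith

end row

variable {d L : ℕ} [NeZero L]

/-- hypotheses of the update of (H3) through a removal -/
structure H3H (M M' : Med (Tor d L)) (B : Finset (Tor d L)) (c : Tor d L)
    (s5 ν ε q W Kf c1 Kw Sν ρ0 eta : ℝ) : Prop where
  rem : Rem M M' B
  AU : Disjoint M.A M.U
  AI : Disjoint M.A M.I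
  adm : ANL.Adm (H0T d L) M.b
  adm' : ANL.Adm (H0T d L) M'.b
  c1p : 0 < c1
  ioM : ∀ y, y ∉ M.U → c1 ≤ io M y
  ioM' : ∀ y, y ∉ M'.U → c1 ≤ io M' y
  eta0 : 0 ≤ eta
  k0 : ∀ y, 0 ≤ M.k y
  kA : ∀ y, y ∉ M.A → M.k y = 0
  eU : ∀ y ∈ M.U, M.eta y = 0
  eA : ∀ y ∈ M.A, M.eta y = eta + M.k y * AND.io M y
  e1 : ∀ y, y ∉ M.U → M.eta y ≤ 1
  cls : ∃ X0, M'.nr ⊆ X0 ∧ RCls M M' X0 c s5 ν ε q W Kf
  ν0 : 0 ≤ ν
  Bc : ∀ y ∈ B, (ANP.dT y c : ℝ) ≤ ρ0
  wM : ∀ x, x ∉ M'.U → ∑ y ∈ M.nr,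
    M.eta y * ‖rsc (H0T d L) M.b x y‖ ^ 2 * Real.exp (ν * ANP.dT x y) ≤ Kw
  wM' : ∀ x, x ∉ M'.U → ∑ y ∈ M'.nr,
    M'.eta y * ‖rsc (H0T d L) M'.b x y‖ ^ 2 * Real.exp (ν * ANP.dT x y) ≤ Kw
  sn : ∑ y ∈ M'.nr, Real.exp (-(ν * ANP.dT y c)) ≤ Sν

namespace H3H

variable {M M' : Med (Tor d L)} {B : Finset (Tor d L)} {c : Tor d L}
  {s5 ν ε q W Kf c1 Kw Sν ρ0 eta : ℝ}

theorem e0 (h : H3H M M' B c s5 ν ε q W Kf c1 Kw Sν ρ0 eta) (y : Tor d L) : 0 ≤ M.eta y := by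
  have := h.adm.im y
  unfold Med.eta
  linarith

theorem e0' (h : H3H M M' B c s5 ν ε q W Kf c1 Kw Sν ρ0 eta) (y : Tor d L) :
    0 ≤ M'.eta y := by
  have := h.adm'.im y
  unfold Med.eta
  linarith

/-- the diagonal -/
theorem dy (h : H3H M M' B c s5 ν ε q W Kf c1 Kw Sν ρ0 eta) {y : Tor d L} (hy : y ∉ M'.U) :
    ‖rsc (H0T d L) M'.b y y - rsc (H0T d L) M.b y y‖ ≤ ε ∧
    ‖rsc (H0T d L) M'.b y y - rsc (H0T d L) M.b y y‖ ≤
      Kf * Real.exp (-(ν * ANP.dT y c)) := by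
  obtain ⟨X0, hX, hc⟩ := h.cls
  have hy' : y ∈ X0 := hX (by unfold Med.nr; rw [Finset.mem_compl]; exact hy)
  have h1 := hc.rel y hy' y hy'
  rw [om5_self, mul_one] at h1
  exact ⟨h1, hc.far y hy' y hy'⟩

theorem dio (_h : H3H M M' B c s5 ν ε q W Kf c1 Kw Sν ρ0 eta) (y : Tor d L) :
    |AND.io M' y - AND.io M y| ≤ ‖rsc (H0T d L) M'.b y y - rsc (H0T d L) M.b y y‖ := by
  have := Complex.abs_im_le_norm (rsc (H0T d L) M'.b y y - rsc (H0T d L) M.b y y)
  rwa [Complex.sub_im] at this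

theorem kc (h : H3H M M' B c s5 ν ε q W Kf c1 Kw Sν ρ0 eta) (y : Tor d L) :
    M.k y * c1 ≤ M.eta y := by
  by_cases hA : y ∈ M.A
  · rw [h.eA y hA]
    have h1 := h.ioM y (Finset.disjoint_left.1 h.AU hA)
    have h2 := mul_le_mul_of_nonneg_left h1 (h.k0 y)
    have h3 := h.eta0
    linarith
  · rw [h.kA y hA, zero_mul]
    exact h.e0 y

/-- change of the absorption -/
theorem de (h : H3H M M' B c s5 ν ε q W Kf c1 Kw Sν ρ0 eta) {y : Tor d L} (hy : y ∉ M'.U) :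
    |M'.eta y - M.eta y| ≤
      ‖rsc (H0T d L) M'.b y y - rsc (H0T d L) M.b y y‖ / c1 * M.eta y := by
  have h1 := h.rem.eta (h.rem.nB hy).2
  rw [h1, add_sub_cancel_left, abs_mul, abs_of_nonneg (h.k0 y)]
  have h2 := h.dio y
  have h3 := h.kc y
  have h4 := h.c1p
  have h5 := norm_nonneg (rsc (H0T d L) M'.b y y - rsc (H0T d L) M.b y y)
  rw [div_mul_eq_mul_div, le_div_iff₀ h4]
  have h6 := mul_le_mul_of_nonneg_left h2 (h.k0 y)
  have h7 := mul_le_mul_of_nonneg_right h6 h4.le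
  have h8 := mul_le_mul_of_nonneg_left h3 h5
  unfold AND.io at h6 h7
  linarith

/-- the old absorption is at most twice the new one -/
theorem ee (h : H3H M M' B c s5 ν ε q W Kf c1 Kw Sν ρ0 eta) (hε : ε ≤ c1) {y : Tor d L}
    (hy : y ∉ M'.U) : M.eta y ≤ 2 * M'.eta y := by
  have h1 := h.rem.eta (h.rem.nB hy).2
  have h2 := abs_le.1 ((h.dio y).trans ((h.dy hy).1.trans (hε.trans (h.ioM' y hy))))
  have h3 := h.k0 y
  have h5 := h.e0' y
  unfold AND.io at h2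
  by_cases hA : y ∈ M.A
  · have h4 := h.eA y hA
    have h6 := h.eta0
    have h7 := mul_le_mul_of_nonneg_left h2.1 h3
    unfold AND.io at h4
    nlinarith
  · rw [h.kA y hA, zero_mul, add_zero] at h1
    linarith

/-- rows -/
theorem rowI (h : H3H M M' B c s5 ν ε q W Kf c1 Kw Sν ρ0 eta) {x : Tor d L} (hx : x ∉ M'.U) :
    ∑ y ∈ M'.nr, M.eta y * ‖rsc (H0T d L) M.b x y‖ ^ 2 ≤ Kw := by
  refine le_trans ?_ (h.wM x hx)
  refine (Finset.sum_le_sum_of_subset_of_nonneg h.rem.nr_sub fun y _ _ =>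
    mul_nonneg (h.e0 y) (sq_nonneg _)).trans (Finset.sum_le_sum fun y _ => ?_)
  refine le_mul_of_one_le_right (mul_nonneg (h.e0 y) (sq_nonneg _)) ?_
  exact Real.one_le_exp (mul_nonneg h.ν0 (Nat.cast_nonneg _))

theorem rowI' (h : H3H M M' B c s5 ν ε q W Kf c1 Kw Sν ρ0 eta) {x : Tor d L} (hx : x ∉ M'.U) :
    ∑ y ∈ M'.nr, M'.eta y * ‖rsc (H0T d L) M'.b x y‖ ^ 2 ≤ Kw := by
  refine le_trans (Finset.sum_le_sum fun y _ => ?_) (h.wM' x hx)
  refine le_mul_of_one_le_right (mul_nonneg (h.e0' y) (sq_nonneg _)) ?_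
  exact Real.one_le_exp (mul_nonneg h.ν0 (Nat.cast_nonneg _))

theorem rowJ (h : H3H M M' B c s5 ν ε q W Kf c1 Kw Sν ρ0 eta) (hε : ε ≤ c1) {x : Tor d L}
    (hx : x ∉ M'.U) :
    ∑ y ∈ M'.nr, M.eta y * ‖rsc (H0T d L) M'.b x y‖ ^ 2 ≤ 2 * Kw := by
  have h1 : ∀ y ∈ M'.nr, M.eta y * ‖rsc (H0T d L) M'.b x y‖ ^ 2 ≤
      2 * (M'.eta y * ‖rsc (H0T d L) M'.b x y‖ ^ 2) := by
    intro y hy
    have := mul_le_mul_of_nonneg_right (h.ee hε (mem_nr.1 hy))
      (sq_nonneg ‖rsc (H0T d L) M'.b x y‖)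
    linarith
  refine (Finset.sum_le_sum h1).trans ?_
  rw [← Finset.mul_sum]
  exact mul_le_mul_of_nonneg_left (h.rowI' hx) (by norm_num)

/-- Ward -/
theorem ward (h : H3H M M' B c s5 ν ε q W Kf c1 Kw Sν ρ0 eta) (x : Tor d L) :
    AND.io M x = ∑ y ∈ M.nr, M.eta y * ‖rsc (H0T d L) M.b x y‖ ^ 2 := by
  refine wardX h.adm (fun y hy => ?_) x
  have hy' : y ∈ M.U := by
    by_contra h2
    exact hy (mem_nr.2 h2)
  have := h.eU y hy'
  unfold Med.eta at this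
  linarith

theorem ward' (h : H3H M M' B c s5 ν ε q W Kf c1 Kw Sν ρ0 eta) (x : Tor d L) :
    AND.io M' x = ∑ y ∈ M'.nr, M'.eta y * ‖rsc (H0T d L) M'.b x y‖ ^ 2 := by
  refine wardX h.adm' (fun y hy => ?_) x
  have hy' : y ∈ M'.U := by
    by_contra h2
    exact hy (mem_nr.2 h2)
  rw [h.rem.U, Finset.mem_union] at hy'
  by_cases hB : y ∈ B
  · exact h.rem.bB y hB
  · rcases hy' with h1 | h1
    · rw [h.rem.bU y h1]
      have := h.eU y h1
      unfold Med.eta at this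
      linarith
    · exact absurd h1 hB

/-- THE REMOVED MASS, near rows -/
theorem mass (h : H3H M M' B c s5 ν ε q W Kf c1 Kw Sν ρ0 eta) (hε : ε ≤ c1) {x : Tor d L}
    (hx : x ∉ M'.U) (J : ℝ) (hJ0 : 0 ≤ J) (hJ : 2 * Kw ≤ J ^ 2) :
    ∑ y ∈ M.nr \ M'.nr, M.eta y * ‖rsc (H0T d L) M.b x y‖ ^ 2 ≤
      ε * (1 + J ^ 2 / c1 + 2 * J) := by
  obtain ⟨X0, hX, hc⟩ := h.cls
  have hx0 : x ∈ X0 := hX (mem_nr.2 hx)
  have hε0 := hc.ε0
  have hKw : 0 ≤ Kw := le_trans (Finset.sum_nonneg fun y _ =>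
    mul_nonneg (h.e0 y) (sq_nonneg _)) (h.rowI hx)
  have h1 : ∑ y ∈ M.nr \ M'.nr, M.eta y * ‖rsc (H0T d L) M.b x y‖ ^ 2 =
      AND.io M x - ∑ y ∈ M'.nr, M.eta y * ‖rsc (H0T d L) M.b x y‖ ^ 2 := by
    rw [h.ward x, ← Finset.sum_sdiff h.rem.nr_sub]
    ring
  have h2 := abs_le.1 (h.dio x)
  have h3 := (h.dy hx).1
  have hIs : ∑ y ∈ M'.nr, M.eta y * ‖rsc (H0T d L) M.b x y‖ ^ 2 ≤ J ^ 2 := by
    have := h.rowI hx
    linarith
  have hIs' : ∑ y ∈ M'.nr, M.eta y * ‖rsc (H0T d L) M'.b x y‖ ^ 2 ≤ J ^ 2 :=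
    (h.rowJ hε hx).trans hJ
  have hθ : ∑ y ∈ M'.nr, M.eta y * ‖rsc (H0T d L) M'.b x y - rsc (H0T d L) M.b x y‖ ^ 2 ≤
      ε ^ 2 := hc.row x hx0
  have c1' := cs_row M'.nr M.eta (fun y _ => h.e0 y)
    (fun y => ‖rsc (H0T d L) M'.b x y - rsc (H0T d L) M.b x y‖)
    (fun y => ‖rsc (H0T d L) M.b x y‖) ε J hε0 hJ0 hθ hIs
  have c2' := cs_row M'.nr M.eta (fun y _ => h.e0 y)
    (fun y => ‖rsc (H0T d L) M'.b x y - rsc (H0T d L) M.b x y‖)
    (fun y => ‖rsc (H0T d L) M'.b x y‖) ε J hε0 hJ0 hθ hIs'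
  have h4 : ∀ y ∈ M'.nr, M'.eta y * ‖rsc (H0T d L) M'.b x y‖ ^ 2 -
      M.eta y * ‖rsc (H0T d L) M.b x y‖ ^ 2 ≤
      ε / c1 * (M.eta y * ‖rsc (H0T d L) M'.b x y‖ ^ 2) +
        M.eta y * (‖rsc (H0T d L) M'.b x y - rsc (H0T d L) M.b x y‖ *
          ‖rsc (H0T d L) M.b x y‖) +
        M.eta y * (‖rsc (H0T d L) M'.b x y - rsc (H0T d L) M.b x y‖ *
          ‖rsc (H0T d L) M'.b x y‖) := by
    intro y hy
    have hy' := mem_nr.1 hy
    have e1 := (abs_le.1 (h.de hy')).2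
    have e2 : ‖rsc (H0T d L) M'.b y y - rsc (H0T d L) M.b y y‖ / c1 * M.eta y ≤
        ε / c1 * M.eta y := by
      refine mul_le_mul_of_nonneg_right ?_ (h.e0 y)
      exact div_le_div_of_nonneg_right (h.dy hy').1 h.c1p.le
    have e3 := mul_le_mul_of_nonneg_right (e1.trans e2) (sq_nonneg ‖rsc (H0T d L) M'.b x y‖)
    have e4 : ‖rsc (H0T d L) M'.b x y‖ - ‖rsc (H0T d L) M.b x y‖ ≤
        ‖rsc (H0T d L) M'.b x y - rsc (H0T d L) M.b x y‖ :=
      (le_abs_self _).trans (abs_norm_sub_norm_le _ _)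
    have e5 : ‖rsc (H0T d L) M'.b x y‖ ^ 2 - ‖rsc (H0T d L) M.b x y‖ ^ 2 ≤
        ‖rsc (H0T d L) M'.b x y - rsc (H0T d L) M.b x y‖ *
          (‖rsc (H0T d L) M.b x y‖ + ‖rsc (H0T d L) M'.b x y‖) := by
      have e6 : 0 ≤ ‖rsc (H0T d L) M.b x y‖ + ‖rsc (H0T d L) M'.b x y‖ := by positivity
      have e7 := mul_le_mul_of_nonneg_right e4 e6
      nlinarith
    have e8 := mul_le_mul_of_nonneg_left e5 (h.e0 y)
    nlinarith
  have h5 := Finset.sum_le_sum h4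
  rw [Finset.sum_sub_distrib, ← h.ward' x, Finset.sum_add_distrib, Finset.sum_add_distrib,
    ← Finset.mul_sum] at h5
  have h6 : ε / c1 * ∑ y ∈ M'.nr, M.eta y * ‖rsc (H0T d L) M'.b x y‖ ^ 2 ≤ ε / c1 * J ^ 2 :=
    mul_le_mul_of_nonneg_left hIs' (div_nonneg hε0 h.c1p.le)
  have h7 : ε * (1 + J ^ 2 / c1 + 2 * J) = ε + ε / c1 * J ^ 2 + ε * J + ε * J := by ring
  rw [h1, h7]
  linarith [h2.1]

/-- the removed mass, far rows -/
theorem massFar (h : H3H M M' B c s5 ν ε q W Kf c1 Kw Sν ρ0 eta) {x : Tor d L}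
    (hx : x ∉ M'.U) :
    ∑ y ∈ M.nr \ M'.nr, M.eta y * ‖rsc (H0T d L) M.b x y‖ ^ 2 ≤
      Kw * Real.exp (-(ν * (ANP.dT x c - ρ0))) := by
  have h1 : ∀ y ∈ M.nr \ M'.nr, M.eta y * ‖rsc (H0T d L) M.b x y‖ ^ 2 ≤
      Real.exp (-(ν * (ANP.dT x c - ρ0))) *
        (M.eta y * ‖rsc (H0T d L) M.b x y‖ ^ 2 * Real.exp (ν * ANP.dT x y)) := by
    intro y hy
    have hyB : y ∈ B := by
      rw [Finset.mem_sdiff, mem_nr, mem_nr, h.rem.U, Finset.mem_union] at hy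
      tauto
    have e1 := h.Bc y hyB
    have e2 : (ANP.dT x c : ℝ) ≤ ANP.dT x y + ANP.dT y c := by
      exact_mod_cast ANP.nmet_dT.tri x y c
    have e3 : 1 ≤ Real.exp (-(ν * (ANP.dT x c - ρ0))) * Real.exp (ν * ANP.dT x y) := by
      rw [← Real.exp_add]
      refine Real.one_le_exp ?_
      have := h.ν0
      nlinarith
    have e4 : 0 ≤ M.eta y * ‖rsc (H0T d L) M.b x y‖ ^ 2 :=
      mul_nonneg (h.e0 y) (sq_nonneg _)
    calc M.eta y * ‖rsc (H0T d L) M.b x y‖ ^ 2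
        = M.eta y * ‖rsc (H0T d L) M.b x y‖ ^ 2 * 1 := by ring
      _ ≤ M.eta y * ‖rsc (H0T d L) M.b x y‖ ^ 2 *
          (Real.exp (-(ν * (ANP.dT x c - ρ0))) * Real.exp (ν * ANP.dT x y)) :=
          mul_le_mul_of_nonneg_left e3 e4
      _ = _ := by ring
  refine (Finset.sum_le_sum h1).trans ?_
  rw [← Finset.mul_sum, mul_comm]
  refine mul_le_mul_of_nonneg_right ?_ (Real.exp_pos _).le
  exact (Finset.sum_le_sum_of_subset_of_nonneg Finset.sdiff_subset fun y _ _ =>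
    mul_nonneg (mul_nonneg (h.e0 y) (sq_nonneg _)) (Real.exp_pos _).le).trans (h.wM x hx)

/-- the tail of a row -/
theorem tail (h : H3H M M' B c s5 ν ε q W Kf c1 Kw Sν ρ0 eta) {x : Tor d L}
    (hx : x ∉ M'.U) (s : ℕ) :
    ∑ y ∈ M'.nr \ Finset.univ.filter (fun y => 2 * ANP.dT x y ≤ s),
      M'.eta y * ‖rsc (H0T d L) M'.b x y‖ ^ 2 ≤ Kw * Real.exp (-(ν * (s / 2))) := by
  have h1 : ∀ y ∈ M'.nr \ Finset.univ.filter (fun y => 2 * ANP.dT x y ≤ s),
      M'.eta y * ‖rsc (H0T d L) M'.b x y‖ ^ 2 ≤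
      Real.exp (-(ν * (s / 2))) *
        (M'.eta y * ‖rsc (H0T d L) M'.b x y‖ ^ 2 * Real.exp (ν * ANP.dT x y)) := by
    intro y hy
    have e1 : s < 2 * ANP.dT x y := by
      have := (Finset.mem_sdiff.1 hy).2
      rw [Finset.mem_filter] at this
      by_contra h2
      exact this ⟨Finset.mem_univ _, not_lt.1 h2⟩
    have e2 : (s : ℝ) < 2 * ANP.dT x y := by exact_mod_cast e1
    have e3 : 1 ≤ Real.exp (-(ν * (s / 2))) * Real.exp (ν * ANP.dT x y) := by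
      rw [← Real.exp_add]
      refine Real.one_le_exp ?_
      have := h.ν0
      nlinarith
    have e4 : 0 ≤ M'.eta y * ‖rsc (H0T d L) M'.b x y‖ ^ 2 :=
      mul_nonneg (h.e0' y) (sq_nonneg _)
    calc M'.eta y * ‖rsc (H0T d L) M'.b x y‖ ^ 2
        = M'.eta y * ‖rsc (H0T d L) M'.b x y‖ ^ 2 * 1 := by ring
      _ ≤ M'.eta y * ‖rsc (H0T d L) M'.b x y‖ ^ 2 *
          (Real.exp (-(ν * (s / 2))) * Real.exp (ν * ANP.dT x y)) :=
          mul_le_mul_of_nonneg_left e3 e4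
      _ = _ := by ring
  refine (Finset.sum_le_sum h1).trans ?_
  rw [← Finset.mul_sum, mul_comm]
  refine mul_le_mul_of_nonneg_right ?_ (Real.exp_pos _).le
  exact (Finset.sum_le_sum_of_subset_of_nonneg Finset.sdiff_subset fun y _ _ =>
    mul_nonneg (mul_nonneg (h.e0' y) (sq_nonneg _)) (Real.exp_pos _).le).trans (h.wM' x hx)

end H3H

/-- weights and error fields of one pair of (H3) -/
structure H3W (M M' : Med (Tor d L)) (c : Tor d L) (s : ℕ) (eta : ℝ)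
    (phi om al be ph : Tor d L → ℝ) (al0 be0 B0 cl bm phn β : ℝ) : Prop where
  phi0 : ∀ y, y ∉ M.U → 0 ≤ phi y
  om0 : ∀ y, y ∉ M.U → 0 ≤ om y
  aln : ∀ y, y ∉ M.U → 0 ≤ al y
  ben : ∀ y, y ∉ M.U → 0 ≤ be y
  ph0 : ∀ y, 0 ≤ ph y
  al0n : 0 ≤ al0
  be0n : 0 ≤ be0
  B0n : 0 ≤ B0
  cln : 0 ≤ cl
  phnn : 0 ≤ phn
  βn : 0 ≤ β
  Ba : ∀ y ∈ M.A, phi y * io M y ≤ B0 * M.eta y
  Bz : ∀ y, y ∉ M.U → zB phi om al be eta M y ≤ B0 * M.eta y
  /-- the new errors dominate the absorption (`uB_low`) -/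
  low : ∀ y, y ∉ M'.U → cl * (ph y * M'.eta y) ≤
    1 / 2 * uB (fun y => ph y * al0) (fun y => ph y * be0) om eta M' y
  bem : ∀ y, y ∉ M.U → be y ≤ bm
  near : ∀ y, ANP.dT y c ≤ 2 * s → phn ≤ ph y
  far : ∀ y, 2 * s < ANP.dT y c → Real.exp (-(β * ANP.dT y c)) ≤ ph y

/-- the numbers -/
structure H3N (s : ℕ) (ν ε Kf c1 Kw Sν ρ0 al0 be0 B0 cl bm phn β : ℝ) : Prop where
  c11 : c1 ≤ 1
  Kw1 : 1 ≤ Kw
  εc : ε ≤ c1
  βν : 16 * β ≤ ν
  βs : Real.exp (-(β * s)) ≤ phn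
  ρs : 4 * ρ0 ≤ 5 * s
  tail : Kw * Real.exp (-(ν * (s / 2))) ≤ c1 / 2
  near : 26 * (B0 * Kw * ε) ≤ c1 * (cl * phn * (c1 / 2))
  far : B0 * (4 * (Kf * √Sν * √(2 * Kw)) + 2 * (Kf * Kw) / c1 + 2 * Kw) *
    Real.exp (-(ν * (s / 8))) ≤ cl * (c1 / 2)
  b1 : 2 * (bm * ε) ≤ c1 * (phn * be0)
  b2 : 2 * (bm * (Kf * Real.exp (-(ν * s)))) ≤ c1 * be0
  a1 : 4 * (B0 * ε) ≤ c1 * (phn * al0)
  a2 : 4 * (B0 * (Kf * Real.exp (-(ν * s)))) ≤ c1 * al0

section main

variable {M M' : Med (Tor d L)} {B : Finset (Tor d L)} {c : Tor d L} {s : ℕ}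
  {s5 ν ε q W Kf c1 Kw Sν ρ0 eta : ℝ} {phi om al be ph : Tor d L → ℝ}
  {al0 be0 B0 cl bm phn β : ℝ}

/-- the errors, near rows -/
theorem h3_near (h : H3H M M' B c s5 ν ε q W Kf c1 Kw Sν ρ0 eta)
    (w : H3W M M' c s eta phi om al be ph al0 be0 B0 cl bm phn β)
    (n : H3N s ν ε Kf c1 Kw Sν ρ0 al0 be0 B0 cl bm phn β) {x : Tor d L} (hx : x ∉ M'.U) :
    h3err (rsc (H0T d L) M.b x) (rsc (H0T d L) M'.b x) M.A M.nr M'.nr (aB phi M)
      (fun y => phi y * io M' y) (zB phi om al be eta M) ≤ cl * phn * (c1 / 2) := by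
  obtain ⟨X0, hX, hc⟩ := h.cls
  have hx0 : x ∈ X0 := hX (mem_nr.2 hx)
  have hε0 := hc.ε0
  have hc1 := h.c1p
  have hKw : 0 ≤ Kw := by linarith [n.Kw1]
  have hJ0 : 0 ≤ √(2 * Kw) := Real.sqrt_nonneg _
  have hJ : √(2 * Kw) ^ 2 = 2 * Kw := Real.sq_sqrt (by linarith)
  have hIs : ∑ y ∈ M'.nr, M.eta y * ‖rsc (H0T d L) M.b x y‖ ^ 2 ≤ √(2 * Kw) ^ 2 := by
    have := h.rowI hx
    rw [hJ]; linarith
  have hIs' : ∑ y ∈ M'.nr, M.eta y * ‖rsc (H0T d L) M'.b x y‖ ^ 2 ≤ √(2 * Kw) ^ 2 := by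
    rw [hJ]; exact h.rowJ n.εc hx
  have hp := h.mass n.εc hx _ hJ0 hJ.ge
  have h1 := h3err_le (rsc (H0T d L) M.b x) (rsc (H0T d L) M'.b x) M.A M.nr M'.nr (aB phi M)
    (fun y => phi y * io M' y) (zB phi om al be eta M) M.eta B0 (ε / c1) ε (√(2 * Kw))
    (√(2 * Kw)) _ h.rem.nr_sub w.B0n (div_nonneg hε0 hc1.le) hε0 hJ0 hJ0
    (fun y _ => h.e0 y)
    (fun y hy => aB_nonneg (fun y hy => h.c1p.le.trans (h.ioM y hy)) w.phi0 h.AU y)
    (fun y hy => by
      unfold aB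
      rw [if_pos hy]
      exact w.Ba y hy)
    (fun y hy => by
      have hy' := mem_nr.1 hy
      exact zB_nonneg (h.c1p.le.trans (h.ioM y hy')) (w.phi0 y hy') (w.aln y hy') (w.ben y hy')
        (w.om0 y hy') h.eta0 (h.e0 y))
    (fun y hy => w.Bz y (mem_nr.1 hy))
    (fun y hy hyX => by
      have hyU := mem_nr.1 hyX
      have hyU0 := (h.rem.nB hyU).1
      unfold aB
      rw [if_pos hy, ← mul_sub, abs_mul, abs_of_nonneg (w.phi0 y hyU0)]
      have e1 := (h.dio y).trans (h.dy hyU).1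
      have e2 := h.ioM y hyU0
      have e3 := w.Ba y hy
      have e4 : ε ≤ ε / c1 * io M y := by
        rw [div_mul_eq_mul_div, le_div_iff₀ hc1]
        exact mul_le_mul_of_nonneg_left e2 hε0
      calc phi y * |io M' y - io M y| ≤ phi y * (ε / c1 * io M y) :=
            mul_le_mul_of_nonneg_left (e1.trans e4) (w.phi0 y hyU0)
        _ = ε / c1 * (phi y * io M y) := by ring
        _ ≤ ε / c1 * (B0 * M.eta y) :=
            mul_le_mul_of_nonneg_left e3 (div_nonneg hε0 hc1.le))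
    (hc.row x hx0) hIs hIs' hp
  refine h1.trans ?_
  have hJ1 : √(2 * Kw) ≤ 2 * Kw := by
    have h2 : 1 ≤ √(2 * Kw) := Real.one_le_sqrt.2 (by linarith [n.Kw1])
    nlinarith
  have h3 : 2 * (ε * (√(2 * Kw) + √(2 * Kw))) + ε / c1 * √(2 * Kw) ^ 2 +
      2 * (ε * (1 + √(2 * Kw) ^ 2 / c1 + 2 * √(2 * Kw))) ≤ 26 * (Kw * ε) / c1 := by
    rw [hJ]
    have e1 : ε * √(2 * Kw) ≤ ε * (2 * Kw) := mul_le_mul_of_nonneg_left hJ1 hε0
    have e2 : ε * 1 ≤ ε * Kw := mul_le_mul_of_nonneg_left n.Kw1 hε0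
    have e3 : ε * Kw ≤ ε * Kw / c1 := by
      rw [le_div_iff₀ hc1]
      have : 0 ≤ ε * Kw := mul_nonneg hε0 hKw
      nlinarith [n.c11]
    have e4 : ε / c1 * (2 * Kw) = 2 * (ε * Kw / c1) := by ring
    have e5 : ε * (1 + 2 * Kw / c1 + 2 * √(2 * Kw)) = ε * 1 + 2 * (ε * Kw / c1) +
        2 * (ε * √(2 * Kw)) := by ring
    have e6 : 26 * (Kw * ε) / c1 = 26 * (ε * Kw / c1) := by ring
    rw [e4, e5, e6]
    nlinarith
  have h4 : B0 * (26 * (Kw * ε) / c1) ≤ cl * phn * (c1 / 2) := by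
    have h5 := n.near
    have h6 : B0 * (26 * (Kw * ε) / c1) = 26 * (B0 * Kw * ε) / c1 := by ring
    rw [h6, div_le_iff₀ hc1]
    linarith
  exact (mul_le_mul_of_nonneg_left h3 w.B0n).trans h4

/-- the errors, far rows -/
theorem h3_far (h : H3H M M' B c s5 ν ε q W Kf c1 Kw Sν ρ0 eta)
    (w : H3W M M' c s eta phi om al be ph al0 be0 B0 cl bm phn β)
    (n : H3N s ν ε Kf c1 Kw Sν ρ0 al0 be0 B0 cl bm phn β) {x : Tor d L} (hx : x ∉ M'.U)
    (hf : 3 * s < 2 * ANP.dT x c) :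
    h3err (rsc (H0T d L) M.b x) (rsc (H0T d L) M'.b x) M.A M.nr M'.nr (aB phi M)
      (fun y => phi y * io M' y) (zB phi om al be eta M) ≤
      cl * Real.exp (-(4 / 3 * (β * ANP.dT x c))) * (c1 / 2) := by
  obtain ⟨X0, hX, hc⟩ := h.cls
  have hx0 : x ∈ X0 := hX (mem_nr.2 hx)
  have hε0 := hc.ε0
  have hc1 := h.c1p
  have hKf : 0 ≤ Kf := hc.Kf0 hx0
  have hν := h.ν0
  have hKw : 0 ≤ Kw := by linarith [n.Kw1]
  have hSν : 0 ≤ Sν := (Finset.sum_nonneg fun y _ => (Real.exp_pos _).le).trans h.sn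
  have hJ0 : 0 ≤ √(2 * Kw) := Real.sqrt_nonneg _
  have hJ : √(2 * Kw) ^ 2 = 2 * Kw := Real.sq_sqrt (by linarith)
  have hδ : (3 : ℝ) * s < 2 * ANP.dT x c := by exact_mod_cast hf
  have hδ0 : (0 : ℝ) ≤ ANP.dT x c := Nat.cast_nonneg _
  have hs0 : (0 : ℝ) ≤ s := Nat.cast_nonneg _
  have hIs : ∑ y ∈ M'.nr, M.eta y * ‖rsc (H0T d L) M.b x y‖ ^ 2 ≤ √(2 * Kw) ^ 2 := by
    have := h.rowI hx
    rw [hJ]; linarith
  have hIs' : ∑ y ∈ M'.nr, M.eta y * ‖rsc (H0T d L) M'.b x y‖ ^ 2 ≤ √(2 * Kw) ^ 2 := by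
    rw [hJ]; exact h.rowJ n.εc hx
  have hp := h.massFar hx
  have hrow := hc.farRow hX hν (fun y _ => h.e0 y)
    (fun y hy => h.e1 y (h.rem.nB (mem_nr.1 hy)).1) (Sν := Sν) h.sn hx0
  have hθ0 : 0 ≤ Kf * √Sν * Real.exp (-(ν * ANP.dT x c) / 2) := by positivity
  have hθ : ∑ y ∈ M'.nr, M.eta y * ‖rsc (H0T d L) M'.b x y - rsc (H0T d L) M.b x y‖ ^ 2 ≤
      (Kf * √Sν * Real.exp (-(ν * ANP.dT x c) / 2)) ^ 2 := by
    refine hrow.trans (le_of_eq ?_)
    rw [mul_pow, mul_pow, Real.sq_sqrt hSν, ← Real.exp_nat_mul]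
    congr 2
    unfold dc
    push_cast
    ring
  refine (h3err_tri _ _ _ _ _ _ _ _).trans ?_
  have h1 := h3err_le (rsc (H0T d L) M.b x) (rsc (H0T d L) M'.b x) M.A M.nr M'.nr (aB phi M)
    (aB phi M) (zB phi om al be eta M) M.eta B0 0 (Kf * √Sν * Real.exp (-(ν * ANP.dT x c) / 2))
    (√(2 * Kw)) (√(2 * Kw)) _ h.rem.nr_sub w.B0n le_rfl hθ0 hJ0 hJ0
    (fun y _ => h.e0 y)
    (fun y hy => aB_nonneg (fun y hy => h.c1p.le.trans (h.ioM y hy)) w.phi0 h.AU y)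
    (fun y hy => by
      unfold aB
      rw [if_pos hy]
      exact w.Ba y hy)
    (fun y hy => by
      have hy' := mem_nr.1 hy
      exact zB_nonneg (h.c1p.le.trans (h.ioM y hy')) (w.phi0 y hy') (w.aln y hy') (w.ben y hy')
        (w.om0 y hy') h.eta0 (h.e0 y))
    (fun y hy => w.Bz y (mem_nr.1 hy))
    (fun y hy hyX => by simp)
    hθ hIs hIs' hp
  have h2 : ∑ y ∈ M.A ∩ M'.nr, ‖rsc (H0T d L) M'.b x y‖ ^ 2 *
      |phi y * io M' y - aB phi M y| ≤
      2 * (B0 * Kf * Kw) / c1 * Real.exp (-(ν * ANP.dT x c)) := by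
    have e0 : ∀ y ∈ M.A ∩ M'.nr, ‖rsc (H0T d L) M'.b x y‖ ^ 2 *
        |phi y * io M' y - aB phi M y| ≤
        2 * (B0 * Kf) / c1 * Real.exp (-(ν * ANP.dT x c)) *
          (M'.eta y * ‖rsc (H0T d L) M'.b x y‖ ^ 2 * Real.exp (ν * ANP.dT x y)) := by
      intro y hy
      have hyA := (Finset.mem_inter.1 hy).1
      have hyU := mem_nr.1 (Finset.mem_inter.1 hy).2
      have hyU0 := (h.rem.nB hyU).1
      have f1 := (h.dio y).trans (h.dy hyU).2
      have f2 := h.ioM y hyU0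
      have f3 := w.Ba y hyA
      have f4 := h.ee n.εc hyU
      have f5 : Kf * Real.exp (-(ν * ANP.dT y c)) ≤
          Kf * Real.exp (-(ν * ANP.dT y c)) / c1 * io M y := by
        rw [div_mul_eq_mul_div, le_div_iff₀ hc1]
        exact mul_le_mul_of_nonneg_left f2 (by positivity)
      have f6 : |phi y * io M' y - aB phi M y| ≤
          Kf * Real.exp (-(ν * ANP.dT y c)) / c1 * (B0 * (2 * M'.eta y)) := by
        unfold aB
        rw [if_pos hyA, ← mul_sub, abs_mul, abs_of_nonneg (w.phi0 y hyU0)]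
        calc phi y * |io M' y - io M y| ≤
              phi y * (Kf * Real.exp (-(ν * ANP.dT y c)) / c1 * io M y) :=
              mul_le_mul_of_nonneg_left (f1.trans f5) (w.phi0 y hyU0)
          _ = Kf * Real.exp (-(ν * ANP.dT y c)) / c1 * (phi y * io M y) := by ring
          _ ≤ Kf * Real.exp (-(ν * ANP.dT y c)) / c1 * (B0 * (2 * M'.eta y)) :=
              mul_le_mul_of_nonneg_left
                (f3.trans (mul_le_mul_of_nonneg_left f4 w.B0n)) (by positivity)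
      have f7 : Real.exp (-(ν * ANP.dT y c)) ≤
          Real.exp (-(ν * ANP.dT x c)) * Real.exp (ν * ANP.dT x y) := by
        rw [← Real.exp_add]
        refine Real.exp_le_exp.2 ?_
        have f8 : (ANP.dT x c : ℝ) ≤ ANP.dT x y + ANP.dT y c := by
          exact_mod_cast ANP.nmet_dT.tri x y c
        nlinarith
      have f9 : 0 ≤ 2 * (B0 * Kf) / c1 * (M'.eta y * ‖rsc (H0T d L) M'.b x y‖ ^ 2) := by
        have := w.B0n
        have := h.e0' y
        positivity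
      calc ‖rsc (H0T d L) M'.b x y‖ ^ 2 * |phi y * io M' y - aB phi M y|
          ≤ ‖rsc (H0T d L) M'.b x y‖ ^ 2 *
            (Kf * Real.exp (-(ν * ANP.dT y c)) / c1 * (B0 * (2 * M'.eta y))) :=
            mul_le_mul_of_nonneg_left f6 (sq_nonneg _)
        _ = 2 * (B0 * Kf) / c1 * (M'.eta y * ‖rsc (H0T d L) M'.b x y‖ ^ 2) *
            Real.exp (-(ν * ANP.dT y c)) := by ring
        _ ≤ 2 * (B0 * Kf) / c1 * (M'.eta y * ‖rsc (H0T d L) M'.b x y‖ ^ 2) *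
            (Real.exp (-(ν * ANP.dT x c)) * Real.exp (ν * ANP.dT x y)) :=
            mul_le_mul_of_nonneg_left f7 f9
        _ = _ := by ring
    refine (Finset.sum_le_sum e0).trans ?_
    rw [← Finset.mul_sum]
    have e1 : ∑ y ∈ M.A ∩ M'.nr,
        M'.eta y * ‖rsc (H0T d L) M'.b x y‖ ^ 2 * Real.exp (ν * ANP.dT x y) ≤ Kw := by
      refine le_trans ?_ (h.wM' x hx)
      exact Finset.sum_le_sum_of_subset_of_nonneg Finset.inter_subset_right fun y _ _ =>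
        mul_nonneg (mul_nonneg (h.e0' y) (sq_nonneg _)) (Real.exp_pos _).le
    have e2 : 0 ≤ 2 * (B0 * Kf) / c1 * Real.exp (-(ν * ANP.dT x c)) := by
      have := w.B0n
      positivity
    refine (mul_le_mul_of_nonneg_left e1 e2).trans (le_of_eq (by ring))
  refine (add_le_add h1 h2).trans ?_
  -- the exponentials
  have x1 : Real.exp (-(ν * ANP.dT x c) / 2) ≤ Real.exp (-(ν * ANP.dT x c / 6)) := by
    refine Real.exp_le_exp.2 ?_
    have := mul_nonneg hν hδ0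
    linarith
  have x2 : Real.exp (-(ν * ANP.dT x c)) ≤ Real.exp (-(ν * ANP.dT x c / 6)) := by
    refine Real.exp_le_exp.2 ?_
    have := mul_nonneg hν hδ0
    linarith
  have x3 : Real.exp (-(ν * (ANP.dT x c - ρ0))) ≤ Real.exp (-(ν * ANP.dT x c / 6)) := by
    refine Real.exp_le_exp.2 ?_
    have h5 := n.ρs
    have h6 : (ANP.dT x c : ℝ) / 6 ≤ ANP.dT x c - ρ0 := by linarith
    have := mul_le_mul_of_nonneg_left h6 hν
    linarith
  have x4 : Real.exp (-(ν * ANP.dT x c / 6)) ≤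
      Real.exp (-(ν * (s / 8))) * Real.exp (-(4 / 3 * (β * ANP.dT x c))) := by
    rw [← Real.exp_add]
    refine Real.exp_le_exp.2 ?_
    have h5 := mul_le_mul_of_nonneg_right n.βν hδ0
    have h6 : ν * (3 * s) ≤ ν * (2 * ANP.dT x c) := mul_le_mul_of_nonneg_left hδ.le hν
    nlinarith
  have hCf : 0 ≤ B0 * (4 * (Kf * √Sν * √(2 * Kw)) + 2 * (Kf * Kw) / c1 + 2 * Kw) := by
    have := w.B0n
    positivity
  have h7 : B0 * (2 * (Kf * √Sν * Real.exp (-(ν * ANP.dT x c) / 2) *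
      (√(2 * Kw) + √(2 * Kw))) + 0 * √(2 * Kw) ^ 2 +
      2 * (Kw * Real.exp (-(ν * (ANP.dT x c - ρ0))))) +
      2 * (B0 * Kf * Kw) / c1 * Real.exp (-(ν * ANP.dT x c)) ≤
      B0 * (4 * (Kf * √Sν * √(2 * Kw)) + 2 * (Kf * Kw) / c1 + 2 * Kw) *
        Real.exp (-(ν * ANP.dT x c / 6)) := by
    have hB := w.B0n
    have y1 := mul_le_mul_of_nonneg_left x1
      (show 0 ≤ B0 * (4 * (Kf * √Sν * √(2 * Kw))) by positivity)
    have y2 := mul_le_mul_of_nonneg_left x2 (show 0 ≤ 2 * (B0 * Kf * Kw) / c1 by positivity)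
    have y3 := mul_le_mul_of_nonneg_left x3 (show 0 ≤ B0 * (2 * Kw) by positivity)
    calc _ = B0 * (4 * (Kf * √Sν * √(2 * Kw))) * Real.exp (-(ν * ANP.dT x c) / 2) +
          2 * (B0 * Kf * Kw) / c1 * Real.exp (-(ν * ANP.dT x c)) +
          B0 * (2 * Kw) * Real.exp (-(ν * (ANP.dT x c - ρ0))) := by ring
      _ ≤ B0 * (4 * (Kf * √Sν * √(2 * Kw))) * Real.exp (-(ν * ANP.dT x c / 6)) +
          2 * (B0 * Kf * Kw) / c1 * Real.exp (-(ν * ANP.dT x c / 6)) +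
          B0 * (2 * Kw) * Real.exp (-(ν * ANP.dT x c / 6)) := by linarith
      _ = _ := by ring
  refine h7.trans ?_
  refine (mul_le_mul_of_nonneg_left x4 hCf).trans ?_
  have h8 := mul_le_mul_of_nonneg_right n.far
    (Real.exp_pos (-(4 / 3 * (β * (ANP.dT x c : ℝ))))).le
  calc _ = B0 * (4 * (Kf * √Sν * √(2 * Kw)) + 2 * (Kf * Kw) / c1 + 2 * Kw) *
        Real.exp (-(ν * (s / 8))) * Real.exp (-(4 / 3 * (β * ANP.dT x c))) := by ring
    _ ≤ cl * (c1 / 2) * Real.exp (-(4 / 3 * (β * ANP.dT x c))) := h8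
    _ = _ := by ring

/-- UPDATE OF (H3) for one pair of weights in one row -/
theorem rem_h3 (h : H3H M M' B c s5 ν ε q W Kf c1 Kw Sν ρ0 eta)
    (w : H3W M M' c s eta phi om al be ph al0 be0 B0 cl bm phn β)
    (n : H3N s ν ε Kf c1 Kw Sν ρ0 al0 be0 B0 cl bm phn β) {x : Tor d L} (hx : x ∉ M'.U)
    (h3 : ‖∑ y ∈ M.A, rsc (H0T d L) M.b x y ^ 2 * (aB phi M y : ℂ)‖ ≤
      ∑ y ∈ M.nr, ‖rsc (H0T d L) M.b x y‖ ^ 2 * zB phi om al be eta M y) :
    ‖∑ y ∈ M'.A, rsc (H0T d L) M'.b x y ^ 2 * (aB phi M' y : ℂ)‖ ≤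
      ∑ y ∈ M'.nr, ‖rsc (H0T d L) M'.b x y‖ ^ 2 *
        zB phi om (fun y => al y + ph y * al0) (fun y => be y + ph y * be0) eta M' y := by
  obtain ⟨X0, hX, hc⟩ := h.cls
  have hx0 : x ∈ X0 := hX (mem_nr.2 hx)
  have hε0 := hc.ε0
  have hc1 := h.c1p
  have hKf : 0 ≤ Kf := hc.Kf0 hx0
  have hν := h.ν0
  have hs0 : (0 : ℝ) ≤ s := Nat.cast_nonneg _
  have hU' : ∀ y, y ∉ M'.U → y ∉ M.U := fun y hy => (h.rem.nB hy).1
  -- relative change of the diagonal, near and far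
  have hμ : ∀ y, y ∉ M'.U → ∀ a b : ℝ, 0 ≤ a → 2 * (a * ε) ≤ c1 * (phn * b) →
      2 * (a * (Kf * Real.exp (-(ν * s)))) ≤ c1 * b → 0 ≤ b →
      a * (‖rsc (H0T d L) M'.b y y - rsc (H0T d L) M.b y y‖ / c1) ≤ 1 / 2 * (ph y * b) := by
    intro y hy a b ha hn hf hb
    rw [mul_div_assoc', div_le_iff₀ hc1]
    by_cases hd : ANP.dT y c ≤ 2 * s
    · have e1 := mul_le_mul_of_nonneg_left (h.dy hy).1 ha
      have e2 := mul_le_mul_of_nonneg_right (w.near y hd) hb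
      nlinarith
    · have hd' : 2 * s < ANP.dT y c := not_le.1 hd
      have hd2 : (2 : ℝ) * s < ANP.dT y c := by exact_mod_cast hd'
      have e1 := mul_le_mul_of_nonneg_left (h.dy hy).2 ha
      have e2 := mul_le_mul_of_nonneg_right (w.far y hd') hb
      have e3 : Real.exp (-(ν * ANP.dT y c)) ≤
          Real.exp (-(ν * s)) * Real.exp (-(β * ANP.dT y c)) := by
        rw [← Real.exp_add]
        refine Real.exp_le_exp.2 ?_
        have f1 := mul_le_mul_of_nonneg_right n.βν (Nat.cast_nonneg (α := ℝ) (ANP.dT y c))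
        have f2 := mul_le_mul_of_nonneg_left hd2.le hν
        have f3 : 0 ≤ β * (ANP.dT y c : ℝ) := mul_nonneg w.βn (Nat.cast_nonneg _)
        nlinarith
      have e4 := mul_le_mul_of_nonneg_left e3 (mul_nonneg ha hKf)
      have e5 := mul_le_mul_of_nonneg_right hf (Real.exp_pos (-(β * (ANP.dT y c : ℝ)))).le
      have e6 := mul_le_mul_of_nonneg_left e2 hc1.le
      nlinarith
  have hbm : ∀ y, y ∉ M.U → 0 ≤ bm := fun y hy => (w.ben y hy).trans (w.bem y hy)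
  refine h3_update phi om al be ph eta al0 be0
    (fun y => ‖rsc (H0T d L) M'.b y y - rsc (H0T d L) M.b y y‖ / c1)
    (rsc (H0T d L) M.b x) (rsc (H0T d L) M'.b x) 0 h.rem.A_sub ?_ h.AU ?_ h.AI ?_ ?_
    (fun y hy => hc1.le.trans (h.ioM y hy)) (fun y hy => hc1.le.trans (h.ioM' y hy))
    (fun y _ => h.e0 y) (fun y _ => h.e0' y) h.eta0 ?_ ?_ w.phi0 w.om0 w.aln w.ben w.ph0
    w.al0n w.be0n ?_ ?_ ?_ (by rw [add_zero]; exact h3) ?_
  · rw [h.rem.U]; exact Finset.subset_union_left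
  · rw [h.rem.A, h.rem.U, Finset.disjoint_union_right]
    exact ⟨Finset.disjoint_of_subset_left Finset.sdiff_subset h.AU, Finset.sdiff_disjoint⟩
  · intro y hy hyU
    rw [h.rem.I]
    exact Finset.mem_sdiff.2 ⟨hy, (h.rem.nB hyU).2⟩
  · intro y hy
    rw [h.rem.I] at hy
    exact Or.inl (Finset.mem_sdiff.1 hy).1
  · -- the static sites keep their absorption
    intro y hy hA
    have e1 := h.rem.eta (h.rem.nB hy).2
    rw [h.kA y hA, zero_mul, add_zero] at e1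
    exact e1.ge
  · -- no active site becomes static
    intro y hy hA hA'
    exfalso
    apply hA'
    rw [h.rem.A]
    exact Finset.mem_sdiff.2 ⟨hA, (h.rem.nB hy).2⟩
  · intro y hy
    have e1 := abs_le.1 (h.dio y)
    have e2 := h.ioM' y hy
    have e3 : ‖rsc (H0T d L) M'.b y y - rsc (H0T d L) M.b y y‖ ≤
        ‖rsc (H0T d L) M'.b y y - rsc (H0T d L) M.b y y‖ / c1 * io M' y := by
      rw [div_mul_eq_mul_div, le_div_iff₀ hc1]
      exact mul_le_mul_of_nonneg_left e2 (norm_nonneg _)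
    show io M y ≤ (1 + _) * io M' y
    linarith [e1.1]
  · intro y hy
    have hy0 := hU' y hy
    refine (mul_le_mul_of_nonneg_right (w.bem y hy0)
      (div_nonneg (norm_nonneg _) hc1.le)).trans ?_
    exact hμ y hy bm be0 (hbm y hy0) n.b1 n.b2 w.be0n
  · intro y hy hA' hI' hA
    have hy0 := hU' y hy
    have hI : y ∉ M.I := fun h1 => hI' (by
      rw [h.rem.I]
      exact Finset.mem_sdiff.2 ⟨h1, (h.rem.nB hy).2⟩)
    have e1 : M'.eta y = M.eta y := by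
      have := h.rem.eta (h.rem.nB hy).2
      rwa [h.kA y hA, zero_mul, add_zero] at this
    have e2 : phi y * io M y ≤ B0 * M.eta y := by
      refine le_trans ?_ (w.Bz y hy0)
      unfold zB
      rw [if_neg (not_or.2 ⟨hA, hI⟩)]
      have := uB_nonneg (M := M) (eta := eta) (y := y) (hc1.le.trans (h.ioM y hy0))
        (w.aln y hy0) (w.ben y hy0) (w.om0 y hy0) h.eta0 (h.e0 y)
      linarith
    have e3 : io M' y ≤ 2 * io M y := by
      have f1 := abs_le.1 (h.dio y)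
      have f2 := (h.dy hy).1
      have f3 := n.εc
      have f4 := h.ioM y hy0
      linarith [f1.2]
    have e4 : phi y * io M' y ≤ 2 * (B0 * M'.eta y) := by
      rw [e1]
      have := mul_le_mul_of_nonneg_left e3 (w.phi0 y hy0)
      linarith
    have e5 := hμ y hy (2 * B0) al0 (by linarith [w.B0n]) (by linarith [n.a1])
      (by linarith [n.a2]) w.al0n
    have e6 := mul_le_mul_of_nonneg_left e4
      (div_nonneg (norm_nonneg (rsc (H0T d L) M'.b y y - rsc (H0T d L) M.b y y)) hc1.le)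
    have e7 := mul_le_mul_of_nonneg_right e5 (h.e0' y)
    calc phi y * (‖rsc (H0T d L) M'.b y y - rsc (H0T d L) M.b y y‖ / c1 * io M' y)
        = ‖rsc (H0T d L) M'.b y y - rsc (H0T d L) M.b y y‖ / c1 * (phi y * io M' y) := by ring
      _ ≤ ‖rsc (H0T d L) M'.b y y - rsc (H0T d L) M.b y y‖ / c1 *
          (2 * (B0 * M'.eta y)) := e6
      _ = 2 * B0 * (‖rsc (H0T d L) M'.b y y - rsc (H0T d L) M.b y y‖ / c1) * M'.eta y := by
          ring
      _ ≤ 1 / 2 * (ph y * al0) * M'.eta y := e7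
      _ = _ := by ring
  · -- the absorbed mass
    rw [zero_add]
    have low : ∀ p0 : ℝ, 0 ≤ p0 →
        (∀ y, y ∉ M'.U → 2 * ANP.dT x y ≤ s → p0 ≤ ph y) →
        cl * p0 * (c1 / 2) ≤ ∑ y ∈ M'.nr, ‖rsc (H0T d L) M'.b x y‖ ^ 2 *
          (1 / 2 * uB (fun y => ph y * al0) (fun y => ph y * be0) om eta M' y) := by
      intro p0 hp0 hp
      have e1 := h3_low (rsc (H0T d L) M'.b x) M'.nr
        (Finset.univ.filter (fun y => 2 * ANP.dT x y ≤ s))
        (fun y => 1 / 2 * uB (fun y => ph y * al0) (fun y => ph y * be0) om eta M' y)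
        M'.eta cl p0 (io M' x) (Kw * Real.exp (-(ν * (s / 2)))) w.cln hp0
        (fun y hy => by
          have hy' := mem_nr.1 hy
          have := uB_nonneg (al := fun y => ph y * al0) (be := fun y => ph y * be0) (om := om)
            (M := M') (eta := eta) (y := y) (hc1.le.trans (h.ioM' y hy'))
            (mul_nonneg (w.ph0 y) w.al0n) (mul_nonneg (w.ph0 y) w.be0n) (w.om0 y (hU' y hy'))
            h.eta0 (h.e0' y)
          linarith)
        (fun y hy hy2 => by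
          have hy' := mem_nr.1 hy
          refine le_trans ?_ (w.low y hy')
          have f1 := hp y hy' (Finset.mem_filter.1 hy2).2
          have f2 := mul_le_mul_of_nonneg_right f1 (h.e0' y)
          have f3 := mul_le_mul_of_nonneg_left f2 w.cln
          linarith)
        (h.ward' x).le (h.tail hx s)
      refine le_trans ?_ e1
      refine mul_le_mul_of_nonneg_left ?_ (mul_nonneg w.cln hp0)
      have := n.tail
      have := h.ioM' x hx
      linarith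
    by_cases hn : 2 * ANP.dT x c ≤ 3 * s
    · refine (h3_near h w n hx).trans (low phn w.phnn fun y hy hd => w.near y ?_)
      have f1 := ANP.nmet_dT.tri y x c
      have f2 := ANP.nmet_dT.symm x y
      omega
    · have hf : 3 * s < 2 * ANP.dT x c := not_le.1 hn
      refine (h3_far h w n hx hf).trans
        (low (Real.exp (-(4 / 3 * (β * ANP.dT x c)))) (Real.exp_pos _).le
          fun y hy hd => ?_)
      have f1 := ANP.nmet_dT.tri y x c
      have f1' := ANP.nmet_dT.tri x y c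
      have f2 := ANP.nmet_dT.symm x y
      have f3 : s < ANP.dT y c := by omega
      have f4 : 6 * ANP.dT y c ≤ 8 * ANP.dT x c := by omega
      have f5 : (6 : ℝ) * ANP.dT y c ≤ 8 * ANP.dT x c := by exact_mod_cast f4
      have f6 : (s : ℝ) ≤ ANP.dT y c := by exact_mod_cast f3.le
      have f7 : Real.exp (-(4 / 3 * (β * ANP.dT x c))) ≤ Real.exp (-(β * ANP.dT y c)) := by
        refine Real.exp_le_exp.2 ?_
        have := mul_le_mul_of_nonneg_left f5 w.βn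
        linarith
      by_cases hd2 : ANP.dT y c ≤ 2 * s
      · refine f7.trans (le_trans ?_ (w.near y hd2))
        refine le_trans ?_ n.βs
        refine Real.exp_le_exp.2 ?_
        have := mul_le_mul_of_nonneg_left f6 w.βn
        linarith
      · exact f7.trans (w.far y (not_le.1 hd2))

end main

/-- the numbers for `tolAt`, `Fld.ins`; `κ = κ_n`, `κ' = κ_(n+1)`; `B3 = B1 + Cz (errm + bem B2)` -/
structure H3M (P : Par) (n s m : ℕ) (ν ε Kf c1 Kw Sν ρ0 B1 B2 errm bem c3 : ℝ) : Prop where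
  c11 : c1 ≤ 1
  Kw1 : 1 ≤ Kw
  εc : ε ≤ c1
  B1n : 0 ≤ B1
  B2n : 0 ≤ B2
  errn : 0 ≤ errm
  ben : 0 ≤ bem
  c3n : 0 ≤ c3
  c31 : c3 ≤ 1
  βν : 16 * (P.b * P.kap n) ≤ ν
  βs : Real.exp (-(P.b * P.kap n * s)) ≤ P.kap n ^ P.vi
  ρs : 4 * ρ0 ≤ 5 * s
  tail : Kw * Real.exp (-(ν * (s / 2))) ≤ c1 / 2
  near : 26 * ((B1 + P.Cz * (errm + bem * B2)) * Kw * ε) ≤
    c1 * (P.Cz * m * c3 / 2 * P.kap n ^ P.vi * (c1 / 2))
  far : (B1 + P.Cz * (errm + bem * B2)) *
    (4 * (Kf * √Sν * √(2 * Kw)) + 2 * (Kf * Kw) / c1 + 2 * Kw) *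
    Real.exp (-(ν * (s / 8))) ≤ P.Cz * m * c3 / 2 * (c1 / 2)
  b1 : 2 * (bem * ε) ≤ c1 * (P.kap n ^ P.vi * (P.kap n ^ (-P.vp) * m))
  b2 : 2 * (bem * (Kf * Real.exp (-(ν * s)))) ≤ c1 * (P.kap n ^ (-P.vp) * m)
  a1 : 4 * ((B1 + P.Cz * (errm + bem * B2)) * ε) ≤ c1 * (P.kap n ^ P.vi * (P.Cz * m))
  a2 : 4 * ((B1 + P.Cz * (errm + bem * B2)) * (Kf * Real.exp (-(ν * s)))) ≤ c1 * (P.Cz * m)

section tol

variable {M M' : Med (Tor d L)} {B : Finset (Tor d L)} {c : Tor d L} {s : ℕ}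
  {s5 ν ε q W Kf c1 Kw Sν ρ0 : ℝ}

/-- THE FIELD `h3` OF `Good f (tolAt P Sf n (F.ins P n s m {c}) π' v M') M'` -/
theorem rem_h3_tolAt {X : Type} {P : Par} {Sf : SiteF X} {n m : ℕ} {F : Fld (Tor d L)}
    {π π' : Prof (Tor d L)} {v : Tor d L → X} {f : Fix} (hP : P.Pos) (hS : Sf.Pos)
    (hF : F.Pos) (hG : Good f (tolAt P Sf n F π v M) M)
    (h : H3H M M' B c s5 ν ε q W Kf c1 Kw Sν ρ0 P.eta)
    (hr : ∀ x, x ∉ B → π'.lev x = π.lev x) {B1 B2 errm bem c3 : ℝ}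
    (hn : H3M P n s m ν ε Kf c1 Kw Sν ρ0 B1 B2 errm bem c3)
    (herr : ∀ y, y ∉ M.U → F.err y ≤ errm) (hbe : ∀ y, y ∉ M.U → F.be y ≤ bem)
    (hB1 : ∀ K ∈ Sf.Ks n, ∀ y, y ∉ M.U → Sf.phi K (π.lev y) (v y) * io M y ≤
      Sf.s K * (B1 / P.kap (n + 1) * M.eta y))
    (hB2 : ∀ y, y ∉ M.U → Sf.om (π.lev y) (v y) * io M y ≤ B2 / P.kap (n + 1) * M.eta y)
    (hI : ∀ K ∈ Sf.Ks n, ∀ y ∈ M.I, y ∉ M.A → Sf.phi K (π.lev y) (v y) = 0)
    (hom : ∀ y ∈ M.A, c3 * M.k y ≤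
      P.kap (n + 1) * (P.kap n ^ (-P.vp) * Sf.om (π.lev y) (v y))) :
    ∀ K ∈ (tolAt P Sf n (F.ins P n s m {c}) π' v M').Ks, ∀ x, x ∉ M'.U →
      ‖∑ y ∈ M'.A, rsc (H0T d L) M'.b x y ^ 2 *
        ((tolAt P Sf n (F.ins P n s m {c}) π' v M').a K y : ℂ)‖ ≤
      ∑ y ∈ M'.nr, ‖rsc (H0T d L) M'.b x y‖ ^ 2 *
        (tolAt P Sf n (F.ins P n s m {c}) π' v M').z K y := by
  intro K hK x hx
  have hK' : K ∈ Sf.Ks n := hK
  have hk1 := hP.kap (n + 1)
  have hk := hP.kap n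
  have hsK := hS.s K
  have hCz := hP.Cz
  have hm0 : (0 : ℝ) ≤ m := Nat.cast_nonneg m
  have hκv : 0 < P.kap n ^ P.vi := Real.rpow_pos_of_pos hk _
  have hκp : 0 < P.kap n ^ (-P.vp) := Real.rpow_pos_of_pos hk _
  have hc1 := h.c1p
  have hi : 0 < (P.kap (n + 1))⁻¹ := inv_pos.2 hk1
  obtain ⟨phi, hphi⟩ : ∃ phi : Tor d L → ℝ, phi = fun y => Sf.phi K (π.lev y) (v y) := ⟨_, rfl⟩
  obtain ⟨om, hom'⟩ : ∃ om : Tor d L → ℝ, om = fun y => Sf.om (π.lev y) (v y) := ⟨_, rfl⟩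
  obtain ⟨al, hal⟩ : ∃ al : Tor d L → ℝ,
    al = fun y => Sf.s K * P.Cz * F.err y * (P.kap (n + 1))⁻¹ := ⟨_, rfl⟩
  obtain ⟨be, hbe'⟩ : ∃ be : Tor d L → ℝ, be = fun y => Sf.s K * P.Cz * F.be y := ⟨_, rfl⟩
  obtain ⟨p, hp⟩ : ∃ p : Tor d L → ℝ, p = fun y => ph (P.kap n) P.vi P.b s y c := ⟨_, rfl⟩
  obtain ⟨al0, hal0⟩ : ∃ al0 : ℝ, al0 = Sf.s K * P.Cz * m * (P.kap (n + 1))⁻¹ := ⟨_, rfl⟩
  obtain ⟨be0, hbe0⟩ : ∃ be0 : ℝ, be0 = Sf.s K * P.Cz * (P.kap n ^ (-P.vp) * m) := ⟨_, rfl⟩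
  obtain ⟨B3, hB3⟩ : ∃ B3 : ℝ, B3 = B1 + P.Cz * (errm + bem * B2) := ⟨_, rfl⟩
  have hB3n : 0 ≤ B3 := by
    have := hn.B1n
    have := hn.B2n
    have := hn.errn
    have := hn.ben
    rw [hB3]; positivity
  have hp0 : ∀ y, 0 ≤ p y := fun y => by rw [hp]; exact ph_nonneg hk s y c
  have hphi0 : ∀ y, 0 ≤ phi y := fun y => by rw [hphi]; exact hS.phi _ _ _
  have hom0 : ∀ y, 0 ≤ om y := fun y => by rw [hom']; exact hS.om _ _
  have haln : ∀ y, 0 ≤ al y := fun y => by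
    have := hF.err y
    rw [hal]; positivity
  have hben : ∀ y, 0 ≤ be y := fun y => by
    have := hF.be y
    rw [hbe']; positivity
  -- the old tolerances
  have ta : ∀ y, (tolAt P Sf n F π v M).a K y = aB phi M y := fun y => by
    rw [hphi]; rfl
  have tz : ∀ y, (tolAt P Sf n F π v M).z K y = zB phi om al be P.eta M y := fun y => by
    show (if y ∈ M.A then 0 else Sf.phi K (π.lev y) (v y) * io M y) +
      Sf.s K * P.Cz * (F.err y * ((if y ∈ M.A then P.eta else M.eta y) / P.kap (n + 1)) +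
        F.be y * (Sf.om (π.lev y) (v y) * io M y)) = _
    unfold zB uB
    rw [hphi, hom', hal, hbe']
    by_cases hA : y ∈ M.A
    · simp only [if_pos hA, if_pos (Or.inl hA)]
      rw [div_eq_mul_inv]
      ring
    · by_cases hI' : y ∈ M.I
      · simp only [if_neg hA, if_pos (Or.inr hI' : y ∈ M.A ∨ y ∈ M.I), hI K hK' y hI' hA]
        rw [div_eq_mul_inv]
        ring
      · simp only [if_neg hA, if_neg (not_or.2 ⟨hA, hI'⟩)]
        rw [div_eq_mul_inv]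
        ring
  have h3 : ‖∑ y ∈ M.A, rsc (H0T d L) M.b x y ^ 2 * (aB phi M y : ℂ)‖ ≤
      ∑ y ∈ M.nr, ‖rsc (H0T d L) M.b x y‖ ^ 2 * zB phi om al be P.eta M y := by
    have := hG.h3 K hK' x (h.rem.nB hx).1
    simp only [ta, tz] at this
    exact this
  have w : H3W M M' c s P.eta phi om al be p al0 be0
      (Sf.s K * B3 * (P.kap (n + 1))⁻¹)
      (Sf.s K * (P.Cz * m * c3 / 2) * (P.kap (n + 1))⁻¹) (Sf.s K * P.Cz * bem)
      (P.kap n ^ P.vi) (P.b * P.kap n) := by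
    have zle : ∀ y, y ∉ M.U → zB phi om al be P.eta M y ≤
        Sf.s K * B3 * (P.kap (n + 1))⁻¹ * M.eta y := by
      intro y hy
      have g1 := hB1 K hK' y hy
      have g2 := hB2 y hy
      have g3 := herr y hy
      have g4 := hbe y hy
      have g5 := h.e0 y
      have g6 := hF.err y
      have g7 := hF.be y
      have g8 : 0 ≤ io M y := hc1.le.trans (h.ioM y hy)
      have g9 : (if y ∈ M.A then P.eta else M.eta y) ≤ M.eta y := by
        split_ifs with hA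
        · rw [h.eA y hA]
          have := mul_nonneg (h.k0 y) g8
          linarith
        · exact le_rfl
      have g9' : 0 ≤ (if y ∈ M.A then P.eta else M.eta y) := by
        split_ifs
        · exact hP.eta
        · exact g5
      have a1 : (if y ∈ M.A ∨ y ∈ M.I then 0 else phi y * io M y) ≤
          Sf.s K * (B1 / P.kap (n + 1) * M.eta y) := by
        split_ifs
        · have := hn.B1n
          positivity
        · rw [hphi]; exact g1
      have a2 : al y * (if y ∈ M.A then P.eta else M.eta y) ≤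
          Sf.s K * P.Cz * errm * (P.kap (n + 1))⁻¹ * M.eta y := by
        refine mul_le_mul ?_ g9 g9' ?_
        · rw [hal]
          exact mul_le_mul_of_nonneg_right
            (mul_le_mul_of_nonneg_left g3 (mul_nonneg hsK hCz)) hi.le
        · have := hn.errn
          positivity
      have a3 : be y * (om y * io M y) ≤
          Sf.s K * P.Cz * bem * (B2 / P.kap (n + 1) * M.eta y) := by
        rw [hbe', hom']
        have := hn.ben
        have := hS.om (π.lev y) (v y)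
        refine mul_le_mul ?_ g2 ?_ ?_
        · exact mul_le_mul_of_nonneg_left g4 (mul_nonneg hsK hCz)
        · exact mul_nonneg this g8
        · positivity
      unfold zB uB
      calc _ ≤ Sf.s K * (B1 / P.kap (n + 1) * M.eta y) +
            (Sf.s K * P.Cz * errm * (P.kap (n + 1))⁻¹ * M.eta y +
              Sf.s K * P.Cz * bem * (B2 / P.kap (n + 1) * M.eta y)) :=
            add_le_add a1 (add_le_add a2 a3)
        _ = _ := by
            rw [hB3, div_eq_mul_inv, div_eq_mul_inv]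
            ring
    refine ⟨fun y _ => hphi0 y, fun y _ => hom0 y, fun y _ => haln y, fun y _ => hben y, hp0,
      ?_, ?_, ?_, ?_, hκv.le, ?_, ?_, zle, ?_, ?_, ?_, ?_⟩
    · rw [hal0]; positivity
    · rw [hbe0]; positivity
    · positivity
    · have := hn.c3n
      positivity
    · exact mul_nonneg hP.b hk.le
    · intro y hy
      have hyU : y ∉ M.U := fun hu => Finset.disjoint_left.1 h.AU hy hu
      have g1 := hB1 K hK' y hyU
      rw [hphi]
      refine g1.trans ?_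
      have g5 := h.e0 y
      have g6 : B1 ≤ B3 := by
        rw [hB3]
        have := hn.B2n
        have := hn.errn
        have := hn.ben
        have : 0 ≤ P.Cz * (errm + bem * B2) := by positivity
        linarith
      calc Sf.s K * (B1 / P.kap (n + 1) * M.eta y) =
            Sf.s K * B1 * (P.kap (n + 1))⁻¹ * M.eta y := by rw [div_eq_mul_inv]; ring
        _ ≤ Sf.s K * B3 * (P.kap (n + 1))⁻¹ * M.eta y := by gcongr
    · -- the new errors dominate the absorption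
      intro y hy
      have hyU := (h.rem.nB hy).1
      have hyB := (h.rem.nB hy).2
      have g0 : 0 ≤ io M' y := hc1.le.trans (h.ioM' y hy)
      have gA : y ∈ M'.A → M'.eta y = P.eta + M'.k y * io M' y := by
        intro hA
        have hA0 := h.rem.A_sub hA
        rw [h.rem.eta hyB, h.rem.k y hyB, h.eA y hA0]
        unfold AND.io
        ring
      have e1 := uB_low (al := fun y => p y * al0) (be := fun y => p y * be0) (om := om)
        (eta := P.eta) (k := 1) (c := 2 * (Sf.s K * (P.Cz * m * c3 / 2) *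
          (P.kap (n + 1))⁻¹) * p y) (M := M') (y := y) g0 hP.eta gA
        (by
          rw [hal0]
          have f1 := hp0 y
          have f2 : 0 ≤ Sf.s K * P.Cz * m * (P.kap (n + 1))⁻¹ * p y := by positivity
          have f3 := mul_le_mul_of_nonneg_left hn.c31 f2
          calc _ = Sf.s K * P.Cz * m * (P.kap (n + 1))⁻¹ * p y * c3 := by ring
            _ ≤ Sf.s K * P.Cz * m * (P.kap (n + 1))⁻¹ * p y * 1 := f3
            _ = _ := by ring)
        (by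
          intro hA
          have hA0 := h.rem.A_sub hA
          rw [hbe0, hom', h.rem.k y hyB]
          have f1 := hp0 y
          have f2 : 0 ≤ Sf.s K * P.Cz * m * (P.kap (n + 1))⁻¹ * p y := by positivity
          have f3 := mul_le_mul_of_nonneg_left (hom y hA0) f2
          calc _ = Sf.s K * P.Cz * m * (P.kap (n + 1))⁻¹ * p y * (c3 * M.k y) := by ring
            _ ≤ Sf.s K * P.Cz * m * (P.kap (n + 1))⁻¹ * p y *
                (P.kap (n + 1) * (P.kap n ^ (-P.vp) * Sf.om (π.lev y) (v y))) := f3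
            _ = Sf.s K * P.Cz * m * p y * (P.kap n ^ (-P.vp) * Sf.om (π.lev y) (v y)) *
                ((P.kap (n + 1))⁻¹ * P.kap (n + 1)) := by ring
            _ = _ := by rw [inv_mul_cancel₀ hk1.ne']; ring)
        (by
          have f1 := hp0 y
          have f2 := hom0 y
          rw [hbe0]
          positivity) zero_le_one (h.e0' y)
      linarith
    · intro y hy
      rw [hbe']
      exact mul_le_mul_of_nonneg_left (hbe y hy) (mul_nonneg hsK hCz)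
    · intro y hy
      rw [hp]
      show _ ≤ ph (P.kap n) P.vi P.b s y c
      unfold ph
      rw [if_pos hy]
    · intro y hy
      rw [hp]
      show _ ≤ ph (P.kap n) P.vi P.b s y c
      unfold ph
      rw [if_neg (not_le.2 hy)]
  have nn : H3N s ν ε Kf c1 Kw Sν ρ0 al0 be0 (Sf.s K * B3 * (P.kap (n + 1))⁻¹)
      (Sf.s K * (P.Cz * m * c3 / 2) * (P.kap (n + 1))⁻¹) (Sf.s K * P.Cz * bem)
      (P.kap n ^ P.vi) (P.b * P.kap n) := by
    have u0 : 0 ≤ Sf.s K * (P.kap (n + 1))⁻¹ := mul_nonneg hsK hi.le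
    have u1 : 0 ≤ Sf.s K * P.Cz := mul_nonneg hsK hCz
    refine ⟨hn.c11, hn.Kw1, hn.εc, hn.βν, hn.βs, hn.ρs, hn.tail, ?_, ?_, ?_, ?_, ?_, ?_⟩
    · have := mul_le_mul_of_nonneg_left hn.near u0
      rw [← hB3] at this
      linarith
    · have := mul_le_mul_of_nonneg_left hn.far u0
      rw [← hB3] at this
      linarith
    · have := mul_le_mul_of_nonneg_left hn.b1 u1
      rw [hbe0]
      linarith
    · have := mul_le_mul_of_nonneg_left hn.b2 u1
      rw [hbe0]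
      linarith
    · have := mul_le_mul_of_nonneg_left hn.a1 u0
      rw [← hB3] at this
      rw [hal0]
      linarith
    · have := mul_le_mul_of_nonneg_left hn.a2 u0
      rw [← hB3] at this
      rw [hal0]
      linarith
  have key := rem_h3 h w nn hx h3
  -- the new tolerances
  have ta' : ∀ y ∈ M'.A, (tolAt P Sf n (F.ins P n s m {c}) π' v M').a K y = aB phi M' y := by
    intro y hy
    have hyB : y ∉ B := by
      rw [h.rem.A] at hy
      exact (Finset.mem_sdiff.1 hy).2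
    show (if y ∈ M'.A then Sf.phi K (π'.lev y) (v y) * io M' y else 0) = _
    unfold aB
    rw [hr y hyB, hphi]
  have tz' : ∀ y ∈ M'.nr, (tolAt P Sf n (F.ins P n s m {c}) π' v M').z K y =
      zB phi om (fun y => al y + p y * al0) (fun y => be y + p y * be0) P.eta M' y := by
    intro y hy
    have hyB := (h.rem.nB (mem_nr.1 hy)).2
    show (if y ∈ M'.A then 0 else Sf.phi K (π'.lev y) (v y) * io M' y) +
      Sf.s K * P.Cz * ((F.err y + m * ∑ c ∈ ({c} : Finset (Tor d L)),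
        ph (P.kap n) P.vi P.b s y c) *
          ((if y ∈ M'.A then P.eta else M'.eta y) / P.kap (n + 1)) +
        (F.be y + (P.kap n) ^ (-P.vp) * (m * ∑ c ∈ ({c} : Finset (Tor d L)),
          ph (P.kap n) P.vi P.b s y c)) * (Sf.om (π'.lev y) (v y) * io M' y)) = _
    rw [Finset.sum_singleton, hr y hyB]
    unfold zB uB
    rw [hphi, hom', hal, hbe', hp, hal0, hbe0]
    by_cases hA : y ∈ M'.A
    · simp only [if_pos hA, if_pos (Or.inl hA)]
      rw [div_eq_mul_inv]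
      ring
    · have hA0 : y ∉ M.A := by
        intro h1
        exact hA (by rw [h.rem.A]; exact Finset.mem_sdiff.2 ⟨h1, hyB⟩)
      by_cases hI' : y ∈ M'.I
      · have hI0 : y ∈ M.I := by
          rw [h.rem.I] at hI'
          exact (Finset.mem_sdiff.1 hI').1
        simp only [if_neg hA, if_pos (Or.inr hI' : y ∈ M'.A ∨ y ∈ M'.I), hI K hK' y hI0 hA0]
        rw [div_eq_mul_inv]
        ring
      · simp only [if_neg hA, if_neg (not_or.2 ⟨hA, hI'⟩)]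
        rw [div_eq_mul_inv]
        ring
  have s1 : ∑ y ∈ M'.A, rsc (H0T d L) M'.b x y ^ 2 *
      ((tolAt P Sf n (F.ins P n s m {c}) π' v M').a K y : ℂ) =
      ∑ y ∈ M'.A, rsc (H0T d L) M'.b x y ^ 2 * (aB phi M' y : ℂ) :=
    Finset.sum_congr rfl fun y hy => by rw [ta' y hy]
  have s2 : ∑ y ∈ M'.nr, ‖rsc (H0T d L) M'.b x y‖ ^ 2 *
      (tolAt P Sf n (F.ins P n s m {c}) π' v M').z K y =
      ∑ y ∈ M'.nr, ‖rsc (H0T d L) M'.b x y‖ ^ 2 *
        zB phi om (fun y => al y + p y * al0) (fun y => be y + p y * be0) P.eta M' y :=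
    Finset.sum_congr rfl fun y hy => by rw [tz' y hy]
  rw [s1, s2]
  exact key

end tol

end Pool.Agent.ANI
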