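import Pool.Agent.ANI.Wts
import Pool.Agent.ANM.FDec

/-! # ANI ANNIN: the annulus step, raw part (helper75)

`S` active or inert sites, read completely: `bt` real on `S`, `|bt - M.b| ≤ uu` there.
* `ent_all` : decay of all entries between the sites of `V` (sites where the entries are controlled).
* `ann_in` : `RawIn f t u M S bt M.nr (dB S) s5 (μ/a) ε q W Kf` (entries compared at ALL sites not read before).
-/

open Matrix Finset

noncomputable section

namespace Pool.Agent.ANI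

open Pool.Agent.Kin Pool.Agent.APS Pool.Agent.AND Pool.Agent.ANL Pool.Agent.ANM

variable {d L : ℕ} [NeZero L]

/-- data of the annulus step -/
structure AnnIn (f : Fix) (t : Tol d L) (u : UTol) (M : Med (Tor d L)) (S : Finset (Tor d L))
    (bt : Tor d L → ℂ) (uu s5 : ℝ) {κ : Type*} (D : κ → Set (Tor d L)) (a cw : ℕ) (μ : ℝ) :
    Prop where
  good : Good f t M
  tin : t.In f M u
  num : Num f t u
  k1 : t.k ≤ 1
  rho0 : 0 < u.rho
  rho : u.rho ≤ 2
  SU : Disjoint S M.U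
  off : ∀ x, x ∉ S → bt x = M.b x
  imS : ∀ x ∈ S, (bt x).im = 0
  uu0 : 0 ≤ uu
  du : ∀ x ∈ S, ‖bt x - M.b x‖ ≤ uu
  mbb : IsUnit (MBB (H0T d L) bt (M.nr \ S)).det
  hs5 : s5 = f.s
  s50 : 0 ≤ s5
  r0 : 1 ≤ f.r0
  Lam0 : 0 ≤ u.Lam
  C20 : 0 ≤ u.C2
  wts : Wts f t M S D a cw μ

/-- numbers of the annulus step: `m = |S|` -/
structure AnnNum (f : Fix) (t : Tol d L) (u : UTol) (m uu s5 ε q W Kf : ℝ) (a cw : ℕ) (μ : ℝ) :
    Prop where
  e0 : 0 ≤ ε
  sm : m * u.Lam * uu ≤ 1 / 2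
  sm2 : 2 ^ s5 * (2 * uu * m * u.Lam) ≤ 1 / 2
  e1 : (2 * uu * m * u.Lam) ^ 2 * (m * f.C1) ≤ ε ^ 2
  e2 : 4 * 2 ^ s5 * (u.Lam * f.r0 ^ s5 + u.C2) * (2 * uu * m * u.Lam) ≤ ε
  q1 : (2 * uu * m * u.Lam) ^ 4 * (m * u.tau) ≤ q
  W1 : (2 * uu * m) ^ 2 * (m * f.C1) ^ 2 ≤ W
  W2 : 2 * uu * m * (m * f.C1) / f.c1 ≤ W
  K1 : 2 * uu * m * u.Lam * (4 / μ * (u.Lam * f.r0 ^ s5 + u.C2) * Real.exp (μ * cw / a)) ≤ Kf
  n1 : ε ≤ f.C1
  n2 : 8 * (2 * ε * √f.C1 + ε ^ 2) ≤ u.rho * f.c1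

variable {f : Fix} {t : Tol d L} {u : UTol} {M : Med (Tor d L)} {S : Finset (Tor d L)}
  {bt : Tor d L → ℂ} {uu s5 : ℝ} {κ : Type*} {D : κ → Set (Tor d L)} {a cw : ℕ} {μ : ℝ}

variable {V : Finset (Tor d L)} {CV : ℝ}

/-- decay of the entries between the sites of `V` -/
theorem ent_all (hg : Good f t M) (hi : t.In f M u) (hN : Num f t u)
    {B : Finset (Tor d L)} (hw : Wts f t M B D a cw μ) (hs : 0 ≤ s5) (hCV : 0 ≤ CV)
    (hV : ∀ x ∈ V, ∀ y ∈ V, ‖rsc (H0T d L) M.b x y‖ * om5 s5 x y ≤ CV)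
    {x z : Tor d L} (hx : x ∈ V) (hz : z ∈ V) :
    ‖rsc (H0T d L) M.b x z‖ ≤ 4 / μ * CV * Real.exp (μ * cw / a) *
      Real.exp (-(μ / a * ANP.dT x z)) := by
  have hadm := hg.admN hi hN
  have hd : ANM.Diss (H0T d L) M.b := ⟨hadm.sym, hadm.im, hadm.unit⟩
  have hW := hasW_good hg hi hN hw.cp hw.U hw.I hw.μ0.le hw.μ1 hw.m1 hw.m2
  have hμ := hw.μ0
  have hμ1 := hw.μ1
  have ha : (0 : ℝ) < a := by exact_mod_cast hw.a1
  have hent : ∀ x ∈ V, ∀ y ∈ V, ‖rsc (H0T d L) M.b x y‖ ≤ CV := fun x hx y hy => by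
    have h1 := hV x hx y hy
    have h2 := om5_ge_one hs x y
    nlinarith [norm_nonneg (rsc (H0T d L) M.b x y)]
  have hE0 : 0 < Real.exp (μ * cw / a) := Real.exp_pos _
  have hE1 : 0 < Real.exp (-(μ / a * ANP.dT x z)) := Real.exp_pos _
  have hμ4 : 4 ≤ 4 / μ := by
    rw [le_div_iff₀ hμ]
    nlinarith
  by_cases hc : cw < td x z
  · have h1 := dec_all hd hw.a1 hμ hW hc (hent x hx x hx)
      ((Complex.im_le_norm _).trans (hent z hz z hz))
    have h2 : Real.exp μ ≤ 3 := by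
      have := Real.exp_one_lt_d9
      have h3 : Real.exp μ ≤ Real.exp 1 := Real.exp_le_exp.2 hμ1
      linarith
    have h3 : Real.exp (-(μ * td x z / a)) = Real.exp (-(μ / a * ANP.dT x z)) := by
      congr 1
      show -(μ * (ANP.dT x z : ℝ) / a) = _
      ring
    rw [h3] at h1
    refine h1.trans (mul_le_mul_of_nonneg_right (mul_le_mul_of_nonneg_right ?_ hE0.le) hE1.le)
    rw [div_le_iff₀ (by positivity)]
    have h4 : 4 / μ * CV * (4 * μ) = 16 * CV := by field_simp; ring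
    rw [h4]
    nlinarith
  · push Not at hc
    have h1 : (1 : ℝ) ≤ Real.exp (μ * cw / a) * Real.exp (-(μ / a * ANP.dT x z)) := by
      rw [← Real.exp_add]
      refine Real.one_le_exp ?_
      have h2 : (ANP.dT x z : ℝ) ≤ cw := by exact_mod_cast hc
      have h3 : μ / a * ANP.dT x z ≤ μ / a * cw := by gcongr
      have h4 : μ / a * cw = μ * cw / a := by ring
      linarith
    calc ‖rsc (H0T d L) M.b x z‖ ≤ CV := hent x hx z hz
      _ ≤ 4 / μ * CV * 1 := by nlinarith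
      _ ≤ 4 / μ * CV * (Real.exp (μ * cw / a) * Real.exp (-(μ / a * ANP.dT x z))) := by
          gcongr
      _ = _ := by ring

/-- weighted bound of the entries of a good medium -/
theorem good_om (hg : Good f t M) (hi : t.In f M u) (hs5 : s5 = f.s) (hs : 0 ≤ s5)
    (hr0 : 1 ≤ f.r0) (hLam : 0 ≤ u.Lam) (hC2 : 0 ≤ u.C2) :
    ∀ x ∈ M.nr, ∀ y ∈ M.nr, ‖rsc (H0T d L) M.b x y‖ * om5 s5 x y ≤
      u.Lam * f.r0 ^ s5 + u.C2 := by
  intro x hx y hy
  have h1 := hg.h5 x y (mem_nr.1 hx) (mem_nr.1 hy)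
  have hp := om5_pos s5 x y
  have hr1 : 0 ≤ f.r0 ^ s5 := Real.rpow_nonneg (by linarith) _
  by_cases hd : f.r0 ≤ (ANM.td x y : ℝ)
  · have h2 := hi.h5 x y hd
    have h3 : (0 : ℝ) < ANM.td x y := by linarith
    have h4 : om5 s5 x y = (ANM.td x y : ℝ) ^ s5 := by
      unfold om5
      congr 1
      exact max_eq_right (hr0.trans hd)
    have h5 : (ANM.td x y : ℝ) ^ (-f.s) * (ANM.td x y : ℝ) ^ s5 = 1 := by
      rw [← Real.rpow_add h3, hs5]
      simp
    calc ‖rsc (H0T d L) M.b x y‖ * om5 s5 x y ≤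
          (u.C2 * (ANM.td x y : ℝ) ^ (-f.s)) * om5 s5 x y :=
          mul_le_mul_of_nonneg_right (h1.trans h2) hp.le
      _ = u.C2 := by rw [h4, mul_assoc, h5, mul_one]
      _ ≤ _ := by nlinarith [mul_nonneg hLam hr1]
  · push Not at hd
    have h4 : om5 s5 x y ≤ f.r0 ^ s5 := by
      unfold om5
      exact Real.rpow_le_rpow (le_trans zero_le_one (le_max_left _ _)) (max_le hr0 hd.le) hs
    calc ‖rsc (H0T d L) M.b x y‖ * om5 s5 x y ≤ u.Lam * f.r0 ^ s5 :=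
          mul_le_mul (h1.trans (hi.Lam x y)) h4 hp.le hLam
      _ ≤ _ := by linarith

theorem ann_in (h : AnnIn f t u M S bt uu s5 D a cw μ) {ε q W Kf : ℝ}
    (hn : AnnNum f t u S.card uu s5 ε q W Kf a cw μ) :
    RawIn f t u M S bt M.nr (dB S) s5 (μ / a) ε q W Kf := by
  have hA := h.good.A_sub_nr
  have hadm := h.good.admN h.tin h.num
  have hC1 := h.good.C1_pos h.tin h.num
  have hS : ∀ z ∈ S, z ∉ M.U := fun z hz => Finset.disjoint_left.1 h.SU hz
  have hSn : S ⊆ M.nr := fun z hz => mem_nr.2 (hS z hz)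
  have hrd : Rd (H0T d L) M.b bt S := Rd.mk' hadm h.off (fun x hx => (h.imS x hx).le)
    (u := uu) (C := u.Lam) h.du
    (fun x hx y hy => h.good.ent_Lam h.tin (hS x hx) (hS y hy)) hn.sm
  have hlam := good_om h.good h.tin h.hs5 h.s50 h.r0 h.Lam0 h.C20
  have hCV : 0 ≤ u.Lam * f.r0 ^ s5 + u.C2 := by
    have : 0 ≤ f.r0 ^ s5 := Real.rpow_nonneg (by linarith [h.r0]) _
    have := h.Lam0
    have := h.C20
    positivity
  have hcls := rd_cls hrd (X0 := M.nr) (X := M.nr \ S) (A := M.A \ S) (k := M.k)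
    (ω := om5 s5) (δ := dB S) (u := uu) (C1 := u.Lam) (I := f.C1) (τ := u.tau) (K0 := 2 ^ s5)
    (Cω := u.Lam * f.r0 ^ s5 + u.C2) (ν := μ / a) (ε := ε) (q := q) (W := W) (Kf := Kf)
    (Kg := 4 / μ * (u.Lam * f.r0 ^ s5 + u.C2) * Real.exp (μ * cw / a)) (c := f.c1)
    hSn Finset.sdiff_subset (Finset.sdiff_subset_sdiff hA (Finset.Subset.refl S))
    h.uu0 h.du h.Lam0 (fun x hx z hz => h.good.ent_Lam h.tin (mem_nr.1 hx) (hS z hz)) hC1.le
    (fun z hz => h.good.io_le h.tin h.num (hS z hz))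
    (fun z hz => (Finset.sum_le_sum_of_subset_of_nonneg Finset.sdiff_subset
      fun y _ _ => by positivity).trans ((h.good.h2 z (hS z hz)).trans (h.tin.tau z)))
    h.num.c1
    (fun x hx => by
      have hxA := (Finset.mem_sdiff.1 hx).1
      have h1 := h.good.kio_le h.tin h.num (h.good.nU_of_A hxA)
      have h2 := h.good.io_ge h.tin h.num (h.good.nU_of_A hxA)
      have h3 := h.good.k_nonneg h.num x
      have h4 := mul_le_mul_of_nonneg_left h2 h3
      unfold Med.eta at h1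
      linarith)
    (fun x y => (om5_pos s5 x y).le) (Real.rpow_nonneg (by norm_num) _)
    hCV
    (fun x y z => om5_quasi h.s50 x y z) hlam hn.sm2
    (fun x hx z hz => by
      have h1 := ent_all h.good h.tin h.num h.wts h.s50 hCV hlam hx (hSn hz)
      refine h1.trans ?_
      have h2 := dB_le hz x
      have hμ := h.wts.μ0
      have h3 : 0 < μ / a := div_pos h.wts.μ0 (by exact_mod_cast h.wts.a1)
      have h4 : 0 ≤ 4 / μ * (u.Lam * f.r0 ^ s5 + u.C2) * Real.exp (μ * cw / a) := by positivity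
      gcongr)
    hn.e0 hn.e1 hn.e2 hn.q1 hn.W1 hn.W2 hn.K1
  exact {
    good := h.good
    tin := h.tin
    num := h.num
    k1 := h.k1
    rho0 := h.rho0
    rho := h.rho
    BU := h.SU
    off := h.off
    imB := h.imS
    unit := hrd.adm'.unit
    mbb := h.mbb
    XX := Finset.sdiff_subset
    X0n := Finset.Subset.refl _
    s50 := h.s50
    δ0 := dB_nonneg S
    cls := hcls
    n1 := hn.n1
    n2 := hn.n2 }

end Pool.Agent.ANI
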