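import Pool.Agent.ANI.Blobs
import Pool.Agent.ANI.AnnIn
import Pool.Agent.AND.HoleGeo

/-! # ANI CONTIN: the content step, raw part (helper75)

`M` the medium after the annulus was read, `F` the content (static sites), read completely blob after blob (`Blb.main`).
`V ⊇ (M.nr ∖ F) ∪ ⋃ bdy Db i` : sites where the entries of `M.b` are controlled (`V` = non read sites before the annulus).
* `CGeo` : geometry of the blobs;  `ContIn` : data;  `ContNum` : numbers.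
* `cont_in` : `RawIn f t u M F bt (M.nr ∖ F) (dB F) s5 (μ/a) ε q W Kf`.
-/

open Matrix Finset

noncomputable section

namespace Pool.Agent.ANI

open Pool.Agent.Kin Pool.Agent.APS Pool.Agent.AND Pool.Agent.ANL Pool.Agent.ANM

variable {d L : ℕ} [NeZero L]

/-- geometry of the blobs `Fb i ⊆ Db i`, `i < m` -/
structure CGeo (M : Med (Tor d L)) (F V : Finset (Tor d L)) (m : ℕ)
    (Fb Db : ℕ → Finset (Tor d L)) (r1 D1 nb : ℕ) (ρF : ℝ) : Prop where
  un : UFn Fb m = F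
  FD : ∀ i < m, Fb i ⊆ Db i
  /-- the sites of `Db i` are read before or now -/
  DX : ∀ i < m, ∀ x ∈ Db i, x ∈ M.U ∨ x ∈ F
  sep : ∀ i < m, ∀ j < m, i ≠ j → Disjoint (bdy (H0T d L) (Db j)) (Db i)
  bV : ∀ i < m, ∀ z ∈ bdy (H0T d L) (Db i), z ∈ V
  XV : M.nr \ F ⊆ V
  dX : ∀ i < m, ∀ x ∈ M.nr \ F, ∀ z ∈ bdy (H0T d L) (Db i), r1 ≤ ANP.dT x z
  db : ∀ i < m, ∀ j < m, i ≠ j → ∀ x ∈ bdy (H0T d L) (Db j), ∀ z ∈ bdy (H0T d L) (Db i),
    r1 ≤ ANP.dT x z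
  dia : ∀ i < m, ∀ z ∈ bdy (H0T d L) (Db i), ∀ z' ∈ bdy (H0T d L) (Db i), ANP.dT z z' ≤ D1
  card : ∀ i < m, (bdy (H0T d L) (Db i)).card ≤ nb
  near : ∀ i < m, ∀ z ∈ bdy (H0T d L) (Db i), dB F z ≤ ρF

/-- data of the content step -/
structure ContIn (f : Fix) (t : Tol d L) (u : UTol) (M : Med (Tor d L)) (F V : Finset (Tor d L))
    (bt : Tor d L → ℂ) (m : ℕ) (Fb Db : ℕ → Finset (Tor d L)) (r1 D1 nb : ℕ)
    (Ml CV τV ρF s5 : ℝ) {κ : Type*} (D : κ → Set (Tor d L)) (a cw : ℕ) (μ : ℝ) : Prop where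
  good : Good f t M
  tin : t.In f M u
  num : Num f t u
  k1 : t.k ≤ 1
  rho0 : 0 < u.rho
  rho : u.rho ≤ 2
  FU : Disjoint F M.U
  off : ∀ x, x ∉ F → bt x = M.b x
  imF : ∀ x ∈ F, (bt x).im = 0
  res : ∀ B : Finset (Tor d L), NRes (H0T d L) M.b (M.U \ B) ∧
    ∀ l ≤ m, NRes (H0T d L) (bl M.b bt Fb l) ((M.U ∪ UFn Fb l) \ B)
  mbb : IsUnit (MBB (H0T d L) bt (M.nr \ F)).det
  lev : ∀ i < m, ∀ y ∈ bdy (H0T d L) (Db i), LevLe (H0T d L) M.b F y Ml
  geo : CGeo M F V m Fb Db r1 D1 nb ρF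
  s50 : 0 ≤ s5
  Ml0 : 0 ≤ Ml
  CV0 : 0 ≤ CV
  τV0 : 0 ≤ τV
  ent : ∀ x ∈ V, ∀ y ∈ V, ‖rsc (H0T d L) M.b x y‖ * om5 s5 x y ≤ CV
  four : ∀ z ∈ V, ∑ y ∈ M.A, ‖rsc (H0T d L) M.b z y‖ ^ 4 ≤ τV
  wts : Wts f t M F D a cw μ

/-- `P` of the blobs -/
def cP (d : ℕ) (Ml : ℝ) (nb : ℕ) : ℝ := Ml * (2 * d) ^ 2 * (nb : ℝ) ^ 2

/-- `Kd` of the blobs -/
def cKd (r1 D1 : ℕ) (s5 : ℝ) : ℝ := (2 + (D1 : ℝ) / r1) ^ s5

/-- far constant -/
def cKg (CV ρF : ℝ) (a cw : ℕ) (μ : ℝ) : ℝ := 4 / μ * CV * Real.exp (μ * (cw + ρF) / a)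

/-- numbers of the content step -/
structure ContNum (f : Fix) (u : UTol) (m r1 D1 nb d : ℕ) (Ml CV τV ρF s5 ε q W Kf : ℝ)
    (a cw : ℕ) (μ : ℝ) : Prop where
  hr : 1 ≤ r1
  n1 : m * eB (cP d Ml nb) CV (cKd r1 D1 s5) ((r1 : ℝ) ^ s5) ≤ CV
  n2 : (16 : ℝ) ^ m * qB (cP d Ml nb) CV ((r1 : ℝ) ^ s5) τV ≤ τV
  n3 : 2 * cP d Ml nb * (2 * CV / (r1 : ℝ) ^ s5) ≤ 1
  e : m * eB (cP d Ml nb) CV (cKd r1 D1 s5) ((r1 : ℝ) ^ s5) ≤ ε
  q : (16 : ℝ) ^ m * qB (cP d Ml nb) CV ((r1 : ℝ) ^ s5) τV ≤ q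
  W : (4 : ℝ) ^ m * WB (cP d Ml nb) CV f.c1 ≤ W
  K : (2 : ℝ) ^ m * cKg CV ρF a cw μ ≤ Kf
  c1 : ε ≤ f.C1
  c2 : 8 * (2 * ε * √f.C1 + ε ^ 2) ≤ u.rho * f.c1

variable {f : Fix} {t : Tol d L} {u : UTol} {M : Med (Tor d L)} {F V : Finset (Tor d L)}
  {bt : Tor d L → ℂ} {m : ℕ} {Fb Db : ℕ → Finset (Tor d L)} {r1 D1 nb : ℕ}
  {Ml CV τV ρF s5 : ℝ} {κ : Type*} {D : κ → Set (Tor d L)} {a cw : ℕ} {μ : ℝ}

/-- site weight of a blob -/
def wB (r1 : ℕ) (s5 : ℝ) (Z : Finset (Tor d L)) (x : Tor d L) : ℝ :=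
  if Z.Nonempty then (max 1 (dB Z x)) ^ s5 else (r1 : ℝ) ^ s5 + ∑ x : Tor d L, ∑ y : Tor d L, om5 s5 x y

theorem wB_le (hs : 0 ≤ s5) {Z : Finset (Tor d L)} {x z : Tor d L} (hz : z ∈ Z) :
    wB r1 s5 Z x ≤ om5 s5 x z := by
  unfold wB
  rw [if_pos ⟨z, hz⟩]
  unfold om5
  exact Real.rpow_le_rpow (le_trans zero_le_one (le_max_left _ _))
    (max_le_max le_rfl (dB_le hz x)) hs

theorem le_wB (hs : 0 ≤ s5) {Z : Finset (Tor d L)} {x : Tor d L}
    (h : ∀ z ∈ Z, r1 ≤ ANP.dT x z) : (r1 : ℝ) ^ s5 ≤ wB r1 s5 Z x := by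
  unfold wB
  split_ifs with hZ
  · obtain ⟨z, hz, h1⟩ := exists_dB hZ x
    refine Real.rpow_le_rpow (Nat.cast_nonneg _) ?_ hs
    rw [h1]
    exact le_max_of_le_right (by exact_mod_cast h z hz)
  · have : 0 ≤ ∑ x : Tor d L, ∑ y : Tor d L, om5 s5 x y :=
      Finset.sum_nonneg fun x _ => Finset.sum_nonneg fun y _ => (om5_pos s5 x y).le
    linarith

theorem om5_le_wB (hs : 0 ≤ s5) (hr : 1 ≤ r1) {Z : Finset (Tor d L)} {x y : Tor d L}
    (hx : ∀ z ∈ Z, r1 ≤ ANP.dT x z) (hy : ∀ z ∈ Z, r1 ≤ ANP.dT y z)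
    (hD : ∀ z ∈ Z, ∀ z' ∈ Z, ANP.dT z z' ≤ D1) :
    om5 s5 x y ≤ cKd r1 D1 s5 * max (wB r1 s5 Z x) (wB r1 s5 Z y) := by
  have hr1 : (1 : ℝ) ≤ r1 := by exact_mod_cast hr
  have hbase : (1 : ℝ) ≤ 2 + (D1 : ℝ) / r1 := by
    have : (0 : ℝ) ≤ (D1 : ℝ) / r1 := by positivity
    linarith
  have hK1 : 1 ≤ cKd r1 D1 s5 := Real.one_le_rpow hbase hs
  by_cases hZ : Z.Nonempty
  · obtain ⟨z, hz, h1⟩ := exists_dB hZ x
    obtain ⟨z', hz', h2⟩ := exists_dB hZ y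
    have e1 : wB r1 s5 Z x = (max 1 (dB Z x)) ^ s5 := by unfold wB; rw [if_pos hZ]
    have e2 : wB r1 s5 Z y = (max 1 (dB Z y)) ^ s5 := by unfold wB; rw [if_pos hZ]
    set p := max 1 (dB Z x) with hp
    set p' := max 1 (dB Z y) with hp'
    have hp1 : (1 : ℝ) ≤ p := le_max_left _ _
    have hp1' : (1 : ℝ) ≤ p' := le_max_left _ _
    have hpr : (r1 : ℝ) ≤ p := by
      rw [hp, h1]
      exact le_max_of_le_right (by exact_mod_cast hx z hz)
    have hmax : max (p ^ s5) (p' ^ s5) = (max p p') ^ s5 := by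
      rcases le_total p p' with h | h
      · rw [max_eq_right h, max_eq_right (Real.rpow_le_rpow (by linarith) h hs)]
      · rw [max_eq_left h, max_eq_left (Real.rpow_le_rpow (by linarith) h hs)]
    rw [e1, e2, hmax]
    unfold cKd om5
    rw [← Real.mul_rpow (by linarith) (le_trans (by linarith) (le_max_left _ _))]
    refine Real.rpow_le_rpow (le_trans zero_le_one (le_max_left _ _)) ?_ hs
    have hmx : p ≤ max p p' := le_max_left _ _
    have hmx' : p' ≤ max p p' := le_max_right _ _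
    have hD' : (D1 : ℝ) ≤ (D1 : ℝ) / r1 * max p p' := by
      have h3 : (0 : ℝ) ≤ (D1 : ℝ) / r1 := by positivity
      calc (D1 : ℝ) = (D1 : ℝ) / r1 * r1 := by field_simp
        _ ≤ (D1 : ℝ) / r1 * max p p' := mul_le_mul_of_nonneg_left (hpr.trans hmx) h3
    refine max_le ?_ ?_
    · nlinarith [mul_le_mul_of_nonneg_right hbase (le_trans (by linarith) hmx : (0:ℝ) ≤ max p p')]
    · have h3 : (ANP.dT x y : ℝ) ≤ ANP.dT x z + ANP.dT z z' + ANP.dT y z' := by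
        have e1 := ANP.nmet_dT.tri x z y
        have e2 := ANP.nmet_dT.tri z z' y
        rw [ANP.nmet_dT.symm z' y] at e2
        exact_mod_cast (show ANP.dT x y ≤ _ by omega)
      have h4 : (ANP.dT z z' : ℝ) ≤ D1 := by exact_mod_cast hD z hz z' hz'
      have h5 : (ANP.dT x z : ℝ) ≤ p := by rw [← h1]; exact le_max_right _ _
      have h6 : (ANP.dT y z' : ℝ) ≤ p' := by rw [← h2]; exact le_max_right _ _
      nlinarith
  · have e1 : wB r1 s5 Z x = (r1 : ℝ) ^ s5 + ∑ x : Tor d L, ∑ y : Tor d L, om5 s5 x y := by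
      unfold wB; rw [if_neg hZ]
    have h1 : om5 s5 x y ≤ ∑ x : Tor d L, ∑ y : Tor d L, om5 s5 x y := by
      calc om5 s5 x y ≤ ∑ y, om5 s5 x y :=
            Finset.single_le_sum (f := fun y => om5 s5 x y) (fun y _ => (om5_pos s5 x y).le)
              (Finset.mem_univ y)
        _ ≤ _ := Finset.single_le_sum (f := fun x => ∑ y, om5 s5 x y)
              (fun x _ => Finset.sum_nonneg fun y _ => (om5_pos s5 x y).le) (Finset.mem_univ x)
    have h2 : (0 : ℝ) ≤ (r1 : ℝ) ^ s5 := by positivity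
    have h3 : om5 s5 x y ≤ max (wB r1 s5 Z x) (wB r1 s5 Z y) := by
      refine le_max_of_le_left ?_
      rw [e1]
      linarith
    have h4 : 0 ≤ max (wB r1 s5 Z x) (wB r1 s5 Z y) := (om5_pos s5 x y).le.trans h3
    nlinarith

variable (h : ContIn f t u M F V bt m Fb Db r1 D1 nb Ml CV τV ρF s5 D a cw μ)

include h

theorem ContIn.VV_sub : VV (H0T d L) Db (M.nr \ F) m 0 ⊆ V := by
  intro x hx
  rcases mem_VV.1 hx with h1 | ⟨j, -, h2, h3⟩
  · exact h.geo.XV h1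
  · exact h.geo.bV j h2 x h3

theorem ContIn.dist {i : ℕ} (hi : i < m) {x : Tor d L}
    (hx : x ∈ VV (H0T d L) Db (M.nr \ F) m (i + 1)) :
    ∀ z ∈ bdy (H0T d L) (Db i), r1 ≤ ANP.dT x z := by
  intro z hz
  rcases mem_VV.1 hx with h1 | ⟨j, h1, h2, h3⟩
  · exact h.geo.dX i hi x h1 z hz
  · exact h.geo.db i hi j h2 (by omega) x h3 z hz

theorem ContIn.blb (hr : 1 ≤ r1) :
    Blb (H0T d L) M.b bt m Fb Db M.U (M.nr \ F) (M.A \ F) M.k (om5 s5)
      (fun i => wB r1 s5 (bdy (H0T d L) (Db i))) (dB F) (2 * d) Ml (cP d Ml nb) (μ / a) f.c1 CV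
      (cKd r1 D1 s5) ((r1 : ℝ) ^ s5) (cKg CV ρF a cw μ) τV where
  adm := h.good.admN h.tin h.num
  neg x hx := by
    have := h.good.eta_pos h.tin h.num hx
    unfold Med.eta at this
    linarith
  res := h.res
  imF i hi x hx := h.imF x (by rw [← h.geo.un]; exact mem_UFn.2 ⟨i, hi, hx⟩)
  off x hx := h.off x (by rw [← h.geo.un]; exact hx)
  hop := hopLe_H0T
  h00 := by positivity
  M0 := h.Ml0
  FD := h.geo.FD
  lev i hi y hy := by
    rw [h.geo.un]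
    exact h.lev i hi y hy
  sep := h.geo.sep
  XD i hi := by
    rw [Finset.disjoint_left]
    intro x hx hxD
    obtain ⟨h1, h2⟩ := Finset.mem_sdiff.1 hx
    rcases h.geo.DX i hi x hxD with h3 | h3
    · exact mem_nr.1 h1 h3
    · exact h2 h3
  AX := Finset.sdiff_subset_sdiff h.good.A_sub_nr (Finset.Subset.refl F)
  XU := by
    rw [Finset.disjoint_left]
    intro x hx hxU
    exact mem_nr.1 (Finset.mem_sdiff.1 hx).1 hxU
  nb i hi := by
    unfold PCb cP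
    have h1 : ((bdy (H0T d L) (Db i)).card : ℝ) ≤ nb := by exact_mod_cast h.geo.card i hi
    have h2 := h.Ml0
    gcongr
  P0 := by
    have := h.Ml0
    unfold cP
    positivity
  ω1 x y := om5_ge_one h.s50 x y
  w0 i hi x hx := le_wB h.s50 (h.geo.dX i hi x hx)
  w0' i hi j hj hij x hx := le_wB h.s50 (h.geo.db i hi j hj hij x hx)
  wω i hi x hx z hz := wB_le h.s50 hz
  ωw i hi x hx y hy := om5_le_wB h.s50 hr (h.dist hi hx) (h.dist hi hy) (h.geo.dia i hi)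
  wR0 := Real.rpow_pos_of_pos (by exact_mod_cast hr) _
  Kd0 := by unfold cKd; positivity
  C00 := h.CV0
  Kg0 := by
    have := h.CV0
    have := h.wts.μ0
    unfold cKg
    positivity
  c10 := h.num.c1
  ent x hx y hy := h.ent x (h.VV_sub hx) y (h.VV_sub hy)
  far x hx i hi z hz := by
    have h1 := ent_all h.good h.tin h.num h.wts h.s50 h.CV0 h.ent (h.VV_sub hx)
      (h.geo.bV i hi z hz)
    refine h1.trans ?_
    have hμ := h.wts.μ0
    have ha : (0 : ℝ) < a := by exact_mod_cast h.wts.a1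
    have hCV := h.CV0
    unfold cKg
    rw [mul_assoc (4 / μ * CV), mul_assoc (4 / μ * CV), ← Real.exp_add, ← Real.exp_add]
    have h3 : dB F x ≤ ANP.dT x z + ρF := by
      have h4 := h.geo.near i hi z hz
      by_cases hF : F.Nonempty
      · obtain ⟨w, hw, e1⟩ := exists_dB hF z
        have e2 := dB_le hw x
        have e3 : (ANP.dT x w : ℝ) ≤ ANP.dT x z + ANP.dT z w := by
          exact_mod_cast ANP.nmet_dT.tri x z w
        linarith
      · have e1 : dB F x = 0 := by unfold dB; rw [dif_neg hF]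
        have e2 : dB F z = 0 := by unfold dB; rw [dif_neg hF]
        have e3 : (0 : ℝ) ≤ ANP.dT x z := Nat.cast_nonneg _
        linarith
    have h5 : μ / a * dB F x ≤ μ / a * (ANP.dT x z + ρF) :=
      mul_le_mul_of_nonneg_left h3 (by positivity)
    have h6 : μ * (cw + ρF) / a = μ * cw / a + μ / a * ρF := by ring
    have h7 : Real.exp (μ * cw / a + -(μ / a * ANP.dT x z)) ≤
        Real.exp (μ * (cw + ρF) / a + -(μ / a * dB F x)) := by
      refine Real.exp_le_exp.2 ?_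
      rw [h6]
      linarith
    exact mul_le_mul_of_nonneg_left h7 (by positivity)
  four i hi z hz := (Finset.sum_le_sum_of_subset_of_nonneg Finset.sdiff_subset
    fun y _ _ => by positivity).trans (h.four z (h.geo.bV i hi z hz))
  τ0 := h.τV0
  hk x hx := by
    have hxA := (Finset.mem_sdiff.1 hx).1
    have h1 := h.good.kio_le h.tin h.num (h.good.nU_of_A hxA)
    have h2 := h.good.io_ge h.tin h.num (h.good.nU_of_A hxA)
    have h3 := h.good.k_nonneg h.num x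
    have h4 := mul_le_mul_of_nonneg_left h2 h3
    unfold Med.eta at h1
    linarith
  k0 x hx := h.good.k_nonneg h.num x

/-- THE CONTENT STEP, RAW -/
theorem cont_in {ε q W Kf : ℝ}
    (hn : ContNum f u m r1 D1 nb d Ml CV τV ρF s5 ε q W Kf a cw μ) :
    RawIn f t u M F bt (M.nr \ F) (dB F) s5 (μ / a) ε q W Kf := by
  have hb := h.blb hn.hr
  have hcls := (hb.main hn.n1 hn.n2 hn.n3).mono hn.e hn.q hn.W hn.K
  have hun : IsUnit (H0T d L + diagonal bt).det := by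
    have h1 := (hb.adm_bl le_rfl).unit
    have h2 : bl M.b bt Fb m = bt := funext fun x => hb.bl_top x
    rwa [h2] at h1
  exact {
    good := h.good
    tin := h.tin
    num := h.num
    k1 := h.k1
    rho0 := h.rho0
    rho := h.rho
    BU := h.FU
    off := h.off
    imB := h.imF
    unit := hun
    mbb := h.mbb
    XX := Finset.Subset.refl _
    X0n := Finset.sdiff_subset
    s50 := h.s50
    δ0 := dB_nonneg F
    cls := hcls
    n1 := hn.c1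
    n2 := hn.c2 }

end Pool.Agent.ANI
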