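import Pool.Agent.AND.Level

/-! # ANI INSLE: change of the centre of an insertion (helper20)

The far tails of an insertion are `Kf e^{-ν dT x c'}` with `Kf` small against `e^{ν s/4}` only if the centre `c'` is NEAR THE REMOVED SITES
(`B ⊆ ball(c', ρc)`, `ρc ≤ s/40`).  For the corner `c` of a cell of side `s` (distance up to `s` from `c'`)
the factor `e^{ν s}` is too large.  So the theorems `rem_p125_tolAt`, `rem_h4` are used with the centre `c'`, the side
`s' = s/2` and the rate `4 b` (`P.b4`; `tolAt` does not contain `b`), and then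
`F.ins P.b4 n s' m {c'} ≤ F.ins P n s m {c}` (`ins_b4_le`) and `Good.mono`.
-/

open Matrix Finset

noncomputable section

namespace Pool.Agent.ANI

open Pool.Agent.Kin Pool.Agent.APS Pool.Agent.AND

variable {d L : ℕ} [NeZero L]

/-- the same parameters with the rate `4 b` -/
def _root_.Pool.Agent.AND.Par.b4 (P : Par) : Par := { P with b := 4 * P.b }

/-- numbers of the change of the centre -/
structure ShNum (κ v v' b s5 : ℝ) (s s' : ℕ) : Prop where
  κ0 : 0 < κ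
  b0 : 0 ≤ b
  ss : s = 2 * s'
  n1 : Real.exp (-(4 * (b * κ) * s)) ≤ κ ^ v
  n2 : Real.exp (-(4 * (b * κ) * s)) ≤ κ ^ v'
  n5 : ∀ D : ℕ, Real.exp (-(4 * (b * κ) * (s + D))) ≤ κ ^ v * (max 1 (D : ℝ)) ^ (-s5)

theorem far_shift {s : ℕ} {c c' x : Tor d L} (hc : ANP.dT c' c ≤ s) (hx : 2 * s < ANP.dT x c) :
    (ANP.dT x c : ℝ) ≤ 2 * ANP.dT x c' := by
  have h1 := (ANP.nmet_dT (d := d) (L := L)).tri x c' c
  have h2 : ANP.dT x c ≤ 2 * ANP.dT x c' := by omega
  exact_mod_cast h2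

theorem ph_shift {κ v b : ℝ} {s s' : ℕ} (hκ : 0 < κ) (hb : 0 ≤ b) (ss : s = 2 * s')
    (h1 : Real.exp (-(4 * (b * κ) * s)) ≤ κ ^ v) {c c' : Tor d L} (hc : ANP.dT c' c ≤ s)
    (x : Tor d L) : ph κ v (4 * b) s' x c' ≤ ph κ v b s x c := by
  have hbκ : 0 ≤ b * κ := mul_nonneg hb hκ.le
  unfold ph
  by_cases hn' : ANP.dT x c' ≤ 2 * s'
  · have h2 := (ANP.nmet_dT (d := d) (L := L)).tri x c' c
    rw [if_pos hn', if_pos (by omega)]
  · rw [if_neg hn']
    have h3 : (s : ℝ) ≤ ANP.dT x c' := by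
      have : s ≤ ANP.dT x c' := by omega
      exact_mod_cast this
    by_cases hn : ANP.dT x c ≤ 2 * s
    · rw [if_pos hn]
      refine le_trans (Real.exp_le_exp.2 ?_) h1
      have := mul_le_mul_of_nonneg_left h3 (by positivity : 0 ≤ 4 * (b * κ))
      have e : 4 * b * κ * (ANP.dT x c' : ℝ) = 4 * (b * κ) * (ANP.dT x c' : ℝ) := by ring
      rw [e]
      linarith
    · rw [if_neg hn]
      refine Real.exp_le_exp.2 ?_
      have h4 := far_shift hc (not_le.1 hn)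
      have h5 := mul_le_mul_of_nonneg_left h4 hbκ
      have h6 : 0 ≤ b * κ * (ANP.dT x c' : ℝ) := mul_nonneg hbκ (Nat.cast_nonneg _)
      have e : 4 * b * κ * (ANP.dT x c' : ℝ) = 4 * (b * κ * (ANP.dT x c' : ℝ)) := by ring
      rw [e]
      linarith

theorem ph5i_shift {κ v v' b s5 : ℝ} {s s' : ℕ} (h : ShNum κ v v' b s5 s s') {c c' : Tor d L}
    (hc : ANP.dT c' c ≤ s) (x y : Tor d L) :
    ph5i κ v (4 * b) s5 s' x y c' ≤ ph5i κ v b s5 s x y c := by
  have hκ := h.κ0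
  have ss := h.ss
  have hbκ : 0 ≤ b * κ := mul_nonneg h.b0 hκ.le
  have h2 := (ANP.nmet_dT (d := d) (L := L)).tri x c' c
  have h2' := (ANP.nmet_dT (d := d) (L := L)).tri y c' c
  unfold ph5i
  by_cases hn' : ANP.dT x c' ≤ 2 * s' ∨ ANP.dT y c' ≤ 2 * s'
  · rw [if_pos hn', if_pos (by omega)]
  · rw [if_neg hn']
    rw [not_or] at hn'
    have h3 : (s : ℝ) ≤ ANP.dT x c' := by
      have : s ≤ ANP.dT x c' := by omega
      exact_mod_cast this
    have h3' : (0 : ℝ) ≤ ANP.dT y c' := Nat.cast_nonneg _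
    have h3x : (0 : ℝ) ≤ ANP.dT x y := Nat.cast_nonneg _
    have e : 4 * b * κ * ((ANP.dT x c' : ℝ) + ANP.dT y c' + ANP.dT x y) =
        4 * (b * κ * ANP.dT x c' + b * κ * ANP.dT y c' + b * κ * ANP.dT x y) := by ring
    by_cases hn : ANP.dT x c ≤ 2 * s ∨ ANP.dT y c ≤ 2 * s
    · rw [if_pos hn]
      refine le_trans (Real.exp_le_exp.2 ?_) (h.n5 (ANP.dT x y))
      rw [e]
      have h6 := mul_le_mul_of_nonneg_left h3 hbκ
      have h7 := mul_nonneg hbκ h3'
      linarith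
    · rw [if_neg hn]
      rw [not_or] at hn
      refine Real.exp_le_exp.2 ?_
      rw [e]
      have h4 := mul_le_mul_of_nonneg_left (far_shift hc (not_le.1 hn.1)) hbκ
      have h5 := mul_le_mul_of_nonneg_left (far_shift hc (not_le.1 hn.2)) hbκ
      have h6 : 0 ≤ b * κ * (ANP.dT x c' : ℝ) := mul_nonneg hbκ (Nat.cast_nonneg _)
      have h7 : 0 ≤ b * κ * (ANP.dT y c' : ℝ) := mul_nonneg hbκ (Nat.cast_nonneg _)
      have h8 : 0 ≤ b * κ * (ANP.dT x y : ℝ) := mul_nonneg hbκ h3x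
      have e2 : b * κ * ((ANP.dT x c : ℝ) + ANP.dT y c + ANP.dT x y) =
        b * κ * ANP.dT x c + b * κ * ANP.dT y c + b * κ * ANP.dT x y := by ring
      rw [e2]
      linarith

/-- **change of the centre**: `c'` near the removed sites, `c` the corner of the cell -/
theorem ins_b4_le {P : Par} {n s s' m : ℕ} {F : Fld (Tor d L)} (heta : 0 ≤ P.eta)
    (h : ShNum (P.kap n) P.vi P.vt P.b P.s5 s s') {c c' : Tor d L} (hc : ANP.dT c' c ≤ s) :
    (F.ins P.b4 n s' m {c'}).Le (F.ins P n s m {c}) := by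
  have hκ := h.κ0
  have hm : (0 : ℝ) ≤ m := Nat.cast_nonneg m
  have k1 : ∀ x, ph (P.kap n) P.vi (4 * P.b) s' x c' ≤ ph (P.kap n) P.vi P.b s x c :=
    ph_shift hκ h.b0 h.ss h.n1 hc
  have k2 : ∀ x, ph (P.kap n) P.vt (4 * P.b) s' x c' ≤ ph (P.kap n) P.vt P.b s x c :=
    ph_shift hκ h.b0 h.ss h.n2 hc
  refine ⟨fun x => ?_, fun x => ?_, fun x => ?_, fun x => ?_, fun x y => ?_⟩
  · show F.err x + m * ∑ c ∈ ({c'} : Finset (Tor d L)), ph (P.kap n) P.vi (4 * P.b) s' x c ≤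
      F.err x + m * ∑ c ∈ ({c} : Finset (Tor d L)), ph (P.kap n) P.vi P.b s x c
    rw [Finset.sum_singleton, Finset.sum_singleton]
    have := mul_le_mul_of_nonneg_left (k1 x) hm
    linarith
  · show F.et x + m * ∑ c ∈ ({c'} : Finset (Tor d L)), ph (P.kap n) P.vt (4 * P.b) s' x c ≤
      F.et x + m * ∑ c ∈ ({c} : Finset (Tor d L)), ph (P.kap n) P.vt P.b s x c
    rw [Finset.sum_singleton, Finset.sum_singleton]
    have := mul_le_mul_of_nonneg_left (k2 x) hm
    linarith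
  · show F.be x + (P.kap n) ^ (-P.vp) *
        (m * ∑ c ∈ ({c'} : Finset (Tor d L)), ph (P.kap n) P.vi (4 * P.b) s' x c) ≤
      F.be x + (P.kap n) ^ (-P.vp) *
        (m * ∑ c ∈ ({c} : Finset (Tor d L)), ph (P.kap n) P.vi P.b s x c)
    rw [Finset.sum_singleton, Finset.sum_singleton]
    have h1 := mul_le_mul_of_nonneg_left (k1 x) hm
    have h2 := mul_le_mul_of_nonneg_left h1 (Real.rpow_nonneg hκ.le (-P.vp))
    linarith
  · show F.ae x + (P.eta + P.kap n)⁻¹ *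
        (m * ∑ c ∈ ({c'} : Finset (Tor d L)), ph (P.kap n) P.vi (4 * P.b) s' x c) ≤
      F.ae x + (P.eta + P.kap n)⁻¹ *
        (m * ∑ c ∈ ({c} : Finset (Tor d L)), ph (P.kap n) P.vi P.b s x c)
    rw [Finset.sum_singleton, Finset.sum_singleton]
    have h1 := mul_le_mul_of_nonneg_left (k1 x) hm
    have h3 : 0 ≤ (P.eta + P.kap n)⁻¹ := inv_nonneg.2 (add_nonneg heta hκ.le)
    have h2 := mul_le_mul_of_nonneg_left h1 h3
    linarith
  · show F.g5 x y + m * ∑ c ∈ ({c'} : Finset (Tor d L)),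
        ph5i (P.kap n) P.vi (4 * P.b) P.s5 s' x y c ≤
      F.g5 x y + m * ∑ c ∈ ({c} : Finset (Tor d L)),
        ph5i (P.kap n) P.vi P.b P.s5 s x y c
    rw [Finset.sum_singleton, Finset.sum_singleton]
    have := mul_le_mul_of_nonneg_left (ph5i_shift h hc x y) hm
    linarith

/-- the tolerances do not contain the rate `b` -/
theorem tolAt_b4 {X : Type} (P : Par) (Sf : SiteF X) (n : ℕ) (F : Fld (Tor d L))
    (π : Prof (Tor d L)) (v : Tor d L → X) (M : Med (Tor d L)) :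
    tolAt P.b4 Sf n F π v M = tolAt P Sf n F π v M := rfl

end Pool.Agent.ANI
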