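import Pool.Agent.ANI.Wts

/-! # ANI REMFIN: the medium after a removal: existence and total closeness (helper75)

`rem_final` : `RawIn` (raw closeness, distance `dB B`, rate `μ/a`), weights `Wts`, numbers `ExNum`, `RfNum` give the new medium
`M'` with `Rem M M' B`, the equation of the self-consistent medium, and `RCls M M' X0 c ..` for every centre `c` with
`B ⊆ {dT . c ≤ ρ0}`.
-/

open Matrix Finset

noncomputable section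

namespace Pool.Agent.ANI

open Pool.Agent.Kin Pool.Agent.APS Pool.Agent.AND Pool.Agent.ANL Pool.Agent.ANM

variable {d L : ℕ} [NeZero L]

/-- rate of the re-freezing relative to the Agmon rate -/
def tRf (f : Fix) (u : UTol) : ℝ := (u.rho / 4) * f.c1 / (16 * (2 * f.C1))

/-- relative size of the re-freezing -/
def rRf (f : Fix) (ε : ℝ) (l : ℕ) : ℝ := 8 * l * (2 * f.C1) * ε / f.c1 ^ 2

/-- `2 Π` -/
def pRf (f : Fix) (l : ℕ) : ℝ := 2 * (4 * l * (2 * f.C1) / f.c1)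

/-- far constant of the re-freezing, `m = |B|` -/
def kRf (f : Fix) (u : UTol) (m Kb Kf : ℝ) (d a cw : ℕ) (μ : ℝ) : ℝ :=
  4 * f.C1 * Kb ^ 3 * (Kf * √(m * sumC d 0 (μ / a))) * Real.exp (tRf f u * (μ * cw / a))

/-- numbers of the re-freezing: `m = |B|`, `ρ` bound of the row sums, `ε2 q2 W2` its closeness -/
structure RfNum (f : Fix) (t : Tol d L) (u : UTol) (s5 ε q W ρ Kb ε2 q2 W2 : ℝ) (a l : ℕ) :
    Prop where
  hs5 : s5 = f.s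
  r0 : 1 ≤ f.r0
  Lam0 : 0 ≤ u.Lam
  C20 : 0 ≤ u.C2
  tau0 : 0 ≤ u.tau + q
  ρ0 : 0 ≤ ρ
  ρ8 : 8 * ρ ^ 4 ≤ 1 / 2
  ρK : 2 ^ s5 * ρ ≤ 1 / 2
  ρ1 : 4 * rRf f ε l * (2 * f.C1) * (pRf f l * W) ≤ ρ ^ 2
  Kb1 : 1 ≤ Kb
  Kbk : 1 / Kb ≤ t.kl
  Kb2 : 4 ≤ Kb * (u.rho / 4)
  Kb3 : 2 ≤ Kb * f.c1
  ta : 2 * tRf f u * a ≤ 1
  e0 : 0 ≤ ε2
  e1 : 2 * rRf f ε l ^ 2 * (2 * f.C1) ≤ ε2 ^ 2
  e2 : 4 * 2 ^ s5 * (u.Lam * f.r0 ^ s5 + u.C2 + ε) * ρ ≤ ε2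
  q2 : ρ ^ 4 * (16 * (8 * (u.tau + q))) ≤ q2
  W1 : 2 * rRf f ε l * (2 * f.C1 * (pRf f l * W)) ≤ W2
  W2 : pRf f l * W + W ≤ W2

variable {f : Fix} {t : Tol d L} {u : UTol} {M : Med (Tor d L)} {B : Finset (Tor d L)}
  {bt : Tor d L → ℂ} {X0 : Finset (Tor d L)} {s5 ε q W Kf : ℝ}
  {κ : Type*} {D : κ → Set (Tor d L)} {a cw : ℕ} {μ : ℝ}

theorem rem_final (h : RawIn f t u M B bt X0 (dB B) s5 (μ / a) ε q W Kf)
    (hB : B.Nonempty) (hX0 : X0.Nonempty) (hw : Wts f t M B D a cw μ) {K : ℝ} {l : ℕ}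
    (hn : ExNum f u ε K (a / (2 * μ)) cw d l) {ρ Kb ε2 q2 W2 : ℝ}
    (hr : RfNum f t u s5 ε q W ρ Kb ε2 q2 W2 a l) {c : Tor d L} {ρc : ℝ}
    (hc : ∀ z ∈ B, (ANP.dT z c : ℝ) ≤ ρc) :
    ∃ M' : Med (Tor d L), Rem M M' B ∧
      (∀ (X : Type) (Y : Sys X) (π π' : Prof (Tor d L)) (v : Tor d L → X),
        IsMed (H0T d L) Y π v M → ReadP π π' B → (∀ x ∈ B, bt x = cp Y π' v x) →
        IsMed (H0T d L) Y π' v M') ∧
      RCls M M' X0 c s5 (tRf f u * (μ / a)) (ε + ε2) (8 * (q + q2)) (2 * (W + W2))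
        ((Kf + kRf f u B.card Kb Kf d a cw μ) * Real.exp (tRf f u * (μ / a) * ρc)) := by
  obtain ⟨φ, hφ⟩ := hw.wfam h
  obtain ⟨w, hw1, hw2, hw3⟩ := hw.wgt h hB
  have ha : (0 : ℝ) < a := by exact_mod_cast hw.a1
  have ha1 : (1 : ℝ) ≤ a := by exact_mod_cast hw.a1
  have hμ := hw.μ0
  have hC1 := h.good.C1_pos h.tin h.num
  have ht0 : 0 < tRf f u := by
    unfold tRf
    have := h.rho0
    have := h.num.c1
    positivity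
  have hν : 0 < μ / a := div_pos hμ ha
  have hν1 : μ / a ≤ 1 := by
    rw [div_le_one ha]
    linarith [hw.μ1]
  have hKf : 0 ≤ Kf := by
    obtain ⟨x, hx⟩ := hX0
    exact h.cls.Kf0 hx
  have ht1 : tRf f u ≤ 1 := by
    have := hr.ta
    nlinarith
  have h2μ : 2 * (tRf f u * μ) ≤ μ / a := by
    rw [le_div_iff₀ ha]
    have := hr.ta
    nlinarith
  have hfar : ∀ x ∈ X0, ∀ y ∈ X0, ‖rsc (H0T d L) h.bn x y - rsc (H0T d L) bt x y‖ ≤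
      kRf f u B.card Kb Kf d a cw μ * Real.exp (-(tRf f u * (μ / a) * dB B x)) := by
    intro x hx y hy
    exact h.far2 hn hφ hw1 (μ := μ) (wl := μ / a) (w0 := μ * cw / a) (Kb := Kb)
      (Sν := B.card * sumC d 0 (μ / a)) (ν2 := tRf f u * (μ / a)) hKf hw2 hw3 hr.Kb1 hr.Kbk
      hr.Kb2 hr.Kb3 h2μ (dB_sum hB hν hν1) le_rfl hx hy
  have hc2 := h.cls2 hn hφ (Cω := u.Lam * f.r0 ^ s5 + u.C2 + ε) (ρ := ρ)
    (ν2 := tRf f u * (μ / a)) (ε2 := ε2) (q2 := q2) (W2 := W2)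
    (Kf2 := kRf f u B.card Kb Kf d a cw μ) hr.hs5 hr.r0 hr.Lam0 hr.C20 hr.tau0 le_rfl hr.ρ0 hr.ρ8
    hr.ρK hr.ρ1 hfar hr.e0 hr.e1 hr.e2 hr.q2 hr.W1 hr.W2
  have hν2 : tRf f u * (μ / a) ≤ μ / a := by nlinarith
  have htot := h.total hn hφ hν2 hc2
  refine ⟨h.med, h.rem hn hφ, fun X Y π π' v hM hp hbt => h.isMed hM hp hbt hn hφ, ?_⟩
  exact htot.dist (by positivity) (dB_ge hB hc)

end Pool.Agent.ANI
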