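import Pool.Agent.AND.Good
import Pool.Agent.ANF.Heat.WPoin

/-! # ANI SMOOTH: local smoothing of a function near a ball (helper43), part (P3) of helper75's plan

* `smooth_near` (S1): `∑_ball ω (a - c)² ≤ 2 C_H (s l² + W ρ(d,l)) en_ball a`, `c` = mean of `a` on the ball.
* `smooth_far` (S2): the far part `∑_{dT x c0 ≥ r} ω (a - c)²` with exponentially decaying `ω`: bond weights `farw`, exponentially small.
* `smooth_cut` (S3): `DW C0 (χ (a - c)) ≤ C0max (2 + 9 d² R²/(R-r)²) en_ball a`.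
* `enT_le_DW`: the energy of the ball as a `DW` with bond weights (indicator of the ball).
-/

open Finset

noncomputable section

namespace Pool.Agent.ANI

open Pool.Agent.Kin Pool.Agent.ANF.Heat Pool.Agent.ANP Pool.Agent.ANM Pool.Agent.AND

variable {d L : ℕ} [NeZero L]

omit [NeZero L] in
/-- the two definitions of the sup distance on the torus agree -/
theorem td_eq_dT (x y : Tor d L) : ANM.td x y = dT x y := rfl

/-- (S1) near part -/
theorem smooth_near (hd : 3 ≤ d) (c0 : Tor d L) (R : ℕ) (hR : 2 * R + 1 ≤ L) {l : ℝ} (hl : 1 ≤ l)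
    (hlR : l ≤ 2 * R + 1) (a om : Tor d L → ℝ) {s W : ℝ} (h0 : ∀ x ∈ ballF c0 R, 0 ≤ om x)
    (hs : ∀ x ∈ ballF c0 R, om x ≤ s) (hW : ∑ x ∈ ballF c0 R, om x ≤ W) :
    ∑ x ∈ ballF c0 R, om x * (a x - avT (ballF c0 R) a) ^ 2 ≤
      2 * CH d * (s * l ^ 2 + W * rho d l) * enT (ballF c0 R) a := by
  obtain ⟨v, w, h1, h2, h3⟩ := dec_ball hd c0 R hR l hl hlR a
  have hs0 : 0 ≤ s := by
    have hc : c0 ∈ ballF c0 R := mem_ballF.2 (by rw [(nmet_dT (d := d) (L := L)).self]; omega)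
    exact (h0 _ hc).trans (hs _ hc)
  have hV0 : 0 ≤ CH d * rho d l * enT (ballF c0 R) a := by
    have hc : c0 ∈ ballF c0 R := mem_ballF.2 (by rw [(nmet_dT (d := d) (L := L)).self]; omega)
    exact (sq_nonneg _).trans (h3 _ hc)
  have e1 : ∑ x ∈ ballF c0 R, om x * (a x - avT (ballF c0 R) a) ^ 2 ≤
      ∑ x ∈ ballF c0 R, (2 * (om x * v x ^ 2) + 2 * (om x * w x ^ 2)) := by
    refine Finset.sum_le_sum fun x hx => ?_
    have e : a x - avT (ballF c0 R) a = v x + w x := by rw [h1 x]; ring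
    rw [e]
    have := mul_nonneg (h0 x hx) (sq_nonneg (v x - w x))
    nlinarith [this]
  have e2 : ∑ x ∈ ballF c0 R, om x * v x ^ 2 ≤ W * (CH d * rho d l * enT (ballF c0 R) a) := by
    calc ∑ x ∈ ballF c0 R, om x * v x ^ 2 ≤
          ∑ x ∈ ballF c0 R, om x * (CH d * rho d l * enT (ballF c0 R) a) :=
          Finset.sum_le_sum fun x hx => mul_le_mul_of_nonneg_left (h3 x hx) (h0 x hx)
      _ ≤ _ := by
          rw [← Finset.sum_mul]
          exact mul_le_mul_of_nonneg_right hW hV0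
  have e3 : ∑ x ∈ ballF c0 R, om x * w x ^ 2 ≤ s * (CH d * l ^ 2 * enT (ballF c0 R) a) := by
    calc ∑ x ∈ ballF c0 R, om x * w x ^ 2 ≤ ∑ x ∈ ballF c0 R, s * w x ^ 2 :=
          Finset.sum_le_sum fun x hx => mul_le_mul_of_nonneg_right (hs x hx) (sq_nonneg _)
      _ ≤ _ := by
          rw [← Finset.mul_sum]
          exact mul_le_mul_of_nonneg_left h2 hs0
  rw [Finset.sum_add_distrib, ← Finset.mul_sum, ← Finset.mul_sum] at e1
  refine e1.trans ?_
  calc 2 * ∑ x ∈ ballF c0 R, om x * v x ^ 2 + 2 * ∑ x ∈ ballF c0 R, om x * w x ^ 2 ≤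
        2 * (W * (CH d * rho d l * enT (ballF c0 R) a)) +
          2 * (s * (CH d * l ^ 2 * enT (ballF c0 R) a)) := by linarith
    _ = _ := by ring

/-- bond weights of the far part: exponentially small -/
def farw (Kt mu : ℝ) (r R : ℕ) (c0 z : Tor d L) : ℝ :=
  Kt * (64 * d / mu * sumC d 0 (mu / 16) + 2 * d * (2 * (R : ℝ) + 1) * sumC d 0 (mu / 4)) *
    Real.exp (-(mu / 2 * r)) * Real.exp (-(mu / 8 * dT z c0))

omit [NeZero L] in
theorem farw_nonneg {Kt mu : ℝ} (hK : 0 ≤ Kt) (h0 : 0 < mu) (r R : ℕ) (c0 z : Tor d L) :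
    0 ≤ farw Kt mu r R c0 z := by
  unfold farw
  have h1 := sumC_nonneg d 0 (mu := mu / 16) (by positivity)
  have h2 := sumC_nonneg d 0 (mu := mu / 4) (by positivity)
  positivity

/-- (S2) far part -/
theorem smooth_far (c0 : Tor d L) {r R : ℕ} (hrR : R ≤ 2 * r) {Kt mu : ℝ} (hK : 0 ≤ Kt)
    (h0 : 0 < mu) (h1 : mu ≤ 1) (a om : Tor d L → ℝ) (S : Finset (Tor d L))
    (hS : ∀ x ∈ S, r ≤ dT x c0) (hom : ∀ x ∈ S, om x ≤ Kt * Real.exp (-(mu * dT x c0))) :
    ∑ x ∈ S, om x * (a x - avT (ballF c0 R) a) ^ 2 ≤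
      ∑ i : Fin d, ∑ z, farw Kt mu r R c0 z * (a (z + Pi.single i 1) - a z) ^ 2 := by
  have hw := wpoin c0 R (mu := mu / 4) (by positivity) (by linarith) a
  set E := Real.exp (-(3 * mu / 4 * r)) with hE
  have hE0 : 0 < E := Real.exp_pos _
  have e1 : ∑ x ∈ S, om x * (a x - avT (ballF c0 R) a) ^ 2 ≤
      ∑ x ∈ S, Kt * E * (Real.exp (-(mu / 4 * dT x c0)) * (a x - avT (ballF c0 R) a) ^ 2) := by
    refine Finset.sum_le_sum fun x hx => ?_
    have hr : (r : ℝ) ≤ dT x c0 := by exact_mod_cast hS x hx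
    have h2 : Real.exp (-(mu * dT x c0)) ≤ E * Real.exp (-(mu / 4 * dT x c0)) := by
      rw [hE, ← Real.exp_add]
      refine Real.exp_le_exp.2 ?_
      nlinarith
    calc om x * (a x - avT (ballF c0 R) a) ^ 2 ≤
          (Kt * Real.exp (-(mu * dT x c0))) * (a x - avT (ballF c0 R) a) ^ 2 :=
          mul_le_mul_of_nonneg_right (hom x hx) (sq_nonneg _)
      _ ≤ (Kt * (E * Real.exp (-(mu / 4 * dT x c0)))) * (a x - avT (ballF c0 R) a) ^ 2 := by
          gcongr
      _ = _ := by ring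
  have e2 : ∑ x ∈ S, Kt * E * (Real.exp (-(mu / 4 * dT x c0)) * (a x - avT (ballF c0 R) a) ^ 2) ≤
      Kt * E * ∑ x, Real.exp (-(mu / 4 * dT x c0)) * (a x - avT (ballF c0 R) a) ^ 2 := by
    rw [← Finset.mul_sum]
    refine mul_le_mul_of_nonneg_left ?_ (by positivity)
    exact Finset.sum_le_sum_of_subset_of_nonneg (Finset.subset_univ _) fun x _ _ => by positivity
  have e3 : ∀ z : Tor d L, Kt * E * tlw (mu / 4) R c0 z ≤ farw Kt mu r R c0 z := by
    intro z
    have s1 := sumC_nonneg d 0 (mu := mu / 16) (by positivity)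
    have s2 := sumC_nonneg d 0 (mu := mu / 4) (by positivity)
    have hr : (0 : ℝ) ≤ r := by positivity
    have hz : (0 : ℝ) ≤ dT z c0 := by positivity
    have g1 : E ≤ Real.exp (-(mu / 2 * r)) := by
      rw [hE]
      refine Real.exp_le_exp.2 ?_
      nlinarith
    have g2 : (if dT z c0 ≤ R then 2 * d * (2 * (R : ℝ) + 1) * sumC d 0 (mu / 4) else 0) * E ≤
        2 * d * (2 * (R : ℝ) + 1) * sumC d 0 (mu / 4) *
          (Real.exp (-(mu / 2 * r)) * Real.exp (-(mu / 8 * dT z c0))) := by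
      split_ifs with hc
      · refine mul_le_mul_of_nonneg_left ?_ (by positivity)
        rw [hE, ← Real.exp_add]
        refine Real.exp_le_exp.2 ?_
        have k1 : (dT z c0 : ℝ) ≤ R := by exact_mod_cast hc
        have k2 : (R : ℝ) ≤ 2 * r := by exact_mod_cast hrR
        nlinarith
      · rw [zero_mul]; positivity
    have g3 : 16 * d / (mu / 4) * sumC d 0 (mu / 4 / 4) * Real.exp (-(mu / 4 / 2 * dT z c0)) * E ≤
        64 * d / mu * sumC d 0 (mu / 16) *
          (Real.exp (-(mu / 2 * r)) * Real.exp (-(mu / 8 * dT z c0))) := by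
      have q1 : mu / 4 / 4 = mu / 16 := by ring
      have q2 : mu / 4 / 2 = mu / 8 := by ring
      have q3 : 16 * (d : ℝ) / (mu / 4) = 64 * d / mu := by
        field_simp
        ring
      rw [q1, q2, q3]
      calc 64 * d / mu * sumC d 0 (mu / 16) * Real.exp (-(mu / 8 * dT z c0)) * E
          ≤ 64 * d / mu * sumC d 0 (mu / 16) * Real.exp (-(mu / 8 * dT z c0)) *
            Real.exp (-(mu / 2 * r)) := by gcongr
        _ = _ := by ring
    unfold tlw farw
    calc Kt * E * (16 * d / (mu / 4) * sumC d 0 (mu / 4 / 4) *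
          Real.exp (-(mu / 4 / 2 * dT z c0)) +
          (if dT z c0 ≤ R then 2 * d * (2 * (R : ℝ) + 1) * sumC d 0 (mu / 4) else 0)) =
        Kt * (16 * d / (mu / 4) * sumC d 0 (mu / 4 / 4) *
          Real.exp (-(mu / 4 / 2 * dT z c0)) * E +
          (if dT z c0 ≤ R then 2 * d * (2 * (R : ℝ) + 1) * sumC d 0 (mu / 4) else 0) * E) := by ring
      _ ≤ Kt * (64 * d / mu * sumC d 0 (mu / 16) *
          (Real.exp (-(mu / 2 * r)) * Real.exp (-(mu / 8 * dT z c0))) +
          2 * d * (2 * (R : ℝ) + 1) * sumC d 0 (mu / 4) *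
          (Real.exp (-(mu / 2 * r)) * Real.exp (-(mu / 8 * dT z c0)))) :=
          mul_le_mul_of_nonneg_left (add_le_add g3 g2) hK
      _ = _ := by ring
  refine e1.trans (e2.trans ?_)
  refine (mul_le_mul_of_nonneg_left hw (by positivity : 0 ≤ Kt * E)).trans ?_
  rw [Finset.mul_sum]
  refine Finset.sum_le_sum fun i _ => ?_
  rw [Finset.mul_sum]
  refine Finset.sum_le_sum fun z _ => ?_
  rw [← mul_assoc]
  exact mul_le_mul_of_nonneg_right (e3 z) (sq_nonneg _)

/-- (S3) the cut-off function -/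
theorem smooth_cut (c0 : Tor d L) {r R : ℕ} (hrR : r < R) (hR : 2 * R + 1 ≤ L)
    (C0 : Fin d → Tor d L → ℝ) {Cm : ℝ} (hC : ∀ i x, C0 i x ≤ Cm) (hCm : 0 ≤ Cm)
    (a : Tor d L → ℝ) :
    DW C0 (fun x => cut c0 r R x * (a x - avT (ballF c0 R) a)) ≤
      Cm * ((2 + 9 * d ^ 2 * (R : ℝ) ^ 2 / ((R : ℝ) - r) ^ 2) * enT (ballF c0 R) a) := by
  refine le_trans ?_ (mul_le_mul_of_nonneg_left (cut_ball c0 hrR hR a) hCm)
  unfold DW DT
  rw [Finset.mul_sum]
  refine Finset.sum_le_sum fun i _ => ?_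
  rw [Finset.mul_sum]
  exact Finset.sum_le_sum fun x _ => mul_le_mul_of_nonneg_right (hC i x) (sq_nonneg _)

/-- the energy of the ball is a `DW` with bond weights `0` or `1` -/
def bw (c0 : Tor d L) (R : ℕ) (i : Fin d) (x : Tor d L) : ℝ :=
  if x ∈ ballF c0 R ∧ x + Pi.single i 1 ∈ ballF c0 R then 1 else 0

theorem enT_eq_DW (c0 : Tor d L) (R : ℕ) (a : Tor d L → ℝ) :
    enT (ballF c0 R) a = DW (bw c0 R) a := by
  unfold enT DW bw
  refine Finset.sum_congr rfl fun i _ => ?_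
  rw [← Finset.sum_filter_add_sum_filter_not univ (fun x => x ∈ ballF c0 R)]
  have h1 : ∑ x ∈ univ.filter (fun x => ¬ x ∈ ballF c0 R),
      (if x ∈ ballF c0 R ∧ x + Pi.single i 1 ∈ ballF c0 R then (1 : ℝ) else 0) *
        (a (x + Pi.single i 1) - a x) ^ 2 = 0 := by
    refine Finset.sum_eq_zero fun x hx => ?_
    rw [if_neg (fun h => (Finset.mem_filter.1 hx).2 h.1), zero_mul]
  rw [h1, add_zero]
  have h2 : univ.filter (fun x => x ∈ ballF c0 R) = ballF c0 R := by
    ext x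
    simp
  rw [h2]
  refine Finset.sum_congr rfl fun x hx => ?_
  by_cases h : x + Pi.single i 1 ∈ ballF c0 R
  · rw [if_pos h, if_pos ⟨hx, h⟩, one_mul]
  · rw [if_neg h, if_neg (fun h' => h h'.2), zero_mul]

theorem DW_add (w w' : Fin d → Tor d L → ℝ) (a : Tor d L → ℝ) :
    DW (fun i x => w i x + w' i x) a = DW w a + DW w' a := by
  unfold DW
  rw [← Finset.sum_add_distrib]
  refine Finset.sum_congr rfl fun i _ => ?_
  rw [← Finset.sum_add_distrib]
  exact Finset.sum_congr rfl fun x _ => by ring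

theorem DW_smul (t : ℝ) (w : Fin d → Tor d L → ℝ) (a : Tor d L → ℝ) :
    DW (fun i x => t * w i x) a = t * DW w a := by
  unfold DW
  rw [Finset.mul_sum]
  refine Finset.sum_congr rfl fun i _ => ?_
  rw [Finset.mul_sum]
  exact Finset.sum_congr rfl fun x _ => by ring

theorem DW_mono {w w' : Fin d → Tor d L → ℝ} (h : ∀ i x, w i x ≤ w' i x) (a : Tor d L → ℝ) :
    DW w a ≤ DW w' a := by
  unfold DW
  exact Finset.sum_le_sum fun i _ => Finset.sum_le_sum fun x _ =>
    mul_le_mul_of_nonneg_right (h i x) (sq_nonneg _)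

/-- **Everything together**: `∑_X ω (a - c)² ≤ DW w a` with the bond weights
`w = 2 C_H (s l² + W ρ(d,l)) 1_ball + farw`. -/
theorem smooth_all (hd : 3 ≤ d) (c0 : Tor d L) {r R : ℕ} (hrR : R ≤ 2 * r) (hr : r ≤ R)
    (hR : 2 * R + 1 ≤ L) {l : ℝ} (hl : 1 ≤ l) (hlR : l ≤ 2 * R + 1) (a om : Tor d L → ℝ)
    (X : Finset (Tor d L)) {s W Kt mu : ℝ} (hK : 0 ≤ Kt) (h0 : 0 < mu) (h1 : mu ≤ 1)
    (hs0 : 0 ≤ s) (hom0 : ∀ x ∈ X, 0 ≤ om x)
    (hs : ∀ x ∈ X, dT x c0 ≤ r → om x ≤ s)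
    (hW : ∑ x ∈ X.filter (fun x => dT x c0 ≤ r), om x ≤ W)
    (hfar : ∀ x ∈ X, r < dT x c0 → om x ≤ Kt * Real.exp (-(mu * dT x c0))) :
    ∑ x ∈ X, om x * (a x - avT (ballF c0 R) a) ^ 2 ≤
      DW (fun i z => 2 * CH d * (s * l ^ 2 + W * rho d l) * bw c0 R i z +
        farw Kt mu r R c0 z) a := by
  classical
  set om' : Tor d L → ℝ := fun x => if x ∈ X ∧ dT x c0 ≤ r then om x else 0 with hom'
  have hn := smooth_near hd c0 R hR hl hlR a om' (s := s) (W := W)
    (fun x _ => by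
      simp only [hom']
      split_ifs with h
      · exact hom0 x h.1
      · exact le_rfl)
    (fun x _ => by
      simp only [hom']
      split_ifs with h
      · exact hs x h.1 h.2
      · exact hs0)
    (by
      refine le_trans (le_of_eq ?_) hW
      simp only [hom']
      rw [← Finset.sum_filter]
      refine Finset.sum_congr ?_ fun _ _ => rfl
      ext x
      simp only [Finset.mem_filter, mem_ballF]
      constructor
      · rintro ⟨_, h2, h3⟩; exact ⟨h2, h3⟩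
      · rintro ⟨h2, h3⟩; exact ⟨h3.trans hr, h2, h3⟩)
  have hf := smooth_far c0 hrR hK h0 h1 a om (X.filter fun x => ¬ dT x c0 ≤ r)
    (fun x hx => by
      have := (Finset.mem_filter.1 hx).2
      omega)
    (fun x hx => hfar x (Finset.mem_filter.1 hx).1 (by
      have := (Finset.mem_filter.1 hx).2
      omega))
  rw [enT_eq_DW, ← DW_smul] at hn
  have e1 : ∑ x ∈ X.filter (fun x => dT x c0 ≤ r), om x * (a x - avT (ballF c0 R) a) ^ 2 =
      ∑ x ∈ ballF c0 R, om' x * (a x - avT (ballF c0 R) a) ^ 2 := by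
    have : ∀ x, om' x * (a x - avT (ballF c0 R) a) ^ 2 =
        if x ∈ X ∧ dT x c0 ≤ r then om x * (a x - avT (ballF c0 R) a) ^ 2 else 0 := by
      intro x
      simp only [hom']
      split_ifs
      · rfl
      · rw [zero_mul]
    simp only [this]
    rw [← Finset.sum_filter]
    refine Finset.sum_congr ?_ fun _ _ => rfl
    ext x
    simp only [Finset.mem_filter, mem_ballF]
    constructor
    · rintro ⟨h2, h3⟩; exact ⟨h3.trans hr, h2, h3⟩
    · rintro ⟨_, h2, h3⟩; exact ⟨h2, h3⟩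
  rw [← Finset.sum_filter_add_sum_filter_not X (fun x => dT x c0 ≤ r), e1, DW_add]
  exact add_le_add hn hf

end Pool.Agent.ANI
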