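import Pool.Agent.ANI.RemDefs
import Pool.Agent.ANI.Smooth
import Pool.Agent.AND.Level

/-! # ANI REMH125 (part R1 of helper75's plan, helper43): status fields, (H1), (H2), (H5) after a removal

* `P125 f t M` : the fields of `Good f t M` except (H3), (H4low), (H4up); `P125.good` assembles `Good`.
* `rem_p125` : general tolerances, explicit inequalities between `t` and `t'`.
* `rem_p125_tolAt` : `t = tolAt P Sf n F π v M`, `t' = tolAt P Sf n (F.ins P n s m {c}) π' v M'`; numerical conditions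
  `RNum` (κ = κ_n, near = `dT x c ≤ 2 s`).
-/

open Matrix Finset

noncomputable section

namespace Pool.Agent.ANI

open Pool.Agent.Kin Pool.Agent.APS Pool.Agent.AND

variable {d L : ℕ} [NeZero L]

/-- the fields of `Good` except (H3), (H4low), (H4up) -/
structure P125 (f : Fix) (t : Tol d L) (M : Med (Tor d L)) : Prop where
  AU : Disjoint M.A M.U
  AI : Disjoint M.A M.I
  UI : Disjoint M.U M.I
  unit : IsUnit (H0T d L + diagonal M.b).det
  k0 : ∀ x, x ∉ M.A → M.k x = 0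
  klo : ∀ x ∈ M.A, t.kl ≤ M.k x
  khi : ∀ x ∈ M.A, M.k x ≤ t.k
  eU : ∀ x ∈ M.U, M.eta x = 0
  eA : ∀ x ∈ M.A, M.eta x = t.eta + M.k x * (rsc (H0T d L) M.b x x).im
  eI : ∀ x ∈ M.I, M.eta x = t.eta
  eS : ∀ x, x ∉ M.A → x ∉ M.U → x ∉ M.I → t.eta + t.st ≤ M.eta x
  eS1 : ∀ x, x ∉ M.U → M.eta x ≤ 1
  h1 : ∀ x, x ∉ M.U → ‖rsc (H0T d L) M.b x x - f.g0‖ ≤ t.del x
  h2 : ∀ x, x ∉ M.U → ∑ w ∈ M.A, ‖rsc (H0T d L) M.b x w‖ ^ 4 ≤ t.tau x
  h5 : ∀ x y, x ∉ M.U → y ∉ M.U → ‖rsc (H0T d L) M.b x y‖ ≤ t.g5 x y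

theorem P125.good {f : Fix} {t : Tol d L} {M : Med (Tor d L)} (h : P125 f t M)
    (h3 : ∀ K ∈ t.Ks, ∀ x, x ∉ M.U →
      ‖∑ y ∈ M.A, rsc (H0T d L) M.b x y ^ 2 * (t.a K y : ℂ)‖ ≤
        ∑ y ∈ M.nr, ‖rsc (H0T d L) M.b x y‖ ^ 2 * t.z K y)
    (h4l : ∀ u : Tor d L → ℝ, ∃ a : Tor d L → ℝ,
      DW t.D a + ∑ x ∈ M.nr, M.eta x * (rsc (H0T d L) M.b x x).im * (u x - a x) ^ 2 /
        (1 + t.dl x) ≤ QF (H0T d L) M u)
    (h4u : ∀ a : Tor d L → ℝ, QF (H0T d L) M a ≤ DW t.C0 a) : Good f t M where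
  AU := h.AU
  AI := h.AI
  UI := h.UI
  unit := h.unit
  k0 := h.k0
  klo := h.klo
  khi := h.khi
  eU := h.eU
  eA := h.eA
  eI := h.eI
  eS := h.eS
  eS1 := h.eS1
  h1 := h.h1
  h2 := h.h2
  h3 := h3
  h4l := h4l
  h4u := h4u
  h5 := h.h5

/-- the bound of `|G'_xy - G_xy|` given by `RCls` -/
def dEnt (s5 ν ε Kf : ℝ) (c x y : Tor d L) : ℝ :=
  min (ε / om5 s5 x y) (Kf * Real.exp (-(ν * max (dc c x) (dc c y))))

theorem RCls.ent {M M' : Med (Tor d L)} {X0 : Finset (Tor d L)} {c : Tor d L}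
    {s5 ν ε q W Kf : ℝ} (h : RCls M M' X0 c s5 ν ε q W Kf) {x y : Tor d L} (hx : x ∈ X0)
    (hy : y ∈ X0) :
    ‖rsc (H0T d L) M'.b x y - rsc (H0T d L) M.b x y‖ ≤ dEnt s5 ν ε Kf c x y := by
  have h1 := Cls.rel h x hx y hy
  have h2 := Cls.far2 h hx hy
  refine le_min ?_ h2
  rw [le_div_iff₀ (om5_pos s5 x y)]
  exact h1

theorem RCls.diag {M M' : Med (Tor d L)} {X0 : Finset (Tor d L)} {c : Tor d L}
    {s5 ν ε q W Kf : ℝ} (h : RCls M M' X0 c s5 ν ε q W Kf) {x : Tor d L} (hx : x ∈ X0) :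
    ‖rsc (H0T d L) M'.b x x - rsc (H0T d L) M.b x x‖ ≤
      min ε (Kf * Real.exp (-(ν * dc c x))) := by
  have h1 := h.ent hx hx
  unfold dEnt at h1
  rwa [om5_self, div_one, max_self] at h1

theorem sum_dc_le {ν : ℝ} (h0 : 0 < ν) (h1 : ν ≤ 1) (c : Tor d L) (S : Finset (Tor d L)) :
    ∑ y ∈ S, Real.exp (-(ν * dc c y)) ≤ ANM.sumC d 0 ν := by
  refine le_trans ?_ (ANF.Heat.sum_exp_dT c h0 h1)
  exact Finset.sum_le_sum_of_subset_of_nonneg (Finset.subset_univ _)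
    fun _ _ _ => (Real.exp_pos _).le

/-- **status fields, (H1), (H2), (H5) after a removal**, general tolerances -/
theorem rem_p125 {f : Fix} {t t' : Tol d L} {M M' : Med (Tor d L)} {B X0 : Finset (Tor d L)}
    (hg : Good f t M) (hR : Rem M M' B) {c : Tor d L} {s5 ν ε q W Kf : ℝ}
    (hC : RCls M M' X0 c s5 ν ε q W Kf) (hX : M'.nr ⊆ X0) (hν0 : 0 < ν) (hν1 : ν ≤ 1)
    (hkl : t'.kl ≤ t.kl) (hk : t.k ≤ t'.k) (heta : t'.eta = t.eta) (hst : t'.st ≤ t.st)
    (he1 : ∀ x ∈ M'.A, t.eta + t.k * (‖f.g0‖ + t'.del x) ≤ 1) (hk0 : 0 ≤ t.kl)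
    (hd : ∀ x, x ∉ M'.U → t.del x + min ε (Kf * Real.exp (-(ν * dc c x))) ≤ t'.del x)
    (θ : Tor d L → ℝ) (hθ : ∀ x, 0 < θ x)
    (ht : ∀ x, x ∉ M'.U → (1 + θ x) ^ 3 * t.tau x + (1 + 1 / θ x) ^ 3 *
      min q (Kf ^ 4 * ANM.sumC d 0 ν * Real.exp (-(3 * (ν * dc c x)))) ≤ t'.tau x)
    (h5 : ∀ x y, x ∉ M'.U → y ∉ M'.U → t.g5 x y + dEnt s5 ν ε Kf c x y ≤ t'.g5 x y) :
    P125 f t' M' := by
  have hmem : ∀ {x}, x ∉ M'.U → x ∈ X0 := fun {x} hx => hX (by
    unfold Med.nr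
    exact Finset.mem_compl.2 hx)
  have hA' : ∀ {x}, x ∈ M'.A → x ∈ M.A ∧ x ∉ B := fun {x} hx => by
    rw [hR.A] at hx; exact Finset.mem_sdiff.1 hx
  have hAU : Disjoint M'.A M'.U := by
    rw [Finset.disjoint_left]
    intro x hx hU
    obtain ⟨h1, h2⟩ := hA' hx
    rw [hR.U, Finset.mem_union] at hU
    rcases hU with hU | hU
    · exact Finset.disjoint_left.1 hg.AU h1 hU
    · exact h2 hU
  have hdiag : ∀ {x}, x ∉ M'.U → ‖rsc (H0T d L) M'.b x x - f.g0‖ ≤ t'.del x := by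
    intro x hx
    have h1 := norm_add_le (rsc (H0T d L) M'.b x x - rsc (H0T d L) M.b x x)
      (rsc (H0T d L) M.b x x - f.g0)
    rw [sub_add_sub_cancel] at h1
    have h2 := hg.h1 x (hR.nB hx).1
    have h3 := hC.diag (hmem hx)
    have h4 := hd x hx
    linarith
  have hetaA : ∀ x ∈ M'.A, M'.eta x = t'.eta + M'.k x * (rsc (H0T d L) M'.b x x).im := by
    intro x hx
    obtain ⟨h1, h2⟩ := hA' hx
    rw [hR.eta h2, hg.eA x h1, hR.k x h2, heta]
    ring
  have hetan : ∀ {x}, x ∉ M'.A → x ∉ B → M'.eta x = M.eta x := by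
    intro x hx hB
    have h1 : x ∉ M.A := fun h => hx (by
      rw [hR.A]; exact Finset.mem_sdiff.2 ⟨h, hB⟩)
    rw [hR.eta hB, hg.k0 x h1]
    ring
  refine ⟨hAU, ?_, ?_, hR.unit, ?_, ?_, ?_, ?_, hetaA, ?_, ?_, ?_, fun x hx => hdiag hx, ?_, ?_⟩
  · rw [hR.I]
    exact Finset.disjoint_of_subset_right Finset.sdiff_subset
      (Finset.disjoint_of_subset_left hR.A_sub hg.AI)
  · rw [hR.I, hR.U, Finset.disjoint_union_left]
    exact ⟨Finset.disjoint_of_subset_right Finset.sdiff_subset hg.UI, Finset.disjoint_sdiff⟩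
  · intro x hx
    by_cases hB : x ∈ B
    · exact hR.kB x hB
    · rw [hR.k x hB]
      exact hg.k0 x fun h => hx (by rw [hR.A]; exact Finset.mem_sdiff.2 ⟨h, hB⟩)
  · intro x hx
    rw [hR.k x (hA' hx).2]
    exact hkl.trans (hg.klo x (hA' hx).1)
  · intro x hx
    rw [hR.k x (hA' hx).2]
    exact (hg.khi x (hA' hx).1).trans hk
  · intro x hx
    rw [hR.U, Finset.mem_union] at hx
    rcases hx with hx | hx
    · have := hg.eU x hx
      unfold Med.eta at this ⊢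
      rw [hR.bU x hx]
      exact this
    · unfold Med.eta
      rw [hR.bB x hx, neg_zero]
  · intro x hx
    obtain ⟨hx, hB⟩ := hR.mem_I'.1 hx
    have hA : x ∉ M'.A := fun h => Finset.disjoint_left.1 hg.AI (hA' h).1 hx
    rw [hetan hA hB, hg.eI x hx, heta]
  · intro x h1 h2 h3
    have hB := (hR.nB h2).2
    have hA : x ∉ M.A := fun h => h1 (by rw [hR.A]; exact Finset.mem_sdiff.2 ⟨h, hB⟩)
    rw [hetan h1 hB, heta]
    have h4 := hg.eS x hA (hR.nB h2).1 (fun h => h3 (hR.mem_I'.2 ⟨h, hB⟩))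
    linarith
  · intro x hx
    by_cases hA : x ∈ M'.A
    · rw [hetaA x hA, heta, hR.k x (hA' hA).2]
      have h1 := hdiag hx
      have h2 : ‖rsc (H0T d L) M'.b x x‖ ≤ ‖f.g0‖ + t'.del x := by
        have h3 := norm_add_le f.g0 (rsc (H0T d L) M'.b x x - f.g0)
        rw [add_sub_cancel] at h3
        linarith
      have h3 := Complex.abs_im_le_norm (rsc (H0T d L) M'.b x x)
      have h4 := le_abs_self (rsc (H0T d L) M'.b x x).im
      have h5 := hR.pos x hx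
      have h6 := hg.khi x (hA' hA).1
      have h7 := hg.klo x (hA' hA).1
      have h8 := he1 x hA
      have h9 : M.k x * (rsc (H0T d L) M'.b x x).im ≤ t.k * (‖f.g0‖ + t'.del x) :=
        mul_le_mul h6 (by linarith) h5.le (by linarith)
      linarith
    · rw [hetan hA (hR.nB hx).2]
      exact hg.eS1 x (hR.nB hx).1
  · intro x hx
    have h1 := row_four (Z := M'.A) (w := fun _ => (1 : ℝ)) (g := rsc (H0T d L) M.b x)
      (g' := rsc (H0T d L) M'.b x) (fun _ _ => zero_le_one) (hθ x)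
    simp only [one_mul] at h1
    have h2 : ∑ y ∈ M'.A, ‖rsc (H0T d L) M.b x y‖ ^ 4 ≤ t.tau x :=
      (Finset.sum_le_sum_of_subset_of_nonneg hR.A_sub fun _ _ _ => by positivity).trans
        (hg.h2 x (hR.nB hx).1)
    have h3 : ∑ y ∈ M'.A, ‖rsc (H0T d L) M'.b x y - rsc (H0T d L) M.b x y‖ ^ 4 ≤
        min q (Kf ^ 4 * ANM.sumC d 0 ν * Real.exp (-(3 * (ν * dc c x)))) := by
      refine le_min (Cls.four hC x (hmem hx)) ?_
      refine Cls.farFour hC (fun y hy => hmem ?_) hν0.le (sum_dc_le hν0 hν1 c _) (hmem hx)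
      exact fun hU => Finset.disjoint_left.1 hAU hy hU
    have hθx := hθ x
    have e1 : (1 + θ x) ^ 3 * ∑ y ∈ M'.A, ‖rsc (H0T d L) M.b x y‖ ^ 4 ≤
        (1 + θ x) ^ 3 * t.tau x := mul_le_mul_of_nonneg_left h2 (by positivity)
    have e2 : (1 + 1 / θ x) ^ 3 *
        ∑ y ∈ M'.A, ‖rsc (H0T d L) M'.b x y - rsc (H0T d L) M.b x y‖ ^ 4 ≤
        (1 + 1 / θ x) ^ 3 *
          min q (Kf ^ 4 * ANM.sumC d 0 ν * Real.exp (-(3 * (ν * dc c x)))) :=
      mul_le_mul_of_nonneg_left h3 (by positivity)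
    have h4 := ht x hx
    linarith
  · intro x y hx hy
    have h1 := norm_add_le (rsc (H0T d L) M.b x y)
      (rsc (H0T d L) M'.b x y - rsc (H0T d L) M.b x y)
    rw [add_sub_cancel] at h1
    have h2 := hg.h5 x y (hR.nB hx).1 (hR.nB hy).1
    have h3 := hC.ent (hmem hx) (hmem hy)
    have h4 := h5 x y hx hy
    linarith

/-- numerical conditions at an insertion, `κ` = level, `s` = side of the cells, `m` = multiplicity -/
structure RNum (d : ℕ) (κ b vi vt ν ε q Kf : ℝ) (s m : ℕ) : Prop where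
  κ0 : 0 < κ
  κ1 : κ ≤ 1
  b0 : 0 < b
  vi0 : 0 ≤ vi
  vt0 : 0 ≤ vt
  m1 : 1 ≤ m
  q0 : 0 ≤ q
  ε0 : 0 ≤ ε
  Kf0 : 0 ≤ Kf
  ν0 : 0 < ν
  ν1 : ν ≤ 1
  /-- rate -/
  νb : 8 * (b * κ) ≤ ν
  /-- near entries -/
  ε : ε ≤ κ ^ vi
  /-- far entries -/
  far : Kf * Real.exp (-(ν * s)) ≤ 1
  /-- near fourth moments (absolute size of `τ`: the factor `κ^(-7/8)`) -/
  q : (1 + 28 / κ ^ vt) ^ 3 * q ≤ 1 / 2 * κ ^ vt * κ ^ (-(7 / 8) : ℝ)
  /-- far fourth moments -/
  farq : 29 ^ 3 * (Kf ^ 4 * ANM.sumC d 0 ν * Real.exp (-(2 * ν * s))) ≤ 1 / 2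

theorem exp_far {b κ ν Kf δ : ℝ} {s : ℕ} (hb : 0 ≤ b * κ) (hν : 8 * (b * κ) ≤ ν) (hK : 0 ≤ Kf)
    (hfar : Kf * Real.exp (-(ν * s)) ≤ 1) (hδ : (2 * s : ℝ) ≤ δ) :
    Kf * Real.exp (-(ν * δ)) ≤ Real.exp (-(4 * (b * κ) * δ)) := by
  have hs : (0 : ℝ) ≤ s := Nat.cast_nonneg s
  have h1 : Real.exp (-(ν * δ)) ≤ Real.exp (-(ν * s)) * Real.exp (-(4 * (b * κ) * δ)) := by
    rw [← Real.exp_add]
    refine Real.exp_le_exp.2 ?_
    nlinarith [mul_nonneg hb hs, mul_nonneg hb (by linarith : 0 ≤ δ),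
      mul_le_mul_of_nonneg_right hν (by linarith : 0 ≤ δ),
      mul_le_mul_of_nonneg_left hδ (by linarith : 0 ≤ ν)]
  calc Kf * Real.exp (-(ν * δ)) ≤ Kf * (Real.exp (-(ν * s)) * Real.exp (-(4 * (b * κ) * δ))) := by
        gcongr
    _ = (Kf * Real.exp (-(ν * s))) * Real.exp (-(4 * (b * κ) * δ)) := by ring
    _ ≤ 1 * Real.exp (-(4 * (b * κ) * δ)) := by gcongr
    _ = _ := one_mul _

/-- **status fields, (H1), (H2), (H5) after a removal**, the schedule -/
theorem rem_p125_tolAt {X : Type} {P : Par} (Sf : SiteF X) {f : Fix} {n s m : ℕ}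
    {F : Fld (Tor d L)} {π π' : Prof (Tor d L)} {v : Tor d L → X} {M M' : Med (Tor d L)}
    {B X0 : Finset (Tor d L)} (hg : Good f (tolAt P Sf n F π v M) M) (hR : Rem M M' B)
    {c : Tor d L} {s5 ν ε q W Kf : ℝ} (hC : RCls M M' X0 c P.s5 ν ε q W Kf) (hX : M'.nr ⊆ X0)
    (hN : RNum d (P.kap n) P.b P.vi P.vt ν ε q Kf s m) (hcl : 0 ≤ P.cl * P.kap (n + 1))
    (het : ∀ x, F.et x ≤ 1) (het0 : ∀ x, 0 ≤ F.et x)
    (he1 : ∀ x ∈ M'.A, P.eta + P.kap n * (‖f.g0‖ + (P.del0 + (F.err x + m))) ≤ 1) :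
    P125 f (tolAt P Sf n (F.ins P n s m {c}) π' v M') M' := by
  have hκ := hN.κ0
  have hm1 : (1 : ℝ) ≤ m := by exact_mod_cast hN.m1
  have hbκ : 0 ≤ P.b * P.kap n := (mul_pos hN.b0 hκ).le
  have hphle : ∀ (w : ℝ) (_ : 0 ≤ w) (x : Tor d L), ph (P.kap n) w P.b s x c ≤ 1 := by
    intro w hw x
    unfold ph
    split_ifs
    · exact Real.rpow_le_one hκ.le hN.κ1 hw
    · refine Real.exp_le_one_iff.2 ?_
      have : (0 : ℝ) ≤ P.b * P.kap n * ANP.dT x c := mul_nonneg hbκ (Nat.cast_nonneg _)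
      linarith
  have hdx : ∀ x : Tor d L, min ε (Kf * Real.exp (-(ν * dc c x))) ≤
      m * ph (P.kap n) P.vi P.b s x c := by
    intro x
    have h0 : ∀ y : ℝ, 0 ≤ y → y ≤ m * y := fun y hy => le_mul_of_one_le_left hy hm1
    unfold ph
    split_ifs with h
    · exact (min_le_left _ _).trans (hN.ε.trans (h0 _ (by positivity)))
    · refine (min_le_right _ _).trans (le_trans ?_ (h0 _ (Real.exp_pos _).le))
      have hδ : (2 * s : ℝ) ≤ dc c x := by
        unfold dc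
        have : 2 * s ≤ ANP.dT x c := by omega
        exact_mod_cast this
      refine (exp_far hbκ hN.νb hN.Kf0 hN.far hδ).trans (Real.exp_le_exp.2 ?_)
      have h1 : 0 ≤ P.b * P.kap n * dc c x := mul_nonneg hbκ (Nat.cast_nonneg _)
      have h2 : P.b * P.kap n * (ANP.dT x c : ℝ) = P.b * P.kap n * dc c x := rfl
      linarith
  have herr : ∀ x : Tor d L, (F.ins P n s m {c}).err x =
      F.err x + m * ph (P.kap n) P.vi P.b s x c := by
    intro x
    show F.err x + m * ∑ c ∈ ({c} : Finset (Tor d L)), ph (P.kap n) P.vi P.b s x c = _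
    rw [Finset.sum_singleton]
  have hett : ∀ x : Tor d L, (F.ins P n s m {c}).et x =
      F.et x + m * ph (P.kap n) P.vt P.b s x c := by
    intro x
    show F.et x + m * ∑ c ∈ ({c} : Finset (Tor d L)), ph (P.kap n) P.vt P.b s x c = _
    rw [Finset.sum_singleton]
  have hg5 : ∀ x y : Tor d L, (F.ins P n s m {c}).g5 x y =
      F.g5 x y + m * ph5i (P.kap n) P.vi P.b P.s5 s x y c := by
    intro x y
    show F.g5 x y + m * ∑ c ∈ ({c} : Finset (Tor d L)),
      ph5i (P.kap n) P.vi P.b P.s5 s x y c = _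
    rw [Finset.sum_singleton]
  have hphpos : ∀ x : Tor d L, 0 < ph (P.kap n) P.vt P.b s x c := by
    intro x
    unfold ph
    split_ifs
    · exact Real.rpow_pos_of_pos hκ _
    · exact Real.exp_pos _
  refine rem_p125 hg hR hC hX hN.ν0 hN.ν1 le_rfl le_rfl rfl le_rfl ?_ hcl ?_
    (fun x => ph (P.kap n) P.vt P.b s x c / 28) ?_ ?_ ?_
  · intro x hx
    have h1 := he1 x hx
    show P.eta + P.kap n * (‖f.g0‖ + (P.del0 + (F.ins P n s m {c}).err x)) ≤ 1
    rw [herr]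
    have h3 := hphle P.vi hN.vi0 x
    have h4 : (m : ℝ) * ph (P.kap n) P.vi P.b s x c ≤ m := by
      calc (m : ℝ) * ph (P.kap n) P.vi P.b s x c ≤ m * 1 := by gcongr
        _ = m := mul_one _
    have h5 : P.kap n * (‖f.g0‖ + (P.del0 + (F.err x + m * ph (P.kap n) P.vi P.b s x c))) ≤
        P.kap n * (‖f.g0‖ + (P.del0 + (F.err x + m))) := by gcongr
    exact (add_le_add_right h5 _).trans h1
  · intro x _
    show (P.del0 + F.err x) + min ε (Kf * Real.exp (-(ν * dc c x))) ≤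
      P.del0 + (F.ins P n s m {c}).err x
    rw [herr]
    have := hdx x
    linarith
  · intro x
    have := hphpos x
    positivity
  · intro x _
    show (1 + ph (P.kap n) P.vt P.b s x c / 28) ^ 3 *
        ((P.kap n) ^ (-(7 / 8) : ℝ) * (1 + F.et x)) +
      (1 + 1 / (ph (P.kap n) P.vt P.b s x c / 28)) ^ 3 *
        min q (Kf ^ 4 * ANM.sumC d 0 ν * Real.exp (-(3 * (ν * dc c x)))) ≤
      (P.kap n) ^ (-(7 / 8) : ℝ) * (1 + (F.ins P n s m {c}).et x)
    rw [hett]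
    set p := ph (P.kap n) P.vt P.b s x c with hp
    have hp0 : 0 < p := hphpos x
    have hp1 : p ≤ 1 := hphle P.vt hN.vt0 x
    have hT : (1 : ℝ) ≤ (P.kap n) ^ (-(7 / 8) : ℝ) :=
      Real.one_le_rpow_of_pos_of_le_one_of_nonpos hκ hN.κ1 (by norm_num)
    set T := (P.kap n) ^ (-(7 / 8) : ℝ) with hTd
    have hE := het x
    have hE0 := het0 x
    set e := F.et x with he
    have a1 : (1 + p / 28) ^ 3 * (1 + e) ≤ 1 + e + p / 2 := by
      have b1 : (1 + p / 28) ^ 3 ≤ 1 + p / 4 := by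
        nlinarith [mul_pos hp0 hp0, mul_nonneg (mul_pos hp0 hp0).le hp0.le]
      calc (1 + p / 28) ^ 3 * (1 + e) ≤ (1 + p / 4) * (1 + e) := by gcongr
        _ = 1 + e + p / 4 + p / 4 * e := by ring
        _ ≤ 1 + e + p / 4 + p / 4 * 1 := by gcongr
        _ = _ := by ring
    have a2 : (1 + 1 / (p / 28)) ^ 3 *
        min q (Kf ^ 4 * ANM.sumC d 0 ν * Real.exp (-(3 * (ν * dc c x)))) ≤ 1 / 2 * p * T := by
      have b0 : 1 + 1 / (p / 28) = 1 + 28 / p := by rw [one_div_div]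
      rw [b0]
      by_cases h : ANP.dT x c ≤ 2 * s
      · have b1 : p = (P.kap n) ^ P.vt := by rw [hp]; unfold ph; rw [if_pos h]
        have b2 := hN.q
        rw [← b1] at b2
        exact (mul_le_mul_of_nonneg_left (min_le_left _ _) (by positivity)).trans b2
      · have hδ : (2 * s : ℝ) ≤ dc c x := by
          unfold dc
          have : 2 * s ≤ ANP.dT x c := by omega
          exact_mod_cast this
        have b1 : p = Real.exp (-(P.b * P.kap n * dc c x)) := by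
          rw [hp]; unfold ph dc; rw [if_neg h]
        have b3 : 1 + 28 / p ≤ 29 * Real.exp (P.b * P.kap n * dc c x) := by
          have c1 : 28 / p = 28 * Real.exp (P.b * P.kap n * dc c x) := by
            rw [b1, Real.exp_neg, div_inv_eq_mul]
          have c2 : 1 ≤ Real.exp (P.b * P.kap n * dc c x) :=
            Real.one_le_exp (mul_nonneg hbκ (Nat.cast_nonneg _))
          rw [c1]
          linarith
        have b4 : (1 + 28 / p) ^ 3 ≤ 29 ^ 3 * Real.exp (3 * (P.b * P.kap n * dc c x)) := by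
          calc (1 + 28 / p) ^ 3 ≤ (29 * Real.exp (P.b * P.kap n * dc c x)) ^ 3 := by gcongr
            _ = _ := by
              rw [mul_pow, ← Real.exp_nat_mul]
              norm_num
        have hS0 : 0 ≤ ANM.sumC d 0 ν := ANF.Heat.sumC_nonneg d 0 hN.ν0
        have b5 : Real.exp (3 * (P.b * P.kap n * dc c x)) *
            Real.exp (-(3 * (ν * dc c x))) ≤ Real.exp (-(2 * ν * s)) * p := by
          rw [b1, ← Real.exp_add, ← Real.exp_add]
          refine Real.exp_le_exp.2 ?_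
          have hs : (0 : ℝ) ≤ s := Nat.cast_nonneg s
          have hδ0 : 0 ≤ dc c x := by linarith
          have c3 : 8 * (P.b * P.kap n) * dc c x ≤ ν * dc c x :=
            mul_le_mul_of_nonneg_right hN.νb hδ0
          have c4 : ν * (2 * s) ≤ ν * dc c x := mul_le_mul_of_nonneg_left hδ hN.ν0.le
          have c5 : 0 ≤ ν * s := mul_nonneg hN.ν0.le hs
          nlinarith
        have hpT : 1 / 2 * p ≤ 1 / 2 * p * T := le_mul_of_one_le_right (by positivity) hT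
        refine le_trans ?_ hpT
        calc (1 + 28 / p) ^ 3 *
              min q (Kf ^ 4 * ANM.sumC d 0 ν * Real.exp (-(3 * (ν * dc c x)))) ≤
            (29 ^ 3 * Real.exp (3 * (P.b * P.kap n * dc c x))) *
              (Kf ^ 4 * ANM.sumC d 0 ν * Real.exp (-(3 * (ν * dc c x)))) := by
              refine mul_le_mul b4 (min_le_right _ _) ?_ (by positivity)
              exact le_min hN.q0 (by positivity)
          _ = 29 ^ 3 * (Kf ^ 4 * ANM.sumC d 0 ν * (Real.exp (3 * (P.b * P.kap n * dc c x)) *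
              Real.exp (-(3 * (ν * dc c x))))) := by ring
          _ ≤ 29 ^ 3 * (Kf ^ 4 * ANM.sumC d 0 ν * (Real.exp (-(2 * ν * s)) * p)) := by gcongr
          _ = 29 ^ 3 * (Kf ^ 4 * ANM.sumC d 0 ν * Real.exp (-(2 * ν * s))) * p := by ring
          _ ≤ 1 / 2 * p := mul_le_mul_of_nonneg_right hN.farq hp0.le
    have a3 : p ≤ m * p := le_mul_of_one_le_left hp0.le hm1
    calc (1 + p / 28) ^ 3 * (T * (1 + e)) + (1 + 1 / (p / 28)) ^ 3 *
          min q (Kf ^ 4 * ANM.sumC d 0 ν * Real.exp (-(3 * (ν * dc c x)))) ≤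
        T * (1 + e + p / 2) + 1 / 2 * p * T := by
          refine add_le_add ?_ a2
          calc (1 + p / 28) ^ 3 * (T * (1 + e)) = T * ((1 + p / 28) ^ 3 * (1 + e)) := by ring
            _ ≤ _ := by gcongr
      _ = T * (1 + (e + p)) := by ring
      _ ≤ T * (1 + (e + m * p)) := by gcongr
  · intro x y _ _
    show F.g5 x y + dEnt P.s5 ν ε Kf c x y ≤ (F.ins P n s m {c}).g5 x y
    rw [hg5]
    refine add_le_add_right ?_ _
    have h0 : ∀ y : ℝ, 0 ≤ y → y ≤ m * y := fun y hy => le_mul_of_one_le_left hy hm1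
    unfold ph5i dEnt
    split_ifs with h
    · refine (min_le_left _ _).trans (le_trans ?_ (h0 _ ?_))
      · have e1 : (max 1 (ANP.dT x y : ℝ)) ^ (-P.s5) = (om5 P.s5 x y)⁻¹ := by
          unfold om5
          rw [Real.rpow_neg (le_trans zero_le_one (le_max_left _ _))]
        rw [e1, ← div_eq_mul_inv]
        exact div_le_div_of_nonneg_right hN.ε (om5_pos _ _ _).le
      · have : (0 : ℝ) ≤ max 1 (ANP.dT x y : ℝ) := le_trans zero_le_one (le_max_left _ _)
        positivity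
    · refine (min_le_right _ _).trans (le_trans ?_ (h0 _ (Real.exp_pos _).le))
      push Not at h
      have hx : (2 * s : ℝ) ≤ dc c x := by
        unfold dc
        have : 2 * s ≤ ANP.dT x c := by omega
        exact_mod_cast this
      have hy : (2 * s : ℝ) ≤ dc c y := by
        unfold dc
        have : 2 * s ≤ ANP.dT y c := by omega
        exact_mod_cast this
      refine (exp_far hbκ hN.νb hN.Kf0 hN.far (hx.trans (le_max_left _ _))).trans
        (Real.exp_le_exp.2 ?_)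
      have e1 : (ANP.dT x y : ℝ) ≤ dc c x + dc c y := by
        unfold dc
        have h1 := ANP.nmet_dT.tri x c y
        rw [ANP.nmet_dT.symm c y] at h1
        exact_mod_cast h1
      have e2 : dc c x ≤ max (dc c x) (dc c y) := le_max_left _ _
      have e3 : dc c y ≤ max (dc c x) (dc c y) := le_max_right _ _
      have e4 : P.b * P.kap n * (dc c x + dc c y + ANP.dT x y) ≤
          P.b * P.kap n * (4 * max (dc c x) (dc c y)) :=
        mul_le_mul_of_nonneg_left (by linarith) hbκ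
      have e5 : P.b * P.kap n * ((ANP.dT x c : ℝ) + ANP.dT y c + ANP.dT x y) =
          P.b * P.kap n * (dc c x + dc c y + ANP.dT x y) := rfl
      rw [e5]
      linarith

end Pool.Agent.ANI
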