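import Pool.Agent.ANI.Cls
import Pool.Agent.AND.Sched
import Pool.Agent.AND.Use

/-! # ANI REMDEFS: removal of sites (annulus, content) from a good medium, interfaces (helper75)

`M` the old medium (good), `B` the sites which are read completely now: an ANNULUS (`B ⊆ M.A`) or a CONTENT (`B` static),
`M'` the self-consistent medium after the reading.
* `Rem M M' B` : the relations between `M` and `M'`.
* `om5 s x y = max(1, |x-y|)^s` : the pair weight of (H5);  `dc c x = dT x c`.
* `RCls` : the closeness `Cls` of `M.G`, `M'.G` in this situation.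
* `ReadP` : the profiles before and after.

GOAL (`[REM]`): `Good f (tolAt P Sf n F π v M) M`, `Rem M M' B`, `RCls ..` give
`Good f (tolAt P Sf n (F.ins P n s m {c}) π' v M') M'`, with
`F.ins`: near `c` (`dT x c ≤ 2 s`) increments `m κ^vi`, far `m exp(-b κ dT x c)`.
-/

open Matrix Finset

noncomputable section

namespace Pool.Agent.ANI

open Pool.Agent.Kin Pool.Agent.APS Pool.Agent.AND

variable {d L : ℕ} [NeZero L]

/-- the relations between the media before and after the sites of `B` are read completely -/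
structure Rem (M M' : Med (Tor d L)) (B : Finset (Tor d L)) : Prop where
  /-- the removed sites were not read before (they may be active, inert or static) -/
  BU : Disjoint B M.U
  A : M'.A = M.A \ B
  U : M'.U = M.U ∪ B
  I : M'.I = M.I \ B
  k : ∀ x, x ∉ B → M'.k x = M.k x
  kB : ∀ x ∈ B, M'.k x = 0
  /-- read sites have a real diagonal -/
  bB : ∀ x ∈ B, (M'.b x).im = 0
  bU : ∀ x ∈ M.U, M'.b x = M.b x
  /-- the new self energies -/
  b : ∀ x, x ∉ B → M'.b x = M.b x -
    (M.k x : ℂ) * (rsc (H0T d L) M'.b x x - rsc (H0T d L) M.b x x)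
  unit : IsUnit (H0T d L + diagonal M'.b).det
  pos : ∀ x, x ∉ M'.U → 0 < (rsc (H0T d L) M'.b x x).im

/-- the profiles before and after -/
structure ReadP (π π' : Prof (Tor d L)) (B : Finset (Tor d L)) : Prop where
  act : π'.act = π.act \ B
  rd : π'.rd = π.rd ∪ B
  ine : π'.ine = π.ine \ B
  lev : ∀ x, x ∉ B → π'.lev x = π.lev x
  sg : ∀ x, x ∉ B → x ∉ π.rd → π'.sg x = π.sg x

/-- pair weight of (H5) -/
def om5 (s : ℝ) (x y : Tor d L) : ℝ := (max 1 (ANP.dT x y : ℝ)) ^ s

/-- distance to the centre `c` -/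
def dc (c x : Tor d L) : ℝ := (ANP.dT x c : ℝ)

/-- closeness of the old and the new medium; `M'.nr = M.nr \ B` absorbing sites of `M'`,
`X0` the sites at which the entries are compared (`X0 = M'.nr`, or `X0 = M.nr` for an annulus) -/
def RCls (M M' : Med (Tor d L)) (X0 : Finset (Tor d L)) (c : Tor d L) (s5 ν ε q W Kf : ℝ) : Prop :=
  Cls (rsc (H0T d L) M.b) (rsc (H0T d L) M'.b) M.eta M.k X0 M'.nr M'.A (om5 s5) (dc c) ν ε q W Kf

theorem om5_ge_one {s : ℝ} (hs : 0 ≤ s) (x y : Tor d L) : 1 ≤ om5 s x y :=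
  Real.one_le_rpow (le_max_left _ _) hs

theorem om5_pos (s : ℝ) (x y : Tor d L) : 0 < om5 s x y :=
  Real.rpow_pos_of_pos (lt_of_lt_of_le zero_lt_one (le_max_left _ _)) s

theorem om5_self (s : ℝ) (x : Tor d L) : om5 s x x = 1 := by
  unfold om5
  have : ANP.dT x x = 0 := ANP.nmet_dT.self x
  rw [this]
  simp

/-- quasi metric property, `K0 = 2^s` -/
theorem om5_quasi {s : ℝ} (hs : 0 ≤ s) (x y z : Tor d L) :
    om5 s x y ≤ 2 ^ s * om5 s x z ∨ om5 s x y ≤ 2 ^ s * om5 s z y := by
  have ht : (ANP.dT x y : ℝ) ≤ ANP.dT x z + ANP.dT z y := by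
    exact_mod_cast ANP.nmet_dT.tri x z y
  have key : ∀ a : ℝ, 0 ≤ a → (ANP.dT x y : ℝ) ≤ 2 * a →
      om5 s x y ≤ 2 ^ s * (max 1 a) ^ s := by
    intro a ha h
    unfold om5
    rw [← Real.mul_rpow (by norm_num) (le_trans zero_le_one (le_max_left _ _))]
    refine Real.rpow_le_rpow (le_trans zero_le_one (le_max_left _ _)) ?_ hs
    refine max_le ?_ ?_
    · have := le_max_left 1 a
      linarith
    · exact h.trans (mul_le_mul_of_nonneg_left (le_max_right _ _) (by norm_num))
  rcases le_total (ANP.dT x z : ℝ) (ANP.dT z y : ℝ) with h | h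
  · right
    exact key _ (Nat.cast_nonneg _) (by linarith)
  · left
    exact key _ (Nat.cast_nonneg _) (by linarith)

namespace Rem

variable {M M' : Med (Tor d L)} {B : Finset (Tor d L)}

theorem nr' (h : Rem M M' B) : M'.nr = M.nr \ B := by
  unfold Med.nr
  rw [h.U]
  ext x
  simp only [Finset.mem_compl, Finset.mem_union, Finset.mem_sdiff, not_or]

theorem mem_nr' (h : Rem M M' B) {x : Tor d L} : x ∈ M'.nr ↔ x ∉ M.U ∧ x ∉ B := by
  rw [h.nr', Finset.mem_sdiff]
  unfold Med.nr
  rw [Finset.mem_compl]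

theorem nr_sub (h : Rem M M' B) : M'.nr ⊆ M.nr := by
  rw [h.nr']; exact Finset.sdiff_subset

theorem A_sub (h : Rem M M' B) : M'.A ⊆ M.A := by
  rw [h.A]; exact Finset.sdiff_subset

theorem mem_I' (h : Rem M M' B) {x : Tor d L} : x ∈ M'.I ↔ x ∈ M.I ∧ x ∉ B := by
  rw [h.I, Finset.mem_sdiff]

theorem nB (h : Rem M M' B) {x : Tor d L} (hx : x ∉ M'.U) : x ∉ M.U ∧ x ∉ B := by
  rw [h.U] at hx
  simp only [Finset.mem_union, not_or] at hx
  exact hx

/-- the new absorption on the active sites -/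
theorem eta (h : Rem M M' B) {x : Tor d L} (hx : x ∉ B) :
    M'.eta x = M.eta x + M.k x *
      ((rsc (H0T d L) M'.b x x).im - (rsc (H0T d L) M.b x x).im) := by
  unfold Med.eta
  rw [h.b x hx]
  simp only [Complex.sub_im, Complex.mul_im, Complex.ofReal_re, Complex.ofReal_im, zero_mul,
    add_zero]
  ring

end Rem

end Pool.Agent.ANI
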