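import Pool.Agent.ANI.FormT3
import Pool.Agent.ANI.RemDefs
import Pool.Agent.ANM.FDec

/-! # ANI FORMT (part R3 of helper75's plan, helper87): (H4low), (H4up) after a removal

`Good f t M`, `Rem M M' B`, `RCls M M' X0 c s5 ν ε q W Kf`, decay of the entries of both media.
* `rem_insK`: the data `InsK` of `FormT2`;   * `rem_sz`: the sizes `Sz`;   * `rem_rho`: relative change of `m`;
* `rem_h4`: (H4low), (H4up) for `tolAt P Sf n (F.ins P n s m {c}) π' v' M'`; numerical inequalities `NumR`.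
-/

open Matrix Finset

noncomputable section

namespace Pool.Agent.ANI

open Pool.Agent.Kin Pool.Agent.APS Pool.Agent.ANF.Heat Pool.Agent.ANP Pool.Agent.ANM Pool.Agent.AND

variable {d L : ℕ} [NeZero L] {f : Fix} {t : Tol d L} {u : UTol} {M M' : Med (Tor d L)}
  {B X0 Z : Finset (Tor d L)} {c : Tor d L}

/-- new absorption at the active sites -/
theorem Rem.etaA (hR : Rem M M' B) (hG : Good f t M) {x : Tor d L} (hx : x ∈ M.A) (hB : x ∉ B) :
    M'.eta x = t.eta + M.k x * (rsc (H0T d L) M'.b x x).im := by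
  rw [hR.eta hB, hG.eA x hx]
  ring

/-- off the active sites the absorption does not change -/
theorem Rem.eta_off (hR : Rem M M' B) (hG : Good f t M) {x : Tor d L} (hx : x ∉ M.A)
    (hB : x ∉ B) : M'.eta x = M.eta x := by
  rw [hR.eta hB, hG.k0 x hx]
  ring

theorem Rem.adm' (hR : Rem M M' B) (hG : Good f t M) (hI : t.In f M u) (hN : Num f t u) :
    ANL.Adm (H0T d L) M'.b := by
  refine ⟨(hG.admN hI hN).sym, fun x => ?_, hR.unit⟩
  have h0 : 0 ≤ M'.eta x := by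
    by_cases hB : x ∈ B
    · unfold Med.eta
      rw [hR.bB x hB, neg_zero]
    · by_cases hU : x ∈ M.U
      · unfold Med.eta
        rw [hR.bU x hU]
        exact hG.eta_nonneg hI hN x
      · by_cases hA : x ∈ M.A
        · rw [hR.etaA hG hA hB]
          have h1 := hR.pos x (by rw [hR.U]; simp [hU, hB])
          have h2 := hG.k_nonneg hN x
          have h3 := hN.eta
          positivity
        · rw [hR.eta_off hG hA hB]
          exact hG.eta_nonneg hI hN x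
  unfold Med.eta at h0
  linarith

variable {s5 ν ε q W Kf nu Kd Lam pB th : ℝ} {s : ℕ}

/-- the near rows -/
def rrF (M M' : Med (Tor d L)) (x : Tor d L) : ℝ :=
  ∑ y ∈ M'.nr, M.eta y * ‖rsc (H0T d L) M'.b x y - rsc (H0T d L) M.b x y‖ ^ 2

/-- hypotheses of the removal for the form part -/
structure RemF (f : Fix) (t : Tol d L) (u : UTol) (M M' : Med (Tor d L))
    (B X0 : Finset (Tor d L)) (c : Tor d L) (s : ℕ) (s5 ν ε q W Kf nu Kd pB : ℝ) : Prop where
  good : Good f t M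
  tin : t.In f M u
  num : Num f t u
  rem : Rem M M' B
  cls : RCls M M' X0 c s5 ν ε q W Kf
  XX : M'.nr ⊆ X0
  Bc : ∀ y ∈ B, dT y c ≤ s + s / 4
  k1 : t.k ≤ 1
  /-- decay of the entries (`decP`) -/
  dec : ∀ x y, x ∉ M.U → y ∉ M.U → ‖rsc (H0T d L) M.b x y‖ ^ 2 ≤
    Kd * Real.exp (-(4 * nu * dT x y))
  εc : ε ≤ f.c1
  /-- the removed sites seen from the near sites -/
  pBc : ∀ x ∈ M'.nr, dT x c ≤ s + s / 2 → ∑ y ∈ B, ‖rsc (H0T d L) M.b x y‖ ^ 2 * M.eta y ≤ pB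
  nu0 : 0 < nu
  nu1 : nu ≤ 1
  nuν : nu ≤ ν
  s50 : 0 ≤ s5
  Kd0 : 0 ≤ Kd
  Kf0 : 0 ≤ Kf
  Lam0 : 0 ≤ u.Lam
  pB0 : 0 ≤ pB

namespace RemF

variable (h : RemF f t u M M' B X0 c s s5 ν ε q W Kf nu Kd pB)

include h

theorem nU {x : Tor d L} (hx : x ∈ M'.nr) : x ∉ M'.U ∧ x ∉ M.U ∧ x ∉ B := by
  have h1 := (h.rem.mem_nr').1 hx
  exact ⟨mem_nr.1 hx, h1⟩

theorem eta0 (x : Tor d L) : 0 ≤ M.eta x := h.good.eta_nonneg h.tin h.num x

theorem eta0' (x : Tor d L) : 0 ≤ M'.eta x := by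
  have := (h.rem.adm' h.good h.tin h.num).im x
  unfold Med.eta
  linarith

theorem ent {x y : Tor d L} (hx : x ∈ M'.nr) (hy : y ∈ M'.nr) :
    ‖rsc (H0T d L) M'.b x y - rsc (H0T d L) M.b x y‖ ≤
      Kf * Real.exp (-(ν * max (dT x c : ℝ) (dT y c))) := h.cls.far2 (h.XX hx) (h.XX hy)

theorem diag {x : Tor d L} (hx : x ∈ M'.nr) :
    ‖rsc (H0T d L) M'.b x x - rsc (H0T d L) M.b x x‖ ≤ ε := by
  have h1 := h.cls.rel x (h.XX hx) x (h.XX hx)
  rwa [om5_self, mul_one] at h1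

theorem diag' {x : Tor d L} (hx : x ∈ M'.nr) :
    ‖rsc (H0T d L) M'.b x x - rsc (H0T d L) M.b x x‖ ≤ Kf * Real.exp (-(ν * dT x c)) := by
  have h1 := h.ent hx hx
  rwa [max_self] at h1

theorem im_diff (x : Tor d L) : |(rsc (H0T d L) M'.b x x).im - (rsc (H0T d L) M.b x x).im| ≤
    ‖rsc (H0T d L) M'.b x x - rsc (H0T d L) M.b x x‖ := by
  have := Complex.abs_im_le_norm (rsc (H0T d L) M'.b x x - rsc (H0T d L) M.b x x)
  rwa [Complex.sub_im] at this

/-- change of the absorption -/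
theorem eta_sub {x : Tor d L} (hx : x ∈ M'.nr) : |M'.eta x - M.eta x| ≤
    M.k x * ‖rsc (H0T d L) M'.b x x - rsc (H0T d L) M.b x x‖ := by
  have hB := (h.nU hx).2.2
  have hk := h.good.k_nonneg h.num x
  rw [h.rem.eta hB, add_sub_cancel_left, abs_mul, abs_of_nonneg hk]
  exact mul_le_mul_of_nonneg_left (h.im_diff x) hk

theorem k_eta {x : Tor d L} (hx : x ∈ M'.nr) : M.k x * f.c1 ≤ M.eta x := by
  have hU := (h.nU hx).2.1
  by_cases hA : x ∈ M.A
  · have h1 := h.good.io_ge h.tin h.num hU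
    have h2 := h.good.eA x hA
    have h3 := h.good.k_nonneg h.num x
    have h4 := mul_le_mul_of_nonneg_left h1 h3
    have h5 := h.num.eta
    linarith
  · rw [h.good.k0 x hA, zero_mul]
    exact h.eta0 x

theorem io_le' {x : Tor d L} (hx : x ∈ M'.nr) (hε : ε ≤ f.C1) :
    (rsc (H0T d L) M'.b x x).im ≤ 2 * f.C1 := by
  have h1 := h.good.io_le h.tin h.num (h.nU hx).2.1
  have h2 := (abs_le.1 ((h.im_diff x).trans (h.diag hx))).2
  linarith

theorem symM (x y : Tor d L) : rsc (H0T d L) M.b x y = rsc (H0T d L) M.b y x :=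
  ANL.adm_symm (h.good.admN h.tin h.num) x y

theorem symM' (x y : Tor d L) : rsc (H0T d L) M'.b x y = rsc (H0T d L) M'.b y x :=
  ANL.adm_symm (h.rem.adm' h.good h.tin h.num) x y

theorem eta1' {x : Tor d L} (hx : x ∉ M.U) : M.eta x ≤ 1 := h.good.eS1 x hx

theorem eta_rel {x : Tor d L} (hx : x ∈ M'.nr) : |M'.eta x - M.eta x| ≤
    M.eta x / f.c1 * ‖rsc (H0T d L) M'.b x x - rsc (H0T d L) M.b x x‖ := by
  have hc := h.num.c1
  refine (h.eta_sub hx).trans (mul_le_mul_of_nonneg_right ?_ (norm_nonneg _))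
  rw [le_div_iff₀ hc]
  exact h.k_eta hx

theorem eta_two {x : Tor d L} (hx : x ∈ M'.nr) : M'.eta x ≤ 2 * M.eta x := by
  have hc := h.num.c1
  have h1 := (abs_le.1 (h.eta_rel hx)).2
  have h2 := (h.diag hx).trans h.εc
  have h3 : M.eta x / f.c1 * ‖rsc (H0T d L) M'.b x x - rsc (H0T d L) M.b x x‖ ≤
      M.eta x / f.c1 * f.c1 :=
    mul_le_mul_of_nonneg_left h2 (div_nonneg (h.eta0 x) hc.le)
  have h4 : M.eta x / f.c1 * f.c1 = M.eta x := by field_simp
  linarith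

/-- the constant of the far kernel -/
def qF (f : Fix) (Lam Kd Kf : ℝ) : ℝ :=
  Kf * (2 * (Lam + f.c1) ^ 2 / f.c1 + 2 * (2 * Lam + f.c1) + Kd / f.c1)

/-- the far kernel, `x` farther than `y` -/
theorem ker1 {x y : Tor d L} (hx : x ∈ M'.nr) (hy : y ∈ M'.nr) (hxy : dT y c ≤ dT x c) :
    |kF M' x y - kF M x y| ≤
      qF f u.Lam Kd Kf * (M.eta x * M.eta y) * Real.exp (-(nu * dT x c)) := by
  have hc := h.num.c1
  have hx' := h.nU hx
  have hy' := h.nU hy
  have hKf := h.Kf0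
  have hKd := h.Kd0
  have hLam := h.Lam0
  have hnu := h.nu0
  have hν : 0 ≤ ν := by linarith [h.nuν]
  have hdx : (0 : ℝ) ≤ dT x c := Nat.cast_nonneg _
  have hdy : (0 : ℝ) ≤ dT y c := Nat.cast_nonneg _
  have hdxy : (0 : ℝ) ≤ dT x y := Nat.cast_nonneg _
  set E := Real.exp (-(nu * dT x c)) with hE
  have hE0 : 0 < E := Real.exp_pos _
  have hνE : Real.exp (-(ν * dT x c)) ≤ E := by
    rw [hE, Real.exp_le_exp, neg_le_neg_iff]
    exact mul_le_mul_of_nonneg_right h.nuν hdx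
  have hex := h.eta0 x
  have hey := h.eta0 y
  have hex' := h.eta0' x
  have hey' := h.eta0' y
  have hey2 := h.eta_two hy
  have hG : ‖rsc (H0T d L) M.b x y‖ ≤ u.Lam :=
    (h.good.h5 x y hx'.2.1 hy'.2.1).trans (h.tin.Lam x y)
  have hD : ‖rsc (H0T d L) M'.b x y - rsc (H0T d L) M.b x y‖ ≤ Kf * E := by
    have h1 := h.ent hx hy
    have h2 : max (dT x c : ℝ) (dT y c) = dT x c := max_eq_left (by exact_mod_cast hxy)
    rw [h2] at h1
    exact h1.trans (mul_le_mul_of_nonneg_left hνE hKf)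
  have hDε : ‖rsc (H0T d L) M'.b x y - rsc (H0T d L) M.b x y‖ ≤ f.c1 := by
    have h1 := h.cls.rel x (h.XX hx) y (h.XX hy)
    have h2 := om5_ge_one h.s50 x y
    have h3 := norm_nonneg (rsc (H0T d L) M'.b x y - rsc (H0T d L) M.b x y)
    have h4 := h.εc
    nlinarith
  set g := ‖rsc (H0T d L) M.b x y‖ with hg
  set g' := ‖rsc (H0T d L) M'.b x y‖ with hg'
  have hg0 : 0 ≤ g := norm_nonneg _
  have hg'0 : 0 ≤ g' := norm_nonneg _
  have hgg : |g' - g| ≤ Kf * E := (abs_norm_sub_norm_le _ _).trans hD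
  have hgg' : |g' - g| ≤ f.c1 := (abs_norm_sub_norm_le _ _).trans hDε
  have hg'1 : g' ≤ u.Lam + f.c1 := by
    have := (abs_le.1 hgg').2
    linarith
  have hsq : |g' ^ 2 - g ^ 2| ≤ (Kf * E) * (2 * u.Lam + f.c1) := by
    have h1 : g' ^ 2 - g ^ 2 = (g' - g) * (g' + g) := by ring
    rw [h1, abs_mul, abs_of_nonneg (by positivity : 0 ≤ g' + g)]
    exact mul_le_mul hgg (by linarith) (by positivity) (by positivity)
  -- first term
  have t1 : |M'.eta x - M.eta x| * (g' ^ 2 * M'.eta y) ≤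
      (M.eta x / f.c1 * (Kf * E)) * ((u.Lam + f.c1) ^ 2 * (2 * M.eta y)) := by
    refine mul_le_mul ?_ ?_ (by positivity) (by positivity)
    · refine (h.eta_rel hx).trans ?_
      have h1 := h.diag' hx
      refine mul_le_mul_of_nonneg_left (h1.trans (mul_le_mul_of_nonneg_left hνE hKf)) ?_
      positivity
    · exact mul_le_mul (pow_le_pow_left₀ hg'0 hg'1 2) hey2 hey' (by positivity)
  -- second term
  have t2 : M.eta x * |g' ^ 2 - g ^ 2| * M'.eta y ≤
      M.eta x * ((Kf * E) * (2 * u.Lam + f.c1)) * (2 * M.eta y) :=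
    mul_le_mul (mul_le_mul_of_nonneg_left hsq hex) hey2 hey' (by positivity)
  -- third term
  have t3 : M.eta x * g ^ 2 * |M'.eta y - M.eta y| ≤
      M.eta x * M.eta y * (Kd / f.c1 * Kf * E) := by
    have h1 : g ^ 2 ≤ Kd * Real.exp (-(4 * nu * dT x y)) := h.dec x y hx'.2.1 hy'.2.1
    have h2 : |M'.eta y - M.eta y| ≤ M.eta y / f.c1 * (Kf * Real.exp (-(ν * dT y c))) := by
      refine (h.eta_rel hy).trans ?_
      exact mul_le_mul_of_nonneg_left (h.diag' hy) (by positivity)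
    calc M.eta x * g ^ 2 * |M'.eta y - M.eta y|
        ≤ (M.eta x * (Kd * Real.exp (-(4 * nu * dT x y)))) *
          (M.eta y / f.c1 * (Kf * Real.exp (-(ν * dT y c)))) :=
          mul_le_mul (mul_le_mul_of_nonneg_left h1 hex) h2 (abs_nonneg _) (by positivity)
      _ = M.eta x * M.eta y * (Kd / f.c1 * Kf *
          (Real.exp (-(4 * nu * dT x y)) * Real.exp (-(ν * dT y c)))) := by ring
      _ ≤ M.eta x * M.eta y * (Kd / f.c1 * Kf * E) := by
          refine mul_le_mul_of_nonneg_left (mul_le_mul_of_nonneg_left ?_ (by positivity))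
            (by positivity)
          rw [hE, ← Real.exp_add, Real.exp_le_exp]
          have h3 := (nmet_dT (d := d) (L := L)).tri x y c
          have h4 : (dT x c : ℝ) ≤ dT x y + dT y c := by exact_mod_cast h3
          have h5 := mul_le_mul_of_nonneg_left h4 hnu.le
          have h6 := mul_le_mul_of_nonneg_right h.nuν hdy
          have h7 := mul_nonneg hnu.le hdxy
          linarith
  have hk : kF M' x y - kF M x y = (M'.eta x - M.eta x) * (g' ^ 2 * M'.eta y) +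
      M.eta x * (g' ^ 2 - g ^ 2) * M'.eta y + M.eta x * g ^ 2 * (M'.eta y - M.eta y) := by
    unfold kF
    rw [← hg, ← hg']
    ring
  rw [hk]
  refine (abs_add_three _ _ _).trans ?_
  rw [abs_mul, abs_mul (M.eta x * (g' ^ 2 - g ^ 2)), abs_mul (M.eta x), abs_mul (M.eta x * g ^ 2),
    abs_of_nonneg (by positivity : 0 ≤ g' ^ 2 * M'.eta y), abs_of_nonneg hex,
    abs_of_nonneg hey', abs_of_nonneg (by positivity : 0 ≤ M.eta x * g ^ 2)]
  have hfin : (M.eta x / f.c1 * (Kf * E)) * ((u.Lam + f.c1) ^ 2 * (2 * M.eta y)) +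
      M.eta x * ((Kf * E) * (2 * u.Lam + f.c1)) * (2 * M.eta y) +
      M.eta x * M.eta y * (Kd / f.c1 * Kf * E) =
      qF f u.Lam Kd Kf * (M.eta x * M.eta y) * E := by
    unfold qF
    ring
  linarith

theorem ker {x y : Tor d L} (hx : x ∈ M'.nr) (hy : y ∈ M'.nr) :
    |kF M' x y - kF M x y| ≤ qF f u.Lam Kd Kf * (M.eta x * M.eta y) *
      Real.exp (-(nu * (max (dT x c) (dT y c) : ℕ))) := by
  rcases le_total (dT y c) (dT x c) with h1 | h1
  · rw [max_eq_left h1]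
    exact h.ker1 hx hy h1
  · rw [max_eq_right h1]
    have h2 := h.ker1 hy hx h1
    have e1 : kF M' y x = kF M' x y := by
      unfold kF
      rw [h.symM' y x]
      ring
    have e2 : kF M y x = kF M x y := by
      unfold kF
      rw [h.symM y x]
      ring
    rw [e1, e2, mul_comm (M.eta y)] at h2
    exact h2

/-- the data `InsK` -/
theorem insK (hth0 : 0 < th) (hth1 : th ≤ 1) (hth : ε ≤ th / 16 * f.c1) (hs : 2 ≤ s) :
    InsK M M' B c (s + s / 2) th (rrF M M') (qF f u.Lam Kd Kf) Kd nu where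
  nr := h.rem.nr'
  Bn := by
    intro x hx
    rw [mem_nr]
    exact Finset.disjoint_left.1 h.rem.BU hx
  Bnear y hy := by
    have := h.Bc y hy
    omega
  adm := h.good.admN h.tin h.num
  adm' := h.rem.adm' h.good h.tin h.num
  eU := h.good.eU
  th0 := hth0
  th1 := hth1
  rw0 x := Finset.sum_nonneg fun y _ => mul_nonneg (h.eta0 y) (sq_nonneg _)
  rho x hx _ := by
    refine (h.eta_sub hx).trans ?_
    have h1 := h.diag hx
    have h2 := h.k_eta hx
    have h3 := h.good.k_nonneg h.num x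
    calc M.k x * ‖rsc (H0T d L) M'.b x x - rsc (H0T d L) M.b x x‖
        ≤ M.k x * (th / 16 * f.c1) := mul_le_mul_of_nonneg_left (h1.trans hth) h3
      _ = th / 16 * (M.k x * f.c1) := by ring
      _ ≤ th / 16 * M.eta x := mul_le_mul_of_nonneg_left h2 (by positivity)
  row x _ _ := le_rfl
  ker x hx y hy _ := h.ker hx hy
  dec x hx y hy := by
    have hx' := h.nU hx
    have hyU : y ∉ M.U := Finset.disjoint_left.1 h.rem.BU hy
    have h1 := h.dec x y hx'.2.1 hyU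
    have h2 := h.eta1' hyU
    have h3 := mul_le_mul_of_nonneg_left h2 (sq_nonneg ‖rsc (H0T d L) M.b x y‖)
    linarith
  e1 x hx := h.eta1' (mem_nr.1 hx)
  q0 := by
    have h1 := h.Kf0
    have h2 := h.Kd0
    have h3 := h.Lam0
    have h4 := h.num.c1
    unfold qF
    positivity
  qd0 := h.Kd0
  nu0 := h.nu0
  nu1 := h.nu1

theorem rr_le {x : Tor d L} (hx : x ∈ M'.nr) : rrF M M' x ≤ ε ^ 2 := h.cls.row x (h.XX hx)

theorem rr_mass : ∑ x ∈ M'.nr, M.eta x * rrF M M' x ≤ W := h.cls.mass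

theorem be_le {x : Tor d L} (hx : x ∈ M'.nr) (hr : dT x c ≤ s + s / 2) :
    beF M B x ≤ M.eta x * pB := by
  have h1 := h.pBc x hx hr
  calc beF M B x = M.eta x * ∑ y ∈ B, ‖rsc (H0T d L) M.b x y‖ ^ 2 * M.eta y := by
        unfold beF kF
        rw [Finset.mul_sum]
        refine Finset.sum_congr rfl fun y _ => ?_
        ring
    _ ≤ _ := mul_le_mul_of_nonneg_left h1 (h.eta0 x)

/-- near sites: `om0 ≤ ((256/θ) ε² + 2 pB) η` -/
theorem om_eta (hth0 : 0 < th) {x : Tor d L} (hx : x ∈ M'.nr) (hr : dT x c ≤ s + s / 2) :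
    om0 M B th (rrF M M') x ≤ (256 / th * ε ^ 2 + 2 * pB) * M.eta x := by
  unfold om0
  have h1 := h.rr_le hx
  have h2 := h.be_le hx hr
  have h3 := mul_le_mul_of_nonneg_left h1 (h.eta0 x)
  have h4 := mul_le_mul_of_nonneg_left h3 (by positivity : 0 ≤ 256 / th)
  linarith

/-- the sizes -/
theorem sz (hth0 : 0 < th) (hth1 : th ≤ 1) (hth : ε ≤ th / 16 * f.c1) (hs : 2 ≤ s)
    {eA WB nZ : ℝ} (heA0 : 0 ≤ eA)
    (heA : ∀ x ∈ M'.nr, x ∉ Z → dT x c ≤ s + s / 2 → M.eta x ≤ eA)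
    (hWB : ∑ y ∈ B, M.eta y * (rsc (H0T d L) M.b y y).im ≤ WB) (hZ : (Z.card : ℝ) ≤ nZ) :
    InsK.Sz M M' B Z c (s + s / 2) th (rrF M M') ((256 / th * ε ^ 2 + 2 * pB) * eA)
      (256 / th * W + 2 * WB) ((256 / th * ε ^ 2 + 2 * pB) * nZ) where
  s00 := by
    have := h.pB0
    positivity
  sup x hx hxZ hr := by
    refine (h.om_eta hth0 hx hr).trans (mul_le_mul_of_nonneg_left (heA x hx hxZ hr) ?_)
    have := h.pB0
    positivity
  mass := by
    have hK := h.insK hth0 hth1 hth hs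
    have h1 : ∀ x ∈ M'.nr.filter (fun x => dT x c ≤ s + s / 2 ∧ x ∉ Z), x ∈ M'.nr :=
      fun x hx => (Finset.mem_filter.1 hx).1
    have h2 : ∑ x ∈ M'.nr.filter (fun x => dT x c ≤ s + s / 2 ∧ x ∉ Z),
        om0 M B th (rrF M M') x ≤ ∑ x ∈ M'.nr, om0 M B th (rrF M M') x :=
      Finset.sum_le_sum_of_subset_of_nonneg h1 fun x _ _ => hK.om0_nonneg x
    refine h2.trans ?_
    unfold om0
    rw [Finset.sum_add_distrib, ← Finset.mul_sum, ← Finset.mul_sum]
    have h3 := h.rr_mass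
    have h4 := hK.be_sum M'.nr h.rem.nr_sub
    have h5 := mul_le_mul_of_nonneg_left h3 (by positivity : 0 ≤ 256 / th)
    linarith
  massZ := by
    have h0 : 0 ≤ 256 / th * ε ^ 2 + 2 * pB := by
      have := h.pB0
      positivity
    have h1 : ∀ x ∈ M'.nr.filter (fun x => dT x c ≤ s + s / 2 ∧ x ∈ Z),
        om0 M B th (rrF M M') x ≤ 256 / th * ε ^ 2 + 2 * pB := by
      intro x hx
      obtain ⟨h2, h3, _⟩ := Finset.mem_filter.1 hx
      refine (h.om_eta hth0 h2 h3).trans ?_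
      have := mul_le_mul_of_nonneg_left (h.eta1' (h.nU h2).2.1) h0
      linarith
    have h2 := Finset.sum_le_card_nsmul _ _ _ h1
    rw [nsmul_eq_mul] at h2
    have h3 : ((M'.nr.filter (fun x => dT x c ≤ s + s / 2 ∧ x ∈ Z)).card : ℝ) ≤ nZ := by
      refine le_trans ?_ hZ
      have h4 : M'.nr.filter (fun x => dT x c ≤ s + s / 2 ∧ x ∈ Z) ⊆ Z := by
        intro x hx
        exact (Finset.mem_filter.1 hx).2.2
      exact_mod_cast Finset.card_le_card h4
    refine h2.trans ?_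
    rw [mul_comm]
    exact mul_le_mul_of_nonneg_left h3 h0

/-- lower bound of `m` -/
theorem m_ge {x : Tor d L} (hx : x ∈ M'.nr) :
    M.eta x * f.c1 ≤ M.eta x * (rsc (H0T d L) M.b x x).im :=
  mul_le_mul_of_nonneg_left (h.good.io_ge h.tin h.num (h.nU hx).2.1) (h.eta0 x)

/-- relative change of `m` -/
theorem m_sub (hε : ε ≤ f.C1) {x : Tor d L} (hx : x ∈ M'.nr) :
    |M'.eta x * (rsc (H0T d L) M'.b x x).im - M.eta x * (rsc (H0T d L) M.b x x).im| ≤
      (2 * f.C1 / f.c1 + 1) / f.c1 * ‖rsc (H0T d L) M'.b x x - rsc (H0T d L) M.b x x‖ *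
        (M.eta x * (rsc (H0T d L) M.b x x).im) := by
  have hc := h.num.c1
  have h1 := h.eta_sub hx
  have h2 := h.io_le' hx hε
  have h3 := h.im_diff x
  have h4 := h.k_eta hx
  have h5 := h.m_ge hx
  have h6 := h.eta0 x
  have h7 : 0 ≤ (rsc (H0T d L) M'.b x x).im := (h.rem.pos x (h.nU hx).1).le
  set D := ‖rsc (H0T d L) M'.b x x - rsc (H0T d L) M.b x x‖ with hD
  have hD0 : 0 ≤ D := norm_nonneg _
  have e1 : M'.eta x * (rsc (H0T d L) M'.b x x).im - M.eta x * (rsc (H0T d L) M.b x x).im =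
      (M'.eta x - M.eta x) * (rsc (H0T d L) M'.b x x).im +
        M.eta x * ((rsc (H0T d L) M'.b x x).im - (rsc (H0T d L) M.b x x).im) := by ring
  rw [e1]
  refine (abs_add_le _ _).trans ?_
  rw [abs_mul, abs_mul, abs_of_nonneg h7, abs_of_nonneg h6]
  have e2 : |M'.eta x - M.eta x| * (rsc (H0T d L) M'.b x x).im ≤
      (M.eta x / f.c1 * D) * (2 * f.C1) := by
    refine mul_le_mul ?_ h2 h7 (by positivity)
    refine h1.trans (mul_le_mul_of_nonneg_right ?_ hD0)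
    rw [le_div_iff₀ hc]
    exact h4
  have e3 : M.eta x * |(rsc (H0T d L) M'.b x x).im - (rsc (H0T d L) M.b x x).im| ≤
      M.eta x * D := mul_le_mul_of_nonneg_left h3 h6
  have e4 : M.eta x ≤ M.eta x * (rsc (H0T d L) M.b x x).im / f.c1 := by
    rw [le_div_iff₀ hc]
    exact h5
  have hC : 0 < f.C1 := h.good.C1_pos h.tin h.num
  have e5 : (M.eta x / f.c1 * D) * (2 * f.C1) + M.eta x * D =
      (2 * f.C1 / f.c1 + 1) * D * M.eta x := by ring
  have e6 : (2 * f.C1 / f.c1 + 1) * D * M.eta x ≤ (2 * f.C1 / f.c1 + 1) * D *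
      (M.eta x * (rsc (H0T d L) M.b x x).im / f.c1) :=
    mul_le_mul_of_nonneg_left e4 (by positivity)
  have e7 : (2 * f.C1 / f.c1 + 1) * D * (M.eta x * (rsc (H0T d L) M.b x x).im / f.c1) =
      (2 * f.C1 / f.c1 + 1) / f.c1 * D * (M.eta x * (rsc (H0T d L) M.b x x).im) := by ring
  linarith

/-- new values of `m` at the active sites -/
theorem m_new (hε : ε ≤ f.c1 / 2) {x : Tor d L} (hx : x ∈ M'.nr) (hA : x ∈ M'.A) :
    (t.eta + t.kl * (f.c1 / 2)) * (f.c1 / 2) ≤ M'.eta x * (rsc (H0T d L) M'.b x x).im := by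
  have hc := h.num.c1
  have hx' := h.nU hx
  have h1 := h.good.io_ge h.tin h.num hx'.2.1
  have h2 := (abs_le.1 ((h.im_diff x).trans (h.diag hx))).1
  have h3 : f.c1 / 2 ≤ (rsc (H0T d L) M'.b x x).im := by linarith
  have hA' : x ∈ M.A := h.rem.A_sub hA
  rw [h.rem.etaA h.good hA' hx'.2.2]
  have h4 := h.good.klo x hA'
  have h5 := h.num.kl
  have h6 := h.num.eta
  refine mul_le_mul ?_ h3 (by positivity) ?_
  · have := mul_le_mul h4 h3 (by positivity) (h5.le.trans h4)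
    linarith
  · have := mul_nonneg (h5.le.trans h4) ((by positivity : 0 ≤ f.c1 / 2).trans h3)
    linarith

end RemF

/-- decay of the entries, no absorption (`dec_all` of helper3) -/
theorem decP (hG : Good f t M) (hI : t.In f M u) (hN : Num f t u) {F : Set (Tor d L)} {μ : ℝ}
    {a cc : ℕ} (ha : 1 ≤ a) (hμ : 0 < μ) (hw : ANM.HasW M.b F μ a cc) (hnu : 4 * nu ≤ 2 * μ / a)
    {x y : Tor d L} (hx : x ∉ M.U) (hy : y ∉ M.U) :
    ‖rsc (H0T d L) M.b x y‖ ^ 2 ≤
      ((3 * f.C1 * Real.exp μ / (4 * μ) * Real.exp (μ * cc / a)) ^ 2 +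
        u.Lam ^ 2 * Real.exp (2 * μ * cc / a)) * Real.exp (-(4 * nu * dT x y)) := by
  have hadm := hG.admN hI hN
  have hD : ANM.Diss (H0T d L) M.b := ⟨hadm.sym, hadm.im, hadm.unit⟩
  have ha0 : (0 : ℝ) < a := by exact_mod_cast ha
  have hdxy : (0 : ℝ) ≤ dT x y := Nat.cast_nonneg _
  have htd : (ANM.td x y : ℝ) = dT x y := rfl
  have hexp : Real.exp (-(2 * μ * dT x y / a)) ≤ Real.exp (-(4 * nu * dT x y)) := by
    rw [Real.exp_le_exp, neg_le_neg_iff]
    have := mul_le_mul_of_nonneg_right hnu hdxy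
    calc 4 * nu * dT x y ≤ 2 * μ / a * dT x y := this
      _ = _ := by ring
  set A := (3 * f.C1 * Real.exp μ / (4 * μ) * Real.exp (μ * cc / a)) ^ 2 with hA
  set B2 := u.Lam ^ 2 * Real.exp (2 * μ * cc / a) with hB2
  have hA0 : 0 ≤ A := sq_nonneg _
  have hB0 : 0 ≤ B2 := mul_nonneg (sq_nonneg _) (Real.exp_pos _).le
  have hE0 := (Real.exp_pos (-(4 * nu * dT x y))).le
  have hLam : ‖rsc (H0T d L) M.b x y‖ ≤ u.Lam := (hG.h5 x y hx hy).trans (hI.Lam x y)
  by_cases hc : cc < ANM.td x y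
  · have h1 := ANM.dec_all hD ha hμ hw hc (hG.gam_le hI hN hx) (hG.io_le hI hN hy)
    have h2 : ‖rsc (H0T d L) M.b x y‖ ^ 2 ≤
        (3 * f.C1 * Real.exp μ / (4 * μ) * Real.exp (μ * cc / a) *
          Real.exp (-(μ * ANM.td x y / a))) ^ 2 := pow_le_pow_left₀ (norm_nonneg _) h1 2
    have h3 : Real.exp (-(μ * ANM.td x y / a)) ^ 2 = Real.exp (-(2 * μ * dT x y / a)) := by
      rw [← Real.exp_nat_mul, htd]
      congr 1
      push_cast
      ring
    rw [mul_pow, h3] at h2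
    calc ‖rsc (H0T d L) M.b x y‖ ^ 2 ≤ A * Real.exp (-(2 * μ * dT x y / a)) := h2
      _ ≤ A * Real.exp (-(4 * nu * dT x y)) := mul_le_mul_of_nonneg_left hexp hA0
      _ ≤ (A + B2) * Real.exp (-(4 * nu * dT x y)) :=
          mul_le_mul_of_nonneg_right (by linarith) hE0
  · have h1 : (dT x y : ℝ) ≤ cc := by
      have : ANM.td x y ≤ cc := not_lt.1 hc
      exact_mod_cast this
    have h2 : ‖rsc (H0T d L) M.b x y‖ ^ 2 ≤ u.Lam ^ 2 := pow_le_pow_left₀ (norm_nonneg _) hLam 2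
    have h3 : 1 ≤ Real.exp (2 * μ * cc / a) * Real.exp (-(2 * μ * dT x y / a)) := by
      rw [← Real.exp_add]
      refine Real.one_le_exp ?_
      have : 2 * μ * dT x y / a ≤ 2 * μ * cc / a := by gcongr
      linarith
    calc ‖rsc (H0T d L) M.b x y‖ ^ 2 ≤ u.Lam ^ 2 * 1 := by linarith
      _ ≤ u.Lam ^ 2 * (Real.exp (2 * μ * cc / a) * Real.exp (-(2 * μ * dT x y / a))) :=
          mul_le_mul_of_nonneg_left h3 (sq_nonneg _)
      _ = B2 * Real.exp (-(2 * μ * dT x y / a)) := by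
          rw [hB2]
          ring
      _ ≤ B2 * Real.exp (-(4 * nu * dT x y)) := mul_le_mul_of_nonneg_left hexp hB0
      _ ≤ (A + B2) * Real.exp (-(4 * nu * dT x y)) :=
          mul_le_mul_of_nonneg_right (by linarith) hE0

/-- numerical inequalities of a removal, form part -/
structure NumR (d s n : ℕ) (f : Fix) (P : Par) (th Cm l W WB nZ eA pB ε Kd Kf Lam ν nu nB cρ ce
    cm : ℝ) : Prop where
  I : NumI d s n P th Cm l ((256 / th * ε ^ 2 + 2 * pB) * eA) (256 / th * W + 2 * WB)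
    ((256 / th * ε ^ 2 + 2 * pB) * nZ) (RemF.qF f Lam Kd Kf) Kd nu nB f.c1
    ((256 / th * ε ^ 2 + 2 * pB) / f.c1) cρ ce cm
  th0 : 0 < th
  th1 : th ≤ 1
  hth : ε ≤ th / 16 * f.c1
  εC : ε ≤ f.C1
  εc : ε ≤ f.c1 / 2
  /-- relative change of `m`, near -/
  ρ1 : (2 * f.C1 / f.c1 + 1) / f.c1 * ε ≤ cρ * P.kap n ^ P.vi
  /-- relative change of `m`, far -/
  ρ2 : (2 * f.C1 / f.c1 + 1) / f.c1 * (Kf * Real.exp (-(ν * s))) ≤ cρ
  νb : 2 * (P.b * P.kap n) ≤ ν
  hcm : cm * (P.eta + P.kap n) ≤ (P.eta + P.cl * P.kap (n + 1) * (f.c1 / 2)) * (f.c1 / 2)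

/-- **(H4low), (H4up) after a removal, for the schedule** -/
theorem rem_h4 (hd : 3 ≤ d) {X : Type} {Sf : SiteF X} {P : Par} {n m : ℕ} (hm : 1 ≤ m)
    {F : Fld (Tor d L)} {π π' : Prof (Tor d L)} {v v' : Tor d L → X}
    (h : RemF f (tolAt P Sf n F π v M) u M M' B X0 c s s5 ν ε q W Kf nu Kd pB)
    {Cm l WB nZ eA nB cρ ce cm : ℝ}
    (hN : NumR d s n f P th Cm l W WB nZ eA pB ε Kd Kf u.Lam ν nu nB cρ ce cm)
    (hL : 4 * s + 1 ≤ L) (hnB : (B.card : ℝ) ≤ nB) (heA0 : 0 ≤ eA)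
    (heA : ∀ x ∈ M'.nr, x ∉ Z → dT x c ≤ s + s / 2 → M.eta x ≤ eA)
    (hWB : ∑ y ∈ B, M.eta y * (rsc (H0T d L) M.b y y).im ≤ WB) (hZ : (Z.card : ℝ) ≤ nZ)
    (hC : ∀ i x, (tolAt P Sf n F π v M).C0 i x ≤ Cm)
    (hdl1 : ∀ x ∈ M.nr, (tolAt P Sf n F π v M).dl x ≤ 1) :
    (∀ u : Tor d L → ℝ, ∃ a : Tor d L → ℝ,
      DW (tolAt P Sf n (F.ins P n s m {c}) π' v' M').D a +
        ∑ x ∈ M'.nr, M'.eta x * (rsc (H0T d L) M'.b x x).im * (u x - a x) ^ 2 /
        (1 + (tolAt P Sf n (F.ins P n s m {c}) π' v' M').dl x) ≤ QF (H0T d L) M' u) ∧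
    ∀ a : Tor d L → ℝ,
      QF (H0T d L) M' a ≤ DW (tolAt P Sf n (F.ins P n s m {c}) π' v' M').C0 a := by
  have hNI := hN.I
  have hs := hNI.s2
  have hth0 := hN.th0
  have hK := h.insK hth0 hN.th1 hN.hth hs
  have hSz := h.sz (Z := Z) hth0 hN.th1 hN.hth hs heA0 heA hWB hZ
  have hc := h.num.c1
  have hC1 : 0 < f.C1 := h.good.C1_pos h.tin h.num
  refine h4_ins_tolAt hd hm hK hNI hSz hL h.rem.A hnB h.good.h4l h.good.h4u hC h.tin.dl0 hdl1
    (fun x hx hr => ?_) (fun x hx => ?_) (fun x hx => h.m_ge hx) (fun x hx => ?_)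
    (fun x hA hx => ?_)
  · refine (h.om_eta hth0 hx hr).trans ?_
    have h1 := h.m_ge hx
    have h0 : 0 ≤ 256 / th * ε ^ 2 + 2 * pB := by
      have := h.pB0
      positivity
    have h2 : M.eta x ≤ M.eta x * (rsc (H0T d L) M.b x x).im / f.c1 := by
      rw [le_div_iff₀ hc]
      exact h1
    have h3 := mul_le_mul_of_nonneg_left h2 h0
    refine h3.trans (le_of_eq ?_)
    ring
  · exact mul_pos (h.good.eta_pos h.tin h.num (h.nU hx).2.1)
      (h.good.io_pos h.tin h.num (h.nU hx).2.1)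
  · have h1 := h.m_sub hN.εC hx
    refine h1.trans ?_
    have hm0 : 0 ≤ M.eta x * (rsc (H0T d L) M.b x x).im := by
      have := h.m_ge hx
      have := mul_nonneg (h.eta0 x) hc.le
      linarith
    refine mul_le_mul_of_nonneg_right ?_ hm0
    have hcc : 0 ≤ (2 * f.C1 / f.c1 + 1) / f.c1 := by positivity
    have hka := hNI.ka0
    unfold ph
    split_ifs with h2
    · exact (mul_le_mul_of_nonneg_left (h.diag hx) hcc).trans hN.ρ1
    · refine (mul_le_mul_of_nonneg_left (h.diag' hx) hcc).trans ?_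
      have hKf := h.Kf0
      have h3 : Real.exp (-(ν * dT x c)) ≤
          Real.exp (-(ν * s)) * Real.exp (-(P.b * P.kap n * dT x c)) := by
        rw [← Real.exp_add, Real.exp_le_exp]
        have h4 : 2 * s ≤ dT x c := by omega
        have h5 : 2 * (s : ℝ) ≤ dT x c := by exact_mod_cast h4
        have h6 : 0 ≤ ν := by linarith [h.nu0, h.nuν]
        have h7 := mul_le_mul_of_nonneg_left h5 (by linarith : 0 ≤ ν / 2)
        have h8 := mul_le_mul_of_nonneg_right hN.νb (Nat.cast_nonneg (α := ℝ) (dT x c))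
        linarith
      calc (2 * f.C1 / f.c1 + 1) / f.c1 * (Kf * Real.exp (-(ν * dT x c)))
          ≤ (2 * f.C1 / f.c1 + 1) / f.c1 * (Kf *
            (Real.exp (-(ν * s)) * Real.exp (-(P.b * P.kap n * dT x c)))) := by
            gcongr
        _ = ((2 * f.C1 / f.c1 + 1) / f.c1 * (Kf * Real.exp (-(ν * s)))) *
            Real.exp (-(P.b * P.kap n * dT x c)) := by ring
        _ ≤ cρ * Real.exp (-(P.b * P.kap n * dT x c)) :=
            mul_le_mul_of_nonneg_right hN.ρ2 (Real.exp_pos _).le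
  · exact hN.hcm.trans (h.m_new hN.εc hx hA)

end Pool.Agent.ANI
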