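import Pool.Agent.ANI.RemComp
import Pool.Agent.ANI.RemH125
import Pool.Agent.ANI.FormT

/-! # ANI REMDEC: decay of the entries before and after a removal, the structure `RemF` (helper75)

* `Rem.hasW'` : Agmon weights of the new medium, rate `μ/2`.
* `rem_dec` : `|G_xy|² ≤ KdR e^{-4ν|x-y|}` for all pairs of not read sites.
* `remF_of` : the hypotheses `RemF` of the form theorem (helper87).
-/

open Matrix Finset

noncomputable section

namespace Pool.Agent.ANI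

open Pool.Agent.Kin Pool.Agent.APS Pool.Agent.AND Pool.Agent.ANL Pool.Agent.ANM

variable {d L : ℕ} [NeZero L] {M M' : Med (Tor d L)} {B X0 : Finset (Tor d L)}
  {f : Fix} {t t' : Tol d L} {u : UTol} {c : Tor d L} {s5 ν ε q W Kf : ℝ}
  {κ : Type*} {D : κ → Set (Tor d L)} {a cw : ℕ} {μ : ℝ}

/-- the absorption changes by a factor at most `2`, general set `X0` -/
theorem Rem.eta_half (hR : Rem M M' B) (hg : Good f t M) (hi : t.In f M u) (hN : Num f t u)
    (hc : RCls M M' X0 c s5 ν ε q W Kf) (hX : M'.nr ⊆ X0) (he : 2 * ε ≤ f.c1) {x : Tor d L}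
    (hxU : x ∉ M'.U) : M.eta x ≤ 2 * M'.eta x := by
  obtain ⟨h0, hxB⟩ := hR.nB hxU
  rw [hR.eta hxB]
  have hx : x ∈ X0 := hX (mem_nr.2 hxU)
  have h2 := hc.rel x hx x hx
  rw [om5_self, mul_one] at h2
  have h3 := Complex.abs_im_le_norm (rsc (H0T d L) M'.b x x - rsc (H0T d L) M.b x x)
  rw [Complex.sub_im] at h3
  have h4 := (abs_le.1 (h3.trans h2)).1
  have h5 := hg.kio_le hi hN h0
  have h6 := hg.io_ge hi hN h0
  have h7 := hg.k_nonneg hN x
  have h8 := mul_le_mul_of_nonneg_left h6 h7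
  have h9 : M.k x * (-ε) ≤ M.k x *
      ((rsc (H0T d L) M'.b x x).im - (rsc (H0T d L) M.b x x).im) :=
    mul_le_mul_of_nonneg_left h4 h7
  have h10 : M.k x * (2 * ε) ≤ M.k x * f.c1 := mul_le_mul_of_nonneg_left he h7
  nlinarith

theorem Rem.hasW' (hR : Rem M M' B) (hg : Good f t M) (hi : t.In f M u) (hN : Num f t u)
    (hc : RCls M M' X0 c s5 ν ε q W Kf) (hX : M'.nr ⊆ X0) (he : 2 * ε ≤ f.c1)
    (hw : Wts f t M B D a cw μ) : HasW M'.b {x | ∃ k, x ∈ D k} (μ / 2) a cw := by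
  have hμ := hw.μ0
  have hadm := hR.adm' hg hi hN
  refine hasW_cp hw.cp (by positivity) (by linarith [hw.μ1])
    (fun x => by linarith [hadm.im x]) ?_ (le_refl (8 * d * (μ / 2)))
  intro x hx
  have hU : x ∉ M'.U := fun h => by
    rw [hR.U, Finset.mem_union] at h
    rcases h with h | h
    · obtain ⟨k, hk⟩ := hw.U x h
      exact hx k hk
    · obtain ⟨k, hk⟩ := hw.B x h
      exact hx k hk
  have h1 := hw.eta hg hi hN hx
  have h2 := hR.eta_half hg hi hN hc hX he hU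
  unfold Med.eta at h1 h2
  linarith

/-- the constant of the decay of the entries -/
def KdR (f : Fix) (u : UTol) (cw a : ℕ) (μ : ℝ) : ℝ :=
  (3 * f.C1 * Real.exp μ / (4 * μ) * Real.exp (μ * cw / a)) ^ 2 +
    u.Lam ^ 2 * Real.exp (2 * μ * cw / a)

theorem KdR_nonneg (f : Fix) (u : UTol) (cw a : ℕ) (μ : ℝ) : 0 ≤ KdR f u cw a μ := by
  unfold KdR
  positivity

/-- decay of the entries, all pairs of not read sites -/
theorem rem_dec (hg : Good f t M) (hi : t.In f M u) (hN : Num f t u)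
    (hw : Wts f t M B D a cw μ) (hν : 4 * ν ≤ μ / a) {x y : Tor d L} (hx : x ∉ M.U)
    (hy : y ∉ M.U) : ‖rsc (H0T d L) M.b x y‖ ^ 2 ≤
      KdR f u cw a μ * Real.exp (-(4 * ν * ANP.dT x y)) := by
  have hW := hasW_good hg hi hN hw.cp hw.U hw.I hw.μ0.le hw.μ1 hw.m1 hw.m2
  have hμ := hw.μ0
  have ha : (0 : ℝ) < a := by exact_mod_cast hw.a1
  refine decP hg hi hN hw.a1 hμ hW ?_ hx hy
  have h1 : 2 * μ / a = 2 * (μ / a) := by ring
  have h2 : 0 < μ / a := div_pos hμ ha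
  linarith

/-- the hypotheses of the form theorem -/
theorem remF_of (hg : Good f t M) (hi : t.In f M u) (hN : Num f t u) (hR : Rem M M' B)
    (hc : RCls M M' X0 c s5 ν ε q W Kf) (hX : M'.nr ⊆ X0) (he : 2 * ε ≤ f.c1) (hs5 : 0 ≤ s5)
    (hw : Wts f t M B D a cw μ) (hk1 : t.k ≤ 1) {s : ℕ}
    (hBc : ∀ y ∈ B, ANM.td y c ≤ s + s / 4) {pB : ℝ}
    (hpB : ∀ x ∈ M'.nr, ANM.td x c ≤ s + s / 2 →
      ∑ y ∈ B, ‖rsc (H0T d L) M.b x y‖ ^ 2 * M.eta y ≤ pB)
    (hν0 : 0 < ν) (hν : 4 * ν ≤ μ / a) (hKf : 0 ≤ Kf) (hLam : 0 ≤ u.Lam) (hpB0 : 0 ≤ pB) :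
    RemF f t u M M' B X0 c s s5 ν ε q W Kf ν (KdR f u cw a μ) pB := by
  have hC1 := hg.C1_pos hi hN
  have hc1 := hN.c1
  have hμ := hw.μ0
  have ha1 : (1 : ℝ) ≤ a := by exact_mod_cast hw.a1
  have hν1 : ν ≤ 1 := by
    have h1 : μ / a ≤ 1 := by
      rw [div_le_one (by linarith)]
      linarith [hw.μ1]
    linarith
  exact {
    good := hg
    tin := hi
    num := hN
    rem := hR
    cls := hc
    XX := hX
    Bc := hBc
    k1 := hk1
    dec := fun x y hx hy => rem_dec hg hi hN hw hν hx hy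
    εc := by linarith
    pBc := hpB
    nu0 := hν0
    nu1 := hν1
    nuν := le_rfl
    s50 := hs5
    Kd0 := KdR_nonneg f u cw a μ
    Kf0 := hKf
    Lam0 := hLam
    pB0 := hpB0 }

end Pool.Agent.ANI
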