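import Pool.Agent.ANI.RemGood

/-! # ANI INSDET: the two steps of one insertion, (H3) as a hypothesis (helper75)

`M` good, `S` annulus, `F` content, centre `c` (`dT z c ≤ ρc` on `S ∪ F`).
* `AnnNum.le`, `kRf_mono` : monotone in the number of the sites.
* `ann_det0` : the annulus medium `M1`: exists, closeness at ALL sites of `M.nr`, good.
* `cont_det0` : from `M1` good and the leverages of the content: the medium `M2` exists, closeness `M → M2`, good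
  with the fields of ONE insertion.
-/

open Matrix Finset

noncomputable section

namespace Pool.Agent.ANI

open Pool.Agent.Kin Pool.Agent.APS Pool.Agent.AND Pool.Agent.ANL Pool.Agent.ANM

variable {d L : ℕ} [NeZero L]

omit [NeZero L] in
theorem AnnNum.le {f : Fix} {t : Tol d L} {u : UTol} {m m' uu s5 ε q W Kf : ℝ} {a cw : ℕ}
    {μ : ℝ} (h : AnnNum f t u m' uu s5 ε q W Kf a cw μ) (hm0 : 0 ≤ m) (hm : m ≤ m')
    (hLam : 0 ≤ u.Lam) (hC2 : 0 ≤ u.C2) (huu : 0 ≤ uu) (hC1 : 0 ≤ f.C1) (hc1 : 0 < f.c1)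
    (hτ : 0 ≤ u.tau) (hr0 : 0 ≤ f.r0) (hμ : 0 < μ) :
    AnnNum f t u m uu s5 ε q W Kf a cw μ where
  e0 := h.e0
  sm := by
    refine le_trans ?_ h.sm
    gcongr
  sm2 := by
    refine le_trans ?_ h.sm2
    gcongr
  e1 := by
    refine le_trans ?_ h.e1
    gcongr
  e2 := by
    refine le_trans ?_ h.e2
    gcongr
  q1 := by
    refine le_trans ?_ h.q1
    gcongr
  W1 := by
    refine le_trans ?_ h.W1
    gcongr
  W2 := by
    refine le_trans ?_ h.W2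
    have hm' : 0 ≤ m' := hm0.trans hm
    have h2 : 0 ≤ 2 * uu * m' := by positivity
    gcongr
  K1 := by
    refine le_trans ?_ h.K1
    gcongr
  n1 := h.n1
  n2 := h.n2

theorem kRf_mono {f : Fix} {u : UTol} {m m' Kb Kf : ℝ} {d a cw : ℕ} {μ : ℝ} (hm : m ≤ m') (hC1 : 0 ≤ f.C1) (hKb : 0 ≤ Kb) (hKf : 0 ≤ Kf) (hs : 0 ≤ sumC d 0 (μ / a)) :
    kRf f u m Kb Kf d a cw μ ≤ kRf f u m' Kb Kf d a cw μ := by
  unfold kRf
  gcongr

theorem RCls.mono {M M' : Med (Tor d L)} {X0 : Finset (Tor d L)} {c : Tor d L}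
    {s5 ν ε q W Kf ε' q' W' Kf' : ℝ} (h : RCls M M' X0 c s5 ν ε q W Kf) (hε : ε ≤ ε')
    (hq : q ≤ q') (hW : W ≤ W') (hK : Kf ≤ Kf') : RCls M M' X0 c s5 ν ε' q' W' Kf' :=
  Cls.mono h hε hq hW hK

/-- total far constant after a step -/
def kTot (f : Fix) (u : UTol) (m Kb Kf : ℝ) (d a cw : ℕ) (μ ρc : ℝ) : ℝ :=
  (Kf + kRf f u m Kb Kf d a cw μ) * Real.exp (tRf f u * (μ / a) * ρc)

variable {f : Fix} {u : UTol} {X : Type} {Sf : SiteF X} {P : Par} {Y : Sys X} {n s nf : ℕ}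
  {Fd : Fld (Tor d L)} {π π1 π2 : Prof (Tor d L)} {v : Tor d L → X} {M M1 : Med (Tor d L)}
  {S F : Finset (Tor d L)} {c : Tor d L} {κ : Type*} {D : κ → Set (Tor d L)} {a cw : ℕ} {μ : ℝ}

/-- bounds of the fields and of the tolerances of the old medium -/
structure FdN (f : Fix) (P : Par) (Sf : SiteF X) (n : ℕ) (Fd : Fld (Tor d L))
    (π : Prof (Tor d L)) (v : Tor d L → X) (M : Med (Tor d L)) (Cm : ℝ) : Prop where
  cl : 0 ≤ P.cl * P.kap (n + 1)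
  et1 : ∀ x, Fd.et x ≤ 1
  et0 : ∀ x, 0 ≤ Fd.et x
  e1 : ∀ x, P.eta + P.kap n * (‖f.g0‖ + (P.del0 + (Fd.err x + 1))) ≤ 1
  C : ∀ i x, (tolAt P Sf n Fd π v M).C0 i x ≤ Cm
  dl : ∀ x ∈ M.nr, (tolAt P Sf n Fd π v M).dl x ≤ 1

/-- the medium before the insertion -/
structure InsM (f : Fix) (P : Par) (Sf : SiteF X) (Y : Sys X) (n nf : ℕ) (Fd : Fld (Tor d L))
    (π : Prof (Tor d L)) (v : Tor d L → X) (M : Med (Tor d L)) (u : UTol) (Cm : ℝ) : Prop where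
  med : IsMed (H0T d L) Y π v M
  good : Good f (tolAt P Sf n Fd π v M) M
  tin : (tolAt P Sf n Fd π v M).In f M u
  num : Num f (tolAt P Sf n Fd π v M) u
  bas : BasN f (tolAt P Sf n Fd π v M) u P.s5
  fdn : FdN f P Sf n Fd π v M Cm
  av : Avoid (H0T d L) (Y.hh nf) Y.E
  eta : 0 ≤ Y.eta

/-- (H3) of the medium `M'` with the fields of one insertion at `c` -/
def H3C (P : Par) (Sf : SiteF X) (n s : ℕ) (Fd : Fld (Tor d L)) (c : Tor d L)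
    (π' : Prof (Tor d L)) (v : Tor d L → X) (M' : Med (Tor d L)) : Prop :=
  ∀ K ∈ (tolAt P Sf n (Fd.ins P n s 1 {c}) π' v M').Ks, ∀ x, x ∉ M'.U →
    ‖∑ y ∈ M'.A, rsc (H0T d L) M'.b x y ^ 2 *
      ((tolAt P Sf n (Fd.ins P n s 1 {c}) π' v M').a K y : ℂ)‖ ≤
      ∑ y ∈ M'.nr, ‖rsc (H0T d L) M'.b x y‖ ^ 2 *
        (tolAt P Sf n (Fd.ins P n s 1 {c}) π' v M').z K y

omit [NeZero L] in
theorem Wts.sub {t : Tol d L} {B B' : Finset (Tor d L)} (h : Wts f t M B D a cw μ)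
    (hB : B' ⊆ B) : Wts f t M B' D a cw μ where
  cp := h.cp
  U := h.U
  I := h.I
  B x hx := h.B x (hB hx)
  a1 := h.a1
  μ0 := h.μ0
  μ1 := h.μ1
  m1 := h.m1
  m2 := h.m2

theorem Wts.next {t t1 : Tol d L} (h : Wts f t M (S ∪ F) D a cw μ) (hR : Rem M M1 S)
    (hkl : t1.kl = t.kl) (hst : t1.st = t.st) : Wts f t1 M1 F D a cw μ where
  cp := h.cp
  U x hx := by
    rw [hR.U, Finset.mem_union] at hx
    rcases hx with hx | hx
    · exact h.U x hx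
    · exact h.B x (Finset.mem_union_left _ hx)
  I x hx := h.I x (hR.mem_I'.1 hx).1
  B x hx := h.B x (Finset.mem_union_right _ hx)
  a1 := h.a1
  μ0 := h.μ0
  μ1 := h.μ1
  m1 := by rw [hkl]; exact h.m1
  m2 := by rw [hst]; exact h.m2

/-- numbers of the goodness of the medium after a removal -/
structure GdNum (d : ℕ) (f : Fix) (u : UTol) (P : Par) (n s : ℕ) (ν ε q W Kf pB WB nB Cm : ℝ)
    (cw : ℕ) (a : ℕ) (μ th l cρ ce cm : ℝ) : Prop where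
  rn : RNum d (P.kap n) P.b P.vi P.vt ν ε q Kf s 1
  nr : NumR d s n f P th Cm l W WB 0 1 pB ε (KdR f u cw a μ) Kf u.Lam
      ν ν nB cρ ce cm

/-- THE ANNULUS STEP -/
theorem ann_det0 (hd : 3 ≤ d) {Cm : ℝ} (h : InsM f P Sf Y n nf Fd π v M u Cm)
    (hp : ReadP π π1 S) (hlv : ∀ x ∈ π1.rd, π1.lev x = nf) (hSr : Disjoint S π.rd)
    (hS : S.Nonempty) (hact : ∀ x ∈ S, x ∈ π.act ∨ x ∈ π.ine) {h1 uu : ℝ}
    (hh : ∀ x ∈ S, |Y.hh nf (v x) - Y.hh (π.lev x) (v x)| ≤ h1) (hh0 : 0 ≤ h1)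
    (huu : h1 + Y.eta + P.kap n * f.C1 ≤ uu) (hw : Wts f (tolAt P Sf n Fd π v M) M S D a cw μ)
    {ρc : ℕ} (hc : ∀ z ∈ S, ANP.dT z c ≤ ρc) (hρ : ρc ≤ s + s / 4) (hL : 4 * s + 1 ≤ L)
    {nS : ℝ} (hnS : (S.card : ℝ) ≤ nS)
    {ε q W Kf K ρ Kb ε2 q2 W2 pB WB th lf cρ ce cm : ℝ} {l : ℕ}
    (n1 : AnnNum f (tolAt P Sf n Fd π v M) u nS uu P.s5 ε q W Kf a cw μ)
    (n2 : ExNum f u ε K (a / (2 * μ)) cw d l)
    (n3 : RfNum f (tolAt P Sf n Fd π v M) u P.s5 ε q W ρ Kb ε2 q2 W2 a l)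
    (hν : 4 * tRf f u ≤ 1)
    (hpB : nS * (u.Lam ^ 2 * (P.eta + P.kap n * f.C1)) ≤ pB)
    (hWB : nS * ((P.eta + P.kap n * f.C1) * f.C1) ≤ WB)
    (n4 : GdNum d f u P n s (tRf f u * (μ / a)) (ε + ε2) (8 * (q + q2)) (2 * (W + W2))
      (kTot f u nS Kb Kf d a cw μ ρc) pB WB nS Cm cw a μ th lf cρ ce cm)
    (h3 : ∀ M1, Rem M M1 S → IsMed (H0T d L) Y π1 v M1 →
      RCls M M1 M.nr c P.s5 (tRf f u * (μ / a)) (ε + ε2) (8 * (q + q2)) (2 * (W + W2))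
        (kTot f u nS Kb Kf d a cw μ ρc) → H3C P Sf n s Fd c π1 v M1) :
    ∃ M1, Rem M M1 S ∧ IsMed (H0T d L) Y π1 v M1 ∧
      RCls M M1 M.nr c P.s5 (tRf f u * (μ / a)) (ε + ε2) (8 * (q + q2)) (2 * (W + W2))
        (kTot f u nS Kb Kf d a cw μ ρc) ∧
      Good f (tolAt P Sf n (Fd.ins P n s 1 {c}) π1 v M1) M1 := by
  have hC1 := h.good.C1_pos h.tin h.num
  have hc1 := h.num.c1
  have hμ := hw.μ0
  have ha : (0 : ℝ) < a := by exact_mod_cast hw.a1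
  have hS0 : (0 : ℝ) ≤ S.card := Nat.cast_nonneg _
  have hSU : Disjoint S M.U := by rw [h.med.U]; exact hSr
  have hk0 : 0 ≤ P.kap n := h.num.kl.le.trans h.num.klk
  have heta : 0 ≤ P.eta := h.num.eta.le
  have heS : 0 ≤ P.eta + P.kap n * f.C1 := by positivity
  have huu0 : 0 ≤ uu := by
    have : 0 ≤ P.kap n * f.C1 := by positivity
    have := h.eta
    linarith
  have hA := annIn_of h.med h.good h.tin h.num h.bas hp hlv hSr h.av h.eta hact hh hh0 huu hw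
  have n1' := n1.le hS0 hnS h.bas.Lam0 h.bas.C20 huu0 hC1.le hc1 h.bas.tau0
    (by linarith [h.bas.r0]) hμ
  have hraw := ann_in hA n1'
  have hnr : M.nr.Nonempty := by
    obtain ⟨z, hz⟩ := hS
    exact ⟨z, mem_nr.2 (Finset.disjoint_left.1 hSU hz)⟩
  have hKf : 0 ≤ Kf := by
    obtain ⟨x, hx⟩ := hnr
    exact hraw.cls.Kf0 hx
  obtain ⟨M1, hR, hmed, hcls⟩ := rem_final hraw hS hnr hw n2 n3 (c := c) (ρc := ρc)
    (fun z hz => by exact_mod_cast hc z hz)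
  have hsum : 0 ≤ sumC d 0 (μ / a) := ANF.Heat.sumC_nonneg d 0 (div_pos hμ ha)
  have hcls' : RCls M M1 M.nr c P.s5 (tRf f u * (μ / a)) (ε + ε2) (8 * (q + q2)) (2 * (W + W2))
      (kTot f u nS Kb Kf d a cw μ ρc) := by
    refine hcls.mono le_rfl le_rfl le_rfl ?_
    unfold kTot
    have h1 := kRf_mono (f := f) (u := u) (Kb := Kb) (Kf := Kf) (d := d) (a := a) (cw := cw)
      (μ := μ) hnS hC1.le (by linarith [n3.Kb1]) hKf hsum
    have h2 := Real.exp_pos (tRf f u * (μ / a) * ρc)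
    gcongr
  have hmed1 : IsMed (H0T d L) Y π1 v M1 := hmed X Y π π1 v h.med hp fun x hx => if_pos hx
  refine ⟨M1, hR, hmed1, hcls', ?_⟩
  have hpB0 : 0 ≤ pB := le_trans (by have := hS0.trans hnS; positivity) hpB
  have heS' : ∀ y ∈ S, M.eta y ≤ P.eta + P.kap n * f.C1 := fun y hy =>
    eta_AI h.good h.tin h.num (by
      rcases hact y hy with h' | h'
      · left; rw [h.med.A]; exact h'
      · right; rw [h.med.I]; exact h')
  have hbd : ∀ x ∈ M1.nr, ∑ y ∈ S, ‖rsc (H0T d L) M.b x y‖ ^ 2 * M.eta y ≤ pB := by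
    intro x hx
    have h5 := pB_bound (S := S) (F := ∅) h.good h.tin h.num hSU (Finset.disjoint_empty_left _)
      heS heS' h.bas.Lam0 h.bas.C20 (by rw [← h.bas.hs5]; exact h.bas.s50)
      (R0 := f.r0) le_rfl (by linarith [h.bas.r0]) (hR.nB (mem_nr.1 hx)).1 (by simp)
    rw [Finset.union_empty, Finset.card_empty, Nat.cast_zero, zero_mul, add_zero] at h5
    exact h5.trans ((mul_le_mul_of_nonneg_right hnS (by positivity)).trans hpB)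
  have hbW : ∑ y ∈ S, M.eta y * (rsc (H0T d L) M.b y y).im ≤ WB := by
    have h5 := WB_bound (S := S) (F := ∅) h.good h.tin h.num hSU (Finset.disjoint_empty_left _)
      heS heS'
    rw [Finset.union_empty, Finset.card_empty, Nat.cast_zero, zero_mul, add_zero] at h5
    exact h5.trans ((mul_le_mul_of_nonneg_right hnS (by positivity)).trans hWB)
  exact rem_good0 hd h.good h.tin h.num hR hcls' hR.nr_sub hw n4.rn
    (by
      have h5 : 0 ≤ μ / a := by positivity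
      nlinarith)
    h.fdn.cl h.fdn.et1 h.fdn.et0 (fun x _ => h.fdn.e1 x) h.bas.k1 h.bas.s50
    (fun y hy => (hc y hy).trans hρ) h.bas.Lam0 hpB0 hbd hbW n4.nr hL hnS h.fdn.C h.fdn.dl
    (h3 M1 hR hmed1 hcls')

omit [NeZero L] in
theorem RfNum.congr {t t1 : Tol d L} {s5 ε q W ρ Kb ε2 q2 W2 : ℝ} {a l : ℕ}
    (h : RfNum f t u s5 ε q W ρ Kb ε2 q2 W2 a l) (hk : t1.kl = t.kl) :
    RfNum f t1 u s5 ε q W ρ Kb ε2 q2 W2 a l where
  hs5 := h.hs5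
  r0 := h.r0
  Lam0 := h.Lam0
  C20 := h.C20
  tau0 := h.tau0
  ρ0 := h.ρ0
  ρ8 := h.ρ8
  ρK := h.ρK
  ρ1 := h.ρ1
  Kb1 := h.Kb1
  Kbk := by rw [hk]; exact h.Kbk
  Kb2 := h.Kb2
  Kb3 := h.Kb3
  ta := h.ta
  e0 := h.e0
  e1 := h.e1
  e2 := h.e2
  q2 := h.q2
  W1 := h.W1
  W2 := h.W2

theorem ContNum.le {m m' r1 D1 nb : ℕ} {Ml CV τV ρF s5 ε q W Kf : ℝ}
    (h : ContNum f u m' r1 D1 nb d Ml CV τV ρF s5 ε q W Kf a cw μ) (hm : m ≤ m')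
    (hMl : 0 ≤ Ml) (hCV : 0 ≤ CV) (hτ : 0 ≤ τV) (hc1 : 0 < f.c1) (hμ : 0 < μ) :
    ContNum f u m r1 D1 nb d Ml CV τV ρF s5 ε q W Kf a cw μ := by
  have hP : 0 ≤ cP d Ml nb := by unfold cP; positivity
  have hr : (0 : ℝ) < (r1 : ℝ) ^ s5 :=
    Real.rpow_pos_of_pos (by have := h.hr; exact_mod_cast this) _
  have hKd : 0 ≤ cKd r1 D1 s5 := by unfold cKd; positivity
  have he : 0 ≤ eB (cP d Ml nb) CV (cKd r1 D1 s5) ((r1 : ℝ) ^ s5) := by unfold eB; positivity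
  have hq : 0 ≤ qB (cP d Ml nb) CV ((r1 : ℝ) ^ s5) τV := by unfold qB; positivity
  have hW : 0 ≤ WB (cP d Ml nb) CV f.c1 := by unfold WB; positivity
  have hK : 0 ≤ cKg CV ρF a cw μ := by unfold cKg; positivity
  have hm1 : (m : ℝ) ≤ m' := by exact_mod_cast hm
  have h16 : (16 : ℝ) ^ m ≤ 16 ^ m' := pow_le_pow_right₀ (by norm_num) hm
  have h4 : (4 : ℝ) ^ m ≤ 4 ^ m' := pow_le_pow_right₀ (by norm_num) hm
  have h2 : (2 : ℝ) ^ m ≤ 2 ^ m' := pow_le_pow_right₀ (by norm_num) hm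
  exact {
    hr := h.hr
    n1 := (mul_le_mul_of_nonneg_right hm1 he).trans h.n1
    n2 := (mul_le_mul_of_nonneg_right h16 hq).trans h.n2
    n3 := h.n3
    e := (mul_le_mul_of_nonneg_right hm1 he).trans h.e
    q := (mul_le_mul_of_nonneg_right h16 hq).trans h.q
    W := (mul_le_mul_of_nonneg_right h4 hW).trans h.W
    K := (mul_le_mul_of_nonneg_right h2 hK).trans h.K
    c1 := h.c1
    c2 := h.c2 }

/-- THE CONTENT STEP -/
theorem cont_det0 (hd : 3 ≤ d) {Cm : ℝ} (h : InsM f P Sf Y n nf Fd π v M u Cm)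
    (hp2 : ReadP π1 π2 F) (hlv : ∀ x ∈ π2.rd, π2.lev x = nf)
    (hSr : Disjoint S π.rd) (hFr : Disjoint F π1.rd) (hF : F.Nonempty)
    (hne : ∃ x, x ∉ M.U ∧ x ∉ S ∧ x ∉ F) (hact : ∀ x ∈ S, x ∈ π.act ∨ x ∈ π.ine)
    (hw : Wts f (tolAt P Sf n Fd π v M) M (S ∪ F) D a cw μ)
    (hR1 : Rem M M1 S) (hM1 : IsMed (H0T d L) Y π1 v M1) {ε1 q1 W1 K1 : ℝ}
    (hc1 : RCls M M1 M.nr c P.s5 (tRf f u * (μ / a)) ε1 q1 W1 K1) (hε1 : 2 * ε1 ≤ f.c1)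
    (hq1 : 0 ≤ q1)
    {t1 : Tol d L} (ht1k : t1.k ≤ 1) (ht1l : t1.kl = P.cl * P.kap (n + 1))
    (ht1s : t1.st = P.cs * P.kap (n + 1)) (hg1 : Good f t1 M1) (hi1 : t1.In f M1 u)
    (hN1 : Num f t1 u) {m r1 D1 nb : ℕ} {Fb Db : ℕ → Finset (Tor d L)} {ρF Ml : ℝ}
    (hgeo : CGeo M1 F M.nr m Fb Db r1 D1 nb ρF)
    (hlev : ∀ i < m, ∀ y ∈ bdy (H0T d L) (Db i), LevLe (H0T d L) M1.b F y Ml) (hMl : 0 ≤ Ml)
    {R0 : ℝ} (hR0 : f.r0 ≤ R0) (hdist : ∀ x, x ∉ M.U → x ∉ S → x ∉ F → ∀ y ∈ F,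
      R0 ≤ (ANM.td x y : ℝ))
    {ρc : ℕ} (hc : ∀ z ∈ S ∪ F, ANP.dT z c ≤ ρc) (hρ : ρc ≤ s + s / 4) (hL : 4 * s + 1 ≤ L)
    {nS nF : ℝ} (hnS : (S.card : ℝ) ≤ nS) (hnF : (F.card : ℝ) ≤ nF) {m' : ℕ} (hm : m ≤ m')
    {ε q W Kf K ρ Kb ε2 q2 W2 pB WB th lf cρ ce cm : ℝ} {l : ℕ}
    (n1 : ContNum f u m' r1 D1 nb d Ml (u.Lam * f.r0 ^ P.s5 + u.C2 + ε1) (8 * (u.tau + q1)) ρF
      P.s5 ε q W Kf a cw μ)
    (n2 : ExNum f u ε K (a / (2 * μ)) cw d l)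
    (n3 : RfNum f (tolAt P Sf n Fd π v M) u P.s5 ε q W ρ Kb ε2 q2 W2 a l)
    (hν : 4 * tRf f u ≤ 1)
    (hpB : nS * (u.Lam ^ 2 * (P.eta + P.kap n * f.C1)) + nF * (u.C2 * R0 ^ (-f.s)) ^ 2 ≤ pB)
    (hWB : nS * ((P.eta + P.kap n * f.C1) * f.C1) + nF * f.C1 ≤ WB)
    (n4 : GdNum d f u P n s (tRf f u * (μ / a)) (ε1 + 2 * (ε + ε2)) (8 * (q1 + 8 * (q + q2)))
      (2 * (W1 + 4 * (2 * (W + W2)))) (K1 + kTot f u nF Kb Kf d a cw μ ρc) pB WB (nS + nF) Cm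
      cw a μ th lf cρ ce cm)
    (h3 : ∀ M2, Rem M M2 (S ∪ F) → IsMed (H0T d L) Y π2 v M2 →
      RCls M M2 M2.nr c P.s5 (tRf f u * (μ / a)) (ε1 + 2 * (ε + ε2)) (8 * (q1 + 8 * (q + q2)))
        (2 * (W1 + 4 * (2 * (W + W2)))) (K1 + kTot f u nF Kb Kf d a cw μ ρc) →
      H3C P Sf n s Fd c π2 v M2) :
    ∃ M2, Rem M M2 (S ∪ F) ∧ IsMed (H0T d L) Y π2 v M2 ∧
      RCls M M2 M2.nr c P.s5 (tRf f u * (μ / a)) (ε1 + 2 * (ε + ε2)) (8 * (q1 + 8 * (q + q2)))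
        (2 * (W1 + 4 * (2 * (W + W2)))) (K1 + kTot f u nF Kb Kf d a cw μ ρc) ∧
      Good f (tolAt P Sf n (Fd.ins P n s 1 {c}) π2 v M2) M2 := by
  have hC1 := h.good.C1_pos h.tin h.num
  have hcc1 := h.num.c1
  have hμ := hw.μ0
  have ha : (0 : ℝ) < a := by exact_mod_cast hw.a1
  have hSU : Disjoint S M.U := by rw [h.med.U]; exact hSr
  have hFU1 : Disjoint F M1.U := by rw [hM1.U]; exact hFr
  have hFU : Disjoint F M.U := by
    rw [hR1.U, Finset.disjoint_union_right] at hFU1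
    exact hFU1.1
  have hk0 : 0 ≤ P.kap n := h.num.kl.le.trans h.num.klk
  have heta : 0 ≤ P.eta := h.num.eta.le
  have heS : 0 ≤ P.eta + P.kap n * f.C1 := by positivity
  have hnF0 : 0 ≤ nF := (Nat.cast_nonneg _).trans hnF
  have hnS0 : 0 ≤ nS := (Nat.cast_nonneg _).trans hnS
  have hs0 : 0 ≤ f.s := by rw [← h.bas.hs5]; exact h.bas.s50
  have hr00 : 0 < f.r0 := by linarith [h.bas.r0]
  have hε10 : 0 ≤ ε1 := hc1.ε0
  have hCV : 0 ≤ u.Lam * f.r0 ^ P.s5 + u.C2 + ε1 := by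
    have := h.bas.Lam0
    have := h.bas.C20
    positivity
  have hτV : 0 ≤ 8 * (u.tau + q1) := by
    have := h.bas.tau0
    positivity
  have hb1 : BasN f t1 u P.s5 :=
    ⟨ht1k, h.bas.rho0, h.bas.rho, h.bas.hs5, h.bas.s50, h.bas.r0, h.bas.Lam0, h.bas.C20,
      h.bas.tau0⟩
  have hw1 : Wts f t1 M1 F D a cw μ := hw.next hR1 ht1l ht1s
  have hin := contIn_of hM1 hg1 hi1 hN1 hb1 hp2 hlv hFr h.av hgeo hlev hMl hCV hτV
    (hc1.om h.good h.tin h.bas.hs5 h.bas.s50 h.bas.r0 h.bas.Lam0 h.bas.C20)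
    (hc1.fourV hR1 h.good h.tin) hw1
  have hraw := cont_in hin (n1.le hm hMl hCV hτV hcc1 hμ)
  have n3' : RfNum f t1 u P.s5 ε q W ρ Kb ε2 q2 W2 a l := n3.congr ht1l
  have hX0 : (M1.nr \ F).Nonempty := by
    obtain ⟨x, hx1, hx2, hx3⟩ := hne
    refine ⟨x, Finset.mem_sdiff.2 ⟨mem_nr.2 ?_, hx3⟩⟩
    rw [hR1.U, Finset.mem_union, not_or]
    exact ⟨hx1, hx2⟩
  obtain ⟨M2, hR2, hmed, hcls⟩ := rem_final hraw hF hX0 hw1 n2 n3' (c := c) (ρc := ρc)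
    (fun z hz => by exact_mod_cast hc z (Finset.mem_union_right _ hz))
  have hR := hR1.comp hR2
  have hKf : 0 ≤ Kf := by
    obtain ⟨x, hx⟩ := hX0
    exact hraw.cls.Kf0 hx
  have hsum : 0 ≤ sumC d 0 (μ / a) := ANF.Heat.sumC_nonneg d 0 (div_pos hμ ha)
  have hcls' : RCls M1 M2 (M1.nr \ F) c P.s5 (tRf f u * (μ / a)) (ε + ε2) (8 * (q + q2))
      (2 * (W + W2)) (kTot f u nF Kb Kf d a cw μ ρc) := by
    refine hcls.mono le_rfl le_rfl le_rfl ?_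
    unfold kTot
    have h1 := kRf_mono (f := f) (u := u) (Kb := Kb) (Kf := Kf) (d := d) (a := a) (cw := cw)
      (μ := μ) hnF hC1.le (by linarith [n3.Kb1]) hKf hsum
    have h2 := Real.exp_pos (tRf f u * (μ / a) * ρc)
    gcongr
  have htot := RCls.comp hR1 hR2 h.good h.tin h.num hε1 (by rw [hR2.nr']) hc1 hcls'
  have hmed2 : IsMed (H0T d L) Y π2 v M2 := hmed X Y π1 π2 v hM1 hp2 fun x hx => if_pos hx
  refine ⟨M2, hR, hmed2, htot, ?_⟩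
  have hpB0 : 0 ≤ pB := le_trans (by positivity) hpB
  have heS' : ∀ y ∈ S, M.eta y ≤ P.eta + P.kap n * f.C1 := fun y hy =>
    eta_AI h.good h.tin h.num (by
      rcases hact y hy with h' | h'
      · left; rw [h.med.A]; exact h'
      · right; rw [h.med.I]; exact h')
  have hbd : ∀ x ∈ M2.nr, ∑ y ∈ S ∪ F, ‖rsc (H0T d L) M.b x y‖ ^ 2 * M.eta y ≤ pB := by
    intro x hx
    have hx2 := hR.nB (mem_nr.1 hx)
    rw [Finset.mem_union, not_or] at hx2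
    have h5 := pB_bound (S := S) (F := F) h.good h.tin h.num hSU hFU heS heS' h.bas.Lam0
      h.bas.C20 hs0 hR0 (hr00.trans_le hR0) hx2.1 (hdist x hx2.1 hx2.2.1 hx2.2.2)
    refine h5.trans (le_trans ?_ hpB)
    gcongr
  have hbW : ∑ y ∈ S ∪ F, M.eta y * (rsc (H0T d L) M.b y y).im ≤ WB := by
    have h5 := WB_bound (S := S) (F := F) h.good h.tin h.num hSU hFU heS heS'
    refine h5.trans (le_trans ?_ hWB)
    gcongr
  exact rem_good0 hd h.good h.tin h.num hR htot (Finset.Subset.refl _) hw n4.rn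
    (by
      have h5 : 0 ≤ μ / a := by positivity
      nlinarith)
    h.fdn.cl h.fdn.et1 h.fdn.et0 (fun x _ => h.fdn.e1 x) h.bas.k1 h.bas.s50
    (fun y hy => (hc y hy).trans hρ) h.bas.Lam0 hpB0 hbd hbW n4.nr hL
    (by
      have h5 : ((S ∪ F).card : ℝ) ≤ S.card + F.card := by
        exact_mod_cast Finset.card_union_le S F
      linarith)
    h.fdn.C h.fdn.dl (h3 M2 hR hmed2 htot)

end Pool.Agent.ANI
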