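import Pool.Agent.ANI.InsLe
import Pool.Agent.ANI.RemDec

/-! # ANI INSSHIFT: from the centre of the cluster to the corner of the cell (helper75)

`good_shift` : the new medium is good with the fields `Fd.ins P n s 1 {c}` (corner `c`) if it is good with
`Fd.ins P.b4 n s' 1 {c'}` (centre `c'`, `s = 2 s'`).
-/

open Matrix Finset

noncomputable section

namespace Pool.Agent.ANI

open Pool.Agent.Kin Pool.Agent.APS Pool.Agent.AND Pool.Agent.ANL Pool.Agent.ANM

variable {d L : ℕ} [NeZero L] {M M' : Med (Tor d L)} {B : Finset (Tor d L)}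
  {f : Fix} {t : Tol d L} {u : UTol}

theorem b4_pos {P : Par} (hP : P.Pos) : P.b4.Pos where
  kap := hP.kap
  anti := hP.anti
  b := by
    have := hP.b
    show 0 ≤ 4 * P.b
    positivity
  eta := hP.eta
  cl := hP.cl
  cs := hP.cs
  D0 := hP.D0
  CD := hP.CD
  C00 := hP.C00
  e0 := hP.e0
  Ce := hP.Ce
  dS := hP.dS
  Cz := hP.Cz

theorem good_shift {X : Type} {Sf : SiteF X} {P : Par} (hP : P.Pos) (hS : Sf.Pos) {n s s' : ℕ}
    {Fd : Fld (Tor d L)} (hF : Fd.Pos) {π' : Prof (Tor d L)} {v : Tor d L → X}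
    (h : ShNum (P.kap n) P.vi P.vt P.b P.s5 s s') {c c' : Tor d L} (hc : ANP.dT c' c ≤ s)
    (hR : Rem M M' B) (hg : Good f t M) (hi : t.In f M u) (hN : Num f t u)
    (hG : Good f (tolAt P.b4 Sf n (Fd.ins P.b4 n s' 1 {c'}) π' v M') M') :
    Good f (tolAt P Sf n (Fd.ins P n s 1 {c}) π' v M') M' := by
  have hadm := hR.adm' hg hi hN
  have hle : (Fd.ins P.b4 n s' 1 {c'}).Le (Fd.ins P n s 1 {c}) := ins_b4_le hP.eta h hc
  have hF' : (Fd.ins P.b4 n s' 1 {c'}).Pos := hF.mono (Fld.le_ins (b4_pos hP) n s' 1 Fd {c'})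
  have hio : ∀ x, x ∉ M'.U → 0 ≤ (rsc (H0T d L) M'.b x x).im := fun x hx => (hR.pos x hx).le
  have he : ∀ x, 0 ≤ M'.eta x := fun x => by
    have := hadm.im x
    unfold Med.eta
    linarith
  have hG' : Good f (tolAt P Sf n (Fd.ins P.b4 n s' 1 {c'}) π' v M') M' := hG
  exact hG'.mono (tolAt_le_fld hP hS hF' hle f n π' v hG' hio he)
    fun x hx => mul_nonneg (he x) (hio x hx)

end Pool.Agent.ANI
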