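import Pool.Agent.ANI.RemEx
import Pool.Agent.AND.LocGood
import Pool.Agent.ANF.Heat.WPoin

/-! # ANI WTS: weights, distances and decay for the removal of the sites of `B` (helper75)

* `dB B x` : distance to the nonempty set `B`; `dB_sum` : `∑_x e^{-ν dB x} ≤ |B| sumC`.
* `Wts` : pieces (`CP`) containing all read sites before and after and all inert sites.
* `Wts.wfam`, `Wts.wgt` : the weights for the raw medium: `WFam`, and one weight `w` with
  `w ≤ μ dB`, `(μ/a) dB - μ cw/a ≤ w`.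
* `dec_act` : `|G_xz| ≤ Kd e^{-(μ/a) |x-z|}` for `z` active, `x` not read.
-/

open Matrix Finset

noncomputable section

namespace Pool.Agent.ANI

open Pool.Agent.Kin Pool.Agent.APS Pool.Agent.AND Pool.Agent.ANL Pool.Agent.ANM

variable {d L : ℕ} [NeZero L]

/-- distance to a finite set (0 if empty) -/
def dB (B : Finset (Tor d L)) (x : Tor d L) : ℝ :=
  if h : B.Nonempty then ((B.inf' h fun z => ANP.dT x z : ℕ) : ℝ) else 0

theorem dB_nonneg (B : Finset (Tor d L)) (x : Tor d L) : 0 ≤ dB B x := by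
  unfold dB
  split_ifs
  · exact Nat.cast_nonneg _
  · exact le_rfl

theorem dB_le {B : Finset (Tor d L)} {z : Tor d L} (hz : z ∈ B) (x : Tor d L) :
    dB B x ≤ ANP.dT x z := by
  unfold dB
  rw [dif_pos ⟨z, hz⟩]
  exact_mod_cast Finset.inf'_le _ hz

theorem exists_dB {B : Finset (Tor d L)} (hB : B.Nonempty) (x : Tor d L) :
    ∃ z ∈ B, dB B x = ANP.dT x z := by
  obtain ⟨z, hz, h⟩ := Finset.exists_mem_eq_inf' hB fun z => ANP.dT x z
  refine ⟨z, hz, ?_⟩
  unfold dB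
  rw [dif_pos hB, h]

theorem dB_ge {B : Finset (Tor d L)} (hB : B.Nonempty) {c : Tor d L} {ρ0 : ℝ}
    (h : ∀ z ∈ B, (ANP.dT z c : ℝ) ≤ ρ0) (x : Tor d L) : dc c x - ρ0 ≤ dB B x := by
  obtain ⟨z, hz, h1⟩ := exists_dB hB x
  rw [h1]
  unfold dc
  have h2 : (ANP.dT x c : ℝ) ≤ ANP.dT x z + ANP.dT z c := by
    exact_mod_cast ANP.nmet_dT.tri x z c
  have := h z hz
  linarith

theorem dB_sum {B : Finset (Tor d L)} (hB : B.Nonempty) {ν : ℝ} (h0 : 0 < ν) (h1 : ν ≤ 1) :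
    ∑ x, Real.exp (-(ν * dB B x)) ≤ B.card * sumC d 0 ν := by
  calc ∑ x, Real.exp (-(ν * dB B x)) ≤ ∑ x : Tor d L, ∑ z ∈ B, Real.exp (-(ν * ANP.dT x z)) := by
        refine Finset.sum_le_sum fun x _ => ?_
        obtain ⟨z, hz, h2⟩ := exists_dB hB x
        rw [h2]
        exact Finset.single_le_sum (f := fun z => Real.exp (-(ν * ANP.dT x z)))
          (fun z _ => (Real.exp_pos _).le) hz
    _ = ∑ z ∈ B, ∑ x : Tor d L, Real.exp (-(ν * ANP.dT x z)) := Finset.sum_comm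
    _ ≤ ∑ z ∈ B, sumC d 0 ν := Finset.sum_le_sum fun z _ => ANF.Heat.sum_exp_dT z h0 h1
    _ = _ := by rw [Finset.sum_const, nsmul_eq_mul]

/-- pieces containing all read sites (before and after) and all inert sites -/
structure Wts (f : Fix) (t : Tol d L) (M : Med (Tor d L)) (B : Finset (Tor d L)) {κ : Type*}
    (D : κ → Set (Tor d L)) (a cw : ℕ) (μ : ℝ) : Prop where
  cp : CP (td : Tor d L → Tor d L → ℕ) D a cw
  U : ∀ x ∈ M.U, ∃ k, x ∈ D k
  I : ∀ x ∈ M.I, ∃ k, x ∈ D k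
  B : ∀ x ∈ B, ∃ k, x ∈ D k
  a1 : 1 ≤ a
  μ0 : 0 < μ
  μ1 : μ ≤ 1
  m1 : 8 * d * μ ≤ t.kl * f.c1
  m2 : 8 * d * μ ≤ t.st

variable {f : Fix} {t : Tol d L} {u : UTol} {M : Med (Tor d L)} {B : Finset (Tor d L)}
  {bt : Tor d L → ℂ} {X0 : Finset (Tor d L)} {δ : Tor d L → ℝ} {s5 ν ε q W Kf : ℝ}
  {κ : Type*} {D : κ → Set (Tor d L)} {a cw : ℕ} {μ : ℝ}

/-- lower bound of the absorption off the pieces -/
theorem Wts.eta (hw : Wts f t M B D a cw μ) (hg : Good f t M) (hi : t.In f M u)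
    (hN : Num f t u) {x : Tor d L} (hx : ∀ k, x ∉ D k) : 8 * d * μ ≤ M.eta x := by
  have hxU : x ∉ M.U := fun h => by
    obtain ⟨k, hk⟩ := hw.U x h
    exact hx k hk
  have hxI : x ∉ M.I := fun h => by
    obtain ⟨k, hk⟩ := hw.I x h
    exact hx k hk
  by_cases hA : x ∈ M.A
  · have h1 := hg.eta_act hi hN hA
    have := hw.m1
    have := hN.eta
    linarith
  · have h1 := hg.eS x hA hxU hxI
    have := hw.m2
    have := hN.eta
    linarith

theorem Wts.etat (hw : Wts f t M B D a cw μ) (h : RawIn f t u M B bt X0 δ s5 ν ε q W Kf)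
    {x : Tor d L} (hx : ∀ k, x ∉ D k) : 8 * d * μ ≤ -(bt x).im := by
  have hB : x ∉ B := fun hB => by
    obtain ⟨k, hk⟩ := hw.B x hB
    exact hx k hk
  rw [h.off x hB]
  exact hw.eta h.good h.tin h.num hx

theorem Wts.wfam (hw : Wts f t M B D a cw μ) (h : RawIn f t u M B bt X0 δ s5 ν ε q W Kf) :
    ∃ φ : Tor d L → Tor d L → ℝ, WFam (H0T d L) bt (M.nr \ B) φ (a / (2 * μ)) cw d := by
  obtain ⟨φ, h1, -⟩ := exists_wfam hw.cp (b := bt) (X := M.nr \ B) (μ := μ) (ηm := 8 * d * μ)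
    hw.μ0 hw.μ1 (fun x => by linarith [h.adm.im x]) (fun x hx => hw.etat h hx) le_rfl
    (fun x hx => by
      by_cases hB : x ∈ B
      · exact hw.B x hB
      · refine hw.U x ?_
        by_contra hc
        exact hx (Finset.mem_sdiff.2 ⟨mem_nr.2 hc, hB⟩))
  exact ⟨_, h1⟩

/-- a function with steps at most one is 1-Lipschitz -/
theorem lip_td {φ : Tor d L → ℕ} (h : ∀ x y, td x y ≤ 1 → φ x ≤ φ y + 1) (n : ℕ) :
    ∀ x y, td x y ≤ n → φ x ≤ φ y + n := by
  induction n with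
  | zero =>
    intro x y hxy
    have := td_sep x y (Nat.le_zero.1 hxy)
    rw [this]; omega
  | succ n ih =>
    intro x y hxy
    obtain ⟨z, h1, h2⟩ := td_geo x y n 1 hxy
    have e1 := ih x z h1
    have e2 := h z y h2
    omega

theorem Wts.wgt (hw : Wts f t M B D a cw μ) (h : RawIn f t u M B bt X0 δ s5 ν ε q W Kf)
    (hB : B.Nonempty) :
    ∃ w : Tor d L → ℝ, AdmW (H0T d L) bt w ∧ (∀ x, w x ≤ μ * dB B x) ∧
      ∀ x, μ / a * dB B x - μ * cw / a ≤ w x := by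
  obtain ⟨φ, h1, h2, h3, h4, h5⟩ := phi_cp td_met hw.cp td_geo td_sep (B : Set (Tor d L))
    (by obtain ⟨z, hz⟩ := hB; exact ⟨z, hz⟩)
  refine ⟨fun x => μ * φ x, ?_, ?_, ?_⟩
  · refine admW_torus (F := {x | ∃ k, x ∈ D k}) (ηm := 8 * d * μ) hw.μ0.le hw.μ1 h2 ?_
      (fun x => by linarith [h.adm.im x]) ?_ le_rfl
    · rintro x ⟨k, hk⟩ y hxy
      exact h4 x y hxy ⟨k, Or.inl hk⟩
    · intro x hx
      exact hw.etat h fun k hk => hx ⟨k, hk⟩
  · intro x
    obtain ⟨z, hz, e1⟩ := exists_dB hB x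
    rw [e1]
    have e2 := lip_td h2 (td x z) x z le_rfl
    rw [h1 z (by exact_mod_cast hz), zero_add] at e2
    have e3 : (φ x : ℝ) ≤ ANP.dT x z := by exact_mod_cast e2
    exact mul_le_mul_of_nonneg_left e3 hw.μ0.le
  · intro x
    obtain ⟨z, hz, e1⟩ := h5 x
    have e2 := dB_le (B := B) (by exact_mod_cast hz) x
    have e3 : (ANP.dT x z : ℝ) ≤ a * φ x + cw := by
      rw [ANP.nmet_dT.symm x z]
      exact_mod_cast e1
    have ha : (0 : ℝ) < a := by exact_mod_cast hw.a1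
    have e4 : μ / a * dB B x - μ * cw / a = μ / a * (dB B x - cw) := by ring
    rw [e4]
    calc μ / a * (dB B x - cw) ≤ μ / a * (a * φ x) := by
          have := hw.μ0
          gcongr
          linarith
      _ = μ * φ x := by field_simp

/-- decay of the entries of a good medium at an active site -/
theorem dec_act (hw : Wts f t M B D a cw μ) (hg : Good f t M) (hi : t.In f M u)
    (hN : Num f t u) {x z : Tor d L} (hx : x ∉ M.U) (hz : z ∈ M.A) :
    ‖rsc (H0T d L) M.b x z‖ ≤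
      √(2 * f.C1 / (t.kl * f.c1)) * Real.exp (μ * cw / a) *
        Real.exp (-(μ / a * ANP.dT x z)) := by
  have hW := hasW_good hg hi hN hw.cp hw.U hw.I hw.μ0.le hw.μ1 hw.m1 hw.m2
  have h1 := dec_good hg hi hN hw.a1 hw.μ0.le hW hx z
  have h2 := hg.eta_act hi hN hz
  have hk : 0 < t.kl * f.c1 := mul_pos hN.kl hN.c1
  have h3 : t.kl * f.c1 ≤ M.eta z := by
    have := hN.eta
    linarith
  have hC1 := hg.C1_pos hi hN
  have h4 : ‖rsc (H0T d L) M.b x z‖ ^ 2 ≤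
      (√(2 * f.C1 / (t.kl * f.c1)) * Real.exp (μ * cw / a) *
        Real.exp (-(μ / a * ANP.dT x z))) ^ 2 := by
    rw [mul_pow, mul_pow, Real.sq_sqrt (by positivity), ← Real.exp_nat_mul, ← Real.exp_nat_mul]
    have e1 : ((2 : ℕ) : ℝ) * (μ * cw / a) = 2 * μ * cw / a := by push_cast; ring
    have e2 : ((2 : ℕ) : ℝ) * (-(μ / a * ANP.dT x z)) = -(2 * μ * td x z / a) := by
      push_cast
      show _ = -(2 * μ * (ANP.dT x z : ℝ) / a)
      ring
    rw [e1, e2]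
    have h5 : t.kl * f.c1 * ‖rsc (H0T d L) M.b x z‖ ^ 2 ≤
        2 * f.C1 * (Real.exp (2 * μ * cw / a) * Real.exp (-(2 * μ * td x z / a))) :=
      (mul_le_mul_of_nonneg_right h3 (sq_nonneg _)).trans h1
    rw [div_mul_eq_mul_div, div_mul_eq_mul_div, le_div_iff₀ hk]
    linarith
  exact (abs_le_of_sq_le_sq' h4 (by positivity)).2

end Pool.Agent.ANI
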