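import Pool.Agent.ANI.RemH3
import Pool.Agent.ANI.Wts
import Pool.Agent.ANM.LocRow

/-! # ANI REMH3G (R2 of helper75; helper15): the hypotheses of `rem_h3_tolAt` from a good medium

* `Rem.admN` : the new medium is admissible.
* `H3H.of_good` : `Good f t M`, `Wts f t M B D a cw μ` (pieces covering the read sites before and after and the inert sites),
  `Rem M M' B`, `RCls`, `2 ε ≤ c1`, `ν a ≤ μ` give `H3H` with `c1 / 2`, `Kw = 4 C1 exp (μ cw / a)`, `Sν = sumC d 0 ν`.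
* `rem_h3_good` : the field `h3` of `Good f (tolAt P Sf n (F.ins P n s m {c}) π' v M') M'`. -/

open Matrix Finset

noncomputable section

namespace Pool.Agent.ANI

open Pool.Agent.Kin Pool.Agent.APS Pool.Agent.AND Pool.Agent.ANL Pool.Agent.ANM

variable {d L : ℕ} [NeZero L] {f : Fix} {t : Tol d L} {u : UTol} {M M' : Med (Tor d L)}
  {B : Finset (Tor d L)}

/-- the new absorption is nonnegative -/
theorem Rem.eta_nn (hr : Rem M M' B) (hG : Good f t M) (hI : t.In f M u) (hN : Num f t u)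
    (x : Tor d L) : (M'.b x).im ≤ 0 := by
  by_cases hB : x ∈ B
  · exact (hr.bB x hB).le
  · by_cases hU : x ∈ M.U
    · rw [hr.bU x hU]
      exact (hG.im_zero hU).le
    · have h1 := hr.eta hB
      have hx' : x ∉ M'.U := by
        rw [hr.U, Finset.mem_union]
        exact fun h => h.elim hU hB
      have h2 : 0 ≤ M'.eta x := by
        by_cases hA : x ∈ M.A
        · have h3 := hG.eA x hA
          have h4 := hr.pos x hx'
          have h5 := hG.k_nonneg hN x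
          have h6 := hN.eta
          nlinarith [mul_nonneg h5 h4.le]
        · rw [hG.k0 x hA, zero_mul, add_zero] at h1
          rw [h1]
          exact (hG.eta_pos hI hN hU).le
      unfold Med.eta at h2
      linarith

theorem Rem.admN (hr : Rem M M' B) (hG : Good f t M) (hI : t.In f M u) (hN : Num f t u) :
    ANL.Adm (H0T d L) M'.b :=
  ⟨(hG.admN hI hN).sym, hr.eta_nn hG hI hN, hr.unit⟩

/-- comparison of the absorptions -/
theorem Rem.eta_le (hr : Rem M M' B) (hG : Good f t M) (hI : t.In f M u) (hN : Num f t u)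
    {x : Tor d L} (hx : x ∉ M'.U)
    (hd : 2 * ‖rsc (H0T d L) M'.b x x - rsc (H0T d L) M.b x x‖ ≤ f.c1) :
    M.eta x ≤ 2 * M'.eta x := by
  have hxB := (hr.nB hx).2
  have hxU := (hr.nB hx).1
  have h1 := hr.eta hxB
  have h2 := Complex.abs_im_le_norm (rsc (H0T d L) M'.b x x - rsc (H0T d L) M.b x x)
  rw [Complex.sub_im] at h2
  have h3 := (abs_le.1 h2).1
  have h4 := hG.io_ge hI hN hxU
  have h5 := hG.k_nonneg hN x
  have h6 := hN.eta
  have h7 : 0 ≤ M'.eta x := by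
    have := hr.eta_nn hG hI hN x
    unfold Med.eta
    linarith
  by_cases hA : x ∈ M.A
  · have h8 := hG.eA x hA
    have h9 : M.k x * (rsc (H0T d L) M.b x x).im ≤
        2 * (M.k x * (rsc (H0T d L) M'.b x x).im) := by
      have := mul_le_mul_of_nonneg_left (show (rsc (H0T d L) M.b x x).im ≤
        2 * (rsc (H0T d L) M'.b x x).im by linarith) h5
      linarith
    nlinarith
  · rw [hG.k0 x hA, zero_mul, add_zero] at h1
    linarith

variable {κ : Type*} {D : κ → Set (Tor d L)} {a cw : ℕ} {μ : ℝ} {X0 : Finset (Tor d L)}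
  {c : Tor d L} {s5 ν ε q W Kf ρ0 : ℝ}

/-- weighted Ward sums from the Agmon weights -/
theorem row_wgt {b : Tor d L → ℂ} (hb : ANL.Adm (H0T d L) b) (ha : 1 ≤ a) (hμ : 0 ≤ μ)
    {F : Set (Tor d L)} (hw : HasW b F μ a cw) (hν : ν * a ≤ 2 * μ) {C : ℝ} (x : Tor d L)
    (hx : ‖rsc (H0T d L) b x x‖ ≤ C) (X : Finset (Tor d L)) :
    ∑ y ∈ X, -(b y).im * ‖rsc (H0T d L) b x y‖ ^ 2 * Real.exp (ν * ANP.dT x y) ≤
      2 * C * Real.exp (2 * μ * cw / a) := by
  have ha' : (0 : ℝ) < a := by exact_mod_cast ha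
  have hd : Diss (H0T d L) b := ⟨hb.sym, hb.im, hb.unit⟩
  have h1 := dec_row hd ha hμ hw x
  have h2 : ∑ y ∈ X, -(b y).im * ‖rsc (H0T d L) b x y‖ ^ 2 * Real.exp (ν * ANP.dT x y) ≤
      ∑ y, -(b y).im * (Real.exp (2 * μ * td x y / a) * ‖rsc (H0T d L) b x y‖ ^ 2) := by
    refine (Finset.sum_le_sum fun y _ => ?_).trans
      (Finset.sum_le_sum_of_subset_of_nonneg (Finset.subset_univ X) fun y _ _ => ?_)
    · have e1 : Real.exp (ν * ANP.dT x y) ≤ Real.exp (2 * μ * td x y / a) := by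
        refine Real.exp_le_exp.2 ?_
        rw [le_div_iff₀ ha']
        have e0 : (ANP.dT x y : ℝ) = (td x y : ℝ) := rfl
        have := mul_le_mul_of_nonneg_right hν (Nat.cast_nonneg (α := ℝ) (td x y))
        rw [e0]
        linarith
      have e2 : 0 ≤ -(b y).im * ‖rsc (H0T d L) b x y‖ ^ 2 :=
        mul_nonneg (by linarith [hb.im y]) (sq_nonneg _)
      have e3 := mul_le_mul_of_nonneg_left e1 e2
      linarith
    · exact mul_nonneg (by linarith [hb.im y]) (by positivity)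
  refine h2.trans (h1.trans ?_)
  have h3 := Real.exp_pos (2 * μ * cw / a)
  nlinarith

/-- THE HYPOTHESES from a good medium -/
theorem H3H.of_good (hG : Good f t M) (hI : t.In f M u) (hN : Num f t u)
    (hw : Wts f t M B D a cw μ) (hr : Rem M M' B) (hX : M'.nr ⊆ X0)
    (hc : RCls M M' X0 c s5 ν ε q W Kf) (hε : 2 * ε ≤ f.c1) (hν : 0 < ν) (hν1 : ν ≤ 1)
    (hνμ : ν * a ≤ μ) (hB : ∀ y ∈ B, (ANP.dT y c : ℝ) ≤ ρ0) :
    H3H M M' B c s5 ν ε q W Kf (f.c1 / 2) (4 * f.C1 * Real.exp (μ * cw / a)) (sumC d 0 ν) ρ0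
      t.eta := by
  have ha : (0 : ℝ) < a := by exact_mod_cast hw.a1
  have hC := hG.C1_pos hI hN
  have hc1 := hN.c1
  have hε0 := hc.ε0
  have hdy : ∀ x, x ∉ M'.U → ‖rsc (H0T d L) M'.b x x - rsc (H0T d L) M.b x x‖ ≤ ε := by
    intro x hx
    have hx0 : x ∈ X0 := hX (mem_nr.2 hx)
    have h1 := hc.rel x hx0 x hx0
    rwa [om5_self, mul_one] at h1
  have hee : ∀ x, x ∉ M'.U → M.eta x ≤ 2 * M'.eta x := fun x hx =>
    hr.eta_le hG hI hN hx (by linarith [hdy x hx])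
  have hadm := hG.admN hI hN
  have hadm' := hr.admN hG hI hN
  have hgam : ∀ x, x ∉ M'.U → ‖rsc (H0T d L) M'.b x x‖ ≤ 2 * f.C1 := by
    intro x hx
    have h1 := hG.gam_le hI hN (hr.nB hx).1
    have h2 := hdy x hx
    have h3 := norm_add_le (rsc (H0T d L) M'.b x x - rsc (H0T d L) M.b x x)
      (rsc (H0T d L) M.b x x)
    rw [sub_add_cancel] at h3
    have h4 := (hG.io_ge hI hN (hr.nB hx).1).trans (hG.io_le hI hN (hr.nB hx).1)
    linarith
  have hμ2 : 0 ≤ μ / 2 := by linarith [hw.μ0]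
  have hW : HasW M.b {x | ∃ k, x ∈ D k} (μ / 2) a cw := by
    refine hasW_cp hw.cp (ηm := 8 * d * (μ / 2)) hμ2 (by linarith [hw.μ1])
      (fun x => by linarith [hadm.im x]) (fun x hx => ?_) le_rfl
    have h1 := hw.eta hG hI hN hx
    have h2 : (0 : ℝ) ≤ 8 * d * (μ / 2) := by positivity
    unfold Med.eta at h1
    nlinarith
  have hW' : HasW M'.b {x | ∃ k, x ∈ D k} (μ / 2) a cw := by
    refine hasW_cp hw.cp (ηm := 8 * d * (μ / 2)) hμ2 (by linarith [hw.μ1])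
      (fun x => by linarith [hadm'.im x]) (fun x hx => ?_) le_rfl
    have h1 := hw.eta hG hI hN hx
    have hxU : x ∉ M'.U := by
      rw [hr.U, Finset.mem_union]
      rintro (h2 | h2)
      · obtain ⟨k, hk⟩ := hw.U x h2
        exact hx k hk
      · obtain ⟨k, hk⟩ := hw.B x h2
        exact hx k hk
    have h2 := hee x hxU
    unfold Med.eta at h1 h2
    linarith
  have hexp : 2 * (μ / 2) * (cw : ℝ) / a = μ * cw / a := by ring
  refine ⟨hr, hG.AU, hG.AI, hadm, hadm', by linarith, fun y hy => ?_, fun y hy => ?_,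
    hN.eta.le, fun y => hG.k_nonneg hN y, hG.k0, hG.eU, fun y hy => hG.eA y hy, hG.eS1,
    ⟨X0, hX, hc⟩, hν.le, hB, fun x hx => ?_, fun x hx => ?_, ?_⟩
  · have := hG.io_ge hI hN hy
    unfold AND.io
    linarith
  · have h1 := hG.io_ge hI hN (hr.nB hy).1
    have h2 := Complex.abs_im_le_norm (rsc (H0T d L) M'.b y y - rsc (H0T d L) M.b y y)
    rw [Complex.sub_im] at h2
    have h3 := (abs_le.1 (h2.trans (hdy y hy))).1
    unfold AND.io
    linarith
  · have h1 := row_wgt hadm hw.a1 hμ2 hW (ν := ν) (by linarith) x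
      (C := 2 * f.C1) (by linarith [hG.gam_le hI hN (hr.nB hx).1]) M.nr
    rw [hexp] at h1
    unfold Med.eta
    refine h1.trans (le_of_eq ?_)
    ring
  · have h1 := row_wgt hadm' hw.a1 hμ2 hW' (ν := ν) (by linarith) x
      (C := 2 * f.C1) (hgam x hx) M'.nr
    rw [hexp] at h1
    unfold Med.eta
    refine h1.trans (le_of_eq ?_)
    ring
  · refine (Finset.sum_le_univ_sum_of_nonneg fun y => (Real.exp_pos _).le).trans ?_
    exact ANF.Heat.sum_exp_dT c hν hν1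

/-- THE FIELD `h3` of `Good f (tolAt P Sf n (F.ins P n s m {c}) π' v M') M'` after a removal -/
theorem rem_h3_good {X : Type} {P : Par} {Sf : SiteF X} {n s m : ℕ} {F : Fld (Tor d L)}
    {π π' : Prof (Tor d L)} {v : Tor d L → X} (hP : P.Pos) (hS : Sf.Pos) (hF : F.Pos)
    (hG : Good f (tolAt P Sf n F π v M) M) (hI : (tolAt P Sf n F π v M).In f M u)
    (hN : Num f (tolAt P Sf n F π v M) u)
    (hw : Wts f (tolAt P Sf n F π v M) M B D a cw μ) (hr : Rem M M' B)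
    (hlev : ∀ x, x ∉ B → π'.lev x = π.lev x) (hX : M'.nr ⊆ X0)
    (hc : RCls M M' X0 c s5 ν ε q W Kf) (hν : 0 < ν) (hν1 : ν ≤ 1) (hνμ : ν * a ≤ μ)
    (hB : ∀ y ∈ B, (ANP.dT y c : ℝ) ≤ ρ0) {B1 B2 errm bem c3 : ℝ}
    (hn : H3M P n s m ν ε Kf (f.c1 / 2) (4 * f.C1 * Real.exp (μ * cw / a)) (sumC d 0 ν) ρ0
      B1 B2 errm bem c3)
    (herr : ∀ y, y ∉ M.U → F.err y ≤ errm) (hbe : ∀ y, y ∉ M.U → F.be y ≤ bem)
    (hB1 : ∀ K ∈ Sf.Ks n, ∀ y, y ∉ M.U → Sf.phi K (π.lev y) (v y) * AND.io M y ≤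
      Sf.s K * (B1 / P.kap (n + 1) * M.eta y))
    (hB2 : ∀ y, y ∉ M.U → Sf.om (π.lev y) (v y) * AND.io M y ≤
      B2 / P.kap (n + 1) * M.eta y)
    (hI0 : ∀ K ∈ Sf.Ks n, ∀ y ∈ M.I, y ∉ M.A → Sf.phi K (π.lev y) (v y) = 0)
    (hom : ∀ y ∈ M.A, c3 * M.k y ≤
      P.kap (n + 1) * (P.kap n ^ (-P.vp) * Sf.om (π.lev y) (v y))) :
    ∀ K ∈ (tolAt P Sf n (F.ins P n s m {c}) π' v M').Ks, ∀ x, x ∉ M'.U →
      ‖∑ y ∈ M'.A, rsc (H0T d L) M'.b x y ^ 2 *
        ((tolAt P Sf n (F.ins P n s m {c}) π' v M').a K y : ℂ)‖ ≤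
      ∑ y ∈ M'.nr, ‖rsc (H0T d L) M'.b x y‖ ^ 2 *
        (tolAt P Sf n (F.ins P n s m {c}) π' v M').z K y :=
  rem_h3_tolAt hP hS hF hG
    (H3H.of_good hG hI hN hw hr hX hc (by linarith [hn.εc]) hν hν1 hνμ hB) hlev hn herr hbe hB1
    hB2 hI0 hom

end Pool.Agent.ANI
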