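import Pool.Agent.ANI.InsDet
import Pool.Agent.ANI.InsShift
import Pool.Agent.ANI.RemH3G

/-! # ANI INSTOP: THE INSERTION (helper75)

The medium `M` of the profile `π` is good (level `n`, fields `Fd`).  `S` = annulus sites, `F` = content, `c0` = corner (anchor),
`c` = centre (a site of the cluster), `s = 2 s'` = side of the cell.
* `ann_det` : THE ANNULUS STEP: the medium `M1` of `π1` (`ReadP π π1 S`) exists, is good with the fields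
  `Fd.ins P n s 1 {c0}`, and ALL entries between sites not read in `M` are close (`RCls M M1 M.nr ..`).
* `cont_det` : THE CONTENT STEP: if all leverages of `F` in `M1` at the surfaces of the blobs are at most `Ml`, the medium
  `M2` of `π2` (`ReadP π1 π2 F`) exists and is good with the fields `Fd.ins P n s 1 {c0}` (one insertion in total).
-/

open Matrix Finset

noncomputable section

namespace Pool.Agent.ANI

open Pool.Agent.Kin Pool.Agent.APS Pool.Agent.AND Pool.Agent.ANL Pool.Agent.ANM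

variable {d L : ℕ} [NeZero L] {f : Fix} {u : UTol} {X : Type} {Sf : SiteF X} {P : Par}
  {Y : Sys X} {n s s' nf : ℕ} {Fd : Fld (Tor d L)} {π π1 π2 : Prof (Tor d L)}
  {v : Tor d L → X} {M M1 : Med (Tor d L)} {S F : Finset (Tor d L)} {c c0 : Tor d L}
  {κ : Type*} {D : κ → Set (Tor d L)} {a cw : ℕ} {μ : ℝ}

/-- data of (H3): bounds of the fields and of the weights (`B1 = B2 = C/c`, `c3 = 1/4` for the uniform law) -/
structure H3D (P : Par) (Sf : SiteF X) (n : ℕ) (Fd : Fld (Tor d L)) (π : Prof (Tor d L))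
    (v : Tor d L → X) (M : Med (Tor d L)) (B1 B2 errm bem c3 : ℝ) : Prop where
  P0 : P.Pos
  S0 : Sf.Pos
  F0 : Fd.Pos
  err : ∀ y, y ∉ M.U → Fd.err y ≤ errm
  be : ∀ y, y ∉ M.U → Fd.be y ≤ bem
  B1 : ∀ K ∈ Sf.Ks n, ∀ y, y ∉ M.U → Sf.phi K (π.lev y) (v y) * AND.io M y ≤
    Sf.s K * (B1 / P.kap (n + 1) * M.eta y)
  B2 : ∀ y, y ∉ M.U → Sf.om (π.lev y) (v y) * AND.io M y ≤ B2 / P.kap (n + 1) * M.eta y
  I0 : ∀ K ∈ Sf.Ks n, ∀ y ∈ M.I, y ∉ M.A → Sf.phi K (π.lev y) (v y) = 0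
  om : ∀ y ∈ M.A, c3 * M.k y ≤
    P.kap (n + 1) * (P.kap n ^ (-P.vp) * Sf.om (π.lev y) (v y))

/-- all numbers of the goodness after a removal -/
structure TotN (d : ℕ) (f : Fix) (u : UTol) (P : Par) (n s : ℕ) (ν ε q W Kf pB WB nB Cm : ℝ)
    (cw a : ℕ) (μ th l cρ ce cm ρc B1 B2 errm bem c3 : ℝ) : Prop where
  gd : GdNum d f u P n s ν ε q W Kf pB WB nB Cm cw a μ th l cρ ce cm
  h3 : H3M P n s 1 ν ε Kf (f.c1 / 2) (4 * f.C1 * Real.exp (μ * cw / a)) (sumC d 0 ν) ρc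
    B1 B2 errm bem c3

theorem H3D.b4 {B1 B2 errm bem c3 : ℝ} (h : H3D P Sf n Fd π v M B1 B2 errm bem c3) :
    H3D P.b4 Sf n Fd π v M B1 B2 errm bem c3 where
  P0 := b4_pos h.P0
  S0 := h.S0
  F0 := h.F0
  err := h.err
  be := h.be
  B1 := h.B1
  B2 := h.B2
  I0 := h.I0
  om := h.om

theorem InsM.b4 {Cm : ℝ} (h : InsM f P Sf Y n nf Fd π v M u Cm) :
    InsM f P.b4 Sf Y n nf Fd π v M u Cm where
  med := h.med
  good := h.good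
  tin := h.tin
  num := h.num
  bas := h.bas
  fdn := ⟨h.fdn.cl, h.fdn.et1, h.fdn.et0, h.fdn.e1, h.fdn.C, h.fdn.dl⟩
  av := h.av
  eta := h.eta

/-- (H3) from R2 -/
theorem h3C_of {Cm : ℝ} (h : InsM f P Sf Y n nf Fd π v M u Cm) {B1 B2 errm bem c3 : ℝ}
    (h3 : H3D P Sf n Fd π v M B1 B2 errm bem c3) {π' : Prof (Tor d L)} {M' : Med (Tor d L)}
    {B X0 : Finset (Tor d L)} {s5 ν ε q W Kf ρc : ℝ}
    (hw : Wts f (tolAt P Sf n Fd π v M) M B D a cw μ) (hr : Rem M M' B)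
    (hlev : ∀ x, x ∉ B → π'.lev x = π.lev x) (hX : M'.nr ⊆ X0)
    (hc : RCls M M' X0 c s5 ν ε q W Kf) (hν : 0 < ν) (hν1 : ν ≤ 1) (hνμ : ν * a ≤ μ)
    (hB : ∀ y ∈ B, (ANP.dT y c : ℝ) ≤ ρc)
    (hn : H3M P n s 1 ν ε Kf (f.c1 / 2) (4 * f.C1 * Real.exp (μ * cw / a)) (sumC d 0 ν) ρc
      B1 B2 errm bem c3) : H3C P Sf n s Fd c π' v M' :=
  rem_h3_good h3.P0 h3.S0 h3.F0 h.good h.tin h.num hw hr hlev hX hc hν hν1 hνμ hB
    (by exact_mod_cast hn) h3.err h3.be h3.B1 h3.B2 h3.I0 h3.om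

/-- THE ANNULUS STEP -/
theorem ann_det (hd : 3 ≤ d) {Cm : ℝ} (h : InsM f P Sf Y n nf Fd π v M u Cm)
    {B1 B2 errm bem c3 : ℝ} (hH : H3D P Sf n Fd π v M B1 B2 errm bem c3)
    (sh : ShNum (P.kap n) P.vi P.vt P.b P.s5 s s') (hcc : ANP.dT c c0 ≤ s)
    (hp : ReadP π π1 S) (hlv : ∀ x ∈ π1.rd, π1.lev x = nf) (hSr : Disjoint S π.rd)
    (hS : S.Nonempty) (hact : ∀ x ∈ S, x ∈ π.act ∨ x ∈ π.ine) {h1 uu : ℝ}
    (hh : ∀ x ∈ S, |Y.hh nf (v x) - Y.hh (π.lev x) (v x)| ≤ h1) (hh0 : 0 ≤ h1)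
    (huu : h1 + Y.eta + P.kap n * f.C1 ≤ uu) (hw : Wts f (tolAt P Sf n Fd π v M) M S D a cw μ)
    {ρc : ℕ} (hc : ∀ z ∈ S, ANP.dT z c ≤ ρc) (hρ : ρc ≤ s' + s' / 4) (hL : 4 * s' + 1 ≤ L)
    {nS : ℝ} (hnS : (S.card : ℝ) ≤ nS)
    {ε q W Kf K ρ Kb ε2 q2 W2 pB WB th lf cρ ce cm : ℝ} {l : ℕ}
    (n1 : AnnNum f (tolAt P Sf n Fd π v M) u nS uu P.s5 ε q W Kf a cw μ)
    (n2 : ExNum f u ε K (a / (2 * μ)) cw d l)
    (n3 : RfNum f (tolAt P Sf n Fd π v M) u P.s5 ε q W ρ Kb ε2 q2 W2 a l)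
    (hν : 4 * tRf f u ≤ 1)
    (hpB : nS * (u.Lam ^ 2 * (P.eta + P.kap n * f.C1)) ≤ pB)
    (hWB : nS * ((P.eta + P.kap n * f.C1) * f.C1) ≤ WB)
    (n4 : TotN d f u P.b4 n s' (tRf f u * (μ / a)) (ε + ε2) (8 * (q + q2)) (2 * (W + W2))
      (kTot f u nS Kb Kf d a cw μ ρc) pB WB nS Cm cw a μ th lf cρ ce cm ρc B1 B2 errm bem c3) :
    ∃ M1, Rem M M1 S ∧ IsMed (H0T d L) Y π1 v M1 ∧
      RCls M M1 M.nr c P.s5 (tRf f u * (μ / a)) (ε + ε2) (8 * (q + q2)) (2 * (W + W2))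
        (kTot f u nS Kb Kf d a cw μ ρc) ∧
      Good f (tolAt P Sf n (Fd.ins P n s 1 {c0}) π1 v M1) M1 := by
  have hμ := hw.μ0
  have ha : (0 : ℝ) < a := by exact_mod_cast hw.a1
  have ht : 0 < tRf f u := by
    unfold tRf
    have h2 := h.good.C1_pos h.tin h.num
    have h3 := h.num.c1
    have h4 := h.bas.rho0
    positivity
  have hν1 : tRf f u ≤ 1 / 4 := by linarith
  obtain ⟨M1, hR, hmed, hcls, hgood⟩ := ann_det0 hd h.b4 hp hlv hSr hS hact hh hh0 huu hw hc hρ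
    hL hnS n1 n2 n3 hν hpB hWB n4.gd (fun M1 hR1 _ hcl1 => h3C_of h.b4 hH.b4 hw hR1 hp.lev
      hR1.nr_sub hcl1 (by positivity)
      (by
        have h5 : μ / a ≤ 1 := by
          rw [div_le_one ha]
          have : (1 : ℝ) ≤ a := by exact_mod_cast hw.a1
          linarith [hw.μ1]
        have h6 : 0 < μ / a := by positivity
        nlinarith)
      (by
        have e1 : tRf f u * (μ / a) * a = tRf f u * μ := by field_simp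
        rw [e1]
        nlinarith)
      (fun y hy => by exact_mod_cast hc y hy) n4.h3)
  exact ⟨M1, hR, hmed, hcls, good_shift hH.P0 hH.S0 hH.F0 sh hcc hR h.good h.tin h.num hgood⟩

/-- THE CONTENT STEP -/
theorem cont_det (hd : 3 ≤ d) {Cm : ℝ} (h : InsM f P Sf Y n nf Fd π v M u Cm)
    {B1 B2 errm bem c3 : ℝ} (hH : H3D P Sf n Fd π v M B1 B2 errm bem c3)
    (sh : ShNum (P.kap n) P.vi P.vt P.b P.s5 s s') (hcc : ANP.dT c c0 ≤ s)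
    (hp1 : ReadP π π1 S) (hp2 : ReadP π1 π2 F) (hlv : ∀ x ∈ π2.rd, π2.lev x = nf)
    (hSr : Disjoint S π.rd) (hFr : Disjoint F π1.rd) (hF : F.Nonempty)
    (hne : ∃ x, x ∉ M.U ∧ x ∉ S ∧ x ∉ F) (hact : ∀ x ∈ S, x ∈ π.act ∨ x ∈ π.ine)
    (hw : Wts f (tolAt P Sf n Fd π v M) M (S ∪ F) D a cw μ)
    (hR1 : Rem M M1 S) (hM1 : IsMed (H0T d L) Y π1 v M1) {ε1 q1 W1 K1 : ℝ}
    (hc1 : RCls M M1 M.nr c P.s5 (tRf f u * (μ / a)) ε1 q1 W1 K1) (hε1 : 2 * ε1 ≤ f.c1)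
    (hq1 : 0 ≤ q1) {t1 : Tol d L} (ht1k : t1.k ≤ 1) (ht1l : t1.kl = P.cl * P.kap (n + 1))
    (ht1s : t1.st = P.cs * P.kap (n + 1)) (hg1 : Good f t1 M1) (hi1 : t1.In f M1 u)
    (hN1 : Num f t1 u) {m r1 D1 nb : ℕ} {Fb Db : ℕ → Finset (Tor d L)} {ρF Ml : ℝ}
    (hgeo : CGeo M1 F M.nr m Fb Db r1 D1 nb ρF)
    (hlev : ∀ i < m, ∀ y ∈ bdy (H0T d L) (Db i), LevLe (H0T d L) M1.b F y Ml) (hMl : 0 ≤ Ml)
    {R0 : ℝ} (hR0 : f.r0 ≤ R0) (hdist : ∀ x, x ∉ M.U → x ∉ S → x ∉ F → ∀ y ∈ F,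
      R0 ≤ (ANM.td x y : ℝ))
    {ρc : ℕ} (hc : ∀ z ∈ S ∪ F, ANP.dT z c ≤ ρc) (hρ : ρc ≤ s' + s' / 4) (hL : 4 * s' + 1 ≤ L)
    {nS nF : ℝ} (hnS : (S.card : ℝ) ≤ nS) (hnF : (F.card : ℝ) ≤ nF) {m' : ℕ} (hm : m ≤ m')
    {ε q W Kf K ρ Kb ε2 q2 W2 pB WB th lf cρ ce cm : ℝ} {l : ℕ}
    (n1 : ContNum f u m' r1 D1 nb d Ml (u.Lam * f.r0 ^ P.s5 + u.C2 + ε1) (8 * (u.tau + q1)) ρF
      P.s5 ε q W Kf a cw μ)
    (n2 : ExNum f u ε K (a / (2 * μ)) cw d l)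
    (n3 : RfNum f (tolAt P Sf n Fd π v M) u P.s5 ε q W ρ Kb ε2 q2 W2 a l)
    (hν : 4 * tRf f u ≤ 1)
    (hpB : nS * (u.Lam ^ 2 * (P.eta + P.kap n * f.C1)) + nF * (u.C2 * R0 ^ (-f.s)) ^ 2 ≤ pB)
    (hWB : nS * ((P.eta + P.kap n * f.C1) * f.C1) + nF * f.C1 ≤ WB)
    (n4 : TotN d f u P.b4 n s' (tRf f u * (μ / a)) (ε1 + 2 * (ε + ε2))
      (8 * (q1 + 8 * (q + q2))) (2 * (W1 + 4 * (2 * (W + W2))))
      (K1 + kTot f u nF Kb Kf d a cw μ ρc) pB WB (nS + nF) Cm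
      cw a μ th lf cρ ce cm ρc B1 B2 errm bem c3) :
    ∃ M2, Rem M M2 (S ∪ F) ∧ IsMed (H0T d L) Y π2 v M2 ∧
      Good f (tolAt P Sf n (Fd.ins P n s 1 {c0}) π2 v M2) M2 := by
  have hμ := hw.μ0
  have ha : (0 : ℝ) < a := by exact_mod_cast hw.a1
  have ht : 0 < tRf f u := by
    unfold tRf
    have h2 := h.good.C1_pos h.tin h.num
    have h3 := h.num.c1
    have h4 := h.bas.rho0
    positivity
  have hν1 : tRf f u ≤ 1 / 4 := by linarith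
  have hlev' : ∀ x, x ∉ S ∪ F → π2.lev x = π.lev x := (hp1.comp hp2).lev
  obtain ⟨M2, hR, hmed, -, hgood⟩ := cont_det0 hd h.b4 hp2 hlv hSr hFr hF hne hact hw hR1 hM1
    hc1 hε1 hq1 ht1k ht1l ht1s hg1 hi1 hN1 hgeo hlev hMl hR0 hdist hc hρ hL hnS hnF hm n1 n2 n3
    hν hpB hWB n4.gd (fun M2 hR2 _ hcl2 => h3C_of h.b4 hH.b4 hw hR2 hlev'
      (Finset.Subset.refl _) hcl2 (by positivity)
      (by
        have h5 : μ / a ≤ 1 := by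
          rw [div_le_one ha]
          have : (1 : ℝ) ≤ a := by exact_mod_cast hw.a1
          linarith [hw.μ1]
        have h6 : 0 < μ / a := by positivity
        nlinarith)
      (by
        have e1 : tRf f u * (μ / a) * a = tRf f u * μ := by field_simp
        rw [e1]
        nlinarith)
      (fun y hy => by exact_mod_cast hc y hy) n4.h3)
  exact ⟨M2, hR, hmed, good_shift hH.P0 hH.S0 hH.F0 sh hcc hR h.good h.tin h.num hgood⟩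

end Pool.Agent.ANI
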