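import Mathlib

/-! # ANI ROWOBS: observables of a row under a perturbation (helper75)

Pure inequalities for two rows `g, g' : ι → ℂ` (`g y = G_xy`), weights `w ≥ 0` on a finite set `Z`:
`∑ w |g|² ≤ I`, `∑ w |g' - g|² ≤ n`.
* `row_abs`: `|∑ w |g'|² - ∑ w |g|²| ≤ 2 √(I n) + n`.
* `row_sq` : complex weights `c_y` with `|c_y| ≤ w_y`: `‖∑ c g'² - ∑ c g²‖ ≤ 2 √(I n) + n`.
* `row_four`: `(∑ w |g'|⁴)^(1/4) ≤ (∑ w |g|⁴)^(1/4) + (∑ w |g' - g|⁴)^(1/4)` in the form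
  `∑ w |g'|⁴ ≤ (1 + θ)³ ∑ w |g|⁴ + (1 + 1/θ)³ ∑ w |g' - g|⁴`.
* `form_young`: for symmetric kernels, `(1 - θ) Q(u) - (1/θ) E(u) ≤ Q'(u) ≤ (1 + θ) Q(u) + (1 + 1/θ) E(u)`.
-/

open Finset

noncomputable section

namespace Pool.Agent.ANI

variable {ι : Type}

section row

variable {Z : Finset ι} {w : ι → ℝ} {g g' : ι → ℂ} {I n : ℝ}

private lemma cross (hw : ∀ y ∈ Z, 0 ≤ w y) (hI : ∑ y ∈ Z, w y * ‖g y‖ ^ 2 ≤ I)
    (hn : ∑ y ∈ Z, w y * ‖g' y - g y‖ ^ 2 ≤ n) :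
    ∑ y ∈ Z, w y * (‖g y‖ * ‖g' y - g y‖) ≤ √(I * n) := by
  apply Real.le_sqrt_of_sq_le
  have cs := Finset.sum_mul_sq_le_sq_mul_sq Z (fun y => √(w y) * ‖g y‖)
    (fun y => √(w y) * ‖g' y - g y‖)
  have s1 : ∑ y ∈ Z, (√(w y) * ‖g y‖) * (√(w y) * ‖g' y - g y‖) =
      ∑ y ∈ Z, w y * (‖g y‖ * ‖g' y - g y‖) := by
    refine Finset.sum_congr rfl fun y hy => ?_
    calc _ = (√(w y) * √(w y)) * (‖g y‖ * ‖g' y - g y‖) := by ring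
      _ = _ := by rw [Real.mul_self_sqrt (hw y hy)]
  have s2 : ∑ y ∈ Z, (√(w y) * ‖g y‖) ^ 2 = ∑ y ∈ Z, w y * ‖g y‖ ^ 2 :=
    Finset.sum_congr rfl fun y hy => by rw [mul_pow, Real.sq_sqrt (hw y hy)]
  have s3 : ∑ y ∈ Z, (√(w y) * ‖g' y - g y‖) ^ 2 = ∑ y ∈ Z, w y * ‖g' y - g y‖ ^ 2 :=
    Finset.sum_congr rfl fun y hy => by rw [mul_pow, Real.sq_sqrt (hw y hy)]
  rw [s1, s2, s3] at cs
  have h0 : 0 ≤ ∑ y ∈ Z, w y * ‖g y‖ ^ 2 :=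
    Finset.sum_nonneg fun y hy => mul_nonneg (hw y hy) (sq_nonneg _)
  have h1 : 0 ≤ ∑ y ∈ Z, w y * ‖g' y - g y‖ ^ 2 :=
    Finset.sum_nonneg fun y hy => mul_nonneg (hw y hy) (sq_nonneg _)
  exact cs.trans (mul_le_mul hI hn h1 (h0.trans hI))

private lemma base (hw : ∀ y ∈ Z, 0 ≤ w y) (hI : ∑ y ∈ Z, w y * ‖g y‖ ^ 2 ≤ I)
    (hn : ∑ y ∈ Z, w y * ‖g' y - g y‖ ^ 2 ≤ n) :
    ∑ y ∈ Z, w y * (‖g' y - g y‖ * (2 * ‖g y‖ + ‖g' y - g y‖)) ≤ 2 * √(I * n) + n := by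
  have h1 := cross hw hI hn
  have h2 : ∑ y ∈ Z, w y * (‖g' y - g y‖ * (2 * ‖g y‖ + ‖g' y - g y‖)) =
      2 * ∑ y ∈ Z, w y * (‖g y‖ * ‖g' y - g y‖) + ∑ y ∈ Z, w y * ‖g' y - g y‖ ^ 2 := by
    rw [Finset.mul_sum, ← Finset.sum_add_distrib]
    exact Finset.sum_congr rfl fun y _ => by ring
  rw [h2]
  linarith

theorem row_abs (hw : ∀ y ∈ Z, 0 ≤ w y) (hI : ∑ y ∈ Z, w y * ‖g y‖ ^ 2 ≤ I)
    (hn : ∑ y ∈ Z, w y * ‖g' y - g y‖ ^ 2 ≤ n) :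
    |∑ y ∈ Z, w y * ‖g' y‖ ^ 2 - ∑ y ∈ Z, w y * ‖g y‖ ^ 2| ≤ 2 * √(I * n) + n := by
  refine le_trans ?_ (base hw hI hn)
  rw [← Finset.sum_sub_distrib]
  refine (Finset.abs_sum_le_sum_abs _ _).trans (Finset.sum_le_sum fun y hy => ?_)
  rw [← mul_sub, abs_mul, abs_of_nonneg (hw y hy)]
  refine mul_le_mul_of_nonneg_left ?_ (hw y hy)
  have h1 : |‖g' y‖ - ‖g y‖| ≤ ‖g' y - g y‖ := abs_norm_sub_norm_le _ _
  have h2 : ‖g' y‖ ^ 2 - ‖g y‖ ^ 2 = (‖g' y‖ - ‖g y‖) * (‖g' y‖ + ‖g y‖) := by ring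
  have h3 : ‖g' y‖ ≤ ‖g y‖ + ‖g' y - g y‖ := by linarith [(abs_le.1 h1).2]
  rw [h2, abs_mul, abs_of_nonneg (by positivity : 0 ≤ ‖g' y‖ + ‖g y‖)]
  refine mul_le_mul h1 (by linarith) (by positivity) (norm_nonneg _)

theorem row_sq {c : ι → ℂ} (hw : ∀ y ∈ Z, 0 ≤ w y) (hc : ∀ y ∈ Z, ‖c y‖ ≤ w y)
    (hI : ∑ y ∈ Z, w y * ‖g y‖ ^ 2 ≤ I) (hn : ∑ y ∈ Z, w y * ‖g' y - g y‖ ^ 2 ≤ n) :
    ‖∑ y ∈ Z, c y * g' y ^ 2 - ∑ y ∈ Z, c y * g y ^ 2‖ ≤ 2 * √(I * n) + n := by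
  refine le_trans ?_ (base hw hI hn)
  rw [← Finset.sum_sub_distrib]
  refine (norm_sum_le _ _).trans (Finset.sum_le_sum fun y hy => ?_)
  rw [← mul_sub, norm_mul]
  refine mul_le_mul (hc y hy) ?_ (norm_nonneg _) (hw y hy)
  have h2 : g' y ^ 2 - g y ^ 2 = (g' y - g y) * (2 * g y + (g' y - g y)) := by ring
  rw [h2, norm_mul]
  refine mul_le_mul_of_nonneg_left ((norm_add_le _ _).trans ?_) (norm_nonneg _)
  rw [norm_mul, Complex.norm_ofNat]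

/-- `(a + b)⁴ ≤ (1 + θ)³ a⁴ + (1 + 1/θ)³ b⁴` -/
private lemma four_ineq {a b θ : ℝ} (ha : 0 ≤ a) (hb : 0 ≤ b) (hθ : 0 < θ) :
    (a + b) ^ 4 ≤ (1 + θ) ^ 3 * a ^ 4 + (1 + 1 / θ) ^ 3 * b ^ 4 := by
  -- convexity: `(a + b) = (1/(1+θ)) ((1+θ) a) + (θ/(1+θ)) ((1 + 1/θ) b)`
  have hθ1 : 0 < 1 + θ := by linarith
  have hc : ConvexOn ℝ (Set.Ici (0 : ℝ)) (fun x => x ^ 4) := convexOn_pow 4
  have hx : (1 + θ) * a ∈ Set.Ici (0 : ℝ) := Set.mem_Ici.2 (by positivity)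
  have hy : (1 + 1 / θ) * b ∈ Set.Ici (0 : ℝ) := Set.mem_Ici.2 (by positivity)
  have ht1 : 0 ≤ 1 / (1 + θ) := by positivity
  have ht2 : 0 ≤ θ / (1 + θ) := by positivity
  have ht3 : 1 / (1 + θ) + θ / (1 + θ) = 1 := by field_simp
  have h1 := hc.2 hx hy ht1 ht2 ht3
  simp only [smul_eq_mul] at h1
  have e1 : 1 / (1 + θ) * ((1 + θ) * a) + θ / (1 + θ) * ((1 + 1 / θ) * b) = a + b := by
    field_simp
    ring
  have e2 : 1 / (1 + θ) * ((1 + θ) * a) ^ 4 = (1 + θ) ^ 3 * a ^ 4 := by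
    field_simp
  have e3 : θ / (1 + θ) * ((1 + 1 / θ) * b) ^ 4 = (1 + 1 / θ) ^ 3 * b ^ 4 := by
    have : θ / (1 + θ) = (1 + 1 / θ)⁻¹ := by
      field_simp
      ring
    rw [this]
    have h2 : (1 + 1 / θ) ≠ 0 := by positivity
    field_simp
  rw [e1, e2, e3] at h1
  exact h1

theorem row_four (hw : ∀ y ∈ Z, 0 ≤ w y) {θ : ℝ} (hθ : 0 < θ) :
    ∑ y ∈ Z, w y * ‖g' y‖ ^ 4 ≤
      (1 + θ) ^ 3 * ∑ y ∈ Z, w y * ‖g y‖ ^ 4 + (1 + 1 / θ) ^ 3 * ∑ y ∈ Z, w y * ‖g' y - g y‖ ^ 4 := by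
  rw [Finset.mul_sum, Finset.mul_sum, ← Finset.sum_add_distrib]
  refine Finset.sum_le_sum fun y hy => ?_
  have h1 : ‖g' y‖ ≤ ‖g y‖ + ‖g' y - g y‖ := by
    have := norm_add_le (g y) (g' y - g y)
    rwa [add_sub_cancel] at this
  have h2 : ‖g' y‖ ^ 4 ≤ (‖g y‖ + ‖g' y - g y‖) ^ 4 := pow_le_pow_left₀ (norm_nonneg _) h1 4
  have h3 := h2.trans (four_ineq (norm_nonneg (g y)) (norm_nonneg (g' y - g y)) hθ)
  calc w y * ‖g' y‖ ^ 4 ≤ w y * ((1 + θ) ^ 3 * ‖g y‖ ^ 4 + (1 + 1 / θ) ^ 3 * ‖g' y - g y‖ ^ 4) :=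
        mul_le_mul_of_nonneg_left h3 (hw y hy)
    _ = _ := by ring

end row

section form

variable {Z : Finset ι} {e : ι → ℝ} {G G' : ι → ι → ℂ} {u : ι → ℝ} {θ : ℝ}

/-- the form `(1/2) ∑ e_x |G_xy|² e_y (u_x - u_y)²` on `Z` -/
def Fm (Z : Finset ι) (e : ι → ℝ) (G : ι → ι → ℂ) (u : ι → ℝ) : ℝ :=
  (1 / 2) * ∑ x ∈ Z, ∑ y ∈ Z, e x * ‖G x y‖ ^ 2 * e y * (u x - u y) ^ 2

theorem Fm_nonneg (he : ∀ x ∈ Z, 0 ≤ e x) : 0 ≤ Fm Z e G u := by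
  unfold Fm
  refine mul_nonneg (by norm_num) (Finset.sum_nonneg fun x hx => Finset.sum_nonneg fun y hy => ?_)
  have := he x hx
  have := he y hy
  positivity

private lemma young_up {a b θ : ℝ} (hθ : 0 < θ) :
    (a + b) ^ 2 ≤ (1 + θ) * a ^ 2 + (1 + 1 / θ) * b ^ 2 := by
  have h1 : (1 + θ) * a ^ 2 + (1 + 1 / θ) * b ^ 2 - (a + b) ^ 2 = (θ * a - b) ^ 2 / θ := by
    field_simp
    ring
  have h2 : 0 ≤ (θ * a - b) ^ 2 / θ := by positivity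
  linarith

theorem form_up (he : ∀ x ∈ Z, 0 ≤ e x) (hθ : 0 < θ) :
    Fm Z e G' u ≤ (1 + θ) * Fm Z e G u +
      (1 + 1 / θ) * Fm Z e (fun x y => G' x y - G x y) u := by
  unfold Fm
  have h : ∑ x ∈ Z, ∑ y ∈ Z, e x * ‖G' x y‖ ^ 2 * e y * (u x - u y) ^ 2 ≤
      (1 + θ) * ∑ x ∈ Z, ∑ y ∈ Z, e x * ‖G x y‖ ^ 2 * e y * (u x - u y) ^ 2 +
      (1 + 1 / θ) * ∑ x ∈ Z, ∑ y ∈ Z, e x * ‖G' x y - G x y‖ ^ 2 * e y * (u x - u y) ^ 2 := by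
    rw [Finset.mul_sum, Finset.mul_sum, ← Finset.sum_add_distrib]
    refine Finset.sum_le_sum fun x hx => ?_
    rw [Finset.mul_sum, Finset.mul_sum, ← Finset.sum_add_distrib]
    refine Finset.sum_le_sum fun y hy => ?_
    have h1 : ‖G' x y‖ ≤ ‖G x y‖ + ‖G' x y - G x y‖ := by
      have := norm_add_le (G x y) (G' x y - G x y)
      rwa [add_sub_cancel] at this
    have h2 : ‖G' x y‖ ^ 2 ≤ (1 + θ) * ‖G x y‖ ^ 2 + (1 + 1 / θ) * ‖G' x y - G x y‖ ^ 2 :=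
      (pow_le_pow_left₀ (norm_nonneg _) h1 2).trans (young_up hθ)
    have h3 : 0 ≤ e x * e y * (u x - u y) ^ 2 := by
      have := he x hx
      have := he y hy
      positivity
    have h4 := mul_le_mul_of_nonneg_left h2 h3
    calc e x * ‖G' x y‖ ^ 2 * e y * (u x - u y) ^ 2 = e x * e y * (u x - u y) ^ 2 * ‖G' x y‖ ^ 2 := by
          ring
      _ ≤ _ := h4
      _ = _ := by ring
  linarith

theorem form_lo (he : ∀ x ∈ Z, 0 ≤ e x) (hθ : 0 < θ) :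
    (1 - θ) * Fm Z e G u - (1 / θ) * Fm Z e (fun x y => G' x y - G x y) u ≤ Fm Z e G' u := by
  unfold Fm
  have h : (1 - θ) * ∑ x ∈ Z, ∑ y ∈ Z, e x * ‖G x y‖ ^ 2 * e y * (u x - u y) ^ 2 -
      (1 / θ) * ∑ x ∈ Z, ∑ y ∈ Z, e x * ‖G' x y - G x y‖ ^ 2 * e y * (u x - u y) ^ 2 ≤
      ∑ x ∈ Z, ∑ y ∈ Z, e x * ‖G' x y‖ ^ 2 * e y * (u x - u y) ^ 2 := by
    rw [Finset.mul_sum, Finset.mul_sum, ← Finset.sum_sub_distrib]
    refine Finset.sum_le_sum fun x hx => ?_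
    rw [Finset.mul_sum, Finset.mul_sum, ← Finset.sum_sub_distrib]
    refine Finset.sum_le_sum fun y hy => ?_
    have h1 : ‖G x y‖ ≤ ‖G' x y‖ + ‖G' x y - G x y‖ := by
      have := norm_sub_le (G' x y) (G' x y - G x y)
      rwa [sub_sub_cancel] at this
    have h2 : (1 - θ) * ‖G x y‖ ^ 2 - (1 / θ) * ‖G' x y - G x y‖ ^ 2 ≤ ‖G' x y‖ ^ 2 := by
      have ha := norm_nonneg (G x y)
      have hb := norm_nonneg (G' x y - G x y)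
      have hc := norm_nonneg (G' x y)
      set a := ‖G x y‖
      set b := ‖G' x y - G x y‖
      set c := ‖G' x y‖
      rcases le_total a b with hab | hab
      · have h5 : (1 - θ) * a ^ 2 ≤ (1 / θ) * b ^ 2 := by
          have h6 : (1 - θ) ≤ 1 / θ := by
            rw [le_div_iff₀ hθ]
            nlinarith [sq_nonneg (θ - 1)]
          have h7 : a ^ 2 ≤ b ^ 2 := pow_le_pow_left₀ ha hab 2
          have h8 : 0 < 1 / θ := by positivity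
          rcases le_total 0 (1 - θ) with h9 | h9
          · exact (mul_le_mul h6 h7 (sq_nonneg _) h8.le)
          · have : (1 - θ) * a ^ 2 ≤ 0 := mul_nonpos_of_nonpos_of_nonneg h9 (sq_nonneg _)
            have : 0 ≤ 1 / θ * b ^ 2 := by positivity
            linarith
        have : 0 ≤ c ^ 2 := sq_nonneg _
        linarith
      · have h5 : (a - b) ^ 2 ≤ c ^ 2 := pow_le_pow_left₀ (sub_nonneg.2 hab) (by linarith) 2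
        have h6 : (1 - θ) * a ^ 2 - 1 / θ * b ^ 2 ≤ (a - b) ^ 2 := by
          have h7 : (a - b) ^ 2 - ((1 - θ) * a ^ 2 - 1 / θ * b ^ 2) =
              (θ * a - b) ^ 2 / θ + b ^ 2 := by
            field_simp
            ring
          have h8 : 0 ≤ (θ * a - b) ^ 2 / θ + b ^ 2 := by positivity
          linarith
        linarith
    have h3 : 0 ≤ e x * e y * (u x - u y) ^ 2 := by
      have := he x hx
      have := he y hy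
      positivity
    have h4 := mul_le_mul_of_nonneg_left h2 h3
    calc (1 - θ) * (e x * ‖G x y‖ ^ 2 * e y * (u x - u y) ^ 2) -
        1 / θ * (e x * ‖G' x y - G x y‖ ^ 2 * e y * (u x - u y) ^ 2) =
        e x * e y * (u x - u y) ^ 2 * ((1 - θ) * ‖G x y‖ ^ 2 - 1 / θ * ‖G' x y - G x y‖ ^ 2) := by
          ring
      _ ≤ _ := h4
      _ = _ := by ring
  linarith

/-- the form of the difference is bounded by the rows: `(1/2) ∑ e e |D|² (u_x - u_y)² ≤ 2 ∑ e_x n_x (u_x - c)²` -/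
theorem form_diff {D : ι → ι → ℂ} (hD : ∀ x y, ‖D x y‖ = ‖D y x‖) (he : ∀ x ∈ Z, 0 ≤ e x)
    {n : ι → ℝ} (hn : ∀ x ∈ Z, ∑ y ∈ Z, e y * ‖D x y‖ ^ 2 ≤ n x) (c : ℝ) :
    Fm Z e D u ≤ 2 * ∑ x ∈ Z, e x * n x * (u x - c) ^ 2 := by
  unfold Fm
  have h1 : ∑ x ∈ Z, ∑ y ∈ Z, e x * ‖D x y‖ ^ 2 * e y * (u x - u y) ^ 2 ≤
      ∑ x ∈ Z, ∑ y ∈ Z, (2 * (e x * ‖D x y‖ ^ 2 * e y * (u x - c) ^ 2) +
        2 * (e x * ‖D x y‖ ^ 2 * e y * (u y - c) ^ 2)) := by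
    refine Finset.sum_le_sum fun x hx => Finset.sum_le_sum fun y hy => ?_
    have h3 : 0 ≤ e x * ‖D x y‖ ^ 2 * e y := by
      have := he x hx
      have := he y hy
      positivity
    have h2 : (u x - u y) ^ 2 ≤ 2 * (u x - c) ^ 2 + 2 * (u y - c) ^ 2 := by
      nlinarith [sq_nonneg ((u x - c) + (u y - c))]
    have h4 := mul_le_mul_of_nonneg_left h2 h3
    linarith
  have h2 : ∑ x ∈ Z, ∑ y ∈ Z, (2 * (e x * ‖D x y‖ ^ 2 * e y * (u x - c) ^ 2) +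
        2 * (e x * ‖D x y‖ ^ 2 * e y * (u y - c) ^ 2)) =
      4 * ∑ x ∈ Z, e x * (u x - c) ^ 2 * ∑ y ∈ Z, e y * ‖D x y‖ ^ 2 := by
    have e1 : ∑ x ∈ Z, ∑ y ∈ Z, (e x * ‖D x y‖ ^ 2 * e y * (u y - c) ^ 2) =
        ∑ x ∈ Z, ∑ y ∈ Z, (e x * ‖D x y‖ ^ 2 * e y * (u x - c) ^ 2) := by
      rw [Finset.sum_comm]
      refine Finset.sum_congr rfl fun x _ => Finset.sum_congr rfl fun y _ => ?_
      rw [hD y x]
      ring
    have e2 : ∑ x ∈ Z, ∑ y ∈ Z, (e x * ‖D x y‖ ^ 2 * e y * (u x - c) ^ 2) =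
        ∑ x ∈ Z, e x * (u x - c) ^ 2 * ∑ y ∈ Z, e y * ‖D x y‖ ^ 2 := by
      refine Finset.sum_congr rfl fun x _ => ?_
      rw [Finset.mul_sum]
      exact Finset.sum_congr rfl fun y _ => by ring
    simp only [Finset.sum_add_distrib, ← Finset.mul_sum]
    rw [e1, e2]
    ring
  have h3 : ∑ x ∈ Z, e x * (u x - c) ^ 2 * ∑ y ∈ Z, e y * ‖D x y‖ ^ 2 ≤
      ∑ x ∈ Z, e x * n x * (u x - c) ^ 2 := by
    refine Finset.sum_le_sum fun x hx => ?_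
    have := mul_le_mul_of_nonneg_left (hn x hx) (mul_nonneg (he x hx) (sq_nonneg (u x - c)))
    calc _ ≤ _ := this
      _ = _ := by ring
  linarith

end form

end Pool.Agent.ANI
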