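import Pool.Agent.ANI.Schur
import Pool.Agent.ANL.Dirich
import Pool.Agent.AND.Good

/-! # ANI UNITS: `E` avoids the eigenvalues (helper2)

`NRes H b B`: no nonzero vector supported in `B` solves `((H + diag b) ψ)_x = 0` for `x ∈ B` (only `b` on `B` matters).
`Avoid H Y nf`: `NRes H (hh nf v - E) B` for every configuration `v` and every set `B`.
* `unit_of_nres`: strictly absorbing off `B`, `NRes H b B` => `H + diag b` is invertible.
* `dirInj_of_nres`: strictly absorbing off `F ∪ B`, `NRes H b (B \ F)` => `DirInj H b F`.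
* `mbb_unit`: `NRes H b Xᶜ` => `MBB H b X` is invertible.
* `avoid_cofinite`: for fixed `H`, `hh`, the set of energies with not `Avoid` is finite.
-/

open Matrix Finset

noncomputable section

namespace Pool.Agent.ANI

open Pool.Agent.Kin Pool.Agent.APS Pool.Agent.ANL

variable {ι : Type} [Fintype ι] [DecidableEq ι] {H : Matrix ι ι ℂ} {b b' : ι → ℂ}
  {F B X : Finset ι}

/-- `H + diag b` is non resonant on `B` -/
def NRes (H : Matrix ι ι ℂ) (b : ι → ℂ) (B : Finset ι) : Prop :=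
  ∀ ψ : ι → ℂ, (∀ x, x ∉ B → ψ x = 0) → (∀ x ∈ B, ((H + diagonal b) *ᵥ ψ) x = 0) → ψ = 0

private lemma un_mv (H : Matrix ι ι ℂ) (b v : ι → ℂ) (x : ι) :
    ((H + diagonal b) *ᵥ v) x = ∑ y, H x y * v y + b x * v x := by
  rw [Matrix.add_mulVec, Pi.add_apply, Matrix.mulVec_diagonal]
  rfl

private lemma un_split (f : ι → ℂ) :
    ∑ y, f y = ∑ y : {x // x ∈ X}, f y + ∑ y : {x // x ∉ X}, f y := by
  rw [← Fintype.sum_subtype_add_sum_subtype (fun x => x ∈ X) f]
  refine congrArg₂ (fun a b : ℂ => a + b) ?_ ?_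
  · exact Finset.sum_congr (Finset.ext fun x => by simp only [Finset.mem_univ]) fun _ _ => rfl
  · exact Finset.sum_congr (Finset.ext fun x => by simp only [Finset.mem_univ]) fun _ _ => rfl

theorem NRes.congr (h : NRes H b B) (hb : ∀ x ∈ B, b' x = b x) : NRes H b' B := by
  intro ψ h0 h1
  refine h ψ h0 fun x hx => ?_
  have h2 := h1 x hx
  rw [un_mv] at h2 ⊢
  rw [← hb x hx, h2]

/-- a vector with no source where it absorbs -/
theorem zero_of_neg (hH : RealSym H) (hb : ∀ x, (b x).im ≤ 0) {v : ι → ℂ}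
    (hv : ∀ x, v x = 0 ∨ ((H + diagonal b) *ᵥ v) x = 0) {x : ι} (hx : (b x).im < 0) :
    v x = 0 := by
  have h1 := form_im hH b v
  have h2 : ∑ x, (starRingEnd ℂ) (v x) * ((H + diagonal b) *ᵥ v) x = 0 := by
    refine sum_eq_zero fun x _ => ?_
    rcases hv x with hx | hx
    · rw [hx, map_zero, zero_mul]
    · rw [hx, mul_zero]
  rw [h2, Complex.zero_im] at h1
  have h3 : ∀ y ∈ univ, ‖v y‖ ^ 2 * (b y).im ≤ 0 := fun y _ =>
    mul_nonpos_of_nonneg_of_nonpos (sq_nonneg _) (hb y)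
  have h4 := (sum_eq_zero_iff_of_nonpos h3).1 h1.symm x (mem_univ x)
  rcases mul_eq_zero.1 h4 with h5 | h5
  · exact norm_eq_zero.1 (pow_eq_zero_iff (two_ne_zero)|>.1 h5)
  · exact absurd h5 hx.ne

theorem dirInj_of_nres (hH : RealSym H) (hb : ∀ x, (b x).im ≤ 0)
    (hn : ∀ x, x ∉ F → x ∉ B → (b x).im < 0) (h : NRes H b (B \ F)) : DirInj H b F := by
  intro v hv hM
  have h0 : ∀ x, v x = 0 ∨ ((H + diagonal b) *ᵥ v) x = 0 := fun x => by
    by_cases hx : x ∈ F
    · exact Or.inl (hv x hx)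
    · exact Or.inr (hM x hx)
  refine h v (fun x hx => ?_) fun x hx => hM x (mem_sdiff.1 hx).2
  by_cases hxF : x ∈ F
  · exact hv x hxF
  · refine zero_of_neg hH hb h0 (hn x hxF fun hxB => hx (mem_sdiff.2 ⟨hxB, hxF⟩))

theorem unit_of_nres (hH : RealSym H) (hb : ∀ x, (b x).im ≤ 0)
    (hn : ∀ x, x ∉ B → (b x).im < 0) (h : NRes H b B) : IsUnit (H + diagonal b).det := by
  rw [isUnit_iff_ne_zero]
  intro h0
  obtain ⟨v, hv0, hv⟩ := Matrix.exists_mulVec_eq_zero_iff.2 h0
  refine hv0 (dirInj_of_nres (F := ∅) hH hb (fun x _ hx => hn x hx)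
    (by rwa [Finset.sdiff_empty]) v (fun x hx => absurd hx (notMem_empty x)) fun x _ => ?_)
  rw [hv]
  rfl

theorem mbb_unit (h : NRes H b Xᶜ) : IsUnit (MBB H b X).det := by
  rw [isUnit_iff_ne_zero]
  intro h0
  obtain ⟨v, hv0, hv⟩ := Matrix.exists_mulVec_eq_zero_iff.2 h0
  apply hv0
  have h1 : (fun x => if hx : x ∉ X then v ⟨x, hx⟩ else 0) = (0 : ι → ℂ) := by
    refine h _ (fun x hx => ?_) fun x hx => ?_
    · rw [mem_compl, not_not] at hx
      rw [dif_neg (not_not.2 hx)]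
    · have hxX : x ∉ X := mem_compl.1 hx
      have h2 := congrFun hv ⟨x, hxX⟩
      rw [Matrix.mulVec, dotProduct] at h2 ⊢
      rw [un_split (X := X)]
      have h3 : ∑ i : {x // x ∈ X}, (H + diagonal b) x i.1 *
          (if hx : i.1 ∉ X then v ⟨i.1, hx⟩ else 0) = 0 :=
        sum_eq_zero fun i _ => by rw [dif_neg (not_not.2 i.2), mul_zero]
      rw [h3, zero_add]
      have h4 : ∑ i : {x // x ∉ X}, (H + diagonal b) x i.1 *
          (if hx : i.1 ∉ X then v ⟨i.1, hx⟩ else 0) = ∑ i, MBB H b X ⟨x, hxX⟩ i * v i :=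
        sum_congr rfl fun i _ => by
          rw [dif_pos i.2]
          rfl
      rw [h4, h2]
      rfl
  funext x
  have h2 := congrFun h1 x.1
  simpa [x.2] using h2

/-- the energy avoids the eigenvalues of all restrictions, for all configurations of the final level -/
def Avoid {Z : Type} (H : Matrix ι ι ℂ) (hh : Z → ℝ) (E : ℝ) : Prop :=
  ∀ (v : ι → Z) (B : Finset ι), NRes H (fun x => (hh (v x) : ℂ) - (E : ℂ)) B

theorem Avoid.nres {Z : Type} {hh : Z → ℝ} {E : ℝ} (h : Avoid H hh E) {v : ι → Z}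
    (hb : ∀ x ∈ B, b x = (hh (v x) : ℂ) - (E : ℂ)) : NRes H b B :=
  (h v B).congr hb

/-- for fixed potential only finitely many energies are resonant -/
theorem nres_finite (H : Matrix ι ι ℂ) (q : ι → ℂ) (B : Finset ι) :
    {E : ℝ | ¬ NRes H (fun x => q x - (E : ℂ)) B}.Finite := by
  have h1 : {E : ℝ | ¬ NRes H (fun x => q x - (E : ℂ)) B} ⊆
      (fun E : ℝ => (E : ℂ)) ⁻¹' {w : ℂ | w ∈ (Matrix.charpoly (MBB H q Bᶜ)).roots} := by
    intro E hE
    rw [Set.mem_ofPred_eq, NRes] at hE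
    push Not at hE
    obtain ⟨ψ, h2, h3, h4⟩ := hE
    rw [Set.mem_preimage, Set.mem_ofPred_eq, Polynomial.mem_roots (Matrix.charpoly_monic _).ne_zero]
    rw [Polynomial.IsRoot.def, Matrix.eval_charpoly]
    by_contra h5
    have h6 : IsUnit (MBB H (fun x => q x - (E : ℂ)) Bᶜ).det := by
      rw [isUnit_iff_ne_zero]
      have h7 : MBB H (fun x => q x - (E : ℂ)) Bᶜ =
          -((Matrix.scalar {x // x ∉ Bᶜ}) (E : ℂ) - MBB H q Bᶜ) := by
        ext i j
        by_cases hij : i = j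
        · subst hij
          simp [MBB]
          ring
        · have hij' : (i : ι) ≠ j := fun h => hij (Subtype.ext h)
          simp [MBB, hij, hij', Matrix.diagonal_apply_ne]
      rw [h7, Matrix.det_neg]
      exact mul_ne_zero (pow_ne_zero _ (by norm_num)) h5
    have h8 := hole_sol h6 (v := ψ) fun x hx => by
      rw [mem_compl, not_not] at hx
      exact h3 x hx
    apply h4
    funext x
    by_cases hx : x ∈ B
    · have h9 := h8 ⟨x, by rwa [mem_compl, not_not]⟩
      rw [show ((⟨x, by rwa [mem_compl, not_not]⟩ : {x // x ∉ Bᶜ}) : ι) = x from rfl] at h9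
      rw [h9, Pi.zero_apply, neg_eq_zero]
      refine sum_eq_zero fun z _ => ?_
      rw [sum_eq_zero fun y _ => ?_, mul_zero]
      rw [h2 y.1 (mem_compl.1 y.2), mul_zero]
    · rw [h2 x hx, Pi.zero_apply]
  refine (Set.Finite.preimage (fun a _ b _ h => by exact_mod_cast h) ?_).subset h1
  exact (Multiset.finite_toSet _)

/-- for fixed `H`, `hh` all but finitely many energies avoid the eigenvalues -/
theorem avoid_cofinite {Z : Type} [Finite Z] (H : Matrix ι ι ℂ) (hh : Z → ℝ) :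
    {E : ℝ | ¬ Avoid H hh E}.Finite := by
  have h1 : {E : ℝ | ¬ Avoid H hh E} ⊆ ⋃ p : (ι → Z) × Finset ι,
      {E : ℝ | ¬ NRes H (fun x => (hh (p.1 x) : ℂ) - (E : ℂ)) p.2} := by
    intro E hE
    rw [Set.mem_ofPred_eq, Avoid] at hE
    push Not at hE
    obtain ⟨v, B, h⟩ := hE
    exact Set.mem_iUnion.2 ⟨(v, B), h⟩
  refine (Set.finite_iUnion fun p => ?_).subset h1
  exact nres_finite H (fun x => (hh (p.1 x) : ℂ)) p.2

end Pool.Agent.ANI
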