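import Pool.Agent.ANL.Cut
import Pool.Agent.ANL.Insert
import Pool.Agent.ANI.Units

/-! # ANI RAWCONT (P5): the raw content step (helper2)

`b` admissible, `F` static, `F ⊆ D`, `b' = b` off `F` admissible (the content of `F` is read), Dirichlet injectivity, leverage of
`F` at most `M` on `bdy H D`.  `nlev x = M h0² (∑_{z ∈ bdy H D} |G_xz|)²`.  For `x, y ∉ D` and `Z` disjoint from `D`:
* `RCont.entry` : `|G'_xy - G_xy|² ≤ 4 n_x n_y`;    `RCont.entry1` : `|G'_xy - G_xy| ≤ 2 M h0² nb² g_x g_y`;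
* `RCont.row`   : `∑_{y ∈ Z} η_y |G'_xy - G_xy|² ≤ 4 n_x`;
* `RCont.four`  : `∑_{y ∈ Z} |G'_xy - G_xy|⁴ ≤ 16 n_x² M² h0⁴ nb⁴ τ`, `τ` a bound of `∑_{y ∈ Z} |G_zy|⁴`, `z ∈ bdy H D`;
* `RCont.mass`  : `∑_{x ∈ Z} η_x n_x ≤ M h0² nb² Γ`, `Γ ≥ Im G_zz` for `z ∈ bdy H D`;
* `nlev_le`     : `n_x ≤ M h0² nb² g²` if `|G_xz| ≤ g` for `z ∈ bdy H D`;
* `RCont.dia`   : `|G'_xx - G_xx| ≤ 2 n_x`.
The removed set: `∑_x η_x |G_xy|² η_y ≤ η_y ι_y` (`Ward`): `rem_mass`, `rem_le`.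
-/

open Matrix Finset

noncomputable section

namespace Pool.Agent.ANI

open Pool.Agent.Kin Pool.Agent.APS Pool.Agent.ANL

variable {ι : Type} [Fintype ι] [DecidableEq ι] {H : Matrix ι ι ℂ} {b b' : ι → ℂ}
  {F D : Finset ι} {h0 M : ℝ}

/-- leverage of the hole at `x`, off `D` -/
def nlev (H : Matrix ι ι ℂ) (b : ι → ℂ) (D : Finset ι) (h0 M : ℝ) (x : ι) : ℝ :=
  M * h0 ^ 2 * (∑ z ∈ bdy H D, ‖rsc H b x z‖) ^ 2

/-- data of a raw content step -/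
structure RCont (H : Matrix ι ι ℂ) (b b' : ι → ℂ) (F D : Finset ι) (h0 M : ℝ) : Prop where
  adm : Adm H b
  adm' : Adm H b'
  off : ∀ x, x ∉ F → b' x = b x
  hop : HopLe H h0
  h00 : 0 ≤ h0
  M0 : 0 ≤ M
  FD : F ⊆ D
  dir : DirInj H b F
  lev : ∀ y ∈ bdy H D, LevLe H b F y M

theorem nlev_nonneg (hM : 0 ≤ M) (x : ι) : 0 ≤ nlev H b D h0 M x :=
  mul_nonneg (mul_nonneg hM (sq_nonneg _)) (sq_nonneg _)

theorem nlev_le (hM : 0 ≤ M) {x : ι} {g : ℝ} (hg : ∀ z ∈ bdy H D, ‖rsc H b x z‖ ≤ g) :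
    nlev H b D h0 M x ≤ M * h0 ^ 2 * ((bdy H D).card * g) ^ 2 := by
  have h1 : ∑ z ∈ bdy H D, ‖rsc H b x z‖ ≤ (bdy H D).card * g := by
    have h2 := Finset.sum_le_card_nsmul (bdy H D) (fun z => ‖rsc H b x z‖) g hg
    rwa [nsmul_eq_mul] at h2
  have h3 : 0 ≤ ∑ z ∈ bdy H D, ‖rsc H b x z‖ := sum_nonneg fun _ _ => norm_nonneg _
  exact mul_le_mul_of_nonneg_left (pow_le_pow_left₀ h3 h1 2) (mul_nonneg hM (sq_nonneg _))

namespace RCont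

variable (h : RCont H b b' F D h0 M)

include h

theorem nF {x : ι} (hx : x ∉ D) : x ∉ F := fun h1 => hx (h.FD h1)

theorem levD {x : ι} (hx : x ∉ D) : LevLe H b F x (nlev H b D h0 M x) :=
  lev_far h.adm h.FD h.hop h.h00 h.M0 h.lev hx

theorem offs : ∀ x, x ∉ F → b x = b' x := fun x hx => (h.off x hx).symm

theorem entry {x y : ι} (hx : x ∉ D) (hy : y ∉ D) :
    ‖rsc H b' x y - rsc H b x y‖ ^ 2 ≤ 4 * nlev H b D h0 M x * nlev H b D h0 M y :=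
  insert_entry h.adm h.adm' h.offs h.dir (h.nF hx) (h.nF hy) (nlev_nonneg h.M0 x)
    (nlev_nonneg h.M0 y) (h.levD hx) (h.levD hy)

theorem dia {x : ι} (hx : x ∉ D) :
    ‖rsc H b' x x - rsc H b x x‖ ≤ 2 * nlev H b D h0 M x := by
  refine abs_le_of_sq_le_sq' ?_ (mul_nonneg zero_le_two (nlev_nonneg h.M0 x)) |>.2
  refine (h.entry hx hx).trans (le_of_eq ?_)
  ring

theorem entry1 {x y : ι} (hx : x ∉ D) (hy : y ∉ D) {gx gy : ℝ}
    (hgx : ∀ z ∈ bdy H D, ‖rsc H b x z‖ ≤ gx) (hgy : ∀ z ∈ bdy H D, ‖rsc H b y z‖ ≤ gy)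
    (hx0 : 0 ≤ gx) (hy0 : 0 ≤ gy) :
    ‖rsc H b' x y - rsc H b x y‖ ≤ 2 * (M * h0 ^ 2 * (bdy H D).card ^ 2) * gx * gy := by
  have hM := h.M0
  refine abs_le_of_sq_le_sq' ?_ (by positivity) |>.2
  have h1 := nlev_le (h0 := h0) h.M0 hgx
  have h2 := nlev_le (h0 := h0) h.M0 hgy
  have h3 : 4 * nlev H b D h0 M x * nlev H b D h0 M y ≤
      4 * (M * h0 ^ 2 * ((bdy H D).card * gx) ^ 2) * (M * h0 ^ 2 * ((bdy H D).card * gy) ^ 2) :=
    mul_le_mul (mul_le_mul_of_nonneg_left h1 (by norm_num)) h2 (nlev_nonneg h.M0 y)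
      (by positivity)
  refine (h.entry hx hy).trans (h3.trans (le_of_eq ?_))
  ring

theorem row {x : ι} (hx : x ∉ D) {Z : Finset ι} (hZ : Disjoint Z D) :
    ∑ y ∈ Z, (-(b y).im) * ‖rsc H b' x y - rsc H b x y‖ ^ 2 ≤ 4 * nlev H b D h0 M x := by
  have h1 := leak_insert h.adm h.adm' h.offs h.dir (h.nF hx) (nlev_nonneg h.M0 x) (h.levD hx)
  refine le_trans ?_ h1
  unfold leak
  have h2 : ∀ y, (-(b y).im) * ‖rsc H b' x y - rsc H b x y‖ ^ 2 =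
      (-(b y).im) * ‖rsc H b' y x - rsc H b y x‖ ^ 2 := by
    intro y
    rw [adm_symm h.adm' x y, adm_symm h.adm x y]
  rw [Finset.sum_congr rfl fun y _ => h2 y]
  refine Finset.sum_le_sum_of_subset_of_nonneg ?_ ?_
  · intro y hy
    rw [Finset.mem_compl]
    exact h.nF (Finset.disjoint_left.1 hZ hy)
  · intro y _ _
    have h3 := h.adm.im y
    exact mul_nonneg (by linarith) (by positivity)

end RCont

omit [Fintype ι] [DecidableEq ι] in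
theorem sum_pow_four (s : Finset ι) {f : ι → ℝ} :
    (∑ i ∈ s, f i) ^ 4 ≤ (s.card : ℝ) ^ 3 * ∑ i ∈ s, f i ^ 4 := by
  have h1 : (∑ i ∈ s, f i) ^ 2 ≤ s.card * ∑ i ∈ s, f i ^ 2 := sq_sum_le_card_mul_sum_sq
  have h2 : (∑ i ∈ s, f i ^ 2) ^ 2 ≤ s.card * ∑ i ∈ s, (f i ^ 2) ^ 2 := sq_sum_le_card_mul_sum_sq
  calc (∑ i ∈ s, f i) ^ 4 = ((∑ i ∈ s, f i) ^ 2) ^ 2 := by ring
    _ ≤ (s.card * ∑ i ∈ s, f i ^ 2) ^ 2 := pow_le_pow_left₀ (sq_nonneg _) h1 2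
    _ = s.card ^ 2 * (∑ i ∈ s, f i ^ 2) ^ 2 := by ring
    _ ≤ s.card ^ 2 * (s.card * ∑ i ∈ s, (f i ^ 2) ^ 2) :=
        mul_le_mul_of_nonneg_left h2 (by positivity)
    _ = (s.card : ℝ) ^ 3 * ∑ i ∈ s, (f i ^ 2) ^ 2 := by ring
    _ = _ := by
      congr 1
      exact sum_congr rfl fun i _ => by ring

/-- fourth powers of the leverages -/
theorem nlev_sq_sum (Z : Finset ι) {τ : ℝ}
    (hτ : ∀ z ∈ bdy H D, ∑ y ∈ Z, ‖rsc H b y z‖ ^ 4 ≤ τ) :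
    ∑ y ∈ Z, nlev H b D h0 M y ^ 2 ≤ M ^ 2 * h0 ^ 4 * ((bdy H D).card ^ 4 * τ) := by
  have h1 : ∀ y, nlev H b D h0 M y ^ 2 ≤
      M ^ 2 * h0 ^ 4 * ((bdy H D).card ^ 3 * ∑ z ∈ bdy H D, ‖rsc H b y z‖ ^ 4) := by
    intro y
    have h2 := sum_pow_four (bdy H D) (f := fun z => ‖rsc H b y z‖)
    have h3 : nlev H b D h0 M y ^ 2 =
        M ^ 2 * h0 ^ 4 * (∑ z ∈ bdy H D, ‖rsc H b y z‖) ^ 4 := by
      rw [nlev]
      ring
    rw [h3]
    exact mul_le_mul_of_nonneg_left h2 (by positivity)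
  calc ∑ y ∈ Z, nlev H b D h0 M y ^ 2
      ≤ ∑ y ∈ Z, M ^ 2 * h0 ^ 4 * ((bdy H D).card ^ 3 * ∑ z ∈ bdy H D, ‖rsc H b y z‖ ^ 4) :=
        sum_le_sum fun y _ => h1 y
    _ = M ^ 2 * h0 ^ 4 * ((bdy H D).card ^ 3 *
          ∑ z ∈ bdy H D, ∑ y ∈ Z, ‖rsc H b y z‖ ^ 4) := by
        rw [← mul_sum, ← mul_sum, sum_comm]
    _ ≤ M ^ 2 * h0 ^ 4 * ((bdy H D).card ^ 3 * ((bdy H D).card * τ)) := by
        have h4 := Finset.sum_le_card_nsmul (bdy H D)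
          (fun z => ∑ y ∈ Z, ‖rsc H b y z‖ ^ 4) τ hτ
        rw [nsmul_eq_mul] at h4
        gcongr
    _ = _ := by ring

/-- the mass of the leverages -/
theorem nlev_mass (hA : Adm H b) (hM : 0 ≤ M) (Z : Finset ι) {Γ : ℝ}
    (hΓ : ∀ z ∈ bdy H D, (rsc H b z z).im ≤ Γ) :
    ∑ x ∈ Z, (-(b x).im) * nlev H b D h0 M x ≤ M * h0 ^ 2 * ((bdy H D).card ^ 2 * Γ) := by
  have hη : ∀ x, 0 ≤ -(b x).im := fun x => by linarith [hA.im x]
  have h1 : ∀ x, (-(b x).im) * nlev H b D h0 M x ≤ M * h0 ^ 2 * ((bdy H D).card *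
      ∑ z ∈ bdy H D, (-(b x).im) * ‖rsc H b z x‖ ^ 2) := by
    intro x
    have h2 : (∑ z ∈ bdy H D, ‖rsc H b x z‖) ^ 2 ≤
        (bdy H D).card * ∑ z ∈ bdy H D, ‖rsc H b x z‖ ^ 2 := sq_sum_le_card_mul_sum_sq
    have h3 : (-(b x).im) * nlev H b D h0 M x =
        M * h0 ^ 2 * ((-(b x).im) * (∑ z ∈ bdy H D, ‖rsc H b x z‖) ^ 2) := by
      rw [nlev]
      ring
    rw [h3]
    refine mul_le_mul_of_nonneg_left ?_ (mul_nonneg hM (sq_nonneg _))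
    refine (mul_le_mul_of_nonneg_left h2 (hη x)).trans (le_of_eq ?_)
    rw [← mul_assoc, mul_comm (-(b x).im), mul_assoc, mul_sum]
    congr 1
    exact sum_congr rfl fun z _ => by rw [adm_symm hA x z]
  calc ∑ x ∈ Z, (-(b x).im) * nlev H b D h0 M x
      ≤ ∑ x ∈ Z, M * h0 ^ 2 * ((bdy H D).card *
          ∑ z ∈ bdy H D, (-(b x).im) * ‖rsc H b z x‖ ^ 2) := sum_le_sum fun x _ => h1 x
    _ = M * h0 ^ 2 * ((bdy H D).card *
          ∑ z ∈ bdy H D, ∑ x ∈ Z, (-(b x).im) * ‖rsc H b z x‖ ^ 2) := by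
        rw [← mul_sum, ← mul_sum, sum_comm]
    _ ≤ M * h0 ^ 2 * ((bdy H D).card * ((bdy H D).card * Γ)) := by
        have h4 := Finset.sum_le_card_nsmul (bdy H D)
          (fun z => ∑ x ∈ Z, (-(b x).im) * ‖rsc H b z x‖ ^ 2) Γ
          (fun z hz => (ward_le hA Z z).trans (hΓ z hz))
        rw [nsmul_eq_mul] at h4
        have h5 := mul_nonneg hM (sq_nonneg h0)
        gcongr
    _ = _ := by ring

namespace RCont

variable (h : RCont H b b' F D h0 M)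

include h

theorem four {x : ι} (hx : x ∉ D) {Z : Finset ι} (hZ : Disjoint Z D) {τ : ℝ}
    (hτ : ∀ z ∈ bdy H D, ∑ y ∈ Z, ‖rsc H b y z‖ ^ 4 ≤ τ) :
    ∑ y ∈ Z, ‖rsc H b' x y - rsc H b x y‖ ^ 4 ≤
      16 * nlev H b D h0 M x ^ 2 * (M ^ 2 * h0 ^ 4 * ((bdy H D).card ^ 4 * τ)) := by
  calc ∑ y ∈ Z, ‖rsc H b' x y - rsc H b x y‖ ^ 4
      ≤ ∑ y ∈ Z, 16 * nlev H b D h0 M x ^ 2 * nlev H b D h0 M y ^ 2 := by
        refine sum_le_sum fun y hy => ?_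
        have h1 := h.entry hx (Finset.disjoint_left.1 hZ hy)
        calc ‖rsc H b' x y - rsc H b x y‖ ^ 4 = (‖rsc H b' x y - rsc H b x y‖ ^ 2) ^ 2 := by ring
          _ ≤ (4 * nlev H b D h0 M x * nlev H b D h0 M y) ^ 2 :=
              pow_le_pow_left₀ (by positivity) h1 2
          _ = _ := by ring
    _ = 16 * nlev H b D h0 M x ^ 2 * ∑ y ∈ Z, nlev H b D h0 M y ^ 2 := by rw [← mul_sum]
    _ ≤ _ := mul_le_mul_of_nonneg_left (nlev_sq_sum Z hτ) (by positivity)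

theorem mass (Z : Finset ι) {Γ : ℝ} (hΓ : ∀ z ∈ bdy H D, (rsc H b z z).im ≤ Γ) :
    ∑ x ∈ Z, (-(b x).im) * nlev H b D h0 M x ≤ M * h0 ^ 2 * ((bdy H D).card ^ 2 * Γ) :=
  nlev_mass h.adm h.M0 Z hΓ

/-- new diagonal is bounded -/
theorem dia' {x : ι} (hx : x ∉ D) {C : ℝ} (hC : ‖rsc H b x x‖ ≤ C) :
    ‖rsc H b' x x‖ ≤ C + 2 * nlev H b D h0 M x := by
  have h1 := h.dia hx
  calc ‖rsc H b' x x‖ = ‖rsc H b x x + (rsc H b' x x - rsc H b x x)‖ := by congr 1; ring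
    _ ≤ _ := (norm_add_le _ _).trans (add_le_add hC h1)

end RCont

/-- raw content step from the non resonance of the energy: `U` = read sites before, `F` = sites read now -/
theorem RCont.of_avoid {Z : Type} {hh : Z → ℝ} {E : ℝ} (hav : Avoid H hh E) {v : ι → Z}
    (hA : Adm H b) {U : Finset ι} (hneg : ∀ x, x ∉ U → (b x).im < 0)
    (hU : ∀ x ∈ U, b x = (hh (v x) : ℂ) - (E : ℂ)) (hF : ∀ x ∈ F, b' x = (hh (v x) : ℂ) - (E : ℂ))
    (off : ∀ x, x ∉ F → b' x = b x) (hop : HopLe H h0) (h00 : 0 ≤ h0) (M0 : 0 ≤ M) (FD : F ⊆ D)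
    (lev : ∀ y ∈ bdy H D, LevLe H b F y M) : RCont H b b' F D h0 M where
  adm := hA
  adm' :=
    { sym := hA.sym
      im := by
        intro x
        by_cases hx : x ∈ F
        · rw [hF x hx]
          simp
        · rw [off x hx]
          exact hA.im x
      unit := by
        refine unit_of_nres (B := U ∪ F) hA.sym (fun x => ?_) (fun x hx => ?_) ?_
        · by_cases hx : x ∈ F
          · rw [hF x hx]
            simp
          · rw [off x hx]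
            exact hA.im x
        · rw [mem_union, not_or] at hx
          rw [off x hx.2]
          exact hneg x hx.1
        · refine hav.nres (v := v) fun x hx => ?_
          by_cases hxF : x ∈ F
          · exact hF x hxF
          · rw [off x hxF]
            exact hU x ((mem_union.1 hx).resolve_right hxF) }
  off := off
  hop := hop
  h00 := h00
  M0 := M0
  FD := FD
  dir := by
    refine dirInj_of_nres (B := U) hA.sym hA.im (fun x _ hx => hneg x hx) ?_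
    exact hav.nres (v := v) fun x hx => hU x (mem_sdiff.1 hx).1
  lev := lev

/-- the holes of a medium are non resonant -/
theorem mbb_of_avoid {Z : Type} {hh : Z → ℝ} {E : ℝ} (hav : Avoid H hh E) {v : ι → Z}
    {X : Finset ι} (hU : ∀ x, x ∉ X → b x = (hh (v x) : ℂ) - (E : ℂ)) :
    IsUnit (MBB H b X).det :=
  mbb_unit (hav.nres (v := v) fun x hx => hU x (mem_compl.1 hx))

/-- the mass of a removed set -/
theorem rem_mass (hA : Adm H b) (S : Finset ι) (B : Finset ι) {w : ι → ℝ} (hw : ∀ y ∈ B, 0 ≤ w y)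
    {Γ : ℝ} (hΓ : ∀ y ∈ B, (rsc H b y y).im ≤ Γ) :
    ∑ x ∈ S, ∑ y ∈ B, (-(b x).im) * ‖rsc H b x y‖ ^ 2 * w y ≤ Γ * ∑ y ∈ B, w y := by
  rw [sum_comm, mul_sum]
  refine sum_le_sum fun y hy => ?_
  rw [← sum_mul]
  refine mul_le_mul_of_nonneg_right ?_ (hw y hy)
  calc ∑ x ∈ S, (-(b x).im) * ‖rsc H b x y‖ ^ 2
      = ∑ x ∈ S, (-(b x).im) * ‖rsc H b y x‖ ^ 2 :=
        sum_congr rfl fun x _ => by rw [adm_symm hA x y]
    _ ≤ (rsc H b y y).im := ward_le hA S y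
    _ ≤ Γ := hΓ y hy

/-- pointwise bound of the mass lost to a removed set -/
theorem rem_le {B : Finset ι} {w : ι → ℝ} (hw : ∀ y ∈ B, 0 ≤ w y) {x : ι} {g W : ℝ}
    (hg : ∀ y ∈ B, ‖rsc H b x y‖ ≤ g) (hW : ∑ y ∈ B, w y ≤ W) :
    ∑ y ∈ B, ‖rsc H b x y‖ ^ 2 * w y ≤ g ^ 2 * W := by
  calc ∑ y ∈ B, ‖rsc H b x y‖ ^ 2 * w y ≤ ∑ y ∈ B, g ^ 2 * w y :=
        sum_le_sum fun y hy => mul_le_mul_of_nonneg_right
          (pow_le_pow_left₀ (norm_nonneg _) (hg y hy) 2) (hw y hy)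
    _ = g ^ 2 * ∑ y ∈ B, w y := by rw [mul_sum]
    _ ≤ _ := mul_le_mul_of_nonneg_left hW (sq_nonneg _)

end Pool.Agent.ANI
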