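import Pool.Agent.ANI.AnnIn
import Pool.Agent.ANI.RemFin

/-! # ANI REMCOMP: composition of two removals (annulus `S`, then content `F`) (helper75)

* `Rem.comp` : `Rem M M1 S`, `Rem M1 M2 F` give `Rem M M2 (S ∪ F)`;  `ReadP.comp` likewise.
* `Cls.eta2` : change of the absorption by a factor `2`.
* `RCls.comp` : `RCls M M1 M.nr c ..`, `RCls M1 M2 X0 c ..` give `RCls M M2 M2.nr c ..`.
* `RCls.om`, `RCls.fourV` : entries of the new medium at ALL sites of `M.nr`.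
-/

open Matrix Finset

noncomputable section

namespace Pool.Agent.ANI

open Pool.Agent.Kin Pool.Agent.APS Pool.Agent.AND Pool.Agent.ANL Pool.Agent.ANM

theorem Cls.eta2 {ι : Type} {G G' : ι → ι → ℂ} {e e' k : ι → ℝ} {X0 X A : Finset ι}
    {ω : ι → ι → ℝ} {δ : ι → ℝ} {ν ε q W Kf : ℝ} (h : Cls G G' e k X0 X A ω δ ν ε q W Kf)
    (h0 : ∀ x ∈ X, 0 ≤ e' x) (h1 : ∀ x ∈ X, e' x ≤ 2 * e x) (hk : ∀ x ∈ A, 0 ≤ k x) :
    Cls G G' e' k X0 X A ω δ ν (2 * ε) q (4 * W) Kf where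
  ε0 := by have := h.ε0; positivity
  symG := h.symG
  symG' := h.symG'
  row x hx := by
    calc ∑ y ∈ X, e' y * ‖G' x y - G x y‖ ^ 2 ≤ ∑ y ∈ X, 2 * (e y * ‖G' x y - G x y‖ ^ 2) :=
          Finset.sum_le_sum fun y hy => by
            have := mul_le_mul_of_nonneg_right (h1 y hy) (sq_nonneg ‖G' x y - G x y‖)
            linarith
      _ = 2 * ∑ y ∈ X, e y * ‖G' x y - G x y‖ ^ 2 := by rw [Finset.mul_sum]
      _ ≤ 2 * ε ^ 2 := by have := h.row x hx; linarith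
      _ ≤ (2 * ε) ^ 2 := by nlinarith [sq_nonneg ε]
  four := h.four
  mass := by
    have he : ∀ x ∈ X, 0 ≤ e x := fun x hx => by
      have := h0 x hx
      have := h1 x hx
      linarith
    have hin : ∀ x ∈ X, ∑ y ∈ X, e' y * ‖G' x y - G x y‖ ^ 2 ≤
        2 * ∑ y ∈ X, e y * ‖G' x y - G x y‖ ^ 2 := fun x hx => by
      rw [Finset.mul_sum]
      exact Finset.sum_le_sum fun y hy => by
        have := mul_le_mul_of_nonneg_right (h1 y hy) (sq_nonneg ‖G' x y - G x y‖)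
        linarith
    calc ∑ x ∈ X, e' x * ∑ y ∈ X, e' y * ‖G' x y - G x y‖ ^ 2 ≤
          ∑ x ∈ X, 4 * (e x * ∑ y ∈ X, e y * ‖G' x y - G x y‖ ^ 2) := by
          refine Finset.sum_le_sum fun x hx => ?_
          have h2 : 0 ≤ ∑ y ∈ X, e y * ‖G' x y - G x y‖ ^ 2 :=
            Finset.sum_nonneg fun y hy => mul_nonneg (he y hy) (by positivity)
          calc e' x * ∑ y ∈ X, e' y * ‖G' x y - G x y‖ ^ 2 ≤
                (2 * e x) * (2 * ∑ y ∈ X, e y * ‖G' x y - G x y‖ ^ 2) :=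
                mul_le_mul (h1 x hx) (hin x hx)
                  (Finset.sum_nonneg fun y hy => mul_nonneg (h0 y hy) (by positivity))
                  (by linarith [he x hx])
            _ = _ := by ring
      _ = 4 * ∑ x ∈ X, e x * ∑ y ∈ X, e y * ‖G' x y - G x y‖ ^ 2 := by rw [Finset.mul_sum]
      _ ≤ 4 * W := by have := h.mass; linarith
  dmass := by
    have h2 := h.dmass
    have h3 : 0 ≤ ∑ x ∈ A, k x * ‖G' x x - G x x‖ :=
      Finset.sum_nonneg fun x hx => mul_nonneg (hk x hx) (norm_nonneg _)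
    linarith
  rel x hx y hy := (h.rel x hx y hy).trans (by have := h.ε0; linarith)
  far := h.far

variable {d L : ℕ} [NeZero L] {M M1 M2 : Med (Tor d L)} {S F : Finset (Tor d L)}

theorem Rem.comp (h1 : Rem M M1 S) (h2 : Rem M1 M2 F) : Rem M M2 (S ∪ F) where
  BU := by
    have h3 := h2.BU
    rw [h1.U, Finset.disjoint_union_right] at h3
    exact Finset.disjoint_union_left.2 ⟨h1.BU, h3.1⟩
  A := by
    rw [h2.A, h1.A]
    ext x
    simp only [Finset.mem_sdiff, Finset.mem_union, not_or]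
    tauto
  U := by rw [h2.U, h1.U, Finset.union_assoc]
  I := by
    rw [h2.I, h1.I]
    ext x
    simp only [Finset.mem_sdiff, Finset.mem_union, not_or]
    tauto
  k x hx := by
    rw [Finset.mem_union, not_or] at hx
    rw [h2.k x hx.2, h1.k x hx.1]
  kB x hx := by
    by_cases hF : x ∈ F
    · exact h2.kB x hF
    · rw [h2.k x hF]
      exact h1.kB x ((Finset.mem_union.1 hx).resolve_right hF)
  bB x hx := by
    by_cases hF : x ∈ F
    · exact h2.bB x hF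
    · have hS := (Finset.mem_union.1 hx).resolve_right hF
      rw [h2.bU x (by rw [h1.U]; exact Finset.mem_union_right _ hS)]
      exact h1.bB x hS
  bU x hx := by
    rw [h2.bU x (by rw [h1.U]; exact Finset.mem_union_left _ hx), h1.bU x hx]
  b x hx := by
    rw [Finset.mem_union, not_or] at hx
    rw [h2.b x hx.2, h1.b x hx.1, h1.k x hx.1]
    ring
  unit := h2.unit
  pos := h2.pos

omit [NeZero L] in
theorem ReadP.comp {π π1 π2 : Prof (Tor d L)} (h1 : ReadP π π1 S) (h2 : ReadP π1 π2 F) :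
    ReadP π π2 (S ∪ F) where
  act := by
    rw [h2.act, h1.act]
    ext x
    simp only [Finset.mem_sdiff, Finset.mem_union, not_or]
    tauto
  rd := by rw [h2.rd, h1.rd, Finset.union_assoc]
  ine := by
    rw [h2.ine, h1.ine]
    ext x
    simp only [Finset.mem_sdiff, Finset.mem_union, not_or]
    tauto
  lev x hx := by
    rw [Finset.mem_union, not_or] at hx
    rw [h2.lev x hx.2, h1.lev x hx.1]
  sg x hx hr := by
    rw [Finset.mem_union, not_or] at hx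
    rw [h2.sg x hx.2 (by rw [h1.rd, Finset.mem_union, not_or]; exact ⟨hr, hx.1⟩),
      h1.sg x hx.1 hr]

variable {f : Fix} {t : Tol d L} {u : UTol} {X0 : Finset (Tor d L)} {c : Tor d L}
  {s5 ν ε1 q1 W1 K1 ε2 q2 W2 K2 : ℝ}

/-- the absorption changes by a factor at most `2` -/
theorem Rem.eta_dbl (h1 : Rem M M1 S) (hg : Good f t M) (hi : t.In f M u) (hN : Num f t u)
    (hc : RCls M M1 M.nr c s5 ν ε1 q1 W1 K1) (he : 2 * ε1 ≤ f.c1) {x : Tor d L} (hxU : x ∉ M.U)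
    (hxS : x ∉ S) : M.eta x ≤ 2 * M1.eta x := by
  rw [h1.eta hxS]
  have hx : x ∈ M.nr := mem_nr.2 hxU
  have h2 := hc.rel x hx x hx
  rw [om5_self, mul_one] at h2
  have h3 := Complex.abs_im_le_norm (rsc (H0T d L) M1.b x x - rsc (H0T d L) M.b x x)
  rw [Complex.sub_im] at h3
  have h4 := (abs_le.1 (h3.trans h2)).1
  have h5 := hg.kio_le hi hN hxU
  have h6 := hg.io_ge hi hN hxU
  have h7 := hg.k_nonneg hN x
  have h8 := mul_le_mul_of_nonneg_left h6 h7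
  have h9 : M.k x * (-ε1) ≤ M.k x *
      ((rsc (H0T d L) M1.b x x).im - (rsc (H0T d L) M.b x x).im) :=
    mul_le_mul_of_nonneg_left h4 h7
  have h10 : M.k x * (2 * ε1) ≤ M.k x * f.c1 := mul_le_mul_of_nonneg_left he h7
  nlinarith

/-- composition of the closeness -/
theorem RCls.comp (hr1 : Rem M M1 S) (hr2 : Rem M1 M2 F) (hg : Good f t M) (hi : t.In f M u)
    (hN : Num f t u) (he : 2 * ε1 ≤ f.c1) (hX : M2.nr ⊆ X0)
    (h1 : RCls M M1 M.nr c s5 ν ε1 q1 W1 K1) (h2 : RCls M1 M2 X0 c s5 ν ε2 q2 W2 K2) :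
    RCls M M2 M2.nr c s5 ν (ε1 + 2 * ε2) (8 * (q1 + q2)) (2 * (W1 + 4 * W2)) (K1 + K2) := by
  have hr := hr1.comp hr2
  have hA2 : M2.A ⊆ M1.A := hr2.A_sub
  have hn2 : M2.nr ⊆ M1.nr := hr2.nr_sub
  have hn1 : M1.nr ⊆ M.nr := hr1.nr_sub
  have hS2 : ∀ x ∈ M2.nr, x ∉ M.U ∧ x ∉ S := fun x hx => by
    have h3 := (hr.mem_nr').1 hx
    rw [Finset.mem_union, not_or] at h3
    exact ⟨h3.1, h3.2.1⟩
  have he0 : ∀ x ∈ M2.nr, 0 ≤ M.eta x := fun x _ => hg.eta_nonneg hi hN x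
  have hk0 : ∀ x ∈ M2.A, 0 ≤ M.k x := fun x _ => hg.k_nonneg hN x
  have hk1 : ∀ x ∈ M2.A, M1.k x = M.k x := fun x hx => by
    refine hr1.k x ?_
    have h3 := hA2 hx
    rw [hr1.A] at h3
    exact (Finset.mem_sdiff.1 h3).2
  have c1 := h1.sub (X0' := M2.nr) (X' := M2.nr) (A' := M2.A)
    (fun x hx => hg.eta_nonneg hi hN x) (fun x hx => hg.k_nonneg hN x)
    (hn2.trans hn1) hn2 hA2
  have c2 := (h2.sub (X0' := M2.nr) (X' := M2.nr) (A' := M2.A)
    (fun x hx => by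
      have h3 := hr1.eta_dbl hg hi hN h1 he (hS2 x hx).1 (hS2 x hx).2
      have h4 := hg.eta_nonneg hi hN x
      linarith)
    (fun x hx => by rw [hk1 x hx]; exact hk0 x hx)
    hX (Finset.Subset.refl _) (Finset.Subset.refl _)).eta2 (e' := M.eta) he0
    (fun x hx => hr1.eta_dbl hg hi hN h1 he (hS2 x hx).1 (hS2 x hx).2)
    (fun x hx => by rw [hk1 x hx]; exact hk0 x hx)
  have c3 : Cls (rsc (H0T d L) M1.b) (rsc (H0T d L) M2.b) M.eta M.k M2.nr M2.nr M2.A (om5 s5)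
      (dc c) ν (2 * ε2) q2 (4 * W2) K2 := c2.congr (fun x _ => rfl) fun x hx => (hk1 x hx).symm
  exact Cls.add he0 hk0 (fun x y => (om5_pos s5 x y).le) c1 c3

/-- weighted entries of the new medium at all sites which were not read before -/
theorem RCls.om (h1 : RCls M M1 M.nr c s5 ν ε1 q1 W1 K1) (hg : Good f t M) (hi : t.In f M u)
    (hs5 : s5 = f.s) (hs : 0 ≤ s5) (hr0 : 1 ≤ f.r0) (hLam : 0 ≤ u.Lam) (hC2 : 0 ≤ u.C2) :
    ∀ x ∈ M.nr, ∀ y ∈ M.nr, ‖rsc (H0T d L) M1.b x y‖ * om5 s5 x y ≤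
      u.Lam * f.r0 ^ s5 + u.C2 + ε1 := by
  intro x hx y hy
  have h2 := good_om hg hi hs5 hs hr0 hLam hC2 x hx y hy
  have h3 := h1.rel x hx y hy
  have h4 : ‖rsc (H0T d L) M1.b x y‖ ≤ ‖rsc (H0T d L) M.b x y‖ +
      ‖rsc (H0T d L) M1.b x y - rsc (H0T d L) M.b x y‖ := by
    have := norm_add_le (rsc (H0T d L) M.b x y)
      (rsc (H0T d L) M1.b x y - rsc (H0T d L) M.b x y)
    rwa [add_sub_cancel] at this
  have h5 := mul_le_mul_of_nonneg_right h4 (om5_pos s5 x y).le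
  rw [add_mul] at h5
  linarith

/-- fourth moments of the new medium -/
theorem RCls.fourV (hr : Rem M M1 S) (h1 : RCls M M1 M.nr c s5 ν ε1 q1 W1 K1) (hg : Good f t M)
    (hi : t.In f M u) :
    ∀ z ∈ M.nr, ∑ y ∈ M1.A, ‖rsc (H0T d L) M1.b z y‖ ^ 4 ≤ 8 * (u.tau + q1) := by
  intro z hz
  have h2 := h1.four z hz
  have h3 : ∑ y ∈ M1.A, ‖rsc (H0T d L) M.b z y‖ ^ 4 ≤ u.tau :=
    (Finset.sum_le_sum_of_subset_of_nonneg hr.A_sub fun y _ _ => by positivity).trans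
      ((hg.h2 z (mem_nr.1 hz)).trans (hi.tau z))
  calc ∑ y ∈ M1.A, ‖rsc (H0T d L) M1.b z y‖ ^ 4 ≤
        ∑ y ∈ M1.A, 8 * (‖rsc (H0T d L) M.b z y‖ ^ 4 +
          ‖rsc (H0T d L) M1.b z y - rsc (H0T d L) M.b z y‖ ^ 4) :=
        Finset.sum_le_sum fun y _ => by
          have := four_add (rsc (H0T d L) M.b z y)
            (rsc (H0T d L) M1.b z y - rsc (H0T d L) M.b z y)
          rwa [add_sub_cancel] at this
    _ = 8 * (∑ y ∈ M1.A, ‖rsc (H0T d L) M.b z y‖ ^ 4 +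
          ∑ y ∈ M1.A, ‖rsc (H0T d L) M1.b z y - rsc (H0T d L) M.b z y‖ ^ 4) := by
        rw [← Finset.mul_sum, Finset.sum_add_distrib]
    _ ≤ _ := by linarith

end Pool.Agent.ANI
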