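import Pool.Agent.ANI.ContIn
import Pool.Agent.ANI.RemComp
import Pool.Agent.ANQ.Proc

/-! # ANI INSPRE: the two steps of an insertion from the profiles (helper75)

* `readP_read` : `ANQ.read` as `ReadP`.
* `btS` : diagonal with the sites of `S` read; `im_btS`, `btS_rd`, `du_of`.
* `annIn_of` : the hypotheses `AnnIn` from the profiles;  `contIn_of` : the hypotheses `ContIn`.
-/

open Matrix Finset

noncomputable section

namespace Pool.Agent.ANI

open Pool.Agent.Kin Pool.Agent.APS Pool.Agent.AND Pool.Agent.ANL Pool.Agent.ANM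

section prof

variable {d L : ℕ}

theorem readP_read {π : Prof (Tor d L)} {nf : ℕ} {U : Finset (Tor d L)}
    (hlv : ∀ x ∈ π.rd, π.lev x = nf) (ha : Disjoint π.act π.rd) (hi : Disjoint π.ine π.rd) :
    ReadP π (ANQ.read π nf U) (U \ π.rd) where
  act := by
    show π.act \ U = π.act \ (U \ π.rd)
    ext x
    simp only [Finset.mem_sdiff, not_and, not_not]
    constructor
    · rintro ⟨h1, h2⟩
      exact ⟨h1, fun h => absurd h h2⟩
    · rintro ⟨h1, h2⟩
      exact ⟨h1, fun h => Finset.disjoint_left.1 ha h1 (h2 h)⟩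
  rd := by
    show π.rd ∪ U = π.rd ∪ (U \ π.rd)
    rw [Finset.union_sdiff_self_eq_union]
  ine := by
    show π.ine \ U = π.ine \ (U \ π.rd)
    ext x
    simp only [Finset.mem_sdiff, not_and, not_not]
    constructor
    · rintro ⟨h1, h2⟩
      exact ⟨h1, fun h => absurd h h2⟩
    · rintro ⟨h1, h2⟩
      exact ⟨h1, fun h => Finset.disjoint_left.1 hi h1 (h2 h)⟩
  lev x hx := by
    show (if x ∈ U then nf else π.lev x) = π.lev x
    split_ifs with h
    · have h1 : x ∈ π.rd := by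
        by_contra hc
        exact hx (Finset.mem_sdiff.2 ⟨h, hc⟩)
      exact (hlv x h1).symm
    · rfl
  sg x hx hr := by
    show (if x ∈ U then 0 else π.sg x) = π.sg x
    rw [if_neg]
    intro h
    exact hx (Finset.mem_sdiff.2 ⟨h, hr⟩)

/-- the levels of the read sites after a reading -/
theorem lev_read {π : Prof (Tor d L)} {nf : ℕ} {U : Finset (Tor d L)}
    (hlv : ∀ x ∈ π.rd, π.lev x = nf) :
    ∀ x ∈ (ANQ.read π nf U).rd, (ANQ.read π nf U).lev x = nf := by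
  intro x hx
  show (if x ∈ U then nf else π.lev x) = nf
  split_ifs with h
  · rfl
  · exact hlv x ((Finset.mem_union.1 hx).resolve_right h)

end prof

variable {d L : ℕ} [NeZero L]

variable {X : Type} {Y : Sys X} {π π1 : Prof (Tor d L)} {v : Tor d L → X} {M : Med (Tor d L)}
  {S : Finset (Tor d L)} {nf : ℕ}

/-- the diagonal in which the sites of `S` are read -/
def btS (Y : Sys X) (π1 : Prof (Tor d L)) (v : Tor d L → X) (M : Med (Tor d L))
    (S : Finset (Tor d L)) (x : Tor d L) : ℂ := if x ∈ S then cp Y π1 v x else M.b x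

omit [NeZero L] in
theorem cp_rd {x : Tor d L} (hx : x ∈ π1.rd) (hl : π1.lev x = nf) :
    cp Y π1 v x = (Y.hh nf (v x) : ℂ) - (Y.E : ℂ) := by
  unfold cp
  rw [if_pos hx, hl, sub_zero]

/-- diagonal of the read sites of a medium -/
theorem med_rd (hM : IsMed (H0T d L) Y π v M) (hlv : ∀ x ∈ π.rd, π.lev x = nf)
    (hd : Disjoint M.A M.U) {x : Tor d L} (hx : x ∈ M.U) :
    M.b x = (Y.hh nf (v x) : ℂ) - (Y.E : ℂ) := by
  have h1 : x ∈ π.rd := by rw [← hM.U]; exact hx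
  have h2 : x ∉ π.act := by
    rw [← hM.A]
    exact fun h => Finset.disjoint_left.1 hd h hx
  rw [hM.b x, cp_rd h1 (hlv x h1)]
  unfold AND.kp
  rw [if_neg h2]
  simp

omit [NeZero L] in
theorem btS_off {x : Tor d L} (hx : x ∉ S) : btS Y π1 v M S x = M.b x := if_neg hx

omit [NeZero L] in
theorem btS_on (hp : ReadP π π1 S) (hlv : ∀ x ∈ π1.rd, π1.lev x = nf) {x : Tor d L}
    (hx : x ∈ S) : btS Y π1 v M S x = (Y.hh nf (v x) : ℂ) - (Y.E : ℂ) := by
  unfold btS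
  rw [if_pos hx]
  have h1 : x ∈ π1.rd := by rw [hp.rd]; exact Finset.mem_union_right _ hx
  exact cp_rd h1 (hlv x h1)

omit [NeZero L] in
theorem btS_im (hp : ReadP π π1 S) (hlv : ∀ x ∈ π1.rd, π1.lev x = nf) {x : Tor d L}
    (hx : x ∈ S) : (btS Y π1 v M S x).im = 0 := by
  rw [btS_on hp hlv hx]
  simp

/-- size of the perturbation at the sites of the annulus -/
theorem du_of (hM : IsMed (H0T d L) Y π v M) (hp : ReadP π π1 S)
    (hlv : ∀ x ∈ π1.rd, π1.lev x = nf) {x : Tor d L} (hx : x ∈ S) (hr : x ∉ π.rd)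
    (ha : x ∈ π.act ∨ x ∈ π.ine) {h1 kx C : ℝ} (hη : 0 ≤ Y.eta)
    (hh : |Y.hh nf (v x) - Y.hh (π.lev x) (v x)| ≤ h1) (hk0 : 0 ≤ M.k x) (hk : M.k x ≤ kx)
    (hC : ‖rsc (H0T d L) M.b x x‖ ≤ C) :
    ‖btS Y π1 v M S x - M.b x‖ ≤ h1 + Y.eta + kx * C := by
  rw [btS_on hp hlv hx, hM.b x, ← hM.k]
  unfold cp
  rw [if_neg hr, if_pos ha]
  have e1 : (Y.hh nf (v x) : ℂ) - (Y.E : ℂ) - ((Y.hh (π.lev x) (v x) : ℂ) - (Y.E : ℂ) -
      ((Y.eta : ℂ) * Complex.I + 0) - (M.k x : ℂ) * rsc (H0T d L) M.b x x) =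
      ((Y.hh nf (v x) - Y.hh (π.lev x) (v x) : ℝ) : ℂ) + (Y.eta : ℂ) * Complex.I +
        (M.k x : ℂ) * rsc (H0T d L) M.b x x := by
    push_cast
    ring
  rw [e1]
  refine (norm_add₃_le).trans ?_
  rw [Complex.norm_real, Real.norm_eq_abs, norm_mul, norm_mul, Complex.norm_real,
    Complex.norm_real, Complex.norm_I, mul_one, Real.norm_eq_abs, Real.norm_eq_abs,
    abs_of_nonneg hη, abs_of_nonneg hk0]
  have h2 : M.k x * ‖rsc (H0T d L) M.b x x‖ ≤ kx * C :=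
    mul_le_mul hk hC (norm_nonneg _) (hk0.trans hk)
  linarith

/-- units from the non resonance -/
theorem btS_mbb (hM : IsMed (H0T d L) Y π v M) (hp : ReadP π π1 S)
    (hlv : ∀ x ∈ π1.rd, π1.lev x = nf) (hSr : Disjoint S π.rd) (hd : Disjoint M.A M.U)
    (hav : Avoid (H0T d L) (Y.hh nf) Y.E) :
    IsUnit (MBB (H0T d L) (btS Y π1 v M S) (M.nr \ S)).det := by
  refine mbb_of_avoid hav (v := v) fun x hx => ?_
  by_cases hS : x ∈ S
  · exact btS_on hp hlv hS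
  · rw [btS_off hS]
    have hU : x ∈ M.U := by
      by_contra hc
      exact hx (Finset.mem_sdiff.2 ⟨mem_nr.2 hc, hS⟩)
    refine med_rd hM (fun y hy => ?_) hd hU
    have h1 : y ∉ S := fun h => Finset.disjoint_left.1 hSr h hy
    rw [← hp.lev y h1]
    exact hlv y (by rw [hp.rd]; exact Finset.mem_union_left _ hy)

variable {f : Fix} {t : Tol d L} {u : UTol} {κ : Type*} {D : κ → Set (Tor d L)} {a cw : ℕ}
  {μ : ℝ}

/-- general numbers of the level and of the constants -/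
structure BasN (f : Fix) (t : Tol d L) (u : UTol) (s5 : ℝ) : Prop where
  k1 : t.k ≤ 1
  rho0 : 0 < u.rho
  rho : u.rho ≤ 2
  hs5 : s5 = f.s
  s50 : 0 ≤ s5
  r0 : 1 ≤ f.r0
  Lam0 : 0 ≤ u.Lam
  C20 : 0 ≤ u.C2
  tau0 : 0 ≤ u.tau

/-- the hypotheses of the annulus step from the profiles -/
theorem annIn_of {s5 uu h1 : ℝ} (hM : IsMed (H0T d L) Y π v M) (hg : Good f t M)
    (hi : t.In f M u) (hN : Num f t u) (hb : BasN f t u s5) (hp : ReadP π π1 S)
    (hlv : ∀ x ∈ π1.rd, π1.lev x = nf) (hSr : Disjoint S π.rd)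
    (hav : Avoid (H0T d L) (Y.hh nf) Y.E) (hη : 0 ≤ Y.eta)
    (hact : ∀ x ∈ S, x ∈ π.act ∨ x ∈ π.ine)
    (hh : ∀ x ∈ S, |Y.hh nf (v x) - Y.hh (π.lev x) (v x)| ≤ h1) (hh0 : 0 ≤ h1)
    (huu : h1 + Y.eta + t.k * f.C1 ≤ uu) (hw : Wts f t M S D a cw μ) :
    AnnIn f t u M S (btS Y π1 v M S) uu s5 D a cw μ where
  good := hg
  tin := hi
  num := hN
  k1 := hb.k1
  rho0 := hb.rho0
  rho := hb.rho
  SU := by rw [hM.U]; exact hSr
  off := fun x hx => btS_off hx
  imS := fun x hx => btS_im hp hlv hx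
  uu0 := by
    have h2 := hg.C1_pos hi hN
    have h3 : 0 ≤ t.k * f.C1 := by
      have h4 := hN.kl
      have h5 : 0 ≤ t.k := h4.le.trans hN.klk
      positivity
    linarith
  du := fun x hx => by
    have hr : x ∉ π.rd := Finset.disjoint_left.1 hSr hx
    have hU : x ∉ M.U := by rw [hM.U]; exact hr
    refine (du_of hM hp hlv hx hr (hact x hx) hη (hh x hx) (hg.k_nonneg hN x)
      (kx := t.k) ?_ (hg.gam_le hi hN hU)).trans huu
    by_cases hA : x ∈ M.A
    · exact hg.khi x hA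
    · rw [hg.k0 x hA]
      have h4 := hN.kl
      have h5 : 0 ≤ t.k := h4.le.trans hN.klk
      positivity
  mbb := btS_mbb hM hp hlv hSr hg.AU hav
  hs5 := hb.hs5
  s50 := hb.s50
  r0 := hb.r0
  Lam0 := hb.Lam0
  C20 := hb.C20
  wts := hw

/-- the hypotheses of the content step from the profiles -/
theorem contIn_of {s5 CV τV ρF Ml : ℝ} {F V : Finset (Tor d L)} {m : ℕ}
    {Fb Db : ℕ → Finset (Tor d L)} {r1 D1 nb : ℕ} (hM : IsMed (H0T d L) Y π v M)
    (hg : Good f t M) (hi : t.In f M u) (hN : Num f t u) (hb : BasN f t u s5)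
    (hp : ReadP π π1 F) (hlv : ∀ x ∈ π1.rd, π1.lev x = nf) (hFr : Disjoint F π.rd)
    (hav : Avoid (H0T d L) (Y.hh nf) Y.E) (hgeo : CGeo M F V m Fb Db r1 D1 nb ρF)
    (hlev : ∀ i < m, ∀ y ∈ bdy (H0T d L) (Db i), LevLe (H0T d L) M.b F y Ml) (hMl : 0 ≤ Ml)
    (hCV : 0 ≤ CV) (hτV : 0 ≤ τV)
    (hent : ∀ x ∈ V, ∀ y ∈ V, ‖rsc (H0T d L) M.b x y‖ * om5 s5 x y ≤ CV)
    (hfour : ∀ z ∈ V, ∑ y ∈ M.A, ‖rsc (H0T d L) M.b z y‖ ^ 4 ≤ τV)
    (hw : Wts f t M F D a cw μ) :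
    ContIn f t u M F V (btS Y π1 v M F) m Fb Db r1 D1 nb Ml CV τV ρF s5 D a cw μ where
  good := hg
  tin := hi
  num := hN
  k1 := hb.k1
  rho0 := hb.rho0
  rho := hb.rho
  FU := by rw [hM.U]; exact hFr
  off := fun x hx => btS_off hx
  imF := fun x hx => btS_im hp hlv hx
  res := by
    refine res_of_avoid hav (v := v) (fun x hx => ?_) (fun i hi x hx => ?_)
    · refine med_rd hM (fun y hy => ?_) hg.AU hx
      have h1 : y ∉ F := fun h => Finset.disjoint_left.1 hFr h hy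
      rw [← hp.lev y h1]
      exact hlv y (by rw [hp.rd]; exact Finset.mem_union_left _ hy)
    · exact btS_on hp hlv (by rw [← hgeo.un]; exact mem_UFn.2 ⟨i, hi, hx⟩)
  mbb := btS_mbb hM hp hlv hFr hg.AU hav
  lev := hlev
  geo := hgeo
  s50 := hb.s50
  Ml0 := hMl
  CV0 := hCV
  τV0 := hτV
  ent := hent
  four := hfour
  wts := hw

end Pool.Agent.ANI
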