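import Pool.Agent.ANL.Base

/-! # ANI ANN: reading the annulus (helper75)

A change of the diagonal on a finite set `S` which is small against the resolvent on `S`:
`∑_{y ∈ S} ‖b'_y - b_y‖ ‖G_xy‖ ≤ 1/2` for `x ∈ S`.  Then the new matrix is invertible and all
entries change by at most `2 (∑_{z ∈ S} ‖b'_z - b_z‖ ‖G_xz‖) max_{z ∈ S} ‖G_zy‖`.
Used when all remaining digits of the annulus `B_R(F) \ F` are read (`S` = active sites there,
`b' - b` of size `κ^(1/2)`).
-/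

open Matrix Finset

noncomputable section

namespace Pool.Agent.ANI

open Pool.Agent.Kin Pool.Agent.APS Pool.Agent.ANL

variable {ι : Type} [Fintype ι] [DecidableEq ι] {H : Matrix ι ι ℂ} {b b' : ι → ℂ}
  {S : Finset ι}

/-- `b'` is a small change of `b` on `S` -/
structure Rd (H : Matrix ι ι ℂ) (b b' : ι → ℂ) (S : Finset ι) : Prop where
  adm : ANL.Adm H b
  off : ∀ x, x ∉ S → b' x = b x
  im : ∀ x ∈ S, (b' x).im ≤ 0
  small : ∀ x ∈ S, ∑ y ∈ S, ‖b' y - b y‖ * ‖rsc H b x y‖ ≤ 1 / 2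

/-- a vector which is at most half its maximum on `S` vanishes on `S` -/
private lemma zero_of_half {v : ι → ℂ} (h : ∀ m : ℝ, 0 ≤ m → (∀ y ∈ S, ‖v y‖ ≤ m) →
    ∀ x ∈ S, ‖v x‖ ≤ m / 2) : ∀ x ∈ S, v x = 0 := by
  intro x hx
  obtain ⟨w, hw, hmax⟩ := Finset.exists_max_image S (fun y => ‖v y‖) ⟨x, hx⟩
  have h1 := h ‖v w‖ (norm_nonneg _) (fun y hy => hmax y hy) w hw
  have h2 : ‖v w‖ = 0 := by
    have := norm_nonneg (v w)
    linarith
  have h3 := hmax x hx
  simp only [h2] at h3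
  exact norm_eq_zero.1 (le_antisymm h3 (norm_nonneg _))

theorem Rd.adm' (h : Rd H b b' S) : ANL.Adm H b' := by
  refine ⟨h.adm.sym, fun x => ?_, ?_⟩
  · by_cases hx : x ∈ S
    · exact h.im x hx
    · rw [h.off x hx]
      exact h.adm.im x
  · rw [isUnit_iff_ne_zero]
    intro hdet
    obtain ⟨v, hv0, hv⟩ := Matrix.exists_mulVec_eq_zero_iff.2 hdet
    apply hv0
    have hM : (H + diagonal b) *ᵥ v = fun x => -((b' x - b x) * v x) := by
      have h1 : (H + diagonal b) *ᵥ v = (H + diagonal b') *ᵥ v - (diagonal b' - diagonal b) *ᵥ v := by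
        rw [← Matrix.sub_mulVec]
        congr 1
        abel
      rw [h1, hv]
      funext x
      rw [Pi.sub_apply, Matrix.sub_mulVec, Pi.sub_apply, Matrix.mulVec_diagonal,
        Matrix.mulVec_diagonal]
      simp only [Pi.zero_apply]
      ring
    have hv1 : v = rsc H b *ᵥ (fun x => -((b' x - b x) * v x)) := by
      rw [← hM]
      exact (ANL.res_src h.adm v).symm
    have hv2 : ∀ x, v x = -∑ y ∈ S, rsc H b x y * ((b' y - b y) * v y) := by
      intro x
      conv_lhs => rw [hv1]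
      show ∑ y, rsc H b x y * (-((b' y - b y) * v y)) = _
      rw [← Finset.sum_neg_distrib]
      symm
      refine Finset.sum_subset_zero_on_sdiff (Finset.subset_univ S) ?_ ?_
      · intro y hy
        rw [Finset.mem_sdiff] at hy
        rw [h.off y hy.2]
        ring
      · intro y _
        ring
    have hv3 : ∀ x ∈ S, v x = 0 := by
      refine zero_of_half fun m hm hmv x hx => ?_
      rw [hv2 x, norm_neg]
      refine (norm_sum_le _ _).trans ?_
      have h4 : ∀ y ∈ S, ‖rsc H b x y * ((b' y - b y) * v y)‖ ≤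
          (‖b' y - b y‖ * ‖rsc H b x y‖) * m := by
        intro y hy
        rw [norm_mul, norm_mul]
        have := mul_le_mul_of_nonneg_left (hmv y hy)
          (mul_nonneg (norm_nonneg (b' y - b y)) (norm_nonneg (rsc H b x y)))
        calc ‖rsc H b x y‖ * (‖b' y - b y‖ * ‖v y‖) = ‖b' y - b y‖ * ‖rsc H b x y‖ * ‖v y‖ := by ring
          _ ≤ _ := this
      refine (Finset.sum_le_sum h4).trans ?_
      rw [← Finset.sum_mul]
      have := mul_le_mul_of_nonneg_right (h.small x hx) hm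
      linarith
    funext x
    rw [hv2 x]
    rw [Finset.sum_eq_zero fun y hy => by rw [hv3 y hy]; ring]
    simp

/-- columns of the new resolvent on `S` -/
theorem Rd.col (h : Rd H b b' S) {y : ι} {g : ℝ} (hg : ∀ z ∈ S, ‖rsc H b z y‖ ≤ g) :
    ∀ z ∈ S, ‖rsc H b' z y‖ ≤ 2 * g := by
  intro z hz
  obtain ⟨w, hw, hmax⟩ := Finset.exists_max_image S (fun z => ‖rsc H b' z y‖) ⟨z, hz⟩
  refine (hmax z hz).trans ?_
  have h1 : rsc H b' w y = rsc H b w y - ∑ z, rsc H b w z * (b' z - b z) * rsc H b' z y := by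
    rw [← ANL.adm_sub h.adm h.adm' w y]
    ring
  have h2 : ‖∑ z, rsc H b w z * (b' z - b z) * rsc H b' z y‖ ≤ 1 / 2 * ‖rsc H b' w y‖ := by
    have h3 : ∑ z, rsc H b w z * (b' z - b z) * rsc H b' z y =
        ∑ z ∈ S, rsc H b w z * (b' z - b z) * rsc H b' z y := by
      symm
      refine Finset.sum_subset (Finset.subset_univ S) fun z _ hz => ?_
      rw [h.off z hz]
      ring
    rw [h3]
    refine (norm_sum_le _ _).trans ?_
    have h4 : ∀ z ∈ S, ‖rsc H b w z * (b' z - b z) * rsc H b' z y‖ ≤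
        (‖b' z - b z‖ * ‖rsc H b w z‖) * ‖rsc H b' w y‖ := by
      intro z hz
      rw [norm_mul, norm_mul, mul_comm ‖rsc H b w z‖]
      exact mul_le_mul_of_nonneg_left (hmax z hz) (by positivity)
    refine (Finset.sum_le_sum h4).trans ?_
    rw [← Finset.sum_mul]
    exact mul_le_mul_of_nonneg_right (h.small w hw) (norm_nonneg _)
  have h5 : ‖rsc H b' w y‖ ≤ g + 1 / 2 * ‖rsc H b' w y‖ := by
    conv_lhs => rw [h1]
    exact (norm_sub_le _ _).trans (add_le_add (hg w hw) h2)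
  linarith

theorem Rd.entry' (h : Rd H b b' S) (x : ι) {y : ι} {g : ℝ} (hg : ∀ z ∈ S, ‖rsc H b z y‖ ≤ g) :
    ‖rsc H b' x y - rsc H b x y‖ ≤ 2 * (∑ z ∈ S, ‖b' z - b z‖ * ‖rsc H b x z‖) * g := by
  rw [norm_sub_rev, ANL.adm_sub h.adm h.adm' x y]
  have h3 : ∑ z, rsc H b x z * (b' z - b z) * rsc H b' z y =
      ∑ z ∈ S, rsc H b x z * (b' z - b z) * rsc H b' z y := by
    symm
    refine Finset.sum_subset (Finset.subset_univ S) fun z _ hz => ?_
    rw [h.off z hz]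
    ring
  rw [h3]
  refine (norm_sum_le _ _).trans ?_
  rw [mul_assoc, Finset.sum_mul, Finset.mul_sum]
  refine Finset.sum_le_sum fun z hz => ?_
  rw [norm_mul, norm_mul]
  have h6 := mul_le_mul_of_nonneg_left (h.col hg z hz)
    (mul_nonneg (norm_nonneg (rsc H b x z)) (norm_nonneg (b' z - b z)))
  calc ‖rsc H b x z‖ * ‖b' z - b z‖ * ‖rsc H b' z y‖ ≤ _ := h6
    _ = _ := by ring

/-- the change of the entries, product form -/
theorem Rd.entry (h : Rd H b b' S) {u : ℝ} (hu : ∀ z ∈ S, ‖b' z - b z‖ ≤ u) {x y : ι}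
    {gx gy : ℝ} (hgx : ∀ z ∈ S, ‖rsc H b x z‖ ≤ gx) (hgy : ∀ z ∈ S, ‖rsc H b z y‖ ≤ gy) :
    ‖rsc H b' x y - rsc H b x y‖ ≤ 2 * u * S.card * gx * gy := by
  refine (h.entry' x hgy).trans ?_
  rcases S.eq_empty_or_nonempty with hS | ⟨z0, hz0⟩
  · simp [hS]
  have hu0 : 0 ≤ u := (norm_nonneg _).trans (hu z0 hz0)
  have hgy0 : 0 ≤ gy := (norm_nonneg _).trans (hgy z0 hz0)
  have h1 : ∑ z ∈ S, ‖b' z - b z‖ * ‖rsc H b x z‖ ≤ S.card * (u * gx) := by
    rw [← nsmul_eq_mul, ← Finset.sum_const]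
    exact Finset.sum_le_sum fun z hz =>
      mul_le_mul (hu z hz) (hgx z hz) (norm_nonneg _) hu0
  calc 2 * (∑ z ∈ S, ‖b' z - b z‖ * ‖rsc H b x z‖) * gy ≤ 2 * (S.card * (u * gx)) * gy := by
        gcongr
    _ = _ := by ring

/-- the smallness hypothesis from uniform bounds -/
theorem Rd.mk' (hA : ANL.Adm H b) (hoff : ∀ x, x ∉ S → b' x = b x) (him : ∀ x ∈ S, (b' x).im ≤ 0)
    {u C : ℝ} (hu : ∀ z ∈ S, ‖b' z - b z‖ ≤ u) (hC : ∀ x ∈ S, ∀ y ∈ S, ‖rsc H b x y‖ ≤ C)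
    (hsm : S.card * C * u ≤ 1 / 2) : Rd H b b' S := by
  refine ⟨hA, hoff, him, fun x hx => ?_⟩
  have hu0 : 0 ≤ u := (norm_nonneg _).trans (hu x hx)
  calc ∑ y ∈ S, ‖b' y - b y‖ * ‖rsc H b x y‖ ≤ ∑ y ∈ S, u * C :=
        Finset.sum_le_sum fun y hy => mul_le_mul (hu y hy) (hC x hx y hy) (norm_nonneg _) hu0
    _ = S.card * C * u := by rw [Finset.sum_const, nsmul_eq_mul]; ring
    _ ≤ 1 / 2 := hsm

end Pool.Agent.ANI
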