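import Pool.Agent.ANI.RowObs

/-! # ANI CLO: pointwise closeness of two media and the update of (H2), (H3) (helper75)

`G`, `G'` two kernels, `e` weights (absorption) on `X` (the non-read sites of the new medium), `A ⊆ X` active sites.
`Clo G G' e X A r q g`: rows `∑_X e |G' - G|² ≤ r²`, `∑_A |G' - G|⁴ ≤ q`, entries `≤ g`; everything depends on the site.
* `Clo.add`, `Clo.min`: additive, closed under pointwise minima.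
* `Clo.h2`: update of (H2).   * `h3_upd`: update of (H3) when sites are removed and the kernel and the weights change.
-/

open Finset

noncomputable section

namespace Pool.Agent.ANI

variable {ι : Type}

/-- closeness of two kernels -/
structure Clo (G G' : ι → ι → ℂ) (e : ι → ℝ) (X A : Finset ι) (r q : ι → ℝ) (g : ι → ι → ℝ) :
    Prop where
  r0 : ∀ x ∈ X, 0 ≤ r x
  row : ∀ x ∈ X, ∑ y ∈ X, e y * ‖G' x y - G x y‖ ^ 2 ≤ r x ^ 2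
  four : ∀ x ∈ X, ∑ y ∈ A, ‖G' x y - G x y‖ ^ 4 ≤ q x
  ent : ∀ x ∈ X, ∀ y ∈ X, ‖G' x y - G x y‖ ≤ g x y

variable {G G' G'' : ι → ι → ℂ} {e : ι → ℝ} {X A : Finset ι} {r q r' q' : ι → ℝ}
  {g g' : ι → ι → ℝ}

/-- Minkowski for weighted `ℓ²` rows -/
theorem row_add {Z : Finset ι} {w : ι → ℝ} (hw : ∀ y ∈ Z, 0 ≤ w y) {f h : ι → ℂ} {s t : ℝ}
    (hs : 0 ≤ s) (ht : 0 ≤ t) (hf : ∑ y ∈ Z, w y * ‖f y‖ ^ 2 ≤ s ^ 2)
    (hh : ∑ y ∈ Z, w y * ‖h y‖ ^ 2 ≤ t ^ 2) :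
    ∑ y ∈ Z, w y * ‖f y + h y‖ ^ 2 ≤ (s + t) ^ 2 := by
  have hc : ∑ y ∈ Z, w y * (‖f y‖ * ‖h y‖) ≤ s * t := by
    have h1 : (∑ y ∈ Z, w y * (‖f y‖ * ‖h y‖)) ^ 2 ≤
        (∑ y ∈ Z, w y * ‖f y‖ ^ 2) * ∑ y ∈ Z, w y * ‖h y‖ ^ 2 := by
      have h2 := Finset.sum_mul_sq_le_sq_mul_sq Z (fun y => √(w y) * ‖f y‖)
        (fun y => √(w y) * ‖h y‖)
      have e1 : ∀ y ∈ Z, √(w y) * ‖f y‖ * (√(w y) * ‖h y‖) = w y * (‖f y‖ * ‖h y‖) := by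
        intro y hy
        have := Real.mul_self_sqrt (hw y hy)
        calc √(w y) * ‖f y‖ * (√(w y) * ‖h y‖) = (√(w y) * √(w y)) * (‖f y‖ * ‖h y‖) := by ring
          _ = _ := by rw [this]
      have e2 : ∀ k : ι → ℂ, ∀ y ∈ Z, (√(w y) * ‖k y‖) ^ 2 = w y * ‖k y‖ ^ 2 := by
        intro k y hy
        rw [mul_pow, Real.sq_sqrt (hw y hy)]
      rw [Finset.sum_congr rfl e1, Finset.sum_congr rfl (e2 f), Finset.sum_congr rfl (e2 h)] at h2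
      exact h2
    have h0 : 0 ≤ ∑ y ∈ Z, w y * ‖h y‖ ^ 2 :=
      Finset.sum_nonneg fun y hy => mul_nonneg (hw y hy) (by positivity)
    have h3 : (∑ y ∈ Z, w y * (‖f y‖ * ‖h y‖)) ^ 2 ≤ (s * t) ^ 2 :=
      h1.trans ((mul_le_mul hf hh h0 (sq_nonneg s)).trans (le_of_eq (by ring)))
    exact (abs_le_of_sq_le_sq' h3 (mul_nonneg hs ht)).2
  have h4 : ∀ y ∈ Z, w y * ‖f y + h y‖ ^ 2 ≤
      w y * ‖f y‖ ^ 2 + 2 * (w y * (‖f y‖ * ‖h y‖)) + w y * ‖h y‖ ^ 2 := by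
    intro y hy
    have := norm_add_le (f y) (h y)
    calc w y * ‖f y + h y‖ ^ 2 ≤ w y * (‖f y‖ + ‖h y‖) ^ 2 := by
          gcongr
          exact hw y hy
      _ = _ := by ring
  refine (Finset.sum_le_sum h4).trans ?_
  rw [Finset.sum_add_distrib, Finset.sum_add_distrib, ← Finset.mul_sum]
  nlinarith [hf, hh, hc]

theorem four_add (a b : ℂ) : ‖a + b‖ ^ 4 ≤ 8 * (‖a‖ ^ 4 + ‖b‖ ^ 4) := by
  have h1 := norm_add_le a b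
  have h2 : ‖a + b‖ ^ 4 ≤ (‖a‖ + ‖b‖) ^ 4 := by gcongr
  refine h2.trans ?_
  nlinarith [sq_nonneg (‖a‖ - ‖b‖), sq_nonneg (‖a‖ + ‖b‖), sq_nonneg (‖a‖ ^ 2 - ‖b‖ ^ 2),
    mul_nonneg (sq_nonneg (‖a‖ - ‖b‖)) (sq_nonneg (‖a‖ + ‖b‖)),
    mul_nonneg (sq_nonneg (‖a‖ - ‖b‖)) (sq_nonneg (‖a‖ - ‖b‖)),
    mul_nonneg (sq_nonneg (‖a‖ - ‖b‖)) (mul_nonneg (norm_nonneg a) (norm_nonneg b))]

theorem Clo.add (he : ∀ y ∈ X, 0 ≤ e y) (h : Clo G G' e X A r q g)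
    (h' : Clo G' G'' e X A r' q' g') :
    Clo G G'' e X A (fun x => r x + r' x) (fun x => 8 * (q x + q' x))
      (fun x y => g x y + g' x y) where
  r0 x hx := add_nonneg (h.r0 x hx) (h'.r0 x hx)
  row x hx := by
    have h1 := row_add he (h.r0 x hx) (h'.r0 x hx) (h.row x hx) (h'.row x hx)
    refine le_trans (le_of_eq (Finset.sum_congr rfl fun y _ => ?_)) h1
    congr 3
    ring
  four x hx := by
    refine (Finset.sum_le_sum (g := fun y => 8 * (‖G' x y - G x y‖ ^ 4 + ‖G'' x y - G' x y‖ ^ 4))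
      fun y _ => ?_).trans ?_
    · have := four_add (G' x y - G x y) (G'' x y - G' x y)
      rwa [show G' x y - G x y + (G'' x y - G' x y) = G'' x y - G x y by ring] at this
    · rw [← Finset.mul_sum, Finset.sum_add_distrib]
      have h1 := h.four x hx
      have h2 := h'.four x hx
      linarith
  ent x hx y hy := by
    have h1 := norm_add_le (G' x y - G x y) (G'' x y - G' x y)
    rw [show G' x y - G x y + (G'' x y - G' x y) = G'' x y - G x y by ring] at h1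
    exact h1.trans (add_le_add (h.ent x hx y hy) (h'.ent x hx y hy))

theorem Clo.min (h : Clo G G' e X A r q g) (h' : Clo G G' e X A r' q' g') :
    Clo G G' e X A (fun x => min (r x) (r' x)) (fun x => min (q x) (q' x))
      (fun x y => min (g x y) (g' x y)) where
  r0 x hx := le_min (h.r0 x hx) (h'.r0 x hx)
  row x hx := by
    rcases min_cases (r x) (r' x) with ⟨h1, _⟩ | ⟨h1, _⟩
    · show _ ≤ (Min.min (r x) (r' x)) ^ 2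
      rw [h1]; exact h.row x hx
    · show _ ≤ (Min.min (r x) (r' x)) ^ 2
      rw [h1]; exact h'.row x hx
  four x hx := le_min (h.four x hx) (h'.four x hx)
  ent x hx y hy := le_min (h.ent x hx y hy) (h'.ent x hx y hy)

theorem Clo.mono (h : Clo G G' e X A r q g) (hr : ∀ x ∈ X, r x ≤ r' x)
    (hq : ∀ x ∈ X, q x ≤ q' x) (hg : ∀ x ∈ X, ∀ y ∈ X, g x y ≤ g' x y) :
    Clo G G' e X A r' q' g' where
  r0 x hx := (h.r0 x hx).trans (hr x hx)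
  row x hx := (h.row x hx).trans (pow_le_pow_left₀ (h.r0 x hx) (hr x hx) 2)
  four x hx := (h.four x hx).trans (hq x hx)
  ent x hx y hy := (h.ent x hx y hy).trans (hg x hx y hy)

theorem Clo.diag (h : Clo G G' e X A r q g) {γ : ℂ} {x : ι} (hx : x ∈ X) {δ : ℝ}
    (hδ : ‖G x x - γ‖ ≤ δ) : ‖G' x x - γ‖ ≤ δ + g x x := by
  have h1 := norm_add_le (G' x x - G x x) (G x x - γ)
  rw [show G' x x - G x x + (G x x - γ) = G' x x - γ by ring] at h1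
  have := h.ent x hx x hx
  linarith

/-- update of (H2) -/
theorem Clo.h2 (h : Clo G G' e X A r q g) {θ : ℝ} (hθ : 0 < θ) {x : ι} (hx : x ∈ X) {τ : ℝ}
    (hτ : ∑ y ∈ A, ‖G x y‖ ^ 4 ≤ τ) :
    ∑ y ∈ A, ‖G' x y‖ ^ 4 ≤ (1 + θ) ^ 3 * τ + (1 + 1 / θ) ^ 3 * q x := by
  have h1 := row_four (Z := A) (w := fun _ => (1 : ℝ)) (g := G x) (g' := G' x)
    (fun _ _ => zero_le_one) hθ
  simp only [one_mul] at h1
  have h2 := h.four x hx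
  have e1 : (1 + θ) ^ 3 * ∑ y ∈ A, ‖G x y‖ ^ 4 ≤ (1 + θ) ^ 3 * τ := by gcongr
  have e2 : (1 + 1 / θ) ^ 3 * ∑ y ∈ A, ‖G' x y - G x y‖ ^ 4 ≤ (1 + 1 / θ) ^ 3 * q x := by
    gcongr
  linarith

/-- `∑_Z w | |g'|² - |g|² | ≤ 2 √(I n) + n` with absolute values inside -/
theorem row_abs1 {Z : Finset ι} {w : ι → ℝ} {f f' : ι → ℂ} {I s : ℝ} (hw : ∀ y ∈ Z, 0 ≤ w y)
    (hs : 0 ≤ s) (hI : ∑ y ∈ Z, w y * ‖f y‖ ^ 2 ≤ I ^ 2) (hI0 : 0 ≤ I)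
    (hn : ∑ y ∈ Z, w y * ‖f' y - f y‖ ^ 2 ≤ s ^ 2) :
    ∑ y ∈ Z, w y * ‖f' y ^ 2 - f y ^ 2‖ ≤ 2 * (I * s) + s ^ 2 ∧
      ∑ y ∈ Z, w y * |‖f' y‖ ^ 2 - ‖f y‖ ^ 2| ≤ 2 * (I * s) + s ^ 2 := by
  have hc : ∑ y ∈ Z, w y * (‖f y‖ * ‖f' y - f y‖) ≤ I * s := by
    have h2 := Finset.sum_mul_sq_le_sq_mul_sq Z (fun y => √(w y) * ‖f y‖)
      (fun y => √(w y) * ‖f' y - f y‖)
    have e1 : ∀ y ∈ Z, √(w y) * ‖f y‖ * (√(w y) * ‖f' y - f y‖) =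
        w y * (‖f y‖ * ‖f' y - f y‖) := by
      intro y hy
      have := Real.mul_self_sqrt (hw y hy)
      calc √(w y) * ‖f y‖ * (√(w y) * ‖f' y - f y‖) =
            (√(w y) * √(w y)) * (‖f y‖ * ‖f' y - f y‖) := by ring
        _ = _ := by rw [this]
    have e2 : ∀ k : ι → ℂ, ∀ y ∈ Z, (√(w y) * ‖k y‖) ^ 2 = w y * ‖k y‖ ^ 2 := by
      intro k y hy
      rw [mul_pow, Real.sq_sqrt (hw y hy)]
    rw [Finset.sum_congr rfl e1, Finset.sum_congr rfl (e2 f),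
      Finset.sum_congr rfl (e2 fun y => f' y - f y)] at h2
    have h0 : 0 ≤ ∑ y ∈ Z, w y * ‖f' y - f y‖ ^ 2 :=
      Finset.sum_nonneg fun y hy => mul_nonneg (hw y hy) (by positivity)
    have h3 : (∑ y ∈ Z, w y * (‖f y‖ * ‖f' y - f y‖)) ^ 2 ≤ (I * s) ^ 2 :=
      h2.trans ((mul_le_mul hI hn h0 (sq_nonneg I)).trans (le_of_eq (by ring)))
    exact (abs_le_of_sq_le_sq' h3 (mul_nonneg hI0 hs)).2
  have key : ∑ y ∈ Z, w y * (2 * (‖f y‖ * ‖f' y - f y‖) + ‖f' y - f y‖ ^ 2) ≤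
      2 * (I * s) + s ^ 2 := by
    have : ∀ y ∈ Z, w y * (2 * (‖f y‖ * ‖f' y - f y‖) + ‖f' y - f y‖ ^ 2) =
        2 * (w y * (‖f y‖ * ‖f' y - f y‖)) + w y * ‖f' y - f y‖ ^ 2 := fun y _ => by ring
    rw [Finset.sum_congr rfl this, Finset.sum_add_distrib, ← Finset.mul_sum]
    linarith
  constructor
  · refine (Finset.sum_le_sum fun y hy => mul_le_mul_of_nonneg_left ?_ (hw y hy)).trans key
    have e1 : f' y ^ 2 - f y ^ 2 = (f' y - f y) * (f' y - f y) + 2 * (f y * (f' y - f y)) := by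
      ring
    rw [e1]
    refine (norm_add_le _ _).trans (le_of_eq ?_)
    rw [norm_mul, norm_mul, norm_mul]
    simp only [Complex.norm_ofNat]
    ring
  · refine (Finset.sum_le_sum fun y hy => mul_le_mul_of_nonneg_left ?_ (hw y hy)).trans key
    have h1 := abs_norm_sub_norm_le (f' y) (f y)
    have h2 : ‖f' y‖ ≤ ‖f y‖ + ‖f' y - f y‖ := by
      have := norm_add_le (f y) (f' y - f y)
      rwa [add_sub_cancel] at this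
    have h3 : |‖f' y‖ ^ 2 - ‖f y‖ ^ 2| = |‖f' y‖ - ‖f y‖| * (‖f' y‖ + ‖f y‖) := by
      rw [sq_sub_sq, abs_mul, abs_of_nonneg (by positivity : 0 ≤ ‖f' y‖ + ‖f y‖), mul_comm]
    rw [h3]
    calc |‖f' y‖ - ‖f y‖| * (‖f' y‖ + ‖f y‖) ≤
          ‖f' y - f y‖ * ((‖f y‖ + ‖f' y - f y‖) + ‖f y‖) := by gcongr
      _ = _ := by ring

variable [DecidableEq ι]

/-- update of (H3): sites are removed, the kernel and the weights change -/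
theorem h3_upd {G G' : ι → ℂ} {e : ι → ℝ} {A A' X X' : Finset ι} {a a' z ζ : ι → ℝ}
    {I s ca cz E1 : ℝ} (hA : A' ⊆ A) (hX : X' ⊆ X) (hAX : A' ⊆ X')
    (ha0 : ∀ y ∈ A, 0 ≤ a y) (hz0 : ∀ y ∈ X, 0 ≤ z y) (he : ∀ y ∈ X', 0 ≤ e y)
    (hca : 0 ≤ ca) (hcz : 0 ≤ cz)
    (hold : ‖∑ y ∈ A, G y ^ 2 * (a y : ℂ)‖ ≤ ∑ y ∈ X, ‖G y‖ ^ 2 * z y)
    (hae : ∀ y ∈ A', a y ≤ ca * e y) (hze : ∀ y ∈ X', z y ≤ cz * e y)
    (hs : 0 ≤ s) (hI0 : 0 ≤ I) (hI : ∑ y ∈ X', e y * ‖G y‖ ^ 2 ≤ I ^ 2)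
    (hn : ∑ y ∈ X', e y * ‖G' y - G y‖ ^ 2 ≤ s ^ 2)
    (hE : ∑ y ∈ A \ A', ‖G y‖ ^ 2 * a y + ∑ y ∈ X \ X', ‖G y‖ ^ 2 * z y ≤ E1)
    (hfin : E1 + (ca + cz) * (2 * (I * s) + s ^ 2) + ∑ y ∈ A', ‖G' y‖ ^ 2 * |a' y - a y| ≤
      ∑ y ∈ X', ‖G' y‖ ^ 2 * ζ y) :
    ‖∑ y ∈ A', G' y ^ 2 * (a' y : ℂ)‖ ≤ ∑ y ∈ X', ‖G' y‖ ^ 2 * (z y + ζ y) := by
  obtain ⟨h1, h2⟩ := row_abs1 (f := G) (f' := G') he hs hI hI0 hn
  have hsubA : ∑ y ∈ A', e y * ‖G' y ^ 2 - G y ^ 2‖ ≤ 2 * (I * s) + s ^ 2 :=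
    (Finset.sum_le_sum_of_subset_of_nonneg hAX fun y hy _ =>
      mul_nonneg (he y hy) (norm_nonneg _)).trans h1
  have e1 : ∑ y ∈ A', G' y ^ 2 * (a' y : ℂ) =
      ∑ y ∈ A', G' y ^ 2 * ((a' y - a y : ℝ) : ℂ) + ∑ y ∈ A', (G' y ^ 2 - G y ^ 2) * (a y : ℂ) +
        (∑ y ∈ A, G y ^ 2 * (a y : ℂ) - ∑ y ∈ A \ A', G y ^ 2 * (a y : ℂ)) := by
    have h3 : ∑ y ∈ A, G y ^ 2 * (a y : ℂ) =
        ∑ y ∈ A \ A', G y ^ 2 * (a y : ℂ) + ∑ y ∈ A', G y ^ 2 * (a y : ℂ) :=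
      (Finset.sum_sdiff hA).symm
    rw [h3, add_sub_cancel_left, ← Finset.sum_add_distrib, ← Finset.sum_add_distrib]
    refine Finset.sum_congr rfl fun y _ => ?_
    push_cast
    ring
  have n1 : ‖∑ y ∈ A', G' y ^ 2 * ((a' y - a y : ℝ) : ℂ)‖ ≤
      ∑ y ∈ A', ‖G' y‖ ^ 2 * |a' y - a y| := by
    refine (norm_sum_le _ _).trans (le_of_eq (Finset.sum_congr rfl fun y _ => ?_))
    rw [norm_mul, norm_pow, Complex.norm_real, Real.norm_eq_abs]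
  have n2 : ‖∑ y ∈ A', (G' y ^ 2 - G y ^ 2) * (a y : ℂ)‖ ≤ ca * (2 * (I * s) + s ^ 2) := by
    refine (norm_sum_le _ _).trans ?_
    calc ∑ y ∈ A', ‖(G' y ^ 2 - G y ^ 2) * (a y : ℂ)‖ ≤
          ∑ y ∈ A', ca * (e y * ‖G' y ^ 2 - G y ^ 2‖) := by
          refine Finset.sum_le_sum fun y hy => ?_
          rw [norm_mul, Complex.norm_real, Real.norm_eq_abs, abs_of_nonneg (ha0 y (hA hy))]
          calc ‖G' y ^ 2 - G y ^ 2‖ * a y ≤ ‖G' y ^ 2 - G y ^ 2‖ * (ca * e y) := by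
                gcongr
                exact hae y hy
            _ = _ := by ring
      _ ≤ _ := by
          rw [← Finset.mul_sum]
          gcongr
  have n3 : ‖∑ y ∈ A \ A', G y ^ 2 * (a y : ℂ)‖ ≤ ∑ y ∈ A \ A', ‖G y‖ ^ 2 * a y := by
    refine (norm_sum_le _ _).trans (le_of_eq (Finset.sum_congr rfl fun y hy => ?_))
    rw [norm_mul, norm_pow, Complex.norm_real, Real.norm_eq_abs,
      abs_of_nonneg (ha0 y (Finset.mem_sdiff.1 hy).1)]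
  have n4 : ∑ y ∈ X, ‖G y‖ ^ 2 * z y ≤
      ∑ y ∈ X \ X', ‖G y‖ ^ 2 * z y + ∑ y ∈ X', ‖G' y‖ ^ 2 * z y +
        cz * (2 * (I * s) + s ^ 2) := by
    rw [← Finset.sum_sdiff hX, add_assoc]
    gcongr
    have : ∑ y ∈ X', ‖G y‖ ^ 2 * z y ≤ ∑ y ∈ X', ‖G' y‖ ^ 2 * z y +
        ∑ y ∈ X', cz * (e y * |‖G' y‖ ^ 2 - ‖G y‖ ^ 2|) := by
      rw [← Finset.sum_add_distrib]
      refine Finset.sum_le_sum fun y hy => ?_
      have hzy := hz0 y (hX hy)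
      have k1 : ‖G y‖ ^ 2 ≤ ‖G' y‖ ^ 2 + |‖G' y‖ ^ 2 - ‖G y‖ ^ 2| := by
        have := neg_abs_le (‖G' y‖ ^ 2 - ‖G y‖ ^ 2)
        linarith
      calc ‖G y‖ ^ 2 * z y ≤ (‖G' y‖ ^ 2 + |‖G' y‖ ^ 2 - ‖G y‖ ^ 2|) * z y := by gcongr
        _ = ‖G' y‖ ^ 2 * z y + |‖G' y‖ ^ 2 - ‖G y‖ ^ 2| * z y := by ring
        _ ≤ ‖G' y‖ ^ 2 * z y + |‖G' y‖ ^ 2 - ‖G y‖ ^ 2| * (cz * e y) := by
            gcongr
            exact hze y hy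
        _ = _ := by ring
    refine this.trans ?_
    rw [← Finset.mul_sum]
    gcongr
  have n5 : ∑ y ∈ X', ‖G' y‖ ^ 2 * (z y + ζ y) =
      ∑ y ∈ X', ‖G' y‖ ^ 2 * z y + ∑ y ∈ X', ‖G' y‖ ^ 2 * ζ y := by
    rw [← Finset.sum_add_distrib]
    exact Finset.sum_congr rfl fun y _ => by ring
  rw [e1, n5]
  refine (norm_add_le _ _).trans ?_
  have n6 := norm_add_le (∑ y ∈ A', G' y ^ 2 * ((a' y - a y : ℝ) : ℂ))
    (∑ y ∈ A', (G' y ^ 2 - G y ^ 2) * (a y : ℂ))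
  have n7 := norm_sub_le (∑ y ∈ A, G y ^ 2 * (a y : ℂ)) (∑ y ∈ A \ A', G y ^ 2 * (a y : ℂ))
  linarith

end Pool.Agent.ANI
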