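import Pool.Agent.GSC.Refreeze

/-! # ANI RFL1: the weighted l1 bound of the re-freezing correction, and its decay (helper75)

`h : RF H0 e k c γ0 th C1 a Pq` (hypotheses of the re-freezing lemma of helper79).
* `RF_l1`: `∑ k_x |gav_x - γ0_x| ≤ 2 Π ∑ k_x |G0_xx - γ0_x|`.
* `rel_decay`: if `G' - G = G D G'`, `|G_xy| ω_xy ≤ C`, `ω` quasi-ultrametric with constant `K0`
  and `∑ |D_z| |G_xz| ≤ ε`, `∑ |D_z| |G'_zy| ≤ ε`, `K0 ε ≤ 1/2`, then
  `|G'_xy - G_xy| ω_xy ≤ 4 K0 C ε`.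
* `RF_dec`: the two together.
-/

open Matrix Finset

noncomputable section

namespace Pool.Agent.ANI

open Pool.Agent.Kin Pool.Agent.APS Pool.Agent.GSC

variable {ι : Type} [Fintype ι] [DecidableEq ι]
variable {H0 : Matrix ι ι ℂ} {e : ℝ} {k : ι → ℝ} {c γ0 : ι → ℂ} {th C1 a Pq : ℝ}

/-- duality: the weighted l1 norm of a solution of `(1 - R k) u = g` -/
theorem dual_l1 {R : ι → ι → ℂ} (hR : ∀ x y, R x y = R y x) (hk : ∀ x, 0 ≤ k x) {Pi : ℝ}
    (T : (ι → ℂ) → ι → ℂ) (hT1 : ∀ v m, (∀ x, ‖v x‖ ≤ m) → ∀ x, ‖T v x‖ ≤ Pi * m)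
    (hT2 : ∀ v x, T v x - ∑ y, R x y * ((k y : ℂ) * T v y) = v x)
    {u g : ι → ℂ} (hu : ∀ x, u x - ∑ y, R x y * ((k y : ℂ) * u y) = g x) :
    ∑ x, k x * ‖u x‖ ≤ Pi * ∑ x, k x * ‖g x‖ := by
  set φ : ι → ℂ := fun x => if u x = 0 then 0 else (starRingEnd ℂ) (u x) / (‖u x‖ : ℂ) with hφ
  have hφ1 : ∀ x, ‖φ x‖ ≤ 1 := by
    intro x
    rw [hφ]
    by_cases h : u x = 0
    · simp [h]
    · simp only [h, if_false]
      rw [norm_div, RCLike.norm_conj, Complex.norm_real, norm_norm,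
        div_self (norm_ne_zero_iff.2 h)]
  have hφu : ∀ x, φ x * u x = (‖u x‖ : ℂ) := by
    intro x
    rw [hφ]
    by_cases h : u x = 0
    · simp [h]
    · simp only [h, if_false]
      have h1 : (‖u x‖ : ℂ) ≠ 0 := by
        rw [Complex.ofReal_ne_zero]
        exact norm_ne_zero_iff.2 h
      rw [div_mul_eq_mul_div, div_eq_iff h1, mul_comm, Complex.mul_conj, Complex.normSq_eq_norm_sq]
      push_cast
      ring
  set w := T φ with hw
  have hwb := hT1 φ 1 hφ1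
  have e1 : ∑ x, (k x : ℂ) * (φ x * u x) =
      ∑ x, (k x : ℂ) * (w x * u x) - ∑ x, ∑ y, (k x : ℂ) * (k y : ℂ) * R x y * w y * u x := by
    rw [← Finset.sum_sub_distrib]
    refine Finset.sum_congr rfl fun x _ => ?_
    rw [← hT2 φ x, sub_mul, mul_sub, Finset.sum_mul, Finset.mul_sum]
    congr 1
    exact Finset.sum_congr rfl fun y _ => by ring
  have e2 : ∑ x, (k x : ℂ) * (w x * u x) = ∑ x, (k x : ℂ) * (w x * g x) +
      ∑ x, ∑ y, (k x : ℂ) * (k y : ℂ) * R x y * w x * u y := by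
    rw [← Finset.sum_add_distrib]
    refine Finset.sum_congr rfl fun x _ => ?_
    rw [← hu x, mul_sub, mul_sub, Finset.mul_sum, Finset.mul_sum]
    rw [sub_add_eq_add_sub, eq_sub_iff_add_eq]
    congr 1
    exact Finset.sum_congr rfl fun y _ => by ring
  have e3 : ∑ x, ∑ y, (k x : ℂ) * (k y : ℂ) * R x y * w x * u y =
      ∑ x, ∑ y, (k x : ℂ) * (k y : ℂ) * R x y * w y * u x := by
    rw [Finset.sum_comm]
    refine Finset.sum_congr rfl fun x _ => Finset.sum_congr rfl fun y _ => ?_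
    rw [hR y x]
    ring
  have e4 : ∑ x, (k x : ℂ) * (φ x * u x) = ∑ x, (k x : ℂ) * (w x * g x) := by
    rw [e1, e2, e3]
    ring
  have e5 : ((∑ x, k x * ‖u x‖ : ℝ) : ℂ) = ∑ x, (k x : ℂ) * (w x * g x) := by
    rw [← e4]
    push_cast
    exact Finset.sum_congr rfl fun x _ => by rw [hφu]
  have h0 : 0 ≤ ∑ x, k x * ‖u x‖ := Finset.sum_nonneg fun x _ => mul_nonneg (hk x) (norm_nonneg _)
  calc ∑ x, k x * ‖u x‖ = ‖((∑ x, k x * ‖u x‖ : ℝ) : ℂ)‖ := by
        rw [Complex.norm_real, Real.norm_of_nonneg h0]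
    _ = ‖∑ x, (k x : ℂ) * (w x * g x)‖ := by rw [e5]
    _ ≤ ∑ x, ‖(k x : ℂ) * (w x * g x)‖ := norm_sum_le _ _
    _ ≤ ∑ x, Pi * (k x * ‖g x‖) := by
        refine Finset.sum_le_sum fun x _ => ?_
        rw [norm_mul, norm_mul, Complex.norm_real, Real.norm_of_nonneg (hk x)]
        have h1 := hwb x
        rw [mul_one] at h1
        calc k x * (‖w x‖ * ‖g x‖) ≤ k x * (Pi * ‖g x‖) :=
              mul_le_mul_of_nonneg_left (mul_le_mul_of_nonneg_right h1 (norm_nonneg _)) (hk x)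
          _ = _ := by ring
    _ = Pi * ∑ x, k x * ‖g x‖ := by rw [Finset.mul_sum]

section

variable (h : RF H0 e k c γ0 th C1 a Pq)

include h

/-- the correction `δ = gav - γ0` and the new resolvent -/
theorem RF_bd : bd k c γ0 (fun x => gav H0 k c x - γ0 x) = bv k c (gav H0 k c) := by
  funext y
  simp only [bd, bv]
  ring

theorem RF_rho : 2 * Pq * a ≤ th / 2 := by
  have := h.sm2
  linarith

/-- `G' - G = G (k δ) G'` entrywise -/
theorem RF_diff (x y : ι) : Gv H0 k c x y - rsc H0 (bv k c γ0) x y =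
    ∑ z, rsc H0 (bv k c γ0) x z * ((k z : ℂ) * (gav H0 k c z - γ0 z)) * Gv H0 k c z y := by
  have h0 : ∀ x, (bv k c γ0 x).im < 0 := bv_neg h.adm h.im0
  have h1 : ∀ x, (bv k c (gav H0 k c) x).im < 0 :=
    bv_neg h.adm fun x => (gav_spec h.adm x).1.le
  have e1 := congrFun (congrFun (rsc_sub h.adm.sym h0 h1) x) y
  rw [Matrix.sub_apply, Matrix.mul_apply] at e1
  unfold Gv
  rw [← neg_sub, e1, ← Finset.sum_neg_distrib]
  refine Finset.sum_congr rfl fun z _ => ?_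
  rw [Matrix.mul_diagonal]
  simp only [bv]
  ring

/-- weighted rows of the two resolvents -/
theorem RF_row (x : ι) : ∑ y, k y * ‖rsc H0 (bv k c γ0) x y‖ ^ 2 ≤ C1 / th := by
  have hth := h.th0
  have h0 : ∀ x, (bv k c γ0 x).im < 0 := bv_neg h.adm h.im0
  have h1 := wrow h.adm.sym h0 (w := fun y => th * k y)
    (fun y => by
      have := h.low y
      have := mul_nonneg hth.le (h.adm.k0 y)
      linarith) x
  rw [le_div_iff₀ hth, Finset.sum_mul]
  refine le_trans (le_of_eq ?_) (h1.trans (h.dia x))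
  exact Finset.sum_congr rfl fun y _ => by ring

theorem RF_low' (x : ι) : th * k x ≤ -(bv k c (gav H0 k c) x).im := by
  have h1 := h.wlow (d := fun x => gav H0 k c x - γ0 x) (ρ := 2 * Pq * a)
    (by have := RF_rho h; have := h.th0; linarith) (fun x => h.main x) x
  rwa [RF_bd h] at h1

theorem RF_dia' (x : ι) : ‖Gv H0 k c x x‖ ≤ 2 * C1 := by
  have hPq := h.Pq0
  have ha := h.a0
  have h1 := h.dia2 (d := fun x => gav H0 k c x - γ0 x) (ρ := 2 * Pq * a) (by positivity)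
    (by have := RF_rho h; linarith) (fun x => h.main x) x
  rwa [RF_bd h] at h1

theorem RF_row' (x : ι) : ∑ y, k y * ‖Gv H0 k c x y‖ ^ 2 ≤ 2 * C1 / th := by
  have hth := h.th0
  have h0 : ∀ x, (bv k c (gav H0 k c) x).im < 0 :=
    bv_neg h.adm fun x => (gav_spec h.adm x).1.le
  have h1 := wrow h.adm.sym h0 (w := fun y => th * k y) (RF_low' h) x
  rw [le_div_iff₀ hth, Finset.sum_mul]
  refine le_trans (le_of_eq ?_) (h1.trans (RF_dia' h x))
  exact Finset.sum_congr rfl fun y _ => by unfold Gv; ring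

theorem RF_drow (x : ι) :
    ∑ y, k y * ‖Gv H0 k c x y - rsc H0 (bv k c γ0) x y‖ ^ 2 ≤ (2 * Pq * a / th) ^ 2 * (C1 / th) := by
  have hth := h.th0
  have hPq := h.Pq0
  have ha := h.a0
  have h0 : ∀ x, (bv k c γ0 x).im < 0 := bv_neg h.adm h.im0
  have h0' : ∀ x, (bv k c (gav H0 k c) x).im < 0 :=
    bv_neg h.adm fun x => (gav_spec h.adm x).1.le
  have h1 := cmp_row h.adm.sym h0 h0' (w := fun y => th * k y)
    (fun y => mul_nonneg hth.le (h.adm.k0 y))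
    (fun y => by
      have := h.low y
      have := mul_nonneg hth.le (h.adm.k0 y)
      linarith) (RF_low' h) (r := 2 * Pq * a / th)
    (fun y => by
      have e1 : bv k c (gav H0 k c) y - bv k c γ0 y = -((k y : ℂ) * (gav H0 k c y - γ0 y)) := by
        simp only [bv]
        ring
      rw [e1, norm_neg]
      exact h.dbound (d := fun x => gav H0 k c x - γ0 x) (fun x => h.main x) y) x
  rw [← mul_div_assoc, le_div_iff₀ hth, Finset.sum_mul]
  refine le_trans (le_of_eq ?_) (h1.trans (mul_le_mul_of_nonneg_left (h.dia x) (sq_nonneg _)))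
  refine Finset.sum_congr rfl fun y _ => ?_
  unfold Gv
  rw [norm_sub_rev]
  ring

/-- the weighted l1 bound of the re-freezing correction -/
theorem RF_l1 : ∑ x, k x * ‖gav H0 k c x - γ0 x‖ ≤
    2 * Pq * ∑ x, k x * ‖rsc H0 (bv k c γ0) x x - γ0 x‖ := by
  have hth := h.th0
  have hPq := h.Pq0
  have ha := h.a0
  have hC := h.C10
  set G := rsc H0 (bv k c γ0) with hG
  set δ : ι → ℂ := fun x => gav H0 k c x - γ0 x with hδ
  set f : ι → ℂ := fun x => G x x - γ0 x with hf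
  set N : ι → ℂ := fun x => ∑ z, G x z * ((k z : ℂ) * δ z) * (Gv H0 k c z x - G z x) with hN
  obtain ⟨T, hT1, hT2⟩ := h.lin_inv
  have hsol : ∀ x, δ x - ∑ y, G x y ^ 2 * ((k y : ℂ) * δ y) = f x + N x := by
    intro x
    have e1 := RF_diff h x x
    rw [Gv_diag h.adm x] at e1
    have e2 : ∑ z, G x z * ((k z : ℂ) * (gav H0 k c z - γ0 z)) * Gv H0 k c z x =
        ∑ y, G x y ^ 2 * ((k y : ℂ) * δ y) + N x := by
      rw [hN]
      simp only
      rw [← Finset.sum_add_distrib]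
      refine Finset.sum_congr rfl fun z _ => ?_
      have e3 : G z x = G x z := rsc_symm h.adm.sym _ _ _
      rw [e3, hδ]
      ring
    rw [hf, hδ]
    simp only
    rw [← hG, e2] at e1
    linear_combination e1
  have hT1' : ∀ v m, (∀ x, ‖v x‖ ≤ m) → ∀ x, ‖T v x‖ ≤ Pq * m := by
    intro v m hv x
    have hm : 0 ≤ m := (norm_nonneg _).trans (hv x)
    refine (norm_le_pi_norm (T v) x).trans ((hT1 v).trans ?_)
    exact mul_le_mul_of_nonneg_left ((pi_norm_le_iff_of_nonneg hm).2 hv) (by linarith)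
  have hl1 := dual_l1 (R := fun x y => G x y ^ 2)
    (fun x y => by
      have : G x y = G y x := rsc_symm h.adm.sym _ _ _
      simp only [this])
    h.adm.k0 (fun v => T v) hT1' hT2 hsol
  have hNb : ∑ x, k x * ‖N x‖ ≤ 2 * Pq * a / th * (C1 / th) * ∑ x, k x * ‖δ x‖ := by
    have e1 : ∀ x, k x * ‖N x‖ ≤ ∑ z, k z * ‖δ z‖ * (k x * (‖G z x‖ * ‖Gv H0 k c z x - G z x‖)) := by
      intro x
      have e2 : ‖N x‖ ≤ ∑ z, k z * ‖δ z‖ * (‖G z x‖ * ‖Gv H0 k c z x - G z x‖) := by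
        refine (norm_sum_le _ _).trans (Finset.sum_le_sum fun z _ => ?_)
        rw [norm_mul, norm_mul, norm_mul, Complex.norm_real, Real.norm_of_nonneg (h.adm.k0 z)]
        have e3 : G x z = G z x := rsc_symm h.adm.sym _ _ _
        rw [e3]
        exact le_of_eq (by ring)
      refine (mul_le_mul_of_nonneg_left e2 (h.adm.k0 x)).trans (le_of_eq ?_)
      rw [Finset.mul_sum]
      exact Finset.sum_congr rfl fun z _ => by ring
    refine (Finset.sum_le_sum fun x _ => e1 x).trans ?_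
    rw [Finset.sum_comm, Finset.mul_sum]
    refine Finset.sum_le_sum fun z _ => ?_
    rw [← Finset.mul_sum]
    have e4 : ∑ x, k x * (‖G z x‖ * ‖Gv H0 k c z x - G z x‖) ≤ 2 * Pq * a / th * (C1 / th) := by
      have cs := Finset.sum_mul_sq_le_sq_mul_sq Finset.univ (fun x => √(k x) * ‖G z x‖)
        (fun x => √(k x) * ‖Gv H0 k c z x - G z x‖)
      have s1 : ∑ x, (√(k x) * ‖G z x‖) * (√(k x) * ‖Gv H0 k c z x - G z x‖) =
          ∑ x, k x * (‖G z x‖ * ‖Gv H0 k c z x - G z x‖) := by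
        refine Finset.sum_congr rfl fun x _ => ?_
        have := Real.mul_self_sqrt (h.adm.k0 x)
        calc _ = (√(k x) * √(k x)) * (‖G z x‖ * ‖Gv H0 k c z x - G z x‖) := by ring
          _ = _ := by rw [this]
      have s2 : ∑ x, (√(k x) * ‖G z x‖) ^ 2 ≤ C1 / th := by
        refine le_trans (le_of_eq ?_) (RF_row h z)
        exact Finset.sum_congr rfl fun x _ => by rw [mul_pow, Real.sq_sqrt (h.adm.k0 x)]
      have s3 : ∑ x, (√(k x) * ‖Gv H0 k c z x - G z x‖) ^ 2 ≤ (2 * Pq * a / th) ^ 2 * (C1 / th) := by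
        refine le_trans (le_of_eq ?_) (RF_drow h z)
        exact Finset.sum_congr rfl fun x _ => by rw [mul_pow, Real.sq_sqrt (h.adm.k0 x)]
      rw [s1] at cs
      have s4 : (∑ x, k x * (‖G z x‖ * ‖Gv H0 k c z x - G z x‖)) ^ 2 ≤
          (2 * Pq * a / th * (C1 / th)) ^ 2 := by
        refine cs.trans ((mul_le_mul s2 s3 (Finset.sum_nonneg fun _ _ => sq_nonneg _)
          (by positivity)).trans (le_of_eq (by ring)))
      exact abs_le_of_sq_le_sq' s4 (by positivity) |>.2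
    rw [mul_comm (2 * Pq * a / th * (C1 / th))]
    exact mul_le_mul_of_nonneg_left e4 (mul_nonneg (h.adm.k0 z) (norm_nonneg _))
  have hsum : ∑ x, k x * ‖f x + N x‖ ≤ ∑ x, k x * ‖f x‖ + ∑ x, k x * ‖N x‖ := by
    rw [← Finset.sum_add_distrib]
    refine Finset.sum_le_sum fun x _ => ?_
    rw [← mul_add]
    exact mul_le_mul_of_nonneg_left (norm_add_le _ _) (h.adm.k0 x)
  have hδ0 : 0 ≤ ∑ x, k x * ‖δ x‖ :=
    Finset.sum_nonneg fun x _ => mul_nonneg (h.adm.k0 x) (norm_nonneg _)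
  have hq : Pq * (2 * Pq * a / th * (C1 / th)) ≤ 1 / 6 := by
    have := h.sm1
    have e1 : Pq * (2 * Pq * a / th * (C1 / th)) = 2 * Pq ^ 2 * C1 * a / th ^ 2 := by
      field_simp
    rw [e1, div_le_div_iff₀ (by positivity) (by norm_num)]
    linarith
  have hfin : ∑ x, k x * ‖δ x‖ ≤ Pq * ∑ x, k x * ‖f x‖ + 1 / 6 * ∑ x, k x * ‖δ x‖ := by
    calc ∑ x, k x * ‖δ x‖ ≤ Pq * ∑ x, k x * ‖f x + N x‖ := hl1
      _ ≤ Pq * (∑ x, k x * ‖f x‖ + 2 * Pq * a / th * (C1 / th) * ∑ x, k x * ‖δ x‖) :=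
        mul_le_mul_of_nonneg_left (hsum.trans (add_le_add le_rfl hNb)) (by linarith)
      _ = Pq * ∑ x, k x * ‖f x‖ + Pq * (2 * Pq * a / th * (C1 / th)) * ∑ x, k x * ‖δ x‖ := by ring
      _ ≤ _ := add_le_add le_rfl (mul_le_mul_of_nonneg_right hq hδ0)
  have hf0 : 0 ≤ ∑ x, k x * ‖f x‖ :=
    Finset.sum_nonneg fun x _ => mul_nonneg (h.adm.k0 x) (norm_nonneg _)
  have : 0 ≤ Pq * ∑ x, k x * ‖f x‖ := by positivity
  show ∑ x, k x * ‖δ x‖ ≤ 2 * Pq * ∑ x, k x * ‖f x‖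
  linarith

end

omit [DecidableEq ι] in
/-- relative decay of a perturbation `G' - G = G D G'` -/
theorem rel_decay {G G' : ι → ι → ℂ} {D : ι → ℂ}
    (hGG : ∀ x y, G' x y - G x y = ∑ z, G x z * D z * G' z y) {ω : ι → ι → ℝ} {K0 C ε : ℝ}
    (hω0 : ∀ x y, 0 ≤ ω x y) (hK0 : 0 ≤ K0)
    (hω : ∀ x y z, ω x y ≤ K0 * ω x z ∨ ω x y ≤ K0 * ω z y)
    (hG : ∀ x y, ‖G x y‖ * ω x y ≤ C) (hr : ∀ x, ∑ z, ‖D z‖ * ‖G x z‖ ≤ ε)
    (hr' : ∀ y, ∑ z, ‖D z‖ * ‖G' z y‖ ≤ ε) (hε : K0 * ε ≤ 1 / 2) (x y : ι) :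
    ‖G' x y - G x y‖ * ω x y ≤ 4 * K0 * C * ε := by
  have hC : 0 ≤ C := (mul_nonneg (norm_nonneg _) (hω0 x y)).trans (hG x y)
  have hε0 : 0 ≤ ε := (Finset.sum_nonneg fun z _ =>
    mul_nonneg (norm_nonneg _) (norm_nonneg _)).trans (hr x)
  -- the maximum
  obtain ⟨p, -, hp⟩ := Finset.exists_max_image (Finset.univ : Finset (ι × ι))
    (fun p => ‖G' p.1 p.2 - G p.1 p.2‖ * ω p.1 p.2) ⟨(x, y), Finset.mem_univ _⟩
  set t := ‖G' p.1 p.2 - G p.1 p.2‖ * ω p.1 p.2 with ht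
  have ht0 : 0 ≤ t := mul_nonneg (norm_nonneg _) (hω0 _ _)
  have hmax : ∀ x y, ‖G' x y - G x y‖ * ω x y ≤ t := fun x y => hp (x, y) (Finset.mem_univ _)
  have hG' : ∀ z y, ‖G' z y‖ * ω z y ≤ C + t := by
    intro z y
    have h1 : ‖G' z y‖ ≤ ‖G z y‖ + ‖G' z y - G z y‖ := by
      have := norm_add_le (G z y) (G' z y - G z y)
      rwa [add_sub_cancel] at this
    calc ‖G' z y‖ * ω z y ≤ (‖G z y‖ + ‖G' z y - G z y‖) * ω z y :=
          mul_le_mul_of_nonneg_right h1 (hω0 _ _)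
      _ = ‖G z y‖ * ω z y + ‖G' z y - G z y‖ * ω z y := by ring
      _ ≤ C + t := add_le_add (hG z y) (hmax z y)
  have hstep : ∀ x y, ‖G' x y - G x y‖ * ω x y ≤ K0 * ε * (2 * C + t) := by
    intro x y
    rw [hGG x y]
    have h1 : ‖∑ z, G x z * D z * G' z y‖ * ω x y ≤
        ∑ z, ‖G x z‖ * ‖D z‖ * ‖G' z y‖ * ω x y := by
      rw [← Finset.sum_mul]
      refine mul_le_mul_of_nonneg_right ((norm_sum_le _ _).trans
        (Finset.sum_le_sum fun z _ => ?_)) (hω0 x y)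
      rw [norm_mul, norm_mul]
    have h2 : ∀ z, ‖G x z‖ * ‖D z‖ * ‖G' z y‖ * ω x y ≤
        K0 * C * (‖D z‖ * ‖G' z y‖) + K0 * (C + t) * (‖D z‖ * ‖G x z‖) := by
      intro z
      have hA : 0 ≤ K0 * C * (‖D z‖ * ‖G' z y‖) := by positivity
      have hB : 0 ≤ K0 * (C + t) * (‖D z‖ * ‖G x z‖) := by positivity
      rcases hω x y z with h3 | h3
      · have h4 : ‖G x z‖ * ‖D z‖ * ‖G' z y‖ * ω x y ≤
            ‖G x z‖ * ‖D z‖ * ‖G' z y‖ * (K0 * ω x z) :=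
          mul_le_mul_of_nonneg_left h3 (by positivity)
        have h5 : ‖G x z‖ * ‖D z‖ * ‖G' z y‖ * (K0 * ω x z) =
            K0 * (‖D z‖ * ‖G' z y‖) * (‖G x z‖ * ω x z) := by ring
        have h6 : K0 * (‖D z‖ * ‖G' z y‖) * (‖G x z‖ * ω x z) ≤
            K0 * (‖D z‖ * ‖G' z y‖) * C := mul_le_mul_of_nonneg_left (hG x z) (by positivity)
        linarith
      · have h4 : ‖G x z‖ * ‖D z‖ * ‖G' z y‖ * ω x y ≤
            ‖G x z‖ * ‖D z‖ * ‖G' z y‖ * (K0 * ω z y) :=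
          mul_le_mul_of_nonneg_left h3 (by positivity)
        have h5 : ‖G x z‖ * ‖D z‖ * ‖G' z y‖ * (K0 * ω z y) =
            K0 * (‖D z‖ * ‖G x z‖) * (‖G' z y‖ * ω z y) := by ring
        have h6 : K0 * (‖D z‖ * ‖G x z‖) * (‖G' z y‖ * ω z y) ≤
            K0 * (‖D z‖ * ‖G x z‖) * (C + t) := mul_le_mul_of_nonneg_left (hG' z y) (by positivity)
        linarith
    refine h1.trans ((Finset.sum_le_sum fun z _ => h2 z).trans ?_)
    rw [Finset.sum_add_distrib, ← Finset.mul_sum, ← Finset.mul_sum]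
    have h7 := mul_le_mul_of_nonneg_left (hr' y) (by positivity : 0 ≤ K0 * C)
    have h8 := mul_le_mul_of_nonneg_left (hr x) (by positivity : 0 ≤ K0 * (C + t))
    linarith
  have h9 : t ≤ K0 * ε * (2 * C + t) := hstep p.1 p.2
  have h10 : K0 * ε * t ≤ 1 / 2 * t := mul_le_mul_of_nonneg_right hε ht0
  have h11 := hmax x y
  linarith

section

variable (h : RF H0 e k c γ0 th C1 a Pq)

include h

/-- rows weighted by the correction -/
theorem RF_wrow {Λ : ℝ} (hΛ : ∑ x, k x * ‖gav H0 k c x - γ0 x‖ ≤ Λ) (x : ι) :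
    ∑ z, ‖(k z : ℂ) * (gav H0 k c z - γ0 z)‖ * ‖rsc H0 (bv k c γ0) x z‖ ≤
      √(Λ * (4 * Pq * a * C1 / th)) ∧
    ∑ z, ‖(k z : ℂ) * (gav H0 k c z - γ0 z)‖ * ‖Gv H0 k c z x‖ ≤
      √(Λ * (4 * Pq * a * C1 / th)) := by
  have hth := h.th0
  have hPq := h.Pq0
  have ha := h.a0
  have hC := h.C10
  have hΛ0 : 0 ≤ Λ := (Finset.sum_nonneg fun x _ => mul_nonneg (h.adm.k0 x) (norm_nonneg _)).trans hΛ
  have hn : ∀ z, ‖(k z : ℂ) * (gav H0 k c z - γ0 z)‖ = k z * ‖gav H0 k c z - γ0 z‖ := by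
    intro z
    rw [norm_mul, Complex.norm_real, Real.norm_of_nonneg (h.adm.k0 z)]
  have key : ∀ g : ι → ℝ, (∀ z, 0 ≤ g z) → ∑ z, k z * g z ^ 2 ≤ 2 * C1 / th →
      ∑ z, k z * ‖gav H0 k c z - γ0 z‖ * g z ≤ √(Λ * (4 * Pq * a * C1 / th)) := by
    intro g hg0 hg
    apply Real.le_sqrt_of_sq_le
    have cs := Finset.sum_mul_sq_le_sq_mul_sq Finset.univ
      (fun z => √(k z * ‖gav H0 k c z - γ0 z‖))
      (fun z => √(k z * ‖gav H0 k c z - γ0 z‖) * g z)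
    have hw0 : ∀ z, 0 ≤ k z * ‖gav H0 k c z - γ0 z‖ :=
      fun z => mul_nonneg (h.adm.k0 z) (norm_nonneg _)
    have s1 : ∑ z, √(k z * ‖gav H0 k c z - γ0 z‖) * (√(k z * ‖gav H0 k c z - γ0 z‖) * g z) =
        ∑ z, k z * ‖gav H0 k c z - γ0 z‖ * g z := by
      refine Finset.sum_congr rfl fun z _ => ?_
      rw [← mul_assoc, Real.mul_self_sqrt (hw0 z)]
    have s2 : ∑ z, √(k z * ‖gav H0 k c z - γ0 z‖) ^ 2 ≤ Λ := by
      refine le_trans (le_of_eq ?_) hΛ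
      exact Finset.sum_congr rfl fun z _ => Real.sq_sqrt (hw0 z)
    have s3 : ∑ z, (√(k z * ‖gav H0 k c z - γ0 z‖) * g z) ^ 2 ≤ 4 * Pq * a * C1 / th := by
      have e1 : ∀ z, (√(k z * ‖gav H0 k c z - γ0 z‖) * g z) ^ 2 ≤
          2 * Pq * a * (k z * g z ^ 2) := by
        intro z
        rw [mul_pow, Real.sq_sqrt (hw0 z)]
        have := mul_le_mul_of_nonneg_left (h.main z)
          (mul_nonneg (h.adm.k0 z) (sq_nonneg (g z)))
        calc k z * ‖gav H0 k c z - γ0 z‖ * g z ^ 2 = k z * g z ^ 2 * ‖gav H0 k c z - γ0 z‖ := by ring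
          _ ≤ _ := this
          _ = _ := by ring
      refine (Finset.sum_le_sum fun z _ => e1 z).trans ?_
      rw [← Finset.mul_sum]
      refine (mul_le_mul_of_nonneg_left hg (by positivity)).trans (le_of_eq ?_)
      ring
    rw [s1] at cs
    exact cs.trans (mul_le_mul s2 s3 (Finset.sum_nonneg fun _ _ => sq_nonneg _) hΛ0)
  constructor
  · simp_rw [hn]
    refine key (fun z => ‖rsc H0 (bv k c γ0) x z‖) (fun z => norm_nonneg _) ?_
    refine (RF_row h x).trans ?_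
    gcongr
    linarith
  · simp_rw [hn]
    refine key (fun z => ‖Gv H0 k c z x‖) (fun z => norm_nonneg _) ?_
    refine le_trans (le_of_eq ?_) (RF_row' h x)
    refine Finset.sum_congr rfl fun z _ => ?_
    have : Gv H0 k c z x = Gv H0 k c x z := rsc_symm h.adm.sym _ _ _
    rw [this]

/-- relative decay of the re-freezing correction -/
theorem RF_dec {Λ : ℝ} (hΛ : ∑ x, k x * ‖gav H0 k c x - γ0 x‖ ≤ Λ) {ω : ι → ι → ℝ} {K0 C : ℝ}
    (hω0 : ∀ x y, 0 ≤ ω x y) (hK0 : 0 ≤ K0)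
    (hω : ∀ x y z, ω x y ≤ K0 * ω x z ∨ ω x y ≤ K0 * ω z y)
    (hG : ∀ x y, ‖rsc H0 (bv k c γ0) x y‖ * ω x y ≤ C)
    (hε : K0 * √(Λ * (4 * Pq * a * C1 / th)) ≤ 1 / 2) (x y : ι) :
    ‖Gv H0 k c x y - rsc H0 (bv k c γ0) x y‖ * ω x y ≤
      4 * K0 * C * √(Λ * (4 * Pq * a * C1 / th)) :=
  rel_decay (D := fun z => (k z : ℂ) * (gav H0 k c z - γ0 z)) (RF_diff h) hω0 hK0 hω hG
    (fun x => (RF_wrow h hΛ x).1) (fun y => (RF_wrow h hΛ y).2) hε x y

end

end Pool.Agent.ANI
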