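import Pool.Agent.ANI.Ann
import Pool.Agent.ANI.RfL1
import Pool.Agent.ANI.Clo

/-! # ANI RAWANN: observables after a small change of the diagonal on a finite set (helper75)

`Rd H b b' S`, `‖b' - b‖ ≤ u` on `S`, `g_x ≥ ‖G_xz‖` for `z ∈ S`:
* `Rd.row_g`: `∑_y η_y |dG_xy|² ≤ (2 u |S| g_x)² |S| I`, `I ≥ Im G_zz` on `S`.
* `Rd.four_g`: `∑_A |dG_xy|⁴ ≤ (2 u |S| g_x)⁴ |S| τ`.
* `Rd.mass`: `∑_x η_x ∑_y η_y |dG_xy|² ≤ (2 u |S|)² (|S| I)²`.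
* `Rd.rel`: relative decay of the entries with respect to a quasi metric weight.
-/

open Matrix Finset

noncomputable section

namespace Pool.Agent.ANI

open Pool.Agent.Kin Pool.Agent.APS Pool.Agent.ANL

variable {ι : Type} [Fintype ι] [DecidableEq ι] {H : Matrix ι ι ℂ} {b b' : ι → ℂ}
  {S : Finset ι}

omit [Fintype ι] [DecidableEq ι] in
/-- the maximum of finitely many numbers -/
theorem exists_sup (S : Finset ι) (f : ι → ℝ) (hf : ∀ z, 0 ≤ f z) :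
    ∃ g : ℝ, 0 ≤ g ∧ (∀ z ∈ S, f z ≤ g) ∧ ∀ p : ℕ, 1 ≤ p → g ^ p ≤ ∑ z ∈ S, f z ^ p := by
  rcases S.eq_empty_or_nonempty with rfl | hS
  · refine ⟨0, le_rfl, fun z hz => absurd hz (Finset.notMem_empty z), fun p hp => ?_⟩
    rw [zero_pow (by omega)]
    simp
  · obtain ⟨w, hw, hmax⟩ := Finset.exists_max_image S f hS
    refine ⟨f w, hf w, hmax, fun p _ => ?_⟩
    exact Finset.single_le_sum (f := fun z => f z ^ p) (fun z _ => pow_nonneg (hf z) p) hw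

theorem Rd.row_g (h : Rd H b b' S) {u : ℝ} (hu0 : 0 ≤ u) (hu : ∀ z ∈ S, ‖b' z - b z‖ ≤ u) {x : ι}
    {gx I : ℝ} (hgx : ∀ z ∈ S, ‖rsc H b x z‖ ≤ gx) (hgx0 : 0 ≤ gx)
    (hI : ∀ z ∈ S, (rsc H b z z).im ≤ I) (X : Finset ι) :
    ∑ y ∈ X, (-(b y).im) * ‖rsc H b' x y - rsc H b x y‖ ^ 2 ≤
      (2 * u * S.card * gx) ^ 2 * (S.card * I) := by
  have h1 : ∀ y ∈ X, (-(b y).im) * ‖rsc H b' x y - rsc H b x y‖ ^ 2 ≤
      (2 * u * S.card * gx) ^ 2 * ∑ z ∈ S, (-(b y).im) * ‖rsc H b z y‖ ^ 2 := by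
    intro y _
    obtain ⟨g, hg0, hg, hgp⟩ := exists_sup S (fun z => ‖rsc H b z y‖) (fun z => norm_nonneg _)
    have h2 := h.entry hu hgx hg
    have h3 := hgp 2 (by norm_num)
    have hη : 0 ≤ -(b y).im := by linarith [h.adm.im y]
    calc (-(b y).im) * ‖rsc H b' x y - rsc H b x y‖ ^ 2 ≤
          (-(b y).im) * (2 * u * S.card * gx * g) ^ 2 := by gcongr
      _ = (2 * u * S.card * gx) ^ 2 * ((-(b y).im) * g ^ 2) := by ring
      _ ≤ (2 * u * S.card * gx) ^ 2 * ((-(b y).im) * ∑ z ∈ S, ‖rsc H b z y‖ ^ 2) := by gcongr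
      _ = _ := by rw [Finset.mul_sum]
  refine (Finset.sum_le_sum h1).trans ?_
  rw [← Finset.mul_sum, Finset.sum_comm]
  gcongr
  calc ∑ z ∈ S, ∑ y ∈ X, (-(b y).im) * ‖rsc H b z y‖ ^ 2 ≤ ∑ z ∈ S, I :=
        Finset.sum_le_sum fun z hz => (ward_le h.adm X z).trans (hI z hz)
    _ = _ := by rw [Finset.sum_const, nsmul_eq_mul]

theorem Rd.four_g (h : Rd H b b' S) {u : ℝ} (hu : ∀ z ∈ S, ‖b' z - b z‖ ≤ u) {x : ι}
    {gx τ : ℝ} (hgx : ∀ z ∈ S, ‖rsc H b x z‖ ≤ gx) (A : Finset ι)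
    (hτ : ∀ z ∈ S, ∑ y ∈ A, ‖rsc H b z y‖ ^ 4 ≤ τ) :
    ∑ y ∈ A, ‖rsc H b' x y - rsc H b x y‖ ^ 4 ≤ (2 * u * S.card * gx) ^ 4 * (S.card * τ) := by
  have h1 : ∀ y ∈ A, ‖rsc H b' x y - rsc H b x y‖ ^ 4 ≤
      (2 * u * S.card * gx) ^ 4 * ∑ z ∈ S, ‖rsc H b z y‖ ^ 4 := by
    intro y _
    obtain ⟨g, hg0, hg, hgp⟩ := exists_sup S (fun z => ‖rsc H b z y‖) (fun z => norm_nonneg _)
    have h2 := h.entry hu hgx hg
    have h3 := hgp 4 (by norm_num)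
    calc ‖rsc H b' x y - rsc H b x y‖ ^ 4 ≤ (2 * u * S.card * gx * g) ^ 4 := by gcongr
      _ = (2 * u * S.card * gx) ^ 4 * g ^ 4 := by ring
      _ ≤ _ := by gcongr
  refine (Finset.sum_le_sum h1).trans ?_
  rw [← Finset.mul_sum, Finset.sum_comm]
  gcongr
  calc ∑ z ∈ S, ∑ y ∈ A, ‖rsc H b z y‖ ^ 4 ≤ ∑ z ∈ S, τ := Finset.sum_le_sum hτ
    _ = _ := by rw [Finset.sum_const, nsmul_eq_mul]

theorem Rd.mass (h : Rd H b b' S) {u : ℝ} (hu0 : 0 ≤ u) (hu : ∀ z ∈ S, ‖b' z - b z‖ ≤ u)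
    {I : ℝ} (hI0 : 0 ≤ I) (hI : ∀ z ∈ S, (rsc H b z z).im ≤ I) (X : Finset ι) :
    ∑ x ∈ X, (-(b x).im) * ∑ y ∈ X, (-(b y).im) * ‖rsc H b' x y - rsc H b x y‖ ^ 2 ≤
      (2 * u * S.card) ^ 2 * (S.card * I) ^ 2 := by
  have h1 : ∀ x ∈ X, (-(b x).im) * ∑ y ∈ X, (-(b y).im) * ‖rsc H b' x y - rsc H b x y‖ ^ 2 ≤
      ((2 * u * S.card) ^ 2 * (S.card * I)) * ∑ z ∈ S, (-(b x).im) * ‖rsc H b z x‖ ^ 2 := by
    intro x _
    obtain ⟨g, hg0, hg, hgp⟩ := exists_sup S (fun z => ‖rsc H b x z‖) (fun z => norm_nonneg _)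
    have h2 := h.row_g hu0 hu hg hg0 hI X
    have h3 := hgp 2 (by norm_num)
    have hη : 0 ≤ -(b x).im := by linarith [h.adm.im x]
    have hsym : ∑ z ∈ S, ‖rsc H b x z‖ ^ 2 = ∑ z ∈ S, ‖rsc H b z x‖ ^ 2 :=
      Finset.sum_congr rfl fun z _ => by rw [adm_symm h.adm x z]
    calc (-(b x).im) * ∑ y ∈ X, (-(b y).im) * ‖rsc H b' x y - rsc H b x y‖ ^ 2 ≤
          (-(b x).im) * ((2 * u * S.card * g) ^ 2 * (S.card * I)) := by gcongr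
      _ = ((2 * u * S.card) ^ 2 * (S.card * I)) * ((-(b x).im) * g ^ 2) := by ring
      _ ≤ ((2 * u * S.card) ^ 2 * (S.card * I)) * ((-(b x).im) * ∑ z ∈ S, ‖rsc H b z x‖ ^ 2) := by
          rw [← hsym]
          gcongr
      _ = _ := by rw [Finset.mul_sum]
  refine (Finset.sum_le_sum h1).trans ?_
  rw [← Finset.mul_sum, Finset.sum_comm]
  have h4 : ∑ z ∈ S, ∑ x ∈ X, (-(b x).im) * ‖rsc H b z x‖ ^ 2 ≤ S.card * I := by
    calc ∑ z ∈ S, ∑ x ∈ X, (-(b x).im) * ‖rsc H b z x‖ ^ 2 ≤ ∑ z ∈ S, I :=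
        Finset.sum_le_sum fun z hz => (ward_le h.adm X z).trans (hI z hz)
      _ = _ := by rw [Finset.sum_const, nsmul_eq_mul]
  calc ((2 * u * S.card) ^ 2 * (S.card * I)) *
        ∑ z ∈ S, ∑ x ∈ X, (-(b x).im) * ‖rsc H b z x‖ ^ 2 ≤
        ((2 * u * S.card) ^ 2 * (S.card * I)) * (S.card * I) := by gcongr
    _ = _ := by ring

/-- relative decay of the entries on `X0 ⊇ S` -/
theorem Rd.rel (h : Rd H b b' S) {X0 : Finset ι} (hS : S ⊆ X0) {u C1 : ℝ} (hu0 : 0 ≤ u)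
    (hu : ∀ z ∈ S, ‖b' z - b z‖ ≤ u) (hC0 : 0 ≤ C1)
    (hC1 : ∀ x ∈ X0, ∀ z ∈ S, ‖rsc H b x z‖ ≤ C1) {ω : ι → ι → ℝ} {K0 C : ℝ}
    (hω0 : ∀ x y, 0 ≤ ω x y) (hK0 : 0 ≤ K0) (hC : 0 ≤ C)
    (hω : ∀ x y z, ω x y ≤ K0 * ω x z ∨ ω x y ≤ K0 * ω z y)
    (hG : ∀ x ∈ X0, ∀ y ∈ X0, ‖rsc H b x y‖ * ω x y ≤ C)
    (hε : K0 * (2 * u * S.card * C1) ≤ 1 / 2) {x y : ι} (hx : x ∈ X0) (hy : y ∈ X0) :
    ‖rsc H b' x y - rsc H b x y‖ * ω x y ≤ 4 * K0 * C * (2 * u * S.card * C1) := by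
  classical
  set G1 : ι → ι → ℂ := fun x y => if x ∈ X0 ∧ y ∈ X0 then rsc H b x y else 0 with hG1
  set G2 : ι → ι → ℂ := fun x y => if x ∈ X0 ∧ y ∈ X0 then rsc H b' x y else 0 with hG2
  set D : ι → ℂ := fun z => b z - b' z with hD
  have hD0 : ∀ z, z ∉ S → D z = 0 := fun z hz => by rw [hD]; simp only; rw [h.off z hz, sub_self]
  have hDS : ∀ z ∈ S, ‖D z‖ ≤ u := fun z hz => by
    rw [hD]; simp only; rw [norm_sub_rev]; exact hu z hz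
  have hsumS : ∀ f : ι → ℂ, ∑ z, ‖D z‖ * ‖f z‖ = ∑ z ∈ S, ‖D z‖ * ‖f z‖ := by
    intro f
    symm
    refine Finset.sum_subset (Finset.subset_univ S) fun z _ hz => ?_
    rw [hD0 z hz, norm_zero, zero_mul]
  have hGG : ∀ x y, G2 x y - G1 x y = ∑ z, G1 x z * D z * G2 z y := by
    intro x y
    by_cases hxy : x ∈ X0 ∧ y ∈ X0
    · have h1 : G2 x y - G1 x y = -(rsc H b x y - rsc H b' x y) := by
        rw [hG2, hG1]; simp only; rw [if_pos hxy, if_pos hxy]; ring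
      rw [h1, adm_sub h.adm h.adm' x y, ← Finset.sum_neg_distrib]
      refine Finset.sum_congr rfl fun z _ => ?_
      by_cases hz : z ∈ S
      · rw [hG1, hG2]; simp only
        rw [if_pos ⟨hxy.1, hS hz⟩, if_pos ⟨hS hz, hxy.2⟩, hD]; simp only
        ring
      · rw [hD0 z hz, h.off z hz]; ring
    · have h1 : G2 x y - G1 x y = 0 := by
        rw [hG2, hG1]; simp only; rw [if_neg hxy, if_neg hxy, sub_self]
      rw [h1]
      symm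
      refine Finset.sum_eq_zero fun z _ => ?_
      by_cases hx : x ∈ X0
      · have hy : y ∉ X0 := fun hy => hxy ⟨hx, hy⟩
        rw [hG2]; simp only
        rw [if_neg fun hh => hy hh.2, mul_zero]
      · rw [hG1]; simp only
        rw [if_neg fun hh => hx hh.1, zero_mul, zero_mul]
  have hG' : ∀ x y, ‖G1 x y‖ * ω x y ≤ C := by
    intro x y
    rw [hG1]; simp only
    split_ifs with hxy
    · exact hG x hxy.1 y hxy.2
    · rw [norm_zero, zero_mul]; exact hC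
  have hn1 : ∀ x, ∀ z ∈ S, ‖G1 x z‖ ≤ C1 := by
    intro x z hz
    rw [hG1]; simp only
    split_ifs with hxy
    · exact hC1 x hxy.1 z hz
    · rw [norm_zero]; exact hC0
  have hn2 : ∀ y, ∀ z ∈ S, ‖G2 z y‖ ≤ 2 * C1 := by
    intro y z hz
    rw [hG2]; simp only
    split_ifs with hxy
    · refine h.col (g := C1) (fun w hw => ?_) z hz
      rw [adm_symm h.adm w y]
      exact hC1 y hxy.2 w hw
    · rw [norm_zero]; positivity
  have hr : ∀ x, ∑ z, ‖D z‖ * ‖G1 x z‖ ≤ 2 * u * S.card * C1 := by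
    intro x
    rw [hsumS]
    calc ∑ z ∈ S, ‖D z‖ * ‖G1 x z‖ ≤ ∑ z ∈ S, u * (2 * C1) := by
          refine Finset.sum_le_sum fun z hz => ?_
          have := hn1 x z hz
          exact mul_le_mul (hDS z hz) (by linarith) (norm_nonneg _) hu0
      _ = _ := by rw [Finset.sum_const, nsmul_eq_mul]; ring
  have hr' : ∀ y, ∑ z, ‖D z‖ * ‖G2 z y‖ ≤ 2 * u * S.card * C1 := by
    intro y
    rw [hsumS (fun z => G2 z y)]
    calc ∑ z ∈ S, ‖D z‖ * ‖G2 z y‖ ≤ ∑ z ∈ S, u * (2 * C1) :=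
          Finset.sum_le_sum fun z hz => mul_le_mul (hDS z hz) (hn2 y z hz) (norm_nonneg _) hu0
      _ = _ := by rw [Finset.sum_const, nsmul_eq_mul]; ring
  have := rel_decay hGG hω0 hK0 hω hG' hr hr' hε x y
  rw [hG1, hG2] at this
  simp only at this
  rwa [if_pos ⟨hx, hy⟩, if_pos ⟨hx, hy⟩] at this

end Pool.Agent.ANI
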