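import Pool.Agent.ANI.Cls
import Pool.Agent.ANI.RawAnn
import Pool.Agent.ANL.InsObs

/-! # ANI RAWCLS: closeness `Cls` for the two raw steps of an insertion (helper75)

* `rd_cls` : a small change of the diagonal on `S` (annulus).
* `ins_cls` : an arbitrary change of the diagonal on `F` (content), leverages `n_x` at the sites of `X0`.
* `Cls.congr` : the weights `e` only matter on `X`.
-/

open Matrix Finset

noncomputable section

namespace Pool.Agent.ANI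

open Pool.Agent.Kin Pool.Agent.APS Pool.Agent.ANL

theorem Cls.congr {ι : Type} {G G' : ι → ι → ℂ} {e e' k k' : ι → ℝ} {X0 X A : Finset ι}
    {ω : ι → ι → ℝ} {δ : ι → ℝ} {ν ε q W Kf : ℝ} (h : Cls G G' e k X0 X A ω δ ν ε q W Kf)
    (he : ∀ x ∈ X, e' x = e x) (hk : ∀ x ∈ A, k' x = k x) :
    Cls G G' e' k' X0 X A ω δ ν ε q W Kf where
  ε0 := h.ε0
  symG := h.symG
  symG' := h.symG'
  row x hx := by
    rw [Finset.sum_congr rfl fun y hy => by rw [he y hy]]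
    exact h.row x hx
  four := h.four
  mass := by
    refine le_trans (le_of_eq ?_) h.mass
    refine Finset.sum_congr rfl fun x hx => ?_
    rw [he x hx]
    congr 1
    exact Finset.sum_congr rfl fun y hy => by rw [he y hy]
  dmass := by
    rw [Finset.sum_congr rfl fun y hy => by rw [hk y hy]]
    exact h.dmass
  rel := h.rel
  far := h.far

variable {ι : Type} [Fintype ι] [DecidableEq ι] {H : Matrix ι ι ℂ} {b b' : ι → ℂ}
  {S F : Finset ι}

/-- annulus -/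
theorem rd_cls (h : Rd H b b' S) {X0 X A : Finset ι} (hS : S ⊆ X0) (hX : X ⊆ X0) (hA : A ⊆ X)
    {k : ι → ℝ} {ω : ι → ι → ℝ} {δ : ι → ℝ} {u C1 I τ K0 Cω ν ε q W Kf Kg c : ℝ}
    (hu0 : 0 ≤ u) (hu : ∀ z ∈ S, ‖b' z - b z‖ ≤ u) (hC0 : 0 ≤ C1)
    (hC1 : ∀ x ∈ X0, ∀ z ∈ S, ‖rsc H b x z‖ ≤ C1) (hI0 : 0 ≤ I)
    (hI : ∀ z ∈ S, (rsc H b z z).im ≤ I)
    (hτ : ∀ z ∈ S, ∑ y ∈ A, ‖rsc H b z y‖ ^ 4 ≤ τ)
    (hc : 0 < c) (hk : ∀ x ∈ A, c * k x ≤ -(b x).im)
    (hω0 : ∀ x y, 0 ≤ ω x y) (hK0 : 0 ≤ K0) (hCω : 0 ≤ Cω)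
    (hω : ∀ x y z, ω x y ≤ K0 * ω x z ∨ ω x y ≤ K0 * ω z y)
    (hG : ∀ x ∈ X0, ∀ y ∈ X0, ‖rsc H b x y‖ * ω x y ≤ Cω)
    (hKu : K0 * (2 * u * S.card * C1) ≤ 1 / 2)
    (hfar : ∀ x ∈ X0, ∀ z ∈ S, ‖rsc H b x z‖ ≤ Kg * Real.exp (-(ν * δ x)))
    (hε0 : 0 ≤ ε) (h1 : (2 * u * S.card * C1) ^ 2 * (S.card * I) ≤ ε ^ 2)
    (h2 : 4 * K0 * Cω * (2 * u * S.card * C1) ≤ ε)
    (h3 : (2 * u * S.card * C1) ^ 4 * (S.card * τ) ≤ q)
    (h4 : (2 * u * S.card) ^ 2 * (S.card * I) ^ 2 ≤ W)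
    (h5 : 2 * u * S.card * (S.card * I) / c ≤ W)
    (h6 : 2 * u * S.card * C1 * Kg ≤ Kf) :
    Cls (rsc H b) (rsc H b') (fun x => -(b x).im) k X0 X A ω δ ν ε q W Kf where
  ε0 := hε0
  symG := adm_symm h.adm
  symG' := adm_symm h.adm'
  row x hx := (h.row_g hu0 hu (hC1 x hx) hC0 hI X).trans h1
  four x hx := (h.four_g hu (hC1 x hx) A hτ).trans h3
  mass := (h.mass hu0 hu hI0 hI X).trans h4
  dmass := by
    refine le_trans ?_ h5
    have hd : ∀ x ∈ A, k x * ‖rsc H b' x x - rsc H b x x‖ ≤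
        2 * u * S.card / c * ∑ z ∈ S, (-(b x).im) * ‖rsc H b z x‖ ^ 2 := by
      intro x hx
      obtain ⟨g, hg0, hg, hgp⟩ := exists_sup S (fun z => ‖rsc H b z x‖) (fun z => norm_nonneg _)
      have hg' : ∀ z ∈ S, ‖rsc H b x z‖ ≤ g := fun z hz => by
        rw [adm_symm h.adm x z]; exact hg z hz
      have e1 := h.entry hu hg' hg
      have e2 := hgp 2 (by norm_num)
      have hη : 0 ≤ -(b x).im := by linarith [h.adm.im x]
      have hkx : k x ≤ -(b x).im / c := by rw [le_div_iff₀ hc]; linarith [hk x hx]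
      calc k x * ‖rsc H b' x x - rsc H b x x‖ ≤
            (-(b x).im / c) * ‖rsc H b' x x - rsc H b x x‖ :=
            mul_le_mul_of_nonneg_right hkx (norm_nonneg _)
        _ ≤ (-(b x).im / c) * (2 * u * S.card * g * g) := by gcongr
        _ = 2 * u * S.card / c * ((-(b x).im) * g ^ 2) := by ring
        _ ≤ 2 * u * S.card / c * ((-(b x).im) * ∑ z ∈ S, ‖rsc H b z x‖ ^ 2) := by gcongr
        _ = _ := by rw [Finset.mul_sum]
    refine (Finset.sum_le_sum hd).trans ?_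
    rw [← Finset.mul_sum, Finset.sum_comm]
    have e3 : ∑ z ∈ S, ∑ x ∈ A, (-(b x).im) * ‖rsc H b z x‖ ^ 2 ≤ S.card * I := by
      calc ∑ z ∈ S, ∑ x ∈ A, (-(b x).im) * ‖rsc H b z x‖ ^ 2 ≤ ∑ z ∈ S, I :=
            Finset.sum_le_sum fun z hz => (ward_le h.adm A z).trans (hI z hz)
        _ = _ := by rw [Finset.sum_const, nsmul_eq_mul]
    calc 2 * u * S.card / c * ∑ z ∈ S, ∑ x ∈ A, (-(b x).im) * ‖rsc H b z x‖ ^ 2 ≤
          2 * u * S.card / c * (S.card * I) := by gcongr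
      _ = _ := by ring
  rel x hx y hy := (h.rel hS hu0 hu hC0 hC1 hω0 hK0 hCω hω hG hKu hx hy).trans h2
  far x hx y hy := by
    have hy' : ∀ z ∈ S, ‖rsc H b z y‖ ≤ C1 := fun z hz => by
      rw [adm_symm h.adm z y]; exact hC1 y hy z hz
    refine (h.entry hu (hfar x hx) hy').trans ?_
    have := (Real.exp_pos (-(ν * δ x))).le
    calc 2 * u * S.card * (Kg * Real.exp (-(ν * δ x))) * C1 =
          (2 * u * S.card * C1 * Kg) * Real.exp (-(ν * δ x)) := by ring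
      _ ≤ _ := by gcongr

/-- content: one blob -/
theorem ins_cls (h : ANL.Adm H b) (h' : ANL.Adm H b') (hbb : ∀ x, x ∉ F → b x = b' x)
    (hD : DirInj H b F) {X0 X A : Finset ι} (hX : X ⊆ X0) (hA : A ⊆ X0) (hXF : Disjoint X0 F)
    {n : ι → ℝ} (hn : ∀ x, 0 ≤ n x) (hL : ∀ x ∈ X0, LevLe H b F x (n x))
    {k : ι → ℝ} {ω : ι → ι → ℝ} {δ : ι → ℝ} {ν ε q W Kf N Q2 : ℝ}
    (hk0 : ∀ x ∈ A, 0 ≤ k x)
    (hN : ∀ x ∈ X0, n x ≤ N) (hQ : ∑ y ∈ A, n y ^ 2 ≤ Q2)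
    (hε0 : 0 ≤ ε) (h1 : 4 * N ≤ ε ^ 2)
    (h2 : ∀ x ∈ X0, ∀ y ∈ X0, 2 * √(n x * n y) * ω x y ≤ ε)
    (hω0 : ∀ x y, 0 ≤ ω x y)
    (h3 : 16 * N ^ 2 * Q2 ≤ q)
    (h4 : 4 * ∑ x ∈ X, (-(b x).im) * n x ≤ W)
    (h5 : 2 * ∑ x ∈ A, k x * n x ≤ W)
    (h6 : ∀ x ∈ X0, 2 * √(N * n x) ≤ Kf * Real.exp (-(ν * δ x))) :
    Cls (rsc H b) (rsc H b') (fun x => -(b x).im) k X0 X A ω δ ν ε q W Kf := by
  have hF : ∀ x ∈ X0, x ∉ F := fun x hx => Finset.disjoint_left.1 hXF hx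
  have hent : ∀ x ∈ X0, ∀ y ∈ X0, ‖rsc H b' x y - rsc H b x y‖ ≤ 2 * √(n x * n y) := by
    intro x hx y hy
    have e1 := insert_entry h h' hbb hD (hF x hx) (hF y hy) (hn x) (hn y) (hL x hx) (hL y hy)
    have e2 : (2 * √(n x * n y)) ^ 2 = 4 * n x * n y := by
      rw [mul_pow, Real.sq_sqrt (mul_nonneg (hn x) (hn y))]; ring
    rw [← e2] at e1
    exact (abs_le_of_sq_le_sq' e1 (by positivity)).2
  have hrow : ∀ x ∈ X0, ∑ y ∈ X, (-(b y).im) * ‖rsc H b' x y - rsc H b x y‖ ^ 2 ≤ 4 * n x := by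
    intro x hx
    have e1 := leak_insert h h' hbb hD (hF x hx) (hn x) (hL x hx)
    refine le_trans ?_ e1
    unfold leak
    have hsub : X ⊆ Fᶜ := fun y hy => Finset.mem_compl.2 (hF y (hX hy))
    calc ∑ y ∈ X, (-(b y).im) * ‖rsc H b' x y - rsc H b x y‖ ^ 2 =
          ∑ y ∈ X, (-(b y).im) * ‖rsc H b' y x - rsc H b y x‖ ^ 2 :=
          Finset.sum_congr rfl fun y _ => by rw [adm_symm h' x y, adm_symm h x y]
      _ ≤ _ := Finset.sum_le_sum_of_subset_of_nonneg hsub fun y _ _ =>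
          mul_nonneg (by linarith [h.im y]) (by positivity)
  exact {
    ε0 := hε0
    symG := adm_symm h
    symG' := adm_symm h'
    row := fun x hx => (hrow x hx).trans (by have := hN x hx; linarith)
    four := fun x hx => by
      have e1 : ∀ y ∈ A, ‖rsc H b' x y - rsc H b x y‖ ^ 4 ≤ 16 * N ^ 2 * n y ^ 2 := by
        intro y hy
        have e2 := hent x hx y (hA hy)
        calc ‖rsc H b' x y - rsc H b x y‖ ^ 4 ≤ (2 * √(n x * n y)) ^ 4 := by gcongr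
          _ = 16 * (√(n x * n y) ^ 2) ^ 2 := by ring
          _ = 16 * n x ^ 2 * n y ^ 2 := by
              rw [Real.sq_sqrt (mul_nonneg (hn x) (hn y))]; ring
          _ ≤ _ := by
              have := hN x hx
              have := hn x
              gcongr
      refine (Finset.sum_le_sum e1).trans (le_trans ?_ h3)
      rw [← Finset.mul_sum]
      gcongr
    mass := by
      refine le_trans ?_ h4
      rw [Finset.mul_sum]
      refine Finset.sum_le_sum fun x hx => ?_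
      have := hrow x (hX hx)
      have hη : 0 ≤ -(b x).im := by linarith [h.im x]
      nlinarith [mul_le_mul_of_nonneg_left this hη]
    dmass := by
      refine le_trans ?_ h5
      rw [Finset.mul_sum]
      refine Finset.sum_le_sum fun x hx => ?_
      have e1 := hent x (hA hx) x (hA hx)
      rw [Real.sqrt_mul_self (hn x)] at e1
      nlinarith [mul_le_mul_of_nonneg_left e1 (hk0 x hx)]
    rel := fun x hx y hy => by
      have e1 := hent x hx y hy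
      exact (mul_le_mul_of_nonneg_right e1 (hω0 x y)).trans (h2 x hx y hy)
    far := fun x hx y hy => by
      refine ((hent x hx y hy).trans ?_).trans (h6 x hx)
      have e1 : n x * n y ≤ N * n x := by
        have := mul_le_mul_of_nonneg_left (hN y hy) (hn x)
        linarith
      have := Real.sqrt_le_sqrt e1
      linarith }

end Pool.Agent.ANI
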