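import Pool.Agent.ANI.ContCls
import Pool.Agent.ANI.RawCls

/-! # ANI BLOBS (R4): the content is read blob after blob, raw (helper2)

The content `F = F_0 ∪ .. ∪ F_(m-1)`, `F_i ⊆ D_i`, the `D_i` far from each other.  `bl l` = diagonal after the blobs `i < l` have been
read (`bl 0 = b`, `bl m = b'`).  One leverage test for the whole cluster: `LevLe H b F y M` for `y ∈ bdy H (D_i)`; it is inherited
(`LevLe.sub`): an `F_l` wave of `bl l` is an `F` wave of `b`, and the leak of `b` off `F` is at most the leak of `bl l` off `F_l`.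

`VV l = X ∪ ⋃_{l ≤ j < m} bdy H (D_j)`; `w_i` site weights, `wR ≤ w_i` on `X` and on `bdy D_j`, `j ≠ i`, `w_i x ≤ ω x z` for `z ∈ bdy D_i`,
`ω x y ≤ Kd max(w_i x, w_i y)`, `1 ≤ ω`.  On `VV 0`: `|G_xy| ω_xy ≤ C0`, `|G_xz| ≤ Kg e^{-ν δ_x}`, `∑_A |G_zy|⁴ ≤ τ`.

With `P ≥ M h0² nb²`, `g = 2 C0 / wR`, `ε1 = 2 (P + 1) (g + Kd 2 C0 g)`, and the smallness `m ε1 ≤ C0`, `2 P g ≤ 1`,
`16^m 256 P⁴ g⁴ ≤ 1`:  `Cls (rsc H b) (rsc H b') η k X X A ω δ ν (m ε1) (16^m 256 P⁴ g⁴ τ) (4^m (4 + 2/c1) P 2 C0) (2^m Kg)`.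
-/

open Matrix Finset

noncomputable section

namespace Pool.Agent.ANI

open Pool.Agent.Kin Pool.Agent.APS Pool.Agent.ANL

variable {ι : Type} [Fintype ι] [DecidableEq ι] {H : Matrix ι ι ℂ} {b b' : ι → ℂ}

/-- the leverage of a part of the hole after other parts have been read -/
theorem levLe_sub {F F₁ : Finset ι} {b₁ : ι → ℂ} (hF : F₁ ⊆ F) (hb : ∀ x, x ∉ F → b₁ x = b x)
    (him : ∀ x, (b₁ x).im ≤ 0) {y : ι} {M : ℝ} (hM : 0 ≤ M) (h : LevLe H b F y M) :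
    LevLe H b₁ F₁ y M := by
  intro ψ hψ
  have h1 : IsWave H b F ψ := by
    have h2 : IsWave H b₁ F ψ := fun x hx => hψ x fun h3 => hx (hF h3)
    exact wave_congr hb h2
  refine (h ψ h1).trans (mul_le_mul_of_nonneg_left ?_ hM)
  have h3 : leak b F ψ = leak b₁ F ψ := leak_congr fun x hx => (hb x hx).symm
  rw [h3]
  exact leak_mono him hF

omit [Fintype ι] [DecidableEq ι] in
/-- reflexivity -/
theorem Cls.refl {G : ι → ι → ℂ} (hG : ∀ x y, G x y = G y x) (e k : ι → ℝ) (X0 X A : Finset ι)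
    (ω : ι → ι → ℝ) (δ : ι → ℝ) (ν : ℝ) : Cls G G e k X0 X A ω δ ν 0 0 0 0 where
  ε0 := le_refl _
  symG := hG
  symG' := hG
  row x _ := by simp
  four x _ := by simp
  mass := by simp
  dmass := by simp
  rel x _ y _ := by simp
  far x _ y _ := by simp

/-- the sites of the blobs read before `l` -/
def UFn (F : ℕ → Finset ι) (l : ℕ) : Finset ι := (range l).biUnion F

omit [Fintype ι] in
theorem mem_UFn {F : ℕ → Finset ι} {l : ℕ} {x : ι} : x ∈ UFn F l ↔ ∃ i < l, x ∈ F i := by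
  simp [UFn]

/-- the diagonal after the blobs before `l` -/
def bl (b b' : ι → ℂ) (F : ℕ → Finset ι) (l : ℕ) (x : ι) : ℂ := if x ∈ UFn F l then b' x else b x

/-- sites where the entries are compared after the blobs before `l` -/
def VV (H : Matrix ι ι ℂ) (D : ℕ → Finset ι) (X : Finset ι) (m l : ℕ) : Finset ι :=
  X ∪ (Ico l m).biUnion fun j => bdy H (D j)

theorem mem_VV {D : ℕ → Finset ι} {X : Finset ι} {m l : ℕ} {x : ι} :
    x ∈ VV H D X m l ↔ x ∈ X ∨ ∃ j, l ≤ j ∧ j < m ∧ x ∈ bdy H (D j) := by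
  simp only [VV, mem_union, mem_biUnion, mem_Ico]
  constructor
  · rintro (h | ⟨j, ⟨h1, h2⟩, h3⟩)
    · exact Or.inl h
    · exact Or.inr ⟨j, h1, h2, h3⟩
  · rintro (h | ⟨j, h1, h2, h3⟩)
    · exact Or.inl h
    · exact Or.inr ⟨j, ⟨h1, h2⟩, h3⟩

theorem VV_anti {D : ℕ → Finset ι} {X : Finset ι} {m l l' : ℕ} (h : l ≤ l') :
    VV H D X m l' ⊆ VV H D X m l := by
  intro x hx
  rcases mem_VV.1 hx with h1 | ⟨j, h1, h2, h3⟩
  · exact mem_VV.2 (Or.inl h1)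
  · exact mem_VV.2 (Or.inr ⟨j, h.trans h1, h2, h3⟩)

theorem X_sub_VV {D : ℕ → Finset ι} {X : Finset ι} {m l : ℕ} : X ⊆ VV H D X m l := fun _ hx =>
  mem_VV.2 (Or.inl hx)

theorem VV_top {D : ℕ → Finset ι} {X : Finset ι} {m : ℕ} : VV H D X m m = X := by
  ext x
  rw [mem_VV]
  constructor
  · rintro (h | ⟨j, h1, h2, _⟩)
    · exact h
    · omega
  · exact Or.inl

/-- the non resonance hypothesis of `Blb` from `Avoid` -/
theorem res_of_avoid {Z : Type} {hh : Z → ℝ} {E : ℝ} (hav : Avoid H hh E) {v : ι → Z}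
    {U : Finset ι} {m : ℕ} {F : ℕ → Finset ι} (hU : ∀ x ∈ U, b x = (hh (v x) : ℂ) - (E : ℂ))
    (hF : ∀ i < m, ∀ x ∈ F i, b' x = (hh (v x) : ℂ) - (E : ℂ)) (B : Finset ι) :
    NRes H b (U \ B) ∧ ∀ l ≤ m, NRes H (bl b b' F l) ((U ∪ UFn F l) \ B) := by
  refine ⟨hav.nres (v := v) fun x hx => hU x (mem_sdiff.1 hx).1, fun l hl => ?_⟩
  refine hav.nres (v := v) fun x hx => ?_
  unfold bl
  split_ifs with h1
  · obtain ⟨i, hi, h2⟩ := mem_UFn.1 h1
    exact hF i (hi.trans_le hl) x h2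
  · exact hU x ((mem_union.1 (mem_sdiff.1 hx).1).resolve_right h1)

/-- data of a content made of `m` blobs -/
structure Blb (H : Matrix ι ι ℂ) (b b' : ι → ℂ) (m : ℕ) (F D : ℕ → Finset ι) (U X A : Finset ι)
    (k : ι → ℝ) (ω : ι → ι → ℝ) (w : ℕ → ι → ℝ) (δ : ι → ℝ)
    (h0 M P ν c1 C0 Kd wR Kg τ : ℝ) : Prop where
  adm : Adm H b
  neg : ∀ x, x ∉ U → (b x).im < 0
  /-- non resonance -/
  res : ∀ B : Finset ι, NRes H b (U \ B) ∧ ∀ l ≤ m, NRes H (bl b b' F l) ((U ∪ UFn F l) \ B)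
  imF : ∀ i < m, ∀ x ∈ F i, (b' x).im = 0
  off : ∀ x, x ∉ UFn F m → b' x = b x
  hop : HopLe H h0
  h00 : 0 ≤ h0
  M0 : 0 ≤ M
  FD : ∀ i < m, F i ⊆ D i
  lev : ∀ i < m, ∀ y ∈ bdy H (D i), LevLe H b (UFn F m) y M
  sep : ∀ i < m, ∀ j < m, i ≠ j → Disjoint (bdy H (D j)) (D i)
  XD : ∀ i < m, Disjoint X (D i)
  AX : A ⊆ X
  XU : Disjoint X U
  nb : ∀ i < m, PCb H (D i) h0 M ≤ P
  P0 : 0 ≤ P
  ω1 : ∀ x y, 1 ≤ ω x y
  w0 : ∀ i < m, ∀ x ∈ X, wR ≤ w i x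
  w0' : ∀ i < m, ∀ j < m, i ≠ j → ∀ x ∈ bdy H (D j), wR ≤ w i x
  wω : ∀ i < m, ∀ x ∈ VV H D X m 0, ∀ z ∈ bdy H (D i), w i x ≤ ω x z
  ωw : ∀ i < m, ∀ x ∈ VV H D X m (i + 1), ∀ y ∈ VV H D X m (i + 1),
    ω x y ≤ Kd * max (w i x) (w i y)
  wR0 : 0 < wR
  Kd0 : 0 ≤ Kd
  C00 : 0 ≤ C0
  Kg0 : 0 ≤ Kg
  c10 : 0 < c1
  ent : ∀ x ∈ VV H D X m 0, ∀ y ∈ VV H D X m 0, ‖rsc H b x y‖ * ω x y ≤ C0
  far : ∀ x ∈ VV H D X m 0, ∀ i < m, ∀ z ∈ bdy H (D i), ‖rsc H b x z‖ ≤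
    Kg * Real.exp (-(ν * δ x))
  four : ∀ i < m, ∀ z ∈ bdy H (D i), ∑ y ∈ A, ‖rsc H b z y‖ ^ 4 ≤ τ
  τ0 : 0 ≤ τ
  hk : ∀ x ∈ A, c1 * k x ≤ -(b x).im
  k0 : ∀ x ∈ A, 0 ≤ k x

namespace Blb

variable {m : ℕ} {F D : ℕ → Finset ι} {U X A : Finset ι}
    {k : ι → ℝ} {ω : ι → ι → ℝ} {w : ℕ → ι → ℝ} {δ : ι → ℝ}
    {h0 M P ν c1 C0 Kd wR Kg τ : ℝ}

variable (h : Blb H b b' m F D U X A k ω w δ h0 M P ν c1 C0 Kd wR Kg τ)

include h

theorem bl_zero (x : ι) : bl b b' F 0 x = b x := by simp [bl, UFn]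

theorem bl_top (x : ι) : bl b b' F m x = b' x := by
  unfold bl
  split_ifs with h1
  · rfl
  · exact (h.off x h1).symm

theorem im_bl {l : ℕ} (hl : l ≤ m) (x : ι) : (bl b b' F l x).im ≤ 0 := by
  unfold bl
  split_ifs with h1
  · obtain ⟨i, hi, hx⟩ := mem_UFn.1 h1
    rw [h.imF i (hi.trans_le hl) x hx]
  · exact h.adm.im x

theorem neg_bl {l : ℕ} (x : ι) (hx : x ∉ U ∪ UFn F l) : (bl b b' F l x).im < 0 := by
  rw [mem_union, not_or] at hx
  rw [bl, if_neg hx.2]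
  exact h.neg x hx.1

theorem adm_bl {l : ℕ} (hl : l ≤ m) : Adm H (bl b b' F l) where
  sym := h.adm.sym
  im := h.im_bl hl
  unit := by
    have h1 := (h.res ∅).2 l hl
    rw [sdiff_empty] at h1
    exact unit_of_nres h.adm.sym (h.im_bl hl) (fun x hx => h.neg_bl x hx) h1

/-- one blob -/
theorem rcont {l : ℕ} (hl : l < m) :
    RCont H (bl b b' F l) (bl b b' F (l + 1)) (F l) (D l) h0 M where
  adm := h.adm_bl hl.le
  adm' := h.adm_bl hl
  off := by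
    intro x hx
    have h1 : x ∈ UFn F (l + 1) ↔ x ∈ UFn F l := by
      rw [mem_UFn, mem_UFn]
      constructor
      · rintro ⟨i, hi, h2⟩
        rcases Nat.lt_succ_iff_lt_or_eq.1 hi with h3 | h3
        · exact ⟨i, h3, h2⟩
        · rw [h3] at h2
          exact absurd h2 hx
      · rintro ⟨i, hi, h2⟩
        exact ⟨i, hi.trans (Nat.lt_succ_self _), h2⟩
    simp only [bl, h1]
  hop := h.hop
  h00 := h.h00
  M0 := h.M0
  FD := h.FD l hl
  dir := by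
    refine dirInj_of_nres (B := U ∪ UFn F l) h.adm.sym (h.im_bl hl.le)
      (fun x _ hx => h.neg_bl x hx) ((h.res (F l)).2 l hl.le)
  lev := by
    intro y hy
    refine levLe_sub (F := UFn F m) ?_ ?_ (h.im_bl hl.le) h.M0 (h.lev l hl y hy)
    · intro x hx
      exact mem_UFn.2 ⟨l, hl, hx⟩
    · intro x hx
      have h1 : x ∉ UFn F l := by
        intro h2
        obtain ⟨i, hi, h3⟩ := mem_UFn.1 h2
        exact hx (mem_UFn.2 ⟨i, hi.trans hl, h3⟩)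
      rw [bl, if_neg h1]

/-- the sites of `VV (l+1)` are off `D l` -/
theorem VV_D {l : ℕ} (hl : l < m) : Disjoint (VV H D X m (l + 1)) (D l) := by
  rw [disjoint_left]
  intro x hx hxD
  rcases mem_VV.1 hx with h1 | ⟨j, h1, h2, h3⟩
  · exact disjoint_left.1 (h.XD l hl) h1 hxD
  · exact disjoint_left.1 (h.sep l hl j h2 (by omega)) h3 hxD

theorem b_X {l : ℕ} (hl : l ≤ m) {x : ι} (hx : x ∈ X) : bl b b' F l x = b x := by
  rw [bl, if_neg]
  intro h1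
  obtain ⟨i, hi, h2⟩ := mem_UFn.1 h1
  exact disjoint_left.1 (h.XD i (hi.trans_le hl)) hx (h.FD i (hi.trans_le hl) h2)

end Blb

/-- the constant of one blob -/
def eB (P C0 Kd wR : ℝ) : ℝ := 2 * (P + 1) * (2 * C0 / wR + Kd * (2 * C0) * (2 * C0 / wR))

/-- the fourth moment of one blob -/
def qB (P C0 wR τ : ℝ) : ℝ := 256 * P ^ 4 * (2 * C0 / wR) ^ 4 * τ

/-- the mass of one blob -/
def WB (P C0 c1 : ℝ) : ℝ := (4 + 2 / c1) * (P * (2 * C0))

namespace Blb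

variable {m : ℕ} {F D : ℕ → Finset ι} {U X A : Finset ι}
    {k : ι → ℝ} {ω : ι → ι → ℝ} {w : ℕ → ι → ℝ} {δ : ι → ℝ}
    {h0 M P ν c1 C0 Kd wR Kg τ : ℝ}

variable (h : Blb H b b' m F D U X A k ω w δ h0 M P ν c1 C0 Kd wR Kg τ)

include h

theorem eB0 : 0 ≤ eB P C0 Kd wR := by
  have h1 := h.P0
  have h2 := h.C00
  have h3 := h.wR0
  have h4 := h.Kd0
  unfold eB
  positivity

theorem qB0 : 0 ≤ qB P C0 wR τ := by
  have h1 := h.P0
  have h2 := h.C00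
  have h3 := h.wR0
  have h4 := h.τ0
  unfold qB
  positivity

theorem WB0 : 0 ≤ WB P C0 c1 := by
  have h1 := h.P0
  have h2 := h.C00
  have h3 := h.c10
  unfold WB
  positivity

/-- one step, from the total closeness so far -/
theorem step {l : ℕ} (hl : l < m) {ε q W Kf : ℝ}
    (hc : Cls (rsc H b) (rsc H (bl b b' F l)) (fun x => -(b x).im) k (VV H D X m l) X A ω δ ν
      ε q W Kf) (hε : ε ≤ C0) (hq : q ≤ τ) (hKf : Kg + Kf ≤ 2 ^ l * Kg)
    (hPg : 2 * P * (2 * C0 / wR) ≤ 1) :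
    Cls (rsc H (bl b b' F l)) (rsc H (bl b b' F (l + 1))) (fun x => -(b x).im) k
      (VV H D X m (l + 1)) X A ω δ ν (eB P C0 Kd wR) (qB P C0 wR τ) (WB P C0 c1) (2 ^ l * Kg) := by
  have hP0 := h.P0
  have hC0 := h.C00
  have hwR := h.wR0
  have hKd := h.Kd0
  have hc10 := h.c10
  have hr := h.rcont hl
  have hsub : VV H D X m (l + 1) ⊆ VV H D X m l := VV_anti (Nat.le_succ l)
  have hsub0 : VV H D X m l ⊆ VV H D X m 0 := VV_anti (Nat.zero_le l)
  have hbd : ∀ z ∈ bdy H (D l), z ∈ VV H D X m l := fun z hz =>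
    mem_VV.2 (Or.inr ⟨l, le_refl _, hl, hz⟩)
  have hnb : ∀ x ∈ VV H D X m (l + 1), wR ≤ w l x := by
    intro x hx
    rcases mem_VV.1 hx with h1 | ⟨j, h1, h2, h3⟩
    · exact h.w0 l hl x h1
    · exact h.w0' l hl j h2 (by omega) x h3
  have hω0 : ∀ x y, 0 ≤ ω x y := fun x y => zero_le_one.trans (h.ω1 x y)
  -- entries of the current resolvent
  have htri : ∀ x y, ‖rsc H (bl b b' F l) x y‖ ≤ ‖rsc H b x y‖ +
        ‖rsc H (bl b b' F l) x y - rsc H b x y‖ := by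
    intro x y
    calc ‖rsc H (bl b b' F l) x y‖ = ‖rsc H b x y + (rsc H (bl b b' F l) x y - rsc H b x y)‖ := by
          congr 1; ring
      _ ≤ _ := norm_add_le _ _
  have hent : ∀ x ∈ VV H D X m l, ∀ y ∈ VV H D X m l,
      ‖rsc H (bl b b' F l) x y‖ * ω x y ≤ 2 * C0 := by
    intro x hx y hy
    have h1 := h.ent x (hsub0 hx) y (hsub0 hy)
    have h2 := hc.rel x hx y hy
    have h5 := mul_le_mul_of_nonneg_right (htri x y) (hω0 x y)
    rw [add_mul] at h5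
    linarith
  have hG : ∀ x ∈ VV H D X m (l + 1), ∀ z ∈ bdy H (D l),
      ‖rsc H (bl b b' F l) x z‖ * w l x ≤ 2 * C0 := fun x hx z hz =>
    (mul_le_mul_of_nonneg_left (h.wω l hl x (hsub0 (hsub hx)) z hz) (norm_nonneg _)).trans
      (hent x (hsub hx) z (hbd z hz))
  have hd : ∀ x ∈ VV H D X m (l + 1), ∀ y ∈ VV H D X m (l + 1),
      ω x y ≤ Kd * max (w l x) (w l y) := fun x hx y hy => h.ωw l hl x hx y hy
  have hΓ : ∀ z ∈ bdy H (D l), (rsc H (bl b b' F l) z z).im ≤ 2 * C0 := by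
    intro z hz
    have h1 := hent z (hbd z hz) z (hbd z hz)
    have h2 : ‖rsc H (bl b b' F l) z z‖ * 1 ≤ ‖rsc H (bl b b' F l) z z‖ * ω z z :=
      mul_le_mul_of_nonneg_left (h.ω1 z z) (norm_nonneg _)
    have h3 := Complex.im_le_norm (rsc H (bl b b' F l) z z)
    linarith
  have hτ : ∀ z ∈ bdy H (D l), ∑ y ∈ A, ‖rsc H (bl b b' F l) y z‖ ^ 4 ≤ 16 * τ := by
    intro z hz
    have h1 := h.four l hl z hz
    have h2 := hc.four z (hbd z hz)
    have h3 : ∀ y ∈ A, ‖rsc H (bl b b' F l) y z‖ ^ 4 ≤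
        8 * (‖rsc H b z y‖ ^ 4 + ‖rsc H (bl b b' F l) z y - rsc H b z y‖ ^ 4) := by
      intro y _
      rw [adm_symm (h.adm_bl hl.le) y z]
      have h4 := four_add (rsc H b z y) (rsc H (bl b b' F l) z y - rsc H b z y)
      rwa [add_sub_cancel] at h4
    refine (sum_le_sum h3).trans ?_
    rw [← mul_sum, sum_add_distrib]
    linarith
  have hk : ∀ x ∈ A, c1 * k x ≤ -(bl b b' F l x).im := fun x hx => by
    rw [h.b_X hl.le (h.AX hx)]
    exact h.hk x hx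
  have hfar : ∀ x ∈ VV H D X m (l + 1), ∀ z ∈ bdy H (D l),
      ‖rsc H (bl b b' F l) x z‖ ≤ (2 ^ l * Kg) * Real.exp (-(ν * δ x)) := by
    intro x hx z hz
    have h1 := h.far x (hsub0 (hsub hx)) l hl z hz
    have h2 := hc.far x (hsub hx) z (hbd z hz)
    have h3 := htri x z
    have h4 := mul_le_mul_of_nonneg_right hKf (Real.exp_pos (-(ν * δ x))).le
    rw [add_mul] at h4
    linarith
  have hmain := hr.clsW (h.VV_D hl) (X_sub_VV (H := H) (D := D) (X := X) (m := m) (l := l + 1))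
    h.AX (k := k) (ω := ω) (w := w l) (δ := δ) (ν := ν) (c1 := c1) (C := 2 * C0) (Kd := Kd)
    (wR := wR) (Γ := 2 * C0) (τ := 16 * τ) (Kg := 2 ^ l * Kg) (by positivity) hKd (by positivity)
    hc10 hω0 hwR hnb hG hd hΓ hτ hk hfar
  have hPC := h.nb l hl
  have hPC0 := PCb_nonneg (H := H) (D := D l) (h0 := h0) h.M0
  have hτ0 := h.τ0
  have hKg0 := h.Kg0
  refine (hmain.mono ?_ ?_ ?_ ?_).congr (fun x hx => ?_) (fun x _ => rfl)
  · unfold eB
    gcongr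
  · unfold qB
    calc 16 * PCb H (D l) h0 M ^ 4 * (2 * C0 / wR) ^ 4 * (16 * τ)
        ≤ 16 * P ^ 4 * (2 * C0 / wR) ^ 4 * (16 * τ) := by gcongr
      _ = _ := by ring
  · unfold WB
    gcongr
  · calc 2 * PCb H (D l) h0 M * (2 ^ l * Kg * (2 * C0 / wR))
        ≤ 2 * P * (2 ^ l * Kg * (2 * C0 / wR)) := by gcongr
      _ = (2 * P * (2 * C0 / wR)) * (2 ^ l * Kg) := by ring
      _ ≤ 1 * (2 ^ l * Kg) := mul_le_mul_of_nonneg_right hPg (by positivity)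
      _ = _ := one_mul _
  · rw [h.b_X hl.le hx]

/-- THE CONTENT, ALL BLOBS -/
theorem main (hεC : m * eB P C0 Kd wR ≤ C0) (hqτ : (16 : ℝ) ^ m * qB P C0 wR τ ≤ τ)
    (hPg : 2 * P * (2 * C0 / wR) ≤ 1) :
    Cls (rsc H b) (rsc H b') (fun x => -(b x).im) k X X A ω δ ν (m * eB P C0 Kd wR)
      (16 ^ m * qB P C0 wR τ) (4 ^ m * WB P C0 c1) (2 ^ m * Kg) := by
  have he0 := h.eB0
  have hq0 := h.qB0
  have hW0 := h.WB0
  have hKg0 := h.Kg0
  have hind : ∀ l, l ≤ m → Cls (rsc H b) (rsc H (bl b b' F l)) (fun x => -(b x).im) k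
      (VV H D X m l) X A ω δ ν (l * eB P C0 Kd wR) ((16 ^ l - 1) * qB P C0 wR τ)
      ((4 ^ l - 1) * WB P C0 c1) ((2 ^ l - 1) * Kg) := by
    intro l
    induction l with
    | zero =>
      intro _
      have h1 := Cls.refl (G := rsc H b) (fun x y => adm_symm h.adm x y) (fun x => -(b x).im) k
        (VV H D X m 0) X A ω δ ν
      have h2 : bl b b' F 0 = b := funext fun x => h.bl_zero x
      rw [h2]
      simpa using h1
    | succ l ih =>
      intro hl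
      have hl' : l < m := hl
      have h1 := ih hl'.le
      have hlm : (l : ℝ) ≤ m := by exact_mod_cast hl'.le
      have h16 : (16 : ℝ) ^ l ≤ 16 ^ m := pow_le_pow_right₀ (by norm_num) hl'.le
      have h2 := h.step hl' h1 ((mul_le_mul_of_nonneg_right hlm he0).trans hεC)
        (by nlinarith) (by linarith) hPg
      have h3 := (h1.sub (fun x hx => ?_) (fun x hx => h.k0 x hx)
        (VV_anti (H := H) (D := D) (X := X) (m := m) (Nat.le_succ l)) (subset_refl _)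
        (subset_refl _)).add (fun x _ => ?_) (fun x hx => h.k0 x hx)
        (fun x y => zero_le_one.trans (h.ω1 x y)) h2
      · refine h3.mono ?_ ?_ ?_ ?_
        · push_cast
          linarith
        · have h4 : (16 : ℝ) ^ (l + 1) = 16 * 16 ^ l := by ring
          have h5 : (1 : ℝ) ≤ 16 ^ l := one_le_pow₀ (by norm_num)
          rw [h4]
          nlinarith
        · have h4 : (4 : ℝ) ^ (l + 1) = 4 * 4 ^ l := by ring
          have h5 : (1 : ℝ) ≤ 4 ^ l := one_le_pow₀ (by norm_num)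
          rw [h4]
          nlinarith
        · have h4 : (2 : ℝ) ^ (l + 1) = 2 * 2 ^ l := by ring
          rw [h4]
          linarith
      · have := h.adm.im x
        linarith
      · have := h.adm.im x
        linarith
  have h1 := hind m (le_refl _)
  have h2 : bl b b' F m = b' := funext fun x => h.bl_top x
  rw [h2, VV_top] at h1
  refine h1.mono (le_refl _) ?_ ?_ ?_
  · nlinarith
  · nlinarith
  · linarith

end Blb

end Pool.Agent.ANI
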