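import Pool.Agent.ANI.Clo

/-! # ANI CLS: closeness of two kernels with all the information used at an insertion (helper75)

`X` absorbing sites of the new medium, `A ⊆ X` active sites, `X0 ⊇ X` (or smaller) the sites at which entries are compared,
`e = η`, `k` levels, `ω` pair weight (`ω ≥ 1`, relative decay), `δ` distance to the insertion.
* `row`, `four`, `mass`, `dmass`: `∑_X e |D_x.|² ≤ ε²`, `∑_A |D_x.|⁴ ≤ q`, `∑_X e_x ∑_X e_y |D_xy|² ≤ W`, `∑_A k |D_xx| ≤ W`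
* `rel` : `|D_xy| ω_xy ≤ ε`;  `far` : `|D_xy| ≤ Kf e^{-ν δ_x}`.
-/

open Finset

noncomputable section

namespace Pool.Agent.ANI

variable {ι : Type}

/-- closeness with all the information -/
structure Cls (G G' : ι → ι → ℂ) (e k : ι → ℝ) (X0 X A : Finset ι) (ω : ι → ι → ℝ) (δ : ι → ℝ)
    (ν ε q W Kf : ℝ) : Prop where
  ε0 : 0 ≤ ε
  symG : ∀ x y, G x y = G y x
  symG' : ∀ x y, G' x y = G' y x
  row : ∀ x ∈ X0, ∑ y ∈ X, e y * ‖G' x y - G x y‖ ^ 2 ≤ ε ^ 2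
  four : ∀ x ∈ X0, ∑ y ∈ A, ‖G' x y - G x y‖ ^ 4 ≤ q
  mass : ∑ x ∈ X, e x * ∑ y ∈ X, e y * ‖G' x y - G x y‖ ^ 2 ≤ W
  dmass : ∑ x ∈ A, k x * ‖G' x x - G x x‖ ≤ W
  rel : ∀ x ∈ X0, ∀ y ∈ X0, ‖G' x y - G x y‖ * ω x y ≤ ε
  far : ∀ x ∈ X0, ∀ y ∈ X0, ‖G' x y - G x y‖ ≤ Kf * Real.exp (-(ν * δ x))

variable {G G' G'' : ι → ι → ℂ} {e k : ι → ℝ} {X0 X A : Finset ι} {ω : ι → ι → ℝ} {δ : ι → ℝ}
  {ν ε q W Kf ε' q' W' Kf' : ℝ}

theorem Cls.mono (h : Cls G G' e k X0 X A ω δ ν ε q W Kf) (hε : ε ≤ ε') (hq : q ≤ q')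
    (hW : W ≤ W') (hK : Kf ≤ Kf') : Cls G G' e k X0 X A ω δ ν ε' q' W' Kf' where
  ε0 := h.ε0.trans hε
  symG := h.symG
  symG' := h.symG'
  row x hx := (h.row x hx).trans (pow_le_pow_left₀ h.ε0 hε 2)
  four x hx := (h.four x hx).trans hq
  mass := h.mass.trans hW
  dmass := h.dmass.trans hW
  rel x hx y hy := (h.rel x hx y hy).trans hε
  far x hx y hy := (h.far x hx y hy).trans (by gcongr)

theorem Cls.sub {X0' X' A' : Finset ι} (h : Cls G G' e k X0 X A ω δ ν ε q W Kf)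
    (he : ∀ x ∈ X, 0 ≤ e x) (hk : ∀ x ∈ A, 0 ≤ k x)
    (h0 : X0' ⊆ X0) (hX : X' ⊆ X) (hA : A' ⊆ A) :
    Cls G G' e k X0' X' A' ω δ ν ε q W Kf where
  ε0 := h.ε0
  symG := h.symG
  symG' := h.symG'
  row x hx := (Finset.sum_le_sum_of_subset_of_nonneg hX fun y hy _ =>
    mul_nonneg (he y hy) (by positivity)).trans (h.row x (h0 hx))
  four x hx := (Finset.sum_le_sum_of_subset_of_nonneg hA fun y hy _ => by positivity).trans
    (h.four x (h0 hx))
  mass := by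
    refine le_trans ?_ h.mass
    refine (Finset.sum_le_sum fun x hx => mul_le_mul_of_nonneg_left
      (Finset.sum_le_sum_of_subset_of_nonneg hX fun y hy _ =>
        mul_nonneg (he y hy) (by positivity)) (he x (hX hx))).trans ?_
    exact Finset.sum_le_sum_of_subset_of_nonneg hX fun x hx _ =>
      mul_nonneg (he x hx) (Finset.sum_nonneg fun y hy => mul_nonneg (he y hy) (by positivity))
  dmass := (Finset.sum_le_sum_of_subset_of_nonneg hA fun y hy _ =>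
    mul_nonneg (hk y hy) (norm_nonneg _)).trans h.dmass
  rel x hx y hy := h.rel x (h0 hx) y (h0 hy)
  far x hx y hy := h.far x (h0 hx) y (h0 hy)

theorem Cls.add (he : ∀ y ∈ X, 0 ≤ e y) (hk : ∀ x ∈ A, 0 ≤ k x) (hω : ∀ x y, 0 ≤ ω x y)
    (h : Cls G G' e k X0 X A ω δ ν ε q W Kf) (h' : Cls G' G'' e k X0 X A ω δ ν ε' q' W' Kf') :
    Cls G G'' e k X0 X A ω δ ν (ε + ε') (8 * (q + q')) (2 * (W + W')) (Kf + Kf') where
  ε0 := add_nonneg h.ε0 h'.ε0
  symG := h.symG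
  symG' := h'.symG'
  row x hx := by
    have h1 := row_add he h.ε0 h'.ε0 (h.row x hx) (h'.row x hx)
    refine le_trans (le_of_eq (Finset.sum_congr rfl fun y _ => ?_)) h1
    congr 3
    ring
  four x hx := by
    refine (Finset.sum_le_sum (g := fun y => 8 * (‖G' x y - G x y‖ ^ 4 + ‖G'' x y - G' x y‖ ^ 4))
      fun y _ => ?_).trans ?_
    · have := four_add (G' x y - G x y) (G'' x y - G' x y)
      rwa [show G' x y - G x y + (G'' x y - G' x y) = G'' x y - G x y by ring] at this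
    · rw [← Finset.mul_sum, Finset.sum_add_distrib]
      have h1 := h.four x hx
      have h2 := h'.four x hx
      linarith
  mass := by
    have h1 : ∀ x ∈ X, e x * ∑ y ∈ X, e y * ‖G'' x y - G x y‖ ^ 2 ≤
        2 * (e x * ∑ y ∈ X, e y * ‖G' x y - G x y‖ ^ 2) +
          2 * (e x * ∑ y ∈ X, e y * ‖G'' x y - G' x y‖ ^ 2) := by
      intro x hx
      have h2 : ∑ y ∈ X, e y * ‖G'' x y - G x y‖ ^ 2 ≤
          2 * ∑ y ∈ X, e y * ‖G' x y - G x y‖ ^ 2 + 2 * ∑ y ∈ X, e y * ‖G'' x y - G' x y‖ ^ 2 := by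
        rw [Finset.mul_sum, Finset.mul_sum, ← Finset.sum_add_distrib]
        refine Finset.sum_le_sum fun y hy => ?_
        have h3 := norm_add_le (G' x y - G x y) (G'' x y - G' x y)
        rw [show G' x y - G x y + (G'' x y - G' x y) = G'' x y - G x y by ring] at h3
        have h4 : ‖G'' x y - G x y‖ ^ 2 ≤ 2 * ‖G' x y - G x y‖ ^ 2 + 2 * ‖G'' x y - G' x y‖ ^ 2 := by
          have h5 : ‖G'' x y - G x y‖ ^ 2 ≤ (‖G' x y - G x y‖ + ‖G'' x y - G' x y‖) ^ 2 := by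
            gcongr
          nlinarith [sq_nonneg (‖G' x y - G x y‖ - ‖G'' x y - G' x y‖)]
        nlinarith [mul_le_mul_of_nonneg_left h4 (he y hy)]
      nlinarith [mul_le_mul_of_nonneg_left h2 (he x hx)]
    refine (Finset.sum_le_sum h1).trans ?_
    rw [Finset.sum_add_distrib, ← Finset.mul_sum, ← Finset.mul_sum]
    have := h.mass
    have := h'.mass
    linarith
  dmass := by
    have h0 : ∀ x ∈ A, 0 ≤ k x * ‖G' x x - G x x‖ := fun x hx =>
      mul_nonneg (hk x hx) (norm_nonneg _)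
    have h0' : ∀ x ∈ A, 0 ≤ k x * ‖G'' x x - G' x x‖ := fun x hx =>
      mul_nonneg (hk x hx) (norm_nonneg _)
    have h1 : ∑ x ∈ A, k x * ‖G'' x x - G x x‖ ≤
        ∑ x ∈ A, k x * ‖G' x x - G x x‖ + ∑ x ∈ A, k x * ‖G'' x x - G' x x‖ := by
      rw [← Finset.sum_add_distrib]
      refine Finset.sum_le_sum fun x hx => ?_
      have h3 := norm_add_le (G' x x - G x x) (G'' x x - G' x x)
      rw [show G' x x - G x x + (G'' x x - G' x x) = G'' x x - G x x by ring] at h3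
      nlinarith [mul_le_mul_of_nonneg_left h3 (hk x hx)]
    have h2 := h.dmass
    have h3 := h'.dmass
    have h4 : 0 ≤ W := (Finset.sum_nonneg h0).trans h2
    have h5 : 0 ≤ W' := (Finset.sum_nonneg h0').trans h3
    linarith
  rel x hx y hy := by
    have h1 := norm_add_le (G' x y - G x y) (G'' x y - G' x y)
    rw [show G' x y - G x y + (G'' x y - G' x y) = G'' x y - G x y by ring] at h1
    have h2 := h.rel x hx y hy
    have h3 := h'.rel x hx y hy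
    nlinarith [mul_le_mul_of_nonneg_right h1 (hω x y)]
  far x hx y hy := by
    have h1 := norm_add_le (G' x y - G x y) (G'' x y - G' x y)
    rw [show G' x y - G x y + (G'' x y - G' x y) = G'' x y - G x y by ring] at h1
    have h2 := h.far x hx y hy
    have h3 := h'.far x hx y hy
    rw [add_mul]
    linarith

/-- far entries: decay in both variables -/
theorem Cls.far2 (h : Cls G G' e k X0 X A ω δ ν ε q W Kf) {x y : ι} (hx : x ∈ X0) (hy : y ∈ X0) :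
    ‖G' x y - G x y‖ ≤ Kf * Real.exp (-(ν * max (δ x) (δ y))) := by
  rcases max_cases (δ x) (δ y) with ⟨h1, _⟩ | ⟨h1, _⟩
  · rw [h1]; exact h.far x hx y hy
  · rw [h1, h.symG' x y, h.symG x y]; exact h.far y hy x hx

theorem Cls.Kf0 (h : Cls G G' e k X0 X A ω δ ν ε q W Kf) {x : ι} (hx : x ∈ X0) : 0 ≤ Kf := by
  by_contra hc
  push Not at hc
  have h1 := h.far x hx x hx
  have h2 := norm_nonneg (G' x x - G x x)
  have h3 : Kf * Real.exp (-(ν * δ x)) < 0 := mul_neg_of_neg_of_pos hc (Real.exp_pos _)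
  linarith

/-- far rows -/
theorem Cls.farRow (h : Cls G G' e k X0 X A ω δ ν ε q W Kf) (hX : X ⊆ X0) (hν : 0 ≤ ν)
    (he : ∀ x ∈ X, 0 ≤ e x) (he1 : ∀ x ∈ X, e x ≤ 1) {Sν : ℝ}
    (hS : ∑ y ∈ X, Real.exp (-(ν * δ y)) ≤ Sν) {x : ι} (hx : x ∈ X0) :
    ∑ y ∈ X, e y * ‖G' x y - G x y‖ ^ 2 ≤ Kf ^ 2 * Sν * Real.exp (-(ν * δ x)) := by
  have hK := h.Kf0 hx
  have h1 : ∀ y ∈ X, e y * ‖G' x y - G x y‖ ^ 2 ≤
      (Kf ^ 2 * Real.exp (-(ν * δ x))) * Real.exp (-(ν * δ y)) := by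
    intro y hy
    have h2 := h.far2 hx (hX hy)
    have h3 : ‖G' x y - G x y‖ ^ 2 ≤ Kf ^ 2 * Real.exp (-(2 * (ν * max (δ x) (δ y)))) := by
      calc ‖G' x y - G x y‖ ^ 2 ≤ (Kf * Real.exp (-(ν * max (δ x) (δ y)))) ^ 2 := by gcongr
        _ = _ := by
          rw [mul_pow, ← Real.exp_nat_mul]
          congr 2
          push_cast
          ring
    have h4 : Real.exp (-(2 * (ν * max (δ x) (δ y)))) ≤
        Real.exp (-(ν * δ x)) * Real.exp (-(ν * δ y)) := by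
      rw [← Real.exp_add]
      refine Real.exp_le_exp.2 ?_
      have := mul_le_mul_of_nonneg_left (le_max_left (δ x) (δ y)) hν
      have := mul_le_mul_of_nonneg_left (le_max_right (δ x) (δ y)) hν
      linarith
    calc e y * ‖G' x y - G x y‖ ^ 2 ≤ 1 * ‖G' x y - G x y‖ ^ 2 := by
          gcongr
          exact he1 y hy
      _ = ‖G' x y - G x y‖ ^ 2 := one_mul _
      _ ≤ Kf ^ 2 * Real.exp (-(2 * (ν * max (δ x) (δ y)))) := h3
      _ ≤ Kf ^ 2 * (Real.exp (-(ν * δ x)) * Real.exp (-(ν * δ y))) := by gcongr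
      _ = _ := by ring
  refine (Finset.sum_le_sum h1).trans ?_
  rw [← Finset.mul_sum]
  calc Kf ^ 2 * Real.exp (-(ν * δ x)) * ∑ y ∈ X, Real.exp (-(ν * δ y)) ≤
        Kf ^ 2 * Real.exp (-(ν * δ x)) * Sν := by gcongr
    _ = _ := by ring

/-- far fourth moments -/
theorem Cls.farFour (h : Cls G G' e k X0 X A ω δ ν ε q W Kf) (hA : A ⊆ X0) (hν : 0 ≤ ν) {Sν : ℝ}
    (hS : ∑ y ∈ A, Real.exp (-(ν * δ y)) ≤ Sν) {x : ι} (hx : x ∈ X0) :
    ∑ y ∈ A, ‖G' x y - G x y‖ ^ 4 ≤ Kf ^ 4 * Sν * Real.exp (-(3 * (ν * δ x))) := by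
  have hK := h.Kf0 hx
  have h1 : ∀ y ∈ A, ‖G' x y - G x y‖ ^ 4 ≤
      (Kf ^ 4 * Real.exp (-(3 * (ν * δ x)))) * Real.exp (-(ν * δ y)) := by
    intro y hy
    have h2 := h.far2 hx (hA hy)
    calc ‖G' x y - G x y‖ ^ 4 ≤ (Kf * Real.exp (-(ν * max (δ x) (δ y)))) ^ 4 := by gcongr
      _ = Kf ^ 4 * Real.exp (-(4 * (ν * max (δ x) (δ y)))) := by
          rw [mul_pow, ← Real.exp_nat_mul]
          congr 2
          push_cast
          ring
      _ ≤ Kf ^ 4 * (Real.exp (-(3 * (ν * δ x))) * Real.exp (-(ν * δ y))) := by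
          rw [← Real.exp_add]
          gcongr
          have := mul_le_mul_of_nonneg_left (le_max_left (δ x) (δ y)) hν
          have := mul_le_mul_of_nonneg_left (le_max_right (δ x) (δ y)) hν
          linarith
      _ = _ := by ring
  refine (Finset.sum_le_sum h1).trans ?_
  rw [← Finset.mul_sum]
  calc Kf ^ 4 * Real.exp (-(3 * (ν * δ x))) * ∑ y ∈ A, Real.exp (-(ν * δ y)) ≤
        Kf ^ 4 * Real.exp (-(3 * (ν * δ x))) * Sν := by gcongr
    _ = _ := by ring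

end Pool.Agent.ANI
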