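import Pool.Agent.ANI.RawCont
import Pool.Agent.ANI.Cls

/-! # ANI CONTCLS: the raw content step as a `Cls`, site weights (helper2)

`h : RCont H b b' F D h0 M`, `P = M h0² nb²`.  `X0` disjoint from `D`, `A ⊆ X ⊆ X0`.  On `X0 × bdy H D`: `|G_xz| ≤ g`,
`|G_xz| |G_yz'| ω_xy ≤ R0`, `|G_xz| ≤ Kg e^{-ν δ_x}`; on `bdy H D`: `Im G_zz ≤ Γ`, `∑_A |G_yz|⁴ ≤ τ`.
Conclusion: `Cls G G' η k X0 X A ω δ ν ε q W Kf` with
`ε = 2 (P + 1) (g + R0)`, `q = 16 P⁴ g⁴ τ`, `W = (4 + 2/c1) P Γ`, `Kf = 2 P Kg g`.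
`RCont.clsW`: the same from a site weight `w` : `w_x ≥ wR`, `|G_xz| w_x ≤ C`, `ω_xy ≤ Kd max(w_x, w_y)` : `g = C/wR`,
`R0 = Kd C g`.
-/

open Matrix Finset

noncomputable section

namespace Pool.Agent.ANI

open Pool.Agent.Kin Pool.Agent.APS Pool.Agent.ANL

variable {ι : Type} [Fintype ι] [DecidableEq ι] {H : Matrix ι ι ℂ} {b b' : ι → ℂ}
  {F D : Finset ι} {h0 M : ℝ}

/-- the constant of the content step -/
def PCb (H : Matrix ι ι ℂ) (D : Finset ι) (h0 M : ℝ) : ℝ := M * h0 ^ 2 * ((bdy H D).card : ℝ) ^ 2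

theorem PCb_nonneg (hM : 0 ≤ M) : 0 ≤ PCb H D h0 M :=
  mul_nonneg (mul_nonneg hM (sq_nonneg _)) (sq_nonneg _)

theorem nlev_PCb (hM : 0 ≤ M) {x : ι} {g : ℝ} (hg : ∀ z ∈ bdy H D, ‖rsc H b x z‖ ≤ g) :
    nlev H b D h0 M x ≤ PCb H D h0 M * g ^ 2 := by
  refine (nlev_le (h0 := h0) hM hg).trans (le_of_eq ?_)
  rw [PCb]
  ring

namespace RCont

variable (h : RCont H b b' F D h0 M)

include h

/-- the entries, with all pairs of boundary sites -/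
theorem entry_pair {x y : ι} (hx : x ∉ D) (hy : y ∉ D) :
    ‖rsc H b' x y - rsc H b x y‖ ≤ 2 * (M * h0 ^ 2) *
      ∑ z ∈ bdy H D, ∑ z' ∈ bdy H D, ‖rsc H b x z‖ * ‖rsc H b y z'‖ := by
  have hM := h.M0
  have h1 := h.entry hx hy
  refine abs_le_of_sq_le_sq' ?_ ?_ |>.2
  · refine h1.trans (le_of_eq ?_)
    rw [nlev, nlev, ← sum_mul_sum]
    ring
  · exact mul_nonneg (by positivity) (sum_nonneg fun _ _ => sum_nonneg fun _ _ => by positivity)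

/-- weighted entries -/
theorem entry_wt {x y : ι} (hx : x ∉ D) (hy : y ∉ D) {t R0 : ℝ} (ht : 0 ≤ t)
    (hR : ∀ z ∈ bdy H D, ∀ z' ∈ bdy H D, ‖rsc H b x z‖ * ‖rsc H b y z'‖ * t ≤ R0) :
    ‖rsc H b' x y - rsc H b x y‖ * t ≤ 2 * PCb H D h0 M * R0 := by
  have hM := h.M0
  calc ‖rsc H b' x y - rsc H b x y‖ * t
      ≤ 2 * (M * h0 ^ 2) * (∑ z ∈ bdy H D, ∑ z' ∈ bdy H D,
          ‖rsc H b x z‖ * ‖rsc H b y z'‖) * t :=
        mul_le_mul_of_nonneg_right (h.entry_pair hx hy) ht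
    _ = 2 * (M * h0 ^ 2) * (∑ z ∈ bdy H D, ∑ z' ∈ bdy H D,
          ‖rsc H b x z‖ * ‖rsc H b y z'‖ * t) := by
        rw [mul_assoc (2 * (M * h0 ^ 2)), sum_mul]
        congr 1
        exact sum_congr rfl fun z _ => sum_mul _ _ _
    _ ≤ 2 * (M * h0 ^ 2) * (∑ z ∈ bdy H D, ∑ z' ∈ bdy H D, R0) := by
        refine mul_le_mul_of_nonneg_left ?_ (by positivity)
        exact sum_le_sum fun z hz => sum_le_sum fun z' hz' => hR z hz z' hz'
    _ = _ := by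
        rw [sum_const, sum_const, PCb, nsmul_eq_mul, nsmul_eq_mul]
        ring

/-- THE CONTENT STEP -/
theorem cls {X0 X A : Finset ι} (hX0 : Disjoint X0 D) (hX : X ⊆ X0) (hAX : A ⊆ X) {k : ι → ℝ}
    {ω : ι → ι → ℝ} {δ : ι → ℝ} {ν c1 g R0 Γ τ Kg : ℝ} (hg0 : 0 ≤ g) (hR00 : 0 ≤ R0)
    (hΓ0 : 0 ≤ Γ) (hc1 : 0 < c1) (hω0 : ∀ x y, 0 ≤ ω x y)
    (hg : ∀ x ∈ X0, ∀ z ∈ bdy H D, ‖rsc H b x z‖ ≤ g)
    (hΓ : ∀ z ∈ bdy H D, (rsc H b z z).im ≤ Γ)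
    (hτ : ∀ z ∈ bdy H D, ∑ y ∈ A, ‖rsc H b y z‖ ^ 4 ≤ τ)
    (hk : ∀ x ∈ A, c1 * k x ≤ -(b x).im)
    (hR : ∀ x ∈ X0, ∀ y ∈ X0, ∀ z ∈ bdy H D, ∀ z' ∈ bdy H D,
      ‖rsc H b x z‖ * ‖rsc H b y z'‖ * ω x y ≤ R0)
    (hfar : ∀ x ∈ X0, ∀ z ∈ bdy H D, ‖rsc H b x z‖ ≤ Kg * Real.exp (-(ν * δ x))) :
    Cls (rsc H b) (rsc H b') (fun x => -(b x).im) k X0 X A ω δ ν
      (2 * (PCb H D h0 M + 1) * (g + R0)) (16 * PCb H D h0 M ^ 4 * g ^ 4 * τ)
      ((4 + 2 / c1) * (PCb H D h0 M * Γ)) (2 * PCb H D h0 M * (Kg * g)) := by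
  have hM := h.M0
  have hP := PCb_nonneg (H := H) (D := D) (h0 := h0) h.M0
  have hη : ∀ y, 0 ≤ -(b y).im := fun y => by linarith [h.adm.im y]
  have hxD : ∀ x ∈ X0, x ∉ D := fun x hx => disjoint_left.1 hX0 hx
  have hn : ∀ x ∈ X0, nlev H b D h0 M x ≤ PCb H D h0 M * g ^ 2 := fun x hx =>
    nlev_PCb h.M0 (hg x hx)
  have hXD : Disjoint X D := hX0.mono_left hX
  have hAD : Disjoint A D := hXD.mono_left hAX
  have hmass := h.mass X hΓ
  have hPG : M * h0 ^ 2 * (((bdy H D).card : ℝ) ^ 2 * Γ) = PCb H D h0 M * Γ := by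
    rw [PCb]
    ring
  have h1c : 0 ≤ 2 / c1 := by positivity
  constructor
  · positivity
  · exact fun x y => adm_symm h.adm x y
  · exact fun x y => adm_symm h.adm' x y
  · intro x hx
    refine (h.row (hxD x hx) hXD).trans ?_
    have h1 := hn x hx
    have h2 : 4 * (PCb H D h0 M * g ^ 2) ≤ (2 * (PCb H D h0 M + 1) * (g + R0)) ^ 2 := by
      calc 4 * (PCb H D h0 M * g ^ 2) ≤ 4 * ((PCb H D h0 M + 1) ^ 2 * g ^ 2) := by
            have h4 : PCb H D h0 M ≤ (PCb H D h0 M + 1) ^ 2 := by nlinarith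
            gcongr
        _ = (2 * (PCb H D h0 M + 1) * g) ^ 2 := by ring
        _ ≤ _ := by
            refine pow_le_pow_left₀ (by positivity) ?_ 2
            exact mul_le_mul_of_nonneg_left (by linarith) (by positivity)
    linarith
  · intro x hx
    refine (h.four (hxD x hx) hAD hτ).trans ?_
    have h1 := hn x hx
    have h0' := nlev_nonneg (H := H) (b := b) (D := D) (h0 := h0) h.M0 x
    by_cases hne : (bdy H D).Nonempty
    · obtain ⟨z, hz⟩ := hne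
      have hτ0 : 0 ≤ τ := (sum_nonneg fun _ _ => by positivity).trans (hτ z hz)
      calc 16 * nlev H b D h0 M x ^ 2 * (M ^ 2 * h0 ^ 4 * (((bdy H D).card : ℝ) ^ 4 * τ))
          ≤ 16 * (PCb H D h0 M * g ^ 2) ^ 2 *
              (M ^ 2 * h0 ^ 4 * (((bdy H D).card : ℝ) ^ 4 * τ)) := by gcongr
        _ = _ := by
            simp only [PCb]
            ring
    · have h2 : (bdy H D).card = 0 := by
        rw [card_eq_zero]
        exact not_nonempty_iff_eq_empty.1 hne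
      rw [PCb, h2]
      simp
  · refine (sum_le_sum fun x hx => mul_le_mul_of_nonneg_left
      (h.row (hxD x (hX hx)) hXD) (hη x)).trans ?_
    have h1 : ∑ x ∈ X, -(b x).im * (4 * nlev H b D h0 M x) =
        4 * ∑ x ∈ X, -(b x).im * nlev H b D h0 M x := by
      rw [mul_sum]
      exact sum_congr rfl fun x _ => by ring
    rw [h1]
    rw [hPG] at hmass
    have h2 : 0 ≤ 2 / c1 * (PCb H D h0 M * Γ) := by positivity
    linarith
  · have h1 : ∀ x ∈ A, k x * ‖rsc H b' x x - rsc H b x x‖ ≤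
        2 / c1 * (-(b x).im * nlev H b D h0 M x) := by
      intro x hx
      have h2 := h.dia (hxD x (hX (hAX hx)))
      have h3 := hk x hx
      have h4 := nlev_nonneg (H := H) (b := b) (D := D) (h0 := h0) h.M0 x
      have h5 : k x ≤ -(b x).im / c1 := by
        rw [le_div_iff₀ hc1]
        linarith
      calc k x * ‖rsc H b' x x - rsc H b x x‖
          ≤ -(b x).im / c1 * ‖rsc H b' x x - rsc H b x x‖ :=
            mul_le_mul_of_nonneg_right h5 (norm_nonneg _)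
        _ ≤ -(b x).im / c1 * (2 * nlev H b D h0 M x) :=
            mul_le_mul_of_nonneg_left h2 (div_nonneg (hη x) hc1.le)
        _ = _ := by ring
    refine (sum_le_sum h1).trans ?_
    rw [← mul_sum]
    have h2 : ∑ x ∈ A, -(b x).im * nlev H b D h0 M x ≤ ∑ x ∈ X, -(b x).im * nlev H b D h0 M x :=
      sum_le_sum_of_subset_of_nonneg hAX fun x _ _ => mul_nonneg (hη x) (nlev_nonneg h.M0 x)
    rw [hPG] at hmass
    have h3 := mul_le_mul_of_nonneg_left (h2.trans hmass) h1c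
    have h4 : 0 ≤ PCb H D h0 M * Γ := by positivity
    linarith
  · intro x hx y hy
    refine (h.entry_wt (hxD x hx) (hxD y hy) (hω0 x y) (hR x hx y hy)).trans ?_
    have h2 : PCb H D h0 M * R0 ≤ (PCb H D h0 M + 1) * (g + R0) := by nlinarith
    linarith
  · intro x hx y hy
    have h1 := h.entry_wt (hxD x hx) (hxD y hy) (t := 1) zero_le_one
      (R0 := Kg * Real.exp (-(ν * δ x)) * g) fun z hz z' hz' => by
        rw [mul_one]
        exact mul_le_mul (hfar x hx z hz) (hg y hy z' hz') (norm_nonneg _)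
          ((norm_nonneg _).trans (hfar x hx z hz))
    rw [mul_one] at h1
    refine h1.trans (le_of_eq ?_)
    ring

/-- the content step with a site weight -/
theorem clsW {X0 X A : Finset ι} (hX0 : Disjoint X0 D) (hX : X ⊆ X0) (hAX : A ⊆ X) {k : ι → ℝ}
    {ω : ι → ι → ℝ} {w δ : ι → ℝ} {ν c1 C Kd wR Γ τ Kg : ℝ} (hC0 : 0 ≤ C) (hKd : 0 ≤ Kd)
    (hΓ0 : 0 ≤ Γ) (hc1 : 0 < c1) (hω0 : ∀ x y, 0 ≤ ω x y) (hwR : 0 < wR)
    (hw : ∀ x ∈ X0, wR ≤ w x)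
    (hG : ∀ x ∈ X0, ∀ z ∈ bdy H D, ‖rsc H b x z‖ * w x ≤ C)
    (hd : ∀ x ∈ X0, ∀ y ∈ X0, ω x y ≤ Kd * max (w x) (w y))
    (hΓ : ∀ z ∈ bdy H D, (rsc H b z z).im ≤ Γ)
    (hτ : ∀ z ∈ bdy H D, ∑ y ∈ A, ‖rsc H b y z‖ ^ 4 ≤ τ)
    (hk : ∀ x ∈ A, c1 * k x ≤ -(b x).im)
    (hfar : ∀ x ∈ X0, ∀ z ∈ bdy H D, ‖rsc H b x z‖ ≤ Kg * Real.exp (-(ν * δ x))) :
    Cls (rsc H b) (rsc H b') (fun x => -(b x).im) k X0 X A ω δ ν
      (2 * (PCb H D h0 M + 1) * (C / wR + Kd * C * (C / wR)))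
      (16 * PCb H D h0 M ^ 4 * (C / wR) ^ 4 * τ)
      ((4 + 2 / c1) * (PCb H D h0 M * Γ)) (2 * PCb H D h0 M * (Kg * (C / wR))) := by
  have hg : ∀ x ∈ X0, ∀ z ∈ bdy H D, ‖rsc H b x z‖ ≤ C / wR := by
    intro x hx z hz
    rw [le_div_iff₀ hwR]
    exact (mul_le_mul_of_nonneg_left (hw x hx) (norm_nonneg _)).trans (hG x hx z hz)
  have hg0 : 0 ≤ C / wR := by positivity
  refine h.cls hX0 hX hAX hg0 (by positivity) hΓ0 hc1 hω0 hg hΓ hτ hk ?_ hfar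
  intro x hx y hy z hz z' hz'
  have h1 := hd x hx y hy
  have h2 : ‖rsc H b x z‖ * ‖rsc H b y z'‖ * ω x y ≤
      ‖rsc H b x z‖ * ‖rsc H b y z'‖ * (Kd * max (w x) (w y)) :=
    mul_le_mul_of_nonneg_left h1 (by positivity)
  refine h2.trans ?_
  rcases le_total (w x) (w y) with h3 | h3
  · rw [max_eq_right h3]
    calc ‖rsc H b x z‖ * ‖rsc H b y z'‖ * (Kd * w y)
        = Kd * (‖rsc H b y z'‖ * w y) * ‖rsc H b x z‖ := by ring
      _ ≤ Kd * C * (C / wR) := mul_le_mul (mul_le_mul_of_nonneg_left (hG y hy z' hz') hKd)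
          (hg x hx z hz) (norm_nonneg _) (by positivity)
  · rw [max_eq_left h3]
    calc ‖rsc H b x z‖ * ‖rsc H b y z'‖ * (Kd * w x)
        = Kd * (‖rsc H b x z‖ * w x) * ‖rsc H b y z'‖ := by ring
      _ ≤ Kd * C * (C / wR) := mul_le_mul (mul_le_mul_of_nonneg_left (hG x hx z hz) hKd)
          (hg y hy z' hz') (norm_nonneg _) (by positivity)

end RCont

end Pool.Agent.ANI
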