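import Mathlib

/-! # ANI FORMC: update of the form bounds (H4low), (H4up) when sites are removed and the kernel
changes (helper12 for helper75)

`QK X K u = (1/2) ∑_{x,y ∈ X} K x y (u x - u y)²`.  `X' ⊆ X`, `B = X \ X'` the removed sites, `N` the
near set, `chi = 1` on `N`.  `FC` collects the hypotheses.
* `FC.up` (FU), `FC.low` (FL).
* `kc1`, `kc2`: comparison of the kernels `e |G|² e`, `e' |G'|² e'`; `PCf` the error kernel, `pc_le`
  the hypothesis (k), `pc_row1`, `pc_row2` the row sums. -/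

set_option autoImplicit false

open Finset

noncomputable section

namespace Pool.Agent.ANI

variable {ι : Type}

/-- the pair form -/
def QK (X : Finset ι) (K : ι → ι → ℝ) (u : ι → ℝ) : ℝ :=
  (1 / 2) * ∑ x ∈ X, ∑ y ∈ X, K x y * (u x - u y) ^ 2

section basic

variable {X X' : Finset ι} {K K' P : ι → ι → ℝ}

theorem QK_nonneg (h0 : ∀ x ∈ X, ∀ y ∈ X, 0 ≤ K x y) (u : ι → ℝ) : 0 ≤ QK X K u := by
  unfold QK
  have : 0 ≤ ∑ x ∈ X, ∑ y ∈ X, K x y * (u x - u y) ^ 2 :=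
    Finset.sum_nonneg fun x hx => Finset.sum_nonneg fun y hy =>
      mul_nonneg (h0 x hx y hy) (sq_nonneg _)
  linarith

theorem QK_sub (h0 : ∀ x ∈ X, ∀ y ∈ X, 0 ≤ K x y) (hX : X' ⊆ X) (u : ι → ℝ) :
    QK X' K u ≤ QK X K u := by
  unfold QK
  refine mul_le_mul_of_nonneg_left ?_ (by norm_num)
  calc ∑ x ∈ X', ∑ y ∈ X', K x y * (u x - u y) ^ 2 ≤
        ∑ x ∈ X', ∑ y ∈ X, K x y * (u x - u y) ^ 2 :=
        Finset.sum_le_sum fun x hx => Finset.sum_le_sum_of_subset_of_nonneg hX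
          fun y hy _ => mul_nonneg (h0 x (hX hx) y hy) (sq_nonneg _)
    _ ≤ _ := Finset.sum_le_sum_of_subset_of_nonneg hX fun x hx _ =>
        Finset.sum_nonneg fun y hy => mul_nonneg (h0 x hx y hy) (sq_nonneg _)

theorem QK_congr {u v : ι → ℝ} (h : ∀ x ∈ X, ∀ y ∈ X, u x - u y = v x - v y) :
    QK X K u = QK X K v := by
  unfold QK
  congr 1
  refine Finset.sum_congr rfl fun x hx => Finset.sum_congr rfl fun y hy => ?_
  rw [h x hx y hy]

theorem QK_add (h0 : ∀ x ∈ X, ∀ y ∈ X, 0 ≤ K x y) (f g : ι → ℝ) :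
    QK X K (fun x => f x + g x) ≤ 2 * QK X K f + 2 * QK X K g := by
  unfold QK
  have : ∑ x ∈ X, ∑ y ∈ X, K x y * ((f x + g x) - (f y + g y)) ^ 2 ≤
      2 * (∑ x ∈ X, ∑ y ∈ X, K x y * (f x - f y) ^ 2) +
      2 * ∑ x ∈ X, ∑ y ∈ X, K x y * (g x - g y) ^ 2 := by
    rw [Finset.mul_sum, Finset.mul_sum, ← Finset.sum_add_distrib]
    refine Finset.sum_le_sum fun x hx => ?_
    rw [Finset.mul_sum, Finset.mul_sum, ← Finset.sum_add_distrib]
    refine Finset.sum_le_sum fun y hy => ?_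
    have h1 := h0 x hx y hy
    nlinarith [mul_nonneg h1 (sq_nonneg ((f x - f y) - (g x - g y)))]
  linarith

/-- `(1/2) ∑ P (u_x - u_y)² ≤ 2 ∑ π (u_x - c)²` -/
theorem QK_row (h0 : ∀ x ∈ X, ∀ y ∈ X, 0 ≤ P x y) (hs : ∀ x ∈ X, ∀ y ∈ X, P x y = P y x)
    {pi : ι → ℝ} (hpi : ∀ x ∈ X, ∑ y ∈ X, P x y ≤ pi x) (u : ι → ℝ) (c : ℝ) :
    QK X P u ≤ 2 * ∑ x ∈ X, pi x * (u x - c) ^ 2 := by
  have h1 : ∑ x ∈ X, ∑ y ∈ X, P x y * (u x - u y) ^ 2 ≤
      2 * (∑ x ∈ X, ∑ y ∈ X, P x y * (u x - c) ^ 2) +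
      2 * ∑ x ∈ X, ∑ y ∈ X, P x y * (u y - c) ^ 2 := by
    rw [Finset.mul_sum, Finset.mul_sum, ← Finset.sum_add_distrib]
    refine Finset.sum_le_sum fun x hx => ?_
    rw [Finset.mul_sum, Finset.mul_sum, ← Finset.sum_add_distrib]
    refine Finset.sum_le_sum fun y hy => ?_
    have h1 := h0 x hx y hy
    nlinarith [mul_nonneg h1 (sq_nonneg ((u x - c) + (u y - c)))]
  have h2 : ∑ x ∈ X, ∑ y ∈ X, P x y * (u y - c) ^ 2 =
      ∑ x ∈ X, ∑ y ∈ X, P x y * (u x - c) ^ 2 := by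
    rw [Finset.sum_comm]
    refine Finset.sum_congr rfl fun x hx => Finset.sum_congr rfl fun y hy => ?_
    rw [hs y hy x hx]
  have h3 : ∑ x ∈ X, ∑ y ∈ X, P x y * (u x - c) ^ 2 ≤ ∑ x ∈ X, pi x * (u x - c) ^ 2 := by
    refine Finset.sum_le_sum fun x hx => ?_
    rw [← Finset.sum_mul]
    exact mul_le_mul_of_nonneg_right (hpi x hx) (sq_nonneg _)
  unfold QK
  rw [h2] at h1
  linarith

/-- comparison of two forms with a kernel bound on a set `Y` -/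
theorem QK_cmp {Y : Finset ι} {R : ι → ι → ℝ}
    (h : ∀ x ∈ Y, ∀ y ∈ Y, K x y ≤ K' x y + R x y) (u : ι → ℝ) :
    QK Y K u ≤ QK Y K' u + QK Y R u := by
  unfold QK
  have : ∑ x ∈ Y, ∑ y ∈ Y, K x y * (u x - u y) ^ 2 ≤
      (∑ x ∈ Y, ∑ y ∈ Y, K' x y * (u x - u y) ^ 2) +
      ∑ x ∈ Y, ∑ y ∈ Y, R x y * (u x - u y) ^ 2 := by
    rw [← Finset.sum_add_distrib]
    refine Finset.sum_le_sum fun x hx => ?_
    rw [← Finset.sum_add_distrib]
    refine Finset.sum_le_sum fun y hy => ?_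
    rw [← add_mul]
    exact mul_le_mul_of_nonneg_right (h x hx y hy) (sq_nonneg _)
  linarith

theorem QK_add_ker {Y : Finset ι} {R S : ι → ι → ℝ} (u : ι → ℝ) :
    QK Y (fun x y => R x y + S x y) u = QK Y R u + QK Y S u := by
  unfold QK
  rw [← mul_add, ← Finset.sum_add_distrib]
  congr 1
  refine Finset.sum_congr rfl fun x _ => ?_
  rw [← Finset.sum_add_distrib]
  refine Finset.sum_congr rfl fun y _ => ?_
  ring

end basic

/-- existence of the minimiser: for given values on `X'` there is an extension to `B` which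
minimises `QK X K` -/
theorem QK_min [Fintype ι] [DecidableEq ι] {X : Finset ι} {K : ι → ι → ℝ}
    (h0 : ∀ x ∈ X, ∀ y ∈ X, 0 ≤ K x y) (B : Finset ι) (u : ι → ℝ) :
    ∃ w : ι → ℝ, (∀ x, x ∉ B → w x = u x) ∧
      ∀ v : ι → ℝ, (∀ x, x ∉ B → v x = u x) → QK X K w ≤ QK X K v := by
  -- the linear map with `‖T u‖² = QK X K u`
  let T : (ι → ℝ) →ₗ[ℝ] EuclideanSpace ℝ (ι × ι) :=
    { toFun := fun u => WithLp.toLp 2 fun p : ι × ι =>
        if p.1 ∈ X ∧ p.2 ∈ X then √(K p.1 p.2 / 2) * (u p.1 - u p.2) else 0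
      map_add' := by
        intro a b
        ext p
        simp only [PiLp.add_apply, Pi.add_apply]
        split_ifs
        · ring
        · ring
      map_smul' := by
        intro r a
        ext p
        simp only [PiLp.smul_apply, Pi.smul_apply, smul_eq_mul, RingHom.id_apply]
        split_ifs
        · ring
        · ring }
  have hT : ∀ u : ι → ℝ, ‖T u‖ ^ 2 = QK X K u := by
    intro u
    rw [EuclideanSpace.norm_sq_eq]
    have h1 : ∀ p : ι × ι, ‖(T u) p‖ ^ 2 =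
        if p.1 ∈ X ∧ p.2 ∈ X then K p.1 p.2 / 2 * (u p.1 - u p.2) ^ 2 else 0 := by
      intro p
      have h2 : (T u) p = if p.1 ∈ X ∧ p.2 ∈ X then √(K p.1 p.2 / 2) * (u p.1 - u p.2) else 0 :=
        rfl
      rw [h2]
      split_ifs with hp
      · rw [Real.norm_eq_abs, sq_abs, mul_pow, Real.sq_sqrt]
        have := h0 p.1 hp.1 p.2 hp.2
        linarith
      · simp
    rw [Finset.sum_congr rfl fun p _ => h1 p]
    rw [← Finset.sum_filter]
    have h3 : (Finset.univ.filter fun p : ι × ι => p.1 ∈ X ∧ p.2 ∈ X) = X ×ˢ X := by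
      ext p
      simp
    rw [h3, Finset.sum_product]
    unfold QK
    rw [Finset.mul_sum]
    refine Finset.sum_congr rfl fun x _ => ?_
    rw [Finset.mul_sum]
    refine Finset.sum_congr rfl fun y _ => ?_
    ring
  -- the subspace
  let V : Submodule ℝ (ι → ℝ) :=
    { carrier := {v | ∀ x, x ∉ B → v x = 0}
      add_mem' := by
        intro a b ha hb x hx
        simp [ha x hx, hb x hx]
      zero_mem' := by
        intro x _
        rfl
      smul_mem' := by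
        intro r a ha x hx
        simp [ha x hx] }
  obtain ⟨s, hs, hs2⟩ := Submodule.exists_norm_eq_iInf_of_complete_subspace (V.map T)
    (Submodule.complete_of_finiteDimensional (V.map T)) (T u)
  obtain ⟨v0, hv0, rfl⟩ := hs
  refine ⟨fun x => u x - v0 x, ?_, ?_⟩
  · intro x hx
    have := hv0 x hx
    simp [this]
  · intro v hv
    have h1 : ‖T u - T v0‖ ≤ ‖T u - T (u - v)‖ := by
      rw [hs2]
      refine ciInf_le ⟨0, ?_⟩ (⟨T (u - v), ⟨u - v, ?_, rfl⟩⟩ : (V.map T))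
      · rintro _ ⟨w, rfl⟩
        exact norm_nonneg _
      · intro x hx
        simp [hv x hx]
    rw [← map_sub, ← map_sub, sub_sub_cancel] at h1
    have h2 : ‖T (u - v0)‖ ^ 2 ≤ ‖T v‖ ^ 2 := pow_le_pow_left₀ (norm_nonneg _) h1 2
    rw [hT, hT] at h2
    exact h2

/-- the hypotheses -/
structure FC (X X' N : Finset ι) (chi m pi be : ι → ℝ) (K K' P : ι → ι → ℝ) (th : ℝ)
    (E0 : (ι → ℝ) → ℝ) : Prop where
  sub : X' ⊆ X
  chi0 : ∀ x, 0 ≤ chi x
  chiN : ∀ x ∈ N, chi x = 1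
  K0 : ∀ x ∈ X, ∀ y ∈ X, 0 ≤ K x y
  Ks : ∀ x ∈ X, ∀ y ∈ X, K x y = K y x
  th0 : 0 ≤ th
  P0 : ∀ x ∈ X', ∀ y ∈ X', 0 ≤ P x y
  Ps : ∀ x ∈ X', ∀ y ∈ X', P x y = P y x
  near : ∀ x ∈ X', ∀ y ∈ X', x ∈ N → y ∈ N → |K' x y - K x y| ≤ th * K x y + P x y
  far : ∀ x ∈ X', ∀ y ∈ X', ¬ (x ∈ N ∧ y ∈ N) → |K' x y - K x y| ≤ P x y
  row : ∀ x ∈ X', ∑ y ∈ X', P x y ≤ pi x
  mrow : ∀ x ∈ X, ∑ y ∈ X, K x y ≤ m x
  up : ∀ a : ι → ℝ, QK X K a ≤ E0 a

section main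

variable {X X' N : Finset ι} {chi m pi be : ι → ℝ} {K K' P : ι → ι → ℝ} {th : ℝ}
  {E0 : (ι → ℝ) → ℝ}

/-- the near part of the form -/
private lemma fc_near [DecidableEq ι] (_ : FC X X' N chi m pi be K K' P th E0) (v : ι → ℝ) :
    QK X' (fun x y => if x ∈ N ∧ y ∈ N then th * K x y else 0) v ≤
      th * QK (X' ∩ N) K v := by
  have h1 : ∑ x ∈ X', ∑ y ∈ X', (if x ∈ N ∧ y ∈ N then th * K x y else 0) * (v x - v y) ^ 2 =
      ∑ x ∈ X' ∩ N, ∑ y ∈ X' ∩ N, th * K x y * (v x - v y) ^ 2 := by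
    rw [← Finset.filter_mem_eq_inter, Finset.sum_filter]
    refine Finset.sum_congr rfl fun x _ => ?_
    by_cases hx : x ∈ N
    · rw [if_pos hx, Finset.sum_filter]
      refine Finset.sum_congr rfl fun y _ => ?_
      by_cases hy : y ∈ N
      · simp [hx, hy]
      · simp [hy]
    · simp [hx]
  unfold QK
  rw [h1, Finset.mul_sum, Finset.mul_sum, Finset.mul_sum]
  refine Finset.sum_le_sum fun x _ => ?_
  rw [Finset.mul_sum, Finset.mul_sum, Finset.mul_sum]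
  refine Finset.sum_le_sum fun y _ => le_of_eq ?_
  ring

/-- (FU) -/
theorem FC.FU [DecidableEq ι] (h : FC X X' N chi m pi be K K' P th E0) (a : ι → ℝ) (c : ℝ) :
    QK X' K' a ≤ QK X K a + th * E0 (fun x => chi x * (a x - c)) +
      2 * ∑ x ∈ X', pi x * (a x - c) ^ 2 := by
  have h1 : QK X' K' a ≤ QK X' K a +
      QK X' (fun x y => (if x ∈ N ∧ y ∈ N then th * K x y else 0) + P x y) a := by
    refine QK_cmp (fun x hx y hy => ?_) a
    by_cases hn : x ∈ N ∧ y ∈ N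
    · simp only [hn, and_self, if_true]
      have := (abs_le.1 (h.near x hx y hy hn.1 hn.2)).2
      linarith
    · rw [if_neg hn, zero_add]
      have := (abs_le.1 (h.far x hx y hy hn)).2
      linarith
  rw [QK_add_ker] at h1
  have h2 := fc_near h a
  have h3 : QK (X' ∩ N) K a ≤ E0 (fun x => chi x * (a x - c)) := by
    have e1 : QK (X' ∩ N) K a = QK (X' ∩ N) K (fun x => chi x * (a x - c)) := by
      refine QK_congr fun x hx y hy => ?_
      rw [h.chiN x (Finset.mem_inter.1 hx).2, h.chiN y (Finset.mem_inter.1 hy).2]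
      ring
    rw [e1]
    exact (QK_sub h.K0 (Finset.inter_subset_left.trans h.sub) _).trans (h.up _)
  have h4 := mul_le_mul_of_nonneg_left h3 h.th0
  have h5 := QK_row h.P0 h.Ps h.row a c
  have h6 := QK_sub h.K0 h.sub a
  linarith

/-- (FL) -/
theorem FC.FL [Fintype ι] [DecidableEq ι] (h : FC X X' N chi m pi be K K' P th E0)
    (hbe : ∀ x ∈ X', ∑ y ∈ X \ X', K x y ≤ be x) {mt : ι → ℝ} (hmt : ∀ x ∈ X, 0 ≤ mt x)
    {E1 : (ι → ℝ) → ℝ}
    (low : ∀ u : ι → ℝ, ∃ a : ι → ℝ, E1 a + ∑ x ∈ X, mt x * (u x - a x) ^ 2 ≤ QK X K u)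
    (u : ι → ℝ) :
    ∃ a : ι → ℝ, ∀ c : ℝ, E1 a + ∑ x ∈ X', mt x * (u x - a x) ^ 2 ≤
      QK X' K' u + th * (2 * E0 (fun x => chi x * (a x - c)) +
        4 * ∑ x ∈ X', m x * chi x ^ 2 * (u x - a x) ^ 2) +
      ∑ x ∈ X', (2 * pi x + be x) * (u x - c) ^ 2 := by
  obtain ⟨w, hw1, hw2⟩ := QK_min h.K0 (X \ X') u
  have hwX : ∀ x ∈ X', w x = u x := fun x hx => hw1 x (by simp [hx])
  obtain ⟨a, ha⟩ := low w
  refine ⟨a, fun c => ?_⟩
  have h1 : E1 a + ∑ x ∈ X', mt x * (u x - a x) ^ 2 ≤ QK X K w := by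
    refine le_trans ?_ ha
    have e1 : ∑ x ∈ X', mt x * (u x - a x) ^ 2 = ∑ x ∈ X', mt x * (w x - a x) ^ 2 :=
      Finset.sum_congr rfl fun x hx => by rw [hwX x hx]
    rw [e1]
    have e2 := Finset.sum_le_sum_of_subset_of_nonneg (f := fun x => mt x * (w x - a x) ^ 2) h.sub
      fun x hx _ => mul_nonneg (hmt x hx) (sq_nonneg _)
    linarith
  -- the competitor: `u` on `X'`, `c` on `B`
  have h2 : QK X K w ≤ QK X' K u + ∑ x ∈ X', be x * (u x - c) ^ 2 := by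
    have e1 := hw2 (fun x => if x ∈ X \ X' then c else u x) (fun x hx => by simp only [if_neg hx])
    refine e1.trans ?_
    set v : ι → ℝ := fun x => if x ∈ X \ X' then c else u x with hv
    have hv1 : ∀ x ∈ X', v x = u x := fun x hx => by
      simp [hv, hx]
    have hv2 : ∀ x ∈ X \ X', v x = c := fun x hx => by
      simp only [hv, if_pos hx]
    have e2 : ∀ f : ι → ℝ, ∑ x ∈ X, f x = ∑ x ∈ X', f x + ∑ x ∈ X \ X', f x := by
      intro f
      rw [add_comm]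
      exact (Finset.sum_sdiff h.sub).symm
    have e3 : ∑ x ∈ X, ∑ y ∈ X, K x y * (v x - v y) ^ 2 =
        ∑ x ∈ X', ∑ y ∈ X', K x y * (u x - u y) ^ 2 +
        2 * ∑ x ∈ X', (∑ y ∈ X \ X', K x y) * (u x - c) ^ 2 := by
      rw [e2]
      have e4 : ∑ x ∈ X', ∑ y ∈ X, K x y * (v x - v y) ^ 2 =
          ∑ x ∈ X', ∑ y ∈ X', K x y * (u x - u y) ^ 2 +
          ∑ x ∈ X', (∑ y ∈ X \ X', K x y) * (u x - c) ^ 2 := by
        rw [← Finset.sum_add_distrib]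
        refine Finset.sum_congr rfl fun x hx => ?_
        rw [e2]
        congr 1
        · refine Finset.sum_congr rfl fun y hy => ?_
          rw [hv1 x hx, hv1 y hy]
        · rw [Finset.sum_mul]
          refine Finset.sum_congr rfl fun y hy => ?_
          rw [hv1 x hx, hv2 y hy]
      have e5 : ∑ x ∈ X \ X', ∑ y ∈ X, K x y * (v x - v y) ^ 2 =
          ∑ x ∈ X', (∑ y ∈ X \ X', K x y) * (u x - c) ^ 2 := by
        have e6 : ∑ x ∈ X \ X', ∑ y ∈ X, K x y * (v x - v y) ^ 2 =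
            ∑ x ∈ X \ X', ∑ y ∈ X', K x y * (c - u y) ^ 2 := by
          refine Finset.sum_congr rfl fun x hx => ?_
          rw [e2]
          have e7 : ∑ y ∈ X \ X', K x y * (v x - v y) ^ 2 = 0 := by
            refine Finset.sum_eq_zero fun y hy => ?_
            rw [hv2 x hx, hv2 y hy, sub_self]
            ring
          rw [e7, add_zero]
          refine Finset.sum_congr rfl fun y hy => ?_
          rw [hv2 x hx, hv1 y hy]
        rw [e6, Finset.sum_comm]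
        refine Finset.sum_congr rfl fun y hy => ?_
        rw [Finset.sum_mul]
        refine Finset.sum_congr rfl fun x hx => ?_
        rw [h.Ks x (Finset.mem_sdiff.1 hx).1 y (h.sub hy)]
        ring
      rw [e4, e5]
      ring
    have e8 : ∑ x ∈ X', (∑ y ∈ X \ X', K x y) * (u x - c) ^ 2 ≤
        ∑ x ∈ X', be x * (u x - c) ^ 2 :=
      Finset.sum_le_sum fun x hx => mul_le_mul_of_nonneg_right (hbe x hx) (sq_nonneg _)
    unfold QK
    rw [e3]
    linarith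
  have h3 : QK X' K u ≤ QK X' K' u +
      QK X' (fun x y => (if x ∈ N ∧ y ∈ N then th * K x y else 0) + P x y) u := by
    refine QK_cmp (fun x hx y hy => ?_) u
    by_cases hn : x ∈ N ∧ y ∈ N
    · simp only [hn, and_self, if_true]
      have := (abs_le.1 (h.near x hx y hy hn.1 hn.2)).1
      linarith
    · rw [if_neg hn, zero_add]
      have := (abs_le.1 (h.far x hx y hy hn)).1
      linarith
  rw [QK_add_ker] at h3
  have h4 := fc_near h u
  -- `v = chi (a - c) + 1_{X'} chi (u - a)`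
  have h5 : QK (X' ∩ N) K u ≤ 2 * E0 (fun x => chi x * (a x - c)) +
      4 * ∑ x ∈ X', m x * chi x ^ 2 * (u x - a x) ^ 2 := by
    set g : ι → ℝ := fun x => if x ∈ X' then chi x * (u x - a x) else 0 with hg
    have e1 : QK (X' ∩ N) K u = QK (X' ∩ N) K (fun x => chi x * (a x - c) + g x) := by
      refine QK_congr fun x hx y hy => ?_
      have hx' := Finset.mem_inter.1 hx
      have hy' := Finset.mem_inter.1 hy
      simp only [hg, if_pos hx'.1, if_pos hy'.1, h.chiN x hx'.2, h.chiN y hy'.2]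
      ring
    have e2 : QK X K g ≤ 2 * ∑ x ∈ X, m x * (g x - 0) ^ 2 := QK_row h.K0 h.Ks h.mrow g 0
    have e3 : ∑ x ∈ X, m x * (g x - 0) ^ 2 = ∑ x ∈ X', m x * chi x ^ 2 * (u x - a x) ^ 2 := by
      have e4 : ∑ x ∈ X', m x * chi x ^ 2 * (u x - a x) ^ 2 =
          ∑ x ∈ X', m x * (g x - 0) ^ 2 := by
        refine Finset.sum_congr rfl fun x hx => ?_
        simp only [hg, if_pos hx]
        ring
      rw [e4]
      symm
      refine Finset.sum_subset h.sub fun x _ hx => ?_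
      simp only [hg, if_neg hx]
      ring
    rw [e1]
    refine (QK_sub h.K0 (Finset.inter_subset_left.trans h.sub) _).trans ?_
    refine (QK_add h.K0 _ _).trans ?_
    have e5 := h.up (fun x => chi x * (a x - c))
    rw [e3] at e2
    linarith
  have h6 := mul_le_mul_of_nonneg_left h5 h.th0
  have h7 := QK_row h.P0 h.Ps h.row u c
  have h8 : ∑ x ∈ X', (2 * pi x + be x) * (u x - c) ^ 2 =
      2 * ∑ x ∈ X', pi x * (u x - c) ^ 2 + ∑ x ∈ X', be x * (u x - c) ^ 2 := by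
    rw [Finset.mul_sum, ← Finset.sum_add_distrib]
    refine Finset.sum_congr rfl fun x _ => ?_
    ring
  rw [h8]
  linarith

end main

/-! ### comparison of the kernels -/

section ker

/-- (KC1), one pair: `g = ‖G‖, g' = ‖G'‖, d = ‖G' - G‖` -/
theorem kc1_num {ex ey ex' ey' rx ry th g g' d : ℝ} (hex : 0 ≤ ex) (hey : 0 ≤ ey)
    (hth : 0 < th) (hth1 : th ≤ 1) (hrx : rx ≤ th / 16) (hry : ry ≤ th / 16)
    (hx : |ex' - ex| ≤ rx * ex) (hy : |ey' - ey| ≤ ry * ey) (hg : 0 ≤ g) (hg' : 0 ≤ g')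
    (_ : 0 ≤ d) (h1 : g' ≤ g + d) (h2 : g ≤ g' + d) :
    |ex' * g' ^ 2 * ey' - ex * g ^ 2 * ey| ≤
      th * (ex * g ^ 2 * ey) + 64 / th * (ex * d ^ 2 * ey) := by
  have hx1 := abs_le.1 hx
  have hy1 := abs_le.1 hy
  have hx2 : ex' ≤ (1 + th / 16) * ex := by nlinarith
  have hx3 : (1 - th / 16) * ex ≤ ex' := by nlinarith
  have hy2 : ey' ≤ (1 + th / 16) * ey := by nlinarith
  have hy3 : (1 - th / 16) * ey ≤ ey' := by nlinarith
  have hx0 : 0 ≤ ex' := le_trans (mul_nonneg (by linarith) hex) hx3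
  have hy0 : 0 ≤ ey' := le_trans (mul_nonneg (by linarith) hey) hy3
  have hee : 0 ≤ ex * ey := mul_nonneg hex hey
  have u1 : ex' * ey' ≤ (1 + th / 16) ^ 2 * (ex * ey) := by
    calc ex' * ey' ≤ ((1 + th / 16) * ex) * ((1 + th / 16) * ey) :=
          mul_le_mul hx2 hy2 hy0 (by positivity)
      _ = _ := by ring
  have l1 : (1 - th / 16) ^ 2 * (ex * ey) ≤ ex' * ey' := by
    calc (1 - th / 16) ^ 2 * (ex * ey) = ((1 - th / 16) * ex) * ((1 - th / 16) * ey) := by ring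
      _ ≤ _ := mul_le_mul hx3 hy3 (mul_nonneg (by linarith) hey) hx0
  -- squares
  have s1 : g' ^ 2 ≤ (1 + th / 4) * g ^ 2 + (1 + 4 / th) * d ^ 2 := by
    have e1 : g' ^ 2 ≤ (g + d) ^ 2 := pow_le_pow_left₀ hg' h1 2
    have e2 : 0 ≤ th / 4 * (g - 4 / th * d) ^ 2 := by positivity
    have e3 : th / 4 * (g - 4 / th * d) ^ 2 = th / 4 * g ^ 2 - 2 * (g * d) + 4 / th * d ^ 2 := by
      field_simp
      ring
    nlinarith
  have s2 : (1 - th / 4) * g ^ 2 - 4 / th * d ^ 2 ≤ g' ^ 2 := by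
    have e2 : 0 ≤ th / 4 * (g - 4 / th * d) ^ 2 := by positivity
    have e3 : th / 4 * (g - 4 / th * d) ^ 2 = th / 4 * g ^ 2 - 2 * (g * d) + 4 / th * d ^ 2 := by
      field_simp
      ring
    rcases le_total d g with h3 | h3
    · have e1 : (g - d) ^ 2 ≤ g' ^ 2 := pow_le_pow_left₀ (by linarith) (by linarith) 2
      nlinarith [sq_nonneg d]
    · have e4 : g ^ 2 ≤ d ^ 2 := pow_le_pow_left₀ hg h3 2
      have e5 : 4 ≤ 4 / th := by
        rw [le_div_iff₀ hth]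
        linarith
      nlinarith [sq_nonneg g', sq_nonneg g, sq_nonneg d]
  have hd2 : 0 ≤ d ^ 2 := sq_nonneg d
  have hg2 : 0 ≤ g ^ 2 := sq_nonneg g
  have t1 : 1 ≤ 1 / th := by
    rw [le_div_iff₀ hth]
    linarith
  have q1 : 4 / th = 4 * (1 / th) := by ring
  have q2 : 64 / th = 64 * (1 / th) := by ring
  set i := 1 / th with hi
  have ti : th * i = 1 := by
    rw [hi]
    field_simp
  rw [q1] at s1 s2
  rw [q2]
  rw [abs_le]
  constructor
  · -- lower bound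
    have w1 : 0 ≤ g' ^ 2 := sq_nonneg _
    have w2 : (1 - th / 16) ^ 2 * (ex * ey) * g' ^ 2 ≤ ex' * ey' * g' ^ 2 :=
      mul_le_mul_of_nonneg_right l1 w1
    have w3 : (1 - th) * g ^ 2 - 64 * i * d ^ 2 ≤ (1 - th / 16) ^ 2 * g' ^ 2 := by
      have c1 : 1 - th / 8 ≤ (1 - th / 16) ^ 2 := by nlinarith [sq_nonneg th]
      have c2 : 0 ≤ 1 - th / 8 := by linarith
      have c3 : (1 - th / 8) * g' ^ 2 ≤ (1 - th / 16) ^ 2 * g' ^ 2 :=
        mul_le_mul_of_nonneg_right c1 w1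
      have c4 : (1 - th / 8) * ((1 - th / 4) * g ^ 2 - 4 * i * d ^ 2) ≤
          (1 - th / 8) * g' ^ 2 := mul_le_mul_of_nonneg_left s2 c2
      have c5 : 0 ≤ i * d ^ 2 := by positivity
      have c6 : th * (i * d ^ 2) = d ^ 2 := by
        rw [← mul_assoc, ti, one_mul]
      nlinarith [mul_nonneg hth.le hg2, mul_nonneg (mul_nonneg hth.le hth.le) hg2]
    have w4 := mul_le_mul_of_nonneg_left w3 hee
    have w5 : ex * ey * ((1 - th / 16) ^ 2 * g' ^ 2) = (1 - th / 16) ^ 2 * (ex * ey) * g' ^ 2 := by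
      ring
    have w6 : ex * ey * ((1 - th) * g ^ 2 - 64 * i * d ^ 2) =
        ex * g ^ 2 * ey - th * (ex * g ^ 2 * ey) - 64 * i * (ex * d ^ 2 * ey) := by ring
    have w7 : ex' * ey' * g' ^ 2 = ex' * g' ^ 2 * ey' := by ring
    linarith
  · have w1 : 0 ≤ g' ^ 2 := sq_nonneg _
    have w2 : ex' * ey' * g' ^ 2 ≤ (1 + th / 16) ^ 2 * (ex * ey) * g' ^ 2 :=
      mul_le_mul_of_nonneg_right u1 w1
    have w3 : (1 + th / 16) ^ 2 * g' ^ 2 ≤ (1 + th) * g ^ 2 + 64 * i * d ^ 2 := by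
      have c1 : (1 + th / 16) ^ 2 ≤ 1 + th / 4 := by nlinarith [sq_nonneg th]
      have c3 : (1 + th / 16) ^ 2 * g' ^ 2 ≤ (1 + th / 4) * g' ^ 2 :=
        mul_le_mul_of_nonneg_right c1 w1
      have c4 : (1 + th / 4) * g' ^ 2 ≤
          (1 + th / 4) * ((1 + th / 4) * g ^ 2 + (1 + 4 * i) * d ^ 2) :=
        mul_le_mul_of_nonneg_left s1 (by linarith)
      have c5 : 0 ≤ i * d ^ 2 := by positivity
      have c6 : th * (i * d ^ 2) = d ^ 2 := by
        rw [← mul_assoc, ti, one_mul]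
      have c7 : th * d ^ 2 ≤ d ^ 2 := by nlinarith
      have c8 : d ^ 2 ≤ i * d ^ 2 := by nlinarith
      nlinarith [mul_nonneg hth.le hg2, mul_nonneg (mul_nonneg hth.le hth.le) hg2,
        mul_nonneg (mul_nonneg hth.le (sub_nonneg.2 hth1)) hg2]
    have w4 := mul_le_mul_of_nonneg_left w3 hee
    have w5 : ex * ey * ((1 + th / 16) ^ 2 * g' ^ 2) = (1 + th / 16) ^ 2 * (ex * ey) * g' ^ 2 := by
      ring
    have w6 : ex * ey * ((1 + th) * g ^ 2 + 64 * i * d ^ 2) =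
        ex * g ^ 2 * ey + th * (ex * g ^ 2 * ey) + 64 * i * (ex * d ^ 2 * ey) := by ring
    have w7 : ex' * ey' * g' ^ 2 = ex' * g' ^ 2 * ey' := by ring
    linarith

/-- (KC2), one pair -/
theorem kc2_num {ex ey ex' ey' rx ry g g' d : ℝ} (hex : 0 ≤ ex) (hey : 0 ≤ ey)
    (hrx0 : 0 ≤ rx) (hry0 : 0 ≤ ry) (hrx : rx ≤ 1) (hry : ry ≤ 1)
    (hx : |ex' - ex| ≤ rx * ex) (hy : |ey' - ey| ≤ ry * ey) (hg : 0 ≤ g) (hg' : 0 ≤ g')
    (hd : 0 ≤ d) (h1 : g' ≤ g + d) (h2 : g ≤ g' + d) :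
    |ex' * g' ^ 2 * ey' - ex * g ^ 2 * ey| ≤
      3 * (rx + ry) * (ex * g ^ 2 * ey) + 4 * ex * ey * (2 * (g * d) + d ^ 2) := by
  have hee : 0 ≤ ex * ey := mul_nonneg hex hey
  have e1 : |ex' * ey' - ex * ey| ≤ 3 * (rx + ry) * (ex * ey) := by
    have f1 : ex' * ey' - ex * ey = (ex' - ex) * (ey' - ey) + (ex' - ex) * ey + ex * (ey' - ey) := by
      ring
    rw [f1]
    refine (abs_add_three _ _ _).trans ?_
    rw [abs_mul, abs_mul, abs_mul, abs_of_nonneg hex, abs_of_nonneg hey]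
    have f2 : |ex' - ex| * |ey' - ey| ≤ (rx * ex) * (ry * ey) :=
      mul_le_mul hx hy (abs_nonneg _) (by positivity)
    have f3 : |ex' - ex| * ey ≤ rx * ex * ey := mul_le_mul_of_nonneg_right hx hey
    have f4 : ex * |ey' - ey| ≤ ex * (ry * ey) := mul_le_mul_of_nonneg_left hy hex
    have f5 : rx * ry ≤ rx := by nlinarith
    have f6 : (rx * ex) * (ry * ey) ≤ rx * (ex * ey) := by
      have := mul_le_mul_of_nonneg_right f5 hee
      linarith
    nlinarith [mul_nonneg hrx0 hee, mul_nonneg hry0 hee]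
  have e2 : ex' * ey' ≤ 4 * (ex * ey) := by
    have f1 : ex' ≤ 2 * ex := by nlinarith [(abs_le.1 hx).2]
    have f2 : ey' ≤ 2 * ey := by nlinarith [(abs_le.1 hy).2]
    have f3 : 0 ≤ ey' := by nlinarith [(abs_le.1 hy).1]
    calc ex' * ey' ≤ (2 * ex) * (2 * ey) := mul_le_mul f1 f2 f3 (by positivity)
      _ = _ := by ring
  have e2' : 0 ≤ ex' * ey' := by
    have f3 : 0 ≤ ey' := by nlinarith [(abs_le.1 hy).1]
    have f4 : 0 ≤ ex' := by nlinarith [(abs_le.1 hx).1]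
    positivity
  have e3 : |g' ^ 2 - g ^ 2| ≤ 2 * (g * d) + d ^ 2 := by
    rw [abs_le]
    constructor
    · rcases le_total d g with h3 | h3
      · have : (g - d) ^ 2 ≤ g' ^ 2 := pow_le_pow_left₀ (by linarith) (by linarith) 2
        nlinarith [sq_nonneg d]
      · nlinarith [sq_nonneg g', mul_nonneg hg hd, mul_le_mul_of_nonneg_left h3 hg]
    · have : g' ^ 2 ≤ (g + d) ^ 2 := pow_le_pow_left₀ hg' h1 2
      nlinarith
  have e4 : ex' * g' ^ 2 * ey' - ex * g ^ 2 * ey =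
      (ex' * ey' - ex * ey) * g ^ 2 + ex' * ey' * (g' ^ 2 - g ^ 2) := by ring
  rw [e4]
  refine (abs_add_le _ _).trans ?_
  rw [abs_mul, abs_mul, abs_of_nonneg (sq_nonneg g), abs_of_nonneg e2']
  have f1 : |ex' * ey' - ex * ey| * g ^ 2 ≤ 3 * (rx + ry) * (ex * ey) * g ^ 2 :=
    mul_le_mul_of_nonneg_right e1 (sq_nonneg g)
  have f2 : ex' * ey' * |g' ^ 2 - g ^ 2| ≤ 4 * (ex * ey) * (2 * (g * d) + d ^ 2) :=
    mul_le_mul e2 e3 (abs_nonneg _) (by positivity)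
  nlinarith

variable {G G' : ι → ι → ℂ} {e e' rho : ι → ℝ} {th : ℝ}

/-- (KC1) -/
theorem kc1 {x y : ι} (hx : 0 ≤ e x) (hy : 0 ≤ e y) (hth : 0 < th) (hth1 : th ≤ 1)
    (hrx : rho x ≤ th / 16) (hry : rho y ≤ th / 16) (h1 : |e' x - e x| ≤ rho x * e x)
    (h2 : |e' y - e y| ≤ rho y * e y) :
    |e' x * ‖G' x y‖ ^ 2 * e' y - e x * ‖G x y‖ ^ 2 * e y| ≤
      th * (e x * ‖G x y‖ ^ 2 * e y) + 64 / th * (e x * ‖G' x y - G x y‖ ^ 2 * e y) := by
  refine kc1_num hx hy hth hth1 hrx hry h1 h2 (norm_nonneg _) (norm_nonneg _) (norm_nonneg _) ?_ ?_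
  · have := norm_add_le (G x y) (G' x y - G x y)
    rwa [add_sub_cancel] at this
  · have := norm_sub_le (G' x y) (G' x y - G x y)
    rwa [sub_sub_cancel] at this

/-- (KC2) -/
theorem kc2 {x y : ι} (hx : 0 ≤ e x) (hy : 0 ≤ e y) (hrx0 : 0 ≤ rho x) (hry0 : 0 ≤ rho y)
    (hrx : rho x ≤ 1) (hry : rho y ≤ 1) (h1 : |e' x - e x| ≤ rho x * e x)
    (h2 : |e' y - e y| ≤ rho y * e y) :
    |e' x * ‖G' x y‖ ^ 2 * e' y - e x * ‖G x y‖ ^ 2 * e y| ≤
      3 * (rho x + rho y) * (e x * ‖G x y‖ ^ 2 * e y) +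
        4 * e x * e y * (2 * (‖G x y‖ * ‖G' x y - G x y‖) + ‖G' x y - G x y‖ ^ 2) := by
  refine kc2_num hx hy hrx0 hry0 hrx hry h1 h2 (norm_nonneg _) (norm_nonneg _) (norm_nonneg _) ?_ ?_
  · have := norm_add_le (G x y) (G' x y - G x y)
    rwa [add_sub_cancel] at this
  · have := norm_sub_le (G' x y) (G' x y - G x y)
    rwa [sub_sub_cancel] at this

open Classical in
/-- the error kernel: `(64/θ) e |D|² e` on `N × N`, the bound (KC2) elsewhere -/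
def PCf (N : Finset ι) (G G' : ι → ι → ℂ) (e rho : ι → ℝ) (th : ℝ) (x y : ι) : ℝ :=
  if x ∈ N ∧ y ∈ N then 64 / th * (e x * ‖G' x y - G x y‖ ^ 2 * e y)
  else 3 * (rho x + rho y) * (e x * ‖G x y‖ ^ 2 * e y) +
    4 * e x * e y * (2 * (‖G x y‖ * ‖G' x y - G x y‖) + ‖G' x y - G x y‖ ^ 2)

variable {X N : Finset ι}

theorem pc_nonneg (he : ∀ x ∈ X, 0 ≤ e x) (hr : ∀ x ∈ X, 0 ≤ rho x) (hth : 0 < th) {x y : ι}
    (hx : x ∈ X) (hy : y ∈ X) : 0 ≤ PCf N G G' e rho th x y := by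
  have h1 := he x hx
  have h2 := he y hy
  have h3 := hr x hx
  have h4 := hr y hy
  unfold PCf
  split_ifs <;> positivity

theorem pc_symm (hG : ∀ x y, G x y = G y x) (hG' : ∀ x y, G' x y = G' y x) (x y : ι) :
    PCf N G G' e rho th x y = PCf N G G' e rho th y x := by
  unfold PCf
  rw [hG x y, hG' x y]
  by_cases h : x ∈ N ∧ y ∈ N
  · rw [if_pos h, if_pos h.symm]
    ring
  · have h' : ¬ (y ∈ N ∧ x ∈ N) := fun h2 => h h2.symm
    rw [if_neg h, if_neg h']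
    ring

/-- hypothesis (k), near part -/
theorem pc_near {x y : ι} (hx : x ∈ N) (hy : y ∈ N) (hex : 0 ≤ e x) (hey : 0 ≤ e y)
    (hth : 0 < th) (hth1 : th ≤ 1) (hrx : rho x ≤ th / 16) (hry : rho y ≤ th / 16)
    (h1 : |e' x - e x| ≤ rho x * e x) (h2 : |e' y - e y| ≤ rho y * e y) :
    |e' x * ‖G' x y‖ ^ 2 * e' y - e x * ‖G x y‖ ^ 2 * e y| ≤
      th * (e x * ‖G x y‖ ^ 2 * e y) + PCf N G G' e rho th x y := by
  unfold PCf
  rw [if_pos ⟨hx, hy⟩]
  exact kc1 hex hey hth hth1 hrx hry h1 h2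

/-- hypothesis (k), far part -/
theorem pc_far {x y : ι} (hn : ¬ (x ∈ N ∧ y ∈ N)) (hex : 0 ≤ e x) (hey : 0 ≤ e y)
    (hrx0 : 0 ≤ rho x) (hry0 : 0 ≤ rho y) (hrx : rho x ≤ 1) (hry : rho y ≤ 1)
    (h1 : |e' x - e x| ≤ rho x * e x) (h2 : |e' y - e y| ≤ rho y * e y) :
    |e' x * ‖G' x y‖ ^ 2 * e' y - e x * ‖G x y‖ ^ 2 * e y| ≤ PCf N G G' e rho th x y := by
  unfold PCf
  rw [if_neg hn]
  exact kc2 hex hey hrx0 hry0 hrx hry h1 h2

/-- row sum on `N`: near part from the row `r² = ∑ e |D|²`, plus the part off `N` -/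
theorem pc_row1 [DecidableEq ι] (he : ∀ y ∈ X, 0 ≤ e y) (hth : 0 < th) {x : ι} (hx : x ∈ N)
    (hex : 0 ≤ e x) {r tail : ℝ} (hr : ∑ y ∈ X, e y * ‖G' x y - G x y‖ ^ 2 ≤ r ^ 2)
    (ht : ∑ y ∈ X \ N, (3 * (rho x + rho y) * (e x * ‖G x y‖ ^ 2 * e y) +
      4 * e x * e y * (2 * (‖G x y‖ * ‖G' x y - G x y‖) + ‖G' x y - G x y‖ ^ 2)) ≤ tail) :
    ∑ y ∈ X, PCf N G G' e rho th x y ≤ 64 / th * (e x * r ^ 2) + tail := by
  have h1 : ∑ y ∈ X, PCf N G G' e rho th x y =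
      ∑ y ∈ X ∩ N, PCf N G G' e rho th x y + ∑ y ∈ X \ N, PCf N G G' e rho th x y := by
    rw [add_comm]
    have := Finset.sum_sdiff (f := fun y => PCf N G G' e rho th x y)
      (Finset.inter_subset_left : X ∩ N ⊆ X)
    rw [← this, Finset.sdiff_inter_self_left]
  have h2 : ∑ y ∈ X \ N, PCf N G G' e rho th x y ≤ tail := by
    refine le_trans (le_of_eq (Finset.sum_congr rfl fun y hy => ?_)) ht
    unfold PCf
    rw [if_neg fun h3 => (Finset.mem_sdiff.1 hy).2 h3.2]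
  have h3 : ∑ y ∈ X ∩ N, PCf N G G' e rho th x y ≤ 64 / th * (e x * r ^ 2) := by
    have h4 : ∑ y ∈ X ∩ N, PCf N G G' e rho th x y =
        64 / th * (e x * ∑ y ∈ X ∩ N, e y * ‖G' x y - G x y‖ ^ 2) := by
      rw [Finset.mul_sum, Finset.mul_sum]
      refine Finset.sum_congr rfl fun y hy => ?_
      unfold PCf
      rw [if_pos ⟨hx, (Finset.mem_inter.1 hy).2⟩]
      ring
    rw [h4]
    have h5 : ∑ y ∈ X ∩ N, e y * ‖G' x y - G x y‖ ^ 2 ≤ r ^ 2 :=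
      (Finset.sum_le_sum_of_subset_of_nonneg Finset.inter_subset_left fun y hy _ =>
        mul_nonneg (he y hy) (by positivity)).trans hr
    have h6 : 0 ≤ 64 / th := by positivity
    exact mul_le_mul_of_nonneg_left (mul_le_mul_of_nonneg_left h5 hex) h6
  rw [h1]
  linarith

/-- row sum off `N` -/
theorem pc_row2 {x : ι} (hx : x ∉ N) {q : ℝ}
    (ht : ∑ y ∈ X, (3 * (rho x + rho y) * (e x * ‖G x y‖ ^ 2 * e y) +
      4 * e x * e y * (2 * (‖G x y‖ * ‖G' x y - G x y‖) + ‖G' x y - G x y‖ ^ 2)) ≤ q) :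
    ∑ y ∈ X, PCf N G G' e rho th x y ≤ q := by
  refine le_trans (le_of_eq (Finset.sum_congr rfl fun y _ => ?_)) ht
  unfold PCf
  rw [if_neg fun h3 => hx h3.1]

/-- the (KC2) row in terms of the row `r`: `ρ ≤ ρm`, Ward `∑ e |G|² ≤ i`, `i ≤ s²` -/
theorem kc2_row {Z : Finset ι} (he : ∀ y ∈ Z, 0 ≤ e y) {x : ι} (hex : 0 ≤ e x) {rm r s : ℝ}
    (hrm : 0 ≤ rm) (hrx : rho x ≤ rm) (hr0 : 0 ≤ r) (hs0 : 0 ≤ s)
    (hry : ∀ y ∈ Z, rho y ≤ rm) (hw : ∑ y ∈ Z, e y * ‖G x y‖ ^ 2 ≤ s ^ 2)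
    (hr : ∑ y ∈ Z, e y * ‖G' x y - G x y‖ ^ 2 ≤ r ^ 2) :
    ∑ y ∈ Z, (3 * (rho x + rho y) * (e x * ‖G x y‖ ^ 2 * e y) +
      4 * e x * e y * (2 * (‖G x y‖ * ‖G' x y - G x y‖) + ‖G' x y - G x y‖ ^ 2)) ≤
      e x * (6 * rm * s ^ 2 + 8 * (s * r) + 4 * r ^ 2) := by
  have hc : ∑ y ∈ Z, e y * (‖G x y‖ * ‖G' x y - G x y‖) ≤ s * r := by
    have h1 : (∑ y ∈ Z, e y * (‖G x y‖ * ‖G' x y - G x y‖)) ^ 2 ≤
        (∑ y ∈ Z, e y * ‖G x y‖ ^ 2) * ∑ y ∈ Z, e y * ‖G' x y - G x y‖ ^ 2 := by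
      have h2 := Finset.sum_mul_sq_le_sq_mul_sq Z (fun y => √(e y) * ‖G x y‖)
        (fun y => √(e y) * ‖G' x y - G x y‖)
      have e1 : ∀ y ∈ Z, √(e y) * ‖G x y‖ * (√(e y) * ‖G' x y - G x y‖) =
          e y * (‖G x y‖ * ‖G' x y - G x y‖) := by
        intro y hy
        have := Real.mul_self_sqrt (he y hy)
        calc √(e y) * ‖G x y‖ * (√(e y) * ‖G' x y - G x y‖) =
              (√(e y) * √(e y)) * (‖G x y‖ * ‖G' x y - G x y‖) := by ring
          _ = _ := by rw [this]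
      have e2 : ∀ k : ι → ℝ, ∀ y ∈ Z, (√(e y) * k y) ^ 2 = e y * k y ^ 2 := by
        intro k y hy
        rw [mul_pow, Real.sq_sqrt (he y hy)]
      rw [Finset.sum_congr rfl e1, Finset.sum_congr rfl (e2 fun y => ‖G x y‖),
        Finset.sum_congr rfl (e2 fun y => ‖G' x y - G x y‖)] at h2
      exact h2
    have h0 : 0 ≤ ∑ y ∈ Z, e y * ‖G' x y - G x y‖ ^ 2 :=
      Finset.sum_nonneg fun y hy => mul_nonneg (he y hy) (by positivity)
    have h3 : (∑ y ∈ Z, e y * (‖G x y‖ * ‖G' x y - G x y‖)) ^ 2 ≤ (s * r) ^ 2 :=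
      h1.trans ((mul_le_mul hw hr h0 (sq_nonneg s)).trans (le_of_eq (by ring)))
    exact (abs_le_of_sq_le_sq' h3 (mul_nonneg hs0 hr0)).2
  have h1 : ∑ y ∈ Z, (3 * (rho x + rho y) * (e x * ‖G x y‖ ^ 2 * e y) +
      4 * e x * e y * (2 * (‖G x y‖ * ‖G' x y - G x y‖) + ‖G' x y - G x y‖ ^ 2)) ≤
      ∑ y ∈ Z, (6 * rm * e x * (e y * ‖G x y‖ ^ 2) +
        8 * e x * (e y * (‖G x y‖ * ‖G' x y - G x y‖)) +
        4 * e x * (e y * ‖G' x y - G x y‖ ^ 2)) := by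
    refine Finset.sum_le_sum fun y hy => ?_
    have h2 := he y hy
    have h3 := hry y hy
    have h4 : 3 * (rho x + rho y) * (e x * ‖G x y‖ ^ 2 * e y) ≤
        6 * rm * (e x * ‖G x y‖ ^ 2 * e y) :=
      mul_le_mul_of_nonneg_right (by linarith) (by positivity)
    nlinarith
  refine h1.trans ?_
  rw [Finset.sum_add_distrib, Finset.sum_add_distrib, ← Finset.mul_sum, ← Finset.mul_sum,
    ← Finset.mul_sum]
  have h5 : 6 * rm * e x * ∑ y ∈ Z, e y * ‖G x y‖ ^ 2 ≤ 6 * rm * e x * s ^ 2 :=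
    mul_le_mul_of_nonneg_left hw (by positivity)
  have h6 : 8 * e x * ∑ y ∈ Z, e y * (‖G x y‖ * ‖G' x y - G x y‖) ≤ 8 * e x * (s * r) :=
    mul_le_mul_of_nonneg_left hc (by positivity)
  have h7 : 4 * e x * ∑ y ∈ Z, e y * ‖G' x y - G x y‖ ^ 2 ≤ 4 * e x * r ^ 2 :=
    mul_le_mul_of_nonneg_left hr (by positivity)
  calc _ ≤ 6 * rm * e x * s ^ 2 + 8 * e x * (s * r) + 4 * e x * r ^ 2 :=
        add_le_add (add_le_add h5 h6) h7
    _ = _ := by ring

end ker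

end Pool.Agent.ANI
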