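import Pool.Agent.ANI.Smooth

/-! # ANI FORMT 1: the torus step of the insertion form bounds (helper87)

Input: the conclusions (FL), (FU) of `ANI/FormC.lean` (helper12) with the cut off `cut c0 r R`; output: bounds with bond
weights only.

* `thB` = the loss of the bonds of the ball of radius `R`, `farw` (of `ANI/Smooth`) = the exponentially small loss elsewhere;
* `split_om`: `∑_{X'} om (a - c)² ≤ DW (...) a` where `om ≤ s1` with sum `W1` on the good near sites, sum `W2` on the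
  few exceptional near sites `Z`, exponentially small off the ball of radius `r`;
* `low_T`, `up_T`: (H4low), (H4up) of the new form;
* `dl_act`, `dl_stat`: the inequalities for `dl`.
-/

open Finset

noncomputable section

namespace Pool.Agent.ANI

open Pool.Agent.Kin Pool.Agent.ANF.Heat Pool.Agent.ANP Pool.Agent.ANM Pool.Agent.AND

variable {d L : ℕ} [NeZero L]

/-- sums with the weight `om` and the mean of `a` on the ball, near part with exceptional sites `Z` -/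
theorem split_om (hd : 3 ≤ d) (c0 : Tor d L) {r R : ℕ} (hrR : R ≤ 2 * r) (hr : r ≤ R)
    (hR : 2 * R + 1 ≤ L) {l : ℝ} (hl : 1 ≤ l) (hlR : l ≤ 2 * R + 1) (a om : Tor d L → ℝ)
    (X Z : Finset (Tor d L)) {s1 W1 W2 Kt mu : ℝ} (hK : 0 ≤ Kt) (h0 : 0 < mu) (h1 : mu ≤ 1)
    (hs0 : 0 ≤ s1) (hom0 : ∀ x ∈ X, 0 ≤ om x)
    (hs : ∀ x ∈ X, x ∉ Z → dT x c0 ≤ r → om x ≤ s1)
    (hW : ∑ x ∈ X.filter (fun x => dT x c0 ≤ r ∧ x ∉ Z), om x ≤ W1)
    (hW2 : ∑ x ∈ X.filter (fun x => dT x c0 ≤ r ∧ x ∈ Z), om x ≤ W2)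
    (hfar : ∀ x ∈ X, r < dT x c0 → om x ≤ Kt * Real.exp (-(mu * dT x c0))) :
    ∑ x ∈ X, om x * (a x - avT (ballF c0 R) a) ^ 2 ≤
      DW (fun i z => (2 * CH d * (s1 * l ^ 2 + W1 * rho d l) + 4 * CH d * W2) * bw c0 R i z +
        2 * farw Kt mu r R c0 z) a := by
  classical
  set X1 := X.filter (fun x => ¬ (dT x c0 ≤ r ∧ x ∈ Z)) with hX1
  set X2 := X.filter (fun x => dT x c0 ≤ r ∧ x ∈ Z) with hX2
  have hX1m : ∀ x, x ∈ X1 → x ∈ X ∧ ¬ (dT x c0 ≤ r ∧ x ∈ Z) := fun x hx => mem_filter.1 hx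
  have hX2m : ∀ x, x ∈ X2 → x ∈ X ∧ (dT x c0 ≤ r ∧ x ∈ Z) := fun x hx => mem_filter.1 hx
  have hW20 : 0 ≤ W2 := le_trans (sum_nonneg fun x hx => hom0 x (hX2m x hx).1) hW2
  have e1 := smooth_all hd c0 hrR hr hR hl hlR a om X1 (s := s1) (W := W1) hK h0 h1 hs0
    (fun x hx => hom0 x (hX1m x hx).1)
    (fun x hx hxr => hs x (hX1m x hx).1 (fun hZ => (hX1m x hx).2 ⟨hxr, hZ⟩) hxr)
    (by
      refine le_trans (le_of_eq (Finset.sum_congr ?_ fun _ _ => rfl)) hW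
      ext x
      simp only [hX1, mem_filter]
      constructor
      · rintro ⟨⟨h2, h3⟩, h4⟩
        exact ⟨h2, h4, fun h5 => h3 ⟨h4, h5⟩⟩
      · rintro ⟨h2, h3, h4⟩
        exact ⟨⟨h2, fun h5 => h4 h5.2⟩, h3⟩)
    (fun x hx hxr => hfar x (hX1m x hx).1 hxr)
  have e2 := smooth_all hd c0 hrR hr hR (l := 1) le_rfl
    (by have : (0 : ℝ) ≤ R := by positivity
        linarith) a om X2 (s := W2) (W := W2) hK h0 h1 hW20
    (fun x hx => hom0 x (hX2m x hx).1)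
    (fun x hx _ => (single_le_sum (fun y hy => hom0 y (hX2m y hy).1) hx).trans hW2)
    (by
      refine le_trans (sum_le_sum_of_subset_of_nonneg (filter_subset _ _) ?_) hW2
      intro x hx _
      exact hom0 x (hX2m x hx).1)
    (fun x hx hxr => hfar x (hX2m x hx).1 hxr)
  have h3 : ∑ x ∈ X, om x * (a x - avT (ballF c0 R) a) ^ 2 =
      ∑ x ∈ X1, om x * (a x - avT (ballF c0 R) a) ^ 2 +
        ∑ x ∈ X2, om x * (a x - avT (ballF c0 R) a) ^ 2 := by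
    rw [hX1, hX2, add_comm]
    exact (Finset.sum_filter_add_sum_filter_not X _ _).symm
  rw [h3]
  refine (add_le_add e1 e2).trans (le_of_eq ?_)
  rw [← DW_add]
  congr 1
  funext i z
  have h4 : rho d (1 : ℝ) = 1 := by
    unfold rho
    simp
  rw [h4]
  ring

/-- loss of the bonds of the ball -/
def thB (d : ℕ) (th Cm : ℝ) (r R : ℕ) (l s1 W1 W2 : ℝ) : ℝ :=
  2 * th * Cm * (2 + 9 * d ^ 2 * (R : ℝ) ^ 2 / ((R : ℝ) - r) ^ 2) +
    (2 * CH d * (s1 * l ^ 2 + W1 * rho d l) + 4 * CH d * W2)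

/-- **(H4low) of the new form** -/
theorem low_T (hd : 3 ≤ d) (c0 : Tor d L) {r R : ℕ} (hrR : R ≤ 2 * r) (hr : r < R)
    (hR : 2 * R + 1 ≤ L) {l : ℝ} (hl : 1 ≤ l) (hlR : l ≤ 2 * R + 1)
    (X Z : Finset (Tor d L)) {s1 W1 W2 Kt mu : ℝ} (hK : 0 ≤ Kt) (h0 : 0 < mu) (h1 : mu ≤ 1)
    (hs0 : 0 ≤ s1) {om : Tor d L → ℝ} (hom0 : ∀ x ∈ X, 0 ≤ om x)
    (hs : ∀ x ∈ X, x ∉ Z → dT x c0 ≤ r → om x ≤ s1)
    (hW : ∑ x ∈ X.filter (fun x => dT x c0 ≤ r ∧ x ∉ Z), om x ≤ W1)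
    (hW2 : ∑ x ∈ X.filter (fun x => dT x c0 ≤ r ∧ x ∈ Z), om x ≤ W2)
    (hfar : ∀ x ∈ X, r < dT x c0 → om x ≤ Kt * Real.exp (-(mu * dT x c0)))
    {D C0 D' : Fin d → Tor d L → ℝ} {Cm th : ℝ} (hth : 0 ≤ th)
    (hC : ∀ i x, C0 i x ≤ Cm) (hCm : 0 ≤ Cm)
    {m mt m2 : Tor d L → ℝ} {Q : (Tor d L → ℝ) → ℝ}
    (hFL : ∀ u : Tor d L → ℝ, ∃ a : Tor d L → ℝ, ∀ c : ℝ,
      DW D a + ∑ x ∈ X, mt x * (u x - a x) ^ 2 ≤ Q u +
        th * (2 * DW C0 (fun x => cut c0 r R x * (a x - c)) +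
          4 * ∑ x ∈ X, m x * cut c0 r R x ^ 2 * (u x - a x) ^ 2) +
        ∑ x ∈ X, om x / 2 * (u x - c) ^ 2)
    (hm2 : ∀ x ∈ X, m2 x ≤ mt x - 4 * th * m x * cut c0 r R x ^ 2 - om x)
    (hD : ∀ i x, D' i x ≤ D i x - (thB d th Cm r R l s1 W1 W2 * bw c0 R i x +
      2 * farw Kt mu r R c0 x)) :
    ∀ u : Tor d L → ℝ, ∃ a : Tor d L → ℝ,
      DW D' a + ∑ x ∈ X, m2 x * (u x - a x) ^ 2 ≤ Q u := by
  intro u
  obtain ⟨a, ha⟩ := hFL u
  refine ⟨a, ?_⟩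
  set c := avT (ballF c0 R) a with hc
  have e0 := ha c
  have e1 := split_om hd c0 hrR hr.le hR hl hlR a om X Z hK h0 h1 hs0 hom0 hs hW hW2 hfar
  rw [← hc] at e1
  have e2 := smooth_cut c0 hr hR C0 hC hCm a
  rw [← hc, enT_eq_DW] at e2
  have e3 : ∑ x ∈ X, om x / 2 * (u x - c) ^ 2 ≤
      ∑ x ∈ X, om x * (u x - a x) ^ 2 + ∑ x ∈ X, om x * (a x - c) ^ 2 := by
    rw [← sum_add_distrib]
    refine sum_le_sum fun x hx => ?_
    nlinarith [mul_nonneg (hom0 x hx) (sq_nonneg ((u x - a x) - (a x - c)))]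
  have e4 : ∑ x ∈ X, m2 x * (u x - a x) ^ 2 ≤ ∑ x ∈ X, mt x * (u x - a x) ^ 2 -
      th * (4 * ∑ x ∈ X, m x * cut c0 r R x ^ 2 * (u x - a x) ^ 2) -
      ∑ x ∈ X, om x * (u x - a x) ^ 2 := by
    have h5 : ∑ x ∈ X, m2 x * (u x - a x) ^ 2 ≤
        ∑ x ∈ X, (mt x * (u x - a x) ^ 2 -
          th * (4 * (m x * cut c0 r R x ^ 2 * (u x - a x) ^ 2)) -
          om x * (u x - a x) ^ 2) := by
      refine sum_le_sum fun x hx => ?_
      have := mul_le_mul_of_nonneg_right (hm2 x hx) (sq_nonneg (u x - a x))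
      linarith
    refine h5.trans (le_of_eq ?_)
    rw [sum_sub_distrib, sum_sub_distrib, ← mul_sum, ← mul_sum]
  have e5 : DW D' a ≤ DW D a - 2 * th * (Cm * ((2 + 9 * d ^ 2 * (R : ℝ) ^ 2 / ((R : ℝ) - r) ^ 2) *
      DW (bw c0 R) a)) -
      DW (fun i z => (2 * CH d * (s1 * l ^ 2 + W1 * rho d l) + 4 * CH d * W2) * bw c0 R i z +
        2 * farw Kt mu r R c0 z) a := by
    refine (DW_mono hD a).trans (le_of_eq ?_)
    have h6 : (fun (i : Fin d) (x : Tor d L) => D i x - (thB d th Cm r R l s1 W1 W2 * bw c0 R i x +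
        2 * farw Kt mu r R c0 x)) =
        (fun i x => (fun i x => D i x + (-1) * (fun (i : Fin d) (x : Tor d L) =>
          (2 * th * Cm * (2 + 9 * d ^ 2 * (R : ℝ) ^ 2 / ((R : ℝ) - r) ^ 2)) * bw c0 R i x) i x) i x +
          (-1) * (fun (i : Fin d) (z : Tor d L) =>
            (2 * CH d * (s1 * l ^ 2 + W1 * rho d l) + 4 * CH d * W2) * bw c0 R i z +
              2 * farw Kt mu r R c0 z) i x) := by
      funext i x
      simp only [thB]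
      ring
    rw [h6, DW_add, DW_add, DW_smul, DW_smul, DW_smul]
    ring
  have e6 : th * (2 * DW C0 (fun x => cut c0 r R x * (a x - c))) ≤
      2 * th * (Cm * ((2 + 9 * d ^ 2 * (R : ℝ) ^ 2 / ((R : ℝ) - r) ^ 2) * DW (bw c0 R) a)) := by
    have := mul_le_mul_of_nonneg_left e2 (by positivity : 0 ≤ 2 * th)
    linarith
  linarith

/-- **(H4up) of the new form** -/
theorem up_T (hd : 3 ≤ d) (c0 : Tor d L) {r R : ℕ} (hrR : R ≤ 2 * r) (hr : r < R)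
    (hR : 2 * R + 1 ≤ L) {l : ℝ} (hl : 1 ≤ l) (hlR : l ≤ 2 * R + 1)
    (X Z : Finset (Tor d L)) {s1 W1 W2 Kt mu : ℝ} (hK : 0 ≤ Kt) (h0 : 0 < mu) (h1 : mu ≤ 1)
    (hs0 : 0 ≤ s1) {om : Tor d L → ℝ} (hom0 : ∀ x ∈ X, 0 ≤ om x)
    (hs : ∀ x ∈ X, x ∉ Z → dT x c0 ≤ r → om x ≤ s1)
    (hW : ∑ x ∈ X.filter (fun x => dT x c0 ≤ r ∧ x ∉ Z), om x ≤ W1)
    (hW2 : ∑ x ∈ X.filter (fun x => dT x c0 ≤ r ∧ x ∈ Z), om x ≤ W2)
    (hfar : ∀ x ∈ X, r < dT x c0 → om x ≤ Kt * Real.exp (-(mu * dT x c0)))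
    {C0 C0' : Fin d → Tor d L → ℝ} {Cm th : ℝ} (hth : 0 ≤ th)
    (hC : ∀ i x, C0 i x ≤ Cm) (hCm : 0 ≤ Cm)
    {Q : (Tor d L → ℝ) → ℝ}
    (hFU : ∀ (a : Tor d L → ℝ) (c : ℝ), Q a ≤ DW C0 a +
        th * DW C0 (fun x => cut c0 r R x * (a x - c)) + ∑ x ∈ X, om x * (a x - c) ^ 2)
    (hC0 : ∀ i x, C0 i x + (thB d th Cm r R l s1 W1 W2 * bw c0 R i x +
      2 * farw Kt mu r R c0 x) ≤ C0' i x) :
    ∀ a : Tor d L → ℝ, Q a ≤ DW C0' a := by
  intro a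
  set c := avT (ballF c0 R) a with hc
  have e0 := hFU a c
  have e1 := split_om hd c0 hrR hr.le hR hl hlR a om X Z hK h0 h1 hs0 hom0 hs hW hW2 hfar
  rw [← hc] at e1
  have e2 := smooth_cut c0 hr hR C0 hC hCm a
  rw [← hc, enT_eq_DW] at e2
  have hbw0 : 0 ≤ DW (bw c0 R) a := by
    rw [← enT_eq_DW]
    exact enT_nonneg _ _
  have e5 : DW C0 a + 2 * th * (Cm * ((2 + 9 * d ^ 2 * (R : ℝ) ^ 2 / ((R : ℝ) - r) ^ 2) *
      DW (bw c0 R) a)) +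
      DW (fun i z => (2 * CH d * (s1 * l ^ 2 + W1 * rho d l) + 4 * CH d * W2) * bw c0 R i z +
        2 * farw Kt mu r R c0 z) a ≤ DW C0' a := by
    refine (le_of_eq ?_).trans (DW_mono hC0 a)
    set F3 : Fin d → Tor d L → ℝ := fun i z =>
      (2 * CH d * (s1 * l ^ 2 + W1 * rho d l) + 4 * CH d * W2) * bw c0 R i z +
        2 * farw Kt mu r R c0 z with hF3
    set F2 : Fin d → Tor d L → ℝ := fun i x =>
      (2 * th * Cm * (2 + 9 * d ^ 2 * (R : ℝ) ^ 2 / ((R : ℝ) - r) ^ 2)) * bw c0 R i x with hF2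
    have h6 : (fun (i : Fin d) (x : Tor d L) => C0 i x + (thB d th Cm r R l s1 W1 W2 * bw c0 R i x +
        2 * farw Kt mu r R c0 x)) = (fun i x => (fun i x => C0 i x + F2 i x) i x + F3 i x) := by
      funext i x
      simp only [thB, hF2, hF3]
      ring
    have h7 := DW_add (fun i x => C0 i x + F2 i x) F3 a
    have h8 := DW_add C0 F2 a
    have h9 : DW F2 a = 2 * th * Cm * (2 + 9 * d ^ 2 * (R : ℝ) ^ 2 / ((R : ℝ) - r) ^ 2) *
        DW (bw c0 R) a := DW_smul _ _ _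
    rw [h6, h7, h8, h9]
    ring
  have e6 : th * DW C0 (fun x => cut c0 r R x * (a x - c)) ≤
      2 * th * (Cm * ((2 + 9 * d ^ 2 * (R : ℝ) ^ 2 / ((R : ℝ) - r) ^ 2) * DW (bw c0 R) a)) := by
    have h7 := mul_le_mul_of_nonneg_left e2 hth
    have h8 : 0 ≤ Cm * ((2 + 9 * d ^ 2 * (R : ℝ) ^ 2 / ((R : ℝ) - r) ^ 2) * DW (bw c0 R) a) := by
      positivity
    nlinarith [mul_nonneg hth h8]
  linarith

/-! ### the inequalities for `dl` -/

/-- active sites: `dl = A m`, `A` = the conserved quantity plus errors -/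
theorem dl_act {m m' A A' σ σ' E : ℝ} (hm : 0 < m) (hm' : 0 < m') (hA : 0 ≤ A)
    (hAm : A * m ≤ 1) (hσ0 : 0 ≤ σ) (hσ : σ ≤ 1 / 4) (hσ'0 : 0 ≤ σ') (hmm : m' ≤ (1 + σ') * m)
    (hE : E ≤ σ * m) (h : σ' + 8 * σ ≤ (A' - A) * m) :
    m' / (1 + A' * m') ≤ m / (1 + A * m) - E := by
  have hA' : 0 ≤ A' := by
    by_contra h1
    push Not at h1
    nlinarith
  have h1 : 0 < 1 + A * m := by positivity
  have h2 : 0 < 1 + A' * m' := by positivity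
  -- monotone in m'
  have h3 : m' / (1 + A' * m') ≤ ((1 + σ') * m) / (1 + A' * ((1 + σ') * m)) := by
    rw [div_le_div_iff₀ h2 (by positivity)]
    nlinarith [mul_nonneg hA' (mul_pos hm' hm).le]
  refine h3.trans ?_
  have h4 : m / (1 + A * m) - σ * m ≤ m / (1 + A * m) - E := by linarith
  refine le_trans ?_ h4
  set B := (1 + σ') with hB
  have hB1 : 1 ≤ B := by linarith
  have h5 : 0 < 1 + A' * (B * m) := by positivity
  rw [div_le_iff₀ h5]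
  have h6 : m / (1 + A * m) - σ * m = m * (1 - σ * (1 + A * m)) / (1 + A * m) := by
    field_simp
  rw [h6, div_mul_eq_mul_div, le_div_iff₀ h1]
  -- B m (1 + A m) ≤ m (1 - σ (1 + A m)) (1 + A' B m)
  have h7 : A' * m ≥ A * m + (σ' + 8 * σ) := by nlinarith
  set p := A * m with hp
  have hp0 : 0 ≤ p := by positivity
  set q := A' * m with hq
  have h8 : B * (1 + p) ≤ (1 - σ * (1 + p)) * (1 + q * B) := by
    have h9 : σ * (1 + p) ≤ 2 * σ := by nlinarith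
    have h10 : 0 ≤ 1 + q * B := by positivity
    have h11 : (1 - 2 * σ) * (1 + q * B) ≤ (1 - σ * (1 + p)) * (1 + q * B) :=
      mul_le_mul_of_nonneg_right (by linarith) h10
    refine le_trans ?_ h11
    have h12 : (1 - 2 * σ) * (1 + (p + (σ' + 8 * σ)) * B) ≤ (1 - 2 * σ) * (1 + q * B) := by
      refine mul_le_mul_of_nonneg_left ?_ (by linarith)
      have := mul_le_mul_of_nonneg_right h7.le (by linarith : 0 ≤ B)
      linarith
    refine le_trans ?_ h12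
    -- B (1+p) ≤ (1-2σ)(1 + (p + σ' + 8σ) B), B = 1 + σ'
    nlinarith [mul_nonneg hσ0 hσ'0, mul_nonneg hσ0 hp0, mul_nonneg hσ0 hσ0,
      mul_nonneg (mul_nonneg hσ0 hσ'0) hσ'0, mul_nonneg (mul_nonneg hσ0 hp0) hσ'0,
      mul_nonneg hσ'0 hσ'0, mul_nonneg (mul_nonneg hσ0 hσ0) hσ'0]
  calc B * m * (1 + p) = m * (B * (1 + p)) := by ring
    _ ≤ m * ((1 - σ * (1 + p)) * (1 + q * B)) := mul_le_mul_of_nonneg_left h8 hm.le
    _ = m * (1 - σ * (1 + p)) * (1 + A' * (B * m)) := by rw [hq]; ring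

/-- static sites -/
theorem dl_stat {m m' δ δ' σ σ' E : ℝ} (hm : 0 < m) (hδ : 0 ≤ δ)
    (hδ' : δ' ≤ 1) (hσ0 : 0 ≤ σ) (hσ'0 : 0 ≤ σ') (hmm : m' ≤ (1 + σ') * m)
    (hE : E ≤ σ * m) (h : δ + 2 * σ' + 4 * σ ≤ δ') :
    m' / (1 + δ') ≤ m / (1 + δ) - E := by
  have h1 : 0 < 1 + δ := by linarith
  have h2 : 0 < 1 + δ' := by linarith
  have h3 : m' / (1 + δ') ≤ (1 + σ') * m / (1 + δ') := by gcongr
  refine h3.trans (le_trans ?_ (by linarith : m / (1 + δ) - σ * m ≤ m / (1 + δ) - E))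
  have h6 : m / (1 + δ) - σ * m = m * (1 - σ * (1 + δ)) / (1 + δ) := by field_simp
  rw [h6, div_le_div_iff₀ h2 h1]
  have h7 : (1 + σ') * (1 + δ) ≤ (1 - σ * (1 + δ)) * (1 + δ') := by
    nlinarith [mul_nonneg hσ0 hδ, mul_nonneg hσ'0 hδ, mul_nonneg hσ0 (by linarith : 0 ≤ 1 - δ'),
      mul_nonneg (mul_nonneg hσ0 h1.le) (by linarith : 0 ≤ 1 - δ'),
      mul_nonneg hσ'0 (by linarith : 0 ≤ 1 - δ)]
  calc (1 + σ') * m * (1 + δ) = m * ((1 + σ') * (1 + δ)) := by ring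
    _ ≤ m * ((1 - σ * (1 + δ)) * (1 + δ')) := mul_le_mul_of_nonneg_left h7 hm.le
    _ = _ := by ring

end Pool.Agent.ANI
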