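import Pool.Agent.ANI.FormC
import Pool.Agent.ANI.FormT1
import Pool.Agent.ANL.Square
import Pool.Agent.AND.Use
import Pool.Agent.AND.Sched

/-! # ANI FORMT 2: (H4low), (H4up) after an insertion (helper87)

`M` the medium before, `M'` after (sites of `B` are read in addition, all other levels changed little).
`c0` centre, near set `dT x c0 ≤ r`.  `InsK`: near rows `∑ η |dG|² ≤ rr x`, relative change of `η` at most `θ/16`
near, change of the kernel of the form at most `q η_x η_y e^{-ν max(dT x c0, dT y c0)}` when one of the sites is far (RELATIVE to the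
absorptions: no power of `1/η_*` anywhere, inert sites allowed), decay of the entries seen from the removed sites.

* `pi_row`: row sums of the error kernel;   `be_sum`, `be_far`: the removed sites;
* `om0 x = (256/θ) η_x rw_x + 2 ∑_{y ∈ B} K_xy`, `om x = om0 + 4 η_x T e^{-ν/2 max(r, dT x c0)}`;
* `h4_ins`: the two bounds for the new medium with new tolerances;
* `h4_ins_tolAt`: the same for the schedule `tolAt P Sf n (F.ins P n s 1 {c}) π' v' M'`, numerical inequalities `NumI`.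
-/

open Matrix Finset

noncomputable section

namespace Pool.Agent.ANI

open Pool.Agent.Kin Pool.Agent.APS Pool.Agent.ANF.Heat Pool.Agent.ANP Pool.Agent.ANM Pool.Agent.AND

variable {d L : ℕ} [NeZero L]

/-- the kernel of the form -/
def kF (M : Med (Tor d L)) (x y : Tor d L) : ℝ :=
  M.eta x * ‖rsc (H0T d L) M.b x y‖ ^ 2 * M.eta y

theorem QF_QK (M : Med (Tor d L)) (u : Tor d L → ℝ) : QF (H0T d L) M u = QK M.nr (kF M) u := rfl

/-- data of an insertion -/
structure InsK (M M' : Med (Tor d L)) (B : Finset (Tor d L)) (c0 : Tor d L) (r : ℕ) (th : ℝ)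
    (rr : Tor d L → ℝ) (q qd nu : ℝ) : Prop where
  nr : M'.nr = M.nr \ B
  Bn : B ⊆ M.nr
  /-- the removed sites are near -/
  Bnear : ∀ y ∈ B, 7 * dT y c0 ≤ 6 * r
  adm : ANL.Adm (H0T d L) M.b
  adm' : ANL.Adm (H0T d L) M'.b
  eU : ∀ x ∈ M.U, M.eta x = 0
  th0 : 0 < th
  th1 : th ≤ 1
  rw0 : ∀ x, 0 ≤ rr x
  rho : ∀ x ∈ M'.nr, dT x c0 ≤ r → |M'.eta x - M.eta x| ≤ th / 16 * M.eta x
  row : ∀ x ∈ M'.nr, dT x c0 ≤ r → ∑ y ∈ M'.nr, M.eta y *
    ‖rsc (H0T d L) M'.b x y - rsc (H0T d L) M.b x y‖ ^ 2 ≤ rr x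
  ker : ∀ x ∈ M'.nr, ∀ y ∈ M'.nr, ¬ (dT x c0 ≤ r ∧ dT y c0 ≤ r) →
    |kF M' x y - kF M x y| ≤
      q * (M.eta x * M.eta y) * Real.exp (-(nu * (max (dT x c0) (dT y c0) : ℕ)))
  dec : ∀ x ∈ M'.nr, ∀ y ∈ B,
    ‖rsc (H0T d L) M.b x y‖ ^ 2 * M.eta y ≤ qd * Real.exp (-(4 * nu * dT x y))
  e1 : ∀ x ∈ M.nr, M.eta x ≤ 1
  q0 : 0 ≤ q
  qd0 : 0 ≤ qd
  nu0 : 0 < nu
  nu1 : nu ≤ 1

/-- the constant of the tails -/
def tT (d : ℕ) (q nu : ℝ) : ℝ := q * sumC d 0 (nu / 2)

/-- row bound of the error kernel -/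
def piF (M : Med (Tor d L)) (c0 : Tor d L) (r : ℕ) (th : ℝ) (rr : Tor d L → ℝ) (q nu : ℝ)
    (x : Tor d L) : ℝ :=
  (if dT x c0 ≤ r then 64 / th * (M.eta x * rr x) else 0) +
    M.eta x * (tT d q nu * Real.exp (-(nu / 2 * (max r (dT x c0) : ℕ))))

/-- the error kernel -/
def pF (M M' : Med (Tor d L)) (c0 : Tor d L) (r : ℕ) (th : ℝ) (x y : Tor d L) : ℝ :=
  if dT x c0 ≤ r ∧ dT y c0 ≤ r then
    64 / th * (M.eta x * ‖rsc (H0T d L) M'.b x y - rsc (H0T d L) M.b x y‖ ^ 2 * M.eta y)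
  else |kF M' x y - kF M x y|

/-- the removed part -/
def beF (M : Med (Tor d L)) (B : Finset (Tor d L)) (x : Tor d L) : ℝ := ∑ y ∈ B, kF M x y

/-- near weights of the error -/
def om0 (M : Med (Tor d L)) (B : Finset (Tor d L)) (th : ℝ) (rr : Tor d L → ℝ)
    (x : Tor d L) : ℝ := 256 / th * (M.eta x * rr x) + 2 * beF M B x

/-- all weights of the error -/
def omF (M : Med (Tor d L)) (B : Finset (Tor d L)) (c0 : Tor d L) (r : ℕ) (th : ℝ)
    (rr : Tor d L → ℝ) (q nu : ℝ) (x : Tor d L) : ℝ :=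
  2 * (2 * piF M c0 r th rr q nu x + beF M B x)

theorem tT_nonneg {q nu : ℝ} (hq : 0 ≤ q) (hnu : 0 < nu) : 0 ≤ tT d q nu :=
  mul_nonneg hq (sumC_nonneg d 0 (half_pos hnu))

namespace InsK

variable {M M' : Med (Tor d L)} {B Z : Finset (Tor d L)} {c0 : Tor d L} {r : ℕ} {th : ℝ}
  {rr : Tor d L → ℝ} {q qd nu : ℝ}

variable (h : InsK M M' B c0 r th rr q qd nu)

include h

theorem e0 (x : Tor d L) : 0 ≤ M.eta x := by
  unfold Med.eta
  have := h.adm.im x
  linarith

theorem e0' (x : Tor d L) : 0 ≤ M'.eta x := by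
  unfold Med.eta
  have := h.adm'.im x
  linarith

theorem kF0 (x y : Tor d L) : 0 ≤ kF M x y :=
  mul_nonneg (mul_nonneg (h.e0 x) (sq_nonneg _)) (h.e0 y)

theorem kF0' (x y : Tor d L) : 0 ≤ kF M' x y :=
  mul_nonneg (mul_nonneg (h.e0' x) (sq_nonneg _)) (h.e0' y)

theorem sym (x y : Tor d L) : rsc (H0T d L) M.b x y = rsc (H0T d L) M.b y x :=
  ANL.adm_symm h.adm x y

theorem sym' (x y : Tor d L) : rsc (H0T d L) M'.b x y = rsc (H0T d L) M'.b y x :=
  ANL.adm_symm h.adm' x y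

theorem kFs (x y : Tor d L) : kF M x y = kF M y x := by
  unfold kF
  rw [h.sym x y]
  ring

theorem kFs' (x y : Tor d L) : kF M' x y = kF M' y x := by
  unfold kF
  rw [h.sym' x y]
  ring

/-- Ward -/
theorem mrow (x : Tor d L) :
    ∑ y ∈ M.nr, kF M x y = M.eta x * (rsc (H0T d L) M.b x x).im := by
  have h1 : (rsc (H0T d L) M.b x x).im = ∑ y, M.eta y * ‖rsc (H0T d L) M.b x y‖ ^ 2 :=
    ANL.ward h.adm x
  rw [h1, Finset.mul_sum]
  have h2 : ∀ y, kF M x y = M.eta x * (M.eta y * ‖rsc (H0T d L) M.b x y‖ ^ 2) := by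
    intro y
    unfold kF
    ring
  rw [Finset.sum_congr rfl fun y _ => h2 y]
  refine Finset.sum_subset (Finset.subset_univ _) fun y _ hy => ?_
  have h3 : y ∈ M.U := by
    by_contra h4
    exact hy (mem_nr.2 h4)
  rw [h.eU y h3]
  ring

theorem sub : M'.nr ⊆ M.nr := by
  rw [h.nr]
  exact Finset.sdiff_subset

theorem tail {x : Tor d L} (hx : x ∈ M'.nr) :
    ∑ y ∈ M'.nr, (if dT x c0 ≤ r ∧ dT y c0 ≤ r then 0 else |kF M' x y - kF M x y|) ≤
      M.eta x * (tT d q nu * Real.exp (-(nu / 2 * (max r (dT x c0) : ℕ)))) := by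
  have hnu := h.nu0
  have hq := h.q0
  have hex := h.e0 x
  have h1 : ∀ y ∈ M'.nr, (if dT x c0 ≤ r ∧ dT y c0 ≤ r then 0 else |kF M' x y - kF M x y|) ≤
      q * M.eta x * Real.exp (-(nu / 2 * (max r (dT x c0) : ℕ))) *
        Real.exp (-(nu / 2 * dT y c0)) := by
    intro y hy
    split_ifs with hn
    · positivity
    have hey := h.e0 y
    have e1 := h.ker x hx y hy hn
    have e2 := h.e1 y (h.sub hy)
    have f3 : (max r (dT x c0) : ℕ) + dT y c0 ≤ 2 * max (dT x c0) (dT y c0) := by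
      rcases le_or_gt (dT x c0) r with h5 | h5
      · have h6 : r < dT y c0 := by
          by_contra h7
          exact hn ⟨h5, not_lt.1 h7⟩
        omega
      · omega
    have f4 : ((max r (dT x c0) : ℕ) : ℝ) + dT y c0 ≤ 2 * (max (dT x c0) (dT y c0) : ℕ) := by
      exact_mod_cast f3
    have f5 : Real.exp (-(nu * (max (dT x c0) (dT y c0) : ℕ))) ≤
        Real.exp (-(nu / 2 * (max r (dT x c0) : ℕ))) * Real.exp (-(nu / 2 * dT y c0)) := by
      rw [← Real.exp_add, Real.exp_le_exp]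
      have := mul_le_mul_of_nonneg_left f4 (by positivity : 0 ≤ nu / 2)
      linarith
    have f6 : M.eta x * M.eta y ≤ M.eta x := by
      have := mul_le_mul_of_nonneg_left e2 hex
      linarith
    calc |kF M' x y - kF M x y|
        ≤ q * (M.eta x * M.eta y) * Real.exp (-(nu * (max (dT x c0) (dT y c0) : ℕ))) := e1
      _ ≤ q * M.eta x * (Real.exp (-(nu / 2 * (max r (dT x c0) : ℕ))) *
            Real.exp (-(nu / 2 * dT y c0))) := by
          refine mul_le_mul (mul_le_mul_of_nonneg_left f6 hq) f5 (Real.exp_pos _).le ?_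
          positivity
      _ = _ := by ring
  refine (Finset.sum_le_sum h1).trans ?_
  rw [← Finset.mul_sum]
  have h2 : ∑ y ∈ M'.nr, Real.exp (-(nu / 2 * dT y c0)) ≤ sumC d 0 (nu / 2) :=
    (Finset.sum_le_sum_of_subset_of_nonneg (Finset.subset_univ _)
      fun _ _ _ => (Real.exp_pos _).le).trans
        (sum_exp_dT c0 (half_pos h.nu0) (by linarith [h.nu1, h.nu0]))
  calc q * M.eta x * Real.exp (-(nu / 2 * (max r (dT x c0) : ℕ))) *
        ∑ y ∈ M'.nr, Real.exp (-(nu / 2 * dT y c0))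
      ≤ q * M.eta x * Real.exp (-(nu / 2 * (max r (dT x c0) : ℕ))) * sumC d 0 (nu / 2) :=
        mul_le_mul_of_nonneg_left h2 (by positivity)
    _ = _ := by
        unfold tT
        ring

theorem pi_row {x : Tor d L} (hx : x ∈ M'.nr) :
    ∑ y ∈ M'.nr, pF M M' c0 r th x y ≤ piF M c0 r th rr q nu x := by
  have hth := h.th0
  have h1 : ∀ y ∈ M'.nr, pF M M' c0 r th x y ≤
      (if dT x c0 ≤ r then 64 / th * (M.eta x * (M.eta y *
        ‖rsc (H0T d L) M'.b x y - rsc (H0T d L) M.b x y‖ ^ 2)) else 0) +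
      (if dT x c0 ≤ r ∧ dT y c0 ≤ r then 0 else |kF M' x y - kF M x y|) := by
    intro y _
    have hex := h.e0 x
    have hey := h.e0 y
    unfold pF
    by_cases hx1 : dT x c0 ≤ r
    · by_cases hy1 : dT y c0 ≤ r
      · rw [if_pos ⟨hx1, hy1⟩, if_pos hx1, if_pos ⟨hx1, hy1⟩]
        refine le_of_eq ?_
        ring
      · rw [if_neg (fun h2 => hy1 h2.2), if_pos hx1, if_neg (fun h2 => hy1 h2.2)]
        have : 0 ≤ 64 / th * (M.eta x * (M.eta y *
          ‖rsc (H0T d L) M'.b x y - rsc (H0T d L) M.b x y‖ ^ 2)) := by positivity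
        linarith
    · rw [if_neg (fun h2 => hx1 h2.1), if_neg hx1, if_neg (fun h2 => hx1 h2.1), zero_add]
  refine (Finset.sum_le_sum h1).trans ?_
  rw [Finset.sum_add_distrib]
  unfold piF
  refine add_le_add ?_ (h.tail hx)
  split_ifs with hx1
  · rw [← Finset.mul_sum, ← Finset.mul_sum]
    refine mul_le_mul_of_nonneg_left ?_ (by positivity)
    exact mul_le_mul_of_nonneg_left (h.row x hx hx1) (h.e0 x)
  · simp

theorem be0 (x : Tor d L) : 0 ≤ beF M B x := Finset.sum_nonneg fun y _ => h.kF0 x y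

theorem be_far {x : Tor d L} (hx : x ∈ M'.nr) (hr : r < dT x c0) :
    beF M B x ≤ M.eta x * (B.card * qd * Real.exp (-(nu / 2 * dT x c0))) := by
  have hnu := h.nu0
  have hex := h.e0 x
  have h1 : ∀ y ∈ B, kF M x y ≤ M.eta x * (qd * Real.exp (-(nu / 2 * dT x c0))) := by
    intro y hy
    have h0 : kF M x y = M.eta x * (‖rsc (H0T d L) M.b x y‖ ^ 2 * M.eta y) := by
      unfold kF
      ring
    rw [h0]
    refine mul_le_mul_of_nonneg_left ?_ hex
    refine (h.dec x hx y hy).trans (mul_le_mul_of_nonneg_left ?_ h.qd0)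
    rw [Real.exp_le_exp, neg_le_neg_iff]
    have h2 := h.Bnear y hy
    have h3 := (nmet_dT (d := d) (L := L)).tri x y c0
    have h4 : dT x c0 ≤ 7 * dT x y := by omega
    have h5 : (dT x c0 : ℝ) ≤ 7 * dT x y := by exact_mod_cast h4
    nlinarith
  have h2 := Finset.sum_le_card_nsmul B (fun y => kF M x y) _ h1
  rw [nsmul_eq_mul] at h2
  unfold beF
  refine h2.trans (le_of_eq ?_)
  ring

/-- the total mass of the removed part -/
theorem be_sum (Y : Finset (Tor d L)) (hY : Y ⊆ M.nr) :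
    ∑ x ∈ Y, beF M B x ≤ ∑ y ∈ B, M.eta y * (rsc (H0T d L) M.b y y).im := by
  unfold beF
  rw [Finset.sum_comm]
  refine Finset.sum_le_sum fun y _ => ?_
  rw [← h.mrow y]
  refine le_trans (le_of_eq (Finset.sum_congr rfl fun x _ => h.kFs x y)) ?_
  exact Finset.sum_le_sum_of_subset_of_nonneg hY fun x _ _ => h.kF0 y x

theorem om_eq (x : Tor d L) : omF M B c0 r th rr q nu x =
    (if dT x c0 ≤ r then om0 M B th rr x else 2 * beF M B x) +
      M.eta x * (4 * tT d q nu * Real.exp (-(nu / 2 * (max r (dT x c0) : ℕ)))) := by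
  unfold omF piF om0
  split_ifs <;> ring

theorem om0_nonneg (x : Tor d L) : 0 ≤ om0 M B th rr x := by
  unfold om0
  have h1 := h.e0 x
  have h2 := h.rw0 x
  have h3 := h.th0
  have h4 := h.be0 x
  positivity

theorem om_nonneg (x : Tor d L) : 0 ≤ omF M B c0 r th rr q nu x := by
  rw [h.om_eq x]
  have h1 := h.om0_nonneg x
  have h2 := h.be0 x
  have h3 := tT_nonneg (d := d) h.q0 h.nu0
  have h4 := h.e0 x
  split_ifs <;> positivity

theorem om_near {x : Tor d L} (hx : dT x c0 ≤ r) : omF M B c0 r th rr q nu x =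
    om0 M B th rr x + M.eta x * (4 * tT d q nu * Real.exp (-(nu / 2 * r))) := by
  rw [h.om_eq x, if_pos hx, max_eq_left hx]

theorem om_far {x : Tor d L} (hxn : x ∈ M'.nr) (hx : r < dT x c0) :
    omF M B c0 r th rr q nu x ≤
      M.eta x * ((4 * tT d q nu + 2 * (B.card * qd)) * Real.exp (-(nu / 2 * dT x c0))) := by
  rw [h.om_eq x, if_neg (not_le.2 hx), max_eq_right hx.le]
  have := h.be_far hxn hx
  linarith

/-- the hypotheses of FormC -/
theorem fc {C0 : Fin d → Tor d L → ℝ} {R : ℕ} (hrR : r < R)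
    (hu : ∀ a : Tor d L → ℝ, QF (H0T d L) M a ≤ DW C0 a) :
    FC M.nr M'.nr (univ.filter fun x => dT x c0 ≤ r) (cut c0 r R)
      (fun x => M.eta x * (rsc (H0T d L) M.b x x).im) (piF M c0 r th rr q nu) (beF M B)
      (kF M) (kF M') (pF M M' c0 r th) th (DW C0) where
  sub := h.sub
  chi0 x := cut_nonneg c0 r R x
  chiN x hx := cut_eq_one hrR (Finset.mem_filter.1 hx).2
  K0 x _ y _ := h.kF0 x y
  Ks x _ y _ := h.kFs x y
  th0 := h.th0.le
  P0 x _ y _ := by
    unfold pF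
    have h1 := h.e0 x
    have h2 := h.e0 y
    have h3 := h.th0
    split_ifs <;> positivity
  Ps x _ y _ := by
    unfold pF
    by_cases h1 : dT x c0 ≤ r ∧ dT y c0 ≤ r
    · rw [if_pos h1, if_pos h1.symm, h.sym x y, h.sym' x y]
      ring
    · rw [if_neg h1, if_neg (fun h2 => h1 h2.symm), h.kFs x y, h.kFs' x y]
  near x hx y hy hxN hyN := by
    have h1 := (Finset.mem_filter.1 hxN).2
    have h2 := (Finset.mem_filter.1 hyN).2
    unfold pF
    rw [if_pos ⟨h1, h2⟩]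
    refine (kc1 (G := fun x y => rsc (H0T d L) M.b x y) (G' := fun x y => rsc (H0T d L) M'.b x y)
      (e := M.eta) (e' := M'.eta) (rho := fun _ => th / 16) (h.e0 x) (h.e0 y) h.th0 h.th1 le_rfl
      le_rfl (h.rho x hx h1) (h.rho y hy h2)).trans ?_
    refine le_of_eq ?_
    rfl
  far x _ y _ hn := by
    unfold pF
    rw [if_neg]
    intro h2
    exact hn ⟨Finset.mem_filter.2 ⟨mem_univ _, h2.1⟩, Finset.mem_filter.2 ⟨mem_univ _, h2.2⟩⟩
  row x hx := h.pi_row hx
  mrow x _ := (h.mrow x).le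
  up a := hu a

/-- sizes of the weights of the error near `c0` -/
structure Sz (M M' : Med (Tor d L)) (B Z : Finset (Tor d L)) (c0 : Tor d L) (r : ℕ) (th : ℝ)
    (rr : Tor d L → ℝ) (s0 W0 W20 : ℝ) : Prop where
  s00 : 0 ≤ s0
  sup : ∀ x ∈ M'.nr, x ∉ Z → dT x c0 ≤ r → om0 M B th rr x ≤ s0
  mass : ∑ x ∈ M'.nr.filter (fun x => dT x c0 ≤ r ∧ x ∉ Z), om0 M B th rr x ≤ W0
  massZ : ∑ x ∈ M'.nr.filter (fun x => dT x c0 ≤ r ∧ x ∈ Z), om0 M B th rr x ≤ W20

/-- the exponentially small number of the near sites -/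
def eN (d : ℕ) (q nu : ℝ) (r : ℕ) : ℝ := 4 * tT d q nu * Real.exp (-(nu / 2 * r))

/-- the constant of the far weights -/
def kN (d : ℕ) (q qd nu nB : ℝ) : ℝ := 4 * tT d q nu + 2 * (nB * qd)

/-- **(H4low), (H4up) after an insertion** -/
theorem h4_ins (hd : 3 ≤ d) {R : ℕ} (hrR : R ≤ 2 * r) (hr : r < R)
    (hR : 2 * R + 1 ≤ L) {l : ℝ} (hl : 1 ≤ l) (hlR : l ≤ 2 * R + 1) {s0 W0 W20 : ℝ}
    (hS : Sz M M' B Z c0 r th rr s0 W0 W20) {t t' : Tol d L}
    (hlow : ∀ u : Tor d L → ℝ, ∃ a : Tor d L → ℝ,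
      DW t.D a + ∑ x ∈ M.nr, M.eta x * (rsc (H0T d L) M.b x x).im * (u x - a x) ^ 2 /
        (1 + t.dl x) ≤ QF (H0T d L) M u)
    (hup : ∀ a : Tor d L → ℝ, QF (H0T d L) M a ≤ DW t.C0 a)
    {Cm nB : ℝ} (hC : ∀ i x, t.C0 i x ≤ Cm) (hCm : 0 ≤ Cm) (hdl : ∀ x ∈ M.nr, 0 ≤ t.dl x)
    (hnB : (B.card : ℝ) ≤ nB)
    (hD : ∀ i x, t'.D i x ≤ t.D i x - (thB d th Cm r R l (s0 + eN d q nu r)
      (W0 + (2 * r + 1) ^ d * eN d q nu r) (W20 + (2 * r + 1) ^ d * eN d q nu r) *
        bw c0 R i x + 2 * farw (kN d q qd nu nB) (nu / 2) r R c0 x))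
    (hC0 : ∀ i x, t.C0 i x + (thB d th Cm r R l (s0 + eN d q nu r)
      (W0 + (2 * r + 1) ^ d * eN d q nu r) (W20 + (2 * r + 1) ^ d * eN d q nu r) *
        bw c0 R i x + 2 * farw (kN d q qd nu nB) (nu / 2) r R c0 x) ≤ t'.C0 i x)
    (hsite : ∀ x ∈ M'.nr, M'.eta x * (rsc (H0T d L) M'.b x x).im / (1 + t'.dl x) ≤
      M.eta x * (rsc (H0T d L) M.b x x).im / (1 + t.dl x) -
        4 * th * (M.eta x * (rsc (H0T d L) M.b x x).im) * cut c0 r R x ^ 2 -
        omF M B c0 r th rr q nu x) :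
    (∀ u : Tor d L → ℝ, ∃ a : Tor d L → ℝ,
      DW t'.D a + ∑ x ∈ M'.nr, M'.eta x * (rsc (H0T d L) M'.b x x).im * (u x - a x) ^ 2 /
        (1 + t'.dl x) ≤ QF (H0T d L) M' u) ∧
      ∀ a : Tor d L → ℝ, QF (H0T d L) M' a ≤ DW t'.C0 a := by
  have hnu := h.nu0
  have hth := h.th0
  have hfc := h.fc hr hup
  have htT := tT_nonneg (d := d) h.q0 hnu
  have heN : 0 ≤ eN d q nu r := by
    unfold eN
    positivity
  have hnB0 : 0 ≤ nB := le_trans (Nat.cast_nonneg _) hnB
  have hqd := h.qd0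
  have hkN : 0 ≤ kN d q qd nu nB := by
    unfold kN
    positivity
  have hcard : ∀ Y : Finset (Tor d L), (∀ x ∈ Y, dT x c0 ≤ r) →
      (Y.card : ℝ) ≤ (2 * r + 1) ^ d := by
    intro Y hY
    have h1 : Y ⊆ univ.filter fun y : Tor d L => dT c0 y ≤ r := by
      intro y hy
      rw [mem_filter]
      refine ⟨mem_univ _, ?_⟩
      rw [(nmet_dT (d := d) (L := L)).symm]
      exact hY y hy
    have h2 := (card_le_card h1).trans (ANP.card_ball c0 r)
    calc (Y.card : ℝ) ≤ (((2 * r + 1) ^ d : ℕ) : ℝ) := by exact_mod_cast h2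
      _ = _ := by push_cast; ring
  have hom0 : ∀ x ∈ M'.nr, 0 ≤ omF M B c0 r th rr q nu x := fun x _ => h.om_nonneg x
  have hs : ∀ x ∈ M'.nr, x ∉ Z → dT x c0 ≤ r →
      omF M B c0 r th rr q nu x ≤ s0 + eN d q nu r := by
    intro x hx hxZ hxr
    rw [h.om_near hxr]
    have h1 := hS.sup x hx hxZ hxr
    have h2 := h.e1 x (h.sub hx)
    have h3 := mul_le_mul_of_nonneg_right h2 heN
    unfold eN at h3 ⊢
    linarith
  have hsum : ∀ (Y : Finset (Tor d L)) (W : ℝ), (∀ x ∈ Y, x ∈ M'.nr ∧ dT x c0 ≤ r) →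
      ∑ x ∈ Y, om0 M B th rr x ≤ W →
      ∑ x ∈ Y, omF M B c0 r th rr q nu x ≤ W + (2 * r + 1) ^ d * eN d q nu r := by
    intro Y W hY hW
    have h1 : ∑ x ∈ Y, omF M B c0 r th rr q nu x ≤
        ∑ x ∈ Y, (om0 M B th rr x + eN d q nu r) := by
      refine Finset.sum_le_sum fun x hx => ?_
      rw [h.om_near (hY x hx).2]
      have h2 := h.e1 x (h.sub (hY x hx).1)
      have h3 := mul_le_mul_of_nonneg_right h2 heN
      unfold eN at h3 ⊢
      linarith
    refine h1.trans ?_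
    rw [Finset.sum_add_distrib, Finset.sum_const, nsmul_eq_mul]
    exact add_le_add hW (mul_le_mul_of_nonneg_right (hcard Y fun x hx => (hY x hx).2) heN)
  have hW := hsum _ W0 (fun x hx => ⟨(mem_filter.1 hx).1, (mem_filter.1 hx).2.1⟩) hS.mass
  have hW2 := hsum _ W20 (fun x hx => ⟨(mem_filter.1 hx).1, (mem_filter.1 hx).2.1⟩) hS.massZ
  have hfar : ∀ x ∈ M'.nr, r < dT x c0 → omF M B c0 r th rr q nu x ≤
      kN d q qd nu nB * Real.exp (-(nu / 2 * dT x c0)) := by
    intro x hx hxr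
    refine (h.om_far hx hxr).trans ?_
    have h2 := h.e1 x (h.sub hx)
    have h3 : 0 ≤ (4 * tT d q nu + 2 * (B.card * qd)) * Real.exp (-(nu / 2 * dT x c0)) := by
      positivity
    have h4 := mul_le_mul_of_nonneg_right h2 h3
    rw [one_mul] at h4
    refine h4.trans (mul_le_mul_of_nonneg_right ?_ (Real.exp_pos _).le)
    unfold kN
    have := mul_le_mul_of_nonneg_right hnB hqd
    linarith
  have hs0 : 0 ≤ s0 + eN d q nu r := add_nonneg hS.s00 heN
  constructor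
  · have hFL := hfc.FL (be := beF M B)
      (mt := fun x => M.eta x * (rsc (H0T d L) M.b x x).im / (1 + t.dl x)) (E1 := DW t.D)
      (fun x _ => by
        have h1 : M.nr \ M'.nr = B := by
          rw [h.nr, Finset.sdiff_sdiff_eq_self h.Bn]
        rw [h1]
        exact le_rfl)
      (fun x hx => by
        have h1 := h.e0 x
        have h2 : 0 ≤ (rsc (H0T d L) M.b x x).im := (ANL.ward_nonneg h.adm x)
        have h3 := hdl x hx
        positivity)
      (fun u => by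
        obtain ⟨a, ha⟩ := hlow u
        refine ⟨a, ?_⟩
        rw [← QF_QK]
        refine le_trans (le_of_eq ?_) ha
        congr 1
        refine Finset.sum_congr rfl fun x _ => ?_
        ring)
    have hmain := low_T hd c0 hrR hr hR hl hlR M'.nr Z (Kt := kN d q qd nu nB) (mu := nu / 2) hkN
      (by linarith) (by linarith [h.nu1]) hs0 hom0 hs hW hW2 hfar (D := t.D) (C0 := t.C0)
      (D' := t'.D) hth.le hC hCm
      (m := fun x => M.eta x * (rsc (H0T d L) M.b x x).im)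
      (mt := fun x => M.eta x * (rsc (H0T d L) M.b x x).im / (1 + t.dl x))
      (m2 := fun x => M'.eta x * (rsc (H0T d L) M'.b x x).im / (1 + t'.dl x))
      (Q := QF (H0T d L) M')
      (fun u => by
        obtain ⟨a, ha⟩ := hFL u
        refine ⟨a, fun c => (ha c).trans (le_of_eq ?_)⟩
        rw [QF_QK]
        congr 1
        refine Finset.sum_congr rfl fun x _ => ?_
        unfold omF
        ring)
      hsite hD
    intro u
    obtain ⟨a, ha⟩ := hmain u
    refine ⟨a, le_trans (le_of_eq ?_) ha⟩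
    congr 1
    refine Finset.sum_congr rfl fun x _ => ?_
    ring
  · refine up_T hd c0 hrR hr hR hl hlR M'.nr Z (Kt := kN d q qd nu nB) (mu := nu / 2) hkN
      (by linarith) (by linarith [h.nu1]) hs0 hom0 hs hW hW2 hfar hth.le hC hCm
      (Q := QF (H0T d L) M') ?_ hC0
    intro a c
    have h1 := hfc.FU a c
    rw [QF_QK]
    refine h1.trans ?_
    have h2 := hup a
    rw [QF_QK] at h2
    have h3 : 2 * ∑ x ∈ M'.nr, piF M c0 r th rr q nu x * (a x - c) ^ 2 ≤
        ∑ x ∈ M'.nr, omF M B c0 r th rr q nu x * (a x - c) ^ 2 := by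
      rw [Finset.mul_sum]
      refine Finset.sum_le_sum fun x _ => ?_
      rw [← mul_assoc]
      refine mul_le_mul_of_nonneg_right ?_ (sq_nonneg _)
      unfold omF
      have h4 := h.be0 x
      have h5 : 0 ≤ piF M c0 r th rr q nu x := by
        unfold piF
        have h6 := h.e0 x
        have h7 := h.rw0 x
        split_ifs <;> positivity
      linarith
    linarith

end InsK

end Pool.Agent.ANI
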