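import Pool.Agent.ANI.FormT2

/-! # ANI FORMT 3: the form bounds after an insertion for the schedule `AND.tolAt` (helper87)

`c` = corner of a cell of side `s`, near region `dT x c ≤ 2 s` as in `AND.ph`; `c0 = c`, `r = s + s/2`, `R = 2 s`; the removed
sites satisfy `7 dT y c ≤ 6 r`.  `NumI`: the numerical inequalities.
* `h4_ins_tolAt`: (H4low), (H4up) for `tolAt P Sf n (F.ins P n s m {c}) π' v' M'`, `1 ≤ m`.
-/

open Matrix Finset

noncomputable section

namespace Pool.Agent.ANI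

open Pool.Agent.Kin Pool.Agent.APS Pool.Agent.ANF.Heat Pool.Agent.ANP Pool.Agent.ANM Pool.Agent.AND

/-- one site: the change of `dl` absorbs a relative change `ρ` of `m` and an error `e m` -/
theorem site_ins {m' m D dl' E e ρ : ℝ} (hm0 : 0 < m) (hD0 : 0 ≤ D) (hD1 : D ≤ 1)
    (hρ : 0 ≤ ρ) (he : 0 ≤ e) (h1 : 2 * ρ + 6 * e ≤ 1) (hm : m' ≤ (1 + ρ) * m)
    (hE : E ≤ e * m) (hdl : D + (2 * ρ + 6 * e) ≤ dl') :
    m' / (1 + dl') ≤ m / (1 + D) - E := by
  obtain ⟨t, ht⟩ : ∃ t, t = 2 * ρ + 6 * e := ⟨_, rfl⟩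
  have ht0 : 0 ≤ t := by rw [ht]; positivity
  have a1 : m' / (1 + dl') ≤ (1 + ρ) * m / (1 + D + t) := by
    rw [div_le_div_iff₀ (by linarith) (by linarith)]
    have h2 : 1 + D + t ≤ 1 + dl' := by linarith
    have h3 : 0 ≤ (1 + ρ) * m := by positivity
    calc m' * (1 + D + t) ≤ (1 + ρ) * m * (1 + D + t) :=
          mul_le_mul_of_nonneg_right hm (by linarith)
      _ ≤ (1 + ρ) * m * (1 + dl') := mul_le_mul_of_nonneg_left h2 h3
  have a2 : (1 + ρ) * m / (1 + D + t) + e * m ≤ m / (1 + D) := by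
    have p1 : 0 < 1 + D := by linarith
    have p2 : 0 < 1 + D + t := by linarith
    have key : (1 + ρ) / (1 + D + t) + e ≤ 1 / (1 + D) := by
      rw [div_add' _ _ _ p2.ne', div_le_div_iff₀ p2 p1]
      have q1 : (1 + D) * (1 + D + t) ≤ 6 := by nlinarith
      have q2 : e * ((1 + D) * (1 + D + t)) ≤ e * 6 := mul_le_mul_of_nonneg_left q1 he
      have q3 : ρ * (1 + D) ≤ ρ * 2 := mul_le_mul_of_nonneg_left (by linarith) hρ
      nlinarith
    have := mul_le_mul_of_nonneg_right key hm0.le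
    calc (1 + ρ) * m / (1 + D + t) + e * m = ((1 + ρ) / (1 + D + t) + e) * m := by ring
      _ ≤ 1 / (1 + D) * m := this
      _ = m / (1 + D) := by ring
  linarith

/-- loss of the near bonds -/
def edB (d s : ℕ) (th Cm l s0 W0 W20 q nu : ℝ) : ℝ :=
  2 * th * Cm * (2 + 144 * d ^ 2) +
    (2 * CH d * ((s0 + InsK.eN d q nu (s + s / 2)) * l ^ 2 +
      (W0 + (3 * s + 1) ^ d * InsK.eN d q nu (s + s / 2)) * rho d l) +
      4 * CH d * (W20 + (3 * s + 1) ^ d * InsK.eN d q nu (s + s / 2)))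

/-- loss of the far bonds -/
def edF (d s : ℕ) (q qd nu nB : ℝ) : ℝ :=
  InsK.kN d q qd nu nB * (64 * d / (nu / 2) * sumC d 0 (nu / 2 / 16) +
    2 * d * (2 * ((2 * s : ℕ) : ℝ) + 1) * sumC d 0 (nu / 2 / 4)) *
    Real.exp (-(nu / 2 / 2 * ((s + s / 2 : ℕ) : ℝ)))

/-- numerical inequalities of an insertion; `mn` = lower bound of `ι` (no lower bound of the absorption is needed) -/
structure NumI (d s n : ℕ) (P : Par) (th Cm l s0 W0 W20 q qd nu nB mn srel cρ ce cm : ℝ) :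
    Prop where
  s2 : 2 ≤ s
  ka0 : 0 < P.kap n
  ka1 : P.kap n ≤ 1
  eta0 : 0 ≤ P.eta
  vi0 : 0 ≤ P.vi
  b0 : 0 ≤ P.b
  bmu : P.b * P.kap n ≤ nu / 16
  Cm0 : 0 ≤ Cm
  l1 : 1 ≤ l
  lR : l ≤ 4 * s + 1
  s00 : 0 ≤ s0
  W00 : 0 ≤ W0
  W200 : 0 ≤ W20
  nD : edB d s th Cm l s0 W0 W20 q nu + 2 * edF d s q qd nu nB ≤
    P.D0 * P.CD * P.kap n ^ P.vi
  nC : edB d s th Cm l s0 W0 W20 q nu + 2 * edF d s q qd nu nB ≤
    P.C00 * P.CD * P.kap n ^ P.vi
  DC0 : 0 ≤ P.D0 * P.CD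
  CC0 : 0 ≤ P.C00 * P.CD
  dS0 : 0 ≤ P.dS
  mn0 : 0 < mn
  nE : 4 * th + srel + InsK.kN d q qd nu nB * Real.exp (-(nu / 4 * ((s + s / 2 : ℕ) : ℝ))) / mn ≤
    ce * P.kap n ^ P.vi
  sr0 : 0 ≤ srel
  cr0 : 0 ≤ cρ
  Ce0 : 0 ≤ P.Ce
  cA : 3 * cρ + 6 * ce ≤ P.Ce * cm
  cS : 2 * cρ + 6 * ce ≤ P.dS
  c1 : 2 * cρ + 6 * ce ≤ 1

variable {d L : ℕ} [NeZero L]

omit [NeZero L] in
theorem phi_nonneg {κ v b : ℝ} (hκ : 0 < κ) (s : ℕ) (x c : Tor d L) : 0 ≤ ph κ v b s x c := by
  unfold ph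
  split_ifs
  · positivity
  · exact (Real.exp_pos _).le

omit [NeZero L] in
theorem phi_le_one {κ v b : ℝ} (hκ : 0 < κ) (hκ1 : κ ≤ 1) (hv : 0 ≤ v) (hb : 0 ≤ b) (s : ℕ)
    (x c : Tor d L) : ph κ v b s x c ≤ 1 := by
  unfold ph
  split_ifs
  · exact Real.rpow_le_one hκ.le hκ1 hv
  · rw [Real.exp_le_one_iff]
    have : (0 : ℝ) ≤ (dT x c : ℝ) := Nat.cast_nonneg _
    have := mul_nonneg (mul_nonneg hb hκ.le) this
    linarith

/-- `9 d² R²/(R-r)² ≤ 144 d²` -/
theorem cc_two {s : ℕ} (hs : 2 ≤ s) (d : ℕ) :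
    2 + 9 * (d : ℝ) ^ 2 * ((2 * s : ℕ) : ℝ) ^ 2 /
      (((2 * s : ℕ) : ℝ) - ((s + s / 2 : ℕ) : ℝ)) ^ 2 ≤ 2 + 144 * d ^ 2 := by
  have h1 : ((2 * s : ℕ) : ℝ) - ((s + s / 2 : ℕ) : ℝ) ≥ (s : ℝ) / 2 := by
    have : 2 * (s / 2) ≤ s := by omega
    have h2 : 2 * ((s / 2 : ℕ) : ℝ) ≤ s := by exact_mod_cast this
    push_cast
    linarith
  have hs0 : (0 : ℝ) < s := by
    have : (2 : ℝ) ≤ s := by exact_mod_cast hs
    linarith
  have h3 : 0 < ((2 * s : ℕ) : ℝ) - ((s + s / 2 : ℕ) : ℝ) := by linarith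
  have h4 : 9 * (d : ℝ) ^ 2 * ((2 * s : ℕ) : ℝ) ^ 2 / (((2 * s : ℕ) : ℝ) - ((s + s / 2 : ℕ) : ℝ)) ^ 2
      ≤ 144 * d ^ 2 := by
    rw [div_le_iff₀ (by positivity)]
    have h5 : ((s : ℝ) / 2) ^ 2 ≤ (((2 * s : ℕ) : ℝ) - ((s + s / 2 : ℕ) : ℝ)) ^ 2 :=
      pow_le_pow_left₀ (by positivity) h1 2
    have h6 : 144 * (d : ℝ) ^ 2 * ((s : ℝ) / 2) ^ 2 ≤
        144 * (d : ℝ) ^ 2 * (((2 * s : ℕ) : ℝ) - ((s + s / 2 : ℕ) : ℝ)) ^ 2 :=
      mul_le_mul_of_nonneg_left h5 (by positivity)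
    refine le_trans (le_of_eq ?_) h6
    push_cast
    ring
  linarith

variable {M M' : Med (Tor d L)} {B Z : Finset (Tor d L)} {c : Tor d L} {s n : ℕ} {th : ℝ}
  {rr : Tor d L → ℝ} {q qd nu : ℝ} {P : Par} {Cm l s0 W0 W20 nB mn srel cρ ce cm : ℝ}

section num

variable (h : InsK M M' B c (s + s / 2) th rr q qd nu)
  (hN : NumI d s n P th Cm l s0 W0 W20 q qd nu nB mn srel cρ ce cm)

include h hN

omit h in
theorem kv1 : P.kap n ^ P.vi ≤ 1 := Real.rpow_le_one hN.ka0.le hN.ka1 hN.vi0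

omit hN in
theorem kN0 (hnB : 0 ≤ nB) : 0 ≤ InsK.kN d q qd nu nB := by
  have h1 := tT_nonneg (d := d) h.q0 h.nu0
  have h2 := h.qd0
  unfold InsK.kN
  positivity

omit hN in
theorem edF0 (hnB : 0 ≤ nB) : 0 ≤ edF d s q qd nu nB := by
  have h1 := kN0 (nB := nB) h hnB
  have hnu := h.nu0
  have s1 := sumC_nonneg d 0 (mu := nu / 2 / 16) (by positivity)
  have s2 := sumC_nonneg d 0 (mu := nu / 2 / 4) (by positivity)
  unfold edF
  positivity

theorem ce0 (hnB : 0 ≤ nB) : 0 ≤ ce := by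
  have h1 := kN0 (nB := nB) h hnB
  have h2 := hN.mn0
  have h3 := hN.nE
  have h4 := h.th0
  have h5 := hN.sr0
  have h6 : 0 < P.kap n ^ P.vi := Real.rpow_pos_of_pos hN.ka0 _
  have h7 : 0 ≤ InsK.kN d q qd nu nB * Real.exp (-(nu / 4 * ((s + s / 2 : ℕ) : ℝ))) / mn := by
    positivity
  by_contra hc
  have := mul_neg_of_neg_of_pos (not_le.1 hc) h6
  linarith

omit h in
theorem exp_nu (x : Tor d L) :
    Real.exp (-(nu / 16 * dT x c)) ≤ Real.exp (-(P.b * P.kap n * dT x c)) := by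
  rw [Real.exp_le_exp, neg_le_neg_iff]
  exact mul_le_mul_of_nonneg_right hN.bmu (Nat.cast_nonneg _)

omit h hN in
theorem thB_le (hth : 0 ≤ th) (hCm : 0 ≤ Cm) (hs : 2 ≤ s) {s1 w1 w2 w1' w2' : ℝ} (hw1 : w1 ≤ w1')
    (hw2 : w2 ≤ w2') (hl : 0 ≤ l) :
    thB d th Cm (s + s / 2) (2 * s) l s1 w1 w2 ≤ 2 * th * Cm * (2 + 144 * d ^ 2) +
      (2 * CH d * (s1 * l ^ 2 + w1' * rho d l) + 4 * CH d * w2') := by
  unfold thB
  have h1 : 0 ≤ CH d := by unfold CH; positivity
  have h2 : 0 ≤ rho d l := by unfold rho; positivity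
  have h3 := cc_two hs d
  refine add_le_add (mul_le_mul_of_nonneg_left h3 (by positivity)) (add_le_add ?_ ?_)
  · refine mul_le_mul_of_nonneg_left ?_ (by positivity)
    have := mul_le_mul_of_nonneg_right hw1 h2
    linarith
  · exact mul_le_mul_of_nonneg_left hw2 (by positivity)

/-- the loss of all bonds -/
theorem edge (hnB : 0 ≤ nB) {Y : ℝ} (hY : edB d s th Cm l s0 W0 W20 q nu +
      2 * edF d s q qd nu nB ≤ Y * P.kap n ^ P.vi) (i : Fin d) (x : Tor d L) :
    thB d th Cm (s + s / 2) (2 * s) l (s0 + InsK.eN d q nu (s + s / 2))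
      (W0 + (2 * ((s + s / 2 : ℕ) : ℝ) + 1) ^ d * InsK.eN d q nu (s + s / 2))
      (W20 + (2 * ((s + s / 2 : ℕ) : ℝ) + 1) ^ d * InsK.eN d q nu (s + s / 2)) *
        bw c (2 * s) i x + 2 * farw (InsK.kN d q qd nu nB) (nu / 2) (s + s / 2) (2 * s) c x ≤
      Y * ph (P.kap n) P.vi P.b s x c := by
  have hnu := h.nu0
  have hF0 := edF0 (s := s) (nB := nB) h hnB
  have he0 : 0 ≤ InsK.eN d q nu (s + s / 2) := by
    have h1 := tT_nonneg (d := d) h.q0 h.nu0
    unfold InsK.eN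
    positivity
  have h2r : (2 * ((s + s / 2 : ℕ) : ℝ) + 1) ^ d ≤ (3 * (s : ℝ) + 1) ^ d := by
    refine pow_le_pow_left₀ (by positivity) ?_ d
    have h1 : 2 * (s + s / 2) ≤ 3 * s := by omega
    have h2 : (2 * ((s + s / 2 : ℕ) : ℝ)) ≤ 3 * s := by exact_mod_cast h1
    linarith
  have hl0 : 0 ≤ l := by linarith [hN.l1]
  have hB := thB_le (d := d) (s := s) (th := th) (Cm := Cm) (l := l)
    (s1 := s0 + InsK.eN d q nu (s + s / 2)) h.th0.le hN.Cm0 hN.s2
    (add_le_add (le_refl W0) (mul_le_mul_of_nonneg_right h2r he0))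
    (add_le_add (le_refl W20) (mul_le_mul_of_nonneg_right h2r he0)) hl0
  have hfar : farw (InsK.kN d q qd nu nB) (nu / 2) (s + s / 2) (2 * s) c x =
      edF d s q qd nu nB * Real.exp (-(nu / 16 * dT x c)) := by
    unfold farw edF
    have : nu / 2 / 8 = nu / 16 := by ring
    rw [this]
  rw [hfar]
  set tb := thB d th Cm (s + s / 2) (2 * s) l (s0 + InsK.eN d q nu (s + s / 2))
      (W0 + (2 * ((s + s / 2 : ℕ) : ℝ) + 1) ^ d * InsK.eN d q nu (s + s / 2))
      (W20 + (2 * ((s + s / 2 : ℕ) : ℝ) + 1) ^ d * InsK.eN d q nu (s + s / 2)) with htb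
  have hB' : tb ≤ edB d s th Cm l s0 W0 W20 q nu := hB
  have hkv : 0 < P.kap n ^ P.vi := Real.rpow_pos_of_pos hN.ka0 _
  have hexp1 : Real.exp (-(nu / 16 * dT x c)) ≤ 1 := by
    rw [Real.exp_le_one_iff]
    have : (0 : ℝ) ≤ (dT x c : ℝ) := Nat.cast_nonneg _
    have := mul_nonneg (by positivity : 0 ≤ nu / 16) this
    linarith
  have hedB : 0 ≤ edB d s th Cm l s0 W0 W20 q nu := by
    have h1 : 0 ≤ CH d := by unfold CH; positivity
    have h2 : 0 ≤ rho d l := by unfold rho; positivity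
    have h3 := hN.s00
    have h4 := hN.W00
    have h5 := hN.W200
    have h6 := h.th0
    have h7 := hN.Cm0
    unfold edB
    positivity
  have hY0 : 0 ≤ Y := by
    by_contra hc
    have := mul_neg_of_neg_of_pos (not_le.1 hc) hkv
    linarith
  unfold ph
  split_ifs with hx
  · have h5 : 2 * (edF d s q qd nu nB * Real.exp (-(nu / 16 * dT x c))) ≤
        2 * edF d s q qd nu nB := by
      have := mul_le_mul_of_nonneg_left hexp1 hF0
      linarith
    have h6 : tb * bw c (2 * s) i x ≤ edB d s th Cm l s0 W0 W20 q nu := by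
      unfold bw
      split_ifs
      · rw [mul_one]
        exact hB'
      · rw [mul_zero]
        exact hedB
    linarith
  · have h6 : bw c (2 * s) i x = 0 := by
      unfold bw
      rw [if_neg]
      rintro ⟨h7, _⟩
      exact hx (mem_ballF.1 h7)
    rw [h6, mul_zero, zero_add]
    have h8 : 2 * edF d s q qd nu nB ≤ Y := by
      have h9 := mul_le_mul_of_nonneg_left (kv1 hN) hY0
      linarith
    calc 2 * (edF d s q qd nu nB * Real.exp (-(nu / 16 * dT x c)))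
        = (2 * edF d s q qd nu nB) * Real.exp (-(nu / 16 * dT x c)) := by ring
      _ ≤ Y * Real.exp (-(nu / 16 * dT x c)) :=
          mul_le_mul_of_nonneg_right h8 (Real.exp_pos _).le
      _ ≤ Y * Real.exp (-(P.b * P.kap n * dT x c)) :=
          mul_le_mul_of_nonneg_left (exp_nu hN x) hY0

/-- the errors of the sites -/
theorem siteE (hnB0 : 0 ≤ nB) (hnB : (B.card : ℝ) ≤ nB)
    (hrel : ∀ x ∈ M'.nr, dT x c ≤ s + s / 2 → om0 M B th rr x ≤
      srel * (M.eta x * (rsc (H0T d L) M.b x x).im))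
    (hm00 : ∀ x ∈ M'.nr, 0 < M.eta x * (rsc (H0T d L) M.b x x).im)
    (hmn : ∀ x ∈ M'.nr, M.eta x * mn ≤ M.eta x * (rsc (H0T d L) M.b x x).im) {x : Tor d L}
    (hx : x ∈ M'.nr) :
    4 * th * (M.eta x * (rsc (H0T d L) M.b x x).im) * cut c (s + s / 2) (2 * s) x ^ 2 +
      omF M B c (s + s / 2) th rr q nu x ≤
      ce * ph (P.kap n) P.vi P.b s x c * (M.eta x * (rsc (H0T d L) M.b x x).im) := by
  have hm0 := hm00 x hx
  obtain ⟨m, hm⟩ : ∃ m, m = M.eta x * (rsc (H0T d L) M.b x x).im := ⟨_, rfl⟩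
  have hmx := hmn x hx
  have hrx := hrel x hx
  rw [← hm] at hmx hrx hm0 ⊢
  have hmn0 := hN.mn0
  have hnu := h.nu0
  have hth := h.th0
  have hex := h.e0 x
  have hkN := kN0 (nB := nB) h hnB0
  have hsr := hN.sr0
  set k := InsK.kN d q qd nu nB with hk
  set E := Real.exp (-(nu / 4 * ((s + s / 2 : ℕ) : ℝ))) with hE
  have hE0 : 0 < E := Real.exp_pos _
  have hkE : M.eta x * (k * E) ≤ k * E / mn * m := by
    rw [div_mul_eq_mul_div, le_div_iff₀ hmn0]
    have := mul_le_mul_of_nonneg_left hmx (by positivity : 0 ≤ k * E)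
    linarith
  have hcut0 := cut_nonneg c (s + s / 2) (2 * s) x
  have hcut1 := cut_le_one c (s + s / 2) (2 * s) x
  have hcut2 : cut c (s + s / 2) (2 * s) x ^ 2 ≤ 1 := by nlinarith
  have h4 : 4 * th * m * cut c (s + s / 2) (2 * s) x ^ 2 ≤ 4 * th * m := by
    have := mul_le_mul_of_nonneg_left hcut2 (by positivity : 0 ≤ 4 * th * m)
    linarith
  have hnE := hN.nE
  rw [← hk, ← hE] at hnE
  have hfarE : ∀ y : ℕ, s + s / 2 ≤ y →
      Real.exp (-(nu / 2 * (y : ℝ))) ≤ E * Real.exp (-(nu / 16 * (y : ℝ))) := by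
    intro y hy
    rw [hE, ← Real.exp_add, Real.exp_le_exp]
    have h5 : (((s + s / 2 : ℕ) : ℝ)) ≤ y := by exact_mod_cast hy
    have h6 : (0 : ℝ) ≤ y := Nat.cast_nonneg _
    have h7 := mul_le_mul_of_nonneg_left h5 (by positivity : 0 ≤ nu / 4)
    have h8 : 0 ≤ nu * (y : ℝ) := by positivity
    nlinarith
  by_cases h1 : dT x c ≤ s + s / 2
  · -- near
    have h2 : dT x c ≤ 2 * s := by omega
    unfold ph
    rw [if_pos h2, h.om_near h1]
    have h3 := hrx h1
    have h5 : M.eta x * (4 * tT d q nu * Real.exp (-(nu / 2 * ((s + s / 2 : ℕ) : ℝ)))) ≤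
        M.eta x * (k * E) := by
      refine mul_le_mul_of_nonneg_left ?_ hex
      have h6 := hfarE (s + s / 2) le_rfl
      have h7 : Real.exp (-(nu / 2 * ((s + s / 2 : ℕ) : ℝ))) ≤ E := by
        refine h6.trans ?_
        have : Real.exp (-(nu / 16 * ((s + s / 2 : ℕ) : ℝ))) ≤ 1 := by
          rw [Real.exp_le_one_iff]
          have : (0 : ℝ) ≤ ((s + s / 2 : ℕ) : ℝ) := Nat.cast_nonneg _
          have := mul_nonneg (by positivity : 0 ≤ nu / 16) this
          linarith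
        have := mul_le_mul_of_nonneg_left this hE0.le
        linarith
      have h8 := tT_nonneg (d := d) h.q0 hnu
      have h9 : 4 * tT d q nu ≤ k := by
        have := h.qd0
        rw [hk]
        unfold InsK.kN
        have : 0 ≤ 2 * (nB * qd) := by positivity
        linarith
      exact mul_le_mul h9 h7 (Real.exp_pos _).le hkN
    have h6 : (4 * th + srel + k * E / mn) * m ≤ ce * P.kap n ^ P.vi * m :=
      mul_le_mul_of_nonneg_right hnE hm0.le
    have h7 : (4 * th + srel + k * E / mn) * m = 4 * th * m + srel * m + k * E / mn * m := by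
      ring
    linarith
  · have h1' : s + s / 2 < dT x c := not_le.1 h1
    have h3 := h.om_far hx h1'
    have h3' : omF M B c (s + s / 2) th rr q nu x ≤
        M.eta x * (k * Real.exp (-(nu / 2 * dT x c))) := by
      refine h3.trans (mul_le_mul_of_nonneg_left
        (mul_le_mul_of_nonneg_right ?_ (Real.exp_pos _).le) hex)
      rw [hk]
      unfold InsK.kN
      have := mul_le_mul_of_nonneg_right hnB h.qd0
      linarith
    have h5 := hfarE (dT x c) h1'.le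
    have h6 : omF M B c (s + s / 2) th rr q nu x ≤
        k * E / mn * m * Real.exp (-(nu / 16 * dT x c)) := by
      refine h3'.trans ((mul_le_mul_of_nonneg_left (mul_le_mul_of_nonneg_left h5 hkN)
        hex).trans ?_)
      have := mul_le_mul_of_nonneg_right hkE (Real.exp_pos (-(nu / 16 * (dT x c : ℝ)))).le
      linarith
    by_cases h2 : dT x c ≤ 2 * s
    · unfold ph
      rw [if_pos h2]
      have h7 : Real.exp (-(nu / 16 * (dT x c : ℝ))) ≤ 1 := by
        rw [Real.exp_le_one_iff]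
        have : (0 : ℝ) ≤ (dT x c : ℝ) := Nat.cast_nonneg _
        have := mul_nonneg (by positivity : 0 ≤ nu / 16) this
        linarith
      have h8 : k * E / mn * m * Real.exp (-(nu / 16 * dT x c)) ≤ k * E / mn * m := by
        have := mul_le_mul_of_nonneg_left h7 (by positivity : 0 ≤ k * E / mn * m)
        linarith
      have h9 : (4 * th + srel + k * E / mn) * m ≤ ce * P.kap n ^ P.vi * m :=
        mul_le_mul_of_nonneg_right hnE hm0.le
      have h10 : 0 ≤ srel * m := by positivity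
      have h11 : (4 * th + srel + k * E / mn) * m = 4 * th * m + srel * m + k * E / mn * m := by
        ring
      linarith
    · unfold ph
      rw [if_neg h2]
      have h7 : cut c (s + s / 2) (2 * s) x = 0 := by
        refine cut_eq_zero ?_ ?_
        · have := hN.s2
          omega
        · omega
      rw [h7]
      have h8 : k * E / mn ≤ ce := by
        have h9 := mul_le_mul_of_nonneg_left (kv1 hN) (ce0 h hN hnB0)
        have h10 : 0 ≤ 4 * th := by positivity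
        linarith
      have h11 := exp_nu (c := c) hN x
      have h12 : k * E / mn * m * Real.exp (-(nu / 16 * dT x c)) ≤
          ce * m * Real.exp (-(P.b * P.kap n * dT x c)) := by
        refine mul_le_mul (mul_le_mul_of_nonneg_right h8 hm0.le) h11 (Real.exp_pos _).le ?_
        exact mul_nonneg (ce0 h hN hnB0) hm0.le
      have h13 : (4 : ℝ) * th * m * 0 ^ 2 = 0 := by ring
      rw [h13, zero_add]
      linarith

end num

/-- **(H4low), (H4up) after an insertion for the schedule** -/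
theorem h4_ins_tolAt (hd : 3 ≤ d) {X : Type} {Sf : SiteF X} {F : Fld (Tor d L)}
    {π π' : Prof (Tor d L)} {v v' : Tor d L → X} {mi : ℕ} (hmi : 1 ≤ mi)
    (h : InsK M M' B c (s + s / 2) th rr q qd nu)
    (hN : NumI d s n P th Cm l s0 W0 W20 q qd nu nB mn srel cρ ce cm)
    (hS : InsK.Sz M M' B Z c (s + s / 2) th rr s0 W0 W20)
    (hL : 4 * s + 1 ≤ L) (hA : M'.A = M.A \ B) (hnB : (B.card : ℝ) ≤ nB)
    (hl : ∀ u : Tor d L → ℝ, ∃ a : Tor d L → ℝ,
      DW (tolAt P Sf n F π v M).D a +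
        ∑ x ∈ M.nr, M.eta x * (rsc (H0T d L) M.b x x).im * (u x - a x) ^ 2 /
        (1 + (tolAt P Sf n F π v M).dl x) ≤ QF (H0T d L) M u)
    (hu : ∀ a : Tor d L → ℝ, QF (H0T d L) M a ≤ DW (tolAt P Sf n F π v M).C0 a)
    (hC : ∀ i x, (tolAt P Sf n F π v M).C0 i x ≤ Cm)
    (hdl0 : ∀ x, 0 ≤ (tolAt P Sf n F π v M).dl x)
    (hdl1 : ∀ x ∈ M.nr, (tolAt P Sf n F π v M).dl x ≤ 1)
    (hrel : ∀ x ∈ M'.nr, dT x c ≤ s + s / 2 → om0 M B th rr x ≤
      srel * (M.eta x * (rsc (H0T d L) M.b x x).im))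
    (hm00 : ∀ x ∈ M'.nr, 0 < M.eta x * (rsc (H0T d L) M.b x x).im)
    (hmn : ∀ x ∈ M'.nr, M.eta x * mn ≤ M.eta x * (rsc (H0T d L) M.b x x).im)
    (hρ : ∀ x ∈ M'.nr, |M'.eta x * (rsc (H0T d L) M'.b x x).im -
      M.eta x * (rsc (H0T d L) M.b x x).im| ≤
      cρ * ph (P.kap n) P.vi P.b s x c * (M.eta x * (rsc (H0T d L) M.b x x).im))
    (hcm : ∀ x ∈ M'.A, x ∈ M'.nr → cm * (P.eta + P.kap n) ≤
      M'.eta x * (rsc (H0T d L) M'.b x x).im) :
    (∀ u : Tor d L → ℝ, ∃ a : Tor d L → ℝ,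
      DW (tolAt P Sf n (F.ins P n s mi {c}) π' v' M').D a +
        ∑ x ∈ M'.nr, M'.eta x * (rsc (H0T d L) M'.b x x).im * (u x - a x) ^ 2 /
        (1 + (tolAt P Sf n (F.ins P n s mi {c}) π' v' M').dl x) ≤ QF (H0T d L) M' u) ∧
    ∀ a : Tor d L → ℝ,
      QF (H0T d L) M' a ≤ DW (tolAt P Sf n (F.ins P n s mi {c}) π' v' M').C0 a := by
  have hnB0 : 0 ≤ nB := le_trans (Nat.cast_nonneg _) hnB
  have hs2 := hN.s2
  have hmi' : (1 : ℝ) ≤ mi := by exact_mod_cast hmi
  have herr : ∀ x, (F.ins P n s mi {c}).err x = F.err x + mi * ph (P.kap n) P.vi P.b s x c := by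
    intro x
    simp [Fld.ins]
  have hae : ∀ x, (F.ins P n s mi {c}).ae x =
      F.ae x + (P.eta + P.kap n)⁻¹ * (mi * ph (P.kap n) P.vi P.b s x c) := by
    intro x
    simp [Fld.ins]
  have hphm : ∀ x, ph (P.kap n) P.vi P.b s x c ≤ mi * ph (P.kap n) P.vi P.b s x c := by
    intro x
    have := phi_nonneg (v := P.vi) (b := P.b) hN.ka0 s x c
    nlinarith
  have hcast : ((2 * s : ℕ) : ℝ) = 2 * (s : ℝ) := by push_cast; ring
  refine h.h4_ins (Z := Z) hd (R := 2 * s) (by omega) (by omega) (by omega) hN.l1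
    (by rw [hcast]; linarith [hN.lR]) hS (t := tolAt P Sf n F π v M)
    (t' := tolAt P Sf n (F.ins P n s mi {c}) π' v' M') hl hu hC hN.Cm0
    (fun x _ => hdl0 x) hnB (fun i x => ?_) (fun i x => ?_) (fun x hx => ?_)
  · have h1 := edge h hN hnB0 hN.nD i x
    show P.D0 * (1 - P.CD * (F.ins P n s mi {c}).err x) ≤ P.D0 * (1 - P.CD * F.err x) - _
    rw [herr x]
    have h2 := mul_le_mul_of_nonneg_left (hphm x) hN.DC0
    linarith
  · have h1 := edge h hN hnB0 hN.nC i x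
    show P.C00 * (1 + P.CD * F.err x) + _ ≤ P.C00 * (1 + P.CD * (F.ins P n s mi {c}).err x)
    rw [herr x]
    have h2 := mul_le_mul_of_nonneg_left (hphm x) hN.CC0
    linarith
  · have h1 := siteE h hN hnB0 hnB hrel hm00 hmn hx
    have hm0 := hm00 x hx
    obtain ⟨p, hp⟩ : ∃ p, p = ph (P.kap n) P.vi P.b s x c := ⟨_, rfl⟩
    have hp0 : 0 ≤ p := by rw [hp]; exact phi_nonneg hN.ka0 s x c
    have hp1 : p ≤ 1 := by rw [hp]; exact phi_le_one hN.ka0 hN.ka1 hN.vi0 hN.b0 s x c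
    have hρx := hρ x hx
    have hcmx := fun hxA => hcm x hxA hx
    obtain ⟨m, hm⟩ : ∃ m, m = M.eta x * (rsc (H0T d L) M.b x x).im := ⟨_, rfl⟩
    obtain ⟨m', hm'⟩ : ∃ m', m' = M'.eta x * (rsc (H0T d L) M'.b x x).im := ⟨_, rfl⟩
    rw [← hp, ← hm] at h1
    rw [← hp, ← hm, ← hm'] at hρx
    rw [← hm'] at hcmx
    rw [← hm] at hm0
    rw [← hm', ← hm]
    have hce := ce0 h hN hnB0
    have hcr := hN.cr0
    have hc1 := hN.c1
    have hxX := h.sub hx
    have hxB : x ∉ B := by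
      have := hx
      rw [h.nr] at this
      exact (Finset.mem_sdiff.1 this).2
    have hs1 : 2 * (cρ * p) + 6 * (ce * p) ≤ 1 := by
      have q : 2 * (cρ * p) + 6 * (ce * p) = (2 * cρ + 6 * ce) * p := by ring
      rw [q]
      have : 0 ≤ 2 * cρ + 6 * ce := by positivity
      nlinarith
    have hρx' := abs_le.1 hρx
    have hD0 := hdl0 x
    have hD1 := hdl1 x hxX
    have hgoal : m' / (1 + (tolAt P Sf n (F.ins P n s mi {c}) π' v' M').dl x) ≤
        m / (1 + (tolAt P Sf n F π v M).dl x) -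
          (4 * th * m * cut c (s + s / 2) (2 * s) x ^ 2 +
            omF M B c (s + s / 2) th rr q nu x) := by
      refine site_ins hm0 hD0 hD1 (mul_nonneg hcr hp0) (mul_nonneg hce hp0) hs1
        (by linarith [hρx'.2]) h1 ?_
      by_cases hxA : x ∈ M.A
      · have e1' : (tolAt P Sf n F π v M).dl x = (P.e0 + P.Ce * F.ae x) * m := by
          show (if x ∈ M.A then _ else _) = _
          rw [if_pos hxA, hm]
        have hxA' : x ∈ M'.A := by
          rw [hA]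
          exact Finset.mem_sdiff.2 ⟨hxA, hxB⟩
        have e2' : (tolAt P Sf n (F.ins P n s mi {c}) π' v' M').dl x =
            (P.e0 + P.Ce * (F.ae x + (P.eta + P.kap n)⁻¹ * (mi * p))) * m' := by
          show (if x ∈ M'.A then _ else _) = _
          rw [if_pos hxA', hae x, hp, hm']
        have hE0 : 0 ≤ P.e0 + P.Ce * F.ae x := by
          rw [e1'] at hD0
          exact nonneg_of_mul_nonneg_left hD0 hm0
        rw [e1'] at hD1
        rw [e1', e2']
        have e4 : (P.e0 + P.Ce * (F.ae x + (P.eta + P.kap n)⁻¹ * (mi * p))) * m' =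
            (P.e0 + P.Ce * F.ae x) * m' +
              mi * (P.Ce * p * ((P.eta + P.kap n)⁻¹ * m')) := by ring
        rw [e4]
        have hka : 0 < P.eta + P.kap n := by linarith [hN.ka0, hN.eta0]
        have e5 : cm ≤ (P.eta + P.kap n)⁻¹ * m' := by
          have := hcmx hxA'
          rw [inv_mul_eq_div, le_div_iff₀ hka]
          exact this
        have e6 : P.Ce * p * cm ≤ P.Ce * p * ((P.eta + P.kap n)⁻¹ * m') :=
          mul_le_mul_of_nonneg_left e5 (mul_nonneg hN.Ce0 hp0)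
        have e7 : (P.e0 + P.Ce * F.ae x) * (m - cρ * p * m) ≤
            (P.e0 + P.Ce * F.ae x) * m' :=
          mul_le_mul_of_nonneg_left (by linarith [hρx'.1]) hE0
        have e8 : (P.e0 + P.Ce * F.ae x) * m * (cρ * p) ≤ 1 * (cρ * p) :=
          mul_le_mul_of_nonneg_right hD1 (mul_nonneg hcr hp0)
        have e9 := mul_le_mul_of_nonneg_right hN.cA hp0
        have e10 : 3 * cρ * p + 6 * ce * p ≤ P.Ce * p * ((P.eta + P.kap n)⁻¹ * m') := by
          linarith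
        have e11 : P.Ce * p * ((P.eta + P.kap n)⁻¹ * m') ≤
            mi * (P.Ce * p * ((P.eta + P.kap n)⁻¹ * m')) := by
          have e12 : 0 ≤ P.Ce * p * ((P.eta + P.kap n)⁻¹ * m') := by
            refine le_trans ?_ e10
            positivity
          nlinarith
        linarith
      · have hxA' : x ∉ M'.A := by
          rw [hA]
          exact fun h9 => hxA (Finset.mem_sdiff.1 h9).1
        have e1' : (tolAt P Sf n F π v M).dl x = P.dS * (1 + F.err x) := by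
          show (if x ∈ M.A then _ else _) = _
          rw [if_neg hxA]
        have e2' : (tolAt P Sf n (F.ins P n s mi {c}) π' v' M').dl x =
            P.dS * (1 + (F.err x + mi * p)) := by
          show (if x ∈ M'.A then _ else _) = _
          rw [if_neg hxA', herr x, hp]
        rw [e1', e2']
        have e4 := mul_le_mul_of_nonneg_right hN.cS hp0
        have e5 := mul_le_mul_of_nonneg_left (hphm x) hN.dS0
        rw [← hp] at e5
        linarith
    linarith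

end Pool.Agent.ANI
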