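import Pool.Agent.ANI.InsTop

/-! # ANI H3DUNIF (helper15): the structure `H3D` of the insertion for the uniform law

`φ = ω = s = 1`, no inert sites, `B1 = B2 = C1 / e0` with `e0 ≤ cl c1`, `e0 ≤ cs`, `c3 = 1/4`. -/

open Matrix Finset

noncomputable section

namespace Pool.Agent.ANI

open Pool.Agent.Kin Pool.Agent.APS Pool.Agent.AND Pool.Agent.ANL Pool.Agent.ANM

variable {d L : ℕ} [NeZero L]

theorem H3D.unif {X : Type} {P : Par} {Sf : SiteF X} {n : ℕ} {Fd : Fld (Tor d L)}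
    {π : Prof (Tor d L)} {v : Tor d L → X} {M : Med (Tor d L)} {f : Fix} {u : UTol}
    (hP : P.Pos) (hS : Sf.Pos) (hF : Fd.Pos)
    (hG : Good f (tolAt P Sf n Fd π v M) M) (hI : (tolAt P Sf n Fd π v M).In f M u)
    (hN : Num f (tolAt P Sf n Fd π v M) u) (hMI : M.I = ∅)
    (hphi : ∀ K ∈ Sf.Ks n, ∀ m a, Sf.phi K m a = 1) (hom : ∀ m a, Sf.om m a = 1)
    (hs : ∀ K ∈ Sf.Ks n, Sf.s K = 1) {e0 errm bem : ℝ} (he0 : 0 < e0)
    (h1 : e0 ≤ P.cl * f.c1) (h2 : e0 ≤ P.cs)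
    (herr : ∀ y, y ∉ M.U → Fd.err y ≤ errm) (hbe : ∀ y, y ∉ M.U → Fd.be y ≤ bem)
    (h4 : P.kap n ≤ 4 * P.kap (n + 1)) (hp : 1 ≤ P.kap n ^ (-P.vp)) :
    H3D P Sf n Fd π v M (f.C1 / e0) (f.C1 / e0) errm bem (1 / 4) := by
  have hk : 0 < P.kap (n + 1) := hP.kap _
  have hη : ∀ y, y ∉ M.U → e0 * P.kap (n + 1) ≤ M.eta y := by
    intro y hy
    have hee : 0 < P.eta := hN.eta
    by_cases hA : y ∈ M.A
    · have e1 := hG.eta_act hI hN hA
      have e2 : P.eta + P.cl * P.kap (n + 1) * f.c1 ≤ M.eta y := e1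
      have e3 := mul_le_mul_of_nonneg_right h1 hk.le
      linarith
    · have e1 := hG.eS y hA hy (by rw [hMI]; simp)
      have e2 : P.eta + P.cs * P.kap (n + 1) ≤ M.eta y := e1
      have e3 := mul_le_mul_of_nonneg_right h2 hk.le
      linarith
  have hio : ∀ y, y ∉ M.U → AND.io M y ≤ f.C1 / e0 / P.kap (n + 1) * M.eta y := by
    intro y hy
    have e1 : AND.io M y ≤ f.C1 := hG.io_le hI hN hy
    have e2 := hη y hy
    have e3 : 0 < e0 * P.kap (n + 1) := mul_pos he0 hk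
    have hC := hG.C1_pos hI hN
    calc AND.io M y ≤ f.C1 := e1
      _ = f.C1 / e0 / P.kap (n + 1) * (e0 * P.kap (n + 1)) := by
        field_simp
      _ ≤ f.C1 / e0 / P.kap (n + 1) * M.eta y :=
        mul_le_mul_of_nonneg_left e2 (by positivity)
  refine ⟨hP, hS, hF, herr, hbe, fun K hK y hy => ?_, fun y hy => ?_, fun K _ y hy => ?_,
    fun y hy => ?_⟩
  · rw [hphi K hK, hs K hK, one_mul, one_mul]
    exact hio y hy
  · rw [hom, one_mul]
    exact hio y hy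
  · rw [hMI] at hy
    simp at hy
  · rw [hom, mul_one]
    have e1 : M.k y ≤ P.kap n := hG.khi y hy
    have e2 : P.kap (n + 1) * 1 ≤ P.kap (n + 1) * P.kap n ^ (-P.vp) :=
      mul_le_mul_of_nonneg_left hp hk.le
    linarith

end Pool.Agent.ANI
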