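import Pool.Agent.ANL.Cut
import Pool.Agent.ANL.Base

/-! # ANI LEVUN: leverage of a union of clusters (helper75)

Clusters `F i` inside `Dt i`, larger domains `D' i ⊇ F i`, `bdy (Dt i) ⊆ D' i`, whose boundary is far from all clusters:
`h0 ∑_l ∑_{z ∈ bdy (Dt l)} |G_xz| ≤ δ` for `x ∈ bdy (D' i)`.  If every single cluster has leverage `≤ M` on its surface
`bdy (Dt i)` then the union has leverage `≤ 4 M` on all surfaces.

Proof.  `ψ` a wave for the union, `m` its maximum on all surfaces.  `rep` for `D = ⋃ Dt l`: `|ψ_x| ≤ δ m` on `bdy (D' i)`.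
`v = 1_{D' i} ψ`, `(H + b) v = - src` off `F i` with `|src| ≤ h0 δ m` supported on `bdy (D' i)`; `u = v + G src` is an `F i`-wave,
`√(leak u) ≤ √(leak ψ) + √C ∑|src|`.  So `m ≤ √M √(leak ψ) + (√M √C + C) |bdy D'| h0 δ m ≤ √M √(leak ψ) + m / 2`.
-/

open Matrix Finset

noncomputable section

namespace Pool.Agent.ANI

open Pool.Agent.Kin Pool.Agent.APS Pool.Agent.ANL

variable {ι : Type} [Fintype ι] [DecidableEq ι] {H : Matrix ι ι ℂ} {b : ι → ℂ}
  {J : Type} [Fintype J] {F Dt D' : J → Finset ι}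

/-- union of the clusters -/
def UF (F : J → Finset ι) : Finset ι := univ.biUnion F

omit [Fintype ι] in
theorem mem_UF {x : ι} : x ∈ UF F ↔ ∃ i, x ∈ F i := by
  simp [UF]

theorem sum_UF_le {t : J → Finset ι} {f : ι → ℝ} (hf : ∀ x, 0 ≤ f x) :
    ∑ y ∈ UF t, f y ≤ ∑ l, ∑ z ∈ t l, f z := by
  have h1 : ∑ l, ∑ z ∈ t l, f z = ∑ y, ∑ l, if y ∈ t l then f y else 0 := by
    rw [Finset.sum_comm]
    refine Finset.sum_congr rfl fun l _ => ?_
    rw [Finset.sum_ite_mem, Finset.univ_inter]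
  rw [h1]
  have h2 : ∀ y, 0 ≤ ∑ l, if y ∈ t l then f y else 0 := fun y =>
    Finset.sum_nonneg fun l _ => by
      split_ifs
      · exact hf y
      · exact le_rfl
  refine (Finset.sum_le_sum fun y hy => ?_).trans
    (Finset.sum_le_sum_of_subset_of_nonneg (Finset.subset_univ _) fun y _ _ => h2 y)
  obtain ⟨l, hl⟩ := mem_UF.1 hy
  have h3 := Finset.single_le_sum (f := fun l => if y ∈ t l then f y else 0)
    (fun l _ => by
      split_ifs
      · exact hf y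
      · exact le_rfl) (Finset.mem_univ l)
  simpa [hl] using h3

theorem bdy_UF {x : ι} (hx : x ∈ bdy H (UF Dt)) : ∃ i, x ∈ bdy H (Dt i) := by
  simp only [bdy, Finset.mem_filter, Finset.mem_univ, true_and] at hx ⊢
  obtain ⟨y, hxy, h⟩ := hx
  by_cases hxD : x ∈ UF Dt
  · obtain ⟨i, hi⟩ := mem_UF.1 hxD
    refine ⟨i, y, hxy, ⟨fun _ hy => (h.1 hxD) (mem_UF.2 ⟨i, hy⟩), fun _ => hi⟩⟩
  · have hyD : y ∈ UF Dt := by
      by_contra hy
      exact hxD (h.2 hy)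
    obtain ⟨i, hi⟩ := mem_UF.1 hyD
    refine ⟨i, y, hxy, ⟨fun hx' => absurd (mem_UF.2 ⟨i, hx'⟩) hxD, fun hy' => absurd hi hy'⟩⟩

/-- representation outside of the union of the domains -/
theorem rep_UF (h : Adm H b) (hFD : ∀ i, F i ⊆ Dt i) {ψ : ι → ℂ} (hw : IsWave H b (UF F) ψ)
    {h0 m δ : ℝ} (hh : HopLe H h0) (h00 : 0 ≤ h0) (hm0 : 0 ≤ m)
    (hm : ∀ i, ∀ y ∈ bdy H (Dt i), ‖ψ y‖ ≤ m) {a : ι} (ha : a ∉ UF Dt)
    (hδ : h0 * ∑ l, ∑ z ∈ bdy H (Dt l), ‖rsc H b a z‖ ≤ δ) : ‖ψ a‖ ≤ δ * m := by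
  have hsub : UF F ⊆ UF Dt := by
    intro x hx
    obtain ⟨i, hi⟩ := mem_UF.1 hx
    exact mem_UF.2 ⟨i, hFD i hi⟩
  rw [rep h hsub hw ha]
  have h1 : ∀ y ∈ bdy H (UF Dt), ‖rsc H b a y * src H (UF Dt) ψ y‖ ≤ ‖rsc H b a y‖ * (h0 * m) := by
    intro y _
    rw [norm_mul]
    refine mul_le_mul_of_nonneg_left ?_ (norm_nonneg _)
    refine src_le h.sym hh hm0 (fun z hz => ?_) y
    obtain ⟨i, hi⟩ := bdy_UF hz
    exact hm i z hi
  refine (norm_sum_le _ _).trans ((Finset.sum_le_sum h1).trans ?_)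
  rw [← Finset.sum_mul]
  have h2 : ∑ y ∈ bdy H (UF Dt), ‖rsc H b a y‖ ≤ ∑ l, ∑ z ∈ bdy H (Dt l), ‖rsc H b a z‖ := by
    have h3 : bdy H (UF Dt) ⊆ UF fun i => bdy H (Dt i) := by
      intro y hy
      obtain ⟨i, hi⟩ := bdy_UF hy
      exact mem_UF.2 ⟨i, hi⟩
    exact (Finset.sum_le_sum_of_subset_of_nonneg h3 fun _ _ _ => norm_nonneg _).trans
      (sum_UF_le fun _ => norm_nonneg _)
  calc (∑ y ∈ bdy H (UF Dt), ‖rsc H b a y‖) * (h0 * m) ≤
      (∑ l, ∑ z ∈ bdy H (Dt l), ‖rsc H b a z‖) * (h0 * m) :=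
        mul_le_mul_of_nonneg_right h2 (mul_nonneg h00 hm0)
    _ = (h0 * ∑ l, ∑ z ∈ bdy H (Dt l), ‖rsc H b a z‖) * m := by ring
    _ ≤ δ * m := mul_le_mul_of_nonneg_right hδ hm0

/-- restriction of a wave of the union to the neighbourhood of one cluster -/
theorem near_src {i : J} (hdis : ∀ l, l ≠ i → Disjoint (F l) (D' i)) {ψ : ι → ℂ}
    (hw : IsWave H b (UF F) ψ) {x : ι} (hx : x ∉ F i) :
    ((H + diagonal b) *ᵥ (fun y => if y ∈ D' i then ψ y else 0)) x = -src H (D' i) ψ x := by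
  have mv : ∀ v : ι → ℂ, ((H + diagonal b) *ᵥ v) x = ∑ y, H x y * v y + b x * v x := by
    intro v
    rw [Matrix.add_mulVec, Pi.add_apply, Matrix.mulVec_diagonal]
    rfl
  rw [mv]
  have e1 : ∑ y, H x y * (if y ∈ D' i then ψ y else 0) = ∑ y ∈ D' i, H x y * ψ y := by
    rw [← Finset.sum_filter_add_sum_filter_not univ (fun y => y ∈ D' i)]
    rw [Finset.sum_eq_zero (s := univ.filter fun y => y ∉ D' i) (fun y hy => by
      rw [if_neg (Finset.mem_filter.1 hy).2, mul_zero]), add_zero]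
    have : univ.filter (fun y => y ∈ D' i) = D' i := by ext; simp
    rw [this]
    exact Finset.sum_congr rfl fun y hy => by rw [if_pos hy]
  rw [e1]
  unfold src
  by_cases hxD : x ∈ D' i
  · rw [if_pos hxD, if_pos hxD]
    have hxF : x ∉ UF F := by
      intro h
      obtain ⟨l, hl⟩ := mem_UF.1 h
      by_cases hli : l = i
      · exact hx (hli ▸ hl)
      · exact (Finset.disjoint_left.1 (hdis l hli)) hl hxD
    have h1 := hw x hxF
    rw [mv, ← Finset.sum_add_sum_compl (D' i)] at h1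
    linear_combination h1
  · rw [if_neg hxD, if_neg hxD, mul_zero, add_zero, neg_neg]

/-- Minkowski for the leak -/
theorem leak_add (hb : ∀ x, (b x).im ≤ 0) (S : Finset ι) (v w : ι → ℂ) :
    √(leak b S (v + w)) ≤ √(leak b S v) + √(leak b S w) := by
  have hv := leak_nonneg (F := S) (ψ := v) hb
  have hw := leak_nonneg (F := S) (ψ := w) hb
  have he : ∀ x, 0 ≤ -(b x).im := fun x => neg_nonneg.2 (hb x)
  rw [Real.sqrt_le_left (by positivity)]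
  have cs : ∑ x ∈ Sᶜ, (-(b x).im) * (‖v x‖ * ‖w x‖) ≤ √(leak b S v) * √(leak b S w) := by
    rw [← Real.sqrt_mul hv]
    apply Real.le_sqrt_of_sq_le
    have cs := Finset.sum_mul_sq_le_sq_mul_sq Sᶜ (fun y => √(-(b y).im) * ‖v y‖)
      (fun y => √(-(b y).im) * ‖w y‖)
    have s1 : ∑ y ∈ Sᶜ, (√(-(b y).im) * ‖v y‖) * (√(-(b y).im) * ‖w y‖) =
        ∑ y ∈ Sᶜ, (-(b y).im) * (‖v y‖ * ‖w y‖) := by
      refine Finset.sum_congr rfl fun y _ => ?_
      calc _ = (√(-(b y).im) * √(-(b y).im)) * (‖v y‖ * ‖w y‖) := by ring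
        _ = _ := by rw [Real.mul_self_sqrt (he y)]
    have s2 : ∑ y ∈ Sᶜ, (√(-(b y).im) * ‖v y‖) ^ 2 = leak b S v :=
      Finset.sum_congr rfl fun y _ => by rw [mul_pow, Real.sq_sqrt (he y)]
    have s3 : ∑ y ∈ Sᶜ, (√(-(b y).im) * ‖w y‖) ^ 2 = leak b S w :=
      Finset.sum_congr rfl fun y _ => by rw [mul_pow, Real.sq_sqrt (he y)]
    rw [s1, s2, s3] at cs
    exact cs
  have h1 : leak b S (v + w) ≤ leak b S v + 2 * ∑ x ∈ Sᶜ, (-(b x).im) * (‖v x‖ * ‖w x‖) +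
      leak b S w := by
    unfold leak
    rw [Finset.mul_sum, ← Finset.sum_add_distrib, ← Finset.sum_add_distrib]
    refine Finset.sum_le_sum fun x _ => ?_
    have h2 : ‖(v + w) x‖ ^ 2 ≤ (‖v x‖ + ‖w x‖) ^ 2 :=
      pow_le_pow_left₀ (norm_nonneg _) (norm_add_le _ _) 2
    have h3 := mul_le_mul_of_nonneg_left h2 (he x)
    linarith
  have h4 := Real.sq_sqrt hv
  have h5 := Real.sq_sqrt hw
  nlinarith

theorem leak_near {i : J} (hb : ∀ x, (b x).im ≤ 0) (hdis : ∀ l, l ≠ i → Disjoint (F l) (D' i))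
    (ψ : ι → ℂ) :
    leak b (F i) (fun y => if y ∈ D' i then ψ y else 0) ≤ leak b (UF F) ψ := by
  unfold leak
  have h1 : ∑ x ∈ (F i)ᶜ, (-(b x).im) * ‖(if x ∈ D' i then ψ x else 0)‖ ^ 2 =
      ∑ x ∈ (F i)ᶜ ∩ D' i, (-(b x).im) * ‖ψ x‖ ^ 2 := by
    symm
    rw [← Finset.sum_filter_add_sum_filter_not (F i)ᶜ (fun y => y ∈ D' i)]
    rw [Finset.sum_eq_zero (s := (F i)ᶜ.filter fun y => y ∉ D' i) (fun y hy => by
      rw [if_neg (Finset.mem_filter.1 hy).2]; simp), add_zero]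
    have h2 : (F i)ᶜ.filter (fun y => y ∈ D' i) = (F i)ᶜ ∩ D' i := by
      ext; simp
    rw [h2]
    exact Finset.sum_congr rfl fun y hy => by rw [if_pos (Finset.mem_inter.1 hy).2]
  rw [h1]
  refine Finset.sum_le_sum_of_subset_of_nonneg (fun x hx => ?_) fun x _ _ =>
    mul_nonneg (neg_nonneg.2 (hb x)) (sq_nonneg _)
  rw [Finset.mem_inter, Finset.mem_compl] at hx
  rw [Finset.mem_compl]
  intro hu
  obtain ⟨l, hl⟩ := mem_UF.1 hu
  by_cases hli : l = i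
  · exact hx.1 (hli ▸ hl)
  · exact (Finset.disjoint_left.1 (hdis l hli)) hl hx.2

/-- the power of a source supported in `S` with `|G_xy| ≤ C` on `S` -/
theorem leak_src (h : Adm H b) {S : Finset ι} {q : ι → ℂ} (hq : ∀ x, x ∉ S → q x = 0) {C : ℝ}
    (hC : ∀ x ∈ S, ∀ y ∈ S, ‖rsc H b x y‖ ≤ C) (F0 : Finset ι) :
    leak b F0 (rsc H b *ᵥ q) ≤ C * (∑ x ∈ S, ‖q x‖) ^ 2 := by
  have h1 : leak b F0 (rsc H b *ᵥ q) ≤ qf (JM H b) q := by
    rw [← power h q]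
    unfold leak
    exact Finset.sum_le_sum_of_subset_of_nonneg (Finset.subset_univ _) fun x _ _ =>
      mul_nonneg (neg_nonneg.2 (h.im x)) (sq_nonneg _)
  refine h1.trans ?_
  have h2 : qf (JM H b) q = ∑ x ∈ S, ∑ y ∈ S,
      JM H b x y * ((q x).re * (q y).re + (q x).im * (q y).im) := by
    unfold qf
    symm
    rw [Finset.sum_subset (Finset.subset_univ S) (fun x _ hx => by
      refine Finset.sum_eq_zero fun y _ => ?_
      rw [hq x hx]; simp)]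
    refine Finset.sum_congr rfl fun x _ => ?_
    exact Finset.sum_subset (Finset.subset_univ S) (fun y _ hy => by rw [hq y hy]; simp)
  rw [h2, sq, Finset.sum_mul_sum, Finset.mul_sum]
  refine Finset.sum_le_sum fun x hx => ?_
  rw [Finset.mul_sum]
  refine Finset.sum_le_sum fun y hy => ?_
  have h3 : |JM H b x y| ≤ C := (Complex.abs_im_le_norm _).trans (hC x hx y hy)
  have h4 : |(q x).re * (q y).re + (q x).im * (q y).im| ≤ ‖q x‖ * ‖q y‖ := by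
    have h5 : (q x).re * (q y).re + (q x).im * (q y).im = ((starRingEnd ℂ) (q x) * q y).re := by
      simp [Complex.mul_re]
    rw [h5]
    refine (Complex.abs_re_le_norm _).trans ?_
    rw [norm_mul, RCLike.norm_conj]
  refine (le_abs_self _).trans ?_
  rw [abs_mul]
  exact mul_le_mul h3 h4 (abs_nonneg _) ((abs_nonneg _).trans h3)

/-- THE LEVERAGE OF A UNION OF CLUSTERS -/
theorem lev_union (h : Adm H b) {h0 : ℝ} (hh : HopLe H h0) (h00 : 0 ≤ h0)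
    (hFD : ∀ i, F i ⊆ Dt i) (hdis : ∀ i l, l ≠ i → Disjoint (F l) (D' i))
    (hin : ∀ i, bdy H (Dt i) ⊆ D' i) (hout : ∀ i, ∀ x ∈ bdy H (D' i), x ∉ UF Dt)
    {δ C M : ℝ} (hδ0 : 0 ≤ δ) (hM : 0 ≤ M) (hC0 : 0 ≤ C)
    (hδ : ∀ i, ∀ x ∈ bdy H (D' i), h0 * ∑ l, ∑ z ∈ bdy H (Dt l), ‖rsc H b x z‖ ≤ δ)
    (hC : ∀ i, ∀ x ∈ bdy H (D' i), ∀ y ∈ bdy H (D' i), ‖rsc H b x y‖ ≤ C)
    (hC' : ∀ i, ∀ x ∈ bdy H (Dt i), ∀ y ∈ bdy H (D' i), ‖rsc H b x y‖ ≤ C)
    (hL : ∀ i, ∀ y ∈ bdy H (Dt i), LevLe H b (F i) y M)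
    (hsm : ∀ i, (√M * √C + C) * ((bdy H (D' i)).card * (h0 * δ)) ≤ 1 / 2) :
    ∀ i, ∀ y ∈ bdy H (Dt i), LevLe H b (UF F) y (4 * M) := by
  intro i0 y0 hy0 ψ hw
  set Z : Finset ι := UF fun i => bdy H (Dt i) with hZ
  obtain ⟨y1, hy1, hmax⟩ := Finset.exists_max_image Z (fun y => ‖ψ y‖) ⟨y0, mem_UF.2 ⟨i0, hy0⟩⟩
  set m := ‖ψ y1‖ with hm
  have hm0 : 0 ≤ m := norm_nonneg _
  have hmall : ∀ i, ∀ y ∈ bdy H (Dt i), ‖ψ y‖ ≤ m := fun i y hy => hmax y (mem_UF.2 ⟨i, hy⟩)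
  obtain ⟨i, hi⟩ := mem_UF.1 hy1
  have hℓ := leak_nonneg (F := UF F) (ψ := ψ) h.im
  -- the source on the far surface
  have hfar : ∀ x ∈ bdy H (D' i), ‖ψ x‖ ≤ δ * m := fun x hx =>
    rep_UF h hFD hw hh h00 hm0 hmall (hout i x hx) (hδ i x hx)
  set q : ι → ℂ := src H (D' i) ψ with hq
  have hq0 : ∀ x, x ∉ bdy H (D' i) → q x = 0 := fun x hx => src_zero hx
  have hqb : ∀ x, ‖q x‖ ≤ h0 * (δ * m) := fun x => src_le h.sym hh (by positivity) hfar x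
  set σ := ∑ x ∈ bdy H (D' i), ‖q x‖ with hσ
  have hσb : σ ≤ (bdy H (D' i)).card * (h0 * δ) * m := by
    calc σ ≤ ∑ x ∈ bdy H (D' i), h0 * (δ * m) := Finset.sum_le_sum fun x _ => hqb x
      _ = _ := by rw [Finset.sum_const, nsmul_eq_mul]; ring
  have hσ0 : 0 ≤ σ := Finset.sum_nonneg fun x _ => norm_nonneg _
  -- the single cluster wave
  set v : ι → ℂ := fun y => if y ∈ D' i then ψ y else 0 with hv
  set u : ι → ℂ := v + rsc H b *ᵥ q with hu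
  have huw : IsWave H b (F i) u := by
    intro x hx
    rw [hu, Matrix.mulVec_add, Pi.add_apply, src_res h q, near_src (fun l hl => hdis i l hl) hw hx]
    ring
  have hleak : √(leak b (F i) u) ≤ √(leak b (UF F) ψ) + √C * σ := by
    refine (leak_add h.im _ _ _).trans (add_le_add ?_ ?_)
    · exact Real.sqrt_le_sqrt (leak_near h.im (fun l hl => hdis i l hl) ψ)
    · have h1 := leak_src h hq0 (hC i) (F i)
      refine (Real.sqrt_le_sqrt h1).trans (le_of_eq ?_)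
      rw [Real.sqrt_mul hC0, Real.sqrt_sq hσ0]
  have hGq : ‖(rsc H b *ᵥ q) y1‖ ≤ C * σ := by
    have e1 : (rsc H b *ᵥ q) y1 = ∑ x ∈ bdy H (D' i), rsc H b y1 x * q x := by
      show ∑ x, rsc H b y1 x * q x = _
      symm
      exact Finset.sum_subset (Finset.subset_univ _) fun x _ hx => by rw [hq0 x hx, mul_zero]
    rw [e1, hσ, Finset.mul_sum]
    refine (norm_sum_le _ _).trans (Finset.sum_le_sum fun x hx => ?_)
    rw [norm_mul]
    exact mul_le_mul_of_nonneg_right (hC' i y1 hi x hx) (norm_nonneg _)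
  have huy : ‖u y1‖ ≤ √M * √(leak b (F i) u) := by
    have h1 := hL i y1 hi u huw
    rw [← Real.sqrt_mul hM]
    exact Real.le_sqrt_of_sq_le h1
  have hmy : m ≤ ‖u y1‖ + ‖(rsc H b *ᵥ q) y1‖ := by
    have h1 : ψ y1 = u y1 - (rsc H b *ᵥ q) y1 := by
      rw [hu, Pi.add_apply, hv]
      simp only [if_pos (hin i hi)]
      ring
    rw [hm, h1]
    exact norm_sub_le _ _
  have hfin : m ≤ √M * √(leak b (UF F) ψ) + m / 2 := by
    have h1 : ‖u y1‖ ≤ √M * (√(leak b (UF F) ψ) + √C * σ) :=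
      huy.trans (mul_le_mul_of_nonneg_left hleak (Real.sqrt_nonneg _))
    have h2 : (√M * √C + C) * σ ≤ m / 2 := by
      have h3 : (√M * √C + C) * σ ≤ (√M * √C + C) * ((bdy H (D' i)).card * (h0 * δ) * m) :=
        mul_le_mul_of_nonneg_left hσb (by positivity)
      have h4 := mul_le_mul_of_nonneg_right (hsm i) hm0
      calc _ ≤ _ := h3
        _ = (√M * √C + C) * ((bdy H (D' i)).card * (h0 * δ)) * m := by ring
        _ ≤ 1 / 2 * m := h4
        _ = m / 2 := by ring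
    calc m ≤ ‖u y1‖ + ‖(rsc H b *ᵥ q) y1‖ := hmy
      _ ≤ √M * (√(leak b (UF F) ψ) + √C * σ) + C * σ := add_le_add h1 hGq
      _ = √M * √(leak b (UF F) ψ) + (√M * √C + C) * σ := by ring
      _ ≤ _ := by linarith
  have h5 : m ≤ 2 * (√M * √(leak b (UF F) ψ)) := by linarith
  have h6 : ‖ψ y0‖ ≤ m := hmall i0 y0 hy0
  have h7 : ‖ψ y0‖ ^ 2 ≤ (2 * (√M * √(leak b (UF F) ψ))) ^ 2 :=
    pow_le_pow_left₀ (norm_nonneg _) (h6.trans h5) 2
  refine h7.trans (le_of_eq ?_)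
  rw [mul_pow, mul_pow, Real.sq_sqrt hM, Real.sq_sqrt hℓ]
  ring

end Pool.Agent.ANI
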