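import Pool.Agent.ANI.RawCont

/-! # ANI PIECES: the content of a cluster read piece by piece (helper26)

The cluster `F = ⋃_{i < m} F_i` consists of pieces which may be far apart.  With the leverages of the whole cluster alone the
change of `G_xy` does not decay in `|x - y|` when `x` is near one piece and `y` near another one.  Cure: read the content piece by
piece (raw, no re-freezing in between).
* `LevLe.piece`: THE LEVERAGE IS INHERITED: `LevLe H b F z M`, `F' ⊆ F`, `b₁ = b` off `F`, `Im b₁ ≤ 0` => `LevLe H b₁ F' z M`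
  (an `F'`-wave of `b₁` is an `F`-wave of `b` and loses at least as much power).
* `PCont` : data (pieces `Fp i ⊆ Dp i`, leverage of the whole cluster at most `M` on every `bdy H (Dp i)`, energy avoids the
  eigenvalues), `PCont.rcont i` : the step `i` is a raw content step `RCont` with the surface `bdy H (Dp i)` only.
* `PCont.entry` : `|G'_xy - G_xy| ≤ m ε ω_xy` when `2 M h0² nb_i² (2 gb_i(x)) (2 gb_i(y)) ≤ ε ω_xy` for every piece,
  `gb_i(x) ≥ gp x z ≥ |G_xz|` for `z ∈ bdy H (Dp i)`, `m ε ω ≤ gp`.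
-/

open Matrix Finset

noncomputable section

namespace Pool.Agent.ANI

open Pool.Agent.Kin Pool.Agent.APS Pool.Agent.ANL

variable {ι : Type} [Fintype ι] [DecidableEq ι] {H : Matrix ι ι ℂ} {b b' b1 : ι → ℂ}
  {F F' : Finset ι} {h0 M : ℝ}

/-- the leverage is inherited by the pieces of the hole, also after other pieces have been read -/
theorem LevLe.piece {z : ι} (h : LevLe H b F z M) (hM : 0 ≤ M) (hs : F' ⊆ F)
    (off : ∀ x, x ∉ F → b1 x = b x) (him : ∀ x, (b1 x).im ≤ 0) : LevLe H b1 F' z M := by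
  intro ψ hψ
  have h1 : IsWave H b F ψ := by
    intro x hx
    have h2 := hψ x fun h3 => hx (hs h3)
    rw [Matrix.add_mulVec, Pi.add_apply, Matrix.mulVec_diagonal] at h2 ⊢
    rw [← off x hx, h2]
  refine (h ψ h1).trans (mul_le_mul_of_nonneg_left ?_ hM)
  unfold leak
  calc ∑ x ∈ Fᶜ, (-(b x).im) * ‖ψ x‖ ^ 2 = ∑ x ∈ Fᶜ, (-(b1 x).im) * ‖ψ x‖ ^ 2 :=
        sum_congr rfl fun x hx => by rw [off x (Finset.mem_compl.1 hx)]
    _ ≤ _ := sum_le_sum_of_subset_of_nonneg (Finset.compl_subset_compl.2 hs) fun x _ _ =>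
        mul_nonneg (by linarith [him x]) (by positivity)

/-- the content of the pieces `0, …, i - 1` is read -/
def bpc (b b' : ι → ℂ) (Fp : ℕ → Finset ι) (i : ℕ) : ι → ℂ := fun x =>
  if x ∈ (range i).biUnion Fp then b' x else b x

/-- data of a content step in `m` pieces; `U` = sites read before -/
structure PCont {Z : Type} (H : Matrix ι ι ℂ) (b b' : ι → ℂ) (U : Finset ι)
    (Fp Dp : ℕ → Finset ι) (m : ℕ) (h0 M : ℝ) (hh : Z → ℝ) (E : ℝ) (v : ι → Z) : Prop where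
  hav : Avoid H hh E
  adm : Adm H b
  neg : ∀ x, x ∉ U → (b x).im < 0
  bU : ∀ x ∈ U, b x = (hh (v x) : ℂ) - (E : ℂ)
  bF : ∀ i < m, ∀ x ∈ Fp i, b' x = (hh (v x) : ℂ) - (E : ℂ)
  off : ∀ x, (∀ i < m, x ∉ Fp i) → b' x = b x
  hop : HopLe H h0
  h00 : 0 ≤ h0
  M0 : 0 ≤ M
  FD : ∀ i < m, Fp i ⊆ Dp i
  lev : ∀ i < m, ∀ y ∈ bdy H (Dp i), LevLe H b ((range m).biUnion Fp) y M

namespace PCont

variable {Z : Type} {U : Finset ι} {Fp Dp : ℕ → Finset ι} {m : ℕ} {hh : Z → ℝ} {E : ℝ}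
  {v : ι → Z} (h : PCont H b b' U Fp Dp m h0 M hh E v)

include h

/-- one piece: given admissibility of the current medium -/
theorem rcont_of {i : ℕ} (hi : i < m) (hA : Adm H (bpc b b' Fp i)) :
    RCont H (bpc b b' Fp i) (bpc b b' Fp (i + 1)) (Fp i) (Dp i) h0 M := by
  have hmem : ∀ x, x ∈ (range i).biUnion Fp → ∃ k < m, x ∈ Fp k := by
    intro x hx
    obtain ⟨k, hk, hxk⟩ := Finset.mem_biUnion.1 hx
    exact ⟨k, (Finset.mem_range.1 hk).trans hi, hxk⟩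
  have hsub : (range (i + 1)).biUnion Fp = Fp i ∪ (range i).biUnion Fp := by
    rw [Finset.range_add_one, Finset.biUnion_insert]
  refine RCont.of_avoid h.hav (v := v) hA (U := U ∪ (range i).biUnion Fp) ?_ ?_ ?_ ?_ h.hop h.h00
    h.M0 (h.FD i hi) ?_
  · intro x hx
    rw [Finset.mem_union, not_or] at hx
    simp only [bpc, hx.2, if_false]
    exact h.neg x hx.1
  · intro x hx
    by_cases h1 : x ∈ (range i).biUnion Fp
    · obtain ⟨k, hk, hxk⟩ := hmem x h1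
      simp only [bpc, h1, if_true]
      exact h.bF k hk x hxk
    · simp only [bpc, h1, if_false]
      exact h.bU x ((Finset.mem_union.1 hx).resolve_right h1)
  · intro x hx
    have h1 : x ∈ (range (i + 1)).biUnion Fp := by
      rw [hsub]
      exact Finset.mem_union_left _ hx
    simp only [bpc, h1, if_true]
    exact h.bF i hi x hx
  · intro x hx
    have h1 : x ∈ (range (i + 1)).biUnion Fp ↔ x ∈ (range i).biUnion Fp := by
      rw [hsub, Finset.mem_union]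
      exact ⟨fun h2 => h2.resolve_left hx, Or.inr⟩
    simp only [bpc, h1]
  · intro y hy
    refine LevLe.piece (h.lev i hi y hy) h.M0 ?_ ?_ hA.im
    · intro x hx
      exact Finset.mem_biUnion.2 ⟨i, Finset.mem_range.2 hi, hx⟩
    · intro x hx
      have h1 : x ∉ (range i).biUnion Fp := by
        intro h2
        obtain ⟨k, hk, hxk⟩ := hmem x h2
        exact hx (Finset.mem_biUnion.2 ⟨k, Finset.mem_range.2 hk, hxk⟩)
      simp only [bpc, h1, if_false]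

omit [Fintype ι] h in
theorem bpc_zero : bpc b b' Fp 0 = b := by
  funext x
  simp [bpc]

omit h in
theorem adm_all (h : PCont H b b' U Fp Dp m h0 M hh E v) : ∀ i ≤ m, Adm H (bpc b b' Fp i) := by
  intro i
  induction i with
  | zero =>
    intro _
    rw [bpc_zero]
    exact h.adm
  | succ i ih =>
    intro hi
    exact (h.rcont_of hi (ih (Nat.le_of_succ_le hi))).adm'

/-- the step `i` is a raw content step with the surface `bdy H (Dp i)` only -/
theorem rcont {i : ℕ} (hi : i < m) :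
    RCont H (bpc b b' Fp i) (bpc b b' Fp (i + 1)) (Fp i) (Dp i) h0 M :=
  h.rcont_of hi (h.adm_all i hi.le)

theorem bpc_m : bpc b b' Fp m = b' := by
  funext x
  by_cases hx : x ∈ (range m).biUnion Fp
  · simp only [bpc, hx, if_true]
  · simp only [bpc, hx, if_false]
    exact (h.off x fun i hi hxi =>
      hx (Finset.mem_biUnion.2 ⟨i, Finset.mem_range.2 hi, hxi⟩)).symm

/-- entries after `i` pieces -/
theorem entry_aux {V : Set ι} {gp om : ι → ι → ℝ} {gb : ℕ → ι → ℝ} {ε : ℝ}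
    (hV : ∀ i < m, ∀ z ∈ bdy H (Dp i), z ∈ V)
    (hsep : ∀ i < m, ∀ k < i, ∀ z ∈ bdy H (Dp i), z ∉ Dp k)
    (hgp : ∀ x ∈ V, ∀ y ∈ V, ‖rsc H b x y‖ ≤ gp x y)
    (hgb0 : ∀ i < m, ∀ x ∈ V, 0 ≤ gb i x)
    (hgb : ∀ i < m, ∀ x ∈ V, x ∉ Dp i → ∀ z ∈ bdy H (Dp i), gp x z ≤ gb i x)
    (hK : ∀ i < m, ∀ x ∈ V, ∀ y ∈ V, x ∉ Dp i → y ∉ Dp i →
      2 * (M * h0 ^ 2 * (bdy H (Dp i)).card ^ 2) * (2 * gb i x) * (2 * gb i y) ≤ ε * om x y)
    (hε : ∀ x ∈ V, ∀ y ∈ V, 0 ≤ ε * om x y ∧ (m : ℝ) * (ε * om x y) ≤ gp x y) :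
    ∀ i ≤ m, ∀ x ∈ V, ∀ y ∈ V, (∀ k < i, x ∉ Dp k ∧ y ∉ Dp k) →
      ‖rsc H (bpc b b' Fp i) x y - rsc H b x y‖ ≤ (i : ℝ) * (ε * om x y) := by
  intro i
  induction i with
  | zero =>
    intro _ x _ y _ _
    rw [bpc_zero]
    simp
  | succ i ih =>
    intro hi x hx y hy hxy
    have hi' : i < m := hi
    have hR := h.rcont hi'
    have hgx : ∀ w ∈ V, (∀ k < i, w ∉ Dp k) → w ∉ Dp i → ∀ z ∈ bdy H (Dp i),
        ‖rsc H (bpc b b' Fp i) w z‖ ≤ 2 * gb i w := by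
      intro w hw hwk hwi z hz
      have hzV := hV i hi' z hz
      have h1 := ih hi'.le w hw z hzV fun k hk => ⟨hwk k hk, hsep i hi' k hk z hz⟩
      have h2 := hgp w hw z hzV
      have h3 := hgb i hi' w hw hwi z hz
      obtain ⟨h4, h5⟩ := hε w hw z hzV
      have h6 : (i : ℝ) * (ε * om w z) ≤ (m : ℝ) * (ε * om w z) :=
        mul_le_mul_of_nonneg_right (by exact_mod_cast hi'.le) h4
      calc ‖rsc H (bpc b b' Fp i) w z‖
          = ‖rsc H b w z + (rsc H (bpc b b' Fp i) w z - rsc H b w z)‖ := by congr 1; ring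
        _ ≤ ‖rsc H b w z‖ + ‖rsc H (bpc b b' Fp i) w z - rsc H b w z‖ := norm_add_le _ _
        _ ≤ 2 * gb i w := by linarith
    have hxi := hxy i (Nat.lt_succ_self i)
    have hx' : ∀ k < i, x ∉ Dp k := fun k hk => (hxy k (Nat.lt_succ_of_lt hk)).1
    have hy' : ∀ k < i, y ∉ Dp k := fun k hk => (hxy k (Nat.lt_succ_of_lt hk)).2
    have h1 := hR.entry1 hxi.1 hxi.2 (hgx x hx hx' hxi.1) (hgx y hy hy' hxi.2)
      (by have := hgb0 i hi' x hx; linarith) (by have := hgb0 i hi' y hy; linarith)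
    have h2 := ih hi'.le x hx y hy fun k hk => ⟨hx' k hk, hy' k hk⟩
    have h3 := hK i hi' x hx y hy hxi.1 hxi.2
    calc ‖rsc H (bpc b b' Fp (i + 1)) x y - rsc H b x y‖
        = ‖(rsc H (bpc b b' Fp (i + 1)) x y - rsc H (bpc b b' Fp i) x y) +
            (rsc H (bpc b b' Fp i) x y - rsc H b x y)‖ := by congr 1; ring
      _ ≤ _ := norm_add_le _ _
      _ ≤ ε * om x y + (i : ℝ) * (ε * om x y) := add_le_add (h1.trans h3) h2
      _ = ((i + 1 : ℕ) : ℝ) * (ε * om x y) := by push_cast; ring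

/-- ENTRIES AFTER THE CONTENT OF A CLUSTER, with decay in `|x - y|` -/
theorem entry {V : Set ι} {gp om : ι → ι → ℝ} {gb : ℕ → ι → ℝ} {ε : ℝ}
    (hV : ∀ i < m, ∀ z ∈ bdy H (Dp i), z ∈ V)
    (hsep : ∀ i < m, ∀ k < i, ∀ z ∈ bdy H (Dp i), z ∉ Dp k)
    (hgp : ∀ x ∈ V, ∀ y ∈ V, ‖rsc H b x y‖ ≤ gp x y)
    (hgb0 : ∀ i < m, ∀ x ∈ V, 0 ≤ gb i x)
    (hgb : ∀ i < m, ∀ x ∈ V, x ∉ Dp i → ∀ z ∈ bdy H (Dp i), gp x z ≤ gb i x)
    (hK : ∀ i < m, ∀ x ∈ V, ∀ y ∈ V, x ∉ Dp i → y ∉ Dp i →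
      2 * (M * h0 ^ 2 * (bdy H (Dp i)).card ^ 2) * (2 * gb i x) * (2 * gb i y) ≤ ε * om x y)
    (hε : ∀ x ∈ V, ∀ y ∈ V, 0 ≤ ε * om x y ∧ (m : ℝ) * (ε * om x y) ≤ gp x y)
    {x y : ι} (hx : x ∈ V) (hy : y ∈ V) (hxy : ∀ k < m, x ∉ Dp k ∧ y ∉ Dp k) :
    ‖rsc H b' x y - rsc H b x y‖ ≤ (m : ℝ) * (ε * om x y) := by
  have h1 := h.entry_aux hV hsep hgp hgb0 hgb hK hε m le_rfl x hx y hy hxy
  rwa [h.bpc_m] at h1

end PCont

/-- the polynomial kernel: `ω_xy = max(1, |x-y|)^(-s)`, pieces of diameter at most `Δ₀`, points at distance at least `R` from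
the surface: `r_x^(-s) r_y^(-s) ≤ (R^(-s) (2 + Δ₀ / R)^s) |x-y|^(-s)` -/
theorem two_pow_le {r1 r2 R D0 t s : ℝ} (hs : 0 < s) (hR : 1 ≤ R) (h1 : R ≤ r1) (h2 : R ≤ r2)
    (hD : 0 ≤ D0) (ht : 1 ≤ t) (htr : t ≤ r1 + r2 + D0) :
    r1 ^ (-s) * r2 ^ (-s) ≤ R ^ (-s) * (2 + D0 / R) ^ s * t ^ (-s) := by
  have hR0 : 0 < R := by linarith
  -- the larger one of `r1`, `r2`
  have key : ∀ a c : ℝ, R ≤ a → a ≤ c → t ≤ a + c + D0 →
      a ^ (-s) * c ^ (-s) ≤ R ^ (-s) * (2 + D0 / R) ^ s * t ^ (-s) := by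
    intro a c ha hac htt
    have ha0 : 0 < a := by linarith
    have hc0 : 0 < c := by linarith
    have e1 : a ^ (-s) ≤ R ^ (-s) := Real.rpow_le_rpow_of_nonpos hR0 ha (by linarith)
    have e2 : t ≤ (2 + D0 / R) * c := by
      have : D0 ≤ D0 / R * c := by
        rw [div_mul_eq_mul_div, le_div_iff₀ hR0]
        exact mul_le_mul_of_nonneg_left (by linarith) hD
      nlinarith
    have e3 : c ^ (-s) ≤ (2 + D0 / R) ^ s * t ^ (-s) := by
      have hq : 0 < 2 + D0 / R := by positivity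
      have e4 : ((2 + D0 / R) * c) ^ (-s) ≤ t ^ (-s) :=
        Real.rpow_le_rpow_of_nonpos (by linarith) e2 (by linarith)
      rw [Real.mul_rpow hq.le hc0.le, Real.rpow_neg hq.le] at e4
      have e5 : c ^ (-s) = (2 + D0 / R) ^ s * (((2 + D0 / R) ^ s)⁻¹ * c ^ (-s)) := by
        rw [← mul_assoc, mul_inv_cancel₀ (Real.rpow_pos_of_pos hq s).ne', one_mul]
      rw [e5]
      exact mul_le_mul_of_nonneg_left e4 (Real.rpow_nonneg hq.le s)
    calc a ^ (-s) * c ^ (-s) ≤ R ^ (-s) * ((2 + D0 / R) ^ s * t ^ (-s)) :=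
          mul_le_mul e1 e3 (Real.rpow_nonneg hc0.le _) (Real.rpow_nonneg hR0.le _)
      _ = _ := by ring
  rcases le_total r1 r2 with h | h
  · exact key r1 r2 h1 h htr
  · rw [mul_comm (r1 ^ (-s))]
    exact key r2 r1 h2 h (by linarith)

end Pool.Agent.ANI
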