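import Pool.Agent.ANI.Cls
import Pool.Agent.ANI.RawAnn
import Pool.Agent.ANM.FBase

/-! # ANI RFCLS: closeness after a re-freezing (helper75)

`b` frozen medium, `b'` the re-frozen one, both admissible (read sites allowed), `W = b' - b`, `|W| ≤ r η`, `r ≤ 1/8`, `η = - Im b`.
* `rf_ent` : `|dG_xy| ≤ (8/7) r √(ι_x ι'_y)` for ALL sites;  `rf_im` : `ι'_y ≤ 2 ι_y`;  `rf_ent'` : `|dG_xy| ≤ 2 r √(ι_x ι_y)`.
* `rf_row` : `∑_y η_y |dG_xy|² ≤ 2 r² ι_x`.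
* `rf_sum` : `∑ |W_z| |G_xz| ≤ √(r Λ ι_x)`, `rf_sum'` the same for `G'` with `√(4 r Λ ι_x)`, `Λ = ∑ |W|`.
* `rf_four` : `∑_A |dG_xy|⁴ ≤ 16 ρ⁴ τ`, `ρ` a bound of `∑ |W| |G_xz|`, `8 ρ⁴ ≤ 1/2`.
* `rf_mass` : `∑_x η_x ∑_y η_y |dG_xy|² ≤ 2 r C Λ`.
* `rf_rel` : relative decay.      * `rf_cls` : all together.
-/

open Matrix Finset

noncomputable section

namespace Pool.Agent.ANI

open Pool.Agent.Kin Pool.Agent.APS Pool.Agent.ANL

variable {ι : Type} [Fintype ι] [DecidableEq ι] {H : Matrix ι ι ℂ} {b b' : ι → ℂ} {r : ℝ}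

/-- a re-freezing: two admissible media, relatively close -/
structure RfC (H : Matrix ι ι ℂ) (b b' : ι → ℂ) (r : ℝ) : Prop where
  adm : ANL.Adm H b
  adm' : ANL.Adm H b'
  r0 : 0 ≤ r
  r1 : r ≤ 1 / 8
  le : ∀ x, ‖b' x - b x‖ ≤ r * (-(b x).im)

section

variable (h : RfC H b b' r)
include h

theorem RfC.eta (x : ι) : (1 - r) * (-(b x).im) ≤ -(b' x).im := by
  have h1 := Complex.abs_im_le_norm (b' x - b x)
  rw [Complex.sub_im] at h1
  have h2 := (abs_le.1 (h1.trans (h.le x))).2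
  linarith

theorem RfC.eta' (x : ι) : -(b x).im ≤ 8 / 7 * (-(b' x).im) := by
  have h1 := h.eta x
  have h2 := h.r1
  have h3 : 0 ≤ -(b x).im := by linarith [h.adm.im x]
  nlinarith

theorem RfC.wle (x : ι) : ‖b' x - b x‖ ≤ 8 / 7 * r * (-(b' x).im) := by
  have h1 := h.le x
  have h2 := h.eta' x
  calc ‖b' x - b x‖ ≤ r * (-(b x).im) := h1
    _ ≤ r * (8 / 7 * (-(b' x).im)) := by
        gcongr
        exact h.r0
    _ = _ := by ring

theorem RfC.sum_eta' (y : ι) : ∑ z, (-(b z).im) * ‖rsc H b' z y‖ ^ 2 ≤ 8 / 7 * (rsc H b' y y).im := by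
  calc ∑ z, (-(b z).im) * ‖rsc H b' z y‖ ^ 2 ≤
        ∑ z, (8 / 7 * (-(b' z).im)) * ‖rsc H b' z y‖ ^ 2 := by
        refine Finset.sum_le_sum fun z _ => ?_
        gcongr
        exact h.eta' z
    _ = 8 / 7 * ∑ z, (-(b' z).im) * ‖rsc H b' y z‖ ^ 2 := by
        rw [Finset.mul_sum]
        refine Finset.sum_congr rfl fun z _ => ?_
        rw [adm_symm h.adm' z y]
        ring
    _ = _ := by rw [← ward h.adm' y]

theorem RfC.ent (x y : ι) : ‖rsc H b' x y - rsc H b x y‖ ≤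
    8 / 7 * r * √((rsc H b x x).im * (rsc H b' y y).im) := by
  rw [norm_sub_rev, adm_sub h.adm h.adm' x y]
  have hη : ∀ z, 0 ≤ -(b z).im := fun z => by linarith [h.adm.im z]
  have h1 : ‖∑ z, rsc H b x z * (b' z - b z) * rsc H b' z y‖ ≤
      r * ∑ z, (√(-(b z).im) * ‖rsc H b x z‖) * (√(-(b z).im) * ‖rsc H b' z y‖) := by
    refine (norm_sum_le _ _).trans ?_
    rw [Finset.mul_sum]
    refine Finset.sum_le_sum fun z _ => ?_
    rw [norm_mul, norm_mul]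
    have hs := Real.mul_self_sqrt (hη z)
    calc ‖rsc H b x z‖ * ‖b' z - b z‖ * ‖rsc H b' z y‖ ≤
          ‖rsc H b x z‖ * (r * (-(b z).im)) * ‖rsc H b' z y‖ := by
          gcongr
          exact h.le z
      _ = r * ((√(-(b z).im) * √(-(b z).im)) * (‖rsc H b x z‖ * ‖rsc H b' z y‖)) := by
          rw [hs]; ring
      _ = _ := by ring
  refine h1.trans ?_
  have h2 := Finset.sum_mul_sq_le_sq_mul_sq (univ : Finset ι)
    (fun z => √(-(b z).im) * ‖rsc H b x z‖) (fun z => √(-(b z).im) * ‖rsc H b' z y‖)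
  have e1 : ∑ z, (√(-(b z).im) * ‖rsc H b x z‖) ^ 2 = (rsc H b x x).im := by
    rw [ward h.adm x]
    refine Finset.sum_congr rfl fun z _ => ?_
    rw [mul_pow, Real.sq_sqrt (hη z)]
  have e2 : ∑ z, (√(-(b z).im) * ‖rsc H b' z y‖) ^ 2 ≤ 8 / 7 * (rsc H b' y y).im := by
    refine le_trans (le_of_eq (Finset.sum_congr rfl fun z _ => ?_)) (h.sum_eta' y)
    rw [mul_pow, Real.sq_sqrt (hη z)]
  have h0 : 0 ≤ ∑ z, (√(-(b z).im) * ‖rsc H b x z‖) * (√(-(b z).im) * ‖rsc H b' z y‖) :=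
    Finset.sum_nonneg fun z _ => by positivity
  have i1 := ward_nonneg h.adm x
  have i2 := ward_nonneg h.adm' y
  have h3 : ∑ z, (√(-(b z).im) * ‖rsc H b x z‖) * (√(-(b z).im) * ‖rsc H b' z y‖) ≤
      8 / 7 * √((rsc H b x x).im * (rsc H b' y y).im) := by
    refine le_of_sq_le_sq ?_ (by positivity)
    calc _ ≤ _ := h2
      _ ≤ (rsc H b x x).im * (8 / 7 * (rsc H b' y y).im) := by
          rw [e1]
          gcongr
      _ ≤ (8 / 7 * √((rsc H b x x).im * (rsc H b' y y).im)) ^ 2 := by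
          rw [mul_pow, Real.sq_sqrt (mul_nonneg i1 i2)]
          nlinarith [mul_nonneg i1 i2]
  calc r * ∑ z, (√(-(b z).im) * ‖rsc H b x z‖) * (√(-(b z).im) * ‖rsc H b' z y‖) ≤
        r * (8 / 7 * √((rsc H b x x).im * (rsc H b' y y).im)) := by
        gcongr
        exact h.r0
    _ = _ := by ring

theorem RfC.im' (y : ι) : (rsc H b' y y).im ≤ 2 * (rsc H b y y).im := by
  have h1 := h.ent y y
  have h2 := Complex.abs_im_le_norm (rsc H b' y y - rsc H b y y)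
  rw [Complex.sub_im] at h2
  have h3 := (abs_le.1 (h2.trans h1)).2
  have i1 := ward_nonneg h.adm y
  have i2 := ward_nonneg h.adm' y
  have h4 : √((rsc H b y y).im * (rsc H b' y y).im) ≤ (rsc H b y y).im + (rsc H b' y y).im := by
    refine Real.sqrt_le_iff.2 ⟨by positivity, ?_⟩
    nlinarith
  have h5 : 8 / 7 * r * √((rsc H b y y).im * (rsc H b' y y).im) ≤
      1 / 7 * ((rsc H b y y).im + (rsc H b' y y).im) := by
    have : 8 / 7 * r ≤ 1 / 7 := by linarith [h.r1]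
    exact mul_le_mul this h4 (Real.sqrt_nonneg _) (by norm_num)
  linarith

theorem RfC.ent' {C : ℝ} {x y : ι} (hx : (rsc H b x x).im ≤ C) (hy : (rsc H b y y).im ≤ C) :
    ‖rsc H b' x y - rsc H b x y‖ ≤ 2 * r * C := by
  have i1 := ward_nonneg h.adm x
  have i2 := ward_nonneg h.adm' y
  have h1 := h.ent x y
  have h2 := h.im' y
  have hC : 0 ≤ C := i1.trans hx
  have h3 : √((rsc H b x x).im * (rsc H b' y y).im) ≤ 3 / 2 * C := by
    refine Real.sqrt_le_iff.2 ⟨by positivity, ?_⟩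
    calc (rsc H b x x).im * (rsc H b' y y).im ≤ C * (2 * C) := by
          gcongr
          linarith
      _ ≤ (3 / 2 * C) ^ 2 := by nlinarith [mul_nonneg hC hC]
  calc ‖rsc H b' x y - rsc H b x y‖ ≤ 8 / 7 * r * √((rsc H b x x).im * (rsc H b' y y).im) := h1
    _ ≤ 8 / 7 * r * (3 / 2 * C) := by
        gcongr
        exact mul_nonneg (by norm_num) h.r0
    _ ≤ _ := by nlinarith [mul_nonneg h.r0 hC]

/-- contraction with the new absorption -/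
theorem RfC.contr (v : ι → ℂ) {m : ι → ℝ} (hm0 : ∀ z, 0 ≤ m z)
    (hm : ∀ z, ‖v z‖ ^ 2 ≤ m z * (-(b' z).im)) :
    ∑ y, (-(b' y).im) * ‖∑ z, v z * rsc H b' z y‖ ^ 2 ≤ ∑ z, m z := by
  have hd : ANM.Diss H b' := ⟨h.adm'.sym, h.adm'.im, h.adm'.unit⟩
  have hη : ∀ z, 0 ≤ -(b' z).im := fun z => by linarith [h.adm'.im z]
  have h1 := hd.wop (w := fun x => -(b' x).im) hη (fun x => le_rfl)
    (fun z => v z / (√(-(b' z).im) : ℂ))
  have hv0 : ∀ z, -(b' z).im = 0 → v z = 0 := by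
    intro z hz
    have := hm z
    rw [hz, mul_zero] at this
    have h2 : ‖v z‖ = 0 := by
      have := norm_nonneg (v z)
      nlinarith
    exact norm_eq_zero.1 h2
  have e1 : ∀ y, ∑ z, rsc H b' y z * ((√(-(b' z).im) : ℂ) * (v z / (√(-(b' z).im) : ℂ))) =
      ∑ z, v z * rsc H b' z y := by
    intro y
    refine Finset.sum_congr rfl fun z _ => ?_
    rw [adm_symm h.adm' y z]
    by_cases hz : -(b' z).im = 0
    · rw [hv0 z hz]; simp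
    · have hp : 0 < -(b' z).im := lt_of_le_of_ne (hη z) (Ne.symm hz)
      have hs : (√(-(b' z).im) : ℂ) ≠ 0 := by
        exact_mod_cast (Real.sqrt_pos.2 hp).ne'
      rw [mul_div_cancel₀ _ hs]
      ring
  simp only [e1] at h1
  refine h1.trans (Finset.sum_le_sum fun z _ => ?_)
  by_cases hz : -(b' z).im = 0
  · rw [hv0 z hz]
    simp only [zero_div, norm_zero]
    simpa using hm0 z
  · have hp : 0 < -(b' z).im := lt_of_le_of_ne (hη z) (Ne.symm hz)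
    rw [norm_div, div_pow, Complex.norm_real, Real.norm_eq_abs, abs_of_nonneg (Real.sqrt_nonneg _),
      Real.sq_sqrt (hη z), div_le_iff₀ hp]
    exact hm z

theorem RfC.dif (x y : ι) : rsc H b' x y - rsc H b x y =
    -∑ z, (rsc H b x z * (b' z - b z)) * rsc H b' z y := by
  rw [← adm_sub h.adm h.adm' x y]
  ring

theorem RfC.row' (x : ι) :
    ∑ y, (-(b' y).im) * ‖rsc H b' x y - rsc H b x y‖ ^ 2 ≤
      ∑ z, 8 / 7 * r * (‖b' z - b z‖ * ‖rsc H b x z‖ ^ 2) := by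
  have hr := h.r0
  have h1 := h.contr (fun z => rsc H b x z * (b' z - b z))
    (m := fun z => 8 / 7 * r * (‖b' z - b z‖ * ‖rsc H b x z‖ ^ 2)) (fun z => by positivity)
    (fun z => by
      rw [norm_mul, mul_pow]
      have := h.wle z
      calc ‖rsc H b x z‖ ^ 2 * ‖b' z - b z‖ ^ 2 =
            ‖rsc H b x z‖ ^ 2 * ‖b' z - b z‖ * ‖b' z - b z‖ := by ring
        _ ≤ ‖rsc H b x z‖ ^ 2 * ‖b' z - b z‖ * (8 / 7 * r * (-(b' z).im)) := by gcongr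
        _ = _ := by ring)
  refine le_trans (le_of_eq (Finset.sum_congr rfl fun y _ => ?_)) h1
  rw [h.dif x y, norm_neg]

theorem RfC.row (X : Finset ι) (x : ι) :
    ∑ y ∈ X, (-(b y).im) * ‖rsc H b' x y - rsc H b x y‖ ^ 2 ≤ 2 * r ^ 2 * (rsc H b x x).im := by
  have hη : ∀ z, 0 ≤ -(b z).im := fun z => by linarith [h.adm.im z]
  have hr := h.r0
  have i1 := ward_nonneg h.adm x
  calc ∑ y ∈ X, (-(b y).im) * ‖rsc H b' x y - rsc H b x y‖ ^ 2 ≤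
        ∑ y, (-(b y).im) * ‖rsc H b' x y - rsc H b x y‖ ^ 2 :=
        Finset.sum_le_univ_sum_of_nonneg fun y => mul_nonneg (hη y) (by positivity)
    _ ≤ ∑ y, 8 / 7 * ((-(b' y).im) * ‖rsc H b' x y - rsc H b x y‖ ^ 2) := by
        refine Finset.sum_le_sum fun y _ => ?_
        have := h.eta' y
        calc (-(b y).im) * ‖rsc H b' x y - rsc H b x y‖ ^ 2 ≤
              (8 / 7 * (-(b' y).im)) * ‖rsc H b' x y - rsc H b x y‖ ^ 2 := by gcongr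
          _ = _ := by ring
    _ ≤ 8 / 7 * ∑ z, 8 / 7 * r * (‖b' z - b z‖ * ‖rsc H b x z‖ ^ 2) := by
        rw [← Finset.mul_sum]
        have := h.row' x
        gcongr
    _ ≤ 8 / 7 * ∑ z, 8 / 7 * r * (r * ((-(b z).im) * ‖rsc H b x z‖ ^ 2)) := by
        refine mul_le_mul_of_nonneg_left (Finset.sum_le_sum fun z _ => ?_) (by norm_num)
        refine mul_le_mul_of_nonneg_left ?_ (by positivity)
        calc ‖b' z - b z‖ * ‖rsc H b x z‖ ^ 2 ≤ (r * (-(b z).im)) * ‖rsc H b x z‖ ^ 2 := by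
              gcongr
              exact h.le z
          _ = _ := by ring
    _ = 64 / 49 * r ^ 2 * (rsc H b x x).im := by
        rw [← Finset.mul_sum, ← Finset.mul_sum, ← ward h.adm x]
        ring
    _ ≤ _ := by nlinarith [mul_nonneg (sq_nonneg r) i1]

theorem RfC.mass (X : Finset ι) {C Λ : ℝ} (hC : ∀ z, b' z ≠ b z → (rsc H b z z).im ≤ C)
    (hΛ : ∑ z, ‖b' z - b z‖ ≤ Λ) (hC0 : 0 ≤ C) :
    ∑ x ∈ X, (-(b x).im) * ∑ y ∈ X, (-(b y).im) * ‖rsc H b' x y - rsc H b x y‖ ^ 2 ≤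
      2 * r * (C * Λ) := by
  have hη : ∀ z, 0 ≤ -(b z).im := fun z => by linarith [h.adm.im z]
  have hr := h.r0
  have hΛ0 : 0 ≤ Λ := (Finset.sum_nonneg fun z _ => norm_nonneg _).trans hΛ
  have h1 : ∀ x ∈ X, (-(b x).im) * ∑ y ∈ X, (-(b y).im) * ‖rsc H b' x y - rsc H b x y‖ ^ 2 ≤
      64 / 49 * r * ∑ z, ‖b' z - b z‖ * ((-(b x).im) * ‖rsc H b z x‖ ^ 2) := by
    intro x _
    have h2 : ∑ y ∈ X, (-(b y).im) * ‖rsc H b' x y - rsc H b x y‖ ^ 2 ≤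
        64 / 49 * r * ∑ z, ‖b' z - b z‖ * ‖rsc H b x z‖ ^ 2 := by
      calc ∑ y ∈ X, (-(b y).im) * ‖rsc H b' x y - rsc H b x y‖ ^ 2 ≤
            ∑ y, (-(b y).im) * ‖rsc H b' x y - rsc H b x y‖ ^ 2 :=
            Finset.sum_le_univ_sum_of_nonneg fun y => mul_nonneg (hη y) (by positivity)
        _ ≤ ∑ y, 8 / 7 * ((-(b' y).im) * ‖rsc H b' x y - rsc H b x y‖ ^ 2) := by
            refine Finset.sum_le_sum fun y _ => ?_
            have := h.eta' y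
            calc (-(b y).im) * ‖rsc H b' x y - rsc H b x y‖ ^ 2 ≤
                  (8 / 7 * (-(b' y).im)) * ‖rsc H b' x y - rsc H b x y‖ ^ 2 := by gcongr
              _ = _ := by ring
        _ ≤ 8 / 7 * ∑ z, 8 / 7 * r * (‖b' z - b z‖ * ‖rsc H b x z‖ ^ 2) := by
            rw [← Finset.mul_sum]
            have := h.row' x
            gcongr
        _ = _ := by rw [← Finset.mul_sum]; ring
    calc (-(b x).im) * ∑ y ∈ X, (-(b y).im) * ‖rsc H b' x y - rsc H b x y‖ ^ 2 ≤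
          (-(b x).im) * (64 / 49 * r * ∑ z, ‖b' z - b z‖ * ‖rsc H b x z‖ ^ 2) := by
          gcongr
          exact hη x
      _ = _ := by
          rw [Finset.mul_sum, Finset.mul_sum, Finset.mul_sum]
          refine Finset.sum_congr rfl fun z _ => ?_
          rw [adm_symm h.adm z x]
          ring
  refine (Finset.sum_le_sum h1).trans ?_
  rw [← Finset.mul_sum, Finset.sum_comm]
  have h3 : ∑ z, ∑ x ∈ X, ‖b' z - b z‖ * ((-(b x).im) * ‖rsc H b z x‖ ^ 2) ≤ C * Λ := by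
    calc ∑ z, ∑ x ∈ X, ‖b' z - b z‖ * ((-(b x).im) * ‖rsc H b z x‖ ^ 2) ≤
          ∑ z, C * ‖b' z - b z‖ := by
          refine Finset.sum_le_sum fun z _ => ?_
          rw [← Finset.mul_sum, mul_comm]
          by_cases hz : b' z = b z
          · rw [hz, sub_self, norm_zero]; simp
          · gcongr
            exact (ward_le h.adm X z).trans (hC z hz)
      _ ≤ _ := by
          rw [← Finset.mul_sum]
          gcongr
  have h4 : 0 ≤ C * Λ := by positivity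
  calc 64 / 49 * r * ∑ z, ∑ x ∈ X, ‖b' z - b z‖ * ((-(b x).im) * ‖rsc H b z x‖ ^ 2) ≤
        64 / 49 * r * (C * Λ) := by gcongr
    _ ≤ _ := by nlinarith [mul_nonneg hr h4]

theorem RfC.sum {Λ : ℝ} (hΛ : ∑ z, ‖b' z - b z‖ ≤ Λ) (x : ι) :
    ∑ z, ‖b' z - b z‖ * ‖rsc H b x z‖ ≤ √(Λ * (r * (rsc H b x x).im)) := by
  have hη : ∀ z, 0 ≤ -(b z).im := fun z => by linarith [h.adm.im z]
  have h0 : 0 ≤ ∑ z, ‖b' z - b z‖ := Finset.sum_nonneg fun z _ => norm_nonneg _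
  have i1 := ward_nonneg h.adm x
  refine Real.le_sqrt_of_sq_le ?_
  have h2 := Finset.sum_mul_sq_le_sq_mul_sq (univ : Finset ι)
    (fun z => √‖b' z - b z‖) (fun z => √‖b' z - b z‖ * ‖rsc H b x z‖)
  have e0 : ∀ z, √‖b' z - b z‖ * (√‖b' z - b z‖ * ‖rsc H b x z‖) =
      ‖b' z - b z‖ * ‖rsc H b x z‖ := fun z => by
    rw [← mul_assoc, Real.mul_self_sqrt (norm_nonneg _)]
  have e1 : ∀ z, √‖b' z - b z‖ ^ 2 = ‖b' z - b z‖ := fun z => Real.sq_sqrt (norm_nonneg _)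
  have e2 : ∀ z, (√‖b' z - b z‖ * ‖rsc H b x z‖) ^ 2 = ‖b' z - b z‖ * ‖rsc H b x z‖ ^ 2 :=
    fun z => by rw [mul_pow, e1 z]
  simp only [e0, e1, e2] at h2
  refine h2.trans ?_
  have h3 : ∑ z, ‖b' z - b z‖ * ‖rsc H b x z‖ ^ 2 ≤ r * (rsc H b x x).im := by
    rw [ward h.adm x, Finset.mul_sum]
    refine Finset.sum_le_sum fun z _ => ?_
    calc ‖b' z - b z‖ * ‖rsc H b x z‖ ^ 2 ≤ (r * (-(b z).im)) * ‖rsc H b x z‖ ^ 2 := by
          gcongr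
          exact h.le z
      _ = _ := by ring
  have h4 : 0 ≤ ∑ z, ‖b' z - b z‖ * ‖rsc H b x z‖ ^ 2 :=
    Finset.sum_nonneg fun z _ => by positivity
  exact mul_le_mul hΛ h3 h4 (h0.trans hΛ)

theorem RfC.sum' {Λ : ℝ} (hΛ : ∑ z, ‖b' z - b z‖ ≤ Λ) (y : ι) :
    ∑ z, ‖b' z - b z‖ * ‖rsc H b' z y‖ ≤ √(Λ * (4 * r * (rsc H b y y).im)) := by
  have h0 : 0 ≤ ∑ z, ‖b' z - b z‖ := Finset.sum_nonneg fun z _ => norm_nonneg _
  have i1 := ward_nonneg h.adm y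
  have i2 := ward_nonneg h.adm' y
  have hr := h.r0
  refine Real.le_sqrt_of_sq_le ?_
  have h2 := Finset.sum_mul_sq_le_sq_mul_sq (univ : Finset ι)
    (fun z => √‖b' z - b z‖) (fun z => √‖b' z - b z‖ * ‖rsc H b' z y‖)
  have e0 : ∀ z, √‖b' z - b z‖ * (√‖b' z - b z‖ * ‖rsc H b' z y‖) =
      ‖b' z - b z‖ * ‖rsc H b' z y‖ := fun z => by
    rw [← mul_assoc, Real.mul_self_sqrt (norm_nonneg _)]
  have e1 : ∀ z, √‖b' z - b z‖ ^ 2 = ‖b' z - b z‖ := fun z => Real.sq_sqrt (norm_nonneg _)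
  have e2 : ∀ z, (√‖b' z - b z‖ * ‖rsc H b' z y‖) ^ 2 = ‖b' z - b z‖ * ‖rsc H b' z y‖ ^ 2 :=
    fun z => by rw [mul_pow, e1 z]
  simp only [e0, e1, e2] at h2
  refine h2.trans ?_
  have h3 : ∑ z, ‖b' z - b z‖ * ‖rsc H b' z y‖ ^ 2 ≤ 4 * r * (rsc H b y y).im := by
    calc ∑ z, ‖b' z - b z‖ * ‖rsc H b' z y‖ ^ 2 ≤
          ∑ z, r * ((-(b z).im) * ‖rsc H b' z y‖ ^ 2) := by
          refine Finset.sum_le_sum fun z _ => ?_
          calc ‖b' z - b z‖ * ‖rsc H b' z y‖ ^ 2 ≤ (r * (-(b z).im)) * ‖rsc H b' z y‖ ^ 2 := by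
                gcongr
                exact h.le z
            _ = _ := by ring
      _ ≤ r * (8 / 7 * (rsc H b' y y).im) := by
          rw [← Finset.mul_sum]
          have := h.sum_eta' y
          gcongr
      _ ≤ _ := by
          have := h.im' y
          nlinarith [mul_nonneg hr i1, mul_le_mul_of_nonneg_left this hr]
  have h4 : 0 ≤ ∑ z, ‖b' z - b z‖ * ‖rsc H b' z y‖ ^ 2 :=
    Finset.sum_nonneg fun z _ => by positivity
  exact mul_le_mul hΛ h3 h4 (h0.trans hΛ)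

end

omit [Fintype ι] [DecidableEq ι] in
theorem pow4_le {Z : Finset ι} {p c : ι → ℝ} (hp : ∀ z ∈ Z, 0 ≤ p z) :
    (∑ z ∈ Z, p z * c z) ^ 4 ≤ (∑ z ∈ Z, p z) ^ 3 * ∑ z ∈ Z, p z * c z ^ 4 := by
  have key : ∀ f : ι → ℝ, (∑ z ∈ Z, p z * f z) ^ 2 ≤ (∑ z ∈ Z, p z) * ∑ z ∈ Z, p z * f z ^ 2 := by
    intro f
    have h2 := Finset.sum_mul_sq_le_sq_mul_sq Z (fun z => √(p z)) (fun z => √(p z) * f z)
    have e0 : ∑ z ∈ Z, √(p z) * (√(p z) * f z) = ∑ z ∈ Z, p z * f z :=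
      Finset.sum_congr rfl fun z hz => by rw [← mul_assoc, Real.mul_self_sqrt (hp z hz)]
    have e1 : ∑ z ∈ Z, √(p z) ^ 2 = ∑ z ∈ Z, p z :=
      Finset.sum_congr rfl fun z hz => Real.sq_sqrt (hp z hz)
    have e2 : ∑ z ∈ Z, (√(p z) * f z) ^ 2 = ∑ z ∈ Z, p z * f z ^ 2 :=
      Finset.sum_congr rfl fun z hz => by rw [mul_pow, Real.sq_sqrt (hp z hz)]
    rw [e0, e1, e2] at h2
    exact h2
  have h0 : 0 ≤ ∑ z ∈ Z, p z := Finset.sum_nonneg hp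
  have h1 := key c
  have h2 := key (fun z => c z ^ 2)
  have e3 : ∀ z, (c z ^ 2) ^ 2 = c z ^ 4 := fun z => by ring
  simp only [e3] at h2
  calc (∑ z ∈ Z, p z * c z) ^ 4 = ((∑ z ∈ Z, p z * c z) ^ 2) ^ 2 := by ring
    _ ≤ ((∑ z ∈ Z, p z) * ∑ z ∈ Z, p z * c z ^ 2) ^ 2 := by gcongr
    _ = (∑ z ∈ Z, p z) ^ 2 * (∑ z ∈ Z, p z * c z ^ 2) ^ 2 := by ring
    _ ≤ (∑ z ∈ Z, p z) ^ 2 * ((∑ z ∈ Z, p z) * ∑ z ∈ Z, p z * c z ^ 4) := by gcongr
    _ = _ := by ring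

theorem RfC.four1 (h : RfC H b b' r) {Z A : Finset ι} (hZ : ∀ z, z ∉ Z → b' z = b z) {ρ τ : ℝ}
    (hτ : ∀ z ∈ Z, ∑ y ∈ A, ‖rsc H b' z y‖ ^ 4 ≤ τ) {x : ι} (hτ0 : 0 ≤ τ)
    (hρ : ∑ z, ‖b' z - b z‖ * ‖rsc H b x z‖ ≤ ρ) :
    ∑ y ∈ A, ‖rsc H b' x y - rsc H b x y‖ ^ 4 ≤ ρ ^ 4 * τ := by
  set p : ι → ℝ := fun z => ‖b' z - b z‖ * ‖rsc H b x z‖ with hp
  have hp0 : ∀ z, 0 ≤ p z := fun z => by positivity
  have hpZ : ∑ z ∈ Z, p z ≤ ρ :=
    (Finset.sum_le_univ_sum_of_nonneg hp0).trans hρ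
  have hρ0 : 0 ≤ ρ := (Finset.sum_nonneg fun z _ => hp0 z).trans hρ
  have hP0 : 0 ≤ ∑ z ∈ Z, p z := Finset.sum_nonneg fun z _ => hp0 z
  have h1 : ∀ y, ‖rsc H b' x y - rsc H b x y‖ ≤ ∑ z ∈ Z, p z * ‖rsc H b' z y‖ := by
    intro y
    rw [h.dif x y, norm_neg]
    have e1 : ∑ z, (rsc H b x z * (b' z - b z)) * rsc H b' z y =
        ∑ z ∈ Z, (rsc H b x z * (b' z - b z)) * rsc H b' z y := by
      symm
      refine Finset.sum_subset (Finset.subset_univ Z) fun z _ hz => ?_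
      rw [hZ z hz]; ring
    rw [e1]
    refine (norm_sum_le _ _).trans (le_of_eq (Finset.sum_congr rfl fun z _ => ?_))
    rw [norm_mul, norm_mul, hp]
    ring
  calc ∑ y ∈ A, ‖rsc H b' x y - rsc H b x y‖ ^ 4 ≤
        ∑ y ∈ A, (∑ z ∈ Z, p z) ^ 3 * ∑ z ∈ Z, p z * ‖rsc H b' z y‖ ^ 4 := by
        refine Finset.sum_le_sum fun y _ => ?_
        have h2 : ‖rsc H b' x y - rsc H b x y‖ ^ 4 ≤ (∑ z ∈ Z, p z * ‖rsc H b' z y‖) ^ 4 := by
          have := h1 y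
          gcongr
        exact h2.trans (pow4_le fun z _ => hp0 z)
    _ = (∑ z ∈ Z, p z) ^ 3 * ∑ z ∈ Z, p z * ∑ y ∈ A, ‖rsc H b' z y‖ ^ 4 := by
        rw [← Finset.mul_sum, Finset.sum_comm]
        congr 1
        refine Finset.sum_congr rfl fun z _ => ?_
        rw [Finset.mul_sum]
    _ ≤ (∑ z ∈ Z, p z) ^ 3 * ∑ z ∈ Z, p z * τ := by
        refine mul_le_mul_of_nonneg_left (Finset.sum_le_sum fun z hz =>
          mul_le_mul_of_nonneg_left (hτ z hz) (hp0 z)) (by positivity)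
    _ = (∑ z ∈ Z, p z) ^ 4 * τ := by rw [← Finset.sum_mul]; ring
    _ ≤ _ := by gcongr

theorem RfC.four (h : RfC H b b' r) {Z A : Finset ι} (hZ : ∀ z, z ∉ Z → b' z = b z) {ρ τ : ℝ}
    (hτ : ∀ z ∈ Z, ∑ y ∈ A, ‖rsc H b z y‖ ^ 4 ≤ τ) (hτ0 : 0 ≤ τ)
    (hρZ : ∀ x ∈ Z, ∑ z, ‖b' z - b z‖ * ‖rsc H b x z‖ ≤ ρ) (hρ8 : 8 * ρ ^ 4 ≤ 1 / 2) {x : ι}
    (hρ : ∑ z, ‖b' z - b z‖ * ‖rsc H b x z‖ ≤ ρ) :
    ∑ y ∈ A, ‖rsc H b' x y - rsc H b x y‖ ^ 4 ≤ ρ ^ 4 * (16 * τ) := by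
  rcases Z.eq_empty_or_nonempty with rfl | hne
  · refine h.four1 hZ (fun z hz => absurd hz (Finset.notMem_empty z)) (by positivity) hρ
  · obtain ⟨w, hw, hmax⟩ := Finset.exists_max_image Z (fun z => ∑ y ∈ A, ‖rsc H b' z y‖ ^ 4) hne
    set τ' := ∑ y ∈ A, ‖rsc H b' w y‖ ^ 4 with hτ'
    have hτ'0 : 0 ≤ τ' := Finset.sum_nonneg fun y _ => by positivity
    have h1 := h.four1 (A := A) hZ (fun z hz => hmax z hz) hτ'0 (hρZ w hw)
    have h2 : τ' ≤ 8 * (τ + ρ ^ 4 * τ') := by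
      calc τ' ≤ ∑ y ∈ A, 8 * (‖rsc H b w y‖ ^ 4 + ‖rsc H b' w y - rsc H b w y‖ ^ 4) := by
            refine Finset.sum_le_sum fun y _ => ?_
            have := four_add (rsc H b w y) (rsc H b' w y - rsc H b w y)
            rwa [add_sub_cancel] at this
        _ ≤ _ := by
            rw [← Finset.mul_sum, Finset.sum_add_distrib]
            have := hτ w hw
            linarith
    have h3 : τ' ≤ 16 * τ := by nlinarith [mul_le_mul_of_nonneg_right hρ8 hτ'0]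
    exact h.four1 hZ (fun z hz => (hmax z hz).trans h3) (by positivity) hρ

/-- relative decay on `X0`; the perturbation is supported in `Z ⊆ X0` -/
theorem rel_on {Z X0 : Finset ι} (hb : ANL.Adm H b) (hb' : ANL.Adm H b') (hZX : Z ⊆ X0)
    (hZ : ∀ z, z ∉ Z → b' z = b z) {ω : ι → ι → ℝ} {K0 C ε : ℝ}
    (hω0 : ∀ x y, 0 ≤ ω x y) (hK0 : 0 ≤ K0) (hC : 0 ≤ C) (hε0 : 0 ≤ ε)
    (hω : ∀ x y z, ω x y ≤ K0 * ω x z ∨ ω x y ≤ K0 * ω z y)
    (hG : ∀ x ∈ X0, ∀ y ∈ X0, ‖rsc H b x y‖ * ω x y ≤ C)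
    (hr : ∀ x ∈ X0, ∑ z, ‖b' z - b z‖ * ‖rsc H b x z‖ ≤ ε)
    (hr' : ∀ y ∈ X0, ∑ z, ‖b' z - b z‖ * ‖rsc H b' z y‖ ≤ ε)
    (hε : K0 * ε ≤ 1 / 2) {x y : ι} (hx : x ∈ X0) (hy : y ∈ X0) :
    ‖rsc H b' x y - rsc H b x y‖ * ω x y ≤ 4 * K0 * C * ε := by
  classical
  set G1 : ι → ι → ℂ := fun x y => if x ∈ X0 ∧ y ∈ X0 then rsc H b x y else 0 with hG1
  set G2 : ι → ι → ℂ := fun x y => if x ∈ X0 ∧ y ∈ X0 then rsc H b' x y else 0 with hG2
  set D : ι → ℂ := fun z => b z - b' z with hD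
  have hDn : ∀ z, ‖D z‖ = ‖b' z - b z‖ := fun z => by rw [hD]; simp only; rw [norm_sub_rev]
  have hD0 : ∀ z, z ∉ Z → D z = 0 := fun z hz => by rw [hD]; simp only; rw [hZ z hz, sub_self]
  have hGG : ∀ x y, G2 x y - G1 x y = ∑ z, G1 x z * D z * G2 z y := by
    intro x y
    by_cases hxy : x ∈ X0 ∧ y ∈ X0
    · have h1 : G2 x y - G1 x y = -(rsc H b x y - rsc H b' x y) := by
        rw [hG2, hG1]; simp only; rw [if_pos hxy, if_pos hxy]; ring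
      rw [h1, adm_sub hb hb' x y, ← Finset.sum_neg_distrib]
      refine Finset.sum_congr rfl fun z _ => ?_
      by_cases hz : z ∈ Z
      · rw [hG1, hG2]; simp only
        rw [if_pos ⟨hxy.1, hZX hz⟩, if_pos ⟨hZX hz, hxy.2⟩, hD]; simp only
        ring
      · rw [hD0 z hz, hZ z hz]; ring
    · have h1 : G2 x y - G1 x y = 0 := by
        rw [hG2, hG1]; simp only; rw [if_neg hxy, if_neg hxy, sub_self]
      rw [h1]
      symm
      refine Finset.sum_eq_zero fun z _ => ?_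
      by_cases hx : x ∈ X0
      · have hy : y ∉ X0 := fun hy => hxy ⟨hx, hy⟩
        rw [hG2]; simp only
        rw [if_neg fun hh => hy hh.2, mul_zero]
      · rw [hG1]; simp only
        rw [if_neg fun hh => hx hh.1, zero_mul, zero_mul]
  have hG' : ∀ x y, ‖G1 x y‖ * ω x y ≤ C := by
    intro x y
    rw [hG1]; simp only
    split_ifs with hxy
    · exact hG x hxy.1 y hxy.2
    · rw [norm_zero, zero_mul]; exact hC
  have hs : ∀ x, ∑ z, ‖D z‖ * ‖G1 x z‖ ≤ ε := by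
    intro x
    by_cases hx : x ∈ X0
    · refine (Finset.sum_le_sum fun z _ => ?_).trans (hr x hx)
      rw [hDn z]
      gcongr
      rw [hG1]; simp only
      split_ifs
      · exact le_rfl
      · rw [norm_zero]; exact norm_nonneg _
    · refine le_trans (le_of_eq (Finset.sum_eq_zero fun z _ => ?_)) hε0
      rw [hG1]; simp only
      rw [if_neg fun hh => hx hh.1, norm_zero, mul_zero]
  have hs' : ∀ y, ∑ z, ‖D z‖ * ‖G2 z y‖ ≤ ε := by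
    intro y
    by_cases hy : y ∈ X0
    · refine (Finset.sum_le_sum fun z _ => ?_).trans (hr' y hy)
      rw [hDn z]
      gcongr
      rw [hG2]; simp only
      split_ifs
      · exact le_rfl
      · rw [norm_zero]; exact norm_nonneg _
    · refine le_trans (le_of_eq (Finset.sum_eq_zero fun z _ => ?_)) hε0
      rw [hG2]; simp only
      rw [if_neg fun hh => hy hh.2, norm_zero, mul_zero]
  have := rel_decay hGG hω0 hK0 hω hG' hs hs' hε x y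
  rw [hG1, hG2] at this
  simp only at this
  rwa [if_pos ⟨hx, hy⟩, if_pos ⟨hx, hy⟩] at this

/-- closeness after a re-freezing: all observables.  `Z ⊆ X0` contains the support of `b' - b`, `C` bounds `Im G_xx` on `X0`,
`Λ ≥ ∑ |b' - b|`, `ρ = √(4 r C Λ)`. -/
theorem rf_cls (h : RfC H b b' r) {X0 X A Z : Finset ι} (hZX : Z ⊆ X0) (hXX : X ⊆ X0)
    (hZ : ∀ z, z ∉ Z → b' z = b z) {k : ι → ℝ} {ω : ι → ι → ℝ} {δ : ι → ℝ}
    {C Cω K0 Λ ρ τ ν ε q W Kf : ℝ}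
    (hC : ∀ x ∈ X0, (rsc H b x x).im ≤ C) (hC0 : 0 ≤ C) (hΛ : ∑ z, ‖b' z - b z‖ ≤ Λ)
    (hρ : 4 * r * C * Λ ≤ ρ ^ 2) (hρ0 : 0 ≤ ρ) (hρ8 : 8 * ρ ^ 4 ≤ 1 / 2) (hKρ : K0 * ρ ≤ 1 / 2)
    (hτ : ∀ z ∈ Z, ∑ y ∈ A, ‖rsc H b z y‖ ^ 4 ≤ τ) (hτ0 : 0 ≤ τ)
    (hω0 : ∀ x y, 0 ≤ ω x y) (hK0 : 0 ≤ K0) (hCω : 0 ≤ Cω)
    (hω : ∀ x y z, ω x y ≤ K0 * ω x z ∨ ω x y ≤ K0 * ω z y)
    (hG : ∀ x ∈ X0, ∀ y ∈ X0, ‖rsc H b x y‖ * ω x y ≤ Cω)
    (hdm : ∑ x ∈ A, k x * ‖rsc H b' x x - rsc H b x x‖ ≤ W)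
    (hfar : ∀ x ∈ X0, ∀ y ∈ X0, ‖rsc H b' x y - rsc H b x y‖ ≤ Kf * Real.exp (-(ν * δ x)))
    (hε0 : 0 ≤ ε) (h1 : 2 * r ^ 2 * C ≤ ε ^ 2) (h2 : 4 * K0 * Cω * ρ ≤ ε)
    (h3 : ρ ^ 4 * (16 * τ) ≤ q) (h4 : 2 * r * (C * Λ) ≤ W) :
    Cls (rsc H b) (rsc H b') (fun x => -(b x).im) k X0 X A ω δ ν ε q W Kf where
  ε0 := hε0
  symG := adm_symm h.adm
  symG' := adm_symm h.adm'
  row x hx := by
    refine (h.row X x).trans (le_trans ?_ h1)
    have := hC x hx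
    gcongr
  four x hx := by
    have hΛ0 : 0 ≤ Λ := (Finset.sum_nonneg fun z _ => norm_nonneg _).trans hΛ
    have hs : ∀ x ∈ X0, ∑ z, ‖b' z - b z‖ * ‖rsc H b x z‖ ≤ ρ := by
      intro x hx
      refine (h.sum hΛ x).trans ?_
      refine Real.sqrt_le_iff.2 ⟨hρ0, le_trans ?_ hρ⟩
      have h5 : r * (rsc H b x x).im ≤ r * C := mul_le_mul_of_nonneg_left (hC x hx) h.r0
      have h6 : 0 ≤ r * C * Λ := mul_nonneg (mul_nonneg h.r0 hC0) hΛ0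
      nlinarith [mul_le_mul_of_nonneg_left h5 hΛ0]
    exact (h.four hZ hτ hτ0 (fun z hz => hs z (hZX hz)) hρ8 (hs x hx)).trans h3
  mass := (h.mass X (fun z hz => hC z (hZX (by
    by_contra hc
    exact hz (hZ z hc)))) hΛ hC0).trans h4
  dmass := hdm
  rel x hx y hy := by
    have hΛ0 : 0 ≤ Λ := (Finset.sum_nonneg fun z _ => norm_nonneg _).trans hΛ
    have hs : ∀ x ∈ X0, ∑ z, ‖b' z - b z‖ * ‖rsc H b x z‖ ≤ ρ := by
      intro x hx
      refine (h.sum hΛ x).trans ?_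
      refine Real.sqrt_le_iff.2 ⟨hρ0, le_trans ?_ hρ⟩
      have h5 : r * (rsc H b x x).im ≤ r * C := mul_le_mul_of_nonneg_left (hC x hx) h.r0
      have h6 : 0 ≤ r * C * Λ := mul_nonneg (mul_nonneg h.r0 hC0) hΛ0
      nlinarith [mul_le_mul_of_nonneg_left h5 hΛ0]
    have hs' : ∀ y ∈ X0, ∑ z, ‖b' z - b z‖ * ‖rsc H b' z y‖ ≤ ρ := by
      intro y hy
      refine (h.sum' hΛ y).trans ?_
      refine Real.sqrt_le_iff.2 ⟨hρ0, le_trans ?_ hρ⟩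
      have h5 : r * (rsc H b y y).im ≤ r * C := mul_le_mul_of_nonneg_left (hC y hy) h.r0
      nlinarith [mul_le_mul_of_nonneg_left h5 hΛ0]
    exact (rel_on h.adm h.adm' hZX hZ hω0 hK0 hCω hρ0 hω hG hs hs' hKρ hx hy).trans h2
  far := hfar

end Pool.Agent.ANI
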