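import Pool.Agent.ANI.RemDefs
import Pool.Agent.ANI.RfCls
import Pool.Agent.ANI.RawCls
import Pool.Agent.AND.RfTor
import Pool.Agent.AND.UseSup
import Pool.Agent.AND.RfFar

/-! # ANI REMEX: the medium after a removal exists (helper75)

`RawIn f t u M B bt X0 δ ..` : `M` good, `bt` = diagonal of `M` with the sites of `B` read (frozen self energies elsewhere),
closeness `Cls` of the raw medium.
* `RawIn.tb` : `TB` for the raw medium;  `RawIn.rt` : the hypotheses of the re-freezing lemma `RT`.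
* `RawIn.med` : the new medium, `RawIn.rem` : `Rem M M' B`.
* `RawIn.cls2` : closeness of the raw and the new medium (far decay as hypothesis), `RawIn.total` : total closeness `RCls`.
-/

open Matrix Finset

noncomputable section

namespace Pool.Agent.ANI

open Pool.Agent.Kin Pool.Agent.APS Pool.Agent.AND Pool.Agent.ANL Pool.Agent.ANM Pool.Agent.GSC

theorem Cls.rate {ι : Type} {G G' : ι → ι → ℂ} {e k : ι → ℝ} {X0 X A : Finset ι}
    {ω : ι → ι → ℝ} {δ : ι → ℝ} {ν ν' ε q W Kf : ℝ} (h : Cls G G' e k X0 X A ω δ ν ε q W Kf)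
    (hν : ν' ≤ ν) (hδ : ∀ x, 0 ≤ δ x) : Cls G G' e k X0 X A ω δ ν' ε q W Kf where
  ε0 := h.ε0
  symG := h.symG
  symG' := h.symG'
  row := h.row
  four := h.four
  mass := h.mass
  dmass := h.dmass
  rel := h.rel
  far x hx y hy := (h.far x hx y hy).trans (by
    have := h.Kf0 hx
    have := mul_le_mul_of_nonneg_right hν (hδ x)
    gcongr)

/-- change of the distance function -/
theorem Cls.dist {ι : Type} {G G' : ι → ι → ℂ} {e k : ι → ℝ} {X0 X A : Finset ι}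
    {ω : ι → ι → ℝ} {δ δ' : ι → ℝ} {ν ε q W Kf ρ0 : ℝ} (h : Cls G G' e k X0 X A ω δ ν ε q W Kf)
    (hν : 0 ≤ ν) (hδ : ∀ x, δ' x - ρ0 ≤ δ x) :
    Cls G G' e k X0 X A ω δ' ν ε q W (Kf * Real.exp (ν * ρ0)) where
  ε0 := h.ε0
  symG := h.symG
  symG' := h.symG'
  row := h.row
  four := h.four
  mass := h.mass
  dmass := h.dmass
  rel := h.rel
  far x hx y hy := (h.far x hx y hy).trans (by
    rw [mul_assoc, ← Real.exp_add]
    have := h.Kf0 hx
    have := mul_le_mul_of_nonneg_left (hδ x) hν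
    gcongr
    linarith)

variable {d L : ℕ} [NeZero L]

/-- raw data of a removal -/
structure RawIn (f : Fix) (t : Tol d L) (u : UTol) (M : Med (Tor d L)) (B : Finset (Tor d L))
    (bt : Tor d L → ℂ) (X0 : Finset (Tor d L)) (δ : Tor d L → ℝ) (s5 ν ε q W Kf : ℝ) : Prop where
  good : Good f t M
  tin : t.In f M u
  num : Num f t u
  k1 : t.k ≤ 1
  rho0 : 0 < u.rho
  rho : u.rho ≤ 2
  BU : Disjoint B M.U
  off : ∀ x, x ∉ B → bt x = M.b x
  imB : ∀ x ∈ B, (bt x).im = 0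
  unit : IsUnit (H0T d L + diagonal bt).det
  mbb : IsUnit (MBB (H0T d L) bt (M.nr \ B)).det
  XX : M.nr \ B ⊆ X0
  X0n : X0 ⊆ M.nr
  s50 : 0 ≤ s5
  δ0 : ∀ x, 0 ≤ δ x
  cls : Cls (rsc (H0T d L) M.b) (rsc (H0T d L) bt) M.eta M.k X0 (M.nr \ B) (M.A \ B) (om5 s5)
    δ ν ε q W Kf
  /-- smallness -/
  n1 : ε ≤ f.C1
  n2 : 8 * (2 * ε * √f.C1 + ε ^ 2) ≤ u.rho * f.c1

variable {f : Fix} {t : Tol d L} {u : UTol} {M : Med (Tor d L)} {B : Finset (Tor d L)}
  {bt : Tor d L → ℂ} {X0 : Finset (Tor d L)} {δ : Tor d L → ℝ} {s5 ν ε q W Kf : ℝ}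

namespace RawIn

variable (h : RawIn f t u M B bt X0 δ s5 ν ε q W Kf)
include h

theorem nU {x : Tor d L} (hx : x ∈ M.nr \ B) : x ∉ M.U ∧ x ∉ B := by
  rw [Finset.mem_sdiff, mem_nr] at hx
  exact hx

theorem adm : ANL.Adm (H0T d L) bt := by
  refine ⟨(h.good.admN h.tin h.num).sym, fun x => ?_, h.unit⟩
  by_cases hx : x ∈ B
  · exact (h.imB x hx).le
  · rw [h.off x hx]
    exact (h.good.admN h.tin h.num).im x

theorem bt_im0 {x : Tor d L} (hx : x ∉ M.nr \ B) : (bt x).im = 0 := by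
  by_cases hB : x ∈ B
  · exact h.imB x hB
  · rw [h.off x hB]
    have hU : x ∈ M.U := by
      by_contra hc
      exact hx (Finset.mem_sdiff.2 ⟨mem_nr.2 hc, hB⟩)
    exact h.good.im_zero hU

theorem bt_neg {x : Tor d L} (hx : x ∈ M.nr \ B) : (bt x).im < 0 := by
  rw [h.off x (h.nU hx).2]
  exact h.good.im_neg h.tin h.num (h.nU hx).1

theorem dd {x : Tor d L} (hx : x ∈ X0) :
    ‖rsc (H0T d L) bt x x - rsc (H0T d L) M.b x x‖ ≤ ε := by
  have h1 := h.cls.rel x hx x hx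
  rwa [om5_self, mul_one] at h1

theorem dxy {x y : Tor d L} (hx : x ∈ X0) (hy : y ∈ X0) :
    ‖rsc (H0T d L) bt x y - rsc (H0T d L) M.b x y‖ ≤ ε := by
  have h1 := h.cls.rel x hx y hy
  have h2 := om5_ge_one h.s50 x y
  have h3 := norm_nonneg (rsc (H0T d L) bt x y - rsc (H0T d L) M.b x y)
  nlinarith

/-- the levels after the reading -/
def kk (_h : RawIn f t u M B bt X0 δ s5 ν ε q W Kf) (x : Tor d L) : ℝ :=
  if x ∈ B then 0 else M.k x

theorem kk_le (x : Tor d L) : h.kk x ≤ M.k x := by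
  unfold kk
  split_ifs
  · exact h.good.k_nonneg h.num x
  · exact le_rfl

theorem kk0 (x : Tor d L) : 0 ≤ h.kk x := by
  unfold kk
  split_ifs
  · exact le_rfl
  · exact h.good.k_nonneg h.num x

theorem kk_off {x : Tor d L} (hx : x ∉ M.nr \ B) : h.kk x = 0 := by
  unfold kk
  split_ifs with hB
  · rfl
  · have hU : x ∈ M.U := by
      by_contra hc
      exact hx (Finset.mem_sdiff.2 ⟨mem_nr.2 hc, hB⟩)
    exact h.good.k0 x fun hA => h.good.nU_of_A hA hU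

theorem h3t {x : Tor d L} (hx : x ∈ M.nr \ B) :
    ∑ y ∈ M.nr \ B, h.kk y * (rsc (H0T d L) M.b y y).im * (rsc (H0T d L) bt x y).re ^ 2 ≤
      (1 - u.rho / 4) * (rsc (H0T d L) M.b x x).im := by
  have hxU := (h.nU hx).1
  have hi := h.good.io_ge h.tin h.num hxU
  have hi1 := h.good.io_le h.tin h.num hxU
  have hc1 := h.num.c1
  set I := (rsc (H0T d L) M.b x x).im with hI
  have hreq := h.good.reSq h.tin h.num.eta.le h.num.kl.le h.num.st (fun x _ => by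
      have e1 := h.tin.del x
      have e2 := h.num.g0
      linarith [h.num.c1]) h.rho x hxU
  set w : Tor d L → ℝ := fun y => h.kk y * (rsc (H0T d L) M.b y y).im with hw
  have hw0 : ∀ y ∈ M.nr \ B, 0 ≤ w y := fun y hy =>
    mul_nonneg (h.kk0 y) (h.good.io_pos h.tin h.num (h.nU hy).1).le
  have hwe : ∀ y ∈ M.nr \ B, w y ≤ M.eta y := fun y hy =>
    (mul_le_mul_of_nonneg_right (h.kk_le y)
      (h.good.io_pos h.tin h.num (h.nU hy).1).le).trans
      (h.good.kio_le h.tin h.num (h.nU hy).1)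
  have hρ2 : 0 ≤ 1 - u.rho / 2 := by linarith [h.rho]
  have s1 : ∑ y ∈ M.nr \ B, w y * ‖((rsc (H0T d L) M.b x y).re : ℂ)‖ ^ 2 ≤
      (√((1 - u.rho / 2) * I)) ^ 2 := by
    rw [Real.sq_sqrt (mul_nonneg hρ2 (by linarith))]
    refine le_trans ?_ hreq
    calc ∑ y ∈ M.nr \ B, w y * ‖((rsc (H0T d L) M.b x y).re : ℂ)‖ ^ 2 ≤
          ∑ y ∈ M.nr \ B, M.k y * (rsc (H0T d L) M.b y y).im *
            (rsc (H0T d L) M.b x y).re ^ 2 := by
          refine Finset.sum_le_sum fun y hy => ?_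
          rw [Complex.norm_real, Real.norm_eq_abs, sq_abs, hw]
          simp only
          have := h.kk_le y
          have := (h.good.io_pos h.tin h.num (h.nU hy).1).le
          gcongr
      _ ≤ _ := by
          refine Finset.sum_le_univ_sum_of_nonneg fun y => ?_
          refine mul_nonneg (mul_nonneg (h.good.k_nonneg h.num y) ?_) (sq_nonneg _)
          exact ward_nonneg (h.good.admN h.tin h.num) y
  have s2 : ∑ y ∈ M.nr \ B, w y * ‖((rsc (H0T d L) bt x y - rsc (H0T d L) M.b x y).re : ℂ)‖ ^ 2 ≤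
      ε ^ 2 := by
    refine le_trans ?_ (h.cls.row x (h.XX hx))
    refine Finset.sum_le_sum fun y hy => ?_
    have e1 : ‖((rsc (H0T d L) bt x y - rsc (H0T d L) M.b x y).re : ℂ)‖ ≤
        ‖rsc (H0T d L) bt x y - rsc (H0T d L) M.b x y‖ := by
      rw [Complex.norm_real, Real.norm_eq_abs]
      exact Complex.abs_re_le_norm _
    exact mul_le_mul (hwe y hy) (pow_le_pow_left₀ (norm_nonneg _) e1 2) (by positivity)
      ((hw0 y hy).trans (hwe y hy))
  have s3 := row_add hw0 (Real.sqrt_nonneg _) h.cls.ε0 s1 s2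
  have e4 : ∀ y, ((rsc (H0T d L) M.b x y).re : ℂ) +
      ((rsc (H0T d L) bt x y - rsc (H0T d L) M.b x y).re : ℂ) =
      ((rsc (H0T d L) bt x y).re : ℂ) := by
    intro y
    rw [Complex.sub_re]
    push_cast
    ring
  simp only [e4] at s3
  have s4 : ∑ y ∈ M.nr \ B, h.kk y * (rsc (H0T d L) M.b y y).im * (rsc (H0T d L) bt x y).re ^ 2 =
      ∑ y ∈ M.nr \ B, w y * ‖((rsc (H0T d L) bt x y).re : ℂ)‖ ^ 2 := by
    refine Finset.sum_congr rfl fun y _ => ?_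
    rw [Complex.norm_real, Real.norm_eq_abs, sq_abs]
  rw [s4]
  refine s3.trans ?_
  have e5 : √((1 - u.rho / 2) * I) ≤ √f.C1 := by
    refine Real.sqrt_le_sqrt ?_
    have hI0 : 0 ≤ I := hc1.le.trans hi
    have : 0 ≤ u.rho * I := mul_nonneg h.rho0.le hI0
    nlinarith
  have e6 : (√((1 - u.rho / 2) * I)) ^ 2 = (1 - u.rho / 2) * I :=
    Real.sq_sqrt (mul_nonneg hρ2 (by linarith))
  have e7 := h.n2
  have hε := h.cls.ε0
  have e8 : (√((1 - u.rho / 2) * I) + ε) ^ 2 ≤ (1 - u.rho / 2) * I + (2 * ε * √f.C1 + ε ^ 2) := by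
    nlinarith [mul_le_mul_of_nonneg_left e5 hε]
  refine e8.trans ?_
  have e9 : u.rho * f.c1 ≤ u.rho * I := mul_le_mul_of_nonneg_left hi h.rho0.le
  have e10 : 0 ≤ u.rho * f.c1 := mul_nonneg h.rho0.le hc1.le
  have e11 : (1 - u.rho / 2) * I = I - u.rho * I / 2 := by ring
  have e12 : (1 - u.rho / 4) * I = I - u.rho * I / 4 := by ring
  rw [e11, e12]
  linarith

/-- smallness used for the sup norm bound of the raw medium -/
structure _root_.Pool.Agent.ANI.ExNum (f : Fix) (u : UTol) (ε K Mv cc : ℝ) (d l : ℕ) : Prop where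
  al1 : 16 * l * (ε / f.c1) ≤ 1
  al2 : 16 * (ε / f.c1) ≤ (u.rho / 4) ^ 2
  num : SBN d (u.rho / 4) f.c1 (2 * f.C1) (2 * f.C1) ((u.Lam + ε) ^ 2) K Mv cc l
  sm : 768 * (l : ℝ) ^ 2 * (2 * f.C1) ^ 3 * ε ≤ f.c1 ^ 4

/-- `c` of the frozen medium: `bt = c' - kk γ` -/
def cc' (x : Tor d L) : ℂ := bt x + (h.kk x : ℂ) * rsc (H0T d L) M.b x x

theorem bv_eq : bv h.kk h.cc' (fun x => rsc (H0T d L) M.b x x) = bt := by
  funext x
  unfold bv cc'
  ring

theorem tb {φ : Tor d L → Tor d L → ℝ} {K Mv cc : ℝ} {l : ℕ} (hn : ExNum f u ε K Mv cc d l)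
    (hφ : WFam (H0T d L) bt (M.nr \ B) φ Mv cc d) :
    TB (H0T d L) bt (M.nr \ B) h.kk (fun x => (rsc (H0T d L) M.b x x).im) φ (ε / f.c1)
      (u.rho / 4) f.c1 (2 * f.C1) (2 * f.C1) ((u.Lam + ε) ^ 2) K Mv cc d l where
  adm := h.adm
  neg x hx := h.bt_neg hx
  zero x hx := h.bt_im0 hx
  mbb := h.mbb
  k0 := h.kk0
  k1 x := (h.kk_le x).trans ((h.good.k_le h.num x).trans h.k1)
  mlo x hx := h.good.io_ge h.tin h.num (h.nU hx).1
  mup x hx := (h.good.io_le h.tin h.num (h.nU hx).1).trans (by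
    have := h.good.C1_pos h.tin h.num
    linarith)
  abs x hx := by
    rw [h.off x (h.nU hx).2]
    exact (mul_le_mul_of_nonneg_right (h.kk_le x)
      (h.good.io_pos h.tin h.num (h.nU hx).1).le).trans (h.good.kio_le h.tin h.num (h.nU hx).1)
  imd x hx := by
    have h1 := h.dd (h.XX hx)
    have h2 := Complex.abs_im_le_norm (rsc (H0T d L) bt x x - rsc (H0T d L) M.b x x)
    rw [Complex.sub_im] at h2
    have h3 := (abs_le.1 (h2.trans h1)).2
    have h4 := h.good.io_ge h.tin h.num (h.nU hx).1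
    have h5 := h.num.c1
    have h6 : ε ≤ ε / f.c1 * (rsc (H0T d L) M.b x x).im := by
      rw [div_mul_eq_mul_div, le_div_iff₀ h5]
      exact mul_le_mul_of_nonneg_left h4 h.cls.ε0
    linarith
  dia x hx := by
    have h1 := h.dd (h.XX hx)
    have h2 := h.good.gam_le h.tin h.num (h.nU hx).1
    have h3 := norm_add_le (rsc (H0T d L) bt x x - rsc (H0T d L) M.b x x)
      (rsc (H0T d L) M.b x x)
    rw [sub_add_cancel] at h3
    have := h.n1
    linarith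
  ent x hx y hy := by
    have h1 := h.dxy (h.XX hx) (h.XX hy)
    have h2 := h.good.ent_Lam h.tin (h.nU hx).1 (h.nU hy).1
    have h3 := norm_add_le (rsc (H0T d L) bt x y - rsc (H0T d L) M.b x y)
      (rsc (H0T d L) M.b x y)
    rw [sub_add_cancel] at h3
    have h4 : ‖rsc (H0T d L) bt x y‖ ≤ u.Lam + ε := by linarith
    exact pow_le_pow_left₀ (norm_nonneg _) h4 2
  H3 x hx := h.h3t hx
  wf := hφ
  al0 := div_nonneg h.cls.ε0 h.num.c1.le
  al1 := hn.al1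
  al2 := hn.al2
  num := hn.num

theorem rt {φ : Tor d L → Tor d L → ℝ} {K Mv cc : ℝ} {l : ℕ} (hn : ExNum f u ε K Mv cc d l)
    (hφ : WFam (H0T d L) bt (M.nr \ B) φ Mv cc d) :
    RT (H0T d L) (M.nr \ B) h.kk h.cc' (fun x => rsc (H0T d L) M.b x x) φ t.eta ε (ε / f.c1)
      (u.rho / 4) f.c1 (2 * f.C1) ((u.Lam + ε) ^ 2) K Mv cc d l where
  tb := by
    rw [h.bv_eq]
    exact h.tb hn hφ
  e0 := h.num.eta
  cim x hx := by
    have hB := (h.nU hx).2
    have hU := (h.nU hx).1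
    have e1 : -(h.cc' x).im = M.eta x - M.k x * (rsc (H0T d L) M.b x x).im := by
      unfold cc' kk
      rw [if_neg hB, h.off x hB]
      simp only [Complex.add_im, Complex.mul_im, Complex.ofReal_re, Complex.ofReal_im, zero_mul,
        add_zero]
      unfold Med.eta
      ring
    rw [e1]
    by_cases hA : x ∈ M.A
    · rw [h.good.eA x hA]
      linarith
    · rw [h.good.k0 x hA, zero_mul, sub_zero]
      exact h.good.eta_ge h.tin h.num hU
  kX x hx := h.kk_off hx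
  a0 := h.cls.ε0
  ga x hx := by
    rw [h.bv_eq]
    exact h.dd (h.XX hx)
  sm := hn.sm

/-- the new diagonal -/
def bn : Tor d L → ℂ :=
  rfb (H0T d L) (M.nr \ B) h.kk h.cc' (fun x => rsc (H0T d L) M.b x x)

/-- the new medium -/
def med : Med (Tor d L) where
  A := M.A \ B
  U := M.U ∪ B
  I := M.I \ B
  k := h.kk
  b := h.bn

theorem rem {φ : Tor d L → Tor d L → ℝ} {K Mv cc : ℝ} {l : ℕ} (hn : ExNum f u ε K Mv cc d l)
    (hφ : WFam (H0T d L) bt (M.nr \ B) φ Mv cc d) : Rem M h.med B := by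
  have hrt := h.rt hn hφ
  have heq : ∀ x, h.bn x = h.cc' x - (h.kk x : ℂ) * rsc (H0T d L) h.bn x x := hrt.eqn
  have hb : ∀ x, x ∉ B → h.bn x = M.b x - (M.k x : ℂ) *
      (rsc (H0T d L) h.bn x x - rsc (H0T d L) M.b x x) := by
    intro x hx
    rw [heq x]
    unfold cc' kk
    rw [if_neg hx, h.off x hx]
    ring
  exact {
    BU := h.BU
    A := rfl
    U := rfl
    I := rfl
    k := fun x hx => if_neg hx
    kB := fun x hx => if_pos hx
    bB := fun x hx => by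
      show (h.bn x).im = 0
      rw [heq x]
      unfold cc' kk
      rw [if_pos hx]
      simp only [Complex.ofReal_zero, zero_mul, add_zero, sub_zero]
      exact h.imB x hx
    bU := fun x hx => by
      have hB : x ∉ B := fun hB => Finset.disjoint_left.1 h.BU hB hx
      show h.bn x = M.b x
      rw [hb x hB, h.good.k0 x fun hA => h.good.nU_of_A hA hx]
      simp
    b := hb
    unit := hrt.two.adm'.unit
    pos := fun x hx => by
      have h1 : x ∉ M.U ∧ x ∉ B := by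
        change x ∉ M.U ∪ B at hx
        simpa only [Finset.mem_union, not_or] using hx
      exact hrt.pos (Finset.mem_sdiff.2 ⟨mem_nr.2 h1.1, h1.2⟩) }

theorem bn_off {x : Tor d L} (hx : x ∉ M.nr \ B) : h.bn x = bt x := by
  unfold bn
  rw [RT.rfb_off hx, h.bv_eq]

theorem diff {φ : Tor d L → Tor d L → ℝ} {K Mv cc : ℝ} {l : ℕ} (hn : ExNum f u ε K Mv cc d l)
    (hφ : WFam (H0T d L) bt (M.nr \ B) φ Mv cc d) (x : Tor d L) :
    h.bn x - bt x = -((h.kk x : ℂ) * (rsc (H0T d L) h.bn x x - rsc (H0T d L) M.b x x)) := by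
  have heq : h.bn x = h.cc' x - (h.kk x : ℂ) * rsc (H0T d L) h.bn x x := (h.rt hn hφ).eqn x
  rw [heq]
  have h2 : bt x = h.cc' x - (h.kk x : ℂ) * rsc (H0T d L) M.b x x := by
    unfold cc'; ring
  rw [h2]
  ring

/-- `∑_X kk |D_xx| ≤ W` -/
theorem kkW : ∑ x ∈ M.nr \ B, h.kk x *
    ‖rsc (H0T d L) bt x x - rsc (H0T d L) M.b x x‖ ≤ W := by
  have h1 : ∑ x ∈ M.nr \ B, h.kk x * ‖rsc (H0T d L) bt x x - rsc (H0T d L) M.b x x‖ =
      ∑ x ∈ M.A \ B, M.k x * ‖rsc (H0T d L) bt x x - rsc (H0T d L) M.b x x‖ := by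
    have hsub : M.A \ B ⊆ M.nr \ B :=
      Finset.sdiff_subset_sdiff h.good.A_sub_nr (Finset.Subset.refl B)
    rw [← Finset.sum_subset hsub]
    · refine Finset.sum_congr rfl fun x hx => ?_
      unfold kk
      rw [if_neg (Finset.mem_sdiff.1 hx).2]
    · intro x hx hxA
      have hB := (h.nU hx).2
      have hA : x ∉ M.A := fun hA => hxA (Finset.mem_sdiff.2 ⟨hA, hB⟩)
      unfold kk
      rw [if_neg hB, h.good.k0 x hA, zero_mul]
  rw [h1]
  exact h.cls.dmass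

theorem gkW {φ : Tor d L → Tor d L → ℝ} {K Mv cc : ℝ} {l : ℕ} (hn : ExNum f u ε K Mv cc d l)
    (hφ : WFam (H0T d L) bt (M.nr \ B) φ Mv cc d) :
    ∑ x ∈ M.nr \ B, h.kk x * ‖rsc (H0T d L) h.bn x x - rsc (H0T d L) M.b x x‖ ≤
      2 * (4 * l * (2 * f.C1) / f.c1) * W := by
  have h1 := (h.rt hn hφ).l10
  rw [h.bv_eq] at h1
  refine h1.trans ?_
  have h2 := (h.rt hn hφ).Pi0
  have h3 := h.kkW
  gcongr

theorem lamW {φ : Tor d L → Tor d L → ℝ} {K Mv cc : ℝ} {l : ℕ} (hn : ExNum f u ε K Mv cc d l)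
    (hφ : WFam (H0T d L) bt (M.nr \ B) φ Mv cc d) :
    ∑ x, ‖h.bn x - bt x‖ ≤ 2 * (4 * l * (2 * f.C1) / f.c1) * W := by
  refine le_trans (le_of_eq ?_) (h.gkW hn hφ)
  rw [← Finset.sum_subset (Finset.subset_univ (M.nr \ B))]
  · refine Finset.sum_congr rfl fun x _ => ?_
    rw [h.diff hn hφ x, norm_neg, norm_mul, Complex.norm_real, Real.norm_eq_abs,
      abs_of_nonneg (h.kk0 x)]
  · intro x _ hx
    rw [h.bn_off hx, sub_self, norm_zero]

/-- relative size of the re-freezing -/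
theorem rfc {φ : Tor d L → Tor d L → ℝ} {K Mv cc : ℝ} {l : ℕ} (hn : ExNum f u ε K Mv cc d l)
    (hφ : WFam (H0T d L) bt (M.nr \ B) φ Mv cc d) :
    RfC (H0T d L) bt h.bn (8 * l * (2 * f.C1) * ε / f.c1 ^ 2) := by
  have h2 := (h.rt hn hφ).two
  rw [h.bv_eq] at h2
  exact {
    adm := h.adm
    adm' := h2.adm'
    r0 := h2.r0
    r1 := h2.r1
    le := fun x => by
      by_cases hx : x ∈ M.nr \ B
      · exact h2.le x hx
      · rw [h.bn_off hx, sub_self, norm_zero, h.bt_im0 hx]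
        simp }

theorem imt {x : Tor d L} (hx : x ∈ X0) : (rsc (H0T d L) bt x x).im ≤ 2 * f.C1 := by
  have h1 := h.dd hx
  have h2 := Complex.abs_im_le_norm (rsc (H0T d L) bt x x - rsc (H0T d L) M.b x x)
  rw [Complex.sub_im] at h2
  have h3 := (abs_le.1 (h2.trans h1)).2
  have h4 := h.good.io_le h.tin h.num (mem_nr.1 (h.X0n hx))
  have := h.n1
  linarith

theorem normt {x : Tor d L} (hx : x ∈ X0) : ‖rsc (H0T d L) bt x x‖ ≤ 2 * f.C1 := by
  have h1 := h.dd hx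
  have h3 := norm_add_le (rsc (H0T d L) bt x x - rsc (H0T d L) M.b x x)
    (rsc (H0T d L) M.b x x)
  rw [sub_add_cancel] at h3
  have h4 := h.good.gam_le h.tin h.num (mem_nr.1 (h.X0n hx))
  have := h.n1
  linarith

/-- fourth moments of the raw medium -/
theorem fourt {x : Tor d L} (hx : x ∈ X0) :
    ∑ y ∈ M.A \ B, ‖rsc (H0T d L) bt x y‖ ^ 4 ≤ 8 * (u.tau + q) := by
  have h1 := h.good.h2 x (mem_nr.1 (h.X0n hx))
  have h2 := h.tin.tau x
  have h3 := h.cls.four x hx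
  have h4 : ∑ y ∈ M.A \ B, ‖rsc (H0T d L) M.b x y‖ ^ 4 ≤ u.tau :=
    (Finset.sum_le_sum_of_subset_of_nonneg Finset.sdiff_subset fun y _ _ => by positivity).trans
      (h1.trans h2)
  calc ∑ y ∈ M.A \ B, ‖rsc (H0T d L) bt x y‖ ^ 4 ≤
        ∑ y ∈ M.A \ B, 8 * (‖rsc (H0T d L) M.b x y‖ ^ 4 +
          ‖rsc (H0T d L) bt x y - rsc (H0T d L) M.b x y‖ ^ 4) := by
        refine Finset.sum_le_sum fun y _ => ?_
        have := four_add (rsc (H0T d L) M.b x y) (rsc (H0T d L) bt x y - rsc (H0T d L) M.b x y)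
        rwa [add_sub_cancel] at this
    _ ≤ _ := by
        rw [← Finset.mul_sum, Finset.sum_add_distrib]
        linarith

/-- the bound of (H5) with the pair weight -/
theorem om_good (hs : s5 = f.s) (hr : 1 ≤ f.r0) (hLam : 0 ≤ u.Lam) (hC2 : 0 ≤ u.C2)
    {x y : Tor d L} (hx : x ∈ X0) (hy : y ∈ X0) :
    ‖rsc (H0T d L) M.b x y‖ * om5 s5 x y ≤ u.Lam * f.r0 ^ s5 + u.C2 := by
  have h1 := h.good.h5 x y (mem_nr.1 (h.X0n hx)) (mem_nr.1 (h.X0n hy))
  have hp := om5_pos s5 x y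
  have hr0 : 0 ≤ f.r0 ^ s5 := Real.rpow_nonneg (by linarith) _
  by_cases hd : f.r0 ≤ (ANM.td x y : ℝ)
  · have h2 := h.tin.h5 x y hd
    have h3 : (0 : ℝ) < ANM.td x y := by linarith
    have h4 : om5 s5 x y = (ANM.td x y : ℝ) ^ s5 := by
      unfold om5
      congr 1
      exact max_eq_right (hr.trans hd)
    have h5 : (ANM.td x y : ℝ) ^ (-f.s) * (ANM.td x y : ℝ) ^ s5 = 1 := by
      rw [← Real.rpow_add h3, hs]
      simp
    calc ‖rsc (H0T d L) M.b x y‖ * om5 s5 x y ≤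
          (u.C2 * (ANM.td x y : ℝ) ^ (-f.s)) * om5 s5 x y :=
          mul_le_mul_of_nonneg_right (h1.trans h2) hp.le
      _ = u.C2 := by rw [h4, mul_assoc, h5, mul_one]
      _ ≤ _ := by nlinarith
  · push Not at hd
    have h4 : om5 s5 x y ≤ f.r0 ^ s5 := by
      unfold om5
      refine Real.rpow_le_rpow (le_trans zero_le_one (le_max_left _ _)) (max_le hr hd.le) h.s50
    calc ‖rsc (H0T d L) M.b x y‖ * om5 s5 x y ≤ u.Lam * f.r0 ^ s5 :=
          mul_le_mul (h1.trans (h.tin.Lam x y)) h4 hp.le hLam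
      _ ≤ _ := by linarith

/-- closeness of the raw medium and the new medium; the far decay is a hypothesis -/
theorem cls2 {φ : Tor d L → Tor d L → ℝ} {K Mv cc : ℝ} {l : ℕ} (hn : ExNum f u ε K Mv cc d l)
    (hφ : WFam (H0T d L) bt (M.nr \ B) φ Mv cc d)
    {Cω ρ ν2 ε2 q2 W2 Kf2 : ℝ} (hs : s5 = f.s) (hr : 1 ≤ f.r0) (hLam : 0 ≤ u.Lam)
    (hC2 : 0 ≤ u.C2) (hτ0 : 0 ≤ u.tau + q)
    (hCω : u.Lam * f.r0 ^ s5 + u.C2 + ε ≤ Cω)
    (hρ0 : 0 ≤ ρ) (hρ8 : 8 * ρ ^ 4 ≤ 1 / 2) (hKρ : 2 ^ s5 * ρ ≤ 1 / 2)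
    (hρ : 4 * (8 * l * (2 * f.C1) * ε / f.c1 ^ 2) * (2 * f.C1) *
      (2 * (4 * l * (2 * f.C1) / f.c1) * W) ≤ ρ ^ 2)
    (hfar : ∀ x ∈ X0, ∀ y ∈ X0, ‖rsc (H0T d L) h.bn x y - rsc (H0T d L) bt x y‖ ≤
      Kf2 * Real.exp (-(ν2 * δ x)))
    (hε2 : 0 ≤ ε2)
    (h1 : 2 * (8 * l * (2 * f.C1) * ε / f.c1 ^ 2) ^ 2 * (2 * f.C1) ≤ ε2 ^ 2)
    (h2 : 4 * 2 ^ s5 * Cω * ρ ≤ ε2) (h3 : ρ ^ 4 * (16 * (8 * (u.tau + q))) ≤ q2)
    (h4 : 2 * (8 * l * (2 * f.C1) * ε / f.c1 ^ 2) *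
      ((2 * f.C1) * (2 * (4 * l * (2 * f.C1) / f.c1) * W)) ≤ W2)
    (h5 : 2 * (4 * l * (2 * f.C1) / f.c1) * W + W ≤ W2) :
    Cls (rsc (H0T d L) bt) (rsc (H0T d L) h.bn) M.eta M.k X0 (M.nr \ B) (M.A \ B) (om5 s5)
      δ ν2 ε2 q2 W2 Kf2 := by
  have hC1 := h.good.C1_pos h.tin h.num
  have hK0 : (0 : ℝ) ≤ 2 ^ s5 := Real.rpow_nonneg (by norm_num) _
  have hCω0 : 0 ≤ Cω := by
    refine le_trans ?_ hCω
    have : 0 ≤ f.r0 ^ s5 := Real.rpow_nonneg (by linarith) _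
    have := h.cls.ε0
    positivity
  have hdm : ∑ x ∈ M.A \ B, M.k x *
      ‖rsc (H0T d L) h.bn x x - rsc (H0T d L) bt x x‖ ≤ W2 := by
    refine le_trans ?_ h5
    have e1 : ∑ x ∈ M.A \ B, M.k x * ‖rsc (H0T d L) h.bn x x - rsc (H0T d L) bt x x‖ ≤
        ∑ x ∈ M.A \ B, M.k x * ‖rsc (H0T d L) h.bn x x - rsc (H0T d L) M.b x x‖ +
        ∑ x ∈ M.A \ B, M.k x * ‖rsc (H0T d L) bt x x - rsc (H0T d L) M.b x x‖ := by
      rw [← Finset.sum_add_distrib]
      refine Finset.sum_le_sum fun x _ => ?_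
      have e2 := norm_sub_le (rsc (H0T d L) h.bn x x - rsc (H0T d L) M.b x x)
        (rsc (H0T d L) bt x x - rsc (H0T d L) M.b x x)
      rw [sub_sub_sub_cancel_right] at e2
      nlinarith [mul_le_mul_of_nonneg_left e2 (h.good.k_nonneg h.num x)]
    have e3 : ∑ x ∈ M.A \ B, M.k x * ‖rsc (H0T d L) h.bn x x - rsc (H0T d L) M.b x x‖ ≤
        2 * (4 * l * (2 * f.C1) / f.c1) * W := by
      refine le_trans ?_ (h.gkW hn hφ)
      have hsub : M.A \ B ⊆ M.nr \ B :=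
        Finset.sdiff_subset_sdiff h.good.A_sub_nr (Finset.Subset.refl B)
      calc ∑ x ∈ M.A \ B, M.k x * ‖rsc (H0T d L) h.bn x x - rsc (H0T d L) M.b x x‖ =
            ∑ x ∈ M.A \ B, h.kk x * ‖rsc (H0T d L) h.bn x x - rsc (H0T d L) M.b x x‖ := by
            refine Finset.sum_congr rfl fun x hx => ?_
            unfold kk
            rw [if_neg (Finset.mem_sdiff.1 hx).2]
        _ ≤ _ := Finset.sum_le_sum_of_subset_of_nonneg hsub fun x _ _ =>
            mul_nonneg (h.kk0 x) (norm_nonneg _)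
    exact e1.trans (add_le_add e3 h.cls.dmass)
  have key := rf_cls (h.rfc hn hφ) (X0 := X0) (X := M.nr \ B) (A := M.A \ B) (Z := M.nr \ B)
    h.XX h.XX (fun z hz => h.bn_off hz) (k := M.k) (ω := om5 s5) (δ := δ) (ν := ν2) (q := q2)
    (Kf := Kf2) (W := W2) (ε := ε2) (K0 := 2 ^ s5)
    (fun x hx => h.imt hx) (by linarith) (h.lamW hn hφ) hρ hρ0 hρ8 hKρ
    (fun z hz => h.fourt (h.XX hz)) (by linarith) (fun x y => (om5_pos s5 x y).le) hK0 hCω0
    (fun x y z => om5_quasi h.s50 x y z)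
    (fun x hx y hy => by
      have e1 := h.om_good hs hr hLam hC2 hx hy
      have e2 := h.cls.rel x hx y hy
      have e3 := norm_add_le (rsc (H0T d L) bt x y - rsc (H0T d L) M.b x y)
        (rsc (H0T d L) M.b x y)
      rw [sub_add_cancel] at e3
      have e4 := mul_le_mul_of_nonneg_right e3 (om5_pos s5 x y).le
      refine e4.trans (le_trans ?_ hCω)
      rw [add_mul]
      linarith)
    hdm hfar hε2 h1 h2 h3 h4
  refine key.congr (fun x hx => ?_) (fun x _ => rfl)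
  unfold Med.eta
  rw [h.off x (h.nU hx).2]

/-- decay of the re-freezing: `w` an admissible weight, almost the distance `δ` -/
theorem far2 {φ : Tor d L → Tor d L → ℝ} {K Mv cc : ℝ} {l : ℕ} (hn : ExNum f u ε K Mv cc d l)
    (hφ : WFam (H0T d L) bt (M.nr \ B) φ Mv cc d) {w : Tor d L → ℝ}
    (hw : AdmW (H0T d L) bt w) {μ wl w0 Kb Sν ν2 : ℝ} (hKf : 0 ≤ Kf)
    (hwu : ∀ x, w x ≤ μ * δ x) (hwl : ∀ x, wl * δ x - w0 ≤ w x)
    (hKb : 1 ≤ Kb) (hk : 1 / Kb ≤ t.kl) (hK1 : 4 ≤ Kb * (u.rho / 4)) (hK2 : 2 ≤ Kb * f.c1)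
    (hν : 2 * ((u.rho / 4) * f.c1 / (16 * (2 * f.C1)) * μ) ≤ ν)
    (hS : ∑ x : Tor d L, Real.exp (-(ν * δ x)) ≤ Sν)
    (hν2 : ν2 ≤ (u.rho / 4) * f.c1 / (16 * (2 * f.C1)) * wl)
    {x y : Tor d L} (hx : x ∈ X0) (hy : y ∈ X0) :
    ‖rsc (H0T d L) h.bn x y - rsc (H0T d L) bt x y‖ ≤
      4 * f.C1 * Kb ^ 3 * (Kf * √Sν) *
        Real.exp ((u.rho / 4) * f.c1 / (16 * (2 * f.C1)) * w0) * Real.exp (-(ν2 * δ x)) := by
  have hC1 := h.good.C1_pos h.tin h.num
  have hc1 := h.num.c1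
  have hρ := h.rho0
  set τ := (u.rho / 4) * f.c1 / (16 * (2 * f.C1)) with hτ
  have hτ0 : 0 ≤ τ := by positivity
  have hd0 := h.δ0
  have hrt := h.rt hn hφ
  have hfr := hrt.frefr (w := w) (by rw [h.bv_eq]; exact hw) (A := M.A \ B) (Kb := Kb)
    (fun x hx => by
      have hA := (Finset.mem_sdiff.1 hx).1
      have hB := (Finset.mem_sdiff.1 hx).2
      refine ⟨Finset.mem_sdiff.2 ⟨h.good.A_sub_nr hA, hB⟩, ?_⟩
      unfold kk
      rw [if_neg hB]
      exact hk.trans (h.good.klo x hA))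
    (fun x hx => by
      unfold kk
      split_ifs with hB
      · rfl
      · exact h.good.k0 x fun hA => hx (Finset.mem_sdiff.2 ⟨hA, hB⟩))
    hKb hK1 hK2
  rw [h.bv_eq] at hfr
  have hSν0 : 0 ≤ Sν := (Finset.sum_nonneg fun x _ => (Real.exp_pos _).le).trans hS
  have hSS : ∑ x ∈ M.A \ B, h.kk x * (Real.exp (2 * (τ * w x)) *
      ‖rsc (H0T d L) bt x x - rsc (H0T d L) M.b x x‖ ^ 2) ≤ (Kf * √Sν) ^ 2 := by
    rw [mul_pow, Real.sq_sqrt hSν0]
    refine le_trans ?_ (mul_le_mul_of_nonneg_left hS (sq_nonneg Kf))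
    rw [Finset.mul_sum]
    refine (Finset.sum_le_sum (g := fun x => Kf ^ 2 * Real.exp (-(ν * δ x)))
      fun x hx => ?_).trans (Finset.sum_le_univ_sum_of_nonneg fun x => by positivity)
    have hxX : x ∈ X0 := h.XX (Finset.mem_sdiff.2
      ⟨h.good.A_sub_nr (Finset.mem_sdiff.1 hx).1, (Finset.mem_sdiff.1 hx).2⟩)
    have e1 := h.cls.far x hxX x hxX
    have e2 : h.kk x ≤ 1 := (h.kk_le x).trans ((h.good.k_le h.num x).trans h.k1)
    have e3 : ‖rsc (H0T d L) bt x x - rsc (H0T d L) M.b x x‖ ^ 2 ≤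
        Kf ^ 2 * Real.exp (-(2 * (ν * δ x))) := by
      calc ‖rsc (H0T d L) bt x x - rsc (H0T d L) M.b x x‖ ^ 2 ≤
            (Kf * Real.exp (-(ν * δ x))) ^ 2 := by gcongr
        _ = _ := by
          rw [mul_pow, ← Real.exp_nat_mul]
          congr 2
          push_cast
          ring
    calc h.kk x * (Real.exp (2 * (τ * w x)) *
          ‖rsc (H0T d L) bt x x - rsc (H0T d L) M.b x x‖ ^ 2) ≤
          1 * (Real.exp (2 * (τ * w x)) * (Kf ^ 2 * Real.exp (-(2 * (ν * δ x))))) := by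
          have := h.kk0 x
          gcongr
      _ = Kf ^ 2 * Real.exp (2 * (τ * w x) - 2 * (ν * δ x)) := by
          rw [sub_eq_add_neg, Real.exp_add]
          ring
      _ ≤ Kf ^ 2 * Real.exp (-(ν * δ x)) := by
          gcongr
          have e4 := mul_le_mul_of_nonneg_left (hwu x) hτ0
          have e5 := mul_le_mul_of_nonneg_right hν (hd0 x)
          nlinarith
  have hent := hfr.ent hSS x y
  have i1 := h.normt hx
  have i2 : (rsc (H0T d L) h.bn y y).im ≤ 4 * f.C1 := by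
    have e1 := (h.rfc hn hφ).im' y
    have e2 := h.imt hy
    linarith
  have i3 : (0 : ℝ) ≤ (rsc (H0T d L) h.bn y y).im := ward_nonneg (h.rfc hn hφ).adm' y
  have e6 : -(2 * (τ * w x)) ≤ 2 * (τ * w0 - ν2 * δ x) := by
    have e4 := mul_le_mul_of_nonneg_left (hwl x) hτ0
    have e5 := mul_le_mul_of_nonneg_right hν2 (hd0 x)
    nlinarith
  rw [norm_sub_rev]
  have hfin : ‖rsc (H0T d L) bt x y - rsc (H0T d L) h.bn x y‖ ^ 2 ≤
      (4 * f.C1 * Kb ^ 3 * (Kf * √Sν) * Real.exp (τ * w0) * Real.exp (-(ν2 * δ x))) ^ 2 := by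
    refine hent.trans ?_
    calc 2 * (Kb ^ 3 * (Kf * √Sν)) ^ 2 * ‖rsc (H0T d L) bt x x‖ *
          Real.exp (-(2 * (τ * w x))) * (rsc (H0T d L) h.bn y y).im ≤
          2 * (Kb ^ 3 * (Kf * √Sν)) ^ 2 * (2 * f.C1) *
            Real.exp (2 * (τ * w0 - ν2 * δ x)) * (4 * f.C1) := by
          gcongr
      _ = (4 * f.C1 * Kb ^ 3 * (Kf * √Sν)) ^ 2 * (Real.exp (τ * w0 - ν2 * δ x)) ^ 2 := by
          rw [← Real.exp_nat_mul]
          push_cast
          ring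
      _ = _ := by
          rw [← mul_pow, sub_eq_add_neg, Real.exp_add]
          ring
  exact (abs_le_of_sq_le_sq' hfin (by positivity)).2

/-- TOTAL CLOSENESS of the old and the new medium -/
theorem total {φ : Tor d L → Tor d L → ℝ} {K Mv cc : ℝ} {l : ℕ} (hn : ExNum f u ε K Mv cc d l)
    (hφ : WFam (H0T d L) bt (M.nr \ B) φ Mv cc d) {ν2 ε2 q2 W2 Kf2 : ℝ} (hν : ν2 ≤ ν)
    (h2 : Cls (rsc (H0T d L) bt) (rsc (H0T d L) h.bn) M.eta M.k X0 (M.nr \ B) (M.A \ B)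
      (om5 s5) δ ν2 ε2 q2 W2 Kf2) :
    Cls (rsc (H0T d L) M.b) (rsc (H0T d L) h.med.b) M.eta M.k X0 h.med.nr h.med.A (om5 s5) δ ν2
      (ε + ε2) (8 * (q + q2)) (2 * (W + W2)) (Kf + Kf2) := by
  rw [(h.rem hn hφ).nr']
  exact Cls.add (fun y hy => (h.good.eta_pos h.tin h.num (h.nU hy).1).le)
    (fun x _ => h.good.k_nonneg h.num x) (fun x y => (om5_pos s5 x y).le)
    (h.cls.rate hν h.δ0) h2

/-- the new medium is the self-consistent medium of the profile after the reading -/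
theorem isMed {X : Type} {Y : Sys X} {π π' : Prof (Tor d L)} {v : Tor d L → X}
    (hM : IsMed (H0T d L) Y π v M) (hp : ReadP π π' B)
    (hbt : ∀ x ∈ B, bt x = cp Y π' v x) {φ : Tor d L → Tor d L → ℝ}
    {K Mv cc : ℝ} {l : ℕ} (hn : ExNum f u ε K Mv cc d l)
    (hφ : WFam (H0T d L) bt (M.nr \ B) φ Mv cc d) :
    IsMed (H0T d L) Y π' v h.med := by
  have hr := h.rem hn hφ
  have hk : h.kk = AND.kp Y π' v := by
    funext x
    unfold kk AND.kp
    rw [hp.act]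
    by_cases hB : x ∈ B
    · rw [if_pos hB, if_neg (fun hh => (Finset.mem_sdiff.1 hh).2 hB)]
    · rw [if_neg hB, hM.k]
      unfold AND.kp
      by_cases hA : x ∈ π.act
      · rw [if_pos hA, if_pos (Finset.mem_sdiff.2 ⟨hA, hB⟩), hp.lev x hB]
      · rw [if_neg hA, if_neg (fun hh => hA (Finset.mem_sdiff.1 hh).1)]
  refine ⟨?_, ?_, ?_, hk, ?_, hr.unit, ?_⟩
  · show M.A \ B = π'.act
    rw [hp.act, hM.A]
  · show M.U ∪ B = π'.rd
    rw [hp.rd, hM.U]
  · show M.I \ B = π'.ine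
    rw [hp.ine, hM.I]
  · intro x
    show h.bn x = cp Y π' v x - (AND.kp Y π' v x : ℂ) * rsc (H0T d L) h.bn x x
    rw [← hk]
    by_cases hB : x ∈ B
    · have hoff : x ∉ M.nr \ B := fun hh => (Finset.mem_sdiff.1 hh).2 hB
      rw [h.bn_off hoff, hbt x hB, h.kk_off hoff]
      simp
    · have e1 : h.bn x = M.b x - (M.k x : ℂ) *
          (rsc (H0T d L) h.bn x x - rsc (H0T d L) M.b x x) := hr.b x hB
      have e2 := hM.b x
      have e3 : cp Y π' v x = cp Y π v x := by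
        unfold cp
        by_cases hR : x ∈ π.rd
        · rw [hp.lev x hB, hp.rd, if_pos (Finset.mem_union_left _ hR), if_pos hR]
        rw [hp.lev x hB, hp.rd, hp.act, hp.ine, hp.sg x hB hR]
        simp only [Finset.mem_union, Finset.mem_sdiff, hB, or_false, not_false_eq_true, and_true]
      have e4 : h.kk x = M.k x := by
        unfold kk
        rw [if_neg hB]
      rw [e1, e3, e4]
      rw [← hM.k] at e2
      rw [e2]
      ring
  · intro x hx
    rw [hp.act, Finset.mem_sdiff] at hx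
    refine hr.pos x ?_
    show x ∉ M.U ∪ B
    rw [Finset.mem_union, not_or]
    rw [← hM.A] at hx
    exact ⟨h.good.nU_of_A hx.1, hx.2⟩

end RawIn

end Pool.Agent.ANI
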