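import Pool.Agent.ANI.RemDec
import Pool.Agent.ANI.InsPre

/-! # ANI REMGOOD: the medium after a removal is good (helper75)

* `eta_S`, `pB_bound`, `WB_bound` : the removed sites seen from outside.
* `rem_good0` : `Good` after the removal, (H3) as a hypothesis (R1 = helper43, R3 = helper87).
-/

open Matrix Finset

noncomputable section

namespace Pool.Agent.ANI

open Pool.Agent.Kin Pool.Agent.APS Pool.Agent.AND Pool.Agent.ANL Pool.Agent.ANM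

variable {d L : ℕ} [NeZero L] {M M' : Med (Tor d L)} {B X0 S F : Finset (Tor d L)}
  {f : Fix} {t : Tol d L} {u : UTol} {c : Tor d L} {s5 ν ε q W Kf : ℝ}
  {κ : Type*} {D : κ → Set (Tor d L)} {a cw : ℕ} {μ : ℝ}

/-- absorption of the active and inert sites -/
theorem eta_AI (hg : Good f t M) (hi : t.In f M u) (hN : Num f t u) {x : Tor d L}
    (hx : x ∈ M.A ∨ x ∈ M.I) : M.eta x ≤ t.eta + t.k * f.C1 := by
  have hC1 := hg.C1_pos hi hN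
  have hk : 0 ≤ t.k := hN.kl.le.trans hN.klk
  rcases hx with hx | hx
  · rw [hg.eA x hx]
    have h1 := hg.khi x hx
    have h2 := hg.io_le hi hN (hg.nU_of_A hx)
    have h3 := hg.io_ge hi hN (hg.nU_of_A hx)
    have h4 := hN.c1
    have h5 : M.k x * (rsc (H0T d L) M.b x x).im ≤ t.k * f.C1 :=
      mul_le_mul h1 h2 (by linarith) hk
    linarith
  · rw [hg.eI x hx]
    have : 0 ≤ t.k * f.C1 := by positivity
    linarith

/-- the removed sites seen from the remaining ones: `S` annulus, `F` content at distance `R0` -/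
theorem pB_bound (hg : Good f t M) (hi : t.In f M u) (hN : Num f t u) (hSU : Disjoint S M.U)
    (hFU : Disjoint F M.U) {eS R0 : ℝ} (heS : 0 ≤ eS) (hS : ∀ y ∈ S, M.eta y ≤ eS)
    (hLam : 0 ≤ u.Lam) (hC2 : 0 ≤ u.C2) (hs : 0 ≤ f.s) (hR0 : f.r0 ≤ R0) (h0 : 0 < R0)
    {x : Tor d L} (hx : x ∉ M.U) (hR : ∀ y ∈ F, R0 ≤ (td x y : ℝ)) :
    ∑ y ∈ S ∪ F, ‖rsc (H0T d L) M.b x y‖ ^ 2 * M.eta y ≤
      S.card * (u.Lam ^ 2 * eS) + F.card * (u.C2 * R0 ^ (-f.s)) ^ 2 := by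
  have he0 : ∀ y, 0 ≤ M.eta y := fun y => hg.eta_nonneg hi hN y
  have h1 : ∑ y ∈ S, ‖rsc (H0T d L) M.b x y‖ ^ 2 * M.eta y ≤ S.card * (u.Lam ^ 2 * eS) := by
    rw [← nsmul_eq_mul, ← Finset.sum_const]
    refine Finset.sum_le_sum fun y hy => ?_
    have h2 := hg.ent_Lam hi hx (Finset.disjoint_left.1 hSU hy)
    have h3 := hS y hy
    have h4 := he0 y
    gcongr
  have h2 : ∑ y ∈ F, ‖rsc (H0T d L) M.b x y‖ ^ 2 * M.eta y ≤
      F.card * (u.C2 * R0 ^ (-f.s)) ^ 2 := by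
    rw [← nsmul_eq_mul, ← Finset.sum_const]
    refine Finset.sum_le_sum fun y hy => ?_
    have hyU := Finset.disjoint_left.1 hFU hy
    have h3 := hR y hy
    have h4 := (hg.h5 x y hx hyU).trans (hi.h5 x y (hR0.trans h3))
    have h5 : (td x y : ℝ) ^ (-f.s) ≤ R0 ^ (-f.s) :=
      Real.rpow_le_rpow_of_nonpos h0 h3 (by linarith)
    have h6 : ‖rsc (H0T d L) M.b x y‖ ≤ u.C2 * R0 ^ (-f.s) :=
      h4.trans (mul_le_mul_of_nonneg_left h5 hC2)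
    have h7 := hg.eS1 y hyU
    have h8 : ‖rsc (H0T d L) M.b x y‖ ^ 2 ≤ (u.C2 * R0 ^ (-f.s)) ^ 2 :=
      pow_le_pow_left₀ (norm_nonneg _) h6 2
    calc ‖rsc (H0T d L) M.b x y‖ ^ 2 * M.eta y ≤ (u.C2 * R0 ^ (-f.s)) ^ 2 * 1 :=
          mul_le_mul h8 h7 (he0 y) (by positivity)
      _ = _ := mul_one _
  have h3 : ∑ y ∈ S ∪ F, ‖rsc (H0T d L) M.b x y‖ ^ 2 * M.eta y ≤
      ∑ y ∈ S, ‖rsc (H0T d L) M.b x y‖ ^ 2 * M.eta y +
        ∑ y ∈ F, ‖rsc (H0T d L) M.b x y‖ ^ 2 * M.eta y := by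
    rw [← Finset.sum_union_inter]
    have : 0 ≤ ∑ y ∈ S ∩ F, ‖rsc (H0T d L) M.b x y‖ ^ 2 * M.eta y :=
      Finset.sum_nonneg fun y _ => mul_nonneg (by positivity) (he0 y)
    linarith
  linarith

theorem WB_bound (hg : Good f t M) (hi : t.In f M u) (hN : Num f t u) (hSU : Disjoint S M.U)
    (hFU : Disjoint F M.U) {eS : ℝ} (heS : 0 ≤ eS) (hS : ∀ y ∈ S, M.eta y ≤ eS) :
    ∑ y ∈ S ∪ F, M.eta y * (rsc (H0T d L) M.b y y).im ≤
      S.card * (eS * f.C1) + F.card * f.C1 := by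
  have he0 : ∀ y, 0 ≤ M.eta y := fun y => hg.eta_nonneg hi hN y
  have hC1 := hg.C1_pos hi hN
  have hi0 : ∀ y, y ∉ M.U → 0 ≤ (rsc (H0T d L) M.b y y).im := fun y hy => by
    have := hg.io_ge hi hN hy
    have := hN.c1
    linarith
  have h1 : ∑ y ∈ S, M.eta y * (rsc (H0T d L) M.b y y).im ≤ S.card * (eS * f.C1) := by
    rw [← nsmul_eq_mul, ← Finset.sum_const]
    refine Finset.sum_le_sum fun y hy => ?_
    have hyU := Finset.disjoint_left.1 hSU hy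
    exact mul_le_mul (hS y hy) (hg.io_le hi hN hyU) (hi0 y hyU) heS
  have h2 : ∑ y ∈ F, M.eta y * (rsc (H0T d L) M.b y y).im ≤ F.card * f.C1 := by
    rw [← nsmul_eq_mul, ← Finset.sum_const]
    refine Finset.sum_le_sum fun y hy => ?_
    have hyU := Finset.disjoint_left.1 hFU hy
    have h3 := mul_le_mul (hg.eS1 y hyU) (hg.io_le hi hN hyU) (hi0 y hyU) zero_le_one
    linarith
  have h3 : ∑ y ∈ S ∪ F, M.eta y * (rsc (H0T d L) M.b y y).im ≤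
      ∑ y ∈ S, M.eta y * (rsc (H0T d L) M.b y y).im +
        ∑ y ∈ F, M.eta y * (rsc (H0T d L) M.b y y).im := by
    rw [← Finset.sum_union_inter]
    have : 0 ≤ ∑ y ∈ S ∩ F, M.eta y * (rsc (H0T d L) M.b y y).im :=
      Finset.sum_nonneg fun y hy => mul_nonneg (he0 y)
        (hi0 y (Finset.disjoint_left.1 hSU (Finset.mem_inter.1 hy).1))
    linarith
  linarith

/-- `Good` after the removal, (H3) as a hypothesis -/
theorem rem_good0 (hd : 3 ≤ d) {X : Type} {Sf : SiteF X} {P : Par} {n s : ℕ}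
    {Fd : Fld (Tor d L)} {π π' : Prof (Tor d L)} {v : Tor d L → X}
    (hg : Good f (tolAt P Sf n Fd π v M) M) (hi : (tolAt P Sf n Fd π v M).In f M u)
    (hN : Num f (tolAt P Sf n Fd π v M) u) (hR : Rem M M' B)
    (hc : RCls M M' X0 c P.s5 ν ε q W Kf) (hX : M'.nr ⊆ X0)
    (hw : Wts f (tolAt P Sf n Fd π v M) M B D a cw μ)
    (rn : RNum d (P.kap n) P.b P.vi P.vt ν ε q Kf s 1) (hν : 4 * ν ≤ μ / a)
    (hcl : 0 ≤ P.cl * P.kap (n + 1)) (het : ∀ x, Fd.et x ≤ 1) (het0 : ∀ x, 0 ≤ Fd.et x)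
    (he1 : ∀ x ∈ M'.A, P.eta + P.kap n * (‖f.g0‖ + (P.del0 + (Fd.err x + 1))) ≤ 1)
    (hk1 : P.kap n ≤ 1) (hs5 : 0 ≤ P.s5) (hBc : ∀ y ∈ B, td y c ≤ s + s / 4) (hLam : 0 ≤ u.Lam)
    {pB WB th Cm l nB cρ ce cm : ℝ} (hpB0 : 0 ≤ pB)
    (hpB : ∀ x ∈ M'.nr, ∑ y ∈ B, ‖rsc (H0T d L) M.b x y‖ ^ 2 * M.eta y ≤ pB)
    (hWB : ∑ y ∈ B, M.eta y * (rsc (H0T d L) M.b y y).im ≤ WB)
    (nr : NumR d s n f P th Cm l W WB 0 1 pB ε (KdR f u cw a μ) Kf u.Lam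
      ν ν nB cρ ce cm)
    (hL : 4 * s + 1 ≤ L) (hnB : (B.card : ℝ) ≤ nB)
    (hC : ∀ i x, (tolAt P Sf n Fd π v M).C0 i x ≤ Cm)
    (hdl1 : ∀ x ∈ M.nr, (tolAt P Sf n Fd π v M).dl x ≤ 1)
    (h3 : ∀ K ∈ (tolAt P Sf n (Fd.ins P n s 1 {c}) π' v M').Ks, ∀ x, x ∉ M'.U →
      ‖∑ y ∈ M'.A, rsc (H0T d L) M'.b x y ^ 2 *
        ((tolAt P Sf n (Fd.ins P n s 1 {c}) π' v M').a K y : ℂ)‖ ≤
        ∑ y ∈ M'.nr, ‖rsc (H0T d L) M'.b x y‖ ^ 2 *
          (tolAt P Sf n (Fd.ins P n s 1 {c}) π' v M').z K y) :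
    Good f (tolAt P Sf n (Fd.ins P n s 1 {c}) π' v M') M' := by
  have h125 : P125 f (tolAt P Sf n (Fd.ins P n s 1 {c}) π' v M') M' :=
    rem_p125_tolAt (s5 := P.s5) Sf hg hR hc hX rn hcl het het0
      (fun x hx => by simpa using he1 x hx)
  have hεc : 2 * ε ≤ f.c1 := by
    have := nr.εc
    linarith
  have hF := remF_of hg hi hN hR hc hX hεc hs5 hw hk1 (s := s) hBc
    (fun x hx _ => hpB x hx) rn.ν0 hν rn.Kf0 hLam hpB0
  obtain ⟨h4l, h4u⟩ := rem_h4 (Z := ∅) (v' := v) (π' := π') hd le_rfl hF nr hL hnB zero_le_one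
    (fun x hx _ _ => hg.eS1 x (hR.nB (mem_nr.1 hx)).1) hWB (by simp) hC hdl1
  exact h125.good h3 h4l h4u

end Pool.Agent.ANI
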